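import Mathlib

/-!
# Hecke operators on Mathlib's cusp forms (MP_d3517d_nt)

`heckeOp` is the operator `f ↦ ∑ f ∣[k] α i` attached to a finite set of representatives `α i`
of `Γ`-cosets stable under right multiplication by `Γ`; `TT N q` is the operator `T_q`
(`q ∤ N`) or `U_q` (`q ∣ N`) on cusp forms for `Γ₀(N)`.
-/

set_option autoImplicit false

open UpperHalfPlane CongruenceSubgroup Matrix Finset
open OnePoint hiding some
open Matrix.SpecialLinearGroup (mapGL)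
open scoped MatrixGroups ModularForm

noncomputable section

namespace Gouvea.ES

section general

variable {Γ : Subgroup (GL (Fin 2) ℝ)} {k : ℤ} {ι : Type} [Fintype ι]

/-- A finite set of representatives of right `Γ`-cosets, stable under right multiplication. -/
structure HeckeReps (Γ : Subgroup (GL (Fin 2) ℝ)) (α : ι → GL (Fin 2) ℝ) : Prop where
  det_pos : ∀ i, 0 < (α i).det.val
  stable : ∀ γ ∈ Γ, ∀ i, ∃ j, α i * γ * (α j)⁻¹ ∈ Γ
  inj : ∀ i j, α i * (α j)⁻¹ ∈ Γ → i = j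
  cusp : ∀ i c, IsCusp c Γ → IsCusp (α i • c) Γ

lemma HeckeReps.exists_perm {α : ι → GL (Fin 2) ℝ} (h : HeckeReps Γ α) {γ : GL (Fin 2) ℝ}
    (hγ : γ ∈ Γ) : ∃ π : Equiv.Perm ι, ∀ i, α i * γ * (α (π i))⁻¹ ∈ Γ := by
  choose g hg using h.stable γ hγ
  have hinj : Function.Injective g := by
    intro i j hij
    refine h.inj i j ?_
    have h1 := Γ.mul_mem (hg i) (Γ.inv_mem (hg j))
    rw [hij] at h1
    have h2 : α i * γ * (α (g j))⁻¹ * (α j * γ * (α (g j))⁻¹)⁻¹ = α i * (α j)⁻¹ := by group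
    rwa [h2] at h1
  exact ⟨Equiv.ofBijective g (Finite.injective_iff_bijective.1 hinj), hg⟩

/-- the slash action of matrices with positive determinant is linear -/
lemma smul_slash_pos {g : GL (Fin 2) ℝ} (hg : 0 < g.det.val) (k : ℤ) (f : ℍ → ℂ) (c : ℂ) :
    (c • f) ∣[k] g = c • f ∣[k] g := by
  rw [ModularForm.smul_slash]
  congr 1
  simp only [UpperHalfPlane.σ, if_pos hg]
  rfl

/-- the operator `f ↦ ∑ f ∣[k] α i` -/
def heckeOp (k : ℤ) {α : ι → GL (Fin 2) ℝ} (h : HeckeReps Γ α) :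
    CuspForm Γ k → CuspForm Γ k := fun f =>
  { toFun := ∑ i, (f : ℍ → ℂ) ∣[k] α i
    slash_action_eq' := by
      intro γ hγ
      obtain ⟨π, hπ⟩ := h.exists_perm hγ
      rw [SlashAction.sum_slash, ← Equiv.sum_comp π (fun i => (f : ℍ → ℂ) ∣[k] α i)]
      refine sum_congr rfl fun i _ => ?_
      have h1 : α i * γ = α i * γ * (α (π i))⁻¹ * α (π i) := by group
      rw [← SlashAction.slash_mul, h1, SlashAction.slash_mul,
        SlashInvariantFormClass.slash_action_eq f _ (hπ i)]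
    holo' := by
      refine MDifferentiable.sum fun i _ => ?_
      exact (CuspFormClass.holo f).slash k (α i)
    zero_at_cusps' := by
      intro c hc g hg
      show IsZeroAtImInfty ((∑ i, (f : ℍ → ℂ) ∣[k] α i) ∣[k] g)
      rw [IsZeroAtImInfty, Filter.ZeroAtFilter, SlashAction.sum_slash, Finset.sum_fn]
      rw [show (0 : ℂ) = ∑ i : ι, 0 by simp]
      refine tendsto_finsetSum _ fun i _ => ?_
      rw [← SlashAction.slash_mul]
      refine CuspFormClass.zero_at_cusps f (h.cusp i c hc) _ ?_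
      rw [mul_smul, hg] }

@[simp] lemma coe_heckeOp (k : ℤ) {α : ι → GL (Fin 2) ℝ} (h : HeckeReps Γ α) (f : CuspForm Γ k) :
    (heckeOp k h f : ℍ → ℂ) = ∑ i, (f : ℍ → ℂ) ∣[k] α i := rfl

/-- the operator `f ↦ ∑ f ∣[k] α i`, as a linear map -/
def heckeL [Γ.HasDetOne] (k : ℤ) {α : ι → GL (Fin 2) ℝ} (h : HeckeReps Γ α) :
    CuspForm Γ k →ₗ[ℂ] CuspForm Γ k where
  toFun := heckeOp k h
  map_add' f g := by
    apply DFunLike.coe_injective
    rw [FunLike.coe_add, coe_heckeOp, coe_heckeOp, coe_heckeOp, FunLike.coe_add,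
      ← sum_add_distrib]
    exact sum_congr rfl fun i _ => SlashAction.add_slash _ _ _ _
  map_smul' c f := by
    apply DFunLike.coe_injective
    rw [RingHom.id_apply, FunLike.coe_smul, coe_heckeOp, coe_heckeOp, FunLike.coe_smul,
      smul_sum]
    exact sum_congr rfl fun i _ => smul_slash_pos (h.det_pos i) k _ c

@[simp] lemma coe_heckeL [Γ.HasDetOne] (k : ℤ) {α : ι → GL (Fin 2) ℝ} (h : HeckeReps Γ α)
    (f : CuspForm Γ k) : (heckeL k h f : ℍ → ℂ) = ∑ i, (f : ℍ → ℂ) ∣[k] α i := rfl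

end general

/-! ### Integral matrices as elements of `GL₂(ℝ)` -/

/-- an integral matrix with non zero determinant as an element of `GL₂(ℝ)` -/
def glR (A : Matrix (Fin 2) (Fin 2) ℤ) (h : A.det ≠ 0) : GL (Fin 2) ℝ :=
  GeneralLinearGroup.mkOfDetNeZero (A.map (Int.cast : ℤ → ℝ)) (by
    have h1 : (A.map (Int.cast : ℤ → ℝ)).det = (A.det : ℝ) := by
      rw [det_fin_two, det_fin_two]; simp
    rw [h1]; exact_mod_cast h)

lemma coe_glR (A : Matrix (Fin 2) (Fin 2) ℤ) (h : A.det ≠ 0) :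
    (glR A h : Matrix (Fin 2) (Fin 2) ℝ) = A.map (Int.cast : ℤ → ℝ) := rfl

lemma glR_det (A : Matrix (Fin 2) (Fin 2) ℤ) (h : A.det ≠ 0) :
    (glR A h).det.val = (A.det : ℝ) := by
  show (glR A h : Matrix (Fin 2) (Fin 2) ℝ).det = _
  rw [coe_glR, det_fin_two, det_fin_two]; simp

/-- the same as an element of `GL₂(ℚ)` -/
def glQ (A : Matrix (Fin 2) (Fin 2) ℤ) (h : A.det ≠ 0) : GL (Fin 2) ℚ :=
  GeneralLinearGroup.mkOfDetNeZero (A.map (Int.cast : ℤ → ℚ)) (by
    have h1 : (A.map (Int.cast : ℤ → ℚ)).det = (A.det : ℚ) := by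
      rw [det_fin_two, det_fin_two]; simp
    rw [h1]; exact_mod_cast h)

lemma glQ_map (A : Matrix (Fin 2) (Fin 2) ℤ) (h : A.det ≠ 0) :
    (glQ A h).map (Rat.castHom ℝ) = glR A h := by
  ext i j
  show ((A.map (Int.cast : ℤ → ℚ)).map (Rat.castHom ℝ)) i j = (A.map (Int.cast : ℤ → ℝ)) i j
  simp

lemma glR_cusp {Γ : Subgroup (GL (Fin 2) ℝ)} [Γ.IsArithmetic] (A : Matrix (Fin 2) (Fin 2) ℤ)
    (h : A.det ≠ 0) {c : OnePoint ℝ} (hc : IsCusp c Γ) : IsCusp (glR A h • c) Γ := by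
  rw [Subgroup.IsArithmetic.isCusp_iff_isCusp_SL2Z, isCusp_SL2Z_iff] at hc ⊢
  obtain ⟨c', rfl⟩ := hc
  refine ⟨glQ A h • c', ?_⟩
  rw [← glQ_map]
  exact OnePoint.map_smul (Rat.castHom ℝ) _ _

/-- the criterion for membership in a subgroup of `SL₂(ℤ)` -/
lemma glR_mem {Γ : Subgroup SL(2, ℤ)} {A B : Matrix (Fin 2) (Fin 2) ℤ} (hA : A.det ≠ 0)
    (hB : B.det ≠ 0) (γ δ : SL(2, ℤ)) (hδ : δ ∈ Γ) (h : A * γ.1 = δ.1 * B) :
    glR A hA * mapGL ℝ γ * (glR B hB)⁻¹ ∈ Γ.map (mapGL ℝ) := by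
  refine ⟨δ, hδ, ?_⟩
  rw [eq_mul_inv_iff_mul_eq]
  apply Units.ext
  have h1 : (A * γ.1).map (Int.cast : ℤ → ℝ) = (δ.1 * B).map (Int.cast : ℤ → ℝ) := by rw [h]
  have e : ∀ X Y : Matrix (Fin 2) (Fin 2) ℤ, (X * Y).map (Int.cast : ℤ → ℝ) =
      X.map (Int.cast : ℤ → ℝ) * Y.map (Int.cast : ℤ → ℝ) := fun X Y =>
    Matrix.map_mul (f := Int.castRingHom ℝ)
  rw [e, e] at h1
  exact h1.symm

/-- conversely -/
lemma eq_of_glR_mem {Γ : Subgroup SL(2, ℤ)} {A B : Matrix (Fin 2) (Fin 2) ℤ} (hA : A.det ≠ 0)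
    (hB : B.det ≠ 0) (h : glR A hA * (glR B hB)⁻¹ ∈ Γ.map (mapGL ℝ)) :
    ∃ δ : SL(2, ℤ), A = δ.1 * B := by
  obtain ⟨δ, _, h1⟩ := h
  refine ⟨δ, ?_⟩
  rw [eq_mul_inv_iff_mul_eq] at h1
  have h2 := congrArg (Units.val) h1
  have e : ∀ X Y : Matrix (Fin 2) (Fin 2) ℤ, (X * Y).map (Int.cast : ℤ → ℝ) =
      X.map (Int.cast : ℤ → ℝ) * Y.map (Int.cast : ℤ → ℝ) := fun X Y =>
    Matrix.map_mul (f := Int.castRingHom ℝ)
  have h3 : (δ.1 * B).map (Int.cast : ℤ → ℝ) = A.map (Int.cast : ℤ → ℝ) := by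
    rw [e]; exact h2
  ext i j
  have h4 := congrFun (congrFun h3 i) j
  simp only [map_apply] at h4
  exact_mod_cast h4.symm

/-! ### The Hecke operators `T_q` and `U_q` for `Γ₀(N)` -/

/-- `Γ₀(N)` as a subgroup of `GL₂(ℝ)` -/
abbrev G0 (N : ℕ) : Subgroup (GL (Fin 2) ℝ) := (Gamma0 N).map (mapGL ℝ)

/-- the matrix `(1 j; 0 q)` -/
def mU (q : ℕ) (j : ℤ) : Matrix (Fin 2) (Fin 2) ℤ := !![1, j; 0, q]

/-- the matrix `(q 0; 0 1)` -/
def mV (q : ℕ) : Matrix (Fin 2) (Fin 2) ℤ := !![q, 0; 0, 1]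

lemma det_mU (q : ℕ) (j : ℤ) : (mU q j).det = q := by
  rw [mU, det_fin_two]; simp

lemma det_mV (q : ℕ) : (mV q).det = q := by
  rw [mV, det_fin_two]; simp

/-- the representatives -/
def hrep (q : ℕ) : Option (Fin q) → Matrix (Fin 2) (Fin 2) ℤ
  | none => mV q
  | some j => mU q (j : ℕ)

lemma det_hrep (q : ℕ) (i : Option (Fin q)) : (hrep q i).det = q := by
  cases i
  · exact det_mV q
  · exact det_mU q _

lemma det_hrep_ne {q : ℕ} (hq : q.Prime) (i : Option (Fin q)) : (hrep q i).det ≠ 0 := by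
  rw [det_hrep]; exact_mod_cast hq.ne_zero

lemma exists_fin {q : ℕ} (hq : q.Prime) {x : ℤ} (hx : ¬ (q : ℤ) ∣ x) (y : ℤ) :
    ∃ j : Fin q, (q : ℤ) ∣ y - (j : ℕ) * x := by
  have := Fact.mk hq
  have hx' : ((x : ℤ) : ZMod q) ≠ 0 := fun h => hx ((ZMod.intCast_zmod_eq_zero_iff_dvd _ _).1 h)
  refine ⟨⟨((y : ZMod q) * (x : ZMod q)⁻¹).val, ZMod.val_lt _⟩, ?_⟩
  rw [← ZMod.intCast_zmod_eq_zero_iff_dvd]
  push_cast
  rw [ZMod.natCast_zmod_val, mul_assoc, inv_mul_cancel₀ hx', mul_one, sub_self]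

lemma fin_eq_of_dvd {q : ℕ} {i j : Fin q} (h : (q : ℤ) ∣ ((i : ℕ) : ℤ) - (j : ℕ)) : i = j := by
  have hi := i.2
  have hj := j.2
  obtain ⟨c, hc⟩ := h
  have h1 : c = 0 := by
    have hq : (0 : ℤ) < q := by omega
    by_contra hne
    rcases lt_or_gt_of_ne hne with h2 | h2
    · have : (q : ℤ) * c ≤ q * (-1) := by
        apply mul_le_mul_of_nonneg_left _ hq.le
        omega
      omega
    · have : (q : ℤ) * 1 ≤ q * c := by
        apply mul_le_mul_of_nonneg_left _ hq.le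
        omega
      omega
  rw [h1, mul_zero] at hc
  exact Fin.ext (by omega)

/-- the key computation: representatives are permuted by `Γ₀(N)` -/
lemma hrep_stable {q N : ℕ} (hq : q.Prime) (γ : SL(2, ℤ)) (hγ : γ ∈ Gamma0 N)
    (i : Option (Fin q)) (hi : q ∣ N → i ≠ none) :
    ∃ j : Option (Fin q), (q ∣ N → j ≠ none) ∧ ∃ δ ∈ Gamma0 N, hrep q i * γ.1 = δ.1 * hrep q j := by
  have hN : (N : ℤ) ∣ γ 1 0 := by
    rw [Gamma0_mem] at hγ
    exact (ZMod.intCast_zmod_eq_zero_iff_dvd _ _).1 hγ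
  have hdet : γ 0 0 * γ 1 1 - γ 0 1 * γ 1 0 = 1 := by
    have := γ.det_coe
    rwa [det_fin_two] at this
  set a := γ 0 0
  set b := γ 0 1
  set c := γ 1 0
  set d := γ 1 1
  have hγ' : (γ.1 : Matrix (Fin 2) (Fin 2) ℤ) = !![a, b; c, d] := by
    ext x y
    fin_cases x <;> fin_cases y <;> rfl
  have hq1 : (1 : ℤ) < q := by exact_mod_cast hq.one_lt
  have hq0 : (q : ℤ) ≠ 0 := by omega
  cases i with
  | some i =>
    by_cases h1 : (q : ℤ) ∣ a + (i : ℕ) * c
    · -- goes to `none`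
      obtain ⟨s, hs⟩ := h1
      have hqN : ¬ q ∣ N := by
        intro h2
        have h3 : (q : ℤ) ∣ c := (Int.natCast_dvd_natCast.2 h2).trans hN
        have h4 : (q : ℤ) ∣ a := by
          have : (q : ℤ) ∣ a + (i : ℕ) * c := ⟨s, hs⟩
          have h5 : (q : ℤ) ∣ (i : ℕ) * c := h3.mul_left _
          exact (dvd_add_left h5).1 this
        have h5 : (q : ℤ) ∣ 1 := by
          rw [← hdet]
          exact dvd_sub (h4.mul_right _) (h3.mul_left _)
        have := Int.le_of_dvd one_pos h5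
        omega
      refine ⟨none, fun h => absurd h hqN, ⟨!![s, b + (i : ℕ) * d; c, q * d], ?_⟩, ?_, ?_⟩
      · rw [det_fin_two_of]
        have : (q : ℤ) * (s * (q * d) - (b + (i : ℕ) * d) * c) = q * 1 := by
          linear_combination (-(q : ℤ) * d) * hs + (q : ℤ) * hdet
        exact mul_left_cancel₀ hq0 this
      · rw [Gamma0_mem]
        exact (ZMod.intCast_zmod_eq_zero_iff_dvd _ _).2 hN
      · show mU q (i : ℕ) * γ.1 = !![s, b + (i : ℕ) * d; c, q * d] * mV q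
        rw [hγ', mU, mV]
        ext x y
        fin_cases x <;> fin_cases y <;> simp [Matrix.mul_apply, Fin.sum_univ_two]
        · linear_combination hs
        · ring
    · obtain ⟨j, t, ht⟩ := exists_fin hq h1 (b + (i : ℕ) * d)
      refine ⟨some j, fun _ => by simp, ⟨!![a + (i : ℕ) * c, t; q * c, d - (j : ℕ) * c], ?_⟩, ?_, ?_⟩
      · rw [det_fin_two_of]
        linear_combination hdet + c * ht
      · rw [Gamma0_mem]
        exact (ZMod.intCast_zmod_eq_zero_iff_dvd _ _).2 (hN.mul_left _)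
      · show mU q (i : ℕ) * γ.1 = !![a + (i : ℕ) * c, t; q * c, d - (j : ℕ) * c] * mU q (j : ℕ)
        rw [hγ', mU, mU]
        ext x y
        fin_cases x <;> fin_cases y <;> simp [Matrix.mul_apply, Fin.sum_univ_two]
        · linear_combination ht
        · ring
  | none =>
    have hqN : ¬ q ∣ N := fun h => hi h rfl
    by_cases h1 : (q : ℤ) ∣ c
    · obtain ⟨s, hs⟩ := h1
      refine ⟨none, fun h => absurd h hqN, ⟨!![a, q * b; s, d], ?_⟩, ?_, ?_⟩
      · rw [det_fin_two_of]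
        linear_combination hdet + b * hs
      · rw [Gamma0_mem]
        refine (ZMod.intCast_zmod_eq_zero_iff_dvd _ _).2 ?_
        have hco : IsCoprime (N : ℤ) (q : ℤ) := by
          rw [Nat.isCoprime_iff_coprime]
          exact ((Nat.Prime.coprime_iff_not_dvd hq).2 hqN).symm
        rw [hs] at hN
        exact hco.dvd_of_dvd_mul_left hN
      · show mV q * γ.1 = !![a, q * b; s, d] * mV q
        rw [hγ', mV]
        ext x y
        fin_cases x <;> fin_cases y <;> simp [Matrix.mul_apply, Fin.sum_univ_two]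
        · ring
        · linear_combination hs
    · obtain ⟨j, t, ht⟩ := exists_fin hq h1 d
      refine ⟨some j, fun h => absurd h hqN, ⟨!![q * a, b - (j : ℕ) * a; c, t], ?_⟩, ?_, ?_⟩
      · rw [det_fin_two_of]
        linear_combination hdet - a * ht
      · rw [Gamma0_mem]
        exact (ZMod.intCast_zmod_eq_zero_iff_dvd _ _).2 hN
      · show mV q * γ.1 = !![q * a, b - (j : ℕ) * a; c, t] * mU q (j : ℕ)
        rw [hγ', mU, mV]
        ext x y
        fin_cases x <;> fin_cases y <;> simp [Matrix.mul_apply, Fin.sum_univ_two]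
        · ring
        · linear_combination ht

/-- different representatives are inequivalent -/
lemma hrep_inj {q : ℕ} (hq : q.Prime) {i j : Option (Fin q)} (δ : SL(2, ℤ))
    (h : hrep q i = δ.1 * hrep q j) : i = j := by
  have hq1 : (1 : ℤ) < q := by exact_mod_cast hq.one_lt
  have e : ∀ x y, hrep q i x y = δ.1 x 0 * hrep q j 0 y + δ.1 x 1 * hrep q j 1 y := fun x y => by
    rw [h, Matrix.mul_apply, Fin.sum_univ_two]
  have h00 := e 0 0
  have h01 := e 0 1
  have h10 := e 1 0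
  have h11 := e 1 1
  have hdvd : ∀ x : ℤ, (1 : ℤ) = q * x → False := fun x hx => by
    have : (q : ℤ) ∣ 1 := ⟨x, hx⟩
    have := Int.le_of_dvd one_pos this
    omega
  cases i <;> cases j
  · rfl
  · exfalso
    simp only [hrep, mV, mU, Matrix.of_apply, cons_val', cons_val_zero, cons_val_one,
      cons_val_fin_one, mul_zero, add_zero, mul_one] at h00 h01 h10 h11
    rw [← h10, zero_mul, zero_add] at h11
    exact hdvd (δ.1 1 1) (by linarith)
  · exfalso
    simp only [hrep, mV, mU, Matrix.of_apply, cons_val', cons_val_zero, cons_val_one,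
      cons_val_fin_one, mul_zero, add_zero, mul_one] at h00 h01 h10 h11
    exact hdvd (δ.1 0 0) (by linarith)
  · simp only [hrep, mV, mU, Matrix.of_apply, cons_val', cons_val_zero, cons_val_one,
      cons_val_fin_one, mul_zero, add_zero, mul_one] at h00 h01 h10 h11
    congr 1
    refine fin_eq_of_dvd ⟨δ.1 0 1, ?_⟩
    rw [← h00] at h01
    linear_combination h01

instance hasDetOne_G0 (N : ℕ) : (G0 N).HasDetOne := inferInstance

/-- the representatives for `T_q`, `q ∤ N` -/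
theorem hreps_T {q N : ℕ} [NeZero N] (hq : q.Prime) (hqN : ¬ q ∣ N) :
    HeckeReps (G0 N) (fun i : Option (Fin q) => glR (hrep q i) (det_hrep_ne hq i)) where
  det_pos i := by
    rw [glR_det, det_hrep]; exact_mod_cast hq.pos
  stable γ hγ i := by
    obtain ⟨γ, hγ, rfl⟩ := hγ
    obtain ⟨j, _, δ, hδ, h⟩ := hrep_stable hq γ hγ i (fun h => absurd h hqN)
    exact ⟨j, glR_mem _ _ γ δ hδ h⟩
  inj i j h := by
    obtain ⟨δ, hδ⟩ := eq_of_glR_mem _ _ h
    exact hrep_inj hq δ hδ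
  cusp i c hc := glR_cusp _ _ hc

/-- the representatives for `U_q`, `q ∣ N` -/
theorem hreps_U {q N : ℕ} [NeZero N] (hq : q.Prime) (hqN : q ∣ N) :
    HeckeReps (G0 N) (fun i : Fin q => glR (hrep q (some i)) (det_hrep_ne hq (some i))) where
  det_pos i := by
    rw [glR_det, det_hrep]; exact_mod_cast hq.pos
  stable γ hγ i := by
    obtain ⟨γ, hγ, rfl⟩ := hγ
    obtain ⟨j, hj, δ, hδ, h⟩ := hrep_stable hq γ hγ (some i) (fun _ => by simp)
    obtain ⟨j', rfl⟩ := Option.ne_none_iff_exists'.1 (hj hqN)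
    exact ⟨j', glR_mem _ _ γ δ hδ h⟩
  inj i j h := by
    obtain ⟨δ, hδ⟩ := eq_of_glR_mem _ _ h
    exact Option.some_injective _ (hrep_inj hq δ hδ)
  cusp i c hc := glR_cusp _ _ hc

/-- `T_q` on cusp forms of level `N`, `q ∤ N` -/
def TqL {q N : ℕ} [NeZero N] (k : ℤ) (hq : q.Prime) (hqN : ¬ q ∣ N) :
    CuspForm (G0 N) k →ₗ[ℂ] CuspForm (G0 N) k := heckeL k (hreps_T hq hqN)

/-- `U_q` on cusp forms of level `N`, `q ∣ N` -/
def UqL {q N : ℕ} [NeZero N] (k : ℤ) (hq : q.Prime) (hqN : q ∣ N) :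
    CuspForm (G0 N) k →ₗ[ℂ] CuspForm (G0 N) k := heckeL k (hreps_U hq hqN)

end Gouvea.ES
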