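import Pool.Agent.Work.MP_d3517d_nt.ES.Defs
import Pool.Agent.Work.MP_d3517d_nt.ES.HeckeOp

/-!
# The Hecke operators `T_l` and `U_l` on `Cusp N k`

`TlC`, `UlC` are the linear maps on `Cusp N k` whose values are the functions `Tl k l f` and
`Ul k l f`.
-/

set_option autoImplicit false

open UpperHalfPlane CongruenceSubgroup Matrix
open Matrix.SpecialLinearGroup (mapGL)
open scoped MatrixGroups ModularForm

noncomputable section

namespace Gouvea.ES

theorem glR_mV (l : ℕ) [NeZero l] (h : (mV l).det ≠ 0) :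
    glR (mV l) h = tri l 0 1 (by simp [NeZero.ne l]) := by
  ext i j
  change ((mV l).map (Int.cast : ℤ → ℝ)) i j = (!![(l : ℝ), 0; 0, 1] : Matrix (Fin 2) (Fin 2) ℝ) i j
  fin_cases i <;> fin_cases j <;> simp [mV]

theorem glR_mU (l : ℕ) [NeZero l] (b : ℤ) (h : (mU l b).det ≠ 0) :
    glR (mU l b) h = tri 1 b l (by simp [NeZero.ne l]) := by
  ext i j
  change ((mU l b).map (Int.cast : ℤ → ℝ)) i j =
    (!![1, (b : ℝ); 0, (l : ℝ)] : Matrix (Fin 2) (Fin 2) ℝ) i j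
  fin_cases i <;> fin_cases j <;> simp [mU]

variable {N : ℕ} [NeZero N] (k : ℕ) {l : ℕ}

/-- `T_l` on `Cusp N k`, `l` a prime not dividing `N` -/
def TlC (hl : l.Prime) (hlN : ¬ l ∣ N) : Cusp N k →ₗ[ℂ] Cusp N k := TqL (k : ℤ) hl hlN

/-- `U_l` on `Cusp N k`, `l` a prime divisor of `N` -/
def UlC (hl : l.Prime) (hlN : l ∣ N) : Cusp N k →ₗ[ℂ] Cusp N k := UqL (k : ℤ) hl hlN

theorem coe_TlC [NeZero l] (hl : l.Prime) (hlN : ¬ l ∣ N) (f : Cusp N k) :
    (TlC k hl hlN f : ℍ → ℂ) = Tl k l f := by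
  have h1 : (TlC k hl hlN f : ℍ → ℂ) = ∑ i : Option (Fin l),
      (f : ℍ → ℂ) ∣[(k : ℤ)] glR (hrep l i) (det_hrep_ne hl i) := rfl
  rw [h1, Fintype.sum_option, Tl, Finset.sum_range]
  congr 1
  · have h2 : glR (hrep l none) (det_hrep_ne hl none) = tri l 0 1 (by simp [NeZero.ne l]) :=
      glR_mV l (det_hrep_ne hl none)
    rw [h2]
  · refine Finset.sum_congr rfl fun j _ => ?_
    have h2 := glR_mU l ((j : ℕ) : ℤ) (det_hrep_ne hl (some j))
    have h3 : glR (hrep l (some j)) (det_hrep_ne hl (some j)) =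
        tri 1 ((j : ℕ) : ℝ) l (by simp [NeZero.ne l]) := by
      refine h2.trans ?_
      congr 1
    rw [h3]

theorem coe_UlC [NeZero l] (hl : l.Prime) (hlN : l ∣ N) (f : Cusp N k) :
    (UlC k hl hlN f : ℍ → ℂ) = Ul k l f := by
  have h1 : (UlC k hl hlN f : ℍ → ℂ) = ∑ i : Fin l,
      (f : ℍ → ℂ) ∣[(k : ℤ)] glR (hrep l (some i)) (det_hrep_ne hl (some i)) := rfl
  rw [h1, Ul, Finset.sum_range]
  refine Finset.sum_congr rfl fun j _ => ?_
  have h2 := glR_mU l ((j : ℕ) : ℤ) (det_hrep_ne hl (some j))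
  have h3 : glR (hrep l (some j)) (det_hrep_ne hl (some j)) =
      tri 1 ((j : ℕ) : ℝ) l (by simp [NeZero.ne l]) := by
    refine h2.trans ?_
    congr 1
  rw [h3]

end Gouvea.ES
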