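import Pool.Agent.Work.MP_d3517d_nt.ES.DimLower

/-!
# Finite dimension and upper bound for modular forms on `Γ₀(N)`

The traces to level one of `f · F ^ i`, `i < [SL₂(ℤ) : Γ]`, determine `f`.
-/

open UpperHalfPlane ModularForm CongruenceSubgroup Matrix Matrix.SpecialLinearGroup
open scoped MatrixGroups ModularForm Manifold Topology Pointwise

noncomputable section

namespace Pool.Agent.Gouv.ESDim

/-- transposed version of `coeff_zero_of_roots` -/
lemma coeff_zero_of_moments {d : ℕ} (f : Fin d → ℍ → ℂ) (hf : ∀ i, MDiff (f i))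
    (r : Fin d → ℍ → ℂ) (hr : ∀ j, MDiff (r j)) (hinj : Function.Injective r)
    (h : ∀ i : Fin d, ∑ j : Fin d, f j * (r j) ^ (i : ℕ) = 0) (j : Fin d) : f j = 0 := by
  classical
  set V : ℍ → ℂ := fun z => (Matrix.vandermonde fun j => r j z).det with hV
  have hVprod : V = ∏ i : Fin d, ∏ j ∈ Finset.Ioi i, (r j - r i) := by
    ext z
    simp [hV, Matrix.det_vandermonde]
  have hVd : MDiff V := by
    rw [hVprod]
    refine MDifferentiable.prod fun a _ => MDifferentiable.prod fun b _ => (hr b).sub (hr a)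
  have hV0 : V ≠ 0 := by
    rw [hVprod]
    intro h0
    rw [UpperHalfPlane.prod_eq_zero_iff] at h0
    · obtain ⟨a, _, ha⟩ := h0
      rw [UpperHalfPlane.prod_eq_zero_iff] at ha
      · obtain ⟨b, hb, hab⟩ := ha
        rw [sub_eq_zero] at hab
        have := hinj hab
        simp [this] at hb
      · exact fun b _ => (hr b).sub (hr a)
    · exact fun a _ => MDifferentiable.prod fun b _ => (hr b).sub (hr a)
  have hmul : f j * V = 0 := by
    ext z
    by_cases hz : V z = 0
    · simp [hz]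
    · have hdet : (Matrix.vandermonde fun j => r j z).transpose.det ≠ 0 := by
        rw [Matrix.det_transpose]
        exact hz
      have hvec : (Matrix.vandermonde fun j => r j z).transpose.mulVec (fun i => f i z) = 0 := by
        ext i
        have := congrFun (h i) z
        simp only [Finset.sum_apply, Pi.mul_apply, Pi.pow_apply, Pi.zero_apply] at this
        simp only [Matrix.mulVec, dotProduct, Matrix.transpose_apply, Matrix.vandermonde_apply,
          Pi.zero_apply]
        rw [← this]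
        exact Finset.sum_congr rfl fun i _ => mul_comm _ _
      have := Matrix.eq_zero_of_mulVec_eq_zero hdet hvec
      have hz' := congrFun this j
      simp only [Pi.zero_apply] at hz'
      simp [hz']
  rcases (UpperHalfPlane.mul_eq_zero_iff (hf j) hVd).1 hmul with h1 | h1
  · exact h1
  · exact absurd h1 hV0

section trace

variable {Γ : Subgroup SL(2, ℤ)}

/-- the cosets -/
abbrev QQ (Γ : Subgroup SL(2, ℤ)) : Type := (𝒮ℒ : Subgroup (GL (Fin 2) ℝ)) ⧸
  ((Γ : Subgroup (GL (Fin 2) ℝ)).subgroupOf 𝒮ℒ)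

lemma quotientFunc_add {k : ℤ} (f g : ModularForm (Γ : Subgroup (GL (Fin 2) ℝ)) k) (q : QQ Γ) :
    SlashInvariantForm.quotientFunc (f + g) q =
      SlashInvariantForm.quotientFunc f q + SlashInvariantForm.quotientFunc g q := by
  induction q using Quotient.inductionOn with
  | h r => simp [SlashInvariantForm.quotientFunc_mk]

lemma quotientFunc_smul' {k : ℤ} (c : ℂ) (f : ModularForm (Γ : Subgroup (GL (Fin 2) ℝ)) k)
    (q : QQ Γ) : SlashInvariantForm.quotientFunc (c • f) q =
      c • SlashInvariantForm.quotientFunc f q := by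
  induction q using Quotient.inductionOn with
  | h r =>
    obtain ⟨_, γ, rfl⟩ := r
    simp only [SlashInvariantForm.quotientFunc_mk, FunLike.coe_smul]
    rw [← map_inv]
    exact SL_smul_slash _ _ _ _

lemma pow_slash (F : ℍ → ℂ) (i : ℕ) (γ : SL(2, ℤ)) :
    (F ^ i) ∣[((i : ℤ) * 12)] γ = (F ∣[(12 : ℤ)] γ) ^ i := by
  ext z
  rw [SL_slash_apply, Pi.pow_apply, Pi.pow_apply, SL_slash_apply, mul_pow, ← zpow_natCast
    (denom γ z ^ (-12 : ℤ)) i, ← _root_.zpow_mul]
  congr 2
  ring

lemma quotientFunc_mulpow {k : ℤ} (f : ModularForm (Γ : Subgroup (GL (Fin 2) ℝ)) k)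
    (F : ModularForm (Γ : Subgroup (GL (Fin 2) ℝ)) 12) (i : ℕ) (q : QQ Γ) :
    SlashInvariantForm.quotientFunc (f.mul (F.pow i)) q =
      SlashInvariantForm.quotientFunc f q * SlashInvariantForm.quotientFunc F q ^ i := by
  induction q using Quotient.inductionOn with
  | h r =>
    obtain ⟨_, γ, rfl⟩ := r
    simp only [SlashInvariantForm.quotientFunc_mk, ModularForm.coe_mul]
    rw [← map_inv]
    change ((f : ℍ → ℂ) * (F.pow i : ℍ → ℂ)) ∣[k + (i : ℤ) * 12] (γ⁻¹ : SL(2, ℤ)) = _
    rw [mul_slash_SL2, ModularForm.coe_pow, pow_slash]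
    rfl

/-- the trace to level one of `f · F ^ i`, linear in `f` -/
def traceL [Γ.FiniteIndex] (F : ModularForm (Γ : Subgroup (GL (Fin 2) ℝ)) 12) (k : ℤ) (i : ℕ) :
    ModularForm (Γ : Subgroup (GL (Fin 2) ℝ)) k →ₗ[ℂ] ModularForm 𝒮ℒ (k + (i : ℤ) * 12) where
  toFun f := ModularForm.trace 𝒮ℒ (f.mul (F.pow i))
  map_add' f g := by
    ext z
    have : ∀ q : QQ Γ, SlashInvariantForm.quotientFunc ((f + g).mul (F.pow i)) q =
        SlashInvariantForm.quotientFunc (f.mul (F.pow i)) q +
        SlashInvariantForm.quotientFunc (g.mul (F.pow i)) q := by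
      intro q
      rw [quotientFunc_mulpow, quotientFunc_mulpow, quotientFunc_mulpow, quotientFunc_add, add_mul]
    simp only [ModularForm.coe_trace, this, FunLike.coe_add, Pi.add_apply, Finset.sum_add_distrib]
  map_smul' c f := by
    ext z
    have : ∀ q : QQ Γ, SlashInvariantForm.quotientFunc ((c • f).mul (F.pow i)) q =
        c • SlashInvariantForm.quotientFunc (f.mul (F.pow i)) q := by
      intro q
      rw [quotientFunc_mulpow, quotientFunc_mulpow, quotientFunc_smul', smul_mul_assoc]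
    simp only [ModularForm.coe_trace, this, FunLike.coe_smul, RingHom.id_apply, Finset.smul_sum]

lemma traceL_apply [Γ.FiniteIndex] (F : ModularForm (Γ : Subgroup (GL (Fin 2) ℝ)) 12) (k : ℤ)
    (i : ℕ) (f : ModularForm (Γ : Subgroup (GL (Fin 2) ℝ)) k) [Fintype (QQ Γ)] :
    (traceL F k i f : ℍ → ℂ) = ∑ q : QQ Γ, SlashInvariantForm.quotientFunc f q *
      SlashInvariantForm.quotientFunc F q ^ i := by
  change (ModularForm.trace 𝒮ℒ (f.mul (F.pow i)) : ℍ → ℂ) = _
  rw [ModularForm.coe_trace]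
  simp only [quotientFunc_mulpow]
  refine Finset.sum_congr ?_ fun _ _ => rfl
  ext
  simp

instance [Γ.FiniteIndex] : Finite (QQ Γ) := by infer_instance

lemma quotientFunc_mdiff {k : ℤ} (f : ModularForm (Γ : Subgroup (GL (Fin 2) ℝ)) k) (q : QQ Γ) :
    MDiff (SlashInvariantForm.quotientFunc f q) := by
  induction q using Quotient.inductionOn with
  | h r => exact (f.holo').slash _ _

lemma quotientFunc_injective (F : ModularForm (Γ : Subgroup (GL (Fin 2) ℝ)) 12)
    (hF : ∀ γ : SL(2, ℤ), ((F : ℍ → ℂ) ∣[(12 : ℤ)] γ) = F → γ ∈ Γ) :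
    Function.Injective fun q : QQ Γ => SlashInvariantForm.quotientFunc F q := by
  intro a b hab
  induction a using Quotient.inductionOn with
  | h r =>
  induction b using Quotient.inductionOn with
  | h s =>
  obtain ⟨_, γ, rfl⟩ := r
  obtain ⟨_, δ, rfl⟩ := s
  simp only [SlashInvariantForm.quotientFunc_mk] at hab
  have h1 : ((F : ℍ → ℂ) ∣[(12 : ℤ)] (γ⁻¹ * δ)) = F := by
    change (F : ℍ → ℂ) ∣[(12 : ℤ)] (mapGL ℝ (γ⁻¹ * δ) : GL (Fin 2) ℝ) = F
    rw [map_mul, map_inv, SlashAction.slash_mul, hab, ← SlashAction.slash_mul,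
      inv_mul_cancel, SlashAction.slash_one]
  have h2 := hF _ h1
  apply Quotient.sound
  rw [← Quotient.eq_iff_equiv, Quotient.eq, QuotientGroup.leftRel_apply]
  exact ⟨_, h2, by simp⟩

/-- all the traces -/
def traceAll [Γ.FiniteIndex] (F : ModularForm (Γ : Subgroup (GL (Fin 2) ℝ)) 12) (k : ℤ) :
    ModularForm (Γ : Subgroup (GL (Fin 2) ℝ)) k →ₗ[ℂ]
      ((i : Fin (Nat.card (QQ Γ))) → ModularForm 𝒮ℒ (k + ((i : ℕ) : ℤ) * 12)) :=
  LinearMap.pi fun i => traceL F k i

theorem traceAll_injective [Γ.FiniteIndex] (F : ModularForm (Γ : Subgroup (GL (Fin 2) ℝ)) 12)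
    (hF : ∀ γ : SL(2, ℤ), ((F : ℍ → ℂ) ∣[(12 : ℤ)] γ) = F → γ ∈ Γ) (k : ℤ) :
    Function.Injective (traceAll F k) := by
  classical
  rw [injective_iff_map_eq_zero]
  intro f hf
  let := Fintype.ofFinite (QQ Γ)
  have e : Fin (Nat.card (QQ Γ)) ≃ QQ Γ := (Finite.equivFinOfCardEq rfl).symm
  have key := coeff_zero_of_moments
    (fun j => SlashInvariantForm.quotientFunc f (e j)) (fun j => quotientFunc_mdiff f _)
    (fun j => SlashInvariantForm.quotientFunc F (e j)) (fun j => quotientFunc_mdiff F _)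
    (fun a b hab => e.injective (quotientFunc_injective F hF hab))
    (fun i => by
      have h1 : traceL F k i f = 0 := congrFun hf i
      have h2 := traceL_apply F k i f
      rw [h1] at h2
      rw [e.sum_comp (fun q => SlashInvariantForm.quotientFunc f q *
        SlashInvariantForm.quotientFunc F q ^ (i : ℕ)), ← h2]
      rfl)
  have h3 := key (e.symm (Quotient.mk _ 1))
  simp only [Equiv.apply_symm_apply, SlashInvariantForm.quotientFunc_mk] at h3
  ext z
  have := congrFun h3 z
  simpa using this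

end trace

/-! ## Finite dimension, the bounds -/

section bounds

variable (N : ℕ) [NeZero N]

instance finite_modularForm (k : ℤ) : Module.Finite ℂ
    (ModularForm ((Gamma0 N : Subgroup SL(2, ℤ)) : Subgroup (GL (Fin 2) ℝ)) k) :=
  Module.Finite.of_injective _ (traceAll_injective (formN N) (mem_of_fix N) k)

instance finite_cuspForm (k : ℤ) : Module.Finite ℂ
    (CuspForm ((Gamma0 N : Subgroup SL(2, ℤ)) : Subgroup (GL (Fin 2) ℝ)) k) :=
  Module.Finite.of_injective _ CuspForm.toModularFormₗ_injective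

lemma card_QQ (Γ : Subgroup SL(2, ℤ)) : Nat.card (QQ Γ) = Γ.index := by
  have h1 : Nat.card (QQ Γ) = ((Γ : Subgroup (GL (Fin 2) ℝ)).relIndex 𝒮ℒ) := rfl
  rw [h1, MonoidHom.range_eq_map, ← Subgroup.relIndex_comap,
    Subgroup.comap_map_eq_self_of_injective mapGL_injective, Subgroup.relIndex_top_right]

lemma finrank_level_one_le (k : ℕ) : Module.finrank ℂ (ModularForm 𝒮ℒ k) ≤ k / 12 + 1 := by
  rcases Nat.even_or_odd k with hk | hk
  · have h := ModularForm.dimension_level_one k hk
    have h2 : Module.finrank ℂ (ModularForm 𝒮ℒ k) =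
        if k ≡ 2 [MOD 12] then k / 12 else k / 12 + 1 := by
      apply Module.finrank_eq_of_rank_eq
      rw [h]
    rw [h2]
    split_ifs <;> omega
  · have h := ModularForm.levelOne_odd_weight_rank_zero (k := (k : ℤ)) (by exact_mod_cast hk)
    have h2 : Module.finrank ℂ (ModularForm 𝒮ℒ k) = 0 := by
      apply Module.finrank_eq_of_rank_eq
      rw [h]
      simp
    omega

/-- **Upper bound.** -/
theorem finrank_modularForm_le (k : ℕ) :
    12 * Module.finrank ℂ
      (ModularForm ((Gamma0 N : Subgroup SL(2, ℤ)) : Subgroup (GL (Fin 2) ℝ)) k) ≤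
      (Gamma0 N).index * k + 12 * ((Gamma0 N).index ^ 2 + (Gamma0 N).index) := by
  have h1 := LinearMap.finrank_le_finrank_of_injective
    (traceAll_injective (formN N) (mem_of_fix N) (k : ℤ))
  rw [Module.finrank_pi_fintype] at h1
  have h2 : ∀ i : Fin (Nat.card (QQ (Gamma0 N))),
      12 * Module.finrank ℂ (ModularForm 𝒮ℒ ((k : ℤ) + ((i : ℕ) : ℤ) * 12)) ≤
        k + 12 * (Gamma0 N).index + 12 := by
    intro i
    have h3 := finrank_level_one_le (k + i * 12)
    have h4 : ((k + i * 12 : ℕ) : ℤ) = (k : ℤ) + ((i : ℕ) : ℤ) * 12 := by push_cast; ring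
    rw [h4] at h3
    have h5 : (i : ℕ) < (Gamma0 N).index := by
      have := i.2
      exact lt_of_lt_of_eq this (card_QQ _)
    have h6 : 12 * ((k + (i : ℕ) * 12) / 12) ≤ k + i * 12 := Nat.mul_div_le _ _
    omega
  have h7 : 12 * ∑ i : Fin (Nat.card (QQ (Gamma0 N))),
      Module.finrank ℂ (ModularForm 𝒮ℒ ((k : ℤ) + ((i : ℕ) : ℤ) * 12)) ≤
      (Gamma0 N).index * (k + 12 * (Gamma0 N).index + 12) := by
    rw [Finset.mul_sum]
    refine (Finset.sum_le_card_nsmul _ _ _ fun i _ => h2 i).trans ?_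
    rw [Finset.card_univ, Fintype.card_fin, card_QQ, smul_eq_mul]
  nlinarith

/-- **Lower bound.** -/
theorem finrank_cuspForm_ge (k : ℕ) (hk : Even k) :
    (Gamma0 N).index * k ≤ 12 * Module.finrank ℂ
      (CuspForm ((Gamma0 N : Subgroup SL(2, ℤ)) : Subgroup (GL (Fin 2) ℝ)) k) +
      12 * ((Gamma0 N).index ^ 2 + (Gamma0 N).index) := by
  set d := (Gamma0 N).index with hd
  by_cases h : 12 * d ≤ k
  · have h1 := rank_cuspForm_ge N k hk h
    rw [← Module.finrank_eq_rank] at h1
    have h2 : d * ((k - 12 * d) / 12) ≤ Module.finrank ℂ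
      (CuspForm ((Gamma0 N : Subgroup SL(2, ℤ)) : Subgroup (GL (Fin 2) ℝ)) k) := by
      exact_mod_cast h1
    have h3 : k ≤ 12 * ((k - 12 * d) / 12) + 12 * d + 12 := by omega
    have h4 : d * k ≤ d * (12 * ((k - 12 * d) / 12) + 12 * d + 12) := Nat.mul_le_mul_left _ h3
    nlinarith
  · push Not at h
    have : d * k ≤ d * (12 * d) := Nat.mul_le_mul_left _ h.le
    nlinarith

lemma finrank_cuspForm_le (k : ℕ) :
    12 * Module.finrank ℂ
      (CuspForm ((Gamma0 N : Subgroup SL(2, ℤ)) : Subgroup (GL (Fin 2) ℝ)) k) ≤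
      (Gamma0 N).index * k + 12 * ((Gamma0 N).index ^ 2 + (Gamma0 N).index) := by
  have h1 := LinearMap.finrank_le_finrank_of_injective
    (CuspForm.toModularFormₗ_injective
      (Γ := ((Gamma0 N : Subgroup SL(2, ℤ)) : Subgroup (GL (Fin 2) ℝ))) (k := (k : ℤ)))
  have h2 := finrank_modularForm_le N k
  omega

end bounds

end Pool.Agent.Gouv.ESDim
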