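import Mathlib

/-!
# The maximum modulus principle on a modular curve (MP_d3517d_nt, ES, weight 2)

`exp_eq_of_re_invariant`: let `G` be holomorphic on `ℍ`, with a real part invariant under a
subgroup of finite index of `SL(2, ℤ)`, such that every `G ∘ g`, `g ∈ SL(2, ℤ)`, has period `N`
and is bounded at `i∞`.  Then `exp ∘ G` is constant.
-/

open Filter Topology UpperHalfPlane Asymptotics ModularGroup

open scoped MatrixGroups Real ModularForm Manifold

noncomputable section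

namespace Gouvea

namespace ES

/-- periodicity of the extension to `ℂ`. -/
lemma periodic_ofComplex {f : ℍ → ℂ} {N : ℝ} (h : ∀ τ : ℍ, f (N +ᵥ τ) = f τ) :
    Function.Periodic (f ∘ ofComplex) (N : ℂ) := by
  intro w
  by_cases hw : 0 < w.im
  · have hw' : 0 < (w + N).im := by simpa using hw
    simp only [Function.comp_apply]
    rw [ofComplex_apply_of_im_pos hw', ofComplex_apply_of_im_pos hw, ← h ⟨w, hw⟩]
    congr 1
    apply UpperHalfPlane.ext
    simp [add_comm]
  · have hw1 : w.im ≤ 0 := not_lt.1 hw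
    have hw' : (w + N).im ≤ 0 := by simpa using hw1
    simp only [Function.comp_apply]
    rw [ofComplex_apply_of_im_nonpos hw', ofComplex_apply_of_im_nonpos hw1]

theorem exp_eq_of_re_invariant {Γ : Subgroup SL(2, ℤ)} [Γ.FiniteIndex] {G : ℍ → ℂ}
    (hG : MDiff G) (hinv : ∀ γ ∈ Γ, ∀ τ : ℍ, (G (γ • τ)).re = (G τ).re)
    {N : ℝ} (hN : 0 < N) (hper : ∀ (g : SL(2, ℤ)) (τ : ℍ), G (g • (N +ᵥ τ)) = G (g • τ))
    (hb : ∀ g : SL(2, ℤ), IsBoundedAtImInfty fun τ => G (g • τ)) (τ τ' : ℍ) :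
    Complex.exp (G τ) = Complex.exp (G τ') := by
  classical
  have : Fintype (SL(2, ℤ) ⧸ Γ) := Subgroup.fintypeQuotientOfFiniteIndex
  -- the vector of all conjugates
  set F : (SL(2, ℤ) ⧸ Γ) → ℍ → ℂ := fun c τ => Complex.exp (G ((Quotient.out c)⁻¹ • τ)) with hF
  have hFd : ∀ c, MDiff (F c) := by
    intro c
    have h1 : MDiff fun τ : ℍ => G ((Quotient.out c)⁻¹ • τ) :=
      hG.comp (mdifferentiable_smul (g := (((Quotient.out c)⁻¹ : SL(2, ℤ)) : GL (Fin 2) ℝ))
        (by simp))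
    rw [mdifferentiable_iff] at h1 ⊢
    exact h1.cexp
  have hFp : ∀ c, Function.Periodic (F c ∘ ofComplex) (N : ℂ) := by
    intro c
    refine periodic_ofComplex fun τ => ?_
    rw [hF]
    simp only [hper]
  have hFb : ∀ c, IsBoundedAtImInfty (F c) := by
    intro c
    obtain ⟨B, A, hB⟩ := isBoundedAtImInfty_iff.1 (hb (Quotient.out c)⁻¹)
    refine isBoundedAtImInfty_iff.2 ⟨Real.exp B, A, fun z hz => ?_⟩
    rw [hF]
    simp only
    rw [Complex.norm_exp]
    exact Real.exp_le_exp.2 ((Complex.re_le_norm _).trans (hB z hz))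
  -- the real part on the cosets
  let R (τ : ℍ) : SL(2, ℤ) ⧸ Γ → ℝ := Quotient.lift (fun g ↦ (G (g⁻¹ • τ)).re) fun g h hgh ↦ by
    obtain ⟨j, hj, hj'⟩ : ∃ j ∈ Γ, h = g * j := by
      rw [← Quotient.eq_iff_equiv, Quotient.eq, QuotientGroup.leftRel_apply] at hgh
      exact ⟨g⁻¹ * h, hgh, (mul_inv_cancel_left g h).symm⟩
    simp [-sl_moeb, hj', mul_smul, hinv j⁻¹ (inv_mem hj)]
  have hR_inv (τ : ℍ) (g : SL(2, ℤ)) (c : SL(2, ℤ) ⧸ Γ) : R (g • τ) (g • c) = R τ c := by
    induction c using QuotientGroup.induction_on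
    simp [-sl_moeb, R, mul_smul]
  have hFR (c : SL(2, ℤ) ⧸ Γ) (τ : ℍ) : ‖F c τ‖ = Real.exp (R τ c) := by
    have h1 : R τ c = R τ ((Quotient.out c : SL(2, ℤ)) : SL(2, ℤ) ⧸ Γ) := by
      rw [QuotientGroup.out_eq']
    rw [h1, hF]
    simp only
    rw [Complex.norm_exp]
    rfl
  set T : ℍ → ℝ := fun τ => ∑ c, ‖F c τ‖ ^ 2 with hT
  have hT_inv (g : SL(2, ℤ)) (τ : ℍ) : T (g • τ) = T τ := by
    rw [hT]
    simp only [hFR]
    exact (Fintype.sum_equiv (MulAction.toPerm g) _ _ (by simp [-sl_moeb, hR_inv])).symm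
  -- the vector valued function of `q`
  set Φ : ℂ → EuclideanSpace ℂ (SL(2, ℤ) ⧸ Γ) := fun q =>
    WithLp.toLp 2 (fun c => cuspFunction N (F c) q) with hΦ
  have hΦd : DifferentiableOn ℂ Φ (Metric.ball 0 1) := by
    rw [differentiableOn_euclidean]
    exact fun c => differentiableOn_cuspFunction_ball hN (hFp c) (hFd c) (hFb c)
  have hΦq (τ : ℍ) : Φ (Function.Periodic.qParam N τ) = WithLp.toLp 2 (fun c => F c τ) := by
    rw [hΦ]
    simp only
    congr 1
    funext c
    exact eq_cuspFunction τ hN.ne' (hFp c)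
  have hΦn (τ : ℍ) : ‖Φ (Function.Periodic.qParam N τ)‖ = Real.sqrt (T τ) := by
    rw [hΦq, EuclideanSpace.norm_eq]
  have hlt (τ : ℍ) : Function.Periodic.qParam N τ ∈ Metric.ball (0 : ℂ) 1 := by
    rw [mem_ball_zero_iff]
    exact Function.Periodic.norm_qParam_lt_one hN τ.im_pos
  have hconst : Set.EqOn Φ (Function.const ℂ (Φ 0)) (Metric.ball 0 1) := by
    refine Complex.eq_const_of_exists_le (r := Real.exp (-π / N)) hΦd (Real.exp_nonneg _) ?_
      fun q hq => ?_
    · rw [Real.exp_lt_one_iff, neg_div]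
      exact neg_lt_zero.2 (div_pos Real.pi_pos hN)
    · rcases eq_or_ne q 0 with rfl | hq'
      · exact ⟨0, by simpa using Real.exp_nonneg _, le_rfl⟩
      · have him : 0 < (Function.Periodic.invQParam N q).im :=
          Function.Periodic.im_invQParam_pos_of_norm_lt_one hN (mem_ball_zero_iff.1 hq) hq'
        set σ : ℍ := ⟨Function.Periodic.invQParam N q, him⟩ with hσ
        have hσq : Function.Periodic.qParam N σ = q :=
          Function.Periodic.qParam_right_inv hN.ne' hq'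
        obtain ⟨g, hg⟩ := ModularGroup.exists_one_half_le_im_smul σ
        refine ⟨Function.Periodic.qParam N (g • σ : ℍ), ?_, ?_⟩
        · rw [mem_closedBall_zero_iff, Function.Periodic.norm_qParam, Real.exp_le_exp]
          rw [div_le_div_iff_of_pos_right hN]
          have h1 : (1 : ℝ) / 2 ≤ ((g • σ : ℍ) : ℂ).im := hg
          have := Real.pi_pos
          nlinarith
        · rw [hΦn, hT_inv, ← hσq, hΦn]
  have h1 (σ σ' : ℍ) : Φ (Function.Periodic.qParam N σ) = Φ (Function.Periodic.qParam N σ') :=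
    (hconst (hlt σ)).trans (hconst (hlt σ')).symm
  set c : SL(2, ℤ) ⧸ Γ := ((1 : SL(2, ℤ)) : SL(2, ℤ) ⧸ Γ) with hc
  have h2 := h1 (Quotient.out c • τ) (Quotient.out c • τ')
  rw [hΦq, hΦq] at h2
  have h3 : F c (Quotient.out c • τ) = F c (Quotient.out c • τ') :=
    congrFun (congrArg WithLp.ofLp h2) c
  rw [hF] at h3
  simp only [inv_smul_smul] at h3
  exact h3

end ES

end Gouvea
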