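import Pool.Agent.Work.MP_d3517d_nt.ES.InjFour
import Pool.Agent.Work.MP_d3517d_nt.ES.MaxMod

/-!
# Injectivity of the period map in weight 2 (MP_d3517d_nt, ES)

* `pr f τ = ∫_τ^{i∞} f` for a nice function of weight `2`, and its behaviour at the cusps;
* `period_eq`: `sym 0 f x (γ x) = pr f τ - pr f (γ τ)`;
* `eq_zero_of_re_period`: a nice function of weight `2`, invariant under `Γ₀(M)`, whose periods
  over `Γ₀(M)` are purely imaginary is zero (maximum modulus principle);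
* `eps_inj_two`: if the even or odd part of the period homomorphism of `f ∈ S₂(Γ₀(M))` vanishes
  on `Γ₀(M)`, then `f = 0`;
* `ESmap_two`: `ESmap M 0 (f, g)` vanishes on all pairs `(∞, γ ∞)`, `γ ∈ Γ₀(M)`, only if
  `f = g = 0` (injectivity modulo boundary symbols);
* `ESmap_injective_all`: `ESmap M n` is injective for every even `n`.
-/

open Filter Topology UpperHalfPlane Polynomial Asymptotics MeasureTheory
open scoped MatrixGroups ModularForm Real ComplexConjugate Manifold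

noncomputable section

namespace Gouvea.ES

open Pool.Agent.Gouv.ES

/-- `∫_τ^{i∞} f` -/
def pr (f : ℍ → ℂ) (τ : ℍ) : ℂ := vint (fun z => f (ofComplex z)) (τ : ℂ)

variable {f g : ℍ → ℂ}

lemma pr_ofComplex (f : ℍ → ℂ) {z : ℂ} (hz : 0 < z.im) :
    pr f (ofComplex z) = vint (fun z => f (ofComplex z)) z := by
  rw [pr, ofComplex_apply_of_im_pos hz]

/-- `pr f` is a primitive of `-f`. -/
lemma hasDerivAt_pr {k : ℤ} (hf : Nice k f) {z : ℂ} (hz : 0 < z.im) :
    HasDerivAt (fun w => pr f (ofComplex w)) (-f (ofComplex z)) z := by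
  refine (hf.dec.hasDerivAt_vint hz).congr_of_eventuallyEq ?_
  filter_upwards [isOpen_HP.mem_nhds (mem_HP.2 hz)] with w hw
  exact pr_ofComplex f hw

lemma mdiff_pr {k : ℤ} (hf : Nice k f) : MDiff (pr f) := by
  rw [mdifferentiable_iff]
  exact fun z hz => (hasDerivAt_pr hf hz).differentiableAt.differentiableWithinAt

/-- `pr f` tends to zero at `i∞`, uniformly in the real part. -/
lemma tendsto_pr {k : ℤ} (hf : Nice k f) : Tendsto (pr f) atImInfty (𝓝 0) := by
  have h1 := hf.expDec (a := 1) (by simp)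
  rw [map_one, SlashAction.slash_one] at h1
  obtain ⟨c, hc, h2⟩ := h1
  obtain ⟨C, hC⟩ := h2.bound
  rw [atImInfty, eventually_comap] at hC
  obtain ⟨B, hB⟩ := eventually_atTop.1 hC
  have hbound : ∀ τ : ℍ, B ≤ τ.im → ‖pr f τ‖ ≤ (|C| / c) * Real.exp (-c * τ.im) := by
    intro τ hτ
    rw [pr, vint, norm_mul, Complex.norm_I, one_mul]
    have h3 : ∀ t ∈ Set.Ioi (0 : ℝ), ‖f (ofComplex ((τ : ℂ) + t * Complex.I))‖ ≤
        |C| * Real.exp (-c * τ.im) * Real.exp (-c * t) := by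
      intro t ht
      have ht' : (0 : ℝ) < t := ht
      have him : 0 < ((τ : ℂ) + t * Complex.I).im := by
        rw [add_mul_I_im]
        exact add_pos τ.im_pos ht'
      have e : (ofComplex ((τ : ℂ) + t * Complex.I)).im = τ.im + t := by
        rw [ofComplex_apply_of_im_pos him]
        exact add_mul_I_im _ _
      have h4 := hB (τ.im + t) (by linarith) (ofComplex ((τ : ℂ) + t * Complex.I)) e
      refine h4.trans ?_
      rw [Real.norm_of_nonneg (Real.exp_pos _).le, e, mul_assoc, ← Real.exp_add]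
      have e2 : -c * (τ.im + t) = -c * τ.im + -c * t := by ring
      rw [e2]
      exact mul_le_mul_of_nonneg_right (le_abs_self C) (Real.exp_pos _).le
    have hint : IntegrableOn (fun t : ℝ => |C| * Real.exp (-c * τ.im) * Real.exp (-c * t))
        (Set.Ioi 0) := (exp_neg_integrableOn_Ioi 0 hc).const_mul _
    have h5 := norm_integral_le_of_norm_le hint
      ((ae_restrict_iff' measurableSet_Ioi).2 (Eventually.of_forall h3))
    refine h5.trans (le_of_eq ?_)
    rw [integral_const_mul]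
    have h6 : ∫ t in Set.Ioi (0 : ℝ), Real.exp (-c * t) = 1 / c := by
      have := integral_exp_mul_Ioi (a := -c) (by linarith) 0
      rw [this]
      simp
    rw [h6]
    ring
  rw [tendsto_zero_iff_norm_tendsto_zero]
  have h7 : Tendsto (fun τ : ℍ => (|C| / c) * Real.exp (-c * τ.im)) atImInfty (𝓝 0) := by
    have h8 : Tendsto (fun y : ℝ => (|C| / c) * Real.exp (-c * y)) atTop (𝓝 ((|C| / c) * 0)) := by
      refine Tendsto.const_mul _ ?_
      refine Real.tendsto_exp_atBot.comp ?_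
      exact tendsto_id.const_mul_atTop_of_neg (by linarith)
    rw [mul_zero] at h8
    exact h8.comp tendsto_comap
  refine squeeze_zero' (Eventually.of_forall fun _ => norm_nonneg _) ?_ h7
  rw [atImInfty, eventually_comap]
  filter_upwards [eventually_ge_atTop B] with b hb τ hτ
  exact hbound τ (by rw [hτ]; exact hb)

/-- `act 0` is the identity on constants. -/
lemma act_zero_eq (γ : GL (Fin 2) ℝ) {P : ℂ[X]} (hP : P.natDegree ≤ 0) : act 0 γ P = P := by
  have h1 : ∀ x : ℂ, (act 0 γ P).eval x = P.coeff 0 := by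
    intro x
    rw [eval_act]
    simp
  have h2 : act 0 γ P = C (P.coeff 0) := by
    refine Polynomial.funext fun x => ?_
    rw [h1, eval_C]
  rw [h2]
  exact (eq_C_of_natDegree_le_zero hP).symm

lemma coeff_prim_zero (g : ℂ → ℂ) (z : ℂ) : (prim 0 g z).coeff 0 = vint g z := by
  rw [coeff_prim]
  simp

/-- **the periods**, on `ℍ`. -/
theorem pr_smul (hf : Nice ((0 + 2 : ℕ) : ℤ) f) {a : GQ} (ha : 0 < a.det.val) (τ : ℍ) :
    pr f (toR a • τ) = pr (f ∣[((0 + 2 : ℕ) : ℤ)] toR a) τ -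
      (sym 0 f OnePoint.infty (a • OnePoint.infty)).coeff 0 := by
  have hR := toR_det_pos ha
  have hz : 0 < (τ : ℂ).im := τ.im_pos
  have hw : 0 < (mob (toR a) (τ : ℂ)).im := mob_im_pos hR hz
  have h1 := act_E hf ha hz
  rw [act_zero_eq _ (natDegree_E_le _ _ _ _)] at h1
  have h2 := sym_eq hf OnePoint.infty (a • OnePoint.infty) hw
  rw [E_infty hf hw, h1] at h2
  have h3 := congrArg (fun P : ℂ[X] => P.coeff 0) h2
  simp only [coeff_sub, coeff_prim_zero] at h3
  have h4 : ((toR a • τ : ℍ) : ℂ) = mob (toR a) (τ : ℂ) := by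
    rw [coe_smul_of_det_pos hR]
    rfl
  rw [pr, pr, h4, h3]
  ring

/-- an element of `SL(2, ℤ)` as an element of `GL₂(ℚ)` -/
abbrev iQ (γ : SL(2, ℤ)) : GQ := Matrix.SpecialLinearGroup.mapGL ℚ γ

lemma smul_eq_toR (γ : SL(2, ℤ)) (τ : ℍ) : γ • τ = toR (iQ γ) • τ := by
  rw [toR_mapGL]
  rfl

/-- the period of an invariant function, from any cusp. -/
theorem period_eq (hf : Nice ((0 + 2 : ℕ) : ℤ) f) {a : GQ} (ha : 0 < a.det.val)
    (hfa : f ∣[((0 + 2 : ℕ) : ℤ)] toR a = f) (x : OnePoint ℚ) (τ : ℍ) :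
    (sym 0 f x (a • x)).coeff 0 = pr f τ - pr f (toR a • τ) := by
  have hR := toR_det_pos ha
  have hz : 0 < (τ : ℂ).im := τ.im_pos
  have hw : 0 < (mob (toR a) (τ : ℂ)).im := mob_im_pos hR hz
  have h1 := E_slash hf ha x hz
  rw [hfa, act_zero_eq _ (natDegree_E_le _ _ _ _)] at h1
  have h2 := sym_eq hf x (a • x) hw
  rw [← h1] at h2
  have h3 := sym_eq hf x OnePoint.infty hz
  have h4 := sym_eq hf x OnePoint.infty hw
  rw [E_infty hf hz] at h3
  rw [E_infty hf hw] at h4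
  have h5 : ((toR a • τ : ℍ) : ℂ) = mob (toR a) (τ : ℂ) := by
    rw [coe_smul_of_det_pos hR]
    rfl
  have e1 := congrArg (fun P : ℂ[X] => P.coeff 0) h2
  have e2 := congrArg (fun P : ℂ[X] => P.coeff 0) (h3.symm.trans h4)
  simp only [coeff_sub, coeff_prim_zero] at e1 e2
  rw [e1, pr, pr, h5]
  linear_combination -e2

/-- **A function of weight `2` on `Γ₀(M)` whose periods are purely imaginary is zero.** -/
theorem eq_zero_of_re_period {M : ℕ} [NeZero M] (hf : Nice ((0 + 2 : ℕ) : ℤ) f)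
    (hinv : ∀ γ ∈ CongruenceSubgroup.Gamma0 M, f ∣[((0 + 2 : ℕ) : ℤ)] toR (iQ γ) = f)
    (hre : ∀ γ ∈ CongruenceSubgroup.Gamma0 M, ∀ τ : ℍ, (pr f (γ • τ)).re = (pr f τ).re) :
    f = 0 := by
  -- the constants
  set c : SL(2, ℤ) → ℂ := fun g => (sym 0 f OnePoint.infty (iQ g • OnePoint.infty)).coeff 0 with hc
  have key1 : ∀ γ ∈ CongruenceSubgroup.Gamma0 M, ∀ τ : ℍ, pr f (γ • τ) = pr f τ - c γ := by
    intro γ hγ τ
    rw [smul_eq_toR, pr_smul hf (detQ_mapGL γ), hinv γ hγ]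
  have key2 : ∀ g : SL(2, ℤ), Tendsto (fun τ : ℍ => pr f (g • τ)) atImInfty (𝓝 (0 - c g)) := by
    intro g
    have h1 : (fun τ : ℍ => pr f (g • τ)) = fun τ : ℍ =>
        pr (f ∣[((0 + 2 : ℕ) : ℤ)] toR (iQ g)) τ - c g := by
      funext τ
      rw [smul_eq_toR, pr_smul hf (detQ_mapGL g)]
    rw [h1]
    exact (tendsto_pr (hf.slash (detQ_mapGL g))).sub_const _
  have hM : (0 : ℝ) < M := by exact_mod_cast Nat.pos_of_ne_zero (NeZero.ne M)
  have hper : ∀ (g : SL(2, ℤ)) (τ : ℍ), pr f (g • ((M : ℝ) +ᵥ τ)) = pr f (g • τ) := by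
    intro g τ
    set γ : SL(2, ℤ) := g * ModularGroup.T ^ (M : ℤ) * g⁻¹ with hγ
    have hγM : γ ∈ CongruenceSubgroup.Gamma0 M := by
      have h1 : ModularGroup.T ^ (M : ℤ) ∈ CongruenceSubgroup.Gamma M := by
        have := CongruenceSubgroup.ModularGroup_T_pow_mem_Gamma (M : ℤ) (M : ℤ) dvd_rfl
        simpa using this
      have h2 : γ ∈ CongruenceSubgroup.Gamma M :=
        (CongruenceSubgroup.Gamma_normal M).conj_mem _ h1 g
      rw [CongruenceSubgroup.Gamma0_mem]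
      exact (CongruenceSubgroup.Gamma_mem.1 h2).2.2.1
    have h3 : ∀ σ : ℍ, pr f (g • ((M : ℝ) +ᵥ σ)) = pr f (g • σ) - c γ := by
      intro σ
      rw [← key1 γ hγM]
      congr 1
      have h4 : (M : ℝ) +ᵥ σ = ModularGroup.T ^ (M : ℤ) • σ := by
        rw [modular_T_zpow_smul]
        simp
      rw [h4, hγ, ← mul_smul, ← mul_smul]
      congr 1
      group
    have h5 : Tendsto (fun σ : ℍ => pr f (g • ((M : ℝ) +ᵥ σ))) atImInfty (𝓝 (0 - c g)) := by
      refine (key2 g).comp ?_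
      rw [atImInfty, tendsto_comap_iff]
      have h6 : (im ∘ fun σ : ℍ => (M : ℝ) +ᵥ σ) = im := by
        funext σ
        simp
      rw [h6]
      exact tendsto_comap
    have h7 : Tendsto (fun σ : ℍ => pr f (g • ((M : ℝ) +ᵥ σ))) atImInfty
        (𝓝 (0 - c g - c γ)) := by
      have h8 : (fun σ : ℍ => pr f (g • ((M : ℝ) +ᵥ σ))) = fun σ : ℍ => pr f (g • σ) - c γ :=
        funext h3
      rw [h8]
      exact (key2 g).sub_const _
    have h9 := tendsto_nhds_unique h5 h7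
    have h10 : c γ = 0 := by linear_combination h9
    rw [h3, h10, sub_zero]
  have hb : ∀ g : SL(2, ℤ), IsBoundedAtImInfty fun τ => pr f (g • τ) := fun g =>
    (key2 g).isBigO_one ℝ
  have hexp := exp_eq_of_re_invariant (Γ := CongruenceSubgroup.Gamma0 M) (mdiff_pr hf) hre hM
    hper hb
  funext τ
  have h1 : HasDerivAt (fun w => Complex.exp (pr f (ofComplex w)))
      (Complex.exp (pr f (ofComplex (τ : ℂ))) * (-f (ofComplex (τ : ℂ)))) (τ : ℂ) :=
    (hasDerivAt_pr hf τ.im_pos).cexp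
  have h2 : HasDerivAt (fun w => Complex.exp (pr f (ofComplex w))) 0 (τ : ℂ) := by
    have h3 : (fun w => Complex.exp (pr f (ofComplex w))) = fun _ => Complex.exp (pr f τ) :=
      funext fun w => hexp _ _
    rw [h3]
    exact hasDerivAt_const _ _
  have h4 := h1.unique h2
  rw [ofComplex_apply] at h4
  have h5 := (mul_eq_zero.mp h4).resolve_left (Complex.exp_ne_zero _)
  simpa using h5

/-! ### The reflection -/

lemma slash_J_apply (k : ℤ) (f : ℍ → ℂ) (τ : ℍ) : (f ∣[k] J) τ = conj (f (J • τ)) := by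
  simp [ModularForm.slash_def]

lemma im_J_smul (τ : ℍ) : (J • τ).im = τ.im := by
  have h := coe_J_smul τ
  have h1 := congrArg Complex.im h
  simpa using h1

/-- the conjugate by `J` of an element of `GL₂(ℚ)`. -/
def cJ (a : GQ) : GQ := eps * a * eps

lemma eps_mul_eps : eps * eps = 1 := by
  ext i j
  fin_cases i <;> fin_cases j <;>
    simp [eps, triQ, Matrix.GeneralLinearGroup.mkOfDetNeZero, Matrix.mul_apply, Fin.sum_univ_two]

lemma toR_eps : toR eps = J := by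
  ext i j
  fin_cases i <;> fin_cases j <;>
    simp [toR, eps, triQ, Matrix.GeneralLinearGroup.mkOfDetNeZero, J]

lemma det_cJ {a : GQ} : (cJ a).det.val = a.det.val := by
  have h1 : (eps.det.val : ℚ) * eps.det.val = 1 := by
    have := congrArg (fun g : GQ => (g.det.val : ℚ)) eps_mul_eps
    simpa using this
  rw [cJ, map_mul, map_mul, Units.val_mul, Units.val_mul]
  linear_combination (a.det.val : ℚ) * h1

lemma J_mul_toR (a : GQ) : J * toR a = toR (cJ a) * J := by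
  rw [← toR_eps, ← map_mul, ← map_mul, cJ]
  congr 1
  rw [mul_assoc (eps * a), eps_mul_eps, mul_one]

lemma tendsto_J : Tendsto (fun τ : ℍ => J • τ) atImInfty atImInfty := by
  rw [atImInfty, tendsto_comap_iff]
  have h : (im ∘ fun τ : ℍ => J • τ) = im := by
    funext τ
    exact im_J_smul τ
  rw [h]
  exact tendsto_comap

lemma Nice.slash_J {k : ℤ} (hf : Nice k f) : Nice k (f ∣[k] J) where
  holo := hf.holo.slash k J
  decay := fun a ha => by
    obtain ⟨c, hc, h1⟩ := hf.decay (cJ a) (by rw [det_cJ]; exact ha)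
    refine ⟨c, hc, ?_⟩
    rw [← SlashAction.slash_mul, J_mul_toR, SlashAction.slash_mul]
    have h2 := h1.comp_tendsto tendsto_J
    refine (IsBigO.of_norm_left ?_)
    have h3 : (fun τ : ℍ => ‖((f ∣[k] toR (cJ a)) ∣[k] J) τ‖) =
        fun τ : ℍ => ‖((f ∣[k] toR (cJ a)) ∘ fun τ : ℍ => J • τ) τ‖ := by
      funext τ
      rw [slash_J_apply, Complex.norm_conj]
      rfl
    rw [h3]
    refine h2.norm_left.congr_right fun τ => ?_
    simp only [Function.comp_apply, im_J_smul]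

lemma pr_slash_J (k : ℤ) (f : ℍ → ℂ) (τ : ℍ) : pr (f ∣[k] J) τ = -conj (pr f (J • τ)) := by
  rw [pr, pr, vint, vint, map_mul, Complex.conj_I, ← integral_conj, neg_mul, neg_neg]
  congr 1
  refine setIntegral_congr_fun measurableSet_Ioi fun t ht => ?_
  have ht' : (0 : ℝ) < t := ht
  have him : 0 < ((τ : ℂ) + t * Complex.I).im := by
    rw [add_mul_I_im]
    exact add_pos τ.im_pos ht'
  have him2 : 0 < (((J • τ : ℍ) : ℂ) + t * Complex.I).im := by
    rw [add_mul_I_im]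
    exact add_pos (J • τ).im_pos ht'
  rw [slash_J_apply]
  congr 2
  apply UpperHalfPlane.ext
  rw [coe_J_smul, ofComplex_apply_of_im_pos him, ofComplex_apply_of_im_pos him2]
  change -conj ((τ : ℂ) + t * Complex.I) = ((J • τ : ℍ) : ℂ) + t * Complex.I
  rw [coe_J_smul]
  simp only [map_add, map_mul, Complex.conj_ofReal, Complex.conj_I]
  ring

lemma pr_add {k : ℤ} (hf : Nice k f) (hg : Nice k g) (τ : ℍ) :
    pr (f + g) τ = pr f τ + pr g τ := by
  rw [pr, pr, pr, ← vint_add hf.dec hg.dec τ.im_pos]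
  rfl

lemma pr_smul_const (c : ℂ) (f : ℍ → ℂ) (τ : ℍ) : pr (c • f) τ = c * pr f τ := by
  rw [pr, pr, ← vint_const_mul]
  rfl

/-- the conjugate of an element of `SL(2, ℤ)` by `diag(-1, 1)`. -/
def cSL (γ : SL(2, ℤ)) : SL(2, ℤ) :=
  ⟨!![γ 0 0, -γ 0 1; -γ 1 0, γ 1 1], by
    have := Matrix.det_fin_two γ.1
    rw [γ.2] at this
    rw [Matrix.det_fin_two]
    simp
    linarith⟩

lemma cSL_mem {M : ℕ} {γ : SL(2, ℤ)} (h : γ ∈ CongruenceSubgroup.Gamma0 M) :
    cSL γ ∈ CongruenceSubgroup.Gamma0 M := by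
  rw [CongruenceSubgroup.Gamma0_mem] at h ⊢
  simp [cSL, h]

lemma cJ_val (a : GQ) : (cJ a).1 = !![a 0 0, -a 0 1; -a 1 0, a 1 1] := by
  have h1 : (cJ a).1 = eps.1 * a.1 * eps.1 := rfl
  have h2 : eps.1 = !![(-1 : ℚ), 0; 0, 1] := rfl
  rw [h1, h2, Matrix.eta_fin_two a.1]
  simp

lemma iQ_cSL (γ : SL(2, ℤ)) : iQ (cSL γ) = cJ (iQ γ) := by
  refine Units.ext ?_
  rw [cJ_val]
  have e : ∀ i j, (iQ γ) i j = ((γ i j : ℤ) : ℚ) := fun i j => rfl
  have g00 : (iQ (cSL γ)).1 0 0 = ((γ 0 0 : ℤ) : ℚ) := rfl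
  have g01 : (iQ (cSL γ)).1 0 1 = ((-γ 0 1 : ℤ) : ℚ) := rfl
  have g10 : (iQ (cSL γ)).1 1 0 = ((-γ 1 0 : ℤ) : ℚ) := rfl
  have g11 : (iQ (cSL γ)).1 1 1 = ((γ 1 1 : ℤ) : ℚ) := rfl
  rw [Matrix.eta_fin_two (iQ (cSL γ)).1, g00, g01, g10, g11, e, e, e, e]
  push_cast
  rfl

/-- **Injectivity of the even and the odd part of the period homomorphism**, weight `2`. -/
theorem eq_zero_of_eps_period {M : ℕ} [NeZero M] (hf : Nice ((0 + 2 : ℕ) : ℤ) f)
    (hinv : ∀ γ ∈ CongruenceSubgroup.Gamma0 M, f ∣[((0 + 2 : ℕ) : ℤ)] toR (iQ γ) = f)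
    {s : ℝ} (hs : s ^ 2 = 1)
    (hper : ∀ γ ∈ CongruenceSubgroup.Gamma0 M,
      (sym 0 f OnePoint.infty (iQ γ • OnePoint.infty)).coeff 0 +
        s * (sym 0 f OnePoint.infty (iQ (cSL γ) • OnePoint.infty)).coeff 0 = 0) : f = 0 := by
  set k : ℤ := ((0 + 2 : ℕ) : ℤ) with hk
  have hfJ : Nice k (f ∣[k] J) := hf.slash_J
  have hinvJ : ∀ γ ∈ CongruenceSubgroup.Gamma0 M, (f ∣[k] J) ∣[k] toR (iQ γ) = f ∣[k] J := by
    intro γ hγ
    rw [← SlashAction.slash_mul, J_mul_toR, SlashAction.slash_mul, ← iQ_cSL,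
      hinv _ (cSL_mem hγ)]
  set c : SL(2, ℤ) → ℂ := fun g => (sym 0 f OnePoint.infty (iQ g • OnePoint.infty)).coeff 0 with hc
  have key1 : ∀ γ ∈ CongruenceSubgroup.Gamma0 M, ∀ τ : ℍ, pr f (γ • τ) = pr f τ - c γ := by
    intro γ hγ τ
    rw [smul_eq_toR, pr_smul hf (detQ_mapGL γ), hinv γ hγ]
  have hJγ : ∀ (γ : SL(2, ℤ)) (τ : ℍ), J • (γ • τ) = cSL γ • (J • τ) := by
    intro γ τ
    rw [smul_eq_toR, smul_eq_toR, ← mul_smul, J_mul_toR, mul_smul, iQ_cSL]
  have hs' : (s : ℂ) ^ 2 = 1 := by exact_mod_cast hs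
  have hper' : ∀ γ ∈ CongruenceSubgroup.Gamma0 M, c γ = -(s * c (cSL γ)) := fun γ hγ =>
    eq_neg_of_add_eq_zero_left (hper γ hγ)
  -- the two combinations
  have h1 : f + (-(s : ℂ)) • (f ∣[k] J) = 0 := by
    refine eq_zero_of_re_period (M := M) (hf.add (hfJ.smul _)) (fun γ hγ => ?_) fun γ hγ τ => ?_
    · rw [SlashAction.add_slash, Nice.smul_slash_pos (toR_det_pos (detQ_mapGL γ)), hinv γ hγ,
        hinvJ γ hγ]
    · rw [pr_add hf (hfJ.smul _), pr_add hf (hfJ.smul _), pr_smul_const, pr_smul_const,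
        pr_slash_J, pr_slash_J, hJγ, key1 γ hγ, key1 _ (cSL_mem hγ), hper' γ hγ]
      simp only [map_sub, Complex.add_re, Complex.sub_re, Complex.neg_re, Complex.mul_re,
        Complex.neg_im, Complex.ofReal_re, Complex.ofReal_im, Complex.sub_im, Complex.conj_re,
        Complex.conj_im]
      ring
  have h2 : Complex.I • (f + (s : ℂ) • (f ∣[k] J)) = 0 := by
    refine eq_zero_of_re_period (M := M) ((hf.add (hfJ.smul _)).smul _) (fun γ hγ => ?_)
      fun γ hγ τ => ?_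
    · rw [Nice.smul_slash_pos (toR_det_pos (detQ_mapGL γ)), SlashAction.add_slash,
        Nice.smul_slash_pos (toR_det_pos (detQ_mapGL γ)), hinv γ hγ, hinvJ γ hγ]
    · rw [pr_smul_const, pr_smul_const, pr_add hf (hfJ.smul _), pr_add hf (hfJ.smul _),
        pr_smul_const, pr_smul_const,
        pr_slash_J, pr_slash_J, hJγ, key1 γ hγ, key1 _ (cSL_mem hγ), hper' γ hγ]
      simp only [map_sub, Complex.add_re, Complex.sub_re, Complex.neg_re, Complex.mul_re,
        Complex.neg_im, Complex.ofReal_re, Complex.ofReal_im, Complex.sub_im, Complex.conj_re,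
        Complex.conj_im, Complex.I_re, Complex.I_im, Complex.add_im, Complex.mul_im]
      ring
  have h3 := (smul_eq_zero.mp h2).resolve_left Complex.I_ne_zero
  funext τ
  have h5 : f τ + (-(s : ℂ)) * (f ∣[k] J) τ = 0 := congrFun h1 τ
  have h6 : f τ + (s : ℂ) * (f ∣[k] J) τ = 0 := congrFun h3 τ
  have h7 : f τ = 0 := by linear_combination (h5 + h6) / 2
  exact h7

/-! ### Cusp forms and partial modular symbols -/

section Symbols

open PS

variable {M : ℕ} [NeZero M]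

lemma smul_inf_negC (g : PS.S4) : negC (g • PS.inf) = (epsM * g * epsM) • PS.inf := by
  rw [mul_smul, mul_smul, negC]
  congr 2
  exact (negC_inf).symm

omit [NeZero M] in
/-- a cusp form of weight `2` is invariant under `Γ₀(M)`. -/
lemma cusp_slash (f : Gouvea.Cusp M (0 + 2)) (γ : SL(2, ℤ))
    (hγ : γ ∈ CongruenceSubgroup.Gamma0 M) :
    (f : ℍ → ℂ) ∣[((0 + 2 : ℕ) : ℤ)] toR (iQ γ) = f := by
  refine SlashInvariantFormClass.slash_action_eq f _ ?_
  rw [toR_mapGL]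
  exact Subgroup.mem_map_of_mem _ hγ

/-- **Injectivity of the even and the odd part modulo boundary symbols, weight `2`.** -/
theorem eps_inj_two (hM : 4 ∣ M) {s : ℝ} (hs : s ^ 2 = 1) (f : Gouvea.Cusp M (0 + 2))
    (h : ∀ g : PS.S4, PS.IsG0 M g → (symC 0 (f : ℍ → ℂ)) PS.inf (g • PS.inf) 0 +
      s * (epsS ℂ 0 (symC 0 (f : ℍ → ℂ))) PS.inf (g • PS.inf) 0 = 0) : f = 0 := by
  have h0 : (f : ℍ → ℂ) = 0 := by
    refine eq_zero_of_eps_period (M := M) (nice_of_cuspForm f) (cusp_slash f) hs fun γ hγ => ?_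
    have h1 := h (ofG0 hM γ hγ) (isG0_ofG0 hM γ hγ)
    have e1 : gQ (ofG0 hM γ hγ) = iQ γ := by
      ext i j
      rfl
    have e2 : toP (ofG0 hM γ hγ • PS.inf) = iQ γ • (OnePoint.infty : OnePoint ℚ) := by
      rw [toP_smul, toP_inf, e1]
    have e3 : gQ epsM = eps := by
      ext i j
      fin_cases i <;> fin_cases j <;> simp [gQ, epsM_coe, eps, triQ,
        Matrix.GeneralLinearGroup.mkOfDetNeZero]
    have e4 : toP (negC (ofG0 hM γ hγ • PS.inf)) =
        iQ (cSL γ) • (OnePoint.infty : OnePoint ℚ) := by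
      rw [negC, toP_smul, e2, e3, iQ_cSL, cJ, mul_smul, mul_smul]
      congr 2
      exact ((OnePoint.smul_infty_eq_self_iff (g := eps)).2 (by
        simp [eps, triQ, Matrix.GeneralLinearGroup.mkOfDetNeZero])).symm
    rw [epsS_coeff, negC_inf] at h1
    simp only [symC, toP_inf, e2, e4] at h1
    have e5 : ((0 : Fin (0 + 1)) : ℕ) = 0 := rfl
    rw [e5, pow_zero, one_mul] at h1
    exact h1
  exact DFunLike.coe_injective h0

/-- **The Eichler–Shimura map in weight `2`, modulo boundary symbols**: if the symbol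
`ESmap (f, g)` vanishes on the pairs `(∞, γ ∞)`, `γ ∈ Γ₀(M)`, then `f = g = 0`. -/
theorem ESmap_two (hM : 4 ∣ M) (f g : Gouvea.Cusp M (0 + 2))
    (h : ∀ γ : PS.S4, PS.IsG0 M γ →
      (ESmap M 0 (f, g) : PS.Cusp → PS.Cusp → Fin (0 + 1) → ℂ) PS.inf (γ • PS.inf) 0 = 0) :
    f = 0 ∧ g = 0 := by
  set φ : PS.Cusp → PS.Cusp → Fin (0 + 1) → ℂ := symC 0 (f : ℍ → ℂ) with hφ
  set ψ : PS.Cusp → PS.Cusp → Fin (0 + 1) → ℂ := symC 0 (g : ℍ → ℂ) with hψ
  have h1 : ∀ γ : PS.S4, PS.IsG0 M γ → (φ PS.inf (γ • PS.inf) 0 +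
      epsS ℂ 0 φ PS.inf (γ • PS.inf) 0) + (ψ PS.inf (γ • PS.inf) 0 -
      epsS ℂ 0 ψ PS.inf (γ • PS.inf) 0) = 0 := by
    intro γ hγ
    have h2 := h γ hγ
    rw [ESmap_apply] at h2
    exact h2
  have e : ∀ (χ : PS.Cusp → PS.Cusp → Fin (0 + 1) → ℂ) (x y : PS.Cusp),
      epsS ℂ 0 χ x y 0 = χ (negC x) (negC y) 0 := by
    intro χ x y
    rw [epsS_coeff]
    simp
  have h2 : ∀ γ : PS.S4, PS.IsG0 M γ → (epsS ℂ 0 φ PS.inf (γ • PS.inf) 0 +
      φ PS.inf (γ • PS.inf) 0) + (epsS ℂ 0 ψ PS.inf (γ • PS.inf) 0 -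
      ψ PS.inf (γ • PS.inf) 0) = 0 := by
    intro γ hγ
    have h3 := h1 (epsM * γ * epsM) (isG0_conj hγ)
    simp only [e] at h3 ⊢
    rw [← smul_inf_negC, negC_inf, negC_negC] at h3
    rw [negC_inf]
    exact h3
  refine ⟨eps_inj_two hM (s := 1) (by norm_num) f fun γ hγ => ?_,
    eps_inj_two hM (s := -1) (by norm_num) g fun γ hγ => ?_⟩
  · have h3 := h1 γ hγ
    have h4 := h2 γ hγ
    push_cast
    linear_combination (h3 + h4) / 2
  · have h3 := h1 γ hγ
    have h4 := h2 γ hγ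
    push_cast
    linear_combination (h3 - h4) / 2

/-- **`ESmap` is injective in weight `2`.** -/
theorem ESmap_injective_two (hM : 4 ∣ M) : Function.Injective (ESmap M 0) := by
  rw [injective_iff_map_eq_zero]
  rintro ⟨f, g⟩ h
  obtain ⟨h1, h2⟩ := ESmap_two hM f g fun γ _ => by
    rw [h]
    rfl
  rw [h1, h2]
  rfl

/-- **`ESmap` is injective in all even weights.** -/
theorem ESmap_injective_all (hM : 4 ∣ M) {n : ℕ} (hn : Even n) :
    Function.Injective (ESmap M n) := by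
  rcases Nat.eq_zero_or_pos n with rfl | hn0
  · exact ESmap_injective_two hM
  · refine ESmap_injective' ?_
    obtain ⟨m, hm⟩ := hn
    omega

end Symbols

end Gouvea.ES
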