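import Pool.Agent.Work.MP_d3517d_nt.ES.ThetaDefs

/-!
# Symbols with constant edge function are boundary symbols (cell THETA, MP_d3517d_nt)
-/

open Filter Topology UpperHalfPlane CongruenceSubgroup Polynomial
open scoped MatrixGroups ModularForm

noncomputable section

namespace Gouvea.Theta.Bdry

open Gouvea.ES Gouvea.Theta

/-- the value of `P | M` at a point which is not sent to infinity -/
theorem eval_slashM {K : Type*} [Field K] (n : ℕ) (M : Matrix (Fin 2) (Fin 2) K) {P : K[X]}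
    (hP : P.natDegree ≤ n) {r : K} (h : M 1 0 * r + M 1 1 ≠ 0) :
    (slashM n M P).eval r = (M 1 0 * r + M 1 1) ^ n *
      P.eval ((M 0 0 * r + M 0 1) / (M 1 0 * r + M 1 1)) := by
  rw [slashM_apply, eval_finsetSum, eval_eq_sum_range' (Nat.lt_succ_of_le hP), Finset.mul_sum]
  refine Finset.sum_congr rfl fun j hj => ?_
  have hj' : j ≤ n := by simpa [Nat.lt_succ_iff] using hj
  simp only [eval_mul, eval_C, eval_pow, eval_add, eval_X]
  generalize M 1 0 * r + M 1 1 = D at h ⊢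
  rw [div_pow, ← Nat.add_sub_cancel' hj', pow_add, Nat.add_sub_cancel' hj']
  have h2 : D ^ j ≠ 0 := pow_ne_zero _ h
  field_simp

theorem matOf_apply (g : GQ) (i j : Fin 2) : matOf ℂ g i j = ((g i j : ℚ) : ℂ) := rfl

/-- the value of `P | g` at a rational point, `g` a rational matrix -/
theorem eval_slashM_rat (n : ℕ) (g : GQ) {P : ℂ[X]} (hP : P.natDegree ≤ n) {r : ℚ}
    (h : g 1 0 * r + g 1 1 ≠ 0) : (slashM n (matOf ℂ g) P).eval ((r : ℝ) : ℂ) =
      ((g 1 0 * r + g 1 1 : ℚ) : ℂ) ^ n *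
        P.eval ((((g 0 0 * r + g 0 1) / (g 1 0 * r + g 1 1) : ℚ) : ℝ) : ℂ) := by
  have h' : matOf ℂ g 1 0 * ((r : ℝ) : ℂ) + matOf ℂ g 1 1 ≠ 0 := by
    rw [matOf_apply, matOf_apply]
    exact_mod_cast h
  rw [eval_slashM n _ hP h']
  simp only [matOf_apply]
  push_cast
  rfl

/-- the action on the cusps -/
theorem smul_coe_of_ne (g : GQ) {r : ℚ} (h : g 1 0 * r + g 1 1 ≠ 0) :
    g • ((r : ℚ) : OnePoint ℚ) = (((g 0 0 * r + g 0 1) / (g 1 0 * r + g 1 1) : ℚ) : OnePoint ℚ) := by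
  rw [OnePoint.smul_some_eq_ite, if_neg h]

theorem symb_self {n M : ℕ} {φ : Symb} (h : FSM n M φ) (x : OnePoint ℚ) : φ x x = 0 := by
  have := h.add x x x
  simpa using this

theorem symb_neg {n M : ℕ} {φ : Symb} (h : FSM n M φ) (x y : OnePoint ℚ) : φ x y = -φ y x := by
  have := h.add x y x
  rw [symb_self h] at this
  exact eq_neg_of_add_eq_zero_left this

/-- **(a)** a symbol with constant edge function is a boundary symbol. -/
theorem isBdry_of_edge {n M : ℕ} {φ : Symb} (hφ : FSM n M φ) {κ : ℂ}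
    (h : ∀ r : ℚ, edge φ r = κ) : IsBdry n M φ := by
  refine ⟨⟨fun x => φ x OnePoint.infty + C κ, fun x => ?_, fun g hg x => ?_, fun x y => ?_⟩⟩
  · refine (natDegree_add_le _ _).trans (max_le (hφ.deg _ _) ?_)
    rw [natDegree_C]
    exact Nat.zero_le _
  · set γ : GQ := Matrix.SpecialLinearGroup.mapGL ℚ g with hγ
    -- the defect does not depend on the cusp
    have hdef : ∀ y z : OnePoint ℚ,
        slashM n (matOf ℂ γ) (φ (γ • y) OnePoint.infty + C κ) - (φ y OnePoint.infty + C κ) =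
        slashM n (matOf ℂ γ) (φ (γ • z) OnePoint.infty + C κ) - (φ z OnePoint.infty + C κ) := by
      intro y z
      have h1 : slashM n (matOf ℂ γ) (φ (γ • y) (γ • z)) = φ y z := by
        have := congrFun (congrFun (hφ.inv g hg) y) z
        exact this
      rw [← hφ.add (γ • y) (γ • z) OnePoint.infty, ← hφ.add y z OnePoint.infty, add_assoc,
        map_add, h1]
      ring
    -- it vanishes at all rational numbers but one
    have hzero : ∀ r : ℚ, γ 1 0 * r + γ 1 1 ≠ 0 →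
        (slashM n (matOf ℂ γ) (φ (γ • ((r : ℚ) : OnePoint ℚ)) OnePoint.infty + C κ) -
          (φ ((r : ℚ) : OnePoint ℚ) OnePoint.infty + C κ)).eval ((r : ℝ) : ℂ) = 0 := by
      intro r hr
      have hw : ∀ s : ℚ, (φ ((s : ℚ) : OnePoint ℚ) OnePoint.infty + C κ).eval ((s : ℝ) : ℂ) = 0 := by
        intro s
        have h2 := h s
        rw [edge, symb_neg hφ] at h2
        rw [eval_add, eval_C, ← h2, eval_neg, add_neg_cancel]
      have hd : ∀ s : OnePoint ℚ, (φ s OnePoint.infty + C κ).natDegree ≤ n := by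
        intro s
        refine (natDegree_add_le _ _).trans (max_le (hφ.deg _ _) ?_)
        rw [natDegree_C]
        exact Nat.zero_le _
      rw [eval_sub, hw r, sub_zero, eval_slashM_rat n γ (hd _) hr, smul_coe_of_ne γ hr, hw,
        mul_zero]
    -- hence it vanishes
    set c : ℂ[X] := slashM n (matOf ℂ γ) (φ (γ • x) OnePoint.infty + C κ) -
      (φ x OnePoint.infty + C κ) with hc
    have hc0 : c = 0 := by
      refine Polynomial.eq_zero_of_infinite_isRoot c ?_
      have hinf : (Set.range fun r : {r : ℚ // γ 1 0 * r + γ 1 1 ≠ 0} =>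
          ((r.1 : ℝ) : ℂ)).Infinite := by
        have hfin : {r : ℚ | γ 1 0 * r + γ 1 1 = 0}.Finite := by
          have hdet : γ.det.val ≠ 0 := γ.det.ne_zero
          have hdet' : γ 0 0 * γ 1 1 - γ 0 1 * γ 1 0 ≠ 0 := by
            have : γ.det.val = γ 0 0 * γ 1 1 - γ 0 1 * γ 1 0 := Matrix.det_fin_two _
            rwa [this] at hdet
          refine Set.Subsingleton.finite fun r hr s hs => ?_
          rw [Set.mem_ofPred_eq] at hr hs
          have h3 : γ 1 0 ≠ 0 := by
            intro h4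
            rw [h4, zero_mul, zero_add] at hr
            rw [h4, hr] at hdet'
            simp at hdet'
          have h5 : γ 1 0 * (r - s) = 0 := by linear_combination hr - hs
          exact sub_eq_zero.1 ((mul_eq_zero.1 h5).resolve_left h3)
        have : Infinite {r : ℚ // γ 1 0 * r + γ 1 1 ≠ 0} := by
          have := hfin.infinite_compl
          exact Set.infinite_coe_iff.2 this
        refine Set.infinite_range_of_injective fun r s hrs => ?_
        have : ((r.1 : ℝ) : ℂ) = ((s.1 : ℝ) : ℂ) := hrs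
        exact Subtype.ext (by exact_mod_cast this)
      refine hinf.mono ?_
      rintro _ ⟨r, rfl⟩
      show IsRoot c _
      rw [IsRoot, hc, hdef x ((r.1 : ℚ) : OnePoint ℚ)]
      exact hzero r.1 r.2
    exact sub_eq_zero.1 hc0
  · show φ x y = (φ x OnePoint.infty + C κ) - (φ y OnePoint.infty + C κ)
    rw [← hφ.add x y OnePoint.infty]
    ring

/-- the parabolic matrix of `Γ₀(M)` fixing `a / c`, to the power `j` -/
def parM (a c : ℤ) (h : ℤ) : SL(2, ℤ) :=
  ⟨!![1 - h * a * c, h * a ^ 2; -(h * c ^ 2), 1 + h * a * c], by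
    rw [Matrix.det_fin_two_of]
    ring⟩

/-- an invariant polynomial vanishes at the fixed point -/
theorem eval_eq_zero_of_par {n M : ℕ} [NeZero M] (hn : 1 ≤ n) {P : ℂ[X]} (hP : P.natDegree ≤ n)
    {r : ℚ} (h : ∀ g ∈ Gamma0 M, (Matrix.SpecialLinearGroup.mapGL ℚ g : GQ) • ((r : ℚ) : OnePoint ℚ) =
      ((r : ℚ) : OnePoint ℚ) → slashM n (matOf ℂ (Matrix.SpecialLinearGroup.mapGL ℚ g)) P = P) :
    P.eval ((r : ℝ) : ℂ) = 0 := by
  set a : ℤ := r.num
  set c : ℤ := (r.den : ℤ)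
  have hc : (c : ℚ) ≠ 0 := by
    simp [c]
  have hr : r = a / c := (Rat.num_div_den r).symm
  have hM : (M : ℚ) ≠ 0 := by exact_mod_cast NeZero.ne M
  -- the powers of a parabolic matrix
  have hfix : ∀ j : ℕ, slashM n (matOf ℂ (Matrix.SpecialLinearGroup.mapGL ℚ
      (parM a c (j * M)))) P = P := by
    intro j
    refine h _ ?_ ?_
    · rw [Gamma0_mem, ZMod.intCast_zmod_eq_zero_iff_dvd]
      show (M : ℤ) ∣ -((j * M : ℤ) * c ^ 2)
      exact ⟨-(j * c ^ 2), by ring⟩
    · have h1 : (Matrix.SpecialLinearGroup.mapGL ℚ (parM a c (j * M)) : GQ) 1 0 * r +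
          (Matrix.SpecialLinearGroup.mapGL ℚ (parM a c (j * M)) : GQ) 1 1 = 1 := by
        simp only [Matrix.SpecialLinearGroup.mapGL_coe_matrix, parM, hr]
        simp
        field_simp
        ring
      rw [smul_coe_of_ne _ (by rw [h1]; exact one_ne_zero), h1]
      congr 1
      simp only [Matrix.SpecialLinearGroup.mapGL_coe_matrix, parM, hr]
      simp
      field_simp
      ring
  -- the values at `r + 1`
  have hval : ∀ j : ℕ, P.eval (((r : ℝ) : ℂ) + ((1 - (j + 2) * M * c ^ 2 : ℝ) : ℂ)⁻¹) =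
      P.eval ((((r + 1 : ℚ) : ℝ)) : ℂ) * (((1 - (j + 2) * M * c ^ 2 : ℝ) : ℂ)⁻¹) ^ n := by
    intro j
    have hDz : (1 - (j + 2) * M * c ^ 2 : ℤ) ≠ 0 := by
      have h1 : (1 : ℤ) ≤ c ^ 2 := by
        have : c ≠ 0 := by exact_mod_cast hc
        have := sq_nonneg c
        have h0 : c ^ 2 ≠ 0 := pow_ne_zero 2 (by assumption)
        omega
      have h2 : (1 : ℤ) ≤ M := by exact_mod_cast Nat.one_le_iff_ne_zero.2 (NeZero.ne M)
      have h3 : (0 : ℤ) ≤ j := by positivity
      have h4 : (1 : ℤ) ≤ M * c ^ 2 := by nlinarith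
      nlinarith
    have hD : (1 - (j + 2) * M * c ^ 2 : ℚ) ≠ 0 := by exact_mod_cast hDz
    have h0 := hfix (j + 2)
    have e1 : (Matrix.SpecialLinearGroup.mapGL ℚ (parM a c ((j + 2 : ℕ) * M)) : GQ) 1 0 * (r + 1) +
        (Matrix.SpecialLinearGroup.mapGL ℚ (parM a c ((j + 2 : ℕ) * M)) : GQ) 1 1 =
        1 - (j + 2) * M * c ^ 2 := by
      simp only [Matrix.SpecialLinearGroup.mapGL_coe_matrix, parM, hr]
      simp
      field_simp
      ring
    have e2 : ((Matrix.SpecialLinearGroup.mapGL ℚ (parM a c ((j + 2 : ℕ) * M)) : GQ) 0 0 * (r + 1) +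
        (Matrix.SpecialLinearGroup.mapGL ℚ (parM a c ((j + 2 : ℕ) * M)) : GQ) 0 1) /
        (1 - ((j : ℚ) + 2) * M * (c : ℚ) ^ 2) = r + (1 - ((j : ℚ) + 2) * M * (c : ℚ) ^ 2)⁻¹ := by
      rw [div_eq_iff hD, add_mul, inv_mul_cancel₀ hD]
      simp only [Matrix.SpecialLinearGroup.mapGL_coe_matrix, parM, hr]
      simp
      field_simp
      ring
    have h1 := eval_slashM_rat n (Matrix.SpecialLinearGroup.mapGL ℚ (parM a c ((j + 2 : ℕ) * M)))
      hP (r := r + 1) (by rw [e1]; exact hD)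
    rw [e1, e2, h0] at h1
    have hDc : ((1 - (j + 2) * M * c ^ 2 : ℝ) : ℂ) ≠ 0 := by exact_mod_cast hDz
    rw [inv_pow, eq_mul_inv_iff_mul_eq₀ (pow_ne_zero _ hDc), mul_comm, h1]
    push_cast
    rfl
  -- the limit
  have hlim : Tendsto (fun j : ℕ => ((1 - (j + 2) * M * c ^ 2 : ℝ) : ℂ)⁻¹) atTop (𝓝 0) := by
    have hK : (0 : ℝ) < M * c ^ 2 := by
      have h1 : (0 : ℝ) < M := by exact_mod_cast Nat.pos_of_ne_zero (NeZero.ne M)
      have h2 : (c : ℝ) ≠ 0 := by exact_mod_cast hc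
      positivity
    have h1 : Tendsto (fun j : ℕ => (1 - ((j : ℝ) + 2) * M * c ^ 2 : ℝ)) atTop atBot := by
      have h2 : Tendsto (fun j : ℕ => ((j : ℝ) + 2) * (M * c ^ 2)) atTop atTop :=
        (tendsto_natCast_atTop_atTop.atTop_add tendsto_const_nhds).atTop_mul_const hK
      have h3 := tendsto_neg_atTop_atBot.comp h2
      have h4 := tendsto_atBot_add_const_left atTop (1 : ℝ) h3
      refine h4.congr fun j => ?_
      simp only [Function.comp_apply]
      ring
    have h2 := tendsto_inv_atBot_zero.comp h1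
    have h3 := (Complex.continuous_ofReal.tendsto 0).comp h2
    rw [Complex.ofReal_zero] at h3
    refine h3.congr fun j => ?_
    simp only [Function.comp_apply, Complex.ofReal_inv]
  have h1 : Tendsto (fun j : ℕ => P.eval (((r : ℝ) : ℂ) +
      ((1 - (j + 2) * M * c ^ 2 : ℝ) : ℂ)⁻¹)) atTop (𝓝 (P.eval ((r : ℝ) : ℂ))) := by
    have h2 : Tendsto (fun j : ℕ => ((r : ℝ) : ℂ) + ((1 - (j + 2) * M * c ^ 2 : ℝ) : ℂ)⁻¹) atTop
        (𝓝 ((r : ℝ) : ℂ)) := by
      simpa using hlim.const_add ((r : ℝ) : ℂ)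
    exact (P.continuous.tendsto _).comp h2
  have h2 : Tendsto (fun j : ℕ => P.eval ((((r + 1 : ℚ) : ℝ)) : ℂ) *
      (((1 - (j + 2) * M * c ^ 2 : ℝ) : ℂ)⁻¹) ^ n) atTop (𝓝 0) := by
    have h3 := (hlim.pow n).const_mul (P.eval ((((r + 1 : ℚ) : ℝ)) : ℂ))
    rwa [zero_pow (by omega), mul_zero] at h3
  simp only [hval] at h1
  exact tendsto_nhds_unique h1 h2

/-- a polynomial invariant under translation by `1` is constant -/
theorem eq_C_of_T {n : ℕ} {P : ℂ[X]} (hP : P.natDegree ≤ n)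
    (h : slashM n (matOf ℂ (Matrix.SpecialLinearGroup.mapGL ℚ ModularGroup.T)) P = P) :
    P = C (P.eval 0) := by
  have h1 : ∀ r : ℚ, P.eval (((r + 1 : ℚ) : ℝ) : ℂ) = P.eval ((r : ℝ) : ℂ) := by
    intro r
    have e : (Matrix.SpecialLinearGroup.mapGL ℚ ModularGroup.T : GQ) 1 0 * r +
        (Matrix.SpecialLinearGroup.mapGL ℚ ModularGroup.T : GQ) 1 1 = 1 := by
      simp [ModularGroup.T]
    have h2 := eval_slashM_rat n (Matrix.SpecialLinearGroup.mapGL ℚ ModularGroup.T) hP (r := r)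
      (by rw [e]; exact one_ne_zero)
    rw [h, e] at h2
    have e2 : ((Matrix.SpecialLinearGroup.mapGL ℚ ModularGroup.T : GQ) 0 0 * r +
        (Matrix.SpecialLinearGroup.mapGL ℚ ModularGroup.T : GQ) 0 1) / 1 = r + 1 := by
      simp [ModularGroup.T]
    rw [e2] at h2
    rw [h2]
    simp
  have h2 : ∀ k : ℕ, P.eval (k : ℂ) = P.eval 0 := by
    intro k
    induction k with
    | zero => simp
    | succ k ih =>
      have h3 := h1 k
      push_cast at h3 ⊢
      rw [h3, ih]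
  have h3 : P - C (P.eval 0) = 0 := by
    refine Polynomial.eq_zero_of_infinite_isRoot _ ?_
    refine (Set.infinite_range_of_injective (Nat.cast_injective (R := ℂ))).mono ?_
    rintro _ ⟨k, rfl⟩
    show IsRoot _ _
    rw [IsRoot, eval_sub, eval_C, h2 k, sub_self]
  exact sub_eq_zero.1 h3

/-- **(b)** the edge function of a boundary symbol is constant. -/
theorem edge_of_isBdry {n M : ℕ} [NeZero M] (hn : 1 ≤ n) {φ : Symb} (h : IsBdry n M φ) :
    ∃ κ : ℂ, ∀ r : ℚ, edge φ r = κ := by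
  obtain ⟨w, hdeg, hinv, hφ⟩ := h.ex
  refine ⟨(w OnePoint.infty).eval 0, fun r => ?_⟩
  have h1 : (w ((r : ℚ) : OnePoint ℚ)).eval ((r : ℝ) : ℂ) = 0 := by
    refine eval_eq_zero_of_par (M := M) hn (hdeg _) fun g hg hr => ?_
    have := hinv g hg ((r : ℚ) : OnePoint ℚ)
    rwa [hr] at this
  have hT : ModularGroup.T ∈ Gamma0 M := by
    rw [Gamma0_mem]
    simp [ModularGroup.T]
  have h2 : w OnePoint.infty = C ((w OnePoint.infty).eval 0) := by
    refine eq_C_of_T (hdeg _) ?_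
    have h3 := hinv _ hT OnePoint.infty
    have h4 : (Matrix.SpecialLinearGroup.mapGL ℚ ModularGroup.T : GQ) •
        (OnePoint.infty : OnePoint ℚ) = OnePoint.infty := by
      rw [OnePoint.smul_infty_eq_self_iff]
      simp [ModularGroup.T]
    rwa [h4] at h3
  rw [edge, hφ, eval_sub, h1, sub_zero]
  conv_lhs => rw [h2]
  rw [eval_C]

end Gouvea.Theta.Bdry

namespace Gouvea.Theta

/-- **(a)** a symbol with constant edge function is a boundary symbol. -/
theorem isBdry_of_edge {n M : ℕ} {φ : Symb} (hφ : FSM n M φ) {κ : ℂ}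
    (h : ∀ r : ℚ, edge φ r = κ) : IsBdry n M φ := Bdry.isBdry_of_edge hφ h

/-- **(b)** the edge function of a boundary symbol is constant. -/
theorem edge_of_isBdry {n M : ℕ} [NeZero M] (hn : 1 ≤ n) {φ : Symb} (h : IsBdry n M φ) :
    ∃ κ : ℂ, ∀ r : ℚ, edge φ r = κ := Bdry.edge_of_isBdry hn h

end Gouvea.Theta
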