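import Mathlib

/-!
# A Hölder bound for functions on the rational numbers (cell THETA, MP_d3517d_nt)

Functions `F g` on `ℚ` with `F g (r + m) = F g' r` and `F g r = P g r + r^n F g'' (-1/r)`, with
uniformly bounded and Lipschitz `P g`, are uniformly bounded and uniformly Hölder continuous of
exponent `1/2` (`n ≥ 2`).
-/

open Filter Topology

noncomputable section

namespace Gouvea.Theta

lemma num_lt_den {s : ℚ} (h : |s| < 1) : s.num.natAbs < s.den := by
  have h1 : |s| = (s.num.natAbs : ℚ) / s.den := by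
    rw [Rat.abs_def]
    simp [Rat.divInt_eq_div]
  rw [h1, div_lt_one (by exact_mod_cast s.pos)] at h
  exact_mod_cast h

lemma den_neg_inv {s : ℚ} (h0 : s ≠ 0) : (-1 / s).den = s.num.natAbs := by
  have : -1 / s = -(s⁻¹) := by ring
  rw [this, Rat.neg_den, Rat.den_inv_of_ne_zero h0]

variable {G : Type*} {n : ℕ} {F : G → ℚ → ℂ} {P : G → ℝ → ℂ} {C₀ C₁ : ℝ}

theorem bound_aux (hn : 2 ≤ n)
    (h0 : ∀ g, F g 0 = P g 0)
    (h1 : ∀ g (m : ℤ), ∃ g', ∀ r, F g (r + m) = F g' r)
    (h2 : ∀ g, ∃ g', ∀ r : ℚ, r ≠ 0 → F g r = P g r + (r : ℂ) ^ n * F g' (-1 / r))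
    (hP : ∀ g x, |x| ≤ 1 → ‖P g x‖ ≤ C₀) : ∀ g r, ‖F g r‖ ≤ 2 * C₀ := by
  have key : ∀ N : ℕ, ∀ g (r : ℚ), r.den ≤ N → ‖F g r‖ ≤ 2 * C₀ := by
    intro N
    induction N with
    | zero => intro g r hr; exact absurd r.pos (by omega)
    | succ N ih =>
      intro g r hr
      obtain ⟨g', hg'⟩ := h1 g (round r)
      have hrs : r = (r - round r) + round r := by ring
      set s : ℚ := r - round r with hs
      have hden : s.den = r.den := by rw [hs, Rat.sub_intCast_den]
      have habs : |s| ≤ 1 / 2 := abs_sub_round r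
      rw [hrs, hg']
      have hC : 0 ≤ C₀ := (norm_nonneg _).trans (hP g 0 (by simp))
      by_cases h : s = 0
      · rw [h, h0]
        have := hP g' 0 (by simp)
        linarith
      · obtain ⟨g'', hg''⟩ := h2 g'
        rw [hg'' s h]
        have hlt : (-1 / s).den < s.den := by
          rw [den_neg_inv h]
          exact num_lt_den (lt_of_le_of_lt habs (by norm_num))
        have hI := ih g'' (-1 / s) (by omega)
        have habsR : |(s : ℝ)| ≤ 1 / 2 := by
          have : ((|s| : ℚ) : ℝ) ≤ ((1 / 2 : ℚ) : ℝ) := by exact_mod_cast habs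
          simpa using this
        have h3 := hP g' s (habsR.trans (by norm_num))
        have h4 : ‖(s : ℂ) ^ n‖ ≤ 1 / 4 := by
          rw [norm_pow]
          have h5 : ‖(s : ℂ)‖ = |(s : ℝ)| := by
            rw [← Complex.ofReal_ratCast, Complex.norm_real, Real.norm_eq_abs]
          rw [h5]
          calc |(s : ℝ)| ^ n ≤ |(s : ℝ)| ^ 2 :=
                pow_le_pow_of_le_one (abs_nonneg _) (habsR.trans (by norm_num)) hn
            _ ≤ (1 / 2) ^ 2 := by gcongr
            _ = 1 / 4 := by norm_num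
        calc ‖P g' s + (s : ℂ) ^ n * F g'' (-1 / s)‖ ≤ ‖P g' s‖ + ‖(s : ℂ) ^ n * F g'' (-1 / s)‖ :=
              norm_add_le _ _
          _ ≤ C₀ + 1 / 4 * (2 * C₀) := by
              rw [norm_mul]
              gcongr
          _ ≤ 2 * C₀ := by linarith
  exact fun g r => key _ g r le_rfl

lemma pow_sub_le {a b : ℝ} (ha : |a| ≤ 1) (hb : |b| ≤ 1) (n : ℕ) :
    |a ^ n - b ^ n| ≤ n * |a - b| := by
  induction n with
  | zero => simp
  | succ n ih =>
    have h : a ^ (n + 1) - b ^ (n + 1) = (a ^ n - b ^ n) * a + b ^ n * (a - b) := by ring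
    rw [h]
    calc |(a ^ n - b ^ n) * a + b ^ n * (a - b)| ≤ |(a ^ n - b ^ n) * a| + |b ^ n * (a - b)| :=
          abs_add_le _ _
      _ = |a ^ n - b ^ n| * |a| + |b| ^ n * |a - b| := by rw [abs_mul, abs_mul, abs_pow]
      _ ≤ (n * |a - b|) * 1 + 1 * |a - b| := by
          gcongr
          exact pow_le_one₀ (abs_nonneg _) hb
      _ = (n + 1 : ℕ) * |a - b| := by push_cast; ring

/-- The uniform Hölder bound. -/
theorem hold_aux (hn : 2 ≤ n)
    (h0 : ∀ g, F g 0 = P g 0)
    (h1 : ∀ g (m : ℤ), ∃ g', ∀ r, F g (r + m) = F g' r)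
    (h2 : ∀ g, ∃ g', ∀ r : ℚ, r ≠ 0 → F g r = P g r + (r : ℂ) ^ n * F g' (-1 / r))
    (hP : ∀ g x, |x| ≤ 1 → ‖P g x‖ ≤ C₀)
    (hL : ∀ g x y, |x| ≤ 1 → |y| ≤ 1 → ‖P g x - P g y‖ ≤ C₁ * |x - y|) (hC₁ : 0 ≤ C₁) :
    ∃ K : ℝ, ∀ g (r r' : ℚ), ‖F g r - F g r'‖ ≤ K * √|(r : ℝ) - r'| := by
  rcases isEmpty_or_nonempty G with hG | ⟨⟨g₀⟩⟩
  · exact ⟨0, fun g => (IsEmpty.false g).elim⟩
  have hC : 0 ≤ C₀ := (norm_nonneg _).trans (hP g₀ 0 (by simp))
  have hB := bound_aux hn h0 h1 h2 hP
  set B : ℝ := 2 * C₀ with hBdef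
  have hB0 : 0 ≤ B := by positivity
  set K : ℝ := 2 * (C₁ + n * B) + 18 * B with hK
  have hK0 : 0 ≤ K := by positivity
  refine ⟨K, ?_⟩
  -- the pairs at distance more than 1/8
  have far : ∀ g (r r' : ℚ), 1 / 8 ≤ |(r : ℝ) - r'| → ‖F g r - F g r'‖ ≤ K * √|(r : ℝ) - r'| := by
    intro g r r' h
    have h3 : (1 / 4 : ℝ) ≤ √|(r : ℝ) - r'| := by
      apply Real.le_sqrt_of_sq_le
      nlinarith
    calc ‖F g r - F g r'‖ ≤ ‖F g r‖ + ‖F g r'‖ := norm_sub_le _ _
      _ ≤ B + B := add_le_add (hB g r) (hB g r')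
      _ ≤ K * (1 / 4) := by
          have : 0 ≤ C₁ + n * B := by positivity
          rw [hK]; linarith
      _ ≤ K * √|(r : ℝ) - r'| := by gcongr
  -- the estimate `F g r = P g r + O(|r|^2)`
  have near0 : ∀ g (r : ℚ), |(r : ℝ)| ≤ 1 → ‖F g r - P g r‖ ≤ |(r : ℝ)| ^ 2 * B := by
    intro g r hr
    by_cases h : r = 0
    · subst h
      have : P g ((0 : ℚ) : ℝ) = P g 0 := by simp
      rw [h0, this]
      simp
    · obtain ⟨g', hg'⟩ := h2 g
      rw [hg' r h, add_sub_cancel_left, norm_mul, norm_pow]
      have h5 : ‖(r : ℂ)‖ = |(r : ℝ)| := by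
        rw [← Complex.ofReal_ratCast, Complex.norm_real, Real.norm_eq_abs]
      rw [h5]
      have h6 := hB g' (-1 / r)
      gcongr ?_ * ?_
      exact pow_le_pow_of_le_one (abs_nonneg _) hr hn
  have key : ∀ N : ℕ, ∀ g (r r' : ℚ), r.den + r'.den ≤ N →
      ‖F g r - F g r'‖ ≤ K * √|(r : ℝ) - r'| := by
    intro N
    induction N with
    | zero => intro g r r' hr; exact absurd r.pos (by omega)
    | succ N ih =>
      -- both in the unit interval, `|y| ≤ |x|`, `|y| ≤ 1/2`
      have main : ∀ g (x y : ℚ), x.den + y.den ≤ N + 1 → |(y : ℝ)| ≤ |(x : ℝ)| →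
          |(y : ℝ)| ≤ 1 / 2 → |(x : ℝ) - y| ≤ 1 / 8 →
          ‖F g x - F g y‖ ≤ K * √|(x : ℝ) - y| := by
        intro g x y hden hyx hy hd
        set h : ℝ := |(x : ℝ) - y| with hh
        have hh0 : 0 ≤ h := abs_nonneg _
        have hh1 : h ≤ √h := by
          apply Real.le_sqrt_of_sq_le
          nlinarith
        have hx : |(x : ℝ)| ≤ 5 / 8 := by
          have : |(x : ℝ)| ≤ |(x : ℝ) - y| + |(y : ℝ)| := by
            have := abs_add_le ((x : ℝ) - y) y
            simpa using this
          linarith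
        have hx1 : |(x : ℝ)| ≤ 1 := hx.trans (by norm_num)
        have hy1 : |(y : ℝ)| ≤ 1 := hy.trans (by norm_num)
        have hPd := hL g x y hx1 hy1
        rcases le_or_gt |(y : ℝ)| (2 * h) with hc | hc
        · -- case A
          have hx3 : |(x : ℝ)| ≤ 3 * h := by
            have : |(x : ℝ)| ≤ |(x : ℝ) - y| + |(y : ℝ)| := by
              have := abs_add_le ((x : ℝ) - y) y
              simpa using this
            linarith
          have e1 := near0 g x hx1
          have e2 := near0 g y hy1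
          have e3 : F g x - F g y = (F g x - P g x) + (P g x - P g y) - (F g y - P g y) := by ring
          calc ‖F g x - F g y‖ ≤ ‖F g x - P g x‖ + ‖P g x - P g y‖ + ‖F g y - P g y‖ := by
                rw [e3]
                exact (norm_sub_le _ _).trans (by gcongr; exact norm_add_le _ _)
            _ ≤ |(x : ℝ)| ^ 2 * B + C₁ * h + |(y : ℝ)| ^ 2 * B := by gcongr
            _ ≤ (3 * h) ^ 2 * B + C₁ * h + (2 * h) ^ 2 * B := by gcongr
            _ = (C₁ + 13 * h * B) * h := by ring
            _ ≤ (C₁ + 13 * (1 / 8) * B) * h := by gcongr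
            _ ≤ K * h := by
                gcongr
                have : 0 ≤ (n : ℝ) * B := by positivity
                rw [hK]; linarith
            _ ≤ K * √h := by gcongr
        · -- case B
          have hy0 : (0 : ℝ) < |(y : ℝ)| := by linarith
          have hyne : y ≠ 0 := by
            intro h'
            rw [h'] at hy0
            simp at hy0
          have hx0 : (0 : ℝ) < |(x : ℝ)| := by linarith
          have hxne : x ≠ 0 := by
            intro h'
            rw [h'] at hx0
            simp at hx0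
          obtain ⟨g', hg'⟩ := h2 g
          have hdx : (-1 / x).den < x.den := by
            rw [den_neg_inv hxne]
            apply num_lt_den
            have : ((|x| : ℚ) : ℝ) < ((1 : ℚ) : ℝ) := by
              push_cast
              linarith
            exact_mod_cast this
          have hdy : (-1 / y).den < y.den := by
            rw [den_neg_inv hyne]
            apply num_lt_den
            have : ((|y| : ℚ) : ℝ) < ((1 : ℚ) : ℝ) := by
              push_cast
              linarith
            exact_mod_cast this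
          have hI := ih g' (-1 / x) (-1 / y) (by omega)
          have hxR : (x : ℝ) ≠ 0 := by exact_mod_cast hxne
          have hyR : (y : ℝ) ≠ 0 := by exact_mod_cast hyne
          have hdist : |((-1 / x : ℚ) : ℝ) - ((-1 / y : ℚ) : ℝ)| = h / (|(x : ℝ)| * |(y : ℝ)|) := by
            push_cast
            rw [hh, ← abs_mul, ← abs_div]
            congr 1
            field_simp
            ring
          rw [hdist] at hI
          have hsq : √(h / (|(x : ℝ)| * |(y : ℝ)|)) ≤ √h / |(y : ℝ)| := by
            rw [Real.sqrt_div hh0]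
            gcongr
            apply Real.le_sqrt_of_sq_le
            rw [sq]
            gcongr
          have hn1 : ‖(y : ℂ)‖ = |(y : ℝ)| := by
            rw [← Complex.ofReal_ratCast, Complex.norm_real, Real.norm_eq_abs]
          have hpow : ‖(x : ℂ) ^ n - (y : ℂ) ^ n‖ ≤ n * h := by
            have : (x : ℂ) ^ n - (y : ℂ) ^ n = (((x : ℝ) ^ n - (y : ℝ) ^ n : ℝ) : ℂ) := by
              push_cast
              ring
            rw [this, Complex.norm_real, Real.norm_eq_abs]
            exact pow_sub_le hx1 hy1 n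
          have e3 : F g x - F g y = (P g x - P g y) + ((x : ℂ) ^ n - (y : ℂ) ^ n) * F g' (-1 / x) +
              (y : ℂ) ^ n * (F g' (-1 / x) - F g' (-1 / y)) := by
            rw [hg' x hxne, hg' y hyne]
            ring
          have hyn : ‖(y : ℂ) ^ n‖ ≤ |(y : ℝ)| * (1 / 2) := by
            rw [norm_pow, hn1]
            calc |(y : ℝ)| ^ n ≤ |(y : ℝ)| ^ 2 := pow_le_pow_of_le_one (abs_nonneg _) hy1 hn
              _ = |(y : ℝ)| * |(y : ℝ)| := sq _
              _ ≤ |(y : ℝ)| * (1 / 2) := by gcongr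
          calc ‖F g x - F g y‖ ≤ ‖P g x - P g y‖ + ‖(x : ℂ) ^ n - (y : ℂ) ^ n‖ * ‖F g' (-1 / x)‖ +
                ‖(y : ℂ) ^ n‖ * ‖F g' (-1 / x) - F g' (-1 / y)‖ := by
                rw [e3, ← norm_mul, ← norm_mul]
                exact (norm_add_le _ _).trans (by gcongr; exact norm_add_le _ _)
            _ ≤ C₁ * h + (n * h) * B + (|(y : ℝ)| * (1 / 2)) * (K * (√h / |(y : ℝ)|)) := by
                gcongr
                · exact hB _ _
                · exact hI.trans (by gcongr)
            _ = (C₁ + n * B) * h + K / 2 * √h := by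
                field_simp
            _ ≤ (C₁ + n * B) * √h + K / 2 * √h := by gcongr
            _ ≤ K * √h := by
                rw [← add_mul]
                gcongr
                rw [hK]
                linarith
      -- one in [-1/2, 1/2]
      have main2 : ∀ g (x y : ℚ), x.den + y.den ≤ N + 1 → |(x : ℝ)| ≤ 1 / 2 →
          |(x : ℝ) - y| ≤ 1 / 8 → ‖F g x - F g y‖ ≤ K * √|(x : ℝ) - y| := by
        intro g x y hden hx hd
        rcases le_total |(y : ℝ)| |(x : ℝ)| with hc | hc
        · exact main g x y hden hc (hc.trans hx) hd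
        · rw [norm_sub_rev, abs_sub_comm]
          exact main g y x (by omega) hc hx (by rwa [abs_sub_comm])
      intro g r r' hden
      rcases le_or_gt (1 / 8) |(r : ℝ) - r'| with hfar | hnear
      · exact far g r r' hfar
      · obtain ⟨g', hg'⟩ := h1 g (round r)
        have hrs : r = (r - round r) + round r := by ring
        have hrs' : r' = (r' - round r) + round r := by ring
        have e1 := hg' (r - round r)
        have e2 := hg' (r' - round r)
        rw [← hrs] at e1
        rw [← hrs'] at e2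
        rw [e1, e2]
        have e3 : (r : ℝ) - r' = ((r - round r : ℚ) : ℝ) - ((r' - round r : ℚ) : ℝ) := by
          push_cast
          ring
        rw [e3]
        apply main2
        · rw [Rat.sub_intCast_den, Rat.sub_intCast_den]
          exact hden
        · have : ((|r - round r| : ℚ) : ℝ) ≤ ((1 / 2 : ℚ) : ℝ) := by
            exact_mod_cast abs_sub_round r
          simpa using this
        · rw [← e3]
          exact hnear.le
  exact fun g r r' => key _ g r r' le_rfl

/-- Extension to the real numbers. -/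
theorem exists_ext {f : ℚ → ℂ} {K : ℝ} (h : ∀ r r' : ℚ, ‖f r - f r'‖ ≤ K * √|(r : ℝ) - r'|) :
    ∃ L : ℝ → ℂ, Continuous L ∧ ∀ r : ℚ, L r = f r := by
  have hu : UniformContinuous f := by
    rw [Metric.uniformContinuous_iff]
    intro ε hε
    refine ⟨(ε / (|K| + 1)) ^ 2, by positivity, fun {a b} hab => ?_⟩
    rw [dist_eq_norm]
    have h3 : |(a : ℝ) - b| < (ε / (|K| + 1)) ^ 2 := by
      rwa [Rat.dist_eq] at hab
    have h4 : √|(a : ℝ) - b| < ε / (|K| + 1) := by
      rw [Real.sqrt_lt' (by positivity)]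
      exact h3
    calc ‖f a - f b‖ ≤ K * √|(a : ℝ) - b| := h a b
      _ ≤ (|K| + 1) * √|(a : ℝ) - b| := by
          gcongr
          linarith [le_abs_self K]
      _ < (|K| + 1) * (ε / (|K| + 1)) := by gcongr
      _ = ε := by field_simp
  have hd : DenseRange ((↑) : ℚ → ℝ) := Rat.denseRange_cast
  have hi : IsUniformInducing ((↑) : ℚ → ℝ) := Rat.isUniformEmbedding_coe_real.isUniformInducing
  refine ⟨(hi.isDenseInducing hd).extend f,
    (uniformContinuous_uniformly_extend hi hd hu).continuous, fun r => ?_⟩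
  exact (hi.isDenseInducing hd).extend_eq hu.continuous r

end Gouvea.Theta
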