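import Pool.Agent.Work.MP_d3517d_nt.ES.ThetaDefs
import Pool.Agent.Work.MP_d3517d_nt.ES.ThetaHold

/-!
# The edge function of a full symbol (cell THETA, MP_d3517d_nt)

For `n ≥ 2` even the edge function `r ↦ φ(∞, r)(r)` of a full symbol with finite orbit extends to a
bounded continuous function on `ℝ`, with the transformation law under `GL₂(ℚ)`.
-/

open Filter Topology UpperHalfPlane CongruenceSubgroup Polynomial MeasureTheory
open scoped MatrixGroups ModularForm ComplexConjugate Manifold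

noncomputable section

namespace Gouvea.Theta

open Gouvea.ES Matrix.SpecialLinearGroup

variable {n : ℕ} {φ ψ : Symb}

/-! ### the action -/

lemma matOf_mul (g h : GQ) : matOf ℂ (g * h) = matOf ℂ g * matOf ℂ h := by
  rw [matOf, matOf, matOf, Units.val_mul, Matrix.map_mul]

lemma matOf_one : matOf ℂ (1 : GQ) = 1 := by
  rw [matOf, Units.val_one, Matrix.map_one _ (map_zero _) (map_one _)]

lemma matOf_apply (g : GQ) (i j : Fin 2) : matOf ℂ g i j = ((g i j : ℚ) : ℂ) := rfl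

lemma fact_apply (n : ℕ) (g : GQ) (φ : Symb) (x y : OnePoint ℚ) :
    fact n g φ x y = slashM n (matOf ℂ g) (φ (g • x) (g • y)) := rfl

lemma fact_mul (n : ℕ) (g h : GQ) (φ : Symb) : fact n (g * h) φ = fact n h (fact n g φ) := by
  funext x y
  rw [fact_apply, fact_apply, fact_apply, slashM_slashM, matOf_mul, mul_smul, mul_smul]

lemma fact_one (hφ : ∀ x y, (φ x y).natDegree ≤ n) : fact n 1 φ = φ := by
  funext x y
  rw [fact_apply, matOf_one, one_smul, one_smul]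
  exact slashM_one n _ (mem_degreeLE.2 (natDegree_le_iff_degree_le.1 (hφ x y)))

lemma fact_add (n : ℕ) (g : GQ) (φ ψ : Symb) : fact n g (φ + ψ) = fact n g φ + fact n g ψ := by
  funext x y
  simp only [fact_apply, Pi.add_apply, map_add]

lemma fact_smul (n : ℕ) (g : GQ) (c : ℂ) (φ : Symb) : fact n g (c • φ) = c • fact n g φ := by
  funext x y
  simp only [fact_apply, Pi.smul_apply, map_smul]

lemma fact_sub (n : ℕ) (g : GQ) (φ ψ : Symb) : fact n g (φ - ψ) = fact n g φ - fact n g ψ := by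
  funext x y
  simp only [fact_apply, Pi.sub_apply, map_sub]

lemma fact_natDegree_le (n : ℕ) (g : GQ) (φ : Symb) (x y : OnePoint ℚ) :
    (fact n g φ x y).natDegree ≤ n := natDegree_slashM_le n _ _

lemma fact_additive (n : ℕ) (g : GQ) (h : ∀ x y z, φ x y + φ y z = φ x z) (x y z : OnePoint ℚ) :
    fact n g φ x y + fact n g φ y z = fact n g φ x z := by
  simp only [fact_apply]
  rw [← map_add, h]

lemma eval_slashM (n : ℕ) (M : Matrix (Fin 2) (Fin 2) ℂ) {P : ℂ[X]} (hP : P.natDegree ≤ n) {t : ℂ}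
    (h : M 1 0 * t + M 1 1 ≠ 0) : (slashM n M P).eval t =
      (M 1 0 * t + M 1 1) ^ n * P.eval ((M 0 0 * t + M 0 1) / (M 1 0 * t + M 1 1)) := by
  rw [slashM_apply, eval_finsetSum, eval_eq_sum_range' (Nat.lt_succ_of_le hP), Finset.mul_sum]
  refine Finset.sum_congr rfl fun j hj => ?_
  have hj' : j ≤ n := Nat.lt_succ_iff.1 (Finset.mem_range.1 hj)
  simp only [eval_mul, eval_C, eval_pow, eval_add, eval_X]
  rw [div_pow]
  have e : (M 1 0 * t + M 1 1) ^ n = (M 1 0 * t + M 1 1) ^ j * (M 1 0 * t + M 1 1) ^ (n - j) := by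
    rw [← pow_add, Nat.add_sub_cancel' hj']
  rw [e]
  have h' : (M 1 0 * t + M 1 1) ^ j ≠ 0 := pow_ne_zero _ h
  rw [show (M 1 0 * t + M 1 1) ^ j * (M 1 0 * t + M 1 1) ^ (n - j) *
    (P.coeff j * ((M 0 0 * t + M 0 1) ^ j / (M 1 0 * t + M 1 1) ^ j)) =
    P.coeff j * ((M 0 0 * t + M 0 1) ^ j * (M 1 0 * t + M 1 1) ^ (n - j)) *
      ((M 1 0 * t + M 1 1) ^ j / (M 1 0 * t + M 1 1) ^ j) by ring, div_self h', mul_one]

lemma mapGL_ij (γ : SL(2, ℤ)) (i j : Fin 2) : (mapGL ℚ γ : GQ) i j = ((γ i j : ℤ) : ℚ) := rfl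

/-! ### symbols with finite orbit -/

lemma FS.self (h : FS n φ) (x : OnePoint ℚ) : φ x x = 0 := by
  have := h.add x x x
  simpa using this

lemma FS.neg' (h : FS n φ) (x y : OnePoint ℚ) : φ y x = -φ x y := by
  have := h.add x y x
  rw [h.self] at this
  exact (neg_eq_of_add_eq_zero_right this).symm

theorem FS.fact (h : FS n φ) (g : SL(2, ℤ)) : FS n (fact n (mapGL ℚ g) φ) where
  deg := fact_natDegree_le n _ φ
  add := fact_additive n _ h.add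
  fin := by
    refine h.fin.subset ?_
    rintro _ ⟨γ, rfl⟩
    exact ⟨g * γ, by simp only [map_mul, fact_mul]⟩

/-- conjugation by `diag(-1, 1)` -/
def cj (γ : SL(2, ℤ)) : SL(2, ℤ) :=
  ⟨!![γ 0 0, -γ 0 1; -γ 1 0, γ 1 1], by
    have := γ.det_coe
    rw [Matrix.det_fin_two] at this
    rw [Matrix.det_fin_two_of]
    linarith⟩

lemma eps_mul_mapGL (γ : SL(2, ℤ)) : (eps * mapGL ℚ γ : GQ) = mapGL ℚ (cj γ) * eps := by
  ext i j
  rw [Units.val_mul, Units.val_mul, Matrix.mul_apply, Matrix.mul_apply, Fin.sum_univ_two,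
    Fin.sum_univ_two]
  simp only [mapGL_ij]
  fin_cases i <;> fin_cases j <;>
    simp [eps, triQ, cj, Matrix.GeneralLinearGroup.mkOfDetNeZero]

theorem FS.eps (h : FS n φ) : FS n (Gouvea.Theta.fact n ES.eps φ) where
  deg := fact_natDegree_le n _ φ
  add := fact_additive n _ h.add
  fin := by
    refine (h.fin.image (Gouvea.Theta.fact n ES.eps)).subset ?_
    rintro _ ⟨γ, rfl⟩
    refine ⟨_, ⟨cj γ, rfl⟩, ?_⟩
    change Gouvea.Theta.fact n ES.eps (Gouvea.Theta.fact n (mapGL ℚ (cj γ)) φ) =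
      Gouvea.Theta.fact n (mapGL ℚ γ) (Gouvea.Theta.fact n ES.eps φ)
    rw [← fact_mul, ← fact_mul, eps_mul_mapGL]

theorem FS.plus (h : FS n φ) (h' : FS n ψ) : FS n (φ + ψ) where
  deg x y := (natDegree_add_le _ _).trans (max_le (h.deg x y) (h'.deg x y))
  add x y z := by
    simp only [Pi.add_apply]
    rw [← h.add x y z, ← h'.add x y z]
    ring
  fin := by
    refine (Set.Finite.image2 (· + ·) h.fin h'.fin).subset ?_
    rintro _ ⟨γ, rfl⟩
    exact ⟨_, ⟨γ, rfl⟩, _, ⟨γ, rfl⟩, (fact_add n _ φ ψ).symm⟩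

theorem FS.smul (h : FS n φ) (c : ℂ) : FS n (c • φ) where
  deg x y := (natDegree_smul_le _ _).trans (h.deg x y)
  add x y z := by
    simp only [Pi.smul_apply]
    rw [← smul_add, h.add x y z]
  fin := by
    refine (h.fin.image (c • ·)).subset ?_
    rintro _ ⟨γ, rfl⟩
    exact ⟨_, ⟨γ, rfl⟩, (fact_smul n _ c φ).symm⟩

theorem FS.sub (h : FS n φ) (h' : FS n ψ) : FS n (φ - ψ) := by
  have := h.plus (h'.smul (-1))
  rwa [neg_one_smul, ← sub_eq_add_neg] at this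

theorem FSM.fs {M : ℕ} [NeZero M] (h : FSM n M φ) : FS n φ where
  deg := h.deg
  add := h.add
  fin := by
    let f : SL(2, ℤ) ⧸ Gamma0 M → Symb := Quotient.lift
      (fun γ : SL(2, ℤ) => fact n (mapGL ℚ γ⁻¹) φ) (by
        intro a b hab
        have hab' : a⁻¹ * b ∈ Gamma0 M := QuotientGroup.leftRel_apply.1 hab
        have e : a⁻¹ = (a⁻¹ * b) * b⁻¹ := by group
        change fact n (mapGL ℚ a⁻¹) φ = fact n (mapGL ℚ b⁻¹) φ
        rw [e, map_mul, fact_mul, h.inv _ hab'])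
    refine (Set.finite_range f).subset ?_
    rintro _ ⟨γ, rfl⟩
    refine ⟨QuotientGroup.mk γ⁻¹, ?_⟩
    change fact n (mapGL ℚ (γ⁻¹)⁻¹) φ = _
    rw [inv_inv]

/-! ### the edge function on the rational numbers -/

/-- The transformation law on the rational numbers. -/
theorem edge_fact (hd : ∀ x y, (φ x y).natDegree ≤ n) (ha : ∀ x y z, φ x y + φ y z = φ x z)
    (g : GQ) {r : ℚ} (h : g 1 0 * r + g 1 1 ≠ 0) :
    ((g 1 0 * r + g 1 1 : ℚ) : ℂ) ^ n * edge φ ((g 0 0 * r + g 0 1) / (g 1 0 * r + g 1 1)) =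
      (slashM n (matOf ℂ g) (φ OnePoint.infty (g • OnePoint.infty))).eval (r : ℂ) +
        edge (fact n g φ) r := by
  have h1 : (g • ((r : ℚ) : OnePoint ℚ)) =
      (((g 0 0 * r + g 0 1) / (g 1 0 * r + g 1 1) : ℚ) : OnePoint ℚ) := by
    rw [OnePoint.smul_some_eq_ite, if_neg h]
  have hc : matOf ℂ g 1 0 * (r : ℂ) + matOf ℂ g 1 1 ≠ 0 := by
    rw [matOf_apply, matOf_apply]
    exact_mod_cast h
  have e : edge (fact n g φ) r = (slashM n (matOf ℂ g) (φ (g • OnePoint.infty)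
      (((g 0 0 * r + g 0 1) / (g 1 0 * r + g 1 1) : ℚ) : OnePoint ℚ))).eval (r : ℂ) := by
    rw [edge, fact_apply, h1, Complex.ofReal_ratCast]
  rw [e, ← eval_add, ← map_add, ha, eval_slashM n _ (hd _ _) hc, edge]
  congr 1
  · rw [matOf_apply, matOf_apply]
    push_cast
    rfl
  · congr 1
    rw [matOf_apply, matOf_apply, matOf_apply, matOf_apply]
    push_cast
    rfl

lemma norm_eval_le {Q : ℂ[X]} (hQ : Q.natDegree ≤ n) {x : ℝ} (hx : |x| ≤ 1) :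
    ‖Q.eval (x : ℂ)‖ ≤ ∑ j ∈ Finset.range (n + 1), ‖Q.coeff j‖ := by
  rw [eval_eq_sum_range' (Nat.lt_succ_of_le hQ)]
  refine (norm_sum_le _ _).trans (Finset.sum_le_sum fun j _ => ?_)
  rw [norm_mul, norm_pow, Complex.norm_real, Real.norm_eq_abs]
  exact mul_le_of_le_one_right (norm_nonneg _) (pow_le_one₀ (abs_nonneg _) hx)

lemma norm_eval_sub_le {Q : ℂ[X]} (hQ : Q.natDegree ≤ n) {x y : ℝ} (hx : |x| ≤ 1)
    (hy : |y| ≤ 1) : ‖Q.eval (x : ℂ) - Q.eval (y : ℂ)‖ ≤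
      (∑ j ∈ Finset.range (n + 1), ‖Q.coeff j‖ * j) * |x - y| := by
  rw [eval_eq_sum_range' (Nat.lt_succ_of_le hQ), eval_eq_sum_range' (Nat.lt_succ_of_le hQ),
    ← Finset.sum_sub_distrib, Finset.sum_mul]
  refine (norm_sum_le _ _).trans (Finset.sum_le_sum fun j _ => ?_)
  rw [← mul_sub, norm_mul, mul_assoc]
  gcongr
  have : (x : ℂ) ^ j - (y : ℂ) ^ j = ((x ^ j - y ^ j : ℝ) : ℂ) := by push_cast; ring
  rw [this, Complex.norm_real, Real.norm_eq_abs]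
  exact pow_sub_le hx hy j

/-- translations -/
def Tm (m : ℤ) : SL(2, ℤ) := ⟨!![1, m; 0, 1], by simp⟩

theorem edge_T (h : FS n φ) (m : ℤ) (r : ℚ) :
    edge φ (r + m) = edge (fact n (mapGL ℚ (Tm m)) φ) r := by
  have h10 : (mapGL ℚ (Tm m) : GQ) 1 0 = 0 := by rw [mapGL_ij]; simp [Tm]
  have h11 : (mapGL ℚ (Tm m) : GQ) 1 1 = 1 := by rw [mapGL_ij]; simp [Tm]
  have h00 : (mapGL ℚ (Tm m) : GQ) 0 0 = 1 := by rw [mapGL_ij]; simp [Tm]
  have h01 : (mapGL ℚ (Tm m) : GQ) 0 1 = m := by rw [mapGL_ij]; simp [Tm]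
  have key := edge_fact h.deg h.add (mapGL ℚ (Tm m) : GQ) (r := r) (by
    rw [h10, h11]; simp)
  have hinf : (mapGL ℚ (Tm m) : GQ) • (OnePoint.infty : OnePoint ℚ) = OnePoint.infty := by
    rw [OnePoint.smul_infty_eq_ite, if_pos h10]
  rw [hinf, h.self, map_zero, eval_zero, zero_add, h10, h11, h00, h01] at key
  simpa using key

theorem edge_S (hn : Even n) (h : FS n φ) {r : ℚ} (hr : r ≠ 0) :
    edge φ r = (φ OnePoint.infty ((0 : ℚ) : OnePoint ℚ)).eval ((r : ℝ) : ℂ) +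
      (r : ℂ) ^ n * edge (fact n (mapGL ℚ ModularGroup.S) φ) (-1 / r) := by
  set g : GQ := mapGL ℚ ModularGroup.S with hg
  have h10 : g 1 0 = 1 := by rw [hg, mapGL_ij]; simp [ModularGroup.S]
  have h11 : g 1 1 = 0 := by rw [hg, mapGL_ij]; simp [ModularGroup.S]
  have h00 : g 0 0 = 0 := by rw [hg, mapGL_ij]; simp [ModularGroup.S]
  have h01 : g 0 1 = -1 := by rw [hg, mapGL_ij]; simp [ModularGroup.S]
  have hne : g 1 0 * (-1 / r) + g 1 1 ≠ 0 := by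
    rw [h10, h11]
    simp [hr]
  have hrc : (r : ℂ) ≠ 0 := by exact_mod_cast hr
  have key := edge_fact h.deg h.add g hne
  have hinf : g • (OnePoint.infty : OnePoint ℚ) = ((0 : ℚ) : OnePoint ℚ) := by
    rw [OnePoint.smul_infty_eq_ite, if_neg (by rw [h10]; exact one_ne_zero), h00, h10, zero_div]
  have hc : matOf ℂ g 1 0 * ((-1 / r : ℚ) : ℂ) + matOf ℂ g 1 1 ≠ 0 := by
    rw [matOf_apply, matOf_apply]
    exact_mod_cast hne
  rw [hinf, eval_slashM n _ (h.deg _ _) hc, matOf_apply, matOf_apply, matOf_apply, matOf_apply,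
    h10, h11, h00, h01] at key
  have e1 : (0 * (-1 / r) + -1) / (1 * (-1 / r) + 0) = r := by field_simp; ring
  have e2 : (((0 : ℚ) : ℂ) * ((-1 / r : ℚ) : ℂ) + ((-1 : ℚ) : ℂ)) /
      (((1 : ℚ) : ℂ) * ((-1 / r : ℚ) : ℂ) + ((0 : ℚ) : ℂ)) = (r : ℂ) := by
    exact_mod_cast congrArg (fun x : ℚ => (x : ℂ)) e1
  rw [e1, e2] at key
  have e3 : ((1 * (-1 / r) + 0 : ℚ) : ℂ) ^ n * (r : ℂ) ^ n = 1 := by
    rw [← mul_pow]
    have : ((1 * (-1 / r) + 0 : ℚ) : ℂ) * (r : ℂ) = -1 := by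
      push_cast
      field_simp
      ring
    rw [this, hn.neg_one_pow]
  have e4 : (((1 : ℚ) : ℂ) * ((-1 / r : ℚ) : ℂ) + ((0 : ℚ) : ℂ)) =
      ((1 * (-1 / r) + 0 : ℚ) : ℂ) := by push_cast; ring
  rw [e4] at key
  rw [Complex.ofReal_ratCast]
  calc edge φ r = (((1 * (-1 / r) + 0 : ℚ) : ℂ) ^ n * (r : ℂ) ^ n) * edge φ r := by rw [e3, one_mul]
    _ = (r : ℂ) ^ n * (((1 * (-1 / r) + 0 : ℚ) : ℂ) ^ n * edge φ r) := by ring
    _ = (((1 * (-1 / r) + 0 : ℚ) : ℂ) ^ n * (r : ℂ) ^ n) *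
          (φ OnePoint.infty ((0 : ℚ) : OnePoint ℚ)).eval (r : ℂ) +
          (r : ℂ) ^ n * edge (fact n g φ) (-1 / r) := by rw [key]; ring
    _ = _ := by rw [e3, one_mul]

/-- **The edge functions of the orbit are uniformly Hölder continuous and bounded.** -/
theorem edge_unif (hn : 2 ≤ n) (hev : Even n) (h : FS n φ) :
    (∃ K : ℝ, ∀ (g : SL(2, ℤ)) (r r' : ℚ), ‖edge (fact n (mapGL ℚ g) φ) r -
      edge (fact n (mapGL ℚ g) φ) r'‖ ≤ K * √|(r : ℝ) - r'|) ∧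
    ∃ B : ℝ, ∀ (g : SL(2, ℤ)) (r : ℚ), ‖edge (fact n (mapGL ℚ g) φ) r‖ ≤ B := by
  set F : SL(2, ℤ) → ℚ → ℂ := fun g r => edge (fact n (mapGL ℚ g) φ) r with hF
  set P : SL(2, ℤ) → ℝ → ℂ := fun g x =>
    (fact n (mapGL ℚ g) φ OnePoint.infty ((0 : ℚ) : OnePoint ℚ)).eval (x : ℂ) with hP
  have h0 : ∀ g, F g 0 = P g 0 := by
    intro g
    simp [hF, hP, edge]
  have h1 : ∀ g (m : ℤ), ∃ g', ∀ r, F g (r + m) = F g' r := by
    intro g m
    refine ⟨g * Tm m, fun r => ?_⟩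
    simp only [hF]
    rw [edge_T (h.fact g), map_mul, fact_mul]
  have h2 : ∀ g, ∃ g', ∀ r : ℚ, r ≠ 0 → F g r = P g r + (r : ℂ) ^ n * F g' (-1 / r) := by
    intro g
    refine ⟨g * ModularGroup.S, fun r hr => ?_⟩
    simp only [hF, hP]
    rw [edge_S hev (h.fact g) hr, map_mul, fact_mul]
  obtain ⟨C₀, hC₀⟩ : ∃ C₀ : ℝ, ∀ g : SL(2, ℤ), ∑ j ∈ Finset.range (n + 1),
      ‖(fact n (mapGL ℚ g) φ OnePoint.infty ((0 : ℚ) : OnePoint ℚ)).coeff j‖ ≤ C₀ := by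
    obtain ⟨C, hC⟩ := (h.fin.image fun ψ : Symb => ∑ j ∈ Finset.range (n + 1),
      ‖(ψ OnePoint.infty ((0 : ℚ) : OnePoint ℚ)).coeff j‖).bddAbove
    exact ⟨C, fun g => hC ⟨_, ⟨g, rfl⟩, rfl⟩⟩
  obtain ⟨C₁, hC₁⟩ : ∃ C₁ : ℝ, ∀ g : SL(2, ℤ), ∑ j ∈ Finset.range (n + 1),
      ‖(fact n (mapGL ℚ g) φ OnePoint.infty ((0 : ℚ) : OnePoint ℚ)).coeff j‖ * j ≤ C₁ := by
    obtain ⟨C, hC⟩ := (h.fin.image fun ψ : Symb => ∑ j ∈ Finset.range (n + 1),
      ‖(ψ OnePoint.infty ((0 : ℚ) : OnePoint ℚ)).coeff j‖ * j).bddAbove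
    exact ⟨C, fun g => hC ⟨_, ⟨g, rfl⟩, rfl⟩⟩
  have hPb : ∀ g x, |x| ≤ 1 → ‖P g x‖ ≤ C₀ := fun g x hx =>
    (norm_eval_le ((h.fact g).deg _ _) hx).trans (hC₀ g)
  have hPL : ∀ g x y, |x| ≤ 1 → |y| ≤ 1 → ‖P g x - P g y‖ ≤ C₁ * |x - y| := fun g x y hx hy =>
    (norm_eval_sub_le ((h.fact g).deg _ _) hx hy).trans (by gcongr; exact hC₁ g)
  have hC₁0 : 0 ≤ C₁ := (Finset.sum_nonneg fun _ _ => by positivity).trans (hC₁ 1)
  exact ⟨hold_aux hn h0 h1 h2 hPb hPL hC₁0, _, bound_aux hn h0 h1 h2 hPb⟩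

/-! ### the continuous extension -/

theorem edgeR_unique {L : ℝ → ℂ} (hc : Continuous L) (h : ∀ r : ℚ, L r = edge φ r) :
    edgeR φ = L := by
  have hex : ∃ L : ℝ → ℂ, Continuous L ∧ ∀ r : ℚ, L (r : ℝ) = edge φ r := ⟨L, hc, h⟩
  rw [edgeR, dif_pos hex]
  refine Continuous.ext_on Rat.denseRange_cast hex.choose_spec.1 hc ?_
  rintro _ ⟨r, rfl⟩
  rw [hex.choose_spec.2, h]

theorem edgeR_spec (hn : 2 ≤ n) (hev : Even n) (h : FS n φ) :
    Continuous (edgeR φ) ∧ ∀ r : ℚ, edgeR φ r = edge φ r := by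
  obtain ⟨⟨K, hK⟩, -⟩ := edge_unif hn hev h
  have hK1 : ∀ r r' : ℚ, ‖edge φ r - edge φ r'‖ ≤ K * √|(r : ℝ) - r'| := by
    intro r r'
    have := hK 1 r r'
    rwa [map_one, fact_one h.deg] at this
  have hex : ∃ L : ℝ → ℂ, Continuous L ∧ ∀ r : ℚ, L (r : ℝ) = edge φ r := exists_ext hK1
  rw [edgeR, dif_pos hex]
  exact hex.choose_spec

theorem edgeR_cont (hn : 2 ≤ n) (hev : Even n) (h : FS n φ) : Continuous (edgeR φ) :=
  (edgeR_spec hn hev h).1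

theorem edgeR_rat (hn : 2 ≤ n) (hev : Even n) (h : FS n φ) (r : ℚ) : edgeR φ r = edge φ r :=
  (edgeR_spec hn hev h).2 r

theorem edgeR_bdd (hn : 2 ≤ n) (hev : Even n) (h : FS n φ) : ∃ B : ℝ, ∀ t, ‖edgeR φ t‖ ≤ B := by
  obtain ⟨-, B, hB⟩ := edge_unif hn hev h
  refine ⟨B, fun t => ?_⟩
  refine isClosed_property (p := fun t => ‖edgeR φ t‖ ≤ B) Rat.denseRange_cast
    (isClosed_le (edgeR_cont hn hev h).norm continuous_const) (fun r => ?_) t
  rw [edgeR_rat hn hev h]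
  have := hB 1 r
  rwa [map_one, fact_one h.deg] at this

theorem edgeR_add (hn : 2 ≤ n) (hev : Even n) (h : FS n φ) (h' : FS n ψ) :
    edgeR (φ + ψ) = edgeR φ + edgeR ψ := by
  refine edgeR_unique ((edgeR_cont hn hev h).add (edgeR_cont hn hev h')) fun r => ?_
  rw [Pi.add_apply, edgeR_rat hn hev h, edgeR_rat hn hev h']
  simp only [edge, Pi.add_apply, eval_add]

theorem edgeR_smul (hn : 2 ≤ n) (hev : Even n) (h : FS n φ) (c : ℂ) :
    edgeR (c • φ) = c • edgeR φ := by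
  refine edgeR_unique ((edgeR_cont hn hev h).const_smul c) fun r => ?_
  rw [Pi.smul_apply, edgeR_rat hn hev h]
  simp only [edge, Pi.smul_apply, eval_smul]

/-- **The transformation law on the real line.** -/
theorem edgeR_fact (hn : 2 ≤ n) (hev : Even n) (h : FS n φ) (g : GQ) (hg : FS n (fact n g φ))
    {t : ℝ} (ht : ((g 1 0 : ℚ) : ℝ) * t + (g 1 1 : ℚ) ≠ 0) :
    ((((g 1 0 : ℚ) : ℝ) * t + (g 1 1 : ℚ) : ℝ) : ℂ) ^ n *
      edgeR φ ((((g 0 0 : ℚ) : ℝ) * t + (g 0 1 : ℚ)) / (((g 1 0 : ℚ) : ℝ) * t + (g 1 1 : ℚ))) =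
      (slashM n (matOf ℂ g) (φ OnePoint.infty (g • OnePoint.infty))).eval (t : ℂ) +
        edgeR (fact n g φ) t := by
  have hd : ∀ᶠ s in 𝓝 t, ((g 1 0 : ℚ) : ℝ) * s + (g 1 1 : ℚ) ≠ 0 := by
    have : ContinuousAt (fun s : ℝ => ((g 1 0 : ℚ) : ℝ) * s + (g 1 1 : ℚ)) t := by fun_prop
    exact this.eventually_ne ht
  have hf : ∃ᶠ s in 𝓝 t, ((((g 1 0 : ℚ) : ℝ) * s + (g 1 1 : ℚ) : ℝ) : ℂ) ^ n *
      edgeR φ ((((g 0 0 : ℚ) : ℝ) * s + (g 0 1 : ℚ)) / (((g 1 0 : ℚ) : ℝ) * s + (g 1 1 : ℚ))) =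
      (slashM n (matOf ℂ g) (φ OnePoint.infty (g • OnePoint.infty))).eval (s : ℂ) +
        edgeR (fact n g φ) s := by
    have hQ : ∃ᶠ s in 𝓝 t, s ∈ Set.range ((↑) : ℚ → ℝ) := by
      rw [← mem_closure_iff_frequently]
      exact Rat.denseRange_cast t
    refine (hQ.and_eventually hd).mono ?_
    rintro _ ⟨⟨r, rfl⟩, hr⟩
    have hr' : g 1 0 * r + g 1 1 ≠ 0 := by exact_mod_cast hr
    have key := edge_fact h.deg h.add g hr'
    rw [← edgeR_rat hn hev h, ← edgeR_rat hn hev hg] at key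
    push_cast at key ⊢
    exact key
  refine tendsto_nhds_unique_of_frequently_eq (f := fun s : ℝ =>
    ((((g 1 0 : ℚ) : ℝ) * s + (g 1 1 : ℚ) : ℝ) : ℂ) ^ n *
      edgeR φ ((((g 0 0 : ℚ) : ℝ) * s + (g 0 1 : ℚ)) / (((g 1 0 : ℚ) : ℝ) * s + (g 1 1 : ℚ))))
    (g := fun s : ℝ =>
    (slashM n (matOf ℂ g) (φ OnePoint.infty (g • OnePoint.infty))).eval (s : ℂ) +
        edgeR (fact n g φ) s) (l := 𝓝 t) ?_ ?_ hf
  · apply ContinuousAt.tendsto
    apply ContinuousAt.mul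
    · fun_prop
    · apply (edgeR_cont hn hev h).continuousAt.comp
      apply ContinuousAt.div
      · fun_prop
      · fun_prop
      · exact ht
  · apply ContinuousAt.tendsto
    apply ContinuousAt.add
    · exact ((Polynomial.continuous _).comp Complex.continuous_ofReal).continuousAt
    · exact (edgeR_cont hn hev hg).continuousAt

end Gouvea.Theta
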