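import Pool.Agent.Work.MP_d3517d_nt.ES.ThetaCau
import Pool.Agent.Work.MP_d3517d_nt.ES.ThetaEdge

/-!
# The theta function of a symbol is a cusp form (cell THETA, MP_d3517d_nt, P2)

`thF_slash`: `(thF n φ) ∣[n + 2] g = thF n (φ | g)` for `g ∈ SL₂(ℤ)`;
`thC`: the theta function of a full symbol of level `Γ₀(M)` as a cusp form.
-/

open Filter Topology UpperHalfPlane CongruenceSubgroup Polynomial MeasureTheory
open scoped MatrixGroups ModularForm Manifold

noncomputable section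

namespace Gouvea.Theta

open Gouvea.ES

variable {n M : ℕ} {φ ψ : Symb}

/-- slash action of `SL₂(ℤ)` on the theta function. -/
theorem thF_slash (hn : 2 ≤ n) (hev : Even n) (h : FS n φ) (g : SL(2, ℤ)) :
    (thF n φ) ∣[((n + 2 : ℕ) : ℤ)] g = thF n (fact n (Matrix.SpecialLinearGroup.mapGL ℚ g) φ) := by
  have h2 : FS n (fact n (Matrix.SpecialLinearGroup.mapGL ℚ g) φ) := h.fact g
  set γ : GQ := Matrix.SpecialLinearGroup.mapGL ℚ g with hγ
  obtain ⟨B, hB⟩ := edgeR_bdd hn hev h2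
  funext z
  rw [ModularForm.SL_slash_apply]
  have hz : (z : ℂ).im ≠ 0 := z.im_ne_zero
  have hdet : ((g 0 0 : ℤ) : ℝ) * ((g 1 1 : ℤ) : ℝ) - ((g 0 1 : ℤ) : ℝ) * ((g 1 0 : ℤ) : ℝ) = 1 := by
    have := g.det_coe
    rw [Matrix.det_fin_two] at this
    exact_mod_cast this
  have he : ∀ i j, ((γ i j : ℚ) : ℝ) = ((g i j : ℤ) : ℝ) := by
    intro i j
    have : (γ i j : ℚ) = ((g i j : ℤ) : ℚ) := rfl
    rw [this]
    push_cast
    rfl
  have key := cau_slash (n := n) hdet (edgeR_cont hn hev h2) hB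
    (P := slashM n (matOf ℂ γ) (φ OnePoint.infty (γ • OnePoint.infty)))
    (natDegree_slashM_le _ _ _) hz (L := edgeR φ) (fun t ht => by
      have h3 := edgeR_fact hn hev h γ h2 (t := t) (by rw [he, he]; exact ht)
      simp only [he] at h3
      refine Eq.trans ?_ (h3.trans (add_comm _ _))
      push_cast
      rfl)
  unfold thF
  rw [← key]
  have hsm : ((g • z : ℍ) : ℂ) = ((((g 0 0 : ℤ) : ℝ) : ℂ) * z + (((g 0 1 : ℤ) : ℝ) : ℂ)) /
      ((((g 1 0 : ℤ) : ℝ) : ℂ) * z + (((g 1 1 : ℤ) : ℝ) : ℂ)) := by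
    rw [UpperHalfPlane.coe_specialLinearGroup_apply]
    rfl
  have hden : denom (g : GL (Fin 2) ℝ) z =
      (((g 1 0 : ℤ) : ℝ) : ℂ) * z + (((g 1 1 : ℤ) : ℝ) : ℂ) := by
    rw [ModularGroup.denom_apply]
    push_cast
    rfl
  rw [hsm, hden, mul_comm]

theorem thF_add (hn : 2 ≤ n) (hev : Even n) (h : FS n φ) (h' : FS n ψ) :
    thF n (φ + ψ) = thF n φ + thF n ψ := by
  obtain ⟨B, hB⟩ := edgeR_bdd hn hev h
  obtain ⟨B', hB'⟩ := edgeR_bdd hn hev h'
  funext z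
  unfold thF
  rw [edgeR_add hn hev h h', Pi.add_apply]
  exact cau_add (by omega) (edgeR_cont hn hev h) (edgeR_cont hn hev h') hB hB' z.im_ne_zero

theorem thF_smul (hn : 2 ≤ n) (hev : Even n) (h : FS n φ) (c : ℂ) :
    thF n (c • φ) = c • thF n φ := by
  funext z
  unfold thF
  rw [edgeR_smul hn hev h c, Pi.smul_apply, smul_eq_mul, ← cau_const_mul]
  rfl

theorem thF_neg (hn : 2 ≤ n) (hev : Even n) (h : FS n φ) : thF n (-φ) = - thF n φ := by
  have := thF_smul hn hev h (-1)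
  rwa [neg_one_smul, neg_one_smul] at this

theorem thF_sub (hn : 2 ≤ n) (hev : Even n) (h : FS n φ) (h' : FS n ψ) :
    thF n (φ - ψ) = thF n φ - thF n ψ := by
  have h2 : FS n (-ψ) := by
    have := h'.smul (-1)
    rwa [neg_one_smul] at this
  rw [sub_eq_add_neg, thF_add hn hev h h2, thF_neg hn hev h', ← sub_eq_add_neg]

theorem thF_mdiff (hn : 2 ≤ n) (hev : Even n) (h : FS n φ) :
    MDifferentiable 𝓘(ℂ) 𝓘(ℂ) (thF n φ) := by
  obtain ⟨B, hB⟩ := edgeR_bdd hn hev h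
  exact cau_mdiff (by omega) (edgeR_cont hn hev h) hB

theorem thF_isZeroAtImInfty (hn : 2 ≤ n) (hev : Even n) (h : FS n φ) :
    IsZeroAtImInfty (thF n φ) := by
  obtain ⟨B, hB⟩ := edgeR_bdd hn hev h
  exact cau_isZeroAtImInfty (by omega) hB

/-- **the theta function of a full symbol of level `Γ₀(M)`, as a cusp form.** -/
def thC (hn : 2 ≤ n) (hev : Even n) [NeZero M] (h : FSM n M φ) : Cusp M (n + 2) where
  toFun := thF n φ
  slash_action_eq' := by
    rintro _ ⟨γ, hγ, rfl⟩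
    change thF n φ ∣[((n + 2 : ℕ) : ℤ)] γ = thF n φ
    rw [thF_slash hn hev h.fs γ, h.inv γ hγ]
  holo' := thF_mdiff hn hev h.fs
  zero_at_cusps' hc := by
    rw [Subgroup.IsArithmetic.isCusp_iff_isCusp_SL2Z] at hc
    rw [OnePoint.isZeroAt_iff_forall_SL2Z hc]
    intro γ _
    change IsZeroAtImInfty (thF n φ ∣[((n + 2 : ℕ) : ℤ)] γ)
    rw [thF_slash hn hev h.fs γ]
    exact thF_isZeroAtImInfty hn hev (h.fs.fact γ)

@[simp]
theorem thC_coe (hn : 2 ≤ n) (hev : Even n) [NeZero M] (h : FSM n M φ) :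
    ⇑(thC hn hev h) = thF n φ := rfl

end Gouvea.Theta
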