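import Mathlib

/-!
# The Fourier transform of the kernel `(t - z) ^ (-k)` (MP_d3517d_nt, ES, Theta)
-/

open MeasureTheory Set Filter Topology Complex
open scoped Real FourierTransform

noncomputable section

namespace Gouvea.ES.Th

/-- integrability of `ξ ^ m * exp (- a ξ)`. -/
lemma integrable_pow_exp (m : ℕ) {a : ℂ} (ha : 0 < a.re) :
    IntegrableOn (fun ξ : ℝ => (ξ : ℂ) ^ m * cexp (-(a * ξ))) (Ioi 0) := by
  have h0 : IntegrableOn (fun ξ : ℝ => ξ ^ (m : ℝ) * Real.exp (-a.re * ξ ^ (1 : ℝ))) (Ioi 0) :=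
    integrableOn_rpow_mul_exp_neg_mul_rpow
      (by have : (0 : ℝ) ≤ m := Nat.cast_nonneg m
          linarith) one_pos ha
  refine Integrable.mono' h0 (by fun_prop) ?_
  rw [ae_restrict_iff' measurableSet_Ioi]
  refine Eventually.of_forall fun ξ hξ => ?_
  have hξ' : (0 : ℝ) < ξ := hξ
  rw [norm_mul, norm_pow, Complex.norm_real, Real.norm_of_nonneg hξ'.le, Complex.norm_exp,
    Real.rpow_natCast, Real.rpow_one]
  refine le_of_eq ?_
  congr 2
  simp

/-- the Gamma integral with a complex parameter. -/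
lemma integral_pow_exp (m : ℕ) {a : ℂ} (ha : 0 < a.re) :
    ∫ ξ in Ioi (0 : ℝ), (ξ : ℂ) ^ m * cexp (-(a * ξ)) = (m.factorial : ℂ) / a ^ (m + 1) := by
  have ha0 : a ≠ 0 := by
    rintro rfl
    simp at ha
  induction m with
  | zero =>
    have h := integral_exp_mul_complex_Ioi (a := -a) (by simpa using ha) 0
    have e : ∀ ξ : ℝ, (ξ : ℂ) ^ 0 * cexp (-(a * ξ)) = cexp (-a * ξ) := by
      intro ξ
      rw [pow_zero, one_mul, neg_mul]
    simp_rw [e]
    rw [h]
    simp
  | succ m ih =>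
    have hlim : Tendsto (fun ξ : ℝ => -((ξ : ℂ) ^ (m + 1) * cexp (-(a * ξ))) / a) atTop
        (𝓝 0) := by
      have h1 : Tendsto (fun ξ : ℝ => ξ ^ (m + 1) * Real.exp (-a.re * ξ)) atTop (𝓝 0) :=
        (isLittleO_pow_exp_pos_mul_atTop (m + 1) ha).tendsto_div_nhds_zero.congr fun ξ => by
          rw [neg_mul, Real.exp_neg, div_eq_mul_inv]
      have h2 : Tendsto (fun ξ : ℝ => ((ξ : ℂ) ^ (m + 1) * cexp (-(a * ξ)))) atTop (𝓝 0) := by
        refine squeeze_zero_norm' ?_ h1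
        filter_upwards [eventually_ge_atTop 0] with ξ hξ
        rw [norm_mul, norm_pow, Complex.norm_real, Real.norm_of_nonneg hξ, Complex.norm_exp]
        refine le_of_eq ?_
        congr 2
        simp
      have h3 := (h2.neg).div_const a
      simpa using h3
    have hder : ∀ ξ ∈ Ioi (0 : ℝ), HasDerivAt
        (fun ξ : ℝ => -((ξ : ℂ) ^ (m + 1) * cexp (-(a * ξ))) / a)
        ((ξ : ℂ) ^ (m + 1) * cexp (-(a * ξ)) - ((m : ℂ) + 1) / a * ((ξ : ℂ) ^ m
          * cexp (-(a * ξ)))) ξ := by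
      intro ξ _
      have h1 : HasDerivAt (fun ξ : ℝ => (ξ : ℂ)) 1 ξ := Complex.ofRealCLM.hasDerivAt
      have h2 : HasDerivAt (fun ξ : ℝ => (ξ : ℂ) ^ (m + 1)) (((m : ℂ) + 1) * (ξ : ℂ) ^ m) ξ := by
        have := h1.pow (m + 1)
        refine this.congr_deriv ?_
        push_cast
        simp
      have h3 : HasDerivAt (fun ξ : ℝ => cexp (-(a * ξ))) (cexp (-(a * ξ)) * (-(a * 1))) ξ :=
        ((h1.const_mul a).neg).cexp
      have h4 := ((h2.mul h3).neg).div_const a
      refine h4.congr_deriv ?_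
      field_simp
      ring
    have hcont : ContinuousWithinAt (fun ξ : ℝ => -((ξ : ℂ) ^ (m + 1) * cexp (-(a * ξ))) / a)
        (Ici 0) 0 := by
      refine Continuous.continuousWithinAt ?_
      fun_prop
    have hint : IntegrableOn (fun ξ : ℝ => (ξ : ℂ) ^ (m + 1) * cexp (-(a * ξ))
        - ((m : ℂ) + 1) / a * ((ξ : ℂ) ^ m * cexp (-(a * ξ)))) (Ioi 0) :=
      (integrable_pow_exp (m + 1) ha).sub ((integrable_pow_exp m ha).const_mul _)
    have key := integral_Ioi_of_hasDerivAt_of_tendsto hcont hder hint hlim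
    rw [integral_sub (integrable_pow_exp (m + 1) ha) ((integrable_pow_exp m ha).const_mul _),
      integral_const_mul, ih] at key
    simp only [ofReal_zero, ne_eq, Nat.add_eq_zero_iff, one_ne_zero, and_false, not_false_eq_true,
      zero_pow, zero_mul, neg_zero, zero_div, sub_zero] at key
    rw [sub_eq_zero.mp key, Nat.factorial_succ]
    push_cast
    field_simp
    ring

/-- the positive half exponential. -/
def hexp (m : ℕ) (z : ℂ) (ξ : ℝ) : ℂ := ((max ξ 0 : ℝ) : ℂ) ^ m * cexp (2 * π * I * ξ * z)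

lemma continuous_hexp (m : ℕ) (z : ℂ) : Continuous (hexp m z) := by
  unfold hexp
  fun_prop

lemma hexp_of_nonpos {m : ℕ} (hm : m ≠ 0) (z : ℂ) {ξ : ℝ} (hξ : ξ ≤ 0) : hexp m z ξ = 0 := by
  rw [hexp, max_eq_right hξ, ofReal_zero, zero_pow hm, zero_mul]

lemma hexp_of_pos (m : ℕ) (z : ℂ) {ξ : ℝ} (hξ : 0 < ξ) :
    hexp m z ξ = (ξ : ℂ) ^ m * cexp (2 * π * I * ξ * z) := by
  rw [hexp, max_eq_left hξ.le]

lemma integrable_of_Ioi {E : Type*} [NormedAddCommGroup E] {F : ℝ → E}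
    (h0 : ∀ ξ ≤ 0, F ξ = 0) (h : IntegrableOn F (Ioi 0)) : Integrable F := by
  rw [← integrableOn_univ, ← Iic_union_Ioi (a := (0 : ℝ))]
  refine IntegrableOn.union ?_ h
  refine (integrableOn_zero (s := Iic (0 : ℝ)) (μ := volume)).congr_fun (fun ξ hξ => ?_)
    measurableSet_Iic
  exact (h0 ξ hξ).symm

lemma integral_of_Ioi {F : ℝ → ℂ} (h0 : ∀ ξ ≤ 0, F ξ = 0) :
    ∫ ξ, F ξ = ∫ ξ in Ioi (0 : ℝ), F ξ := by
  refine (setIntegral_eq_integral_of_forall_compl_eq_zero fun ξ hξ => ?_).symm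
  exact h0 ξ (not_lt.mp hξ)

lemma integrable_hexp {m : ℕ} (hm : m ≠ 0) {z : ℂ} (hz : 0 < z.im) : Integrable (hexp m z) := by
  refine integrable_of_Ioi (fun ξ hξ => hexp_of_nonpos hm z hξ) ?_
  have ha : 0 < (-(2 * π * I * z)).re := by
    have : (-(2 * π * I * z)).re = 2 * π * z.im := by simp
    rw [this]
    positivity
  refine (integrable_pow_exp m ha).congr_fun (fun ξ hξ => ?_) measurableSet_Ioi
  simp only
  rw [hexp_of_pos m z hξ]
  congr 2
  ring

/-- the Fourier transform of the half exponential. -/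
lemma fourier_hexp {m : ℕ} (hm : m ≠ 0) {z : ℂ} (hz : 0 < z.im) (t : ℝ) :
    𝓕 (hexp m z) t = (m.factorial : ℂ) / (2 * π * I * ((t : ℂ) - z)) ^ (m + 1) := by
  rw [Real.fourier_real_eq_integral_exp_smul, integral_of_Ioi (fun ξ hξ => by
    rw [hexp_of_nonpos hm z hξ, smul_zero])]
  have ha : 0 < (2 * π * I * ((t : ℂ) - z)).re := by
    have : (2 * π * I * ((t : ℂ) - z)).re = 2 * π * z.im := by simp
    rw [this]
    positivity
  rw [← integral_pow_exp m ha]
  refine setIntegral_congr_fun measurableSet_Ioi fun ξ hξ => ?_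
  simp only [smul_eq_mul]
  rw [hexp_of_pos m z hξ, mul_left_comm, ← Complex.exp_add]
  congr 2
  push_cast
  ring

/-- integrability of the kernel. -/
lemma integrable_kernel {k : ℕ} (hk : 2 ≤ k) {z : ℂ} (hz : 0 < z.im) :
    Integrable (fun t : ℝ => (((t : ℂ) - z) ^ k)⁻¹) := by
  have hne : ∀ t : ℝ, (t : ℂ) - z ≠ 0 := by
    intro t h
    have := congrArg Complex.im h
    simp at this
    exact hz.ne' this
  have hbase : Integrable (fun t : ℝ => (1 + ((t - z.re) / z.im) ^ 2)⁻¹) := by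
    have h1 := (integrable_inv_one_add_sq.comp_div hz.ne')
    have h2 := h1.comp_sub_right z.re
    exact h2
  have hcont : Continuous (fun t : ℝ => (((t : ℂ) - z) ^ k)⁻¹) := by
    refine Continuous.inv₀ (by fun_prop) fun t => pow_ne_zero _ (hne t)
  refine Integrable.mono' (hbase.const_mul ((z.im ^ k)⁻¹)) hcont.aestronglyMeasurable ?_
  refine Eventually.of_forall fun t => ?_
  have hsq : ‖(t : ℂ) - z‖ ^ 2 = z.im ^ 2 * (1 + ((t - z.re) / z.im) ^ 2) := by
    rw [← Complex.normSq_eq_norm_sq, Complex.normSq_apply]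
    simp only [sub_re, ofReal_re, sub_im, ofReal_im]
    field_simp
    ring
  have him : z.im ≤ ‖(t : ℂ) - z‖ := by
    have := Complex.abs_im_le_norm ((t : ℂ) - z)
    simp only [sub_im, ofReal_im, zero_sub, abs_neg] at this
    exact (le_abs_self _).trans this
  have hpos : 0 < ‖(t : ℂ) - z‖ := hz.trans_le him
  rw [norm_inv, norm_pow]
  obtain ⟨j, rfl⟩ : ∃ j, k = j + 2 := ⟨k - 2, by omega⟩
  rw [pow_add, hsq, pow_add, ← mul_inv, ← mul_assoc]
  refine inv_anti₀ (by positivity) ?_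
  have : z.im ^ j ≤ ‖(t : ℂ) - z‖ ^ j := pow_le_pow_left₀ hz.le him j
  gcongr

/-- **The Fourier transform of the kernel.** -/
theorem kernel_fourier {m : ℕ} (hm : m ≠ 0) {z : ℂ} (hz : 0 < z.im) (μ : ℝ) :
    ∫ t : ℝ, cexp (2 * π * I * μ * t) * (((t : ℂ) - z) ^ (m + 1))⁻¹
      = (2 * π * I) ^ (m + 1) / (m.factorial : ℂ) * hexp m z μ := by
  have hπ : (2 * π * I : ℂ) ≠ 0 := by
    simp [Real.pi_ne_zero]
  have hfac : (m.factorial : ℂ) ≠ 0 := by exact_mod_cast m.factorial_ne_zero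
  have hF : 𝓕 (hexp m z) = fun t : ℝ => (m.factorial : ℂ) / (2 * π * I) ^ (m + 1)
      * (((t : ℂ) - z) ^ (m + 1))⁻¹ := by
    funext t
    rw [fourier_hexp hm hz t, mul_pow]
    field_simp
  have hFi : Integrable (𝓕 (hexp m z)) := by
    rw [hF]
    exact (integrable_kernel (by omega) hz).const_mul _
  have key := congrFun ((continuous_hexp m z).fourierInv_fourier_eq (integrable_hexp hm hz) hFi) μ
  rw [Real.fourierInv_eq', hF] at key
  rw [← key, ← integral_const_mul]
  refine integral_congr_ae (Eventually.of_forall fun t => ?_)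
  simp only [smul_eq_mul]
  have e : cexp (((2 * π * inner ℝ t μ : ℝ) : ℂ) * I) = cexp (2 * π * I * μ * t) := by
    congr 1
    simp only [RCLike.inner_apply, conj_trivial]
    push_cast
    ring
  rw [e]
  field_simp

end Gouvea.ES.Th
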