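import Pool.Agent.Work.MP_d3517d_nt.ES.ThetaDefs
import Pool.Agent.Work.MP_d3517d_nt.ES.ThetaKer

/-!
# The kernel of the Cauchy type integral (MP_d3517d_nt, cell THETA)

A continuous function of period one whose Cauchy type integrals vanish on the upper half plane and,
for the reflected function, too, is constant.
-/

open MeasureTheory Set Filter Topology Complex
open scoped Real

noncomputable section

namespace Gouvea.Theta

open Gouvea.ES

/-- the function on the circle attached to a continuous function of period one -/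
def circ (L : ℝ → ℂ) (hc : Continuous L) (hp : ∀ t, L (t + 1) = L t) : C(AddCircle (1 : ℝ), ℂ) :=
  ⟨Function.Periodic.lift (f := L) (c := 1) hp,
    continuous_coinduced_dom.mpr (hc.congr fun x => (Function.Periodic.lift_coe hp x).symm)⟩

lemma circ_coe (L : ℝ → ℂ) (hc : Continuous L) (hp : ∀ t, L (t + 1) = L t) (x : ℝ) :
    circ L hc hp (x : AddCircle (1 : ℝ)) = L x := Function.Periodic.lift_coe hp x

lemma circ_coeff (L : ℝ → ℂ) (hc : Continuous L) (hp : ∀ t, L (t + 1) = L t) (m : ℤ) (s : ℝ) :
    fourierCoeff (circ L hc hp) m = ∫ x in (0 : ℝ)..1, cexp (-(2 * π * I * m * (s + x))) *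
      L (s + x) := by
  rw [fourierCoeff_eq_intervalIntegral _ m s]
  have h := intervalIntegral.integral_comp_add_left (a := 0) (b := 1)
    (fun x : ℝ => cexp (-(2 * π * I * m * x)) * L x) s
  rw [add_zero] at h
  have e : (fun x : ℝ => cexp (-(2 * π * I * m * (s + x))) * L (s + x)) =
      fun x : ℝ => (fun x : ℝ => cexp (-(2 * π * I * m * x)) * L x) (s + x) := by
    funext x
    push_cast
    rfl
  rw [e, h]
  simp only [one_div, inv_one, one_smul]
  refine intervalIntegral.integral_congr fun x _ => ?_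
  simp only [smul_eq_mul]
  rw [circ_coe, fourier_coe_apply]
  congr 2
  push_cast
  ring

lemma exists_bdd (L : ℝ → ℂ) (hc : Continuous L) (hp : ∀ t, L (t + 1) = L t) :
    ∃ B : ℝ, ∀ t, ‖L t‖ ≤ B := by
  obtain ⟨B, hB⟩ := (isCompact_Icc (a := (0 : ℝ)) (b := 1)).exists_bound_of_continuousOn
    hc.continuousOn
  refine ⟨B, fun t => ?_⟩
  have h : L (Int.fract t) = L t := by
    have := Function.Periodic.sub_zsmul_eq (f := L) (c := 1) hp (x := t) ⌊t⌋
    rwa [zsmul_one, Int.self_sub_floor] at this
  rw [← h]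
  exact hB _ ⟨Int.fract_nonneg t, (Int.fract_lt_one t).le⟩

/-- the Fourier coefficients of positive index -/
theorem coeff_eq_zero {k : ℕ} (hk : 2 ≤ k) {L : ℝ → ℂ} (hc : Continuous L)
    (hp : ∀ t, L (t + 1) = L t) (h1 : ∀ z : ℂ, 0 < z.im → cau k L z = 0) {m : ℤ} (hm : 0 < m) :
    fourierCoeff (circ L hc hp) m = 0 := by
  obtain ⟨B, hB⟩ := exists_bdd L hc hp
  set c := fourierCoeff (circ L hc hp) m with hcdef
  have hI : (0 : ℝ) < (I : ℂ).im := by simp
  have hkern : Integrable (fun t : ℝ => (((t : ℂ) - I) ^ k)⁻¹) := Th.integrable_kernel hk hI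
  -- the double integral
  have hint : Integrable (fun p : ℝ × ℝ => (cexp (-(2 * π * I * m * p.1)) * L (p.2 + p.1)) *
      (1 * (((p.2 : ℂ) - I) ^ k)⁻¹)) ((volume.restrict (Ioc 0 1)).prod volume) := by
    have h0 : Integrable (fun p : ℝ × ℝ => (1 : ℂ) * (((p.2 : ℂ) - I) ^ k)⁻¹)
        ((volume.restrict (Ioc 0 1)).prod volume) :=
      Integrable.mul_prod (f := fun _ : ℝ => (1 : ℂ)) (integrable_const _) hkern
    refine h0.bdd_mul (c := B) ?_ ?_
    · refine Continuous.aestronglyMeasurable ?_
      have : Continuous fun p : ℝ × ℝ => L (p.2 + p.1) := hc.comp (by fun_prop)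
      exact Continuous.mul (by fun_prop) this
    · refine Eventually.of_forall fun p => ?_
      rw [norm_mul, Complex.norm_exp]
      have : (-(2 * π * I * m * p.1) : ℂ).re = 0 := by simp
      rw [this, Real.exp_zero, one_mul]
      exact hB _
  have hswap := integral_integral_swap (f := fun x s : ℝ =>
    (cexp (-(2 * π * I * m * x)) * L (s + x)) * (1 * (((s : ℂ) - I) ^ k)⁻¹))
    (μ := volume.restrict (Ioc 0 1)) (ν := volume) hint
  -- the left side vanishes
  have hleft : ∀ x : ℝ, ∫ s : ℝ, (cexp (-(2 * π * I * m * x)) * L (s + x)) *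
      (1 * (((s : ℂ) - I) ^ k)⁻¹) = 0 := by
    intro x
    have e1 : ∀ s : ℝ, (cexp (-(2 * π * I * m * x)) * L (s + x)) * (1 * (((s : ℂ) - I) ^ k)⁻¹) =
        cexp (-(2 * π * I * m * x)) * (L (s + x) * (((s : ℂ) - I) ^ k)⁻¹) := fun s => by ring
    simp only [e1]
    rw [integral_const_mul]
    have e2 : ∫ s : ℝ, L (s + x) * (((s : ℂ) - I) ^ k)⁻¹ = cau k L (x + I) := by
      rw [cau, ← integral_add_right_eq_self (fun t : ℝ => L t * ((t : ℂ) - (x + I)) ^ (-(k : ℤ))) x]
      refine integral_congr_ae (Eventually.of_forall fun s => ?_)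
      simp only []
      rw [zpow_neg, zpow_natCast]
      congr 3
      push_cast
      ring
    rw [e2, h1 _ (by simp), mul_zero]
  -- the right side
  have hright : ∀ s : ℝ, ∫ x in Ioc (0 : ℝ) 1, (cexp (-(2 * π * I * m * x)) * L (s + x)) *
      (1 * (((s : ℂ) - I) ^ k)⁻¹) = c * (cexp (2 * π * I * (m : ℝ) * s) * (((s : ℂ) - I) ^ k)⁻¹) := by
    intro s
    rw [integral_mul_const, hcdef, circ_coeff L hc hp m s, one_mul, ← mul_assoc]
    congr 1
    rw [intervalIntegral.integral_of_le zero_le_one, ← integral_mul_const]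
    refine integral_congr_ae (Eventually.of_forall fun x => ?_)
    have e3 : cexp (-(2 * π * I * m * x)) =
        cexp (-(2 * π * I * m * (s + x))) * cexp (2 * π * I * (m : ℝ) * s) := by
      rw [← Complex.exp_add]
      congr 1
      push_cast
      ring
    show cexp (-(2 * π * I * m * x)) * L (s + x) =
      cexp (-(2 * π * I * m * (s + x))) * L (s + x) * cexp (2 * π * I * (m : ℝ) * s)
    rw [e3]
    ring
  simp only [hleft, hright, integral_zero] at hswap
  rw [integral_const_mul] at hswap
  obtain ⟨j, rfl⟩ : ∃ j, k = j + 1 := ⟨k - 1, by omega⟩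
  have hm' : (0 : ℝ) < (m : ℝ) := by exact_mod_cast hm
  rw [Th.kernel_fourier (by omega) hI (m : ℝ), Th.hexp_of_pos _ _ hm'] at hswap
  have h2 := hswap.symm
  have hπ : (2 * π * I : ℂ) ≠ 0 := by
    simp [Real.pi_ne_zero]
  rcases mul_eq_zero.1 h2 with h | h
  · exact h
  · exfalso
    rcases mul_eq_zero.1 h with h | h
    · rcases div_eq_zero_iff.1 h with h | h
      · exact pow_ne_zero _ hπ h
      · exact (by exact_mod_cast j.factorial_ne_zero : (j.factorial : ℂ) ≠ 0) h
    · rcases mul_eq_zero.1 h with h | h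
      · exact pow_ne_zero _ (by exact_mod_cast hm'.ne') h
      · exact Complex.exp_ne_zero _ h

/-- **The kernel of the Cauchy type integral.** -/
theorem cau_ker {k : ℕ} (hk : 2 ≤ k) {L : ℝ → ℂ} (hc : Continuous L)
    (hp : ∀ t, L (t + 1) = L t) (h1 : ∀ z : ℂ, 0 < z.im → cau k L z = 0)
    (h2 : ∀ z : ℂ, 0 < z.im → cau k (fun t => L (-t)) z = 0) : ∀ t, L t = L 0 := by
  have hc' : Continuous fun t => L (-t) := hc.comp continuous_neg
  have hp' : ∀ t, (fun t => L (-t)) (t + 1) = (fun t => L (-t)) t := by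
    intro t
    show L (-(t + 1)) = L (-t)
    have := hp (-(t + 1))
    rw [← this]
    congr 1
    ring
  have key : ∀ m : ℤ, m ≠ 0 → fourierCoeff (circ L hc hp) m = 0 := by
    intro m hm
    rcases lt_or_gt_of_ne hm with h | h
    · have h3 := coeff_eq_zero hk hc' hp' h2 (m := -m) (by omega)
      rw [circ_coeff _ hc' hp' (-m) (-1)] at h3
      rw [circ_coeff L hc hp m 0]
      have h4 := intervalIntegral.integral_comp_sub_left (a := 0) (b := 1)
        (fun x : ℝ => cexp (-(2 * π * I * m * (0 + x))) * L (0 + x)) 1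
      rw [sub_self, sub_zero] at h4
      rw [← h3]
      push_cast at h4 ⊢
      rw [← h4]
      refine intervalIntegral.integral_congr fun x _ => ?_
      have e4 : cexp (-(2 * π * I * m * (0 + (1 - x)))) = cexp (-(2 * π * I * -m * (-1 + x))) := by
        congr 1
        ring
      have e5 : (0 : ℝ) + (1 - x) = -(-1 + x) := by ring
      show cexp (-(2 * π * I * m * (0 + (1 - x)))) * L (0 + (1 - x)) =
        cexp (-(2 * π * I * -m * (-1 + x))) * L (-(-1 + x))
      rw [e4, e5]
    · exact coeff_eq_zero hk hc hp h1 h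
  have hsum : Summable (fourierCoeff (circ L hc hp)) :=
    summable_of_ne_finset_zero (s := {0}) fun m hm => key m (by simpa using hm)
  intro t
  have h3 : ∀ x : ℝ, L x = fourierCoeff (circ L hc hp) 0 := by
    intro x
    have h4 := has_pointwise_sum_fourier_series_of_summable hsum (x : AddCircle (1 : ℝ))
    rw [circ_coe] at h4
    have h5 : HasSum (fun i : ℤ => fourierCoeff (circ L hc hp) i • fourier i (x : AddCircle (1 : ℝ)))
        (fourierCoeff (circ L hc hp) 0 • fourier 0 (x : AddCircle (1 : ℝ))) := by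
      refine hasSum_single 0 fun m hm => ?_
      rw [key m hm, zero_smul]
    have h6 := h4.unique h5
    rw [h6]
    simp
  rw [h3 t, h3 0]

end Gouvea.Theta
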