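import Pool.Agent.Work.MP_d3517d_nt.ES.ThetaFSM
import Pool.Agent.Work.MP_d3517d_nt.ES.ThetaUniq
import Pool.Agent.Work.MP_d3517d_nt.ES.ThetaBdry
import Pool.Agent.Work.MP_d3517d_nt.ES.ThetaCusp

/-!
# Exact Eichler-Shimura isomorphism (cell THETA, MP_d3517d_nt)

For `n ≥ 2` even: the full symbols of level `M` are the direct sum of the period symbols, the
reflected period symbols, and the boundary symbols.
-/

open Filter Topology UpperHalfPlane CongruenceSubgroup Polynomial MeasureTheory
open scoped MatrixGroups ModularForm ComplexConjugate Manifold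

noncomputable section

namespace Gouvea.Theta

open Gouvea.ES Matrix.SpecialLinearGroup

variable {n M : ℕ} {φ ψ : Symb}

/-- **The kernel of the theta map.** -/
theorem isBdry_of_thF [NeZero M] (hn : 2 ≤ n) (hev : Even n) (h : FSM n M φ)
    (h1 : thF n φ = 0) (h2 : thF n (fact n ES.eps φ) = 0) : IsBdry n M φ := by
  have hc := edgeR_cont hn hev h.fs
  have key := cau_ker (k := n + 2) (by omega) hc (edgeR_period hn hev h)
    (fun z hz => congrFun h1 ⟨z, hz⟩) (fun z hz => by
      have := congrFun h2 ⟨z, hz⟩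
      rw [thF, edgeR_eps hn hev h.fs] at this
      exact this)
  refine isBdry_of_edge h (κ := edgeR φ 0) fun r => ?_
  rw [← edgeR_rat hn hev h.fs]
  exact key r

theorem thF_of_isBdry [NeZero M] (hn : 2 ≤ n) (h : IsBdry n M φ) :
    thF n φ = 0 := by
  obtain ⟨κ, hκ⟩ := edge_of_isBdry (by omega) h
  have e : edgeR φ = fun _ => κ := edgeR_unique continuous_const fun r => (hκ r).symm
  funext z
  rw [thF, e, cau, integral_const_mul, integral_kn (by omega) z.im_ne_zero, mul_zero]
  rfl

theorem isBdry_fsm (h : IsBdry n M φ) : FSM n M φ := by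
  obtain ⟨w, hw1, hw2, hw3⟩ := h.ex
  refine ⟨fun x y => ?_, fun x y z => ?_, fun g hg => ?_⟩
  · rw [hw3]
    exact (natDegree_sub_le _ _).trans (max_le (hw1 x) (hw1 y))
  · rw [hw3, hw3, hw3]
    ring
  · funext x y
    rw [fact_apply, hw3, map_sub, hw2 g hg x, hw2 g hg y, hw3]

theorem IsBdry.eps [NeZero M] (h : IsBdry n M φ) :
    IsBdry n M (fact n ES.eps φ) := by
  obtain ⟨w, hw1, hw2, hw3⟩ := h.ex
  refine ⟨fun x => slashM n (matOf ℂ ES.eps) (w (ES.eps • x)), fun x => natDegree_slashM_le n _ _,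
    fun g hg x => ?_, fun x y => ?_⟩
  · change slashM n (matOf ℂ (mapGL ℚ g)) (slashM n (matOf ℂ ES.eps)
      (w (ES.eps • ((mapGL ℚ g : GQ) • x)))) = slashM n (matOf ℂ ES.eps) (w (ES.eps • x))
    rw [← hw2 _ (cj_mem hg) (ES.eps • x), slashM_slashM, slashM_slashM, ← matOf_mul, ← matOf_mul,
      ← mul_smul, ← mul_smul, eps_mul_mapGL]
  · rw [fact_apply, hw3, map_sub]

/-- the constant in the theta function of a period symbol -/
def cn (n : ℕ) : ℂ := 2 * Real.pi * Complex.I / (n + 1)

lemma cn_ne (n : ℕ) : cn n ≠ 0 := by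
  have h1 : (n : ℂ) + 1 ≠ 0 := by exact_mod_cast n.succ_ne_zero
  have h2 : (Real.pi : ℂ) ≠ 0 := by exact_mod_cast Real.pi_ne_zero
  unfold cn
  exact div_ne_zero (mul_ne_zero (mul_ne_zero two_ne_zero h2) Complex.I_ne_zero) h1

/-- **Exact Eichler-Shimura, decomposition.** -/
theorem exists_decomp [NeZero M] (hn : 2 ≤ n) (hev : Even n) (h : FSM n M φ) :
    ∃ f g : Cusp M (n + 2), IsBdry n M (φ - sym n f - fact n ES.eps (sym n g)) := by
  set F := thC hn hev h with hF
  set G := thC hn hev h.eps with hG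
  refine ⟨(cn n)⁻¹ • F, (cn n)⁻¹ • G, ?_⟩
  set f := (cn n)⁻¹ • F with hf
  set g := (cn n)⁻¹ • G with hg
  have s1 := FSM_sym (M := M) (n := n) f
  have s2 := FSM_sym (M := M) (n := n) g
  have e1 : thF n (sym n f) = thF n φ := by
    funext z
    rw [thF_sym (by omega) f z]
    change cn n * ((cn n)⁻¹ * F z) = _
    rw [mul_inv_cancel_left₀ (cn_ne n)]
    exact congrFun (thC_coe hn hev h) z
  have e2 : thF n (sym n g) = thF n (fact n ES.eps φ) := by
    funext z
    rw [thF_sym (by omega) g z]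
    change cn n * ((cn n)⁻¹ * G z) = _
    rw [mul_inv_cancel_left₀ (cn_ne n)]
    exact congrFun (thC_coe hn hev h.eps) z
  have e3 : thF n (fact n ES.eps (sym n f)) = 0 := funext fun z => thF_eps_sym (by omega) f z
  have e4 : thF n (fact n ES.eps (sym n g)) = 0 := funext fun z => thF_eps_sym (by omega) g z
  have hψ := (h.sub s1).sub s2.eps
  refine isBdry_of_thF hn hev hψ ?_ ?_
  · rw [thF_sub hn hev (h.sub s1).fs s2.eps.fs, thF_sub hn hev h.fs s1.fs, e1, e4]
    simp
  · rw [fact_sub, fact_sub, fact_eps_eps s2.deg, thF_sub hn hev (h.eps.sub s1.eps).fs s2.fs,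
      thF_sub hn hev h.eps.fs s1.eps.fs, e3, e2]
    simp

/-- **Exact Eichler-Shimura, uniqueness.** -/
theorem eq_zero_of_isBdry [NeZero M] (hn : 2 ≤ n) (hev : Even n) {f g : Cusp M (n + 2)}
    (h : IsBdry n M (sym n f + fact n ES.eps (sym n g))) : f = 0 ∧ g = 0 := by
  have s1 := FSM_sym (M := M) (n := n) f
  have s2 := FSM_sym (M := M) (n := n) g
  have h1 := thF_of_isBdry hn h
  have h2 := thF_of_isBdry hn h.eps
  rw [thF_add hn hev s1.fs s2.eps.fs] at h1
  rw [fact_add, fact_eps_eps s2.deg, thF_add hn hev s1.eps.fs s2.fs] at h2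
  have e3 : thF n (fact n ES.eps (sym n f)) = 0 := funext fun z => thF_eps_sym (by omega) f z
  have e4 : thF n (fact n ES.eps (sym n g)) = 0 := funext fun z => thF_eps_sym (by omega) g z
  rw [e4, add_zero] at h1
  rw [e3, zero_add] at h2
  constructor
  · ext z
    have := congrFun h1 z
    rw [thF_sym (by omega) f z] at this
    exact (mul_eq_zero.1 this).resolve_left (cn_ne n)
  · ext z
    have := congrFun h2 z
    rw [thF_sym (by omega) g z] at this
    exact (mul_eq_zero.1 this).resolve_left (cn_ne n)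

end Gouvea.Theta
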