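import Pool.Agent.Work.MP_d3517d_nt.ES.Mult

/-!
# Systems of eigenvalues: generators, products, bases of eigenvectors
-/

open Module Module.End

namespace Gouvea.Sys

variable {R : Type*} [CommRing R] {K : Type*} [Field K] {V : Type*} [AddCommGroup V] [Module K V]

section Generators

variable {ι : Type*}

/-- The joint generalised eigenspace is determined by generators of the ring of operators. -/
theorem gs_eq_of_generators [FiniteDimensional K V] (ρ : R →+* Module.End K V) (χ : R →+* K)
    (g : ι → R) (hg : Algebra.adjoin ℤ (Set.range g) = ⊤) :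
    gs ρ χ = jge (fun i => ρ (g i)) (fun i => χ (g i)) := by
  refine le_antisymm (fun v hv => ?_) (fun v hv => ?_)
  · rw [mem_gs] at hv
    rw [mem_jge]
    exact fun i => hv (g i)
  · set W := jge (fun i => ρ (g i)) (fun i => χ (g i)) with hW
    have hst : ∀ r, ∀ v ∈ W, ρ r v ∈ W := fun r v hv => mapsTo_jge (fun i => commute ρ _ _) _ v hv
    -- the elements which act by a nilpotent operator plus `χ`
    have key : ∀ r ∈ Algebra.adjoin ℤ (Set.range g),
        IsNilpotent (subRep ρ W hst r - χ r • (1 : Module.End K W)) := by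
      intro r hr
      induction hr using Algebra.adjoin_induction with
      | mem x hx =>
        obtain ⟨i, rfl⟩ := hx
        refine ⟨finrank K V, ?_⟩
        refine LinearMap.ext fun w => Subtype.ext ?_
        have h1 := (equivariant_pow (ρU := subRep ρ W hst) (ρV := ρ) (f := W.subtype)
          (fun _ _ => rfl) (g i) (χ (g i)) (finrank K V) w)
        have h2 : ((ρ (g i) - χ (g i) • (1 : Module.End K V)) ^ finrank K V) (w : V) = 0 :=
          mem_jge_finrank.1 w.2 i
        rw [Submodule.subtype_apply, Submodule.subtype_apply] at h1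
        rw [h1, h2]
        rfl
      | algebraMap n =>
        have h1 : subRep ρ W hst (algebraMap ℤ R n) - χ (algebraMap ℤ R n) •
            (1 : Module.End K W) = 0 := by
          simp only [eq_intCast, map_intCast]
          ext w
          simp [Int.cast_smul_eq_zsmul]
        rw [h1]
        exact IsNilpotent.zero
      | add x y _ _ hx hy =>
        have h1 : subRep ρ W hst (x + y) - χ (x + y) • (1 : Module.End K W) =
            (subRep ρ W hst x - χ x • (1 : Module.End K W)) +
              (subRep ρ W hst y - χ y • (1 : Module.End K W)) := by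
          rw [map_add, map_add, add_smul]
          abel
        rw [h1]
        refine Commute.isNilpotent_add ?_ hx hy
        exact ((commute _ x y).sub_left (((Commute.one_left _).smul_left _))).sub_right
          ((Commute.one_right _).smul_right _)
      | mul x y _ _ hx hy =>
        have h1 : subRep ρ W hst (x * y) - χ (x * y) • (1 : Module.End K W) =
            subRep ρ W hst x * (subRep ρ W hst y - χ y • (1 : Module.End K W)) +
              χ y • (subRep ρ W hst x - χ x • (1 : Module.End K W)) := by
          rw [map_mul, map_mul, mul_sub, smul_sub, mul_smul_comm, mul_one, smul_smul,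
            mul_comm (χ y)]
          abel
        rw [h1]
        have c1 : Commute (subRep ρ W hst x)
            (subRep ρ W hst y - χ y • (1 : Module.End K W)) :=
          (commute _ x y).sub_right ((Commute.one_right _).smul_right _)
        have c2 : Commute (subRep ρ W hst y - χ y • (1 : Module.End K W))
            (subRep ρ W hst x - χ x • (1 : Module.End K W)) :=
          ((commute _ y x).sub_left ((Commute.one_left _).smul_left _)).sub_right
            ((Commute.one_right _).smul_right _)
        have c3 : Commute (subRep ρ W hst x)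
            (subRep ρ W hst x - χ x • (1 : Module.End K W)) :=
          (commute _ x x).sub_right ((Commute.one_right _).smul_right _)
        refine Commute.isNilpotent_add ?_ (c1.isNilpotent_mul_left hy) (hx.smul _)
        exact (c3.mul_left c2).smul_right _
    rw [mem_gs]
    intro r
    obtain ⟨k, hk⟩ := key r (hg ▸ Algebra.mem_top)
    refine ⟨k, ?_⟩
    have h1 := (equivariant_pow (ρU := subRep ρ W hst) (ρV := ρ) (f := W.subtype)
      (fun _ _ => rfl) r (χ r) k ⟨v, hv⟩)
    rw [hk] at h1
    simpa using h1.symm

theorem ringHom_ext_of_generators {S : Type*} [CommRing S] {g : ι → R}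
    (hg : Algebra.adjoin ℤ (Set.range g) = ⊤) {χ χ' : R →+* S} (h : ∀ i, χ (g i) = χ' (g i)) :
    χ = χ' := by
  have h1 : (χ.toIntAlgHom : R →ₐ[ℤ] S) = χ'.toIntAlgHom := by
    refine AlgHom.ext_of_adjoin_eq_top hg ?_
    rintro _ ⟨i, rfl⟩
    exact h i
  ext r
  exact AlgHom.congr_fun h1 r

/-- equivariance can be tested on generators -/
theorem equivariant_of_generators {U : Type*} [AddCommGroup U] [Module K U]
    {ρU : R →+* Module.End K U} {ρV : R →+* Module.End K V} {g : ι → R}
    (hg : Algebra.adjoin ℤ (Set.range g) = ⊤) {f : U →ₗ[K] V}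
    (h : ∀ i u, f (ρU (g i) u) = ρV (g i) (f u)) (r : R) : ∀ u, f (ρU r u) = ρV r (f u) := by
  have hr : r ∈ Algebra.adjoin ℤ (Set.range g) := hg ▸ Algebra.mem_top
  induction hr using Algebra.adjoin_induction with
  | mem x hx =>
    obtain ⟨i, rfl⟩ := hx
    exact h i
  | algebraMap n =>
    intro u
    simp [eq_intCast, map_intCast]
  | add x y _ _ hx hy =>
    intro u
    simp [hx, hy]
  | mul x y _ _ hx hy =>
    intro u
    simp [hx, hy]

theorem adjoin_comm {f : ι → Module.End K V} (hf : ∀ i j, Commute (f i) (f j)) :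
    IsMulCommutative (Algebra.adjoin ℤ (Set.range f)) :=
  Algebra.isMulCommutative_adjoin ℤ (by
    rintro _ ⟨i, rfl⟩ _ ⟨j, rfl⟩
    exact hf i j)

open scoped IsMulCommutative in
/-- the ring homomorphism from the ring of polynomials given by a commuting family -/
noncomputable def famRep (f : ι → Module.End K V) (hf : ∀ i j, Commute (f i) (f j)) :
    MvPolynomial ι ℤ →+* Module.End K V :=
  haveI := adjoin_comm hf
  ((Algebra.adjoin ℤ (Set.range f)).val : _ →+* Module.End K V).comp
    (MvPolynomial.aeval (R := ℤ) fun i =>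
      (⟨f i, Algebra.subset_adjoin ⟨i, rfl⟩⟩ : Algebra.adjoin ℤ (Set.range f))).toRingHom

open scoped IsMulCommutative in
@[simp]
theorem famRep_X (f : ι → Module.End K V) (hf : ∀ i j, Commute (f i) (f j)) (i : ι) :
    famRep f hf (MvPolynomial.X i) = f i := by
  have := adjoin_comm hf
  have h : (MvPolynomial.aeval (R := ℤ) fun i =>
      (⟨f i, Algebra.subset_adjoin ⟨i, rfl⟩⟩ : Algebra.adjoin ℤ (Set.range f)))
        (MvPolynomial.X i) = ⟨f i, Algebra.subset_adjoin ⟨i, rfl⟩⟩ := MvPolynomial.aeval_X _ i
  change ((MvPolynomial.aeval (R := ℤ) fun i =>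
      (⟨f i, Algebra.subset_adjoin ⟨i, rfl⟩⟩ : Algebra.adjoin ℤ (Set.range f)))
        (MvPolynomial.X i) : Module.End K V) = f i
  rw [h]

theorem famRep_equivariant {U : Type*} [AddCommGroup U] [Module K U]
    {fU : ι → Module.End K U} {hU : ∀ i j, Commute (fU i) (fU j)}
    {fV : ι → Module.End K V} {hV : ∀ i j, Commute (fV i) (fV j)} {φ : U →ₗ[K] V}
    (h : ∀ i u, φ (fU i u) = fV i (φ u)) (r : MvPolynomial ι ℤ) (u : U) :
    φ (famRep fU hU r u) = famRep fV hV r (φ u) :=
  equivariant_of_generators (g := fun i => (MvPolynomial.X i : MvPolynomial ι ℤ))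
    MvPolynomial.adjoin_range_X (fun i u => by rw [famRep_X, famRep_X, h]) r u

/-- the operators of `famRep` preserve a subspace preserved by the family -/
theorem famRep_mem {f : ι → Module.End K V} {hf : ∀ i j, Commute (f i) (f j)}
    {W : Submodule K V} (hW : ∀ i, ∀ v ∈ W, f i v ∈ W) (r : MvPolynomial ι ℤ) :
    ∀ v ∈ W, famRep f hf r v ∈ W := by
  have hr : r ∈ Algebra.adjoin ℤ (Set.range (fun i => (MvPolynomial.X i : MvPolynomial ι ℤ))) :=
    MvPolynomial.adjoin_range_X (R := ℤ) (σ := ι) ▸ Algebra.mem_top
  induction hr using Algebra.adjoin_induction with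
  | mem x hx =>
    obtain ⟨i, rfl⟩ := hx
    intro v hv
    simpa using hW i v hv
  | algebraMap n =>
    intro v hv
    rw [eq_intCast, map_intCast]
    have h1 : ((n : Module.End K V)) v = (n : K) • v := by simp [Int.cast_smul_eq_zsmul]
    rw [h1]
    exact W.smul_mem _ hv
  | add x y _ _ hx hy =>
    intro v hv
    rw [map_add]
    exact W.add_mem (hx v hv) (hy v hv)
  | mul x y _ _ hx hy =>
    intro v hv
    rw [map_mul]
    exact hx _ (hy v hv)

/-- for a commuting family: eigenvectors -/
theorem famRep_eigenvector {f : ι → Module.End K V} {hf : ∀ i j, Commute (f i) (f j)}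
    {χ : MvPolynomial ι ℤ →+* K} {v : V} (h : ∀ i, f i v = χ (MvPolynomial.X i) • v)
    (r : MvPolynomial ι ℤ) : famRep f hf r v = χ r • v := by
  have hr : r ∈ Algebra.adjoin ℤ (Set.range (fun i => (MvPolynomial.X i : MvPolynomial ι ℤ))) :=
    MvPolynomial.adjoin_range_X (R := ℤ) (σ := ι) ▸ Algebra.mem_top
  induction hr using Algebra.adjoin_induction with
  | mem x hx =>
    obtain ⟨i, rfl⟩ := hx
    simpa using h i
  | algebraMap n =>
    rw [eq_intCast, map_intCast, map_intCast]
    simp [Int.cast_smul_eq_zsmul]
  | add x y _ _ hx hy =>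
    rw [map_add, map_add, add_smul, LinearMap.add_apply, hx, hy]
  | mul x y _ _ hx hy =>
    rw [map_mul, map_mul, Module.End.mul_apply, hy, map_smul, hx, smul_smul, mul_comm (χ y)]

end Generators

section Prod

variable {U : Type*} [AddCommGroup U] [Module K U]

/-- the action on a product -/
def prodRep (ρU : R →+* Module.End K U) (ρV : R →+* Module.End K V) :
    R →+* Module.End K (U × V) where
  toFun r := (ρU r).prodMap (ρV r)
  map_one' := by ext <;> simp
  map_mul' r s := by ext <;> simp
  map_zero' := by ext <;> simp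
  map_add' r s := by ext <;> simp

theorem prodRep_apply (ρU : R →+* Module.End K U) (ρV : R →+* Module.End K V) (r : R)
    (x : U × V) : prodRep ρU ρV r x = (ρU r x.1, ρV r x.2) := rfl

variable [FiniteDimensional K U] [FiniteDimensional K V]

theorem Sys_prod (ρU : R →+* Module.End K U) (ρV : R →+* Module.End K V) :
    Sys (prodRep ρU ρV) = Sys ρU + Sys ρV := by
  classical
  rw [Multiset.ext]
  intro χ
  rw [Multiset.count_add, count_Sys, count_Sys, count_Sys]
  refine le_antisymm ?_ ?_
  · exact mult_le_of_exact (f := LinearMap.inl K U V) (g := LinearMap.snd K U V)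
      (fun r u => by simp [prodRep_apply]) (fun r v => rfl) LinearMap.inl_injective
      (by rw [LinearMap.ker_snd]) χ
  · have h1 : ∀ x : gs ρU χ × gs ρV χ, ((x.1 : U), (x.2 : V)) ∈ gs (prodRep ρU ρV) χ := by
      intro x
      have h2 : ((x.1 : U), (x.2 : V)) = LinearMap.inl K U V x.1 + LinearMap.inr K U V x.2 := by
        simp
      rw [h2]
      exact Submodule.add_mem _
        (map_mem_gs_of_equivariant (ρU := ρU) (fun r u => by simp [prodRep_apply]) x.1.2)
        (map_mem_gs_of_equivariant (ρU := ρV) (fun r u => by simp [prodRep_apply]) x.2.2)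
    let F : gs ρU χ × gs ρV χ →ₗ[K] gs (prodRep ρU ρV) χ :=
      { toFun := fun x => ⟨((x.1 : U), (x.2 : V)), h1 x⟩
        map_add' := fun _ _ => rfl
        map_smul' := fun _ _ => rfl }
    have hF : Function.Injective F := by
      intro x y h
      have h2 := congrArg Subtype.val h
      exact Prod.ext (Subtype.ext (congrArg Prod.fst h2)) (Subtype.ext (congrArg Prod.snd h2))
    have h3 := LinearMap.finrank_le_finrank_of_injective hF
    rwa [Module.finrank_prod] at h3

end Prod

section Basis

variable [FiniteDimensional K V] {ρ : R →+* Module.End K V}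

/-- The systems of eigenvalues, from a basis of eigenvectors. -/
theorem Sys_of_basis {J : Type*} [Fintype J] (b : Basis J K V) (c : J → R →+* K)
    (h : ∀ j r, ρ r (b j) = c j r • b j) : Sys ρ = Finset.univ.val.map c := by
  classical
  -- the filtration by the number of basis vectors: independence
  have hle : ∀ χ, (Finset.univ.filter fun j => c j = χ).card ≤ mult ρ χ := by
    intro χ
    have h1 : LinearIndependent K (fun j : {j // c j = χ} =>
        (⟨b j, mem_gs_of_eigenvector fun r => by rw [h, j.2]⟩ : gs ρ χ)) := by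
      refine LinearIndependent.of_comp (gs ρ χ).subtype ?_
      exact b.linearIndependent.comp _ Subtype.val_injective
    have h2 := h1.fintype_card_le_finrank
    rwa [Fintype.card_subtype] at h2
  have hsum : ∑ χ ∈ (Finset.univ.image c) ∪ (finite_mult ρ).toFinset, mult ρ χ ≤
      ∑ χ ∈ (Finset.univ.image c) ∪ (finite_mult ρ).toFinset,
        (Finset.univ.filter fun j => c j = χ).card := by
    rw [← Finset.card_eq_sum_card_fiberwise (f := c) (s := Finset.univ)
      (fun j _ => by simp)]
    have h3 : ∑ χ ∈ (Finset.univ.image c) ∪ (finite_mult ρ).toFinset, mult ρ χ =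
        finrank K (⨆ χ ∈ (Finset.univ.image c) ∪ (finite_mult ρ).toFinset, gs ρ χ :
          Submodule K V) := (finrank_iSup_finset (iSupIndep_gs ρ) _).symm
    rw [h3, Finset.card_univ, ← finrank_eq_card_basis b]
    exact Submodule.finrank_le _
  have heq := (Finset.sum_eq_sum_iff_of_le fun χ _ => hle χ).1
    (le_antisymm (Finset.sum_le_sum fun χ _ => hle χ) hsum)
  rw [Multiset.ext]
  intro χ
  rw [count_Sys, Multiset.count_map]
  have h5 : (Multiset.filter (fun j => χ = c j) Finset.univ.val).card =
      (Finset.univ.filter fun j => c j = χ).card := by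
    rw [← Finset.filter_val, Finset.card_val]
    congr 1
    ext j
    simp [eq_comm]
  rw [h5]
  by_cases hχ : χ ∈ (Finset.univ.image c) ∪ (finite_mult ρ).toFinset
  · exact (heq χ hχ).symm
  · simp only [Finset.mem_union, Finset.mem_image, Finset.mem_univ, true_and,
      Set.Finite.mem_toFinset, Set.mem_ofPred_eq, not_or, not_not, not_exists] at hχ
    rw [hχ.2, Finset.filter_false_of_mem fun j _ => hχ.1 j, Finset.card_empty]

/-- the joint eigenspace -/
def eig (ρ : R →+* Module.End K V) (χ : R →+* K) : Submodule K V where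
  carrier := {v | ∀ r, ρ r v = χ r • v}
  add_mem' := fun {v w} hv hw r => by rw [map_add, hv r, hw r, smul_add]
  zero_mem' := fun r => by rw [map_zero, smul_zero]
  smul_mem' := fun a v hv r => by rw [map_smul, hv r, smul_comm]

omit [FiniteDimensional K V] in
theorem mem_eig {χ : R →+* K} {v : V} : v ∈ eig ρ χ ↔ ∀ r, ρ r v = χ r • v := Iff.rfl

omit [FiniteDimensional K V] in
theorem eig_le_gs (χ : R →+* K) : eig ρ χ ≤ gs ρ χ := fun _ hv => mem_gs_of_eigenvector hv

/-- semisimple generators -/
theorem gs_eq_eig {ι : Type*} {g : ι → R} (hg : Algebra.adjoin ℤ (Set.range g) = ⊤)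
    (hs : ∀ i, (ρ (g i)).IsSemisimple) (χ : R →+* K) : gs ρ χ = eig ρ χ := by
  refine le_antisymm (fun v hv => ?_) (eig_le_gs χ)
  rw [gs_eq_of_generators ρ χ g hg, jge, Submodule.mem_iInf] at hv
  have h1 : ∀ i, ρ (g i) v = χ (g i) • v := by
    intro i
    have h2 := hv i
    rw [(hs i).isFinitelySemisimple.maxGenEigenspace_eq_eigenspace] at h2
    exact mem_eigenspace_iff.1 h2
  intro r
  have hr : r ∈ Algebra.adjoin ℤ (Set.range g) := hg ▸ Algebra.mem_top
  induction hr using Algebra.adjoin_induction with
  | mem x hx =>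
    obtain ⟨i, rfl⟩ := hx
    exact h1 i
  | algebraMap n =>
    rw [eq_intCast, map_intCast, map_intCast]
    simp [Int.cast_smul_eq_zsmul]
  | add x y _ _ hx hy => rw [map_add, map_add, add_smul, LinearMap.add_apply, hx, hy]
  | mul x y _ _ hx hy =>
    rw [map_mul, map_mul, Module.End.mul_apply, hy, map_smul, hx, smul_smul, mul_comm (χ y)]

theorem mult_eq_finrank_eig {ι : Type*} {g : ι → R} (hg : Algebra.adjoin ℤ (Set.range g) = ⊤)
    (hs : ∀ i, (ρ (g i)).IsSemisimple) (χ : R →+* K) : mult ρ χ = finrank K (eig ρ χ) := by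
  rw [mult, gs_eq_eig hg hs]

end Basis

end Gouvea.Sys
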