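import Pool.Agent.Work.MP_d3517d_nt.ES.Mult

/-!
# Systems of eigenvalues: linear algebra of the descent (MP_d3517d_nt, cell ES)

* `Sys_ram`: descent at a prime dividing the level;
* `Sys_unram`: descent at a prime not dividing the level;
* `comEval`: the ring homomorphism from a polynomial ring given by commuting operators.
-/

set_option autoImplicit false
set_option linter.unusedSectionVars false

noncomputable section

namespace Gouvea.Desc

open Gouvea.Sys

variable {R : Type*} [CommRing R] {K : Type*} [Field K] {V : Type*} [AddCommGroup V] [Module K V]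

/-- the action on a stable submodule -/
def subHom (rho : R →+* Module.End K V) (W : Submodule K V) (hW : ∀ r, ∀ x ∈ W, rho r x ∈ W) :
    R →+* Module.End K W where
  toFun r := (rho r).restrict (hW r)
  map_one' := by ext x; simp
  map_mul' r s := by ext x; simp
  map_zero' := by ext x; simp
  map_add' r s := by ext x; simp

theorem subHom_apply (rho : R →+* Module.End K V) (W : Submodule K V)
    (hW : ∀ r, ∀ x ∈ W, rho r x ∈ W) (r : R) (x : W) : (subHom rho W hW r x : V) = rho r x := rfl

/-- the action on the quotient by a stable submodule -/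
def quoHom (rho : R →+* Module.End K V) (W : Submodule K V) (hW : ∀ r, ∀ x ∈ W, rho r x ∈ W) :
    R →+* Module.End K (V ⧸ W) where
  toFun r := W.mapQ W (rho r) (fun x hx => hW r x hx)
  map_one' := by
    apply Submodule.linearMap_qext
    ext x
    simp
  map_mul' r s := by
    apply Submodule.linearMap_qext
    ext x
    simp
  map_zero' := by
    apply Submodule.linearMap_qext
    ext x
    simp
  map_add' r s := by
    apply Submodule.linearMap_qext
    ext x
    simp

theorem quoHom_mk (rho : R →+* Module.End K V) (W : Submodule K V)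
    (hW : ∀ r, ∀ x ∈ W, rho r x ∈ W) (r : R) (x : V) :
    quoHom rho W hW r (Submodule.Quotient.mk x) = Submodule.Quotient.mk (rho r x) := rfl

variable [IsAlgClosed K] [FiniteDimensional K V]

/-- exact sequences -/
theorem Sys_ex {U W : Type*} [AddCommGroup U] [Module K U] [AddCommGroup W] [Module K W]
    [FiniteDimensional K U] [FiniteDimensional K W]
    (rhoU : R →+* Module.End K U) (rho : R →+* Module.End K V) (rhoW : R →+* Module.End K W)
    (f : U →ₗ[K] V) (g : V →ₗ[K] W) (hf : Function.Injective f) (hg : Function.Surjective g)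
    (hfg : LinearMap.range f = LinearMap.ker g)
    (hfe : ∀ r x, f (rhoU r x) = rho r (f x)) (hge : ∀ r x, g (rho r x) = rhoW r (g x)) :
    Sys rho = Sys rhoU + Sys rhoW := Sys_exact hfe hge hf hg hfg

theorem Sys_sub_quo (rho : R →+* Module.End K V) (W : Submodule K V)
    (hW : ∀ r, ∀ x ∈ W, rho r x ∈ W) : Sys rho = Sys (subHom rho W hW) + Sys (quoHom rho W hW) := by
  apply Sys_ex (subHom rho W hW) rho (quoHom rho W hW) W.subtype W.mkQ
  · exact W.subtype_injective
  · exact W.mkQ_surjective
  · rw [Submodule.range_subtype, Submodule.ker_mkQ]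
  · intro r x
    rfl
  · intro r x
    rfl

theorem mult_pos_of_mem {rho : R →+* Module.End K V} {chi : R →+* K} (h : chi ∈ Sys rho) :
    0 < mult rho chi := by
  classical
  have h1 := Multiset.count_pos.2 h
  rwa [count_Sys] at h1

theorem chi_eq_zero_of_mem {rho : R →+* Module.End K V} {chi : R →+* K} (h : chi ∈ Sys rho) {r : R}
    (hr : rho r = 0) : chi r = 0 := by
  have h1 := mult_pos_of_mem h
  rw [mult, Module.finrank_pos_iff_exists_ne_zero] at h1
  obtain ⟨⟨x, hx⟩, hx0⟩ := h1
  have hx0' : x ≠ 0 := fun h => hx0 (Subtype.ext h)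
  rw [gs, Submodule.mem_iInf] at hx
  have h2 := hx r
  rw [hr, Module.End.mem_maxGenEigenspace] at h2
  obtain ⟨n, hn⟩ := h2
  by_contra hne
  have h3 : ((0 : Module.End K V) - (chi r) • (1 : Module.End K V)) ^ n = (-(chi r)) ^ n • 1 := by
    rw [zero_sub, ← neg_smul, smul_pow, one_pow]
  rw [h3, LinearMap.smul_apply, Module.End.one_apply] at hn
  rcases smul_eq_zero.1 hn with h4 | h4
  · exact hne (neg_eq_zero.1 (eq_zero_of_pow_eq_zero h4))
  · exact hx0' h4

/-- **(A)** -/
theorem Sys_range {V' : Type*} [AddCommGroup V'] [Module K V'] [FiniteDimensional K V']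
    (rho' : R →+* Module.End K V') (rho : R →+* Module.End K V) (i : V' →ₗ[K] V)
    (hi : Function.Injective i) (he : ∀ r x, i (rho' r x) = rho r (i x)) :
    ∃ rest : Multiset (R →+* K), Sys rho = Sys rho' + rest ∧
      ∀ u : R, (∀ x, rho u x ∈ LinearMap.range i) → ∀ chi ∈ rest, chi u = 0 := by
  have hW : ∀ r, ∀ x ∈ LinearMap.range i, rho r x ∈ LinearMap.range i := by
    rintro r _ ⟨y, rfl⟩
    exact ⟨rho' r y, he r y⟩
  refine ⟨Sys (quoHom rho (LinearMap.range i) hW), ?_, ?_⟩
  · apply Sys_ex rho' rho (quoHom rho (LinearMap.range i) hW) i (LinearMap.range i).mkQ hi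
      (LinearMap.range i).mkQ_surjective
    · rw [Submodule.ker_mkQ]
    · exact he
    · intro r x
      rfl
  · intro u hu chi hchi
    apply chi_eq_zero_of_mem hchi
    apply Submodule.linearMap_qext
    ext x
    show Submodule.Quotient.mk (rho u x) = (0 : V ⧸ _)
    rw [Submodule.Quotient.mk_eq_zero]
    exact hu x

/-- a one-dimensional module -/
theorem Sys_one (rho : R →+* Module.End K V) (h1 : Module.finrank K V = 1) (chi : R →+* K)
    (h : ∀ r x, rho r x = chi r • x) : Sys rho = {chi} := by
  classical
  have hc : (Sys rho).count chi = 1 := by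
    rw [count_Sys, mult]
    have : gs rho chi = ⊤ := by
      rw [eq_top_iff]
      intro x _
      rw [gs, Submodule.mem_iInf]
      intro r
      rw [Module.End.mem_maxGenEigenspace]
      refine ⟨1, ?_⟩
      rw [pow_one, LinearMap.sub_apply, h r x]
      simp
    rw [this, finrank_top, h1]
  have hcard : Multiset.card (Sys rho) = 1 := by rw [card_Sys, h1]
  obtain ⟨a, ha⟩ := Multiset.card_eq_one.1 hcard
  rw [ha] at hc ⊢
  by_cases hac : a = chi
  · rw [hac]
  · rw [Multiset.count_singleton, if_neg (fun h => hac h.symm)] at hc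
    exact absurd hc (by norm_num)

theorem Sys_zero (rho : R →+* Module.End K V) (h0 : Module.finrank K V = 0) : Sys rho = 0 := by
  rw [← Multiset.card_eq_zero, card_Sys, h0]

/-- a joint eigenvector -/
theorem exists_eigen (rho : R →+* Module.End K V) (h0 : 0 < Module.finrank K V) :
    ∃ (chi : R →+* K) (x : V), x ≠ 0 ∧ ∀ r, rho r x = chi r • x := by
  classical
  have hex : ∃ n : ℕ, ∃ W : Submodule K V, W ≠ ⊥ ∧ (∀ r, ∀ x ∈ W, rho r x ∈ W) ∧
      Module.finrank K W = n := by
    refine ⟨_, ⊤, ?_, fun _ _ _ => Submodule.mem_top, rfl⟩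
    intro h
    rw [← finrank_top K V, h, finrank_bot] at h0
    exact lt_irrefl _ h0
  obtain ⟨W, hW0, hWs, hWn⟩ := Nat.find_spec hex
  have hmin : ∀ W' : Submodule K V, W' ≠ ⊥ → (∀ r, ∀ x ∈ W', rho r x ∈ W') →
      Module.finrank K W ≤ Module.finrank K W' := by
    intro W' h1 h2
    rw [hWn]
    exact Nat.find_min' hex ⟨W', h1, h2, rfl⟩
  have hnt : Nontrivial W := Submodule.nontrivial_iff_ne_bot.2 hW0
  have hsc : ∀ r, ∃ c : K, ∀ x ∈ W, rho r x = c • x := by
    intro r
    obtain ⟨c, hc⟩ := Module.End.exists_eigenvalue ((rho r).restrict (hWs r))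
    obtain ⟨y, hy⟩ := hc.exists_hasEigenvector
    let W' : Submodule K V := W ⊓ (rho r).eigenspace c
    have hyW : (y : V) ∈ W' := by
      refine ⟨y.2, ?_⟩
      rw [SetLike.mem_coe, Module.End.mem_eigenspace_iff]
      have := hy.apply_eq_smul
      have h2 := congrArg (fun z : W => (z : V)) this
      simpa using h2
    have hW'0 : W' ≠ ⊥ := by
      intro h
      rw [h, Submodule.mem_bot] at hyW
      exact hy.2 (Subtype.ext hyW)
    have hW's : ∀ s, ∀ x ∈ W', rho s x ∈ W' := by
      intro s x hx
      refine ⟨hWs s x hx.1, ?_⟩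
      have h1 := hx.2
      rw [SetLike.mem_coe, Module.End.mem_eigenspace_iff] at h1 ⊢
      have h2 : rho r (rho s x) = rho s (rho r x) := by
        rw [← Module.End.mul_apply, ← Module.End.mul_apply, ← map_mul, ← map_mul, mul_comm]
      rw [h2, h1, map_smul]
    have h3 : W' = W := Submodule.eq_of_le_of_finrank_le inf_le_left (hmin W' hW'0 hW's)
    refine ⟨c, fun x hx => ?_⟩
    rw [← h3] at hx
    have h1 := hx.2
    rw [SetLike.mem_coe, Module.End.mem_eigenspace_iff] at h1
    exact h1
  choose c hc using hsc
  obtain ⟨x, hxW, hx0⟩ := (Submodule.ne_bot_iff W).1 hW0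
  have hinj : ∀ a b : K, a • x = b • x → a = b := by
    intro a b h
    exact smul_left_injective K hx0 h
  refine ⟨{ toFun := c, map_one' := ?_, map_mul' := ?_, map_zero' := ?_, map_add' := ?_ }, x, hx0,
    fun r => hc r x hxW⟩
  · apply hinj
    rw [← hc 1 x hxW, map_one, Module.End.one_apply, one_smul]
  · intro r s
    apply hinj
    rw [← hc (r * s) x hxW, map_mul, Module.End.mul_apply, hc s x hxW, map_smul, hc r x hxW,
      smul_smul, mul_comm]
  · apply hinj
    rw [← hc 0 x hxW, map_zero, LinearMap.zero_apply, zero_smul]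
  · intro r s
    apply hinj
    rw [← hc (r + s) x hxW, map_add, LinearMap.add_apply, hc s x hxW, hc r x hxW, add_smul]

/-- the system `chi` with the value at the variable `i0` replaced by `a` -/
def repl {iota : Type*} [DecidableEq iota] (i0 : iota) (chi : MvPolynomial iota ℤ →+* K) (a : K) :
    MvPolynomial iota ℤ →+* K :=
  MvPolynomial.eval₂Hom (Int.castRingHom K) (Function.update (fun i => chi (MvPolynomial.X i)) i0 a)

theorem repl_same {iota : Type*} [DecidableEq iota] (i0 : iota)
    (chi : MvPolynomial iota ℤ →+* K) (a : K) : repl i0 chi a (MvPolynomial.X i0) = a := by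
  simp [repl]

theorem repl_ne {iota : Type*} [DecidableEq iota] (i0 j : iota) (hj : j ≠ i0)
    (chi : MvPolynomial iota ℤ →+* K) (a : K) :
    repl i0 chi a (MvPolynomial.X j) = chi (MvPolynomial.X j) := by
  simp [repl, Function.update_of_ne hj]

/-- the two systems over `chi` -/
def two {iota : Type*} [DecidableEq iota] (i0 : iota) (c : K) (chi : MvPolynomial iota ℤ →+* K) :
    Multiset (MvPolynomial iota ℤ →+* K) :=
  ((Polynomial.X ^ 2 - Polynomial.C (chi (MvPolynomial.X i0)) * Polynomial.X +
    Polynomial.C c).roots).map (repl i0 chi)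

/-- ring homs out of a polynomial ring agree if they agree on the variables -/
theorem mv_ext {iota : Type*} {A : Type*} [Ring A] (f g : MvPolynomial iota ℤ →+* A)
    (h : ∀ i, f (MvPolynomial.X i) = g (MvPolynomial.X i)) : f = g := by
  apply MvPolynomial.ringHom_ext
  · intro n
    simp
  · exact h


theorem two_eq {iota : Type*} [DecidableEq iota] (i0 : iota) (c : K)
    (chi : MvPolynomial iota ℤ →+* K) (a b : K) (hab : a + b = chi (MvPolynomial.X i0))
    (hc : a * b = c) : two i0 c chi = {repl i0 chi a, repl i0 chi b} := by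
  have h1 : (Polynomial.X ^ 2 - Polynomial.C (chi (MvPolynomial.X i0)) * Polynomial.X +
      Polynomial.C c : Polynomial K) = (Polynomial.X - Polynomial.C a) * (Polynomial.X - Polynomial.C b) := by
    rw [← hab, ← hc, Polynomial.C_add, Polynomial.C_mul]
    ring
  rw [two, h1, Polynomial.roots_mul, Polynomial.roots_X_sub_C, Polynomial.roots_X_sub_C]
  · rfl
  · exact mul_ne_zero (Polynomial.X_sub_C_ne_zero a) (Polynomial.X_sub_C_ne_zero b)

theorem exists_ab (t c : K) : ∃ a b : K, a + b = t ∧ a * b = c := by
  obtain ⟨a, ha⟩ := IsAlgClosed.exists_root (Polynomial.X ^ 2 - Polynomial.C t * Polynomial.X +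
    Polynomial.C c : Polynomial K) (by
      have : (Polynomial.X ^ 2 - Polynomial.C t * Polynomial.X + Polynomial.C c : Polynomial K).degree = 2 := by
        compute_degree!
      rw [this]
      norm_num)
  refine ⟨a, t - a, by ring, ?_⟩
  rw [Polynomial.IsRoot.def] at ha
  simp only [Polynomial.eval_add, Polynomial.eval_sub, Polynomial.eval_pow, Polynomial.eval_X,
    Polynomial.eval_mul, Polynomial.eval_C] at ha
  linear_combination -ha

/-- the generators act by scalars -/
theorem scalar_of_gen {iota : Type*} (rho : MvPolynomial iota ℤ →+* Module.End K V)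
    (chi : MvPolynomial iota ℤ →+* K)
    (h : ∀ j, ∀ x, rho (MvPolynomial.X j) x = chi (MvPolynomial.X j) • x) (r : MvPolynomial iota ℤ)
    (x : V) : rho r x = chi r • x := by
  have h1 : rho = (algebraMap K (Module.End K V)).comp chi := by
    apply mv_ext
    intro j
    ext x
    rw [h j x]
    rfl
  rw [h1]
  rfl

theorem line_stable (rho : R →+* Module.End K V) (chi : R →+* K) (w : V)
    (hw : ∀ r, rho r w = chi r • w) :
    ∀ r, ∀ x ∈ Submodule.span K {w}, rho r x ∈ Submodule.span K {w} := by
  intro r x hx
  obtain ⟨a, rfl⟩ := Submodule.mem_span_singleton.1 hx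
  rw [map_smul, hw r, smul_smul]
  exact Submodule.smul_mem _ _ (Submodule.mem_span_singleton_self _)

/-- splitting off an eigenline -/
theorem Sys_line (rho : R →+* Module.End K V) (chi : R →+* K) (w : V) (hw0 : w ≠ 0)
    (hw : ∀ r, rho r w = chi r • w) :
    Sys rho = {chi} + Sys (quoHom rho (Submodule.span K {w}) (line_stable rho chi w hw)) := by
  rw [Sys_sub_quo rho (Submodule.span K {w}) (line_stable rho chi w hw)]
  congr 1
  apply Sys_one _ (finrank_span_singleton hw0)
  intro r x
  apply Subtype.ext
  rw [subHom_apply]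
  obtain ⟨a, ha⟩ := Submodule.mem_span_singleton.1 x.2
  rw [← ha, map_smul, hw r, Submodule.coe_smul, ← ha, smul_comm]

/-- the generators act by scalars on a vector -/
theorem eigen_of_gen {iota : Type*} (rho : MvPolynomial iota ℤ →+* Module.End K V)
    (chi : MvPolynomial iota ℤ →+* K) (w : V)
    (h : ∀ j, rho (MvPolynomial.X j) w = chi (MvPolynomial.X j) • w) (r : MvPolynomial iota ℤ) :
    rho r w = chi r • w := by
  induction r using MvPolynomial.induction_on with
  | C a =>
    have h1 : (MvPolynomial.C a : MvPolynomial iota ℤ) = ((a : ℤ) : MvPolynomial iota ℤ) := by simp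
    rw [h1, map_intCast, map_intCast, Int.cast_smul_eq_zsmul]
    simp
  | add p q hp hq => rw [map_add, map_add, LinearMap.add_apply, hp, hq, add_smul]
  | mul_X p i hp =>
    rw [map_mul, map_mul, Module.End.mul_apply, h i, map_smul, hp, smul_smul, mul_comm]

/-- **(B)**, the part coming from the lower level -/
theorem Sys_dbl {iota : Type*} [DecidableEq iota] (i0 : iota) (c : K) (n : ℕ) :
    ∀ {V' W : Type*} [AddCommGroup V'] [Module K V'] [FiniteDimensional K V']
    [AddCommGroup W] [Module K W] [FiniteDimensional K W]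
    (rho' : MvPolynomial iota ℤ →+* Module.End K V') (rho : MvPolynomial iota ℤ →+* Module.End K W)
    (i v : V' →ₗ[K] W), Module.finrank K V' = n → Function.Bijective (i.coprod v) →
    (∀ j, j ≠ i0 → ∀ x, rho (MvPolynomial.X j) (i x) = i (rho' (MvPolynomial.X j) x)) →
    (∀ j, j ≠ i0 → ∀ x, rho (MvPolynomial.X j) (v x) = v (rho' (MvPolynomial.X j) x)) →
    (∀ x, rho (MvPolynomial.X i0) (i x) = i (rho' (MvPolynomial.X i0) x) - c • v x) →
    (∀ x, rho (MvPolynomial.X i0) (v x) = i x) →
    Sys rho = (Sys rho').bind (two i0 c) := by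
  induction n with
  | zero =>
    intro V' W _ _ _ _ _ _ rho' rho i v hn hbij _ _ _ _
    have h1 : Module.finrank K W = 0 := by
      rw [← LinearEquiv.finrank_eq (LinearEquiv.ofBijective _ hbij), Module.finrank_prod, hn]
    rw [Sys_zero rho h1, Sys_zero rho' hn, Multiset.zero_bind]
  | succ n ih =>
    intro V' W _ _ _ _ _ _ rho' rho i v hn hbij hi hv hU1 hU2
    obtain ⟨chi, x, hx0, hx⟩ := exists_eigen rho' (by rw [hn]; exact Nat.succ_pos n)
    obtain ⟨a, b, hab, hc⟩ := exists_ab (chi (MvPolynomial.X i0)) c
    have hinj : ∀ y z : V', i y + v z = 0 → y = 0 ∧ z = 0 := by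
      intro y z h
      have h1 : (i.coprod v) (y, z) = (i.coprod v) 0 := by
        rw [LinearMap.coprod_apply, map_zero]
        exact h
      have h2 := hbij.1 h1
      exact ⟨congrArg Prod.fst h2, congrArg Prod.snd h2⟩
    -- the first line
    set w : W := i x - b • v x with hw
    have hw0 : w ≠ 0 := by
      intro h
      have h1 : i x + v (-b • x) = 0 := by
        rw [map_smul, neg_smul, ← sub_eq_add_neg]
        exact h
      exact hx0 (hinj _ _ h1).1
    have hwe : ∀ r, rho r w = repl i0 chi a r • w := by
      apply eigen_of_gen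
      intro j
      by_cases hj : j = i0
      · rw [hj, repl_same, hw, map_sub, map_smul, hU1, hU2, hx, map_smul, ← hab, ← hc, smul_sub,
          smul_smul, add_smul]
        abel
      · rw [repl_ne i0 j hj, hw, map_sub, map_smul, hi j hj, hv j hj, hx, map_smul, map_smul,
          smul_sub, smul_comm b]
    set L1 := Submodule.span K {w} with hL1
    set rho1 := quoHom rho L1 (line_stable rho _ w hwe) with hrho1
    set z : W ⧸ L1 := L1.mkQ (v x) with hz
    have hz0 : z ≠ 0 := by
      intro h
      rw [hz, Submodule.mkQ_apply, Submodule.Quotient.mk_eq_zero] at h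
      obtain ⟨l, hl⟩ := Submodule.mem_span_singleton.1 h
      have h1 : i (l • x) + v (-(1 + l * b) • x) = 0 := by
        rw [map_smul, map_smul]
        have h2 : l • i x - (l * b) • v x = v x := by
          have h4 := hl
          rw [hw, smul_sub, smul_smul] at h4
          exact h4
        have h3 : l • i x + -(1 + l * b) • v x = (l • i x - (l * b) • v x) - v x := by
          rw [neg_smul, add_smul, one_smul]
          abel
        rw [h3, h2, sub_self]
      obtain ⟨h2, h3⟩ := hinj _ _ h1
      rcases smul_eq_zero.1 h2 with h4 | h4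
      · rw [h4, zero_mul, add_zero, neg_smul, one_smul, neg_eq_zero] at h3
        exact hx0 h3
      · exact hx0 h4
    have hze : ∀ r, rho1 r z = repl i0 chi b r • z := by
      apply eigen_of_gen
      intro j
      by_cases hj : j = i0
      · rw [hj, repl_same]
        show L1.mkQ (rho (MvPolynomial.X i0) (v x)) = b • L1.mkQ (v x)
        rw [hU2, ← map_smul, ← sub_eq_zero, ← map_sub, Submodule.mkQ_apply,
          Submodule.Quotient.mk_eq_zero]
        exact Submodule.mem_span_singleton_self _
      · rw [repl_ne i0 j hj]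
        show L1.mkQ (rho (MvPolynomial.X j) (v x)) = _ • L1.mkQ (v x)
        rw [hv j hj, hx, map_smul, map_smul]
    set L2 := Submodule.span K {z} with hL2
    set rho2 := quoHom rho1 L2 (line_stable rho1 _ z hze) with hrho2
    have e1 := Sys_line rho (repl i0 chi a) w hw0 hwe
    have e2 := Sys_line rho1 (repl i0 chi b) z hz0 hze
    have e3 := Sys_line rho' chi x hx0 hx
    set L := Submodule.span K {x} with hL
    -- the quotient
    let pi : W →ₗ[K] (W ⧸ L1) ⧸ L2 := L2.mkQ ∘ₗ L1.mkQ
    have hpiv : pi (v x) = 0 := by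
      show L2.mkQ z = 0
      rw [Submodule.mkQ_apply, Submodule.Quotient.mk_eq_zero]
      exact Submodule.mem_span_singleton_self _
    have hpiw : pi w = 0 := by
      show L2.mkQ (L1.mkQ w) = 0
      have : L1.mkQ w = 0 := by
        rw [Submodule.mkQ_apply, Submodule.Quotient.mk_eq_zero]
        exact Submodule.mem_span_singleton_self _
      rw [this, map_zero]
    have hpii : pi (i x) = 0 := by
      have : i x = w + b • v x := by rw [hw]; abel
      rw [this, map_add, map_smul, hpiv, hpiw, smul_zero, add_zero]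
    have hLi : L ≤ LinearMap.ker (pi ∘ₗ i) := by
      rw [hL, Submodule.span_singleton_le_iff_mem, LinearMap.mem_ker]
      exact hpii
    have hLv : L ≤ LinearMap.ker (pi ∘ₗ v) := by
      rw [hL, Submodule.span_singleton_le_iff_mem, LinearMap.mem_ker]
      exact hpiv
    have hkerpi : ∀ y, pi y = 0 → ∃ l m : K, y = l • i x + m • v x := by
      intro y hy
      have h1 : L1.mkQ y ∈ L2 := by
        rw [← Submodule.Quotient.mk_eq_zero]
        exact hy
      obtain ⟨m, hm⟩ := Submodule.mem_span_singleton.1 h1
      have h2 : y - m • v x ∈ L1 := by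
        rw [← Submodule.Quotient.mk_eq_zero]
        show L1.mkQ (y - m • v x) = 0
        rw [map_sub, map_smul, ← hm, hz, sub_self]
      obtain ⟨l, hl⟩ := Submodule.mem_span_singleton.1 h2
      refine ⟨l, m - l * b, ?_⟩
      have h3 : y = l • w + m • v x := by rw [hl]; abel
      rw [h3, hw, smul_sub, smul_smul, sub_smul]
      abel
    have hfin : Module.finrank K (V' ⧸ L) = n := by
      have h1 := Submodule.finrank_quotient_add_finrank L
      rw [finrank_span_singleton hx0, hn] at h1
      omega
    have e4 := ih (quoHom rho' L (line_stable rho' chi x hx)) rho2 (L.liftQ (pi ∘ₗ i) hLi)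
      (L.liftQ (pi ∘ₗ v) hLv) hfin ?_ ?_ ?_ ?_ ?_
    · rw [e1, e2, e3, e4, Multiset.add_bind, Multiset.singleton_bind, two_eq i0 c chi a b hab hc,
        ← add_assoc]
      rfl
    · constructor
      · rw [injective_iff_map_eq_zero]
        rintro ⟨y1, y2⟩ hy
        obtain ⟨y1, rfl⟩ := Submodule.Quotient.mk_surjective _ y1
        obtain ⟨y2, rfl⟩ := Submodule.Quotient.mk_surjective _ y2
        have h1 : pi (i y1 + v y2) = 0 := by
          rw [map_add]
          exact hy
        obtain ⟨l, m, hlm⟩ := hkerpi _ h1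
        have h2 : i (y1 - l • x) + v (y2 - m • x) = 0 := by
          rw [map_sub, map_sub, map_smul, map_smul]
          have : i y1 - l • i x + (v y2 - m • v x) = (i y1 + v y2) - (l • i x + m • v x) := by abel
          rw [this, hlm, sub_self]
        obtain ⟨h3, h4⟩ := hinj _ _ h2
        rw [Prod.mk_eq_zero, Submodule.Quotient.mk_eq_zero, Submodule.Quotient.mk_eq_zero,
          sub_eq_zero.1 h3, sub_eq_zero.1 h4]
        exact ⟨Submodule.smul_mem _ _ (Submodule.mem_span_singleton_self _),
          Submodule.smul_mem _ _ (Submodule.mem_span_singleton_self _)⟩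
      · intro y
        obtain ⟨y, rfl⟩ := L2.mkQ_surjective y
        obtain ⟨y, rfl⟩ := L1.mkQ_surjective y
        obtain ⟨⟨y1, y2⟩, rfl⟩ := hbij.2 y
        refine ⟨(L.mkQ y1, L.mkQ y2), ?_⟩
        show pi (i y1) + pi (v y2) = pi (i y1 + v y2)
        rw [map_add]
    · intro j hj y
      obtain ⟨y, rfl⟩ := Submodule.Quotient.mk_surjective _ y
      show pi (rho (MvPolynomial.X j) (i y)) = pi (i (rho' (MvPolynomial.X j) y))
      rw [hi j hj]
    · intro j hj y
      obtain ⟨y, rfl⟩ := Submodule.Quotient.mk_surjective _ y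
      show pi (rho (MvPolynomial.X j) (v y)) = pi (v (rho' (MvPolynomial.X j) y))
      rw [hv j hj]
    · intro y
      obtain ⟨y, rfl⟩ := Submodule.Quotient.mk_surjective _ y
      show pi (rho (MvPolynomial.X i0) (i y)) = pi (i (rho' (MvPolynomial.X i0) y)) - c • pi (v y)
      rw [hU1, map_sub, map_smul]
    · intro y
      obtain ⟨y, rfl⟩ := Submodule.Quotient.mk_surjective _ y
      show pi (rho (MvPolynomial.X i0) (v y)) = pi (i y)
      rw [hU2]


theorem repl_intCast {iota : Type*} (d : ℤ) (chi : MvPolynomial iota ℤ →+* K) :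
    chi (MvPolynomial.C d) = (d : K) := by
  have h1 : (MvPolynomial.C d : MvPolynomial iota ℤ) = ((d : ℤ) : MvPolynomial iota ℤ) := by simp
  rw [h1, map_intCast]

/-- **(B)** descent at a prime not dividing the level -/
theorem Sys_unram {iota : Type*} [DecidableEq iota] (i0 : iota) (c d : ℤ)
    {V' : Type*} [AddCommGroup V'] [Module K V'] [FiniteDimensional K V']
    (rho' : MvPolynomial iota ℤ →+* Module.End K V') (rho : MvPolynomial iota ℤ →+* Module.End K V)
    (i v : V' →ₗ[K] V) (hinj : Function.Injective (i.coprod v))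
    (hi : ∀ j, j ≠ i0 → ∀ x, rho (MvPolynomial.X j) (i x) = i (rho' (MvPolynomial.X j) x))
    (hv : ∀ j, j ≠ i0 → ∀ x, rho (MvPolynomial.X j) (v x) = v (rho' (MvPolynomial.X j) x))
    (hU1 : ∀ x, rho (MvPolynomial.X i0) (i x) = i (rho' (MvPolynomial.X i0) x) - (c : K) • v x)
    (hU2 : ∀ x, rho (MvPolynomial.X i0) (v x) = i x)
    (hU3 : ∀ y, ∃ a b, rho (MvPolynomial.X i0) (rho (MvPolynomial.X i0) y) - (d : K) • y =
      i a + v b) :
    ∃ rest, Sys rho = (Sys rho').bind (two i0 (c : K)) + rest ∧
      ∀ chi ∈ rest, chi (MvPolynomial.X i0) ^ 2 = (d : K) := by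
  set W := LinearMap.range (i.coprod v) with hW
  have hmem : ∀ a b, i a + v b ∈ W := fun a b => ⟨(a, b), by simp⟩
  have hWs : ∀ r, ∀ x ∈ W, rho r x ∈ W := by
    intro r
    induction r using MvPolynomial.induction_on with
    | C a =>
      intro x hx
      have h1 : (MvPolynomial.C a : MvPolynomial iota ℤ) = ((a : ℤ) : MvPolynomial iota ℤ) := by simp
      rw [h1, map_intCast]
      have h2 : ((a : Module.End K V)) x = a • x := by simp
      rw [h2]
      exact zsmul_mem hx a
    | add p q hp hq =>
      intro x hx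
      rw [map_add, LinearMap.add_apply]
      exact W.add_mem (hp x hx) (hq x hx)
    | mul_X p j hp =>
      rintro _ ⟨⟨y, z⟩, rfl⟩
      rw [map_mul, Module.End.mul_apply]
      apply hp
      rw [LinearMap.coprod_apply, map_add]
      by_cases hj : j = i0
      · subst hj
        rw [hU1, hU2]
        have : i (rho' (MvPolynomial.X j) y) - (c : K) • v y + i z =
            i (rho' (MvPolynomial.X j) y + z) + v (-((c : K) • y)) := by
          rw [map_add, map_neg, map_smul]
          abel
        rw [this]
        exact hmem _ _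
      · rw [hi j hj, hv j hj]
        exact hmem _ _
  have h1 := Sys_range (subHom rho W hWs) rho W.subtype W.subtype_injective (fun r x => rfl)
  obtain ⟨rest, hr1, hr2⟩ := h1
  refine ⟨rest, ?_, ?_⟩
  · rw [hr1]
    congr 1
    refine Sys_dbl i0 (c : K) _ rho' (subHom rho W hWs) (i.codRestrict W (fun x => ?_))
      (v.codRestrict W (fun x => ?_)) rfl ?_ ?_ ?_ ?_ ?_
    · have := hmem x 0
      rwa [map_zero, add_zero] at this
    · have := hmem 0 x
      rwa [map_zero, zero_add] at this
    · constructor
      · rintro ⟨a, b⟩ ⟨a', b'⟩ h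
        apply hinj
        have h2 := congrArg (fun z : W => (z : V)) h
        simpa using h2
      · rintro ⟨_, ⟨⟨a, b⟩, rfl⟩⟩
        refine ⟨(a, b), ?_⟩
        apply Subtype.ext
        simp
    · intro j hj x
      apply Subtype.ext
      exact hi j hj x
    · intro j hj x
      apply Subtype.ext
      exact hv j hj x
    · intro x
      apply Subtype.ext
      exact hU1 x
    · intro x
      apply Subtype.ext
      exact hU2 x
  · intro chi hchi
    have h2 := hr2 (MvPolynomial.X i0 ^ 2 - MvPolynomial.C d) ?_ chi hchi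
    · rw [map_sub, map_pow, repl_intCast] at h2
      exact sub_eq_zero.1 h2
    · intro x
      obtain ⟨a, b, hab⟩ := hU3 x
      refine ⟨⟨_, hmem a b⟩, ?_⟩
      have h1 : (MvPolynomial.C d : MvPolynomial iota ℤ) = ((d : ℤ) : MvPolynomial iota ℤ) := by simp
      show i a + v b = _
      rw [← hab, map_sub, map_pow, h1, map_intCast, LinearMap.sub_apply, pow_two,
        Module.End.mul_apply]
      congr 1
      rw [Int.cast_smul_eq_zsmul]
      simp

/-- **(A)** descent at a prime dividing the level -/
theorem Sys_ram {V' : Type*} [AddCommGroup V'] [Module K V'] [FiniteDimensional K V']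
    {iota : Type*} (i0 : iota)
    (rho' : MvPolynomial iota ℤ →+* Module.End K V') (rho : MvPolynomial iota ℤ →+* Module.End K V)
    (i : V' →ₗ[K] V) (hinj : Function.Injective i)
    (hi : ∀ j, ∀ x, rho (MvPolynomial.X j) (i x) = i (rho' (MvPolynomial.X j) x))
    (hU : ∀ y, ∃ a, rho (MvPolynomial.X i0) y = i a) :
    ∃ rest, Sys rho = Sys rho' + rest ∧ ∀ chi ∈ rest, chi (MvPolynomial.X i0) = 0 := by
  have he : ∀ r x, i (rho' r x) = rho r (i x) := by
    intro r
    induction r using MvPolynomial.induction_on with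
    | C a =>
      intro x
      have h1 : (MvPolynomial.C a : MvPolynomial iota ℤ) = ((a : ℤ) : MvPolynomial iota ℤ) := by simp
      rw [h1, map_intCast, map_intCast]
      simp
    | add p q hp hq =>
      intro x
      rw [map_add, map_add, LinearMap.add_apply, LinearMap.add_apply, map_add, hp, hq]
    | mul_X p j hp =>
      intro x
      rw [map_mul, map_mul, Module.End.mul_apply, Module.End.mul_apply, hp, hi]
  obtain ⟨rest, h1, h2⟩ := Sys_range rho' rho i hinj he
  refine ⟨rest, h1, fun chi hchi => h2 _ ?_ chi hchi⟩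
  intro x
  obtain ⟨a, ha⟩ := hU x
  exact ⟨a, ha.symm⟩

/-! ### The ring homomorphism given by commuting operators -/

/-- evaluation of polynomials at commuting elements of a ring -/
def comEval {iota : Type*} {A : Type*} [Ring A] (T : iota → A) (h : ∀ i j, Commute (T i) (T j)) :
    MvPolynomial iota ℤ →+* A :=
  letI : CommRing (Subring.closure (Set.range T)) :=
    { (inferInstance : Ring (Subring.closure (Set.range T))) with
      mul_comm := fun x y => (Subring.isMulCommutative_closure (s := Set.range T) (by
        rintro _ ⟨i, rfl⟩ _ ⟨j, rfl⟩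
        exact h i j)).is_comm.comm x y }
  (Subring.closure (Set.range T)).subtype.comp
    (MvPolynomial.eval₂Hom (Int.castRingHom (Subring.closure (Set.range T)))
      (fun i => (⟨T i, Subring.subset_closure ⟨i, rfl⟩⟩ : Subring.closure (Set.range T))))

theorem comEval_X {iota : Type*} {A : Type*} [Ring A] (T : iota → A)
    (h : ∀ i j, Commute (T i) (T j)) (i : iota) : comEval T h (MvPolynomial.X i) = T i := by
  simp [comEval]

end Gouvea.Desc
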