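import Pool.Agent.Work.MP_d3517d_nt.ES.HeckeComm
import Pool.Agent.Work.MP_d3517d_nt.ES.DescLin
import Pool.Agent.Work.MP_d3517d_nt.ES.DimUpper

/-!
# The Hecke ring acting on `Cusp N k` (MP_d3517d_nt, cell ES)

* `opC N k q`: the operator `T_q` (`q ∤ N`) or `U_q` (`q ∣ N`) on `Cusp N k`;
* `cusp_finite`: `Cusp N k` is finite dimensional;
* `rhoC N k`: the action of the ring of polynomials in these operators, one ring for all levels
  and weights.
-/

set_option autoImplicit false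

open UpperHalfPlane CongruenceSubgroup Finset
open scoped MatrixGroups ModularForm

noncomputable section

namespace Gouvea.ES

instance cusp_finite (N k : ℕ) [NeZero N] : FiniteDimensional ℂ (Cusp N k) :=
  Pool.Agent.Gouv.ESDim.finite_cuspForm N (k : ℤ)

/-- the Hecke operator at the prime `q` on `Cusp N k`: `T_q` if `q ∤ N` and `U_q` if `q ∣ N` -/
def opC (N k : ℕ) [NeZero N] (q : Nat.Primes) : Module.End ℂ (Cusp N k) :=
  if h : (q : ℕ) ∣ N then UlC k q.2 h else TlC k q.2 h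

instance opC_neZero (q : Nat.Primes) : NeZero (q : ℕ) := ⟨q.2.ne_zero⟩

theorem opC_coe_dvd (N k : ℕ) [NeZero N] (q : Nat.Primes) (h : (q : ℕ) ∣ N) (f : Cusp N k) :
    (opC N k q f : ℍ → ℂ) = Ul k q f := by
  rw [opC, dif_pos h]
  exact coe_UlC k q.2 h f

theorem opC_coe_not_dvd (N k : ℕ) [NeZero N] (q : Nat.Primes) (h : ¬ (q : ℕ) ∣ N)
    (f : Cusp N k) : (opC N k q f : ℍ → ℂ) = Tl k q f := by
  rw [opC, dif_neg h]
  exact coe_TlC k q.2 h f

theorem opC_comm (N k : ℕ) [NeZero N] (q r : Nat.Primes) : Commute (opC N k q) (opC N k r) := by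
  unfold opC
  split_ifs with h1 h2 h2
  · exact UlC_comm q.2 h1 r.2 h2
  · exact (TlC_UlC_comm r.2 h2 q.2 h1).symm
  · exact TlC_UlC_comm q.2 h1 r.2 h2
  · exact TlC_comm q.2 h1 r.2 h2

open Gouvea.Desc in
/-- the action of the full Hecke ring `ℤ[T_q (q ∤ N), U_q (q ∣ N)]` on `Cusp N k` -/
def rhoC (N k : ℕ) [NeZero N] : MvPolynomial Nat.Primes ℤ →+* Module.End ℂ (Cusp N k) :=
  comEval (opC N k) (opC_comm N k)

open Gouvea.Desc in
theorem rhoC_X (N k : ℕ) [NeZero N] (q : Nat.Primes) :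
    rhoC N k (MvPolynomial.X q) = opC N k q := comEval_X _ _ q

end Gouvea.ES
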