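import Pool.Agent.Work.MP_d3517d_nt.ES.DescLin
import Pool.Agent.Work.MP_d3517d_nt.PS.Hecke
import Pool.Agent.Work.MP_d3517d_nt.PS.Rep

/-!
# The Hecke ring `ℤ[T_q]` on partial modular symbols (MP_d3517d_nt, cell ES)
-/

open Gouvea.Desc Gouvea.PS

noncomputable section

namespace Gouvea.ES

variable (k : Type) [CommRing k] (M n : ℕ) [NeZero M]

/-- the operator `T_q` (`q ∤ M`), `U_q` (`q ∣ M`) on the symbols of level `M` -/
def opS (hM : 4 ∣ M) (q : Nat.Primes) : Module.End k (Sym k M n) :=
  (hecke k M n q).restrict fun _ hφ => hecke_mem q.2 hM (NeZero.ne M) hφ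

@[simp] theorem opS_coe (hM : 4 ∣ M) (q : Nat.Primes) (φ : Sym k M n) :
    (opS k M n hM q φ : PS.Cusp → PS.Cusp → Fin (n + 1) → k) = hecke k M n q φ := rfl

theorem opS_comm (hM : 4 ∣ M) (q r : Nat.Primes) :
    Commute (opS k M n hM q) (opS k M n hM r) := by
  refine LinearMap.ext fun φ => Subtype.ext ?_
  exact hecke_comm q.2 r.2 hM (NeZero.ne M) (sym_inv φ.2)

/-- the action of `ℤ[T_q]` on the symbols -/
def rhoS (hM : 4 ∣ M) : MvPolynomial Nat.Primes ℤ →+* Module.End k (Sym k M n) :=
  comEval (opS k M n hM) (opS_comm k M n hM)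

theorem rhoS_X (hM : 4 ∣ M) (q : Nat.Primes) :
    rhoS k M n hM (MvPolynomial.X q) = opS k M n hM q := comEval_X _ _ _

/-- maps which commute with the generators commute with everything. -/
theorem equivariant_of_X {ι : Type*} {K U V : Type*} [CommRing K] [AddCommGroup U] [Module K U]
    [AddCommGroup V] [Module K V] {ρU : MvPolynomial ι ℤ →+* Module.End K U}
    {ρV : MvPolynomial ι ℤ →+* Module.End K V} {f : U →ₗ[K] V}
    (h : ∀ i u, f (ρU (MvPolynomial.X i) u) = ρV (MvPolynomial.X i) (f u)) (r : MvPolynomial ι ℤ)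
    (u : U) : f (ρU r u) = ρV r (f u) := by
  induction r using MvPolynomial.induction_on generalizing u with
  | C a =>
    have e : (MvPolynomial.C a : MvPolynomial ι ℤ) = ((a : ℤ) : MvPolynomial ι ℤ) := by simp
    rw [e, map_intCast, map_intCast, Module.End.intCast_apply, Module.End.intCast_apply,
      map_zsmul]
  | add p q hp hq => rw [map_add, map_add, LinearMap.add_apply, LinearMap.add_apply, map_add, hp, hq]
  | mul_X p i hp => rw [map_mul, map_mul, Module.End.mul_apply, Module.End.mul_apply, hp, h]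

end Gouvea.ES
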