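import Pool.Agent.Work.MP_d3517d_nt.ES.Count
import Pool.Agent.Work.MP_d3517d_nt.PS.Psi

/-!
# The dimension of the space of partial modular symbols (MP_d3517d_nt)
-/

open CongruenceSubgroup
open scoped MatrixGroups

noncomputable section

namespace Gouvea.ES

theorem six_mul_card_Vx (M : ℕ) [NeZero M] (hM : 4 ∣ M) :
    6 * Fintype.card (PS.Vx M) = (Gamma0 M).index := by
  rw [mul_comm, card_Vx hM]

theorem finiteDimensional_Sym (k : Type) [Field k] (M : ℕ) [NeZero M] (n : ℕ) (hn : Even n) :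
    FiniteDimensional k (PS.Sym k M n) :=
  Module.Finite.equiv (PS.Psi k M n hn).symm

theorem finrank_Sym (k : Type) [Field k] (M : ℕ) [NeZero M] (n : ℕ) (hn : Even n) :
    Module.finrank k (PS.Sym k M n) = Fintype.card (PS.Vx M) * (n + 1) := by
  rw [(PS.Psi k M n hn).finrank_eq, Module.finrank_fintype_fun_eq_card, Fintype.card_prod,
    Fintype.card_fin]

/-- `6 dim Sym_n(Γ₀(M)) = [SL₂(ℤ) : Γ₀(M)] (n + 1)` -/
theorem six_mul_finrank_Sym (k : Type) [Field k] (M : ℕ) [NeZero M] (hM : 4 ∣ M) (n : ℕ)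
    (hn : Even n) :
    6 * Module.finrank k (PS.Sym k M n) = (Gamma0 M).index * (n + 1) := by
  rw [finrank_Sym k M n hn, ← mul_assoc, six_mul_card_Vx M hM]

end Gouvea.ES
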