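import Pool.Agent.Work.MP_d3517d_nt.ES.Period
import Pool.Agent.Work.MP_d3517d_nt.ES.HeckeCusp
import Pool.Agent.Work.MP_d3517d_nt.PS.Defs

/-!
# The symbols of cusp forms as partial modular symbols (MP_d3517d_nt, ES)

`toP` maps the cusps `u/v`, `4 ∣ v`, of `PS.Cusp` to `ℙ¹(ℚ)`, `gQ` maps the monoid `PS.S4` to
`GL₂(ℚ)`, and `symC n f` is the symbol of `f` as a function on pairs of cusps.
-/

open Filter Topology UpperHalfPlane Polynomial CongruenceSubgroup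
open scoped MatrixGroups ModularForm

noncomputable section

namespace Gouvea.ES

open Pool.Agent.Gouv.ES

/-! ### Cusps and matrices -/

/-- the point `u/v` of `ℙ¹(ℚ)` -/
def toPre (x : PS.PreCusp) : OnePoint ℚ :=
  if x.v = 0 then OnePoint.infty else (((x.u : ℚ) / (x.v : ℚ) : ℚ) : OnePoint ℚ)

lemma odd_ne {a : ℤ} (h : Odd a) : a ≠ 0 := by
  rintro rfl
  exact (by decide : ¬ Odd (0 : ℤ)) h

lemma toPre_congr (x y : PS.PreCusp) (h : x.u * y.v = y.u * x.v) : toPre x = toPre y := by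
  have hx := odd_ne x.hu
  have hy := odd_ne y.hu
  unfold toPre
  by_cases h1 : x.v = 0
  · have h2 : y.v = 0 := by
      rw [h1, mul_zero] at h
      exact (mul_eq_zero.1 h).resolve_left hx
    rw [if_pos h1, if_pos h2]
  · have h2 : y.v ≠ 0 := by
      intro h2
      rw [h2, mul_zero] at h
      exact (mul_ne_zero hy h1) h.symm
    rw [if_neg h1, if_neg h2]
    congr 1
    have h3 : (x.v : ℚ) ≠ 0 := by exact_mod_cast h1
    have h4 : (y.v : ℚ) ≠ 0 := by exact_mod_cast h2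
    rw [div_eq_div_iff h3 h4]
    exact_mod_cast h

/-- the cusp `u/v` as a point of `ℙ¹(ℚ)` -/
def toP : PS.Cusp → OnePoint ℚ := Quotient.lift toPre toPre_congr

lemma toP_mk (u v : ℤ) (hu : Odd u) (hv : (4 : ℤ) ∣ v) :
    toP (PS.Cusp.mk u v hu hv) =
      if v = 0 then OnePoint.infty else (((u : ℚ) / (v : ℚ) : ℚ) : OnePoint ℚ) := rfl

lemma toP_inf : toP PS.inf = OnePoint.infty := by
  rw [PS.inf, toP_mk, if_pos rfl]

/-- the matrix `g` as an element of `GL₂(ℚ)` -/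
def gQ (g : PS.S4) : GQ :=
  Matrix.GeneralLinearGroup.mkOfDetNeZero (g.1.map (Int.cast : ℤ → ℚ)) (by
    have h1 := g.2.1
    have h2 : (g.1.map (Int.cast : ℤ → ℚ)).det = ((g.1.det : ℤ) : ℚ) := by
      rw [Matrix.det_fin_two, Matrix.det_fin_two]
      simp
    rw [h2]
    exact_mod_cast h1)

lemma gQ_apply (g : PS.S4) (i j : Fin 2) : gQ g i j = ((g.1 i j : ℤ) : ℚ) := rfl

lemma det_gQ (g : PS.S4) : (gQ g).det.val = ((g.1.det : ℤ) : ℚ) := by
  have h1 : (gQ g).det.val = Matrix.det (gQ g : Matrix (Fin 2) (Fin 2) ℚ) := rfl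
  rw [h1, Matrix.det_fin_two, Matrix.det_fin_two]
  simp only [gQ_apply]
  push_cast
  ring

lemma det_gQ_pos {g : PS.S4} (hg : 0 < g.1.det) : 0 < (gQ g).det.val := by
  rw [det_gQ]
  exact_mod_cast hg

lemma matOf_gQ (g : PS.S4) : matOf ℂ (gQ g) = g.1.map (Int.cast : ℤ → ℂ) := by
  ext i j
  change algebraMap ℚ ℂ (gQ g i j) = ((g.1 i j : ℤ) : ℂ)
  rw [gQ_apply]
  simp

/-- **the map to `ℙ¹(ℚ)` is equivariant.** -/
theorem toP_smul (g : PS.S4) (x : PS.Cusp) : toP (g • x) = gQ g • toP x := by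
  refine PS.Cusp.ind' (P := fun x => toP (g • x) = gQ g • toP x) (fun u v hu hv => ?_) x
  obtain ⟨hu', hv', h⟩ := PS.smul_mk g u v hu hv
  rw [h, toP_mk, toP_mk]
  have hu0 : (u : ℚ) ≠ 0 := by exact_mod_cast odd_ne hu
  by_cases hv0 : v = 0
  · subst hv0
    have e : gQ g • (OnePoint.infty : OnePoint ℚ) = if ((g.1 1 0 : ℤ) : ℚ) = 0 then
        OnePoint.infty else ((((g.1 0 0 : ℤ) : ℚ) / ((g.1 1 0 : ℤ) : ℚ) : ℚ) : OnePoint ℚ) :=
      OnePoint.smul_infty_eq_ite (gQ g)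
    rw [if_pos rfl, e]
    by_cases h10 : g.1 1 0 = 0
    · have h11 : g.1 1 0 * u + g.1 1 1 * 0 = 0 := by rw [h10]; ring
      have h12 : ((g.1 1 0 : ℤ) : ℚ) = 0 := by rw [h10]; simp
      rw [if_pos h11, if_pos h12]
    · have h10' : ((g.1 1 0 : ℤ) : ℚ) ≠ 0 := by exact_mod_cast h10
      have h11 : g.1 1 0 * u + g.1 1 1 * 0 ≠ 0 := by
        rw [mul_zero, add_zero]
        exact mul_ne_zero h10 (odd_ne hu)
      rw [if_neg h11, if_neg h10']
      congr 1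
      push_cast
      field_simp
      ring
  · have hv1 : (v : ℚ) ≠ 0 := by exact_mod_cast hv0
    have e : gQ g • (((u : ℚ) / (v : ℚ) : ℚ) : OnePoint ℚ) =
        if ((g.1 1 0 : ℤ) : ℚ) * ((u : ℚ) / v) + ((g.1 1 1 : ℤ) : ℚ) = 0 then OnePoint.infty
        else (((((g.1 0 0 : ℤ) : ℚ) * ((u : ℚ) / v) + ((g.1 0 1 : ℤ) : ℚ)) /
          (((g.1 1 0 : ℤ) : ℚ) * ((u : ℚ) / v) + ((g.1 1 1 : ℤ) : ℚ)) : ℚ) : OnePoint ℚ) :=
      OnePoint.smul_some_eq_ite
    rw [if_neg hv0, e]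
    have key : ((g.1 1 0 : ℤ) : ℚ) * ((u : ℚ) / v) + ((g.1 1 1 : ℤ) : ℚ) =
        ((g.1 1 0 * u + g.1 1 1 * v : ℤ) : ℚ) / v := by
      push_cast
      field_simp
    have key' : ((g.1 0 0 : ℤ) : ℚ) * ((u : ℚ) / v) + ((g.1 0 1 : ℤ) : ℚ) =
        ((g.1 0 0 * u + g.1 0 1 * v : ℤ) : ℚ) / v := by
      push_cast
      field_simp
    by_cases h1 : g.1 1 0 * u + g.1 1 1 * v = 0
    · rw [if_pos h1, if_pos (by rw [key, h1]; simp)]
    · have h2 : ((g.1 1 0 * u + g.1 1 1 * v : ℤ) : ℚ) ≠ 0 := by exact_mod_cast h1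
      rw [if_neg h1, if_neg (by rw [key]; exact div_ne_zero h2 hv1), key, key']
      congr 1
      rw [div_div_div_cancel_right₀ hv1]

/-! ### The symbols -/

/-- the symbol of `f` as a function on pairs of cusps -/
def symC (n : ℕ) (f : ℍ → ℂ) : PS.Cusp → PS.Cusp → Fin (n + 1) → ℂ :=
  fun x y i => (sym n f (toP x) (toP y)).coeff i

variable {n : ℕ} {f g : ℍ → ℂ}

/-- **the action of the matrices of positive determinant.** -/
theorem act_symC (hf : Nice ((n + 2 : ℕ) : ℤ) f) {g : PS.S4} (hg : 0 < g.1.det) :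
    PS.act ℂ n g (symC n f) = symC n (f ∣[((n + 2 : ℕ) : ℤ)] toR (gQ g)) := by
  funext x y i
  rw [PS.act_apply]
  change (PS.slk n (g.1.map (Int.cast : ℤ → ℂ))).mulVec
    (fun j : Fin (n + 1) => (sym n f (toP (g • x)) (toP (g • y))).coeff j) i = _
  rw [← PS.coeff_slashM_eq]
  change _ = (sym n (f ∣[((n + 2 : ℕ) : ℤ)] toR (gQ g)) (toP x) (toP y)).coeff i
  rw [sym_slash hf (det_gQ_pos hg), matOf_gQ, toP_smul, toP_smul]

lemma symC_add (hf : Nice ((n + 2 : ℕ) : ℤ) f) (hg : Nice ((n + 2 : ℕ) : ℤ) g) :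
    symC n (f + g) = symC n f + symC n g := by
  funext x y i
  change (sym n (f + g) (toP x) (toP y)).coeff i = _
  rw [sym_add hf hg, coeff_add]
  rfl

lemma symC_smul (n : ℕ) (f : ℍ → ℂ) (c : ℂ) : symC n (c • f) = c • symC n f := by
  funext x y i
  change (sym n (c • f) (toP x) (toP y)).coeff i = _
  rw [sym_smul, coeff_smul]
  rfl

lemma symC_sum {ι : Type*} (s : Finset ι) {F : ι → ℍ → ℂ}
    (hF : ∀ i ∈ s, Nice ((n + 2 : ℕ) : ℤ) (F i)) :
    symC n (∑ i ∈ s, F i) = ∑ i ∈ s, symC n (F i) := by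
  funext x y i
  change (sym n (∑ i ∈ s, F i) (toP x) (toP y)).coeff i = _
  rw [sym_sum s hF, finsetSum_coeff]
  simp only [Finset.sum_apply]
  rfl

lemma symC_cocycle (n : ℕ) (f : ℍ → ℂ) (x y z : PS.Cusp) :
    symC n f x y + symC n f y z = symC n f x z := by
  funext i
  change (sym n f (toP x) (toP y)).coeff i + (sym n f (toP y) (toP z)).coeff i =
    (sym n f (toP x) (toP z)).coeff i
  rw [← coeff_add, sym_add_sym]

/-- the matrices in `Γ₀(M)` -/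
lemma toR_gQ_mem {M : ℕ} {g : PS.S4} (hg : PS.IsG0 M g) : toR (gQ g) ∈ Gam0 M := by
  refine Subgroup.mem_map.2 ⟨⟨g.1, hg.1⟩, ?_, ?_⟩
  · exact Gamma0_mem.2 ((ZMod.intCast_zmod_eq_zero_iff_dvd _ _).2 hg.2)
  · ext i j
    change ((g.1 i j : ℤ) : ℝ) = algebraMap ℚ ℝ (gQ g i j)
    rw [gQ_apply]
    simp

/-- **the symbols of cusp forms are partial modular symbols.** -/
theorem symC_mem {M : ℕ} [NeZero M] (f : Cusp M (n + 2)) : symC n (f : ℍ → ℂ) ∈ PS.Sym ℂ M n := by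
  refine ⟨symC_cocycle n _, fun g hg => ?_⟩
  have hdet : 0 < g.1.det := by
    rw [hg.1]
    exact one_pos
  rw [act_symC (nice_of_cuspForm f) hdet]
  congr 1
  exact SlashInvariantForm.slash_action_eqn f _ (toR_gQ_mem hg)

/-! ### Hecke operators -/

lemma det_upS {a b d : ℤ} (ha : Odd a) (hd : d ≠ 0) : (PS.upS a b d).1.det = a * d := by
  rw [PS.upS_coe ha hd, Matrix.det_fin_two_of]
  ring

lemma toR_gQ_upS {a b d : ℤ} (ha : Odd a) (hd : d ≠ 0) (h : ((a : ℝ)) * (d : ℝ) ≠ 0) :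
    toR (gQ (PS.upS a b d)) = tri a b d h := by
  ext i j
  change algebraMap ℚ ℝ (gQ (PS.upS a b d) i j) =
    (!![(a : ℝ), (b : ℝ); 0, (d : ℝ)] : Matrix (Fin 2) (Fin 2) ℝ) i j
  rw [gQ_apply, PS.upS_coe ha hd]
  fin_cases i <;> fin_cases j <;> simp

lemma act_upS (hf : Nice ((n + 2 : ℕ) : ℤ) f) {l : ℕ} [NeZero l] (b : ℕ) :
    PS.act ℂ n (PS.upS 1 b l) (symC n f) =
      symC n (f ∣[((n + 2 : ℕ) : ℤ)] tri 1 b l (by simp [NeZero.ne l])) := by
  have hl : (l : ℤ) ≠ 0 := by exact_mod_cast NeZero.ne l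
  have hl' : (0 : ℤ) < l := by exact_mod_cast Nat.pos_of_ne_zero (NeZero.ne l)
  rw [act_symC hf (by rw [det_upS odd_one hl]; simpa using hl')]
  congr 2
  have h1 := toR_gQ_upS (b := (b : ℤ)) (a := 1) (d := (l : ℤ)) odd_one hl
    (by simp [NeZero.ne l])
  rw [h1]
  congr 1 <;> simp

lemma nice_tri (hf : Nice ((n + 2 : ℕ) : ℤ) f) {l : ℕ} [NeZero l] (b : ℕ) :
    Nice ((n + 2 : ℕ) : ℤ)
      (f ∣[((n + 2 : ℕ) : ℤ)] tri 1 b l (by simp [NeZero.ne l])) := by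
  have hl : (l : ℤ) ≠ 0 := by exact_mod_cast NeZero.ne l
  have hl' : (0 : ℤ) < l := by exact_mod_cast Nat.pos_of_ne_zero (NeZero.ne l)
  have h2 : 0 < (gQ (PS.upS 1 b l)).det.val :=
    det_gQ_pos (by rw [det_upS odd_one hl]; simpa using hl')
  have h1 := toR_gQ_upS (b := (b : ℤ)) (a := 1) (d := (l : ℤ)) odd_one hl
    (by simp [NeZero.ne l])
  have h3 : toR (gQ (PS.upS 1 b l)) = tri 1 b l (by simp [NeZero.ne l]) := by
    rw [h1]
    congr 1
    simp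
  rw [← h3]
  exact hf.slash h2

/-- **`U_l` on symbols.** -/
theorem hecke_symC_U (hf : Nice ((n + 2 : ℕ) : ℤ) f) {M l : ℕ} [NeZero l] (hlM : l ∣ M) :
    PS.hecke ℂ M n l (symC n f) = symC n (Ul (n + 2) l f) := by
  unfold PS.hecke Ul
  rw [if_pos hlM, add_zero, symC_sum _ fun b _ => nice_tri hf b, LinearMap.sum_apply]
  exact Finset.sum_congr rfl fun b _ => act_upS hf b

/-- **`T_l` on symbols.** -/
theorem hecke_symC_T (hf : Nice ((n + 2 : ℕ) : ℤ) f) {M l : ℕ} [NeZero l] (hl : l.Prime)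
    (hM : 4 ∣ M) (hlM : ¬ l ∣ M) :
    PS.hecke ℂ M n l (symC n f) = symC n (Tl (n + 2) l f) := by
  have hodd : Odd (l : ℤ) := by
    have h1 : l ≠ 2 := by
      rintro rfl
      exact hlM (dvd_trans (by norm_num) hM)
    exact_mod_cast hl.odd_of_ne_two h1
  have hl' : (0 : ℤ) < l := by exact_mod_cast hl.pos
  have hdet : 0 < (PS.upS l 0 1).1.det := by
    rw [det_upS hodd one_ne_zero]
    simpa using hl'
  have h1 : toR (gQ (PS.upS l 0 1)) = tri l 0 1 (by simp [NeZero.ne l]) := by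
    have h2 := toR_gQ_upS (b := 0) (a := (l : ℤ)) (d := 1) hodd one_ne_zero
      (by simp [NeZero.ne l])
    rw [h2]
    congr 1 <;> simp
  have h2 : Nice ((n + 2 : ℕ) : ℤ)
      (f ∣[((n + 2 : ℕ) : ℤ)] tri l 0 1 (by simp [NeZero.ne l])) := by
    rw [← h1]
    exact hf.slash (det_gQ_pos hdet)
  have h3 : Nice ((n + 2 : ℕ) : ℤ)
      (∑ b ∈ Finset.range l, f ∣[((n + 2 : ℕ) : ℤ)] tri 1 b l (by simp [NeZero.ne l])) :=
    Nice.sum _ fun b _ => nice_tri hf b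
  unfold PS.hecke Tl
  rw [if_neg hlM, symC_add h2 h3, symC_sum _ fun b _ => nice_tri hf b, LinearMap.add_apply,
    LinearMap.sum_apply, act_symC hf hdet, h1]
  refine (add_comm _ _).trans ?_
  congr 1
  exact Finset.sum_congr rfl fun b _ => act_upS hf b

/-! ### The cusps are dense -/

theorem dense_cusps : Dense {x : ℝ | ∃ c : PS.Cusp, ∃ q : ℚ, toP c = (q : OnePoint ℚ) ∧ x = q} := by
  rw [Metric.dense_iff]
  intro x r hr
  obtain ⟨N, hN⟩ := exists_nat_gt (1 / r)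
  have hN1 : (0 : ℝ) < N := lt_trans (by positivity) hN
  have hN0 : 0 < N := by exact_mod_cast hN1
  set v : ℤ := 4 * N with hv
  have hvpos : (0 : ℝ) < (v : ℝ) := by
    rw [hv]
    push_cast
    positivity
  have hv0 : v ≠ 0 := by
    rintro h0
    rw [h0] at hvpos
    simp at hvpos
  set u : ℤ := 2 * ⌊x * v / 2⌋ + 1 with hu
  have hodd : Odd u := ⟨_, hu⟩
  have h1 := Int.floor_le (x * v / 2)
  have h2 := Int.lt_floor_add_one (x * v / 2)
  have h3 : |(u : ℝ) - x * v| ≤ 1 := by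
    rw [hu, abs_le]
    push_cast
    constructor <;> linarith
  refine ⟨((u : ℚ) / (v : ℚ) : ℚ), ?_, ⟨PS.Cusp.mk u v hodd ⟨N, hv⟩, (u : ℚ) / (v : ℚ), ?_, rfl⟩⟩
  · rw [Metric.mem_ball, Real.dist_eq]
    push_cast
    have h4 : (u : ℝ) / v - x = ((u : ℝ) - x * v) / v := by
      field_simp
    rw [h4, abs_div, abs_of_pos hvpos, div_lt_iff₀ hvpos]
    refine lt_of_le_of_lt h3 ?_
    have h5 : 1 < r * N := by
      rw [div_lt_iff₀ hr] at hN
      linarith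
    have h6 : (v : ℝ) = 4 * N := by
      rw [hv]
      push_cast
      ring
    rw [h6]
    nlinarith
  · rw [toP_mk, if_neg hv0]

theorem dense_cusps' :
    Dense ((fun x : ℚ => (x : ℝ)) '' {q : ℚ | ∃ c : PS.Cusp, toP c = (q : OnePoint ℚ)}) := by
  refine dense_cusps.mono ?_
  rintro x ⟨c, q, h1, h2⟩
  exact ⟨q, ⟨c, h1⟩, h2.symm⟩

end Gouvea.ES
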