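import Pool.Agent.Work.MP_d3517d_nt.ES.VertPer
import Pool.Agent.Work.MP_d3517d_nt.ES.RhoC
import Pool.Agent.Work.MP_d3517d_nt.ES.RhoS
import Pool.Agent.Work.MP_d3517d_nt.ES.Link
import Pool.Agent.Work.MP_d3517d_nt.ES.Eps
import Pool.Agent.Work.MP_d3517d_nt.ES.CountSym
import Pool.Agent.Work.MP_d3517d_nt.ES.Mult2

/-!
# Eichler–Shimura for partial modular symbols (MP_d3517d_nt, cell ES)

`ESmap : S_{n+2}(Γ₀(M)) × S_{n+2}(Γ₀(M)) → Sym ℂ M n`,
`(f, g) ↦ (1 + ε) symC f + (1 - ε) symC g`, is injective for `n ≥ 3`, Hecke equivariant, and its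
cokernel has a dimension bounded by a constant which depends only on `M`.

* `Sys_Sym`: `Sys (Sym) = Sys (S_{n+2}) + Sys (S_{n+2}) + r`, `card r ≤ C M`.
-/

open UpperHalfPlane CongruenceSubgroup Polynomial Gouvea.PS Gouvea.Desc Gouvea.Sys
open scoped MatrixGroups ModularForm

noncomputable section

namespace Gouvea.ES

variable {M : ℕ} [NeZero M] {n : ℕ}

/-- `f ↦ symC f` on the cusp forms of level `M` -/
def symL' (M n : ℕ) [NeZero M] : Gouvea.Cusp M (n + 2) →ₗ[ℂ] Sym ℂ M n where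
  toFun f := ⟨symC n (f : ℍ → ℂ), symC_mem f⟩
  map_add' f g := Subtype.ext (symC_add (nice_of_cuspForm f) (nice_of_cuspForm g))
  map_smul' c f := Subtype.ext (symC_smul n f c)

theorem symL'_coe (f : Gouvea.Cusp M (n + 2)) :
    (symL' M n f : PS.Cusp → PS.Cusp → Fin (n + 1) → ℂ) = symC n (f : ℍ → ℂ) := rfl

/-- `ε` on the symbols of level `M` -/
def epsL (M n : ℕ) : Sym ℂ M n →ₗ[ℂ] Sym ℂ M n :=
  (epsS ℂ n).restrict fun _ h => epsS_mem h

omit [NeZero M] in
theorem epsL_coe (φ : Sym ℂ M n) :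
    (epsL M n φ : PS.Cusp → PS.Cusp → Fin (n + 1) → ℂ) = epsS ℂ n φ := rfl

omit [NeZero M] in
theorem epsL_epsL (φ : Sym ℂ M n) : epsL M n (epsL M n φ) = φ :=
  Subtype.ext (epsS_epsS n φ.1)

theorem opS_epsL (hM : 4 ∣ M) (q : Nat.Primes) (φ : Sym ℂ M n) :
    opS ℂ M n hM q (epsL M n φ) = epsL M n (opS ℂ M n hM q φ) :=
  Subtype.ext (epsS_hecke q.2.pos φ.2)

theorem opS_symL' (hM : 4 ∣ M) (q : Nat.Primes) (f : Gouvea.Cusp M (n + 2)) :
    opS ℂ M n hM q (symL' M n f) = symL' M n (opC M (n + 2) q f) := by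
  have : NeZero (q : ℕ) := ⟨q.2.ne_zero⟩
  refine Subtype.ext ?_
  rw [opS_coe, symL'_coe, symL'_coe]
  by_cases h : (q : ℕ) ∣ M
  · rw [opC_coe_dvd _ _ _ h, hecke_symC_U (nice_of_cuspForm f) h]
  · rw [opC_coe_not_dvd _ _ _ h, hecke_symC_T (nice_of_cuspForm f) q.2 hM h]

theorem toP_negC {c : PS.Cusp} {q : ℚ} (h : toP c = (q : OnePoint ℚ)) :
    toP (negC c) = ((-q : ℚ) : OnePoint ℚ) := by
  revert h
  refine PS.Cusp.ind' (P := fun c => toP c = (q : OnePoint ℚ) →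
    toP (negC c) = ((-q : ℚ) : OnePoint ℚ)) (fun u v hu hv h => ?_) c
  rw [negC_mk, toP_mk]
  rw [toP_mk] at h
  by_cases hv0 : v = 0
  · rw [if_pos hv0] at h
    exact absurd h.symm (OnePoint.coe_ne_infty q)
  · rw [if_neg hv0] at h ⊢
    have h1 : (u : ℚ) / v = q := OnePoint.coe_injective h
    rw [← h1]
    push_cast
    rw [neg_div]

/-- the value of a polynomial of degree at most `n` -/
lemma eval_eq_sum_fin {n : ℕ} {P : ℂ[X]} (h : P.natDegree ≤ n) (x : ℂ) :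
    P.eval x = ∑ i : Fin (n + 1), P.coeff i * x ^ (i : ℕ) := by
  rw [Polynomial.eval_eq_sum_range' (Nat.lt_succ_iff.mpr h) x,
    Fin.sum_univ_eq_sum_range (fun i => P.coeff i * x ^ i) (n + 1)]

/-- **Injectivity of the even and the odd part.** -/
theorem eps_inj (hn : 3 ≤ n) (s : ℂ) (f : Gouvea.Cusp M (n + 2))
    (h : symL' M n f + s • epsL M n (symL' M n f) = 0) : f = 0 := by
  refine sym_inj (Γ := Gam0 M) hn f s (D := {q : ℚ | ∃ c, toP c = (q : OnePoint ℚ)}) ?_ ?_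
  · refine dense_cusps.mono ?_
    rintro x ⟨c, q, hc, rfl⟩
    exact ⟨q, ⟨c, hc⟩, rfl⟩
  · rintro x ⟨c, hc⟩
    have h1 : ∀ i : Fin (n + 1),
        (sym n f ((x : ℚ) : OnePoint ℚ) OnePoint.infty).coeff i +
          s * ((-1) ^ (i : ℕ) *
            (sym n f ((-x : ℚ) : OnePoint ℚ) OnePoint.infty).coeff i) = 0 := by
      intro i
      have h2 := congrFun (congrFun (congrFun (congrArg Subtype.val h) c) PS.inf) i
      have h3 : symC n (f : ℍ → ℂ) c PS.inf i + s * epsS ℂ n (symC n (f : ℍ → ℂ)) c PS.inf i = 0 :=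
        h2
      rw [epsS_coeff, negC_inf] at h3
      simp only [symC, toP_inf, toP_negC hc] at h3
      rw [hc] at h3
      exact h3
    rw [eval_eq_sum_fin (natDegree_sym_le n _ _ _), eval_eq_sum_fin (natDegree_sym_le n _ _ _),
      Finset.mul_sum, ← Finset.sum_add_distrib]
    refine Finset.sum_eq_zero fun i _ => ?_
    have h4 := h1 i
    have h5 : (((-x : ℚ) : ℝ) : ℂ) ^ (i : ℕ) = (-1) ^ (i : ℕ) * (((x : ℝ)) : ℂ) ^ (i : ℕ) := by
      rw [← mul_pow]
      congr 1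
      push_cast
      ring
    rw [h5]
    linear_combination (((x : ℝ)) : ℂ) ^ (i : ℕ) * h4

/-- **The Eichler–Shimura map.** -/
def ESmap (M n : ℕ) [NeZero M] : Gouvea.Cusp M (n + 2) × Gouvea.Cusp M (n + 2) →ₗ[ℂ] Sym ℂ M n :=
  ((LinearMap.id + epsL M n) ∘ₗ symL' M n).coprod ((LinearMap.id - epsL M n) ∘ₗ symL' M n)

theorem ESmap_apply (f g : Gouvea.Cusp M (n + 2)) :
    ESmap M n (f, g) = (symL' M n f + epsL M n (symL' M n f)) +
      (symL' M n g - epsL M n (symL' M n g)) := by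
  simp [ESmap]

theorem ESmap_injective (hn : 3 ≤ n) : Function.Injective (ESmap M n) := by
  rw [injective_iff_map_eq_zero]
  rintro ⟨f, g⟩ h
  rw [ESmap_apply] at h
  have h1 := congrArg (epsL M n) h
  rw [map_zero, map_add, map_add, map_sub, epsL_epsL, epsL_epsL] at h1
  have h2 : (2 : ℂ) • (symL' M n f + epsL M n (symL' M n f)) = 0 := by
    have h3 := congrArg₂ (· + ·) h h1
    simp only [add_zero] at h3
    rw [← h3, two_smul]
    abel
  have h3 : (2 : ℂ) • (symL' M n g - epsL M n (symL' M n g)) = 0 := by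
    have h3 := congrArg₂ (· - ·) h h1
    simp only [sub_zero] at h3
    rw [← h3, two_smul]
    abel
  have h4 := (smul_eq_zero.mp h2).resolve_left two_ne_zero
  have h5 := (smul_eq_zero.mp h3).resolve_left two_ne_zero
  have hf : f = 0 := eps_inj hn 1 f (by rw [one_smul]; exact h4)
  have hg : g = 0 := by
    refine eps_inj hn (-1) g ?_
    have e := neg_one_smul ℂ (epsL M n (symL' M n g))
    exact (congrArg (symL' M n g + ·) e).trans ((sub_eq_add_neg _ _).symm.trans h5)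
  rw [hf, hg]
  rfl

theorem ESmap_op (hM : 4 ∣ M) (q : Nat.Primes) (f g : Gouvea.Cusp M (n + 2)) :
    opS ℂ M n hM q (ESmap M n (f, g)) = ESmap M n (opC M (n + 2) q f, opC M (n + 2) q g) := by
  rw [ESmap_apply, ESmap_apply, map_add, map_add, map_sub, opS_epsL, opS_epsL, opS_symL',
    opS_symL']

/-- **`ESmap` is Hecke equivariant.** -/
theorem ESmap_equivariant (hM : 4 ∣ M) (r : MvPolynomial Nat.Primes ℤ)
    (x : Gouvea.Cusp M (n + 2) × Gouvea.Cusp M (n + 2)) :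
    ESmap M n (prodRep (rhoC M (n + 2)) (rhoC M (n + 2)) r x) = rhoS ℂ M n hM r (ESmap M n x) := by
  refine equivariant_of_X (fun q x => ?_) r x
  rw [prodRep_apply, rhoC_X, rhoS_X]
  exact (ESmap_op hM q x.1 x.2).symm

/-- the bound for the cokernel -/
def esBound (M : ℕ) [NeZero M] : ℕ := 72 * Fintype.card (Vx M) ^ 2 + 12 * Fintype.card (Vx M)

theorem finrank_Sym_le (hM : 4 ∣ M) (hn : Even n) :
    Module.finrank ℂ (Sym ℂ M n) ≤ 2 * Module.finrank ℂ (Gouvea.Cusp M (n + 2)) + esBound M := by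
  have h1 := Pool.Agent.Gouv.ESDim.finrank_cuspForm_ge M (n + 2) (hn.add even_two)
  rw [← six_mul_card_Vx M hM] at h1
  rw [finrank_Sym ℂ M n hn, esBound]
  have h2 : Fintype.card (Vx M) * (n + 2) = Fintype.card (Vx M) * (n + 1) + Fintype.card (Vx M) := by
    ring
  have h3 : 6 * Fintype.card (Vx M) * (n + 2) = 6 * (Fintype.card (Vx M) * (n + 1))
      + 6 * Fintype.card (Vx M) := by ring
  have h4 : 12 * ((6 * Fintype.card (Vx M)) ^ 2 + 6 * Fintype.card (Vx M)) =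
      6 * (72 * Fintype.card (Vx M) ^ 2 + 12 * Fintype.card (Vx M)) := by ring
  rw [h3, h4] at h1
  have h5 : Module.finrank ℂ (CuspForm ((Gamma0 M : Subgroup SL(2, ℤ)) :
      Subgroup (GL (Fin 2) ℝ)) ((n + 2 : ℕ) : ℤ)) = Module.finrank ℂ (Gouvea.Cusp M (n + 2)) := rfl
  rw [h5] at h1
  omega

/-- **Eichler–Shimura.** The systems of eigenvalues on the symbols of level `M` and weight `n + 2`
are those on the cusp forms, twice, and at most `esBound M` others. -/
theorem Sys_Sym (hM : 4 ∣ M) (hn : Even n) (hn3 : 3 ≤ n) :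
    haveI := finiteDimensional_Sym ℂ M n hn
    ∃ r : Multiset (MvPolynomial Nat.Primes ℤ →+* ℂ), r.card ≤ esBound M ∧
      Sys (rhoS ℂ M n hM) = Sys (rhoC M (n + 2)) + Sys (rhoC M (n + 2)) + r := by
  have := finiteDimensional_Sym ℂ M n hn
  obtain ⟨r, hr, -⟩ := Sys_range (prodRep (rhoC M (n + 2)) (rhoC M (n + 2))) (rhoS ℂ M n hM)
    (ESmap M n) (ESmap_injective hn3) (ESmap_equivariant hM)
  rw [Sys_prod] at hr
  refine ⟨r, ?_, hr⟩
  have h1 := congrArg Multiset.card hr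
  rw [Multiset.card_add, Multiset.card_add, card_Sys, card_Sys] at h1
  have h2 := finrank_Sym_le (n := n) hM hn
  omega

end Gouvea.ES
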