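import Pool.Agent.Work.MP_d3517d_nt.PS.Lev0

/-!
# The index of `Γ₀(4)` and the number of classes `Γ₀(M) \ Γ₀(4)` (MP_d3517d_nt)
-/

open Matrix CongruenceSubgroup
open scoped MatrixGroups

noncomputable section

namespace Gouvea.ES

/-- the class of the column `(a, c)` in `ℙ¹(ℤ/4)` -/
def kap4 (a c : ZMod 4) : Fin 6 :=
  if a = 1 ∨ a = 3 then
    (if c * a = 0 then 0 else if c * a = 1 then 1 else if c * a = 2 then 2 else 3)
  else if a = 0 then 4 else 5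

lemma kap4_odd : ∀ a b c d : ZMod 4, a * d - b * c = 1 → (a = 1 ∨ a = 3 ∨ c = 1 ∨ c = 3) := by
  decide

lemma kap4_iff : ∀ a c a' c' : ZMod 4, (a = 1 ∨ a = 3 ∨ c = 1 ∨ c = 3) →
    (a' = 1 ∨ a' = 3 ∨ c' = 1 ∨ c' = 3) → (kap4 a c = kap4 a' c' ↔ a * c' = c * a') := by
  decide

/-- the class of `g` -/
def cl4 (g : SL(2, ℤ)) : Fin 6 := kap4 ((g 0 0 : ℤ) : ZMod 4) ((g 1 0 : ℤ) : ZMod 4)

lemma col4_odd (g : SL(2, ℤ)) : ((g 0 0 : ℤ) : ZMod 4) = 1 ∨ ((g 0 0 : ℤ) : ZMod 4) = 3 ∨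
    ((g 1 0 : ℤ) : ZMod 4) = 1 ∨ ((g 1 0 : ℤ) : ZMod 4) = 3 := by
  refine kap4_odd _ ((g 0 1 : ℤ) : ZMod 4) _ ((g 1 1 : ℤ) : ZMod 4) ?_
  have h := Matrix.SpecialLinearGroup.det_coe g
  rw [Matrix.det_fin_two] at h
  have h2 := congrArg (Int.cast : ℤ → ZMod 4) h
  push_cast at h2
  exact h2

lemma cl4_iff (g h : SL(2, ℤ)) : cl4 g = cl4 h ↔ g⁻¹ * h ∈ Gamma0 4 := by
  rw [cl4, cl4, kap4_iff _ _ _ _ (col4_odd g) (col4_odd h), Gamma0_mem]
  have e : ((g⁻¹ * h) 1 0 : ℤ) = -(g 1 0) * h 0 0 + g 0 0 * h 1 0 := by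
    have e1 : ((g⁻¹ * h : SL(2, ℤ)) : Matrix (Fin 2) (Fin 2) ℤ) =
        ((g⁻¹ : SL(2, ℤ)) : Matrix (Fin 2) (Fin 2) ℤ) * (h : Matrix (Fin 2) (Fin 2) ℤ) :=
      Matrix.SpecialLinearGroup.coe_mul _ _
    have e2 := congrFun (congrFun e1 1) 0
    rw [Matrix.mul_apply, Fin.sum_univ_two] at e2
    rw [Matrix.SpecialLinearGroup.coe_inv, Matrix.adjugate_fin_two] at e2
    simpa using e2
  rw [show (((g⁻¹ * h : SL(2, ℤ)) : Matrix (Fin 2) (Fin 2) ℤ) 1 0) =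
    -(g 1 0) * h 0 0 + g 0 0 * h 1 0 from e]
  push_cast
  constructor
  · intro h1
    rw [h1]
    ring
  · intro h1
    linear_combination h1

/-- six representatives -/
def rep4 : Fin 6 → SL(2, ℤ) :=
  ![1, ⟨!![1, 0; 1, 1], by simp⟩, ⟨!![1, 0; 2, 1], by simp⟩, ⟨!![1, 0; 3, 1], by simp⟩,
    ⟨!![0, -1; 1, 0], by simp⟩, ⟨!![2, 1; 1, 1], by simp⟩]

lemma cl4_rep4 (i : Fin 6) : cl4 (rep4 i) = i := by
  fin_cases i <;> simp [cl4, rep4] <;> decide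

theorem index_Gamma0_four : (Gamma0 4).index = 6 := by
  have hb : Function.Bijective (Quotient.lift (s := QuotientGroup.leftRel (Gamma0 4)) cl4
      fun g h hgh => (cl4_iff g h).2 (QuotientGroup.leftRel_apply.1 hgh)) := by
    constructor
    · intro x y
      induction x using Quotient.inductionOn with
      | h g =>
        induction y using Quotient.inductionOn with
        | h h =>
          intro hgh
          exact Quotient.sound (s := QuotientGroup.leftRel (Gamma0 4))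
            (QuotientGroup.leftRel_apply.2 ((cl4_iff g h).1 hgh))
    · intro i
      exact ⟨Quotient.mk _ (rep4 i), cl4_rep4 i⟩
  have h1 := Nat.card_eq_of_bijective _ hb
  rw [Subgroup.index]
  refine h1.trans ?_
  simp

/-- `6 · |Γ₀(M) \ Γ₀(4)| = [SL₂(ℤ) : Γ₀(M)]` for `4 ∣ M` -/
theorem card_Vx {M : ℕ} [NeZero M] (hM : 4 ∣ M) :
    Fintype.card (PS.Vx M) * 6 = (Gamma0 M).index := by
  have hle : Gamma0 M ≤ Gamma0 4 := by
    intro g hg
    rw [Gamma0_mem, ZMod.intCast_zmod_eq_zero_iff_dvd] at hg ⊢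
    exact (Int.natCast_dvd_natCast.2 hM).trans hg
  have h1 : Fintype.card (PS.Vx M) = (PS.G0 M).index := by
    rw [Subgroup.index, ← Nat.card_eq_fintype_card]
    exact Nat.card_congr (QuotientGroup.quotientRightRelEquivQuotientLeftRel (PS.G0 M))
  have h2 : (PS.G0 M).index = (Gamma0 M).relIndex (Gamma0 4) := rfl
  rw [h1, h2, ← index_Gamma0_four, Subgroup.relIndex_mul_index hle]

end Gouvea.ES
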