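import Pool.Agent.Work.MP_d3517d_nt.ES.Vint
import Pool.Agent.Work.MP_d3517d_nt.SlashM

/-!
# Polynomial valued primitives (MP_d3517d_nt, ES)

`prim n g z = ∫_z^{i∞} g(w) (X - w)^n dw`, a polynomial of degree `≤ n`.  `IsPrim n g F`: `F` is a
polynomial valued primitive of `-g(z) (X - z)^n`.  Main results: `prim` is such a primitive, the
weight `n + 2` slash action on `g` corresponds to the weight `n` action on the primitives
(`IsPrim.slash`), two primitives differ by a constant (`IsPrim.sub_const`).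
-/

open Polynomial Finset Complex Filter Topology

open UpperHalfPlane hiding I

open Gouvea (slashM slR coeff_slashM slashM_slashM natDegree_slashM_le slashM_one)

noncomputable section

namespace Pool.Agent.Gouv.ES

/-! ### The weight `n` action of real matrices on complex polynomials -/

/-- `(P | γ)(X) = (cX + d)^n P((aX + b)/(cX + d))` -/
def act (n : ℕ) (γ : GL (Fin 2) ℝ) : ℂ[X] →ₗ[ℂ] ℂ[X] :=
  slashM n ((γ : Matrix (Fin 2) (Fin 2) ℝ).map Complex.ofRealHom)

lemma act_def (n : ℕ) (γ : GL (Fin 2) ℝ) (P : ℂ[X]) :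
    act n γ P = slashM n ((γ : Matrix (Fin 2) (Fin 2) ℝ).map Complex.ofRealHom) P := rfl

lemma act_mul (n : ℕ) (γ δ : GL (Fin 2) ℝ) (P : ℂ[X]) :
    act n (γ * δ) P = act n δ (act n γ P) := by
  rw [act_def, act_def, act_def, slashM_slashM, Units.val_mul, Matrix.map_mul]

lemma act_one (n : ℕ) {P : ℂ[X]} (hP : P.natDegree ≤ n) : act n 1 P = P := by
  rw [act_def, Units.val_one, Matrix.map_one _ (map_zero _) (map_one _)]
  exact slashM_one n P (mem_degreeLE.2 (natDegree_le_iff_degree_le.1 hP))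

lemma natDegree_act_le (n : ℕ) (γ : GL (Fin 2) ℝ) (P : ℂ[X]) : (act n γ P).natDegree ≤ n :=
  natDegree_slashM_le n _ P

lemma act_inv_act (n : ℕ) (γ : GL (Fin 2) ℝ) {P : ℂ[X]} (hP : P.natDegree ≤ n) :
    act n γ⁻¹ (act n γ P) = P := by
  rw [← act_mul, mul_inv_cancel, act_one n hP]

lemma act_act_inv (n : ℕ) (γ : GL (Fin 2) ℝ) {P : ℂ[X]} (hP : P.natDegree ≤ n) :
    act n γ (act n γ⁻¹ P) = P := by
  rw [← act_mul, inv_mul_cancel, act_one n hP]

lemma coeff_act (n : ℕ) (γ : GL (Fin 2) ℝ) (P : ℂ[X]) (i : ℕ) :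
    (act n γ P).coeff i = ∑ j ∈ range (n + 1),
      slR n ((γ : Matrix (Fin 2) (Fin 2) ℝ).map Complex.ofRealHom) i j * P.coeff j :=
  coeff_slashM n _ P i

lemma act_apply (n : ℕ) (γ : GL (Fin 2) ℝ) (P : ℂ[X]) :
    act n γ P = ∑ j ∈ range (n + 1), C (P.coeff j) *
      ((C (γ 0 0 : ℂ) * X + C (γ 0 1 : ℂ)) ^ j * (C (γ 1 0 : ℂ) * X + C (γ 1 1 : ℂ)) ^ (n - j)) :=
  rfl

/-- evaluation, homogeneous form. -/
lemma eval_act (n : ℕ) (γ : GL (Fin 2) ℝ) (P : ℂ[X]) (x : ℂ) :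
    (act n γ P).eval x = ∑ j ∈ range (n + 1), P.coeff j *
      ((γ 0 0 * x + γ 0 1) ^ j * (γ 1 0 * x + γ 1 1) ^ (n - j)) := by
  rw [act_apply, eval_finsetSum]
  simp

/-- evaluation. -/
lemma eval_act' (n : ℕ) (γ : GL (Fin 2) ℝ) {P : ℂ[X]} (hP : P.natDegree ≤ n) {x : ℂ}
    (hx : (γ 1 0 * x + γ 1 1 : ℂ) ≠ 0) :
    (act n γ P).eval x = (γ 1 0 * x + γ 1 1) ^ n *
      P.eval ((γ 0 0 * x + γ 0 1) / (γ 1 0 * x + γ 1 1)) := by
  rw [eval_act, eval_eq_sum_range' (Nat.lt_succ_of_le hP), Finset.mul_sum]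
  refine Finset.sum_congr rfl fun j hj => ?_
  have hj' : j ≤ n := Nat.lt_succ_iff.1 (mem_range.1 hj)
  have : (γ 1 0 * x + γ 1 1 : ℂ) ^ n = (γ 1 0 * x + γ 1 1) ^ j * (γ 1 0 * x + γ 1 1) ^ (n - j) := by
    rw [← pow_add, Nat.add_sub_cancel' hj']
  rw [this, div_pow]
  have h2 := pow_ne_zero j hx
  generalize (γ 1 0 * x + γ 1 1 : ℂ) = u at h2
  field_simp

lemma coeff_X_sub_C_pow' (w : ℂ) (n k : ℕ) :
    ((X - C w) ^ n : ℂ[X]).coeff k = (-w) ^ (n - k) * (n.choose k : ℂ) := by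
  rw [sub_eq_add_neg, ← C_neg, coeff_X_add_C_pow]

/-- the action on `n`-th powers of linear polynomials. -/
lemma act_X_sub_C_pow (n : ℕ) (γ : GL (Fin 2) ℝ) (w : ℂ) :
    act n γ ((X - C w) ^ n) =
      (C (γ 0 0 - w * γ 1 0 : ℂ) * X + C (γ 0 1 - w * γ 1 1 : ℂ)) ^ n := by
  have h : (C (γ 0 0 - w * γ 1 0 : ℂ) * X + C (γ 0 1 - w * γ 1 1 : ℂ) : ℂ[X]) =
      (C (γ 0 0 : ℂ) * X + C (γ 0 1 : ℂ)) + (-(C w * (C (γ 1 0 : ℂ) * X + C (γ 1 1 : ℂ)))) := by
    simp only [map_sub, map_mul]; ring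
  rw [h, add_pow, act_apply]
  refine Finset.sum_congr rfl fun j _ => ?_
  rw [coeff_X_sub_C_pow', neg_pow (C w * _), mul_pow]
  simp only [map_mul, map_pow, map_neg, map_natCast, map_one, neg_pow w]
  ring

/-! ### Möbius transformations -/

/-- `(az + b)/(cz + d)` -/
def mob (γ : GL (Fin 2) ℝ) (z : ℂ) : ℂ := num γ z / denom γ z

lemma mob_im (γ : GL (Fin 2) ℝ) (z : ℂ) :
    (mob γ z).im = γ.det.val * z.im / Complex.normSq (denom γ z) := by
  rw [mob, moebius_im]

lemma mob_im_pos {γ : GL (Fin 2) ℝ} (hγ : 0 < γ.det.val) {z : ℂ} (hz : 0 < z.im) :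
    0 < (mob γ z).im := by
  rw [mob_im]
  exact div_pos (mul_pos hγ hz) (normSq_denom_pos γ hz.ne')

lemma det_eq (γ : GL (Fin 2) ℝ) : ((γ.det.val : ℝ) : ℂ) = γ 0 0 * γ 1 1 - γ 0 1 * γ 1 0 := by
  rw [Matrix.GeneralLinearGroup.val_det_apply, Matrix.det_fin_two]
  push_cast
  rfl

lemma mob_one {z : ℂ} : mob 1 z = z := by simp [mob, num, denom]

lemma denom_mul (γ δ : GL (Fin 2) ℝ) {z : ℂ} (hz : 0 < z.im) :
    denom (γ * δ) z = denom γ (mob δ z) * denom δ z := by
  have h1 : denom δ z ≠ 0 := denom_ne_zero_of_im δ hz.ne'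
  have h2 : mob δ z * denom δ z = num δ z := div_mul_cancel₀ _ h1
  have h3 : denom γ (mob δ z) * denom δ z = γ 1 0 * (mob δ z * denom δ z) + γ 1 1 * denom δ z := by
    rw [denom]; ring
  rw [h3, h2]
  simp only [denom, num, Units.val_mul, Matrix.mul_apply, Fin.sum_univ_two]
  push_cast
  ring

lemma num_mul (γ δ : GL (Fin 2) ℝ) {z : ℂ} (hz : 0 < z.im) :
    num (γ * δ) z = num γ (mob δ z) * denom δ z := by
  have h1 : denom δ z ≠ 0 := denom_ne_zero_of_im δ hz.ne'
  have h2 : mob δ z * denom δ z = num δ z := div_mul_cancel₀ _ h1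
  have h3 : num γ (mob δ z) * denom δ z = γ 0 0 * (mob δ z * denom δ z) + γ 0 1 * denom δ z := by
    rw [num]; ring
  rw [h3, h2]
  simp only [denom, num, Units.val_mul, Matrix.mul_apply, Fin.sum_univ_two]
  push_cast
  ring

lemma mob_mul (γ δ : GL (Fin 2) ℝ) {z : ℂ} (hz : 0 < z.im) :
    mob (γ * δ) z = mob γ (mob δ z) := by
  have h1 : denom δ z ≠ 0 := denom_ne_zero_of_im δ hz.ne'
  conv_lhs => rw [mob, denom_mul γ δ hz, num_mul γ δ hz]
  rw [mul_div_mul_right _ _ h1]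
  rfl

lemma mob_inv_mob (γ : GL (Fin 2) ℝ) {z : ℂ} (hz : 0 < z.im) :
    mob γ⁻¹ (mob γ z) = z := by
  rw [← mob_mul _ _ hz, inv_mul_cancel, mob_one]

lemma det_inv_pos {γ : GL (Fin 2) ℝ} (hγ : 0 < γ.det.val) : 0 < (γ⁻¹).det.val := by
  rw [map_inv, Units.val_inv_eq_inv_val]
  exact inv_pos.2 hγ

lemma det_mul_pos {γ δ : GL (Fin 2) ℝ} (hγ : 0 < γ.det.val) (hδ : 0 < δ.det.val) :
    0 < (γ * δ).det.val := by
  rw [map_mul, Units.val_mul]
  exact mul_pos hγ hδ

lemma mob_mob_inv (γ : GL (Fin 2) ℝ) {z : ℂ} (hz : 0 < z.im) :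
    mob γ (mob γ⁻¹ z) = z := by
  rw [← mob_mul _ _ hz, mul_inv_cancel, mob_one]

lemma hasDerivAt_mob (γ : GL (Fin 2) ℝ) {z : ℂ} (hz : 0 < z.im) :
    HasDerivAt (mob γ) (γ.det.val / denom γ z ^ 2) z := by
  have h1 : denom γ z ≠ 0 := denom_ne_zero_of_im γ hz.ne'
  have h2 : HasDerivAt (num γ) (γ 0 0) z := by
    have := ((hasDerivAt_id z).const_mul (γ 0 0 : ℂ)).add_const (γ 0 1 : ℂ)
    rw [mul_one] at this
    exact this
  have h3 : HasDerivAt (denom γ) (γ 1 0) z := by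
    have := ((hasDerivAt_id z).const_mul (γ 1 0 : ℂ)).add_const (γ 1 1 : ℂ)
    rw [mul_one] at this
    exact this
  have h4 := h2.div h3 h1
  have h5 : (γ 0 0 * denom γ z - num γ z * γ 1 0 : ℂ) = γ.det.val := by
    rw [det_eq, num, denom]; ring
  rw [h5] at h4
  exact h4

/-- the key identity. -/
lemma act_X_sub_C_mob_pow (n : ℕ) (γ : GL (Fin 2) ℝ) {z : ℂ} (hz : 0 < z.im) :
    act n γ ((X - C (mob γ z)) ^ n) = C ((γ.det.val / denom γ z) ^ n) * (X - C z) ^ n := by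
  have h1 : denom γ z ≠ 0 := denom_ne_zero_of_im γ hz.ne'
  rw [act_X_sub_C_pow, C_pow, ← mul_pow]
  congr 1
  have h2 : (γ 0 0 - mob γ z * γ 1 0 : ℂ) = γ.det.val / denom γ z := by
    rw [det_eq, mob]
    field_simp
    rw [num, denom]; ring
  have h3 : (γ 0 1 - mob γ z * γ 1 1 : ℂ) = -(γ.det.val / denom γ z * z) := by
    rw [det_eq, mob]
    field_simp
    rw [num, denom]; ring
  rw [h2, h3]
  simp only [map_neg, map_mul]
  ring

/-! ### Primitives -/

/-- `F` is a polynomial valued primitive of `-g(z) (X - z)^n`. -/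
structure IsPrim (n : ℕ) (g : ℂ → ℂ) (F : ℂ → ℂ[X]) : Prop where
  deg : ∀ z : ℂ, 0 < z.im → (F z).natDegree ≤ n
  der : ∀ z : ℂ, 0 < z.im → ∀ j : ℕ,
    HasDerivAt (fun w => (F w).coeff j) (-g z * ((X - C z) ^ n : ℂ[X]).coeff j) z

namespace IsPrim

variable {n : ℕ} {g h : ℂ → ℂ} {F G : ℂ → ℂ[X]}

lemma congr_left (hF : IsPrim n g F) (hgh : ∀ z : ℂ, 0 < z.im → h z = g z) : IsPrim n h F where
  deg := hF.deg
  der := fun z hz j => by rw [hgh z hz]; exact hF.der z hz j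

lemma congr_right (hF : IsPrim n g F) (hFG : ∀ z : ℂ, 0 < z.im → G z = F z) : IsPrim n g G where
  deg := fun z hz => by rw [hFG z hz]; exact hF.deg z hz
  der := fun z hz j => by
    refine (hF.der z hz j).congr_of_eventuallyEq ?_
    filter_upwards [isOpen_HP.mem_nhds hz] with w hw
    rw [hFG w hw]

lemma add (hF : IsPrim n g F) (hG : IsPrim n h G) :
    IsPrim n (fun z => g z + h z) (fun z => F z + G z) where
  deg := fun z hz => natDegree_add_le_of_degree_le (hF.deg z hz) (hG.deg z hz)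
  der := fun z hz j => by
    have := (hF.der z hz j).add (hG.der z hz j)
    simp only [coeff_add]
    refine HasDerivAt.congr_deriv (f := fun w => (F w).coeff j + (G w).coeff j) this ?_
    ring

lemma const_mul (hF : IsPrim n g F) (c : ℂ) :
    IsPrim n (fun z => c * g z) (fun z => C c * F z) where
  deg := fun z hz => (natDegree_C_mul_le _ _).trans (hF.deg z hz)
  der := fun z hz j => by
    have := (hF.der z hz j).const_mul c
    simp only [coeff_C_mul]
    refine this.congr_deriv ?_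
    ring

/-- **the slash action on primitives.** -/
theorem slash (hF : IsPrim n g F) (γ : GL (Fin 2) ℝ) (hγ : 0 < γ.det.val)
    (hh : ∀ z : ℂ, 0 < z.im → h z = (γ.det.val : ℂ) ^ (n + 1) * g (mob γ z) / denom γ z ^ (n + 2)) :
    IsPrim n h (fun z => act n γ (F (mob γ z))) where
  deg := fun z _ => natDegree_act_le n γ _
  der := fun z hz j => by
    have h1 : denom γ z ≠ 0 := denom_ne_zero_of_im γ hz.ne'
    have h2 : HasDerivAt (fun w => (act n γ (F (mob γ w))).coeff j)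
        (∑ i ∈ range (n + 1), slR n ((γ : Matrix (Fin 2) (Fin 2) ℝ).map Complex.ofRealHom) j i *
          ((-g (mob γ z) * ((X - C (mob γ z)) ^ n : ℂ[X]).coeff i) *
            (γ.det.val / denom γ z ^ 2))) z := by
      simp only [coeff_act]
      refine HasDerivAt.fun_sum fun i _ => ?_
      refine HasDerivAt.const_mul _ ?_
      exact HasDerivAt.comp z (hF.der _ (mob_im_pos hγ hz) i) (hasDerivAt_mob γ hz)
    refine h2.congr_deriv ?_
    have h3 : ∀ i, slR n ((γ : Matrix (Fin 2) (Fin 2) ℝ).map Complex.ofRealHom) j i *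
          ((-g (mob γ z) * ((X - C (mob γ z)) ^ n : ℂ[X]).coeff i) *
            (γ.det.val / denom γ z ^ 2)) = (-g (mob γ z) * (γ.det.val / denom γ z ^ 2)) *
          (slR n ((γ : Matrix (Fin 2) (Fin 2) ℝ).map Complex.ofRealHom) j i *
            ((X - C (mob γ z)) ^ n : ℂ[X]).coeff i) := fun i => by ring
    rw [Finset.sum_congr rfl fun i _ => h3 i, ← Finset.mul_sum, ← coeff_act,
      act_X_sub_C_mob_pow n γ hz, coeff_C_mul, hh z hz, div_pow]
    field_simp
    ring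

/-- two primitives differ by a constant. -/
theorem sub_const (hF : IsPrim n g F) (hG : IsPrim n g G) {z w : ℂ} (hz : 0 < z.im)
    (hw : 0 < w.im) : F z - G z = F w - G w := by
  ext j
  rw [coeff_sub, coeff_sub]
  exact sub_const_of_deriv (F := fun z => (F z).coeff j) (G := fun z => (G z).coeff j)
    (fun z hz => hF.der z hz j) (fun z hz => hG.der z hz j) hz hw

/-- primitives with the same limit at `i∞` are equal. -/
theorem eq_of_tendsto (hF : IsPrim n g F) (hG : IsPrim n g G) (z0 : ℂ)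
    (hlim : ∀ j, Tendsto (fun t : ℝ => (F (z0 + t * I)).coeff j - (G (z0 + t * I)).coeff j)
      atTop (𝓝 0)) {z : ℂ} (hz : 0 < z.im) : F z = G z := by
  ext j
  have h2 : (fun t : ℝ => (F (z0 + t * I)).coeff j - (G (z0 + t * I)).coeff j) =ᶠ[atTop]
      fun _ => (F z).coeff j - (G z).coeff j := by
    filter_upwards [eventually_gt_atTop (-z0.im)] with t ht
    have := congrArg (fun P : ℂ[X] => P.coeff j)
      (hF.sub_const hG (by rw [add_mul_I_im]; linarith : 0 < (z0 + t * I).im) hz)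
    simpa using this
  have h3 := tendsto_nhds_unique ((hlim j).congr' h2) tendsto_const_nhds
  exact sub_eq_zero.1 h3.symm

end IsPrim

/-- `∫_z^{i∞} g(w) (X - w)^n dw` -/
def prim (n : ℕ) (g : ℂ → ℂ) (z : ℂ) : ℂ[X] :=
  ∑ j ∈ range (n + 1),
    monomial j ((-1) ^ (n - j) * (n.choose j : ℂ) * vint (fun w => w ^ (n - j) * g w) z)

lemma coeff_prim (n : ℕ) (g : ℂ → ℂ) (z : ℂ) (j : ℕ) :
    (prim n g z).coeff j =
      (-1) ^ (n - j) * (n.choose j : ℂ) * vint (fun w => w ^ (n - j) * g w) z := by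
  rw [prim, finsetSum_coeff]
  simp only [coeff_monomial]
  rw [Finset.sum_ite_eq']
  split_ifs with h
  · rfl
  · have : n < j := by simpa using h
    simp [Nat.choose_eq_zero_of_lt this]

lemma natDegree_prim_le (n : ℕ) (g : ℂ → ℂ) (z : ℂ) : (prim n g z).natDegree ≤ n := by
  rw [natDegree_le_iff_coeff_eq_zero]
  intro j hj
  rw [coeff_prim, Nat.choose_eq_zero_of_lt hj]
  simp

lemma prim_congr (n : ℕ) {g h : ℂ → ℂ} (hgh : ∀ z : ℂ, 0 < z.im → h z = g z) {z : ℂ}
    (hz : 0 < z.im) : prim n h z = prim n g z := by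
  ext j
  rw [coeff_prim, coeff_prim, vint_congr (fun z hz => by rw [hgh z hz]) hz]

lemma prim_add (n : ℕ) {g h : ℂ → ℂ} (hg : Dec g) (hh : Dec h) {z : ℂ} (hz : 0 < z.im) :
    prim n (fun z => g z + h z) z = prim n g z + prim n h z := by
  ext j
  simp only [coeff_add, coeff_prim, mul_add]
  rw [vint_add (hg.pow_mul _) (hh.pow_mul _) hz]
  ring

lemma prim_const_mul (n : ℕ) (g : ℂ → ℂ) (c z : ℂ) :
    prim n (fun z => c * g z) z = C c * prim n g z := by
  ext j
  simp only [coeff_C_mul, coeff_prim]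
  have : (fun w => w ^ (n - j) * (c * g w)) = fun w => c * (w ^ (n - j) * g w) := by
    funext w; ring
  rw [this, vint_const_mul]
  ring

/-- **`prim` is a primitive.** -/
theorem Dec.isPrim {g : ℂ → ℂ} (hg : Dec g) (n : ℕ) : IsPrim n g (prim n g) where
  deg := fun z _ => natDegree_prim_le n g z
  der := fun z hz j => by
    simp only [coeff_prim]
    have := ((hg.pow_mul (n - j)).hasDerivAt_vint hz).const_mul
      ((-1) ^ (n - j) * (n.choose j : ℂ))
    refine this.congr_deriv ?_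
    rw [coeff_X_sub_C_pow', neg_pow z]
    ring

/-- the coefficients of `prim` decay. -/
theorem Dec.coeff_prim {g : ℂ → ℂ} (hg : Dec g) (n j : ℕ) : Dec (fun z => (prim n g z).coeff j) := by
  simp only [ES.coeff_prim]
  exact ((hg.pow_mul (n - j)).vint).const_mul _

theorem Dec.tendsto_prim {g : ℂ → ℂ} (hg : Dec g) (n j : ℕ) (z : ℂ) :
    Tendsto (fun t : ℝ => (prim n g (z + t * I)).coeff j) atTop (𝓝 0) :=
  (hg.coeff_prim n j).tendsto_vert z

/-- evaluation of `prim`: `∫_z^{i∞} g(w) (x - w)^n dw`. -/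
theorem eval_prim {g : ℂ → ℂ} (hg : Dec g) (n : ℕ) (x : ℂ) {z : ℂ} (hz : 0 < z.im) :
    (prim n g z).eval x = vint (fun w => (x - w) ^ n * g w) z := by
  have h0 : Dec (fun w => (x - w) ^ n * g w) := by
    have h1 : (fun w => (x - w) ^ n * g w) = fun w => ∑ j ∈ range (n + 1),
        ((-1) ^ (n - j) * (n.choose j : ℂ) * x ^ j) * (w ^ (n - j) * g w) := by
      funext w
      rw [sub_eq_add_neg, add_pow, Finset.sum_mul]
      refine Finset.sum_congr rfl fun j _ => ?_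
      rw [neg_pow w]
      ring
    rw [h1]
    exact Dec.sum _ fun j _ => (hg.pow_mul _).const_mul _
  refine eq_vint h0 (F := fun z => (prim n g z).eval x) (fun z hz => ?_) ⟨0, ?_⟩ hz
  · have h2 : HasDerivAt (fun z => (prim n g z).eval x)
        (∑ j ∈ range (n + 1), (-g z * ((X - C z) ^ n : ℂ[X]).coeff j) * x ^ j) z := by
      have h3 : (fun z => (prim n g z).eval x) =
          fun z => ∑ j ∈ range (n + 1), (prim n g z).coeff j * x ^ j := by
        funext w
        rw [eval_eq_sum_range' (Nat.lt_succ_of_le (natDegree_prim_le n g w))]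
      rw [h3]
      exact HasDerivAt.fun_sum fun j _ => ((hg.isPrim n).der z hz j).mul_const _
    refine h2.congr_deriv ?_
    have h4 : ((X - C z) ^ n : ℂ[X]).eval x = ∑ j ∈ range (n + 1),
        ((X - C z) ^ n : ℂ[X]).coeff j * x ^ j := by
      rw [eval_eq_sum_range']
      refine Nat.lt_succ_of_le (natDegree_pow_le.trans ?_)
      rw [natDegree_X_sub_C, mul_one]
    have h5 : ((X - C z) ^ n : ℂ[X]).eval x = (x - z) ^ n := by simp
    rw [← h5, h4, mul_comm _ (g z), ← neg_mul, Finset.mul_sum]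
    exact Finset.sum_congr rfl fun j _ => by ring
  · have h3 : (fun t : ℝ => (prim n g (0 + t * I)).eval x) =
          fun t : ℝ => ∑ j ∈ range (n + 1), (prim n g (0 + t * I)).coeff j * x ^ j := by
      funext t
      rw [eval_eq_sum_range' (Nat.lt_succ_of_le (natDegree_prim_le n g _))]
    change Tendsto (fun t : ℝ => (prim n g (0 + t * I)).eval x) atTop (𝓝 0)
    rw [h3]
    have h4 : Tendsto (fun t : ℝ => ∑ j ∈ range (n + 1), (prim n g (0 + t * I)).coeff j * x ^ j)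
        atTop (𝓝 (∑ j ∈ range (n + 1), 0 * x ^ j)) :=
      tendsto_finsetSum _ fun j _ => (hg.tendsto_prim n j 0).mul_const _
    simpa using h4

/-- vertical lines under upper triangular matrices -/
lemma mob_vert {γ : GL (Fin 2) ℝ} (h10 : γ 1 0 = 0) (z : ℂ) (t : ℝ) :
    mob γ (z + t * I) = mob γ z + ((γ 0 0 / γ 1 1 * t : ℝ) : ℂ) * I := by
  have h := γ.det_ne_zero
  rw [Matrix.det_fin_two, h10, mul_zero, sub_zero] at h
  have h11 : (γ 1 1 : ℂ) ≠ 0 := by exact_mod_cast right_ne_zero_of_mul h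
  simp only [mob, num, denom, h10]
  push_cast
  simp only [zero_mul, zero_add]
  field_simp
  ring

lemma ratio_pos {γ : GL (Fin 2) ℝ} (hγ : 0 < γ.det.val) (h10 : γ 1 0 = 0) :
    0 < γ 0 0 / γ 1 1 := by
  rw [Matrix.GeneralLinearGroup.val_det_apply, Matrix.det_fin_two, h10, mul_zero, sub_zero] at hγ
  rcases mul_pos_iff.1 hγ with ⟨h1, h2⟩ | ⟨h1, h2⟩
  · exact div_pos h1 h2
  · exact div_pos_of_neg_of_neg h1 h2

/-- **`prim` and upper triangular matrices.** -/
theorem prim_slash {n : ℕ} {g h : ℂ → ℂ} (hg : Dec g) (hdh : Dec h) (γ : GL (Fin 2) ℝ)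
    (hγ : 0 < γ.det.val) (h10 : γ 1 0 = 0)
    (hh : ∀ z : ℂ, 0 < z.im → h z = (γ.det.val : ℂ) ^ (n + 1) * g (mob γ z) / denom γ z ^ (n + 2))
    {z : ℂ} (hz : 0 < z.im) : prim n h z = act n γ (prim n g (mob γ z)) := by
  refine (hdh.isPrim n).eq_of_tendsto ((hg.isPrim n).slash γ hγ hh) 0 (fun j => ?_) hz
  have h1 : Tendsto (fun t : ℝ => (act n γ (prim n g (mob γ (0 + t * I)))).coeff j) atTop
      (𝓝 (∑ i ∈ range (n + 1),
        slR n ((γ : Matrix (Fin 2) (Fin 2) ℝ).map Complex.ofRealHom) j i * 0)) := by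
    simp only [coeff_act]
    refine tendsto_finsetSum _ fun i _ => Tendsto.const_mul _ ?_
    simp only [mob_vert h10]
    have h3 : Tendsto (fun t : ℝ => γ 0 0 / γ 1 1 * t) atTop atTop :=
      tendsto_id.const_mul_atTop (ratio_pos hγ h10)
    exact (hg.tendsto_prim n i (mob γ 0)).comp h3
  have h2 := (hdh.tendsto_prim n j 0).sub h1
  simpa using h2

end Pool.Agent.Gouv.ES
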