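import Pool.Agent.Work.MP_d3517d_nt.ES.Defs
import Pool.Agent.Work.MP_d3517d_nt.ES.Prim

/-!
# Nice functions and cusp forms (MP_d3517d_nt, ES)

Cusp forms of arithmetic groups are nice (`nice_of_cuspForm`); the nice functions are stable under
sums, multiples and the slash action of `GL₂⁺(ℚ)`; a nice function is in the class `Dec`.
-/

open Filter Topology UpperHalfPlane Asymptotics
open scoped MatrixGroups ModularForm Manifold Pointwise

noncomputable section

namespace Gouvea.ES

open Pool.Agent.Gouv.ES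

variable {k : ℤ} {f g : ℍ → ℂ}

/-- the exponential decay at `i∞`. -/
def ExpDec (f : ℍ → ℂ) : Prop :=
  ∃ c > 0, f =O[atImInfty] fun τ => Real.exp (-c * τ.im)

lemma ExpDec.add (hf : ExpDec f) (hg : ExpDec g) : ExpDec (f + g) := by
  obtain ⟨c, hc, h1⟩ := hf
  obtain ⟨d, hd, h2⟩ := hg
  have key : ∀ {e : ℝ}, min c d ≤ e → (fun τ : ℍ => Real.exp (-e * τ.im)) =O[atImInfty]
      fun τ => Real.exp (-(min c d) * τ.im) := by
    intro e he
    refine IsBigO.of_bound 1 (Eventually.of_forall fun τ => ?_)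
    rw [Real.norm_of_nonneg (Real.exp_pos _).le, Real.norm_of_nonneg (Real.exp_pos _).le, one_mul]
    apply Real.exp_le_exp.2
    nlinarith [τ.im_pos]
  exact ⟨min c d, lt_min hc hd, (h1.trans (key (min_le_left _ _))).add
    (h2.trans (key (min_le_right _ _)))⟩

lemma ExpDec.const_smul (hf : ExpDec f) (c : ℂ) : ExpDec (c • f) := by
  obtain ⟨a, ha, h1⟩ := hf
  exact ⟨a, ha, h1.const_smul_left c⟩

lemma ExpDec.zero : ExpDec 0 := ⟨1, one_pos, isBigO_zero _ _⟩

/-- a holomorphic function with exponential decay at `i∞` is in the class `Dec`. -/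
theorem ExpDec.dec (hf : ExpDec f) (hol : MDiff f) : Dec (fun z => f (ofComplex z)) where
  diff := by
    have := UpperHalfPlane.mdifferentiable_iff.1 hol
    exact this
  dec := fun A => by
    obtain ⟨c, hc, h1⟩ := hf
    obtain ⟨C, hC⟩ := h1.bound
    rw [atImInfty, eventually_comap] at hC
    obtain ⟨B, hB⟩ := eventually_atTop.1 hC
    have hcont : ContinuousOn (fun z => f (ofComplex z)) HP :=
      (UpperHalfPlane.mdifferentiable_iff.1 hol).continuousOn
    have hK : IsCompact (Set.uIcc (-|A|) |A| ×ℂ Set.uIcc 1 (max B 1)) :=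
      isCompact_uIcc.reProdIm isCompact_uIcc
    have hsub : (Set.uIcc (-|A|) |A| ×ℂ Set.uIcc 1 (max B 1)) ⊆ HP := by
      rintro z ⟨-, hz⟩
      have : z.im ∈ Set.uIcc 1 (max B 1) := hz
      rw [Set.uIcc_of_le (le_max_right _ _)] at this
      exact one_pos.trans_le this.1
    obtain ⟨D, hD⟩ := hK.exists_bound_of_continuousOn (hcont.mono hsub)
    refine ⟨max (max C 0) (max D 0 * Real.exp (c * max B 1)), c, hc, fun z hz hz' => ?_⟩
    have hexp := Real.exp_pos (-c * z.im)
    rcases le_total B z.im with h1 | h1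
    · have hz0 : 0 < z.im := one_pos.trans_le hz'
      have h2 := hB z.im h1 (ofComplex z) (by rw [ofComplex_apply_of_im_pos hz0]; rfl)
      rw [ofComplex_apply_of_im_pos hz0, Real.norm_of_nonneg (Real.exp_pos _).le] at h2
      rw [ofComplex_apply_of_im_pos hz0]
      refine h2.trans ?_
      change C * Real.exp (-c * z.im) ≤ _
      refine mul_le_mul_of_nonneg_right ?_ hexp.le
      exact (le_max_left _ _).trans (le_max_left _ _)
    · have hzK : z ∈ (Set.uIcc (-|A|) |A| ×ℂ Set.uIcc 1 (max B 1)) := by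
        refine ⟨?_, ?_⟩
        · change z.re ∈ Set.uIcc (-|A|) |A|
          rw [Set.uIcc_of_le (by linarith [abs_nonneg A] : -|A| ≤ |A|)]
          have := abs_le.1 (hz.trans (le_abs_self A))
          exact ⟨this.1, this.2⟩
        · change z.im ∈ Set.uIcc 1 (max B 1)
          rw [Set.uIcc_of_le (le_max_right _ _)]
          exact ⟨hz', h1.trans (le_max_left _ _)⟩
      calc ‖f (ofComplex z)‖ ≤ max D 0 := (hD z hzK).trans (le_max_left _ _)
        _ = max D 0 * Real.exp (c * z.im) * Real.exp (-c * z.im) := by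
            rw [mul_assoc, ← Real.exp_add]; simp
        _ ≤ max D 0 * Real.exp (c * max B 1) * Real.exp (-c * z.im) := by
            gcongr
            exact h1.trans (le_max_left _ _)
        _ ≤ _ := by
            gcongr
            exact le_max_right _ _

/-! ### `GL₂(ℚ)` -/

lemma toR_det (g : GQ) : ((toR g).det.val : ℝ) = ((g.det.val : ℚ) : ℝ) := by
  simp [toR, Matrix.GeneralLinearGroup.val_det_apply, Matrix.det_fin_two]

lemma toR_det_pos {g : GQ} (hg : 0 < g.det.val) : 0 < (toR g).det.val := by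
  rw [toR_det]
  exact_mod_cast hg

lemma toR_apply (g : GQ) (i j : Fin 2) : (toR g) i j = ((g i j : ℚ) : ℝ) := rfl

lemma toR_mapGL (g : SL(2, ℤ)) : toR (Matrix.SpecialLinearGroup.mapGL ℚ g) =
    Matrix.SpecialLinearGroup.mapGL ℝ g := by
  ext i j
  rfl

lemma detQ_mul_pos {a b : GQ} (ha : 0 < a.det.val) (hb : 0 < b.det.val) :
    0 < (a * b).det.val := by
  rw [map_mul, Units.val_mul]
  exact mul_pos ha hb

lemma detQ_inv_pos {a : GQ} (ha : 0 < a.det.val) : 0 < (a⁻¹).det.val := by
  rw [map_inv, Units.val_inv_eq_inv_val]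
  exact inv_pos.2 ha

lemma detQ_mapGL (g : SL(2, ℤ)) : 0 < (Matrix.SpecialLinearGroup.mapGL ℚ g : GQ).det.val := by
  rw [Matrix.SpecialLinearGroup.det_mapGL]
  exact one_pos

/-- `act` by a rational matrix is `slashM`. -/
lemma act_toR (n : ℕ) (g : GQ) (P : Polynomial ℂ) :
    act n (toR g) P = slashM n (matOf ℂ g) P := by
  rw [act_def]
  congr 2

/-! ### Nice functions -/

namespace Nice

lemma expDec (hf : Nice k f) {a : GQ} (ha : 0 < a.det.val) : ExpDec (f ∣[k] toR a) := hf.decay a ha

lemma zero (k : ℤ) : Nice k 0 where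
  holo := mdifferentiable_const
  decay := fun a _ => by
    rw [SlashAction.zero_slash]
    exact ExpDec.zero

lemma add (hf : Nice k f) (hg : Nice k g) : Nice k (f + g) where
  holo := hf.holo.add hg.holo
  decay := fun a ha => by
    rw [SlashAction.add_slash]
    exact (hf.expDec ha).add (hg.expDec ha)

lemma smul_slash_pos {γ : GL (Fin 2) ℝ} (hγ : 0 < γ.det.val) (c : ℂ) (f : ℍ → ℂ) :
    (c • f) ∣[k] γ = c • f ∣[k] γ := by
  rw [ModularForm.smul_slash]
  congr 1
  simp only [Matrix.GeneralLinearGroup.val_det_apply] at hγ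
  simp [σ, hγ]

lemma smul (hf : Nice k f) (c : ℂ) : Nice k (c • f) where
  holo := hf.holo.const_smul c
  decay := fun a ha => by
    rw [smul_slash_pos (toR_det_pos ha)]
    exact (hf.expDec ha).const_smul c

lemma neg (hf : Nice k f) : Nice k (-f) := by
  have h : -f = (-1 : ℂ) • f := by
    ext z
    simp
  rw [h]
  exact hf.smul (-1)

lemma sub (hf : Nice k f) (hg : Nice k g) : Nice k (f - g) := by
  rw [sub_eq_add_neg]
  exact hf.add hg.neg

lemma sum {ι : Type*} (s : Finset ι) {F : ι → ℍ → ℂ} (hF : ∀ i ∈ s, Nice k (F i)) :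
    Nice k (∑ i ∈ s, F i) := by
  classical
  induction s using Finset.induction_on with
  | empty => simpa using zero k
  | insert i s hi ih =>
    rw [Finset.sum_insert hi]
    exact (hF i (Finset.mem_insert_self _ _)).add
      (ih fun j hj => hF j (Finset.mem_insert_of_mem hj))

lemma slash (hf : Nice k f) {a : GQ} (ha : 0 < a.det.val) : Nice k (f ∣[k] toR a) where
  holo := hf.holo.slash k (toR a)
  decay := fun b hb => by
    rw [← SlashAction.slash_mul, ← map_mul]
    exact hf.decay _ (detQ_mul_pos ha hb)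

lemma dec (hf : Nice k f) : Dec (fun z => f (ofComplex z)) := by
  have h := hf.expDec (a := 1) (by simp)
  rw [map_one, SlashAction.slash_one] at h
  exact h.dec hf.holo

lemma dec_slash (hf : Nice k f) {a : GQ} (ha : 0 < a.det.val) :
    Dec (fun z => (f ∣[k] toR a) (ofComplex z)) := (hf.slash ha).dec

end Nice

/-- **cusp forms are nice.** -/
theorem nice_of_cuspForm {Γ : Subgroup (GL (Fin 2) ℝ)} [Γ.IsArithmetic] {F : Type*}
    [FunLike F ℍ ℂ] [CuspFormClass F Γ k] (f : F) : Nice k f where
  holo := ModularFormClass.holo f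
  decay := fun a ha => by
    have h1 : (ConjAct.toConjAct (toR a)⁻¹ • Γ).IsArithmetic := by
      have := Subgroup.IsArithmetic.conj Γ a⁻¹
      rw [map_inv] at this
      exact this
    exact ModularFormClass.exp_decay_atImInfty' (CuspForm.translate f (toR a))
      (CuspFormClass.zero_at_infty (CuspForm.translate f (toR a)))

/-- the slash action in the coordinate of `ℂ`. -/
lemma slash_ofComplex (n : ℕ) (f : ℍ → ℂ) {γ : GL (Fin 2) ℝ} (hγ : 0 < γ.det.val) {z : ℂ}
    (hz : 0 < z.im) : (f ∣[((n + 2 : ℕ) : ℤ)] γ) (ofComplex z) =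
      (γ.det.val : ℂ) ^ (n + 1) * f (ofComplex (mob γ z)) / denom γ z ^ (n + 2) := by
  rw [ModularForm.slash_apply]
  have h1 : γ • ofComplex z = ofComplex (mob γ z) := by
    apply UpperHalfPlane.ext
    rw [coe_smul_of_det_pos hγ, ofComplex_apply_of_im_pos hz,
      ofComplex_apply_of_im_pos (mob_im_pos hγ hz)]
    rfl
  have h2 : σ γ = ContinuousAlgEquiv.refl ℝ ℂ := by
    simp only [Matrix.GeneralLinearGroup.val_det_apply] at hγ
    simp [σ, hγ]
  rw [h1, h2, abs_of_pos hγ, ofComplex_apply_of_im_pos hz]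
  have h3 : (((n + 2 : ℕ) : ℤ) - 1) = ((n + 1 : ℕ) : ℤ) := by push_cast; ring
  rw [h3, zpow_natCast, zpow_neg, zpow_natCast]
  simp only [ContinuousAlgEquiv.refl_apply]
  rw [div_eq_mul_inv, mul_comm (f _)]

end Gouvea.ES
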