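import Pool.Agent.Work.MP_d3517d_nt.Stmt
import Pool.Agent.Work.MP_d3517d_nt.Slash

/-!
# Definitions of the cell ES (MP_d3517d_nt): periods of cusp forms and modular symbols

* cusps: `OnePoint ℚ` with Mathlib's action of `GL₂(ℚ)`;
* polynomials: `slashM n M f = (c X + d)^n f((a X + b)/(c X + d))` (file `Slash`);
* cusp forms: `Cusp N k`, `Tl`, `coef` (file `Stmt`).
-/

open Filter Topology UpperHalfPlane CongruenceSubgroup Polynomial
open scoped MatrixGroups ModularForm ComplexConjugate Manifold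

noncomputable section

namespace Gouvea.ES

/-- `GL₂(ℚ)`. -/
abbrev GQ := GL (Fin 2) ℚ

/-- `GL₂(ℚ) → GL₂(ℝ)`. -/
def toR : GQ →* GL (Fin 2) ℝ := Matrix.GeneralLinearGroup.map (algebraMap ℚ ℝ)

/-- the matrix of `g` with entries in a field of characteristic `0`. -/
def matOf (A : Type*) [Field A] [CharZero A] (g : GQ) : Matrix (Fin 2) (Fin 2) A :=
  (g : Matrix (Fin 2) (Fin 2) ℚ).map (algebraMap ℚ A)

/-- the rational matrix with rows `(a, b)`, `(0, d)`. -/
def triQ (a b d : ℚ) (h : a * d ≠ 0) : GQ :=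
  Matrix.GeneralLinearGroup.mkOfDetNeZero !![a, b; 0, d] (by simpa [Matrix.det_fin_two] using h)

/-- `(l 0; 0 1)` -/
def repV (l : ℕ) [NeZero l] : GQ := triQ l 0 1 (by simp [NeZero.ne l])

/-- `(1 b; 0 l)` -/
def repU (l : ℕ) [NeZero l] (b : ℤ) : GQ := triQ 1 b l (by simp [NeZero.ne l])

/-- `diag(-1, 1)` -/
def eps : GQ := triQ (-1) 0 1 (by simp)

/-- The Hecke operator `U_l` (`l` a prime divisor of the level):
`U_l f = Σ_{0 ≤ b < l} f | (1 b; 0 l)`. -/
def Ul (k l : ℕ) [NeZero l] (f : ℍ → ℂ) : ℍ → ℂ :=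
  ∑ b ∈ Finset.range l, f ∣[(k : ℤ)] tri 1 b l (by simp [NeZero.ne l])

/-- `f(l z)` (without any factor). -/
def Vl (l : ℕ) [NeZero l] (f : ℍ → ℂ) : ℍ → ℂ := fun z =>
  f (toR (repV l) • z)

/-- holomorphic functions on `ℍ` all of whose translates under `GL₂⁺(ℚ)` decay exponentially
at `i∞`: the cusp forms of all levels are such functions. -/
structure Nice (k : ℤ) (f : ℍ → ℂ) : Prop where
  holo : MDiff f
  decay : ∀ g : GQ, 0 < g.det.val → ∃ c > 0,
    (f ∣[k] toR g) =O[atImInfty] fun τ => Real.exp (-c * τ.im)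

end Gouvea.ES
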