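import Mathlib

set_option autoImplicit false

/-! # The form `Δ(Nz)` and its stabilizer -/

namespace Gouvea.ES

open UpperHalfPlane ModularForm Matrix Filter MatrixGroups
open Matrix.SpecialLinearGroup (mapGL)
open scoped Topology Real

/-- the matrix `diag(N, 1)` -/
noncomputable def dN (N : ℕ) [NeZero N] : GL (Fin 2) ℝ :=
  GeneralLinearGroup.mkOfDetNeZero !![(N : ℝ), 0; 0, 1] (by simp [NeZero.ne N])

@[simp] theorem dN_00 (N : ℕ) [NeZero N] : dN N 0 0 = N := rfl
@[simp] theorem dN_01 (N : ℕ) [NeZero N] : dN N 0 1 = 0 := rfl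
@[simp] theorem dN_10 (N : ℕ) [NeZero N] : dN N 1 0 = 0 := rfl
@[simp] theorem dN_11 (N : ℕ) [NeZero N] : dN N 1 1 = 1 := rfl

theorem det_dN (N : ℕ) [NeZero N] : (dN N).det.val = N := by
  simp [dN, Matrix.det_fin_two]

theorem disc_slash_SL (γ : SL(2, ℤ)) :
    ModularForm.discriminant ∣[(12 : ℤ)] γ = ModularForm.discriminant :=
  SlashInvariantForm.slash_action_generators_SL2Z discriminant_S_invariant discriminant_T_invariant γ

theorem norm_disc (z : ℍ) : ‖ModularForm.discriminant z‖ =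
    Real.exp (-2 * π * z.im) * ‖∏' n : ℕ, (1 - eta_q n z) ^ 24‖ := by
  rw [discriminant_eq_q_prod, norm_mul]
  congr 1
  simp [Function.Periodic.qParam, Complex.norm_exp]

/-- the growth at `i ∞` of the translates of `Δ` by upper triangular matrices -/
theorem tendsto_norm_slash {g : GL (Fin 2) ℝ} (hg : g 1 0 = 0) :
    Tendsto (fun z : ℍ => ‖(ModularForm.discriminant ∣[(12 : ℤ)] g) z‖ *
      Real.exp (2 * π * (|g.det.val| / (g 1 1) ^ 2) * z.im)) atImInfty
      (𝓝 (|g.det.val| ^ (11 : ℤ) * |g 1 1| ^ (-12 : ℤ))) := by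
  have h1 := (tendsto_atImInfty_tprod_one_sub_eta_q_pow.comp
    (tendsto_smul_atImInfty hg)).norm
  rw [norm_one] at h1
  have h2 := h1.const_mul (|g.det.val| ^ (11 : ℤ) * |g 1 1| ^ (-12 : ℤ))
  rw [mul_one] at h2
  refine h2.congr fun z => ?_
  have hd : denom g z = (g 1 1 : ℂ) := by simp [denom, hg]
  have him : (g • z).im = |g.det.val| / (g 1 1) ^ 2 * z.im := by
    rw [UpperHalfPlane.im_smul_eq_div_normSq, hd, Complex.normSq_ofReal]
    ring
  rw [slash_apply, norm_mul, norm_mul, norm_σ, norm_disc, hd, him]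
  have h3 : ‖((|g.det.val| : ℝ) : ℂ) ^ ((12 : ℤ) - 1)‖ = |g.det.val| ^ (11 : ℤ) := by
    rw [norm_zpow, Complex.norm_real, Real.norm_eq_abs, abs_abs]
    norm_num
  have h4 : ‖((g 1 1 : ℝ) : ℂ) ^ (-(12 : ℤ))‖ = |g 1 1| ^ (-12 : ℤ) := by
    rw [norm_zpow, Complex.norm_real, Real.norm_eq_abs]
  rw [h3, h4]
  have h5 : Real.exp (-2 * π * (|g.det.val| / (g 1 1) ^ 2 * z.im)) *
      Real.exp (2 * π * (|g.det.val| / (g 1 1) ^ 2) * z.im) = 1 := by
    rw [← Real.exp_add, ← Real.exp_zero]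
    congr 1
    ring
  simp only [Function.comp_apply]
  linear_combination (-(|g.det.val| ^ (11 : ℤ) * |g 1 1| ^ (-12 : ℤ) *
    ‖∏' n : ℕ, (1 - eta_q n ↑(g • z)) ^ 24‖)) * h5

/-- the exponential type is determined by the function -/
theorem rate_le {g g' : GL (Fin 2) ℝ} (hg : g 1 0 = 0) (hg' : g' 1 0 = 0)
    (h : (ModularForm.discriminant ∣[(12 : ℤ)] g) = ModularForm.discriminant ∣[(12 : ℤ)] g') :
    |g'.det.val| / (g' 1 1) ^ 2 ≤ |g.det.val| / (g 1 1) ^ 2 := by
  by_contra hlt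
  rw [not_le] at hlt
  have h1 := tendsto_norm_slash hg
  have h2 := tendsto_norm_slash hg'
  rw [← h] at h2
  set r := |g.det.val| / (g 1 1) ^ 2
  set r' := |g'.det.val| / (g' 1 1) ^ 2
  have h11 : g 1 1 ≠ 0 := by
    intro h0
    have := g.det.ne_zero
    rw [Matrix.GeneralLinearGroup.val_det_apply, Matrix.det_fin_two] at this
    apply this
    rw [hg, h0]; ring
  have hc : 0 < |g.det.val| ^ (11 : ℤ) * |g 1 1| ^ (-12 : ℤ) :=
    mul_pos (zpow_pos (abs_pos.2 g.det.ne_zero) _) (zpow_pos (abs_pos.2 h11) _)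
  have h3 : Tendsto (fun z : ℍ => Real.exp (2 * π * (r' - r) * z.im)) atImInfty atTop := by
    refine Real.tendsto_exp_atTop.comp ?_
    exact (tendsto_comap (f := UpperHalfPlane.im) (x := atTop)).const_mul_atTop
      (by have := Real.pi_pos; have : 0 < r' - r := sub_pos.2 hlt; positivity)
  have h4 := Filter.Tendsto.pos_mul_atTop hc h1 h3
  refine not_tendsto_nhds_of_tendsto_atTop h4 _ (h2.congr fun z => ?_)
  rw [mul_assoc (‖(ModularForm.discriminant ∣[(12 : ℤ)] g) z‖), ← Real.exp_add]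
  congr 2
  ring

theorem mapGL_apply' (γ : SL(2, ℤ)) (i j : Fin 2) : (mapGL ℝ γ) i j = ((γ i j : ℤ) : ℝ) := by
  simp

/-- the stabilizer of `Δ(Nz)` is contained in `Γ₀(N)` -/
theorem dvd_of_slash (N : ℕ) [NeZero N] (γ : SL(2, ℤ))
    (h : (ModularForm.discriminant ∣[(12 : ℤ)] dN N) ∣[(12 : ℤ)] γ =
      ModularForm.discriminant ∣[(12 : ℤ)] dN N) : (N : ℤ) ∣ γ 1 0 := by
  have hN : (N : ℤ) ≠ 0 := by exact_mod_cast NeZero.ne N
  set a := γ 0 0 with ha
  set b := γ 0 1 with hb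
  set c := γ 1 0 with hc
  set d := γ 1 1 with hd
  have hdet : a * d - b * c = 1 := by
    have := γ.det_coe
    rw [Matrix.det_fin_two] at this
    exact this
  have he0 : 0 < Int.gcd (N * a) c := by
    apply Nat.pos_of_ne_zero
    intro h0
    rw [Int.gcd_eq_zero_iff] at h0
    have ha0 : a = 0 := (mul_eq_zero.1 h0.1).resolve_left hN
    rw [ha0, h0.2] at hdet
    simp at hdet
  obtain ⟨m, hm⟩ := Int.gcd_dvd_left (a := (N : ℤ) * a) (b := c)
  obtain ⟨c', hc'⟩ := Int.gcd_dvd_right (a := (N : ℤ) * a) (b := c)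
  set e : ℤ := (Int.gcd (N * a) c : ℤ) with hedef
  have he : 0 < e := by rw [hedef]; exact_mod_cast he0
  have hbez : e = N * a * Int.gcdA (N * a) c + c * Int.gcdB (N * a) c :=
    Int.gcd_eq_gcd_ab _ _
  set x := Int.gcdA (N * a) c
  set y := Int.gcdB (N * a) c
  have hxy : x * m + y * c' = 1 := by
    have : e * (x * m + y * c') = e * 1 := by
      rw [mul_one]
      nth_rewrite 2 [hbez]
      rw [hm, hc']
      ring
    exact mul_left_cancel₀ he.ne' this
  let α : SL(2, ℤ) := ⟨!![x, y; -c', m], by rw [Matrix.det_fin_two_of]; linarith⟩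
  have hα : ∀ i j, (mapGL ℝ α) i j = ((!![x, y; -c', m] i j : ℤ) : ℝ) := fun i j =>
    mapGL_apply' α i j
  set g : GL (Fin 2) ℝ := mapGL ℝ α * (dN N * mapGL ℝ γ) with hgdef
  have hslash : ModularForm.discriminant ∣[(12 : ℤ)] g =
      ModularForm.discriminant ∣[(12 : ℤ)] dN N := by
    rw [hgdef, SlashAction.slash_mul, SlashAction.slash_mul]
    have h1 : ModularForm.discriminant ∣[(12 : ℤ)] (mapGL ℝ α) = ModularForm.discriminant :=
      disc_slash_SL α
    rw [h1]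
    exact h
  have hmR : (N : ℝ) * a = e * m := by exact_mod_cast hm
  have hcR : (c : ℝ) = e * c' := by exact_mod_cast hc'
  have hdR : (a : ℝ) * d - b * c = 1 := by exact_mod_cast hdet
  have heR : (0 : ℝ) < e := by exact_mod_cast he
  have hNR : (0 : ℝ) < N := by exact_mod_cast Nat.pos_of_ne_zero (NeZero.ne N)
  have hg10 : g 1 0 = 0 := by
    rw [hgdef]
    simp only [Units.val_mul, Matrix.mul_apply, Fin.sum_univ_two, dN_00, dN_01, dN_10, dN_11, hα,
      mapGL_apply']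
    simp only [of_apply, cons_val', cons_val_zero, cons_val_one, ← ha, ← hc]
    push_cast
    have : (e : ℝ) * (-c' * (N * a + 0 * c) + m * (0 * a + 1 * c)) = 0 := by
      linear_combination (-(c : ℝ)) * hmR + ((N : ℝ) * a) * hcR
    rcases mul_eq_zero.1 this with h | h
    · exact absurd h heR.ne'
    · simpa using h
  have hg11 : (e : ℝ) * g 1 1 = N := by
    rw [hgdef]
    simp only [Units.val_mul, Matrix.mul_apply, Fin.sum_univ_two, dN_00, dN_01, dN_10, dN_11, hα,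
      mapGL_apply']
    simp only [of_apply, cons_val', cons_val_zero, cons_val_one, ← hb, ← hd]
    push_cast
    linear_combination (-(d : ℝ)) * hmR + ((N : ℝ) * b) * hcR + (N : ℝ) * hdR
  have hgdet : g.det.val = N := by
    have h1 : ∀ δ : SL(2, ℤ), (mapGL ℝ δ).det = 1 := fun δ => by ext; simp
    rw [hgdef, map_mul, map_mul, h1, h1, one_mul, mul_one, det_dN]
  have h1 := rate_le (g := g) (g' := dN N) hg10 (dN_10 N) hslash
  rw [hgdet, det_dN, dN_11, abs_of_pos hNR] at h1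
  have hg11' : g 1 1 = N / e := by rw [← hg11]; field_simp
  rw [hg11'] at h1
  have h2 : (N : ℝ) ≤ e := by
    have h3 : (N : ℝ) / (N / e) ^ 2 = e ^ 2 / N := by field_simp
    rw [h3, one_pow, div_one, le_div_iff₀ hNR] at h1
    nlinarith
  have h3 : (N : ℤ) ≤ e := by exact_mod_cast h2
  -- `e` divides `N`
  have h4 : e ∣ N := by
    have h5 : e ∣ N * (a * d - b * c) := by
      have h6 : e ∣ N * a := Int.gcd_dvd_left _ _
      have h7 : e ∣ c := Int.gcd_dvd_right _ _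
      have : (N : ℤ) * (a * d - b * c) = (N * a) * d - c * (N * b) := by ring
      rw [this]
      exact dvd_sub (h6.mul_right _) (h7.mul_right _)
    rwa [hdet, mul_one] at h5
  have h5 : e = N := le_antisymm (Int.le_of_dvd (by positivity) h4) h3
  rw [← h5]
  exact Int.gcd_dvd_right _ _

/-- `Δ(Nz)` is invariant under `Γ₀(N)` -/
theorem slash_of_dvd (N : ℕ) [NeZero N] (γ : SL(2, ℤ)) (h : (N : ℤ) ∣ γ 1 0) :
    (ModularForm.discriminant ∣[(12 : ℤ)] dN N) ∣[(12 : ℤ)] γ =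
      ModularForm.discriminant ∣[(12 : ℤ)] dN N := by
  obtain ⟨c', hc'⟩ := h
  have hdet : γ 0 0 * γ 1 1 - γ 0 1 * γ 1 0 = 1 := by
    have := γ.det_coe
    rw [Matrix.det_fin_two] at this
    exact this
  let β : SL(2, ℤ) := ⟨!![γ 0 0, N * γ 0 1; c', γ 1 1], by
    rw [Matrix.det_fin_two_of]; rw [hc'] at hdet; linarith⟩
  have b00 : (mapGL ℝ β) 0 0 = ((γ 0 0 : ℤ) : ℝ) := mapGL_apply' β 0 0
  have b01 : (mapGL ℝ β) 0 1 = ((N * γ 0 1 : ℤ) : ℝ) := mapGL_apply' β 0 1
  have b10 : (mapGL ℝ β) 1 0 = ((c' : ℤ) : ℝ) := mapGL_apply' β 1 0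
  have b11 : (mapGL ℝ β) 1 1 = ((γ 1 1 : ℤ) : ℝ) := mapGL_apply' β 1 1
  have hβ : dN N * mapGL ℝ γ = mapGL ℝ β * dN N := by
    apply Units.ext
    rw [Units.val_mul, Units.val_mul]
    have hc : ((γ 1 0 : ℤ) : ℝ) = N * c' := by rw [hc']; push_cast; ring
    ext i j
    rw [Matrix.mul_apply, Matrix.mul_apply, Fin.sum_univ_two, Fin.sum_univ_two]
    fin_cases i <;> fin_cases j <;> simp only [Fin.zero_eta, Fin.mk_one, dN_00, dN_01, dN_10,
      dN_11, b00, b01, b10, b11, mapGL_apply', hc] <;> push_cast <;> ring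
  have h1 : (ModularForm.discriminant ∣[(12 : ℤ)] dN N) ∣[(12 : ℤ)] γ =
      ModularForm.discriminant ∣[(12 : ℤ)] (dN N * mapGL ℝ γ) :=
    (SlashAction.slash_mul (12 : ℤ) (dN N) (mapGL ℝ γ) ModularForm.discriminant).symm
  have h2 : ModularForm.discriminant ∣[(12 : ℤ)] (mapGL ℝ β) = ModularForm.discriminant :=
    disc_slash_SL β
  rw [h1, hβ, SlashAction.slash_mul, h2]

end Gouvea.ES
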