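import Pool.Agent.Work.MP_d3517d_nt.ES.Defs

/-!
# `U_l` lowers the level: if `l ∣ N` then `U_l` maps `S_k(Γ₀(N l))` into `S_k(Γ₀(N))`
-/

open Filter Topology UpperHalfPlane CongruenceSubgroup ConjAct
open Matrix Matrix.SpecialLinearGroup
open scoped MatrixGroups ModularForm Manifold Pointwise

noncomputable section

namespace Gouvea.ES

theorem toR_triQ (a b d : ℚ) (h : a * d ≠ 0) (h' : (a : ℝ) * d ≠ 0) :
    toR (triQ a b d h) = tri a b d h' := by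
  apply Units.ext
  ext i j
  fin_cases i <;> fin_cases j <;> simp [toR, triQ, tri]

/-- A translate of a cusp form for an arithmetic group under a rational matrix vanishes at all
the cusps. -/
theorem isZeroAt_slash {Γ : Subgroup (GL (Fin 2) ℝ)} [Γ.IsArithmetic] {k : ℤ} (f : CuspForm Γ k)
    (g : GQ) {c : OnePoint ℝ} (hc : IsCusp c 𝒮ℒ) : c.IsZeroAt (⇑f ∣[k] toR g) k := by
  have harith : (toConjAct (toR g)⁻¹ • Γ).IsArithmetic := by
    have h := Subgroup.IsArithmetic.conj Γ g⁻¹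
    have e : (g⁻¹).map (Rat.castHom ℝ) = (toR g)⁻¹ := by
      rw [toR, ← map_inv]
      rfl
    rwa [e] at h
  have h1 : IsCusp c (toConjAct (toR g)⁻¹ • Γ) :=
    (Subgroup.IsArithmetic.isCusp_iff_isCusp_SL2Z (𝒢 := toConjAct (toR g)⁻¹ • Γ)).2 hc
  exact (CuspForm.translate f (toR g)).zero_at_cusps' h1

theorem isCusp_of_Gam0 {N : ℕ} [NeZero N] {c : OnePoint ℝ} (hc : IsCusp c (Gam0 N)) :
    IsCusp c 𝒮ℒ :=
  (Subgroup.IsArithmetic.isCusp_iff_isCusp_SL2Z (𝒢 := Gam0 N)).1 hc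

theorem isZeroAt_sum {ι : Type*} (s : Finset ι) {f : ι → ℍ → ℂ} {k : ℤ} {c : OnePoint ℝ}
    (h : ∀ i ∈ s, c.IsZeroAt (f i) k) : c.IsZeroAt (∑ i ∈ s, f i) k := by
  classical
  intro g hg
  rw [SlashAction.sum_slash]
  have := tendsto_finsetSum s (fun i hi => h i hi g hg)
  simpa [IsZeroAtImInfty, ZeroAtFilter, Finset.sum_fn] using this

/-- `f | (1 b; 0 l)`, `b` an integer. -/
def ub (k l : ℕ) [NeZero l] (f : ℍ → ℂ) (b : ℤ) : ℍ → ℂ :=
  f ∣[(k : ℤ)] tri 1 (b : ℝ) l (by simp [NeZero.ne l])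

theorem ub_nat (k l : ℕ) [NeZero l] (f : ℍ → ℂ) (b : ℕ) :
    ub k l f (b : ℤ) = f ∣[(k : ℤ)] tri 1 b l (by simp [NeZero.ne l]) := by
  unfold ub
  simp only [Int.cast_natCast]

theorem Ul_eq (k l : ℕ) [NeZero l] (f : ℍ → ℂ) :
    Ul k l f = ∑ x : ZMod l, ub k l f (x.val : ℤ) := by
  unfold Ul
  refine Finset.sum_nbij' (fun b => (b : ZMod l)) (fun x => x.val) ?_ ?_ ?_ ?_ ?_
  · intro b _
    exact Finset.mem_univ _
  · intro x _
    exact Finset.mem_range.2 (ZMod.val_lt x)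
  · intro b hb
    exact ZMod.val_cast_of_lt (Finset.mem_range.1 hb)
  · intro x _
    exact ZMod.natCast_zmod_val x
  · intro b hb
    rw [ZMod.val_cast_of_lt (Finset.mem_range.1 hb), ub_nat]

/-- The matrix identity `(1 b; 0 l) γ = γ' (1 b'; 0 l)`. -/
theorem ub_slash {N k l : ℕ} [NeZero l] {f : ℍ → ℂ}
    (hf : ∀ γ ∈ Gamma0 (N * l), f ∣[(k : ℤ)] γ = f) {γ : SL(2, ℤ)} (hγ : γ ∈ Gamma0 N) {b b' : ℤ}
    (h : (l : ℤ) ∣ γ 0 1 + b * γ 1 1 - b' * (γ 0 0 + b * γ 1 0)) :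
    (ub k l f b) ∣[(k : ℤ)] γ = ub k l f b' := by
  obtain ⟨e, he⟩ := h
  have hdet : γ 0 0 * γ 1 1 - γ 0 1 * γ 1 0 = 1 := by
    have := γ.det_coe
    rwa [Matrix.det_fin_two] at this
  have hd : (!![γ 0 0 + b * γ 1 0, e; l * γ 1 0, γ 1 1 - b' * γ 1 0] :
      Matrix (Fin 2) (Fin 2) ℤ).det = 1 := by
    rw [Matrix.det_fin_two_of]
    linear_combination hdet + γ 1 0 * he
  set γ' : SL(2, ℤ) := ⟨_, hd⟩ with hγ'
  have hmem : γ' ∈ Gamma0 (N * l) := by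
    rw [Gamma0_mem] at hγ ⊢
    rw [ZMod.intCast_zmod_eq_zero_iff_dvd] at hγ ⊢
    change ((N * l : ℕ) : ℤ) ∣ l * γ 1 0
    rw [Nat.cast_mul, mul_comm]
    exact mul_dvd_mul_left _ hγ
  have hmat : tri 1 (b : ℝ) l (by simp [NeZero.ne l]) * mapGL ℝ γ =
      mapGL ℝ γ' * tri 1 (b' : ℝ) l (by simp [NeZero.ne l]) := by
    apply Units.ext
    have he' : ((γ 0 1 : ℤ) : ℝ) + b * (γ 1 1 : ℤ) - b' * ((γ 0 0 : ℤ) + b * (γ 1 0 : ℤ)) =
        l * e := by exact_mod_cast he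
    have e1 : (tri 1 (b : ℝ) l (by simp [NeZero.ne l]) * mapGL ℝ γ).val =
        !![1, (b : ℝ); 0, l] * γ.val.map (Int.cast : ℤ → ℝ) := rfl
    have e2 : (mapGL ℝ γ' * tri 1 (b' : ℝ) l (by simp [NeZero.ne l])).val =
        (!![γ 0 0 + b * γ 1 0, e; l * γ 1 0, γ 1 1 - b' * γ 1 0] :
          Matrix (Fin 2) (Fin 2) ℤ).map (Int.cast : ℤ → ℝ) * !![1, (b' : ℝ); 0, l] := rfl
    rw [e1, e2]
    ext i j
    fin_cases i <;> fin_cases j <;> simp [Matrix.mul_apply, Fin.sum_univ_two]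
    · linear_combination he'
    · ring
  have h1 : f ∣[(k : ℤ)] (mapGL ℝ γ' : GL (Fin 2) ℝ) = f := hf γ' hmem
  change (f ∣[(k : ℤ)] tri 1 (b : ℝ) l _) ∣[(k : ℤ)] (mapGL ℝ γ : GL (Fin 2) ℝ) =
    f ∣[(k : ℤ)] tri 1 (b' : ℝ) l _
  rw [← SlashAction.slash_mul, hmat, SlashAction.slash_mul, h1]

/-- If `l ∣ N` and `f` has level `N l` then `U_l f` is invariant under `Γ₀(N)`. -/
theorem Ul_slash {N k l : ℕ} [NeZero l] (hl : l ∣ N) {f : ℍ → ℂ}
    (hf : ∀ γ ∈ Gamma0 (N * l), f ∣[(k : ℤ)] γ = f) {γ : SL(2, ℤ)} (hγ : γ ∈ Gamma0 N) :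
    (Ul k l f) ∣[(k : ℤ)] γ = Ul k l f := by
  have hdet : γ 0 0 * γ 1 1 - γ 0 1 * γ 1 0 = 1 := by
    have := γ.det_coe
    rwa [Matrix.det_fin_two] at this
  have hc : ((γ 1 0 : ℤ) : ZMod l) = 0 := by
    rw [Gamma0_mem, ZMod.intCast_zmod_eq_zero_iff_dvd] at hγ
    rw [ZMod.intCast_zmod_eq_zero_iff_dvd]
    exact (Int.natCast_dvd_natCast.2 hl).trans hγ
  have had : ((γ 0 0 : ℤ) : ZMod l) * ((γ 1 1 : ℤ) : ZMod l) = 1 := by
    have := congrArg (Int.cast : ℤ → ZMod l) hdet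
    push_cast at this
    rw [hc, mul_zero, sub_zero] at this
    exact this
  have hu : IsUnit ((γ 1 1 : ℤ) : ZMod l) := IsUnit.of_mul_eq_one_right _ had
  obtain ⟨u, hu⟩ := hu
  let σ : ZMod l ≃ ZMod l :=
    (Units.mulLeft (u ^ 2)).trans (Equiv.addLeft (((γ 1 1 : ℤ) : ZMod l) * ((γ 0 1 : ℤ) : ZMod l)))
  rw [Ul_eq, SlashAction.sum_slash]
  rw [← Equiv.sum_comp σ (fun x => ub k l f (x.val : ℤ))]
  refine Finset.sum_congr rfl fun x _ => ?_
  apply ub_slash hf hγ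
  rw [← ZMod.intCast_zmod_eq_zero_iff_dvd]
  push_cast
  rw [ZMod.natCast_zmod_val, ZMod.natCast_zmod_val, hc]
  change _ - (((γ 1 1 : ℤ) : ZMod l) * ((γ 0 1 : ℤ) : ZMod l) + ((u ^ 2 : (ZMod l)ˣ) : ZMod l) * x) *
    _ = 0
  rw [Units.val_pow_eq_pow_val, hu]
  linear_combination (-((γ 0 1 : ℤ) : ZMod l) - ((γ 1 1 : ℤ) : ZMod l) * x) * had

theorem tri_eq_toR (l : ℕ) [NeZero l] (b : ℕ) :
    tri 1 (b : ℝ) l (by simp [NeZero.ne l]) = toR (repU l b) := by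
  apply Units.ext
  ext i j
  fin_cases i <;> fin_cases j <;> simp [toR, repU, triQ, tri]

/-- `U_l` as a linear map from level `N l` to level `N`, if `l ∣ N`. -/
def UlDown (N k l : ℕ) [NeZero N] [NeZero l] (hl : l ∣ N) : Cusp (N * l) k →ₗ[ℂ] Cusp N k where
  toFun f :=
    { toFun := Ul k l f
      slash_action_eq' := by
        rintro _ ⟨γ, hγ, rfl⟩
        exact Ul_slash hl (fun γ' h' => f.slash_action_eq' _ ⟨γ', h', rfl⟩) hγ
      holo' := by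
        change MDiff (Ul k l f)
        unfold Ul
        exact .sum fun b _ => f.holo'.slash _ _
      zero_at_cusps' := by
        intro c hc
        unfold Ul
        refine isZeroAt_sum _ fun b _ => ?_
        rw [tri_eq_toR]
        exact isZeroAt_slash f _ (isCusp_of_Gam0 hc) }
  map_add' f g := by
    ext z
    change Ul k l (⇑f + ⇑g) z = Ul k l f z + Ul k l g z
    simp [Ul, SlashAction.add_slash, Finset.sum_add_distrib]
  map_smul' a f := by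
    ext z
    change Ul k l (a • ⇑f) z = a * Ul k l f z
    simp only [Ul, Finset.sum_apply, Finset.mul_sum]
    refine Finset.sum_congr rfl fun b _ => ?_
    rw [ModularForm.smul_slash]
    have hpos : 0 < (tri 1 (b : ℝ) l (by simp [NeZero.ne l])).det.val := by
      simp [tri, Matrix.det_fin_two_of, Nat.pos_of_ne_zero (NeZero.ne l)]
    have hσ : UpperHalfPlane.σ (tri 1 (b : ℝ) l (by simp [NeZero.ne l])) =
        ContinuousAlgEquiv.refl ℝ ℂ := if_pos hpos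
    rw [hσ]
    rfl

theorem UlDown_coe (N k l : ℕ) [NeZero N] [NeZero l] (hl : l ∣ N) (f : Cusp (N * l) k) :
    (UlDown N k l hl f : ℍ → ℂ) = Ul k l f := rfl

end Gouvea.ES
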