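import Pool.Agent.Work.MP_d3517d_nt.ES.HeckeOp
import Pool.Agent.Work.MP_d3517d_nt.ES.Desc1

/-!
# Level raising and lowering at a prime `l` not dividing the level `N` (MP_d3517d_nt)

* `incL`, `levL` : `S_k(N) → S_k(N l)`, `f ↦ f` and `f ↦ f | (l 0; 0 1) = l ^ (k - 1) f(l z)`;
* `inc_lev_injective` : `(f, g) ↦ f + g | (l 0; 0 1)` is injective;
* `trL` : the trace-like map `S_k(N l) → S_k(N)`, `f ↦ f | W + U_l f`;
* `Ul_Ul` : `U_l (U_l f) = l ^ (k - 2) f + g + h | (l 0; 0 1)` with `g, h` of level `N`.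
-/

open UpperHalfPlane CongruenceSubgroup Matrix Finset Filter
open OnePoint hiding some
open Matrix.SpecialLinearGroup (mapGL)
open scoped MatrixGroups ModularForm Topology

noncomputable section

namespace Gouvea.ES

section general

variable {Γ₁ Γ₂ : Subgroup (GL (Fin 2) ℝ)} {k : ℤ} {ι : Type} [Fintype ι]

/-- Representatives of right `Γ₁`-cosets, stable under right multiplication by `Γ₂`. -/
structure TrReps (Γ₁ Γ₂ : Subgroup (GL (Fin 2) ℝ)) (α : ι → GL (Fin 2) ℝ) : Prop where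
  det_pos : ∀ i, 0 < (α i).det.val
  stable : ∀ γ ∈ Γ₂, ∀ i, ∃ j, α i * γ * (α j)⁻¹ ∈ Γ₁
  inj : ∀ i j, α i * (α j)⁻¹ ∈ Γ₁ → i = j
  cusp : ∀ i c, IsCusp c Γ₂ → IsCusp (α i • c) Γ₁

lemma TrReps.exists_perm {α : ι → GL (Fin 2) ℝ} (h : TrReps Γ₁ Γ₂ α) {γ : GL (Fin 2) ℝ}
    (hγ : γ ∈ Γ₂) : ∃ π : Equiv.Perm ι, ∀ i, α i * γ * (α (π i))⁻¹ ∈ Γ₁ := by
  choose g hg using h.stable γ hγ
  have hinj : Function.Injective g := by
    intro i j hij
    refine h.inj i j ?_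
    have h1 := Γ₁.mul_mem (hg i) (Γ₁.inv_mem (hg j))
    rw [hij] at h1
    have h2 : α i * γ * (α (g j))⁻¹ * (α j * γ * (α (g j))⁻¹)⁻¹ = α i * (α j)⁻¹ := by group
    rwa [h2] at h1
  exact ⟨Equiv.ofBijective g (Finite.injective_iff_bijective.1 hinj), hg⟩

/-- the map `f ↦ ∑ f ∣[k] α i` from level `Γ₁` to level `Γ₂` -/
def trOp (k : ℤ) {α : ι → GL (Fin 2) ℝ} (h : TrReps Γ₁ Γ₂ α) :
    CuspForm Γ₁ k → CuspForm Γ₂ k := fun f =>
  { toFun := ∑ i, (f : ℍ → ℂ) ∣[k] α i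
    slash_action_eq' := by
      intro γ hγ
      obtain ⟨π, hπ⟩ := h.exists_perm hγ
      rw [SlashAction.sum_slash, ← Equiv.sum_comp π (fun i => (f : ℍ → ℂ) ∣[k] α i)]
      refine sum_congr rfl fun i _ => ?_
      have h1 : α i * γ = α i * γ * (α (π i))⁻¹ * α (π i) := by group
      rw [← SlashAction.slash_mul, h1, SlashAction.slash_mul,
        SlashInvariantFormClass.slash_action_eq f _ (hπ i)]
    holo' := by
      refine MDifferentiable.sum fun i _ => ?_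
      exact (CuspFormClass.holo f).slash k (α i)
    zero_at_cusps' := by
      intro c hc g hg
      show IsZeroAtImInfty ((∑ i, (f : ℍ → ℂ) ∣[k] α i) ∣[k] g)
      rw [IsZeroAtImInfty, Filter.ZeroAtFilter, SlashAction.sum_slash, Finset.sum_fn]
      rw [show (0 : ℂ) = ∑ i : ι, 0 by simp]
      refine tendsto_finsetSum _ fun i _ => ?_
      rw [← SlashAction.slash_mul]
      refine CuspFormClass.zero_at_cusps f (h.cusp i c hc) _ ?_
      rw [mul_smul, hg] }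

@[simp] lemma coe_trOp (k : ℤ) {α : ι → GL (Fin 2) ℝ} (h : TrReps Γ₁ Γ₂ α) (f : CuspForm Γ₁ k) :
    (trOp k h f : ℍ → ℂ) = ∑ i, (f : ℍ → ℂ) ∣[k] α i := rfl

/-- the map `f ↦ ∑ f ∣[k] α i`, as a linear map -/
def trLin [Γ₁.HasDetOne] [Γ₂.HasDetOne] (k : ℤ) {α : ι → GL (Fin 2) ℝ} (h : TrReps Γ₁ Γ₂ α) :
    CuspForm Γ₁ k →ₗ[ℂ] CuspForm Γ₂ k where
  toFun := trOp k h
  map_add' f g := by
    apply DFunLike.coe_injective
    rw [FunLike.coe_add, coe_trOp, coe_trOp, coe_trOp, FunLike.coe_add,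
      ← sum_add_distrib]
    exact sum_congr rfl fun i _ => SlashAction.add_slash _ _ _ _
  map_smul' c f := by
    apply DFunLike.coe_injective
    rw [RingHom.id_apply, FunLike.coe_smul, coe_trOp, coe_trOp, FunLike.coe_smul,
      smul_sum]
    exact sum_congr rfl fun i _ => smul_slash_pos (h.det_pos i) k _ c

@[simp] lemma coe_trLin [Γ₁.HasDetOne] [Γ₂.HasDetOne] (k : ℤ) {α : ι → GL (Fin 2) ℝ}
    (h : TrReps Γ₁ Γ₂ α) (f : CuspForm Γ₁ k) :
    (trLin k h f : ℍ → ℂ) = ∑ i, (f : ℍ → ℂ) ∣[k] α i := rfl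

end general

lemma isCusp_G0_iff {N M : ℕ} [NeZero N] [NeZero M] {c : OnePoint ℝ} :
    IsCusp c (G0 N) ↔ IsCusp c (G0 M) := by
  rw [Subgroup.IsArithmetic.isCusp_iff_isCusp_SL2Z (𝒢 := G0 N),
    Subgroup.IsArithmetic.isCusp_iff_isCusp_SL2Z (𝒢 := G0 M)]

lemma gamma0_dvd {N : ℕ} {γ : SL(2, ℤ)} (hγ : γ ∈ Gamma0 N) : (N : ℤ) ∣ γ.1 1 0 := by
  rw [Gamma0_mem] at hγ
  exact (ZMod.intCast_zmod_eq_zero_iff_dvd _ _).1 hγ

lemma gamma0_of_dvd {N : ℕ} {γ : SL(2, ℤ)} (h : (N : ℤ) ∣ γ.1 1 0) : γ ∈ Gamma0 N := by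
  rw [Gamma0_mem]
  exact (ZMod.intCast_zmod_eq_zero_iff_dvd _ _).2 h

lemma sl_det (γ : SL(2, ℤ)) : γ.1 0 0 * γ.1 1 1 - γ.1 0 1 * γ.1 1 0 = 1 := by
  have := γ.2
  rwa [Matrix.det_fin_two] at this

/-! ### The two degeneracy maps -/

/-- representatives for the inclusion -/
theorem reps_inc {N l : ℕ} [NeZero N] [NeZero l] :
    TrReps (G0 N) (G0 (N * l)) (fun _ : Unit => glR (1 : Matrix (Fin 2) (Fin 2) ℤ) (by simp)) where
  det_pos i := by rw [glR_det]; simp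
  stable γ hγ i := by
    obtain ⟨γ, hγ, rfl⟩ := hγ
    refine ⟨(), glR_mem _ _ γ γ (gamma0_of_dvd ((Dvd.intro _ (by push_cast; rfl)).trans
      (gamma0_dvd hγ))) (by simp)⟩
  inj i j _ := rfl
  cusp i c hc := isCusp_G0_iff.1 (glR_cusp _ _ hc)

/-- representatives for level raising -/
theorem reps_lev {N l : ℕ} [NeZero N] (hl : l.Prime) :
    TrReps (G0 N) (G0 (N * l)) (fun _ : Unit => glR (mV l) (by
      rw [det_mV]; exact_mod_cast hl.ne_zero)) := by
  have : NeZero l := ⟨hl.ne_zero⟩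
  exact {
  det_pos i := by rw [glR_det, det_mV]; exact_mod_cast hl.pos
  stable γ hγ i := by
    obtain ⟨γ, hγ, rfl⟩ := hγ
    obtain ⟨c, hc⟩ := gamma0_dvd hγ
    have hdet := sl_det γ
    refine ⟨(), glR_mem _ _ γ ⟨!![γ.1 0 0, l * γ.1 0 1; N * c, γ.1 1 1], ?_⟩
      (gamma0_of_dvd ⟨c, rfl⟩) ?_⟩
    · rw [Matrix.det_fin_two_of]
      rw [hc] at hdet
      push_cast at hdet
      linear_combination hdet
    · ext i j
      fin_cases i <;> fin_cases j <;>
        simp [mV, Matrix.mul_apply, Fin.sum_univ_two, hc] <;> ring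
  inj i j _ := rfl
  cusp i c hc := isCusp_G0_iff.1 (glR_cusp _ _ hc) }

/-! ### The Atkin-Lehner matrix -/

/-- the matrix `(l x, -y; N l, l)`, where `l x + N y = 1` -/
def mW (N l : ℕ) (x y : ℤ) : Matrix (Fin 2) (Fin 2) ℤ := !![l * x, -y; N * l, l]

lemma det_mW {N l : ℕ} {x y : ℤ} (h : l * x + N * y = 1) : (mW N l x y).det = l := by
  rw [mW, Matrix.det_fin_two_of]
  linear_combination (l : ℤ) * h

lemma det_mW_ne {N l : ℕ} (hl : l.Prime) {x y : ℤ} (h : l * x + N * y = 1) :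
    (mW N l x y).det ≠ 0 := by
  rw [det_mW h]; exact_mod_cast hl.ne_zero

/-- the representatives for the trace -/
def trep (N l : ℕ) (x y : ℤ) : Option (Fin l) → Matrix (Fin 2) (Fin 2) ℤ
  | none => mW N l x y
  | some j => mU l (j : ℕ)

lemma det_trep {N l : ℕ} {x y : ℤ} (h : l * x + N * y = 1) (i : Option (Fin l)) :
    (trep N l x y i).det = l := by
  cases i
  · exact det_mW h
  · exact det_mU l _

lemma det_trep_ne {N l : ℕ} (hl : l.Prime) {x y : ℤ} (h : l * x + N * y = 1)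
    (i : Option (Fin l)) : (trep N l x y i).det ≠ 0 := by
  rw [det_trep h]; exact_mod_cast hl.ne_zero

/-- the key computation -/
lemma trep_class {N l : ℕ} (hl : l.Prime) {x y : ℤ} (h : l * x + N * y = 1) {α β c d : ℤ}
    (hM : α * d - N * β * c = 1) :
    ∃ j, ∃ δ : SL(2, ℤ), δ ∈ Gamma0 (N * l) ∧
      !![α, β; N * l * c, l * d] = δ.1 * trep N l x y j := by
  by_cases hα : (l : ℤ) ∣ α
  · obtain ⟨α', hα'⟩ := hα
    have hd : (!![α - β * N, α' * y + β * x; N * l * (c - d), N * c * y + l * d * x] :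
        Matrix (Fin 2) (Fin 2) ℤ).det = 1 := by
      rw [Matrix.det_fin_two_of]
      have e1 : (α - β * N) * (N * c * y + l * d * x) -
          (α' * y + β * x) * (N * l * (c - d)) =
          (α * d - N * β * c) * (l * x + N * y) := by
        rw [hα']
        ring
      rw [e1, hM, h, one_mul]
    refine ⟨none, ⟨_, hd⟩, gamma0_of_dvd ⟨c - d, by push_cast; rfl⟩, ?_⟩
    change _ = !![α - β * N, α' * y + β * x; N * l * (c - d), N * c * y + l * d * x] *
      mW N l x y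
    rw [mW, Matrix.mul_fin_two, hα']
    ext i j
    fin_cases i <;> fin_cases j
    · change l * α' = (l * α' - β * N) * (l * x) + (α' * y + β * x) * (N * l)
      linear_combination (-(l : ℤ) * α') * h
    · change β = (l * α' - β * N) * (-y) + (α' * y + β * x) * l
      linear_combination (-β) * h
    · change N * l * c = N * l * (c - d) * (l * x) + (N * c * y + l * d * x) * (N * l)
      linear_combination (-(N : ℤ) * l * c) * h
    · change l * d = N * l * (c - d) * (-y) + (N * c * y + l * d * x) * l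
      linear_combination (-(l : ℤ) * d) * h
  · obtain ⟨j, e, he⟩ := exists_fin hl hα β
    have hd : (!![α, e; N * l * c, d - (j : ℕ) * N * c] : Matrix (Fin 2) (Fin 2) ℤ).det = 1 := by
      rw [Matrix.det_fin_two_of]
      linear_combination hM + N * c * he
    refine ⟨some j, ⟨_, hd⟩, gamma0_of_dvd ⟨c, by push_cast; rfl⟩, ?_⟩
    change _ = !![α, e; N * l * c, d - (j : ℕ) * N * c] * mU l (j : ℕ)
    rw [mU, Matrix.mul_fin_two]
    ext i k
    fin_cases i <;> fin_cases k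
    · change α = α * 1 + e * 0
      ring
    · change β = α * (j : ℕ) + e * l
      linear_combination he
    · change N * l * c = N * l * c * 1 + (d - (j : ℕ) * N * c) * 0
      ring
    · change l * d = N * l * c * (j : ℕ) + (d - (j : ℕ) * N * c) * l
      ring

/-- the representatives are inequivalent -/
lemma trep_inj {N l : ℕ} (hl : l.Prime) {x y : ℤ} (h : l * x + N * y = 1)
    {i j : Option (Fin l)} (δ : SL(2, ℤ)) (hδ : trep N l x y i = δ.1 * trep N l x y j) :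
    i = j := by
  have hl1 : ¬ (l : ℤ) ∣ 1 := by
    intro h1
    have := Int.natCast_dvd_natCast.1 (by simpa using h1 : (l : ℤ) ∣ ((1 : ℕ) : ℤ))
    exact hl.one_lt.ne' (Nat.dvd_one.1 this)
  cases i with
  | none =>
    cases j with
    | none => rfl
    | some j =>
      exfalso
      have h00 := congrFun (congrFun hδ 0) 0
      have h01 := congrFun (congrFun hδ 0) 1
      simp only [trep, mW, mU, Matrix.mul_apply, Fin.sum_univ_two, Matrix.of_apply,
        Matrix.cons_val', Matrix.cons_val_zero, Matrix.cons_val_one, Matrix.cons_val_fin_one] at h00 h01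
      apply hl1
      have h1 : (l : ℤ) ∣ y := ⟨-(x * (j : ℕ) + δ.1 0 1), by
        have : δ.1 0 0 = l * x := by linear_combination -h00
        rw [this] at h01
        linear_combination -h01⟩
      rw [← h]
      exact dvd_add (dvd_mul_right _ _) (h1.mul_left _)
  | some i =>
    cases j with
    | none =>
      exfalso
      have h00 := congrFun (congrFun hδ 0) 0
      simp only [trep, mW, mU, Matrix.mul_apply, Fin.sum_univ_two, Matrix.of_apply,
        Matrix.cons_val', Matrix.cons_val_zero, Matrix.cons_val_one, Matrix.cons_val_fin_one] at h00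
      apply hl1
      rw [h00]
      exact dvd_add ((dvd_mul_right _ _).mul_left _) ((dvd_mul_left _ _).mul_left _)
    | some j => exact hrep_inj hl δ hδ

/-- the representatives for the trace from level `N l` to level `N` -/
theorem reps_tr {N l : ℕ} [NeZero N] (hl : l.Prime) {x y : ℤ} (h : l * x + N * y = 1) :
    TrReps (G0 (N * l)) (G0 N)
      (fun i : Option (Fin l) => glR (trep N l x y i) (det_trep_ne hl h i)) := by
  have : NeZero l := ⟨hl.ne_zero⟩
  exact {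
  det_pos i := by rw [glR_det, det_trep h]; exact_mod_cast hl.pos
  stable γ hγ i := by
    obtain ⟨γ, hγ, rfl⟩ := hγ
    obtain ⟨c, hc⟩ := gamma0_dvd hγ
    have hdet := sl_det γ
    have key : ∃ α β c' d' : ℤ, α * d' - N * β * c' = 1 ∧
        trep N l x y i * γ.1 = !![α, β; N * l * c', l * d'] := by
      rw [hc] at hdet
      cases i with
      | none =>
        refine ⟨l * x * γ.1 0 0 - y * (N * c), l * x * γ.1 0 1 - y * γ.1 1 1,
          γ.1 0 0 + c, N * γ.1 0 1 + γ.1 1 1, ?_, ?_⟩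
        · have e1 : (l * x * γ.1 0 0 - y * (N * c)) * (N * γ.1 0 1 + γ.1 1 1) -
              N * (l * x * γ.1 0 1 - y * γ.1 1 1) * (γ.1 0 0 + c) =
              (γ.1 0 0 * γ.1 1 1 - γ.1 0 1 * (N * c)) * (l * x + N * y) := by ring
          rw [e1, hdet, h, one_mul]
        · ext a b
          fin_cases a <;> fin_cases b <;>
            simp [trep, mW, Matrix.mul_apply, Fin.sum_univ_two, hc] <;> ring
      | some j =>
        refine ⟨γ.1 0 0 + (j : ℕ) * (N * c), γ.1 0 1 + (j : ℕ) * γ.1 1 1, c, γ.1 1 1, ?_, ?_⟩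
        · linear_combination hdet
        · ext a b
          fin_cases a <;> fin_cases b <;>
            simp [trep, mU, Matrix.mul_apply, Fin.sum_univ_two, hc] <;> ring
    obtain ⟨α, β, c', d', h1, h2⟩ := key
    obtain ⟨j, δ, hδ, h3⟩ := trep_class hl h h1
    exact ⟨j, glR_mem _ _ γ δ hδ (h2.trans h3)⟩
  inj i j hij := by
    obtain ⟨δ, hδ⟩ := eq_of_glR_mem _ _ hij
    exact trep_inj hl h δ hδ
  cusp i c hc := isCusp_G0_iff.1 (glR_cusp _ _ hc) }

/-- the Atkin-Lehner matrix normalises `Γ₀(N l)` -/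
theorem reps_W {N l : ℕ} [NeZero N] (hl : l.Prime) {x y : ℤ} (h : l * x + N * y = 1) :
    TrReps (G0 (N * l)) (G0 (N * l))
      (fun _ : Unit => glR (mW N l x y) (det_mW_ne hl h)) := by
  have : NeZero l := ⟨hl.ne_zero⟩
  exact {
  det_pos i := by rw [glR_det, det_mW h]; exact_mod_cast hl.pos
  stable γ hγ i := by
    obtain ⟨γ, hγ, rfl⟩ := hγ
    obtain ⟨c, hc⟩ := gamma0_dvd hγ
    push_cast at hc
    have hdet := sl_det γ
    rw [hc] at hdet
    refine ⟨(), glR_mem _ _ γ ⟨!![l * x * γ.1 0 0 - y * (N * l * c) -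
        N * (l * x * γ.1 0 1 - y * γ.1 1 1),
        y * (x * γ.1 0 0 - y * N * c) + x * (l * x * γ.1 0 1 - y * γ.1 1 1);
        N * l * (γ.1 0 0 + l * c - N * γ.1 0 1 - γ.1 1 1),
        y * N * (γ.1 0 0 + l * c) + x * (N * l * γ.1 0 1 + l * γ.1 1 1)], ?_⟩
      (gamma0_of_dvd ⟨_, by push_cast; rfl⟩) ?_⟩
    · rw [Matrix.det_fin_two_of]
      have e1 : (l * x * γ.1 0 0 - y * (N * l * c) -
        N * (l * x * γ.1 0 1 - y * γ.1 1 1)) *
        (y * N * (γ.1 0 0 + l * c) + x * (N * l * γ.1 0 1 + l * γ.1 1 1)) -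
        (y * (x * γ.1 0 0 - y * N * c) + x * (l * x * γ.1 0 1 - y * γ.1 1 1)) *
        (N * l * (γ.1 0 0 + l * c - N * γ.1 0 1 - γ.1 1 1)) =
        (γ.1 0 0 * γ.1 1 1 - γ.1 0 1 * (N * l * c)) * (l * x + N * y) ^ 2 := by ring
      rw [e1, hdet, h, one_pow, one_mul]
    · change mW N l x y * γ.1 = _ * mW N l x y
      ext a b
      fin_cases a <;> fin_cases b <;>
        simp [mW, Matrix.mul_apply, Fin.sum_univ_two, hc]
      · linear_combination (-(l * x * γ.1 0 0 - y * (N * l * c))) * h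
      · linear_combination (-(l * x * γ.1 0 1 - y * γ.1 1 1)) * h
      · linear_combination (-(N * l * γ.1 0 0 + l * (N * l * c))) * h
      · linear_combination (-(N * l * γ.1 0 1 + l * γ.1 1 1)) * h
  inj i j _ := rfl
  cusp i c hc := isCusp_G0_iff.1 (glR_cusp _ _ hc) }

/-! ### Matrices acting by scalars -/

/-- a form of level `N` is multiplied by `c ^ (k - 2)` by `c • δ`, `δ ∈ Γ₀(N)` -/
lemma slash_scalar_mul {N : ℕ} {k : ℤ} (f : CuspForm (G0 N) k) {c : ℕ} (hc : c ≠ 0)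
    (δ : SL(2, ℤ)) (hδ : δ ∈ Gamma0 N) {A : Matrix (Fin 2) (Fin 2) ℤ} (hA : A.det ≠ 0)
    (h : A = (c : ℤ) • δ.1) :
    (f : ℍ → ℂ) ∣[k] glR A hA = (c : ℂ) ^ (k - 2) • (f : ℍ → ℂ) := by
  have hcr : (c : ℝ) ≠ 0 := by exact_mod_cast hc
  have hcc : (c : ℂ) ≠ 0 := by exact_mod_cast hc
  have h1 : (f : ℍ → ℂ) ∣[k] mapGL ℝ δ = f :=
    SlashInvariantFormClass.slash_action_eq f _ ⟨δ, hδ, rfl⟩
  have hmat : ∀ i j, (glR A hA : Matrix (Fin 2) (Fin 2) ℝ) i j =
      c * (mapGL ℝ δ : GL (Fin 2) ℝ) i j := by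
    intro i j
    have e1 : (A i j : ℤ) = c * δ.1 i j := by rw [h]; rfl
    change ((A i j : ℤ) : ℝ) = c * ((δ.1 i j : ℤ) : ℝ)
    rw [e1]
    push_cast
    rfl
  have hdet : (glR A hA).det.val = (c : ℝ) ^ 2 := by
    rw [glR_det, h, Matrix.det_smul, δ.2]
    simp
  have hpos : 0 < (glR A hA).det.val := by
    rw [hdet]; positivity
  have hden : ∀ z : ℍ, denom (glR A hA) z = c * denom (mapGL ℝ δ : GL (Fin 2) ℝ) z := by
    intro z
    simp only [denom, hmat]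
    push_cast
    ring
  have hnum : ∀ z : ℍ, num (glR A hA) z = c * num (mapGL ℝ δ : GL (Fin 2) ℝ) z := by
    intro z
    simp only [num, hmat]
    push_cast
    ring
  have hact : ∀ z : ℍ, glR A hA • z = (mapGL ℝ δ : GL (Fin 2) ℝ) • z := by
    intro z
    apply UpperHalfPlane.ext
    rw [UpperHalfPlane.coe_smul_of_det_pos hpos, UpperHalfPlane.coe_smul_of_det_pos (by simp),
      hnum, hden]
    rw [mul_div_mul_left _ _ hcc]
  funext z
  have h2 := congrFun h1 z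
  rw [ModularForm.slash_apply] at h2 ⊢
  rw [hact, hden, hdet]
  rw [Pi.smul_apply, ← h2]
  have hσ : UpperHalfPlane.σ (glR A hA) = UpperHalfPlane.σ (mapGL ℝ δ : GL (Fin 2) ℝ) := by
    simp only [UpperHalfPlane.σ, if_pos hpos]
    rw [if_pos (by simp)]
  rw [hσ, mul_zpow]
  have hd1 : |(mapGL ℝ δ : GL (Fin 2) ℝ).det.val| = 1 := by simp
  rw [hd1]
  have e1 : ((|(c : ℝ) ^ 2| : ℝ) : ℂ) ^ (k - 1) * (c : ℂ) ^ (-k) = (c : ℂ) ^ (k - 2) := by
    rw [abs_of_nonneg (by positivity)]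
    push_cast
    rw [← zpow_natCast, ← _root_.zpow_mul, ← zpow_add₀ hcc]
    congr 1
    push_cast
    ring
  rw [← e1]
  simp only [smul_eq_mul, Complex.ofReal_one, _root_.one_zpow]
  ring

lemma slash_gamma0 {N : ℕ} {k : ℤ} (f : CuspForm (G0 N) k)
    (δ : SL(2, ℤ)) (hδ : δ ∈ Gamma0 N) : (f : ℍ → ℂ) ∣[k] mapGL ℝ δ = f :=
  SlashInvariantFormClass.slash_action_eq f _ ⟨δ, hδ, rfl⟩

lemma glR_mul_eq {A B C : Matrix (Fin 2) (Fin 2) ℤ} (hA : A.det ≠ 0) (hB : B.det ≠ 0)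
    (hC : C.det ≠ 0) (h : A * B = C) : glR A hA * glR B hB = glR C hC := by
  apply Units.ext
  change A.map (Int.cast : ℤ → ℝ) * B.map (Int.cast : ℤ → ℝ) = C.map (Int.cast : ℤ → ℝ)
  rw [← h]
  exact (Matrix.map_mul (f := Int.castRingHom ℝ)).symm

lemma mapGL_mul_glR {δ : SL(2, ℤ)} {B C : Matrix (Fin 2) (Fin 2) ℤ} (hB : B.det ≠ 0)
    (hC : C.det ≠ 0) (h : δ.1 * B = C) : mapGL ℝ δ * glR B hB = glR C hC := by
  apply Units.ext
  change δ.1.map (Int.cast : ℤ → ℝ) * B.map (Int.cast : ℤ → ℝ) = C.map (Int.cast : ℤ → ℝ)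
  rw [← h]
  exact (Matrix.map_mul (f := Int.castRingHom ℝ)).symm

/-! ### Relation with `Tl`, `Ul`, `Vl` -/

lemma det_mV_ne {l : ℕ} (hl : l.Prime) : (mV l).det ≠ 0 := by
  rw [det_mV]; exact_mod_cast hl.ne_zero

lemma det_mU_ne {l : ℕ} (hl : l.Prime) (j : ℤ) : (mU l j).det ≠ 0 := by
  rw [det_mU]; exact_mod_cast hl.ne_zero

lemma glR_mU_tri {l : ℕ} [NeZero l] (hl : l.Prime) (j : ℕ) :
    glR (mU l j) (det_mU_ne hl j) = tri 1 j l (by simp [NeZero.ne l]) := by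
  apply Units.ext
  ext a b
  fin_cases a <;> fin_cases b <;> simp [coe_glR, mU, tri]

lemma glR_mV_tri {l : ℕ} [NeZero l] (hl : l.Prime) :
    glR (mV l) (det_mV_ne hl) = tri l 0 1 (by simp [NeZero.ne l]) := by
  apply Units.ext
  ext a b
  fin_cases a <;> fin_cases b <;> simp [coe_glR, mV, tri]

lemma Ul_eq_sum_fin {k l : ℕ} [NeZero l] (hl : l.Prime) (f : ℍ → ℂ) :
    Ul k l f = ∑ j : Fin l, f ∣[(k : ℤ)] glR (mU l (j : ℕ)) (det_mU_ne hl _) := by
  unfold Ul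
  rw [← Fin.sum_univ_eq_sum_range
    (fun b => f ∣[(k : ℤ)] tri 1 (b : ℝ) l (by simp [NeZero.ne l])) l]
  refine sum_congr rfl fun j _ => ?_
  rw [glR_mU_tri hl]

/-- `f | (l 0; 0 1) = l ^ (k - 1) f(l z)` -/
lemma slash_mV {k l : ℕ} [NeZero l] (hl : l.Prime) (f : ℍ → ℂ) :
    f ∣[(k : ℤ)] glR (mV l) (det_mV_ne hl) = (l : ℂ) ^ ((k : ℤ) - 1) • Vl l f := by
  rw [glR_mV_tri hl]
  funext z
  rw [ModularForm.slash_apply, Pi.smul_apply, Vl]
  have e : toR (repV l) = tri l 0 1 (by simp [NeZero.ne l]) := by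
    rw [repV, toR_triQ _ _ _ _ (by simp [NeZero.ne l])]
    apply Units.ext
    ext a b
    fin_cases a <;> fin_cases b <;> simp [tri]
  rw [e]
  have hdet : (tri l 0 1 (by simp [NeZero.ne l])).det.val = (l : ℝ) := by
    simp [tri, Matrix.det_fin_two_of]
  have hpos : 0 < (tri l 0 1 (by simp [NeZero.ne l])).det.val := by
    rw [hdet]; exact_mod_cast hl.pos
  have hσ : UpperHalfPlane.σ (tri l 0 1 (by simp [NeZero.ne l])) =
      ContinuousAlgEquiv.refl ℝ ℂ := if_pos hpos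
  rw [hσ, hdet]
  have hden : denom (tri (l : ℝ) 0 1 (by simp [NeZero.ne l])) z = 1 := by
    simp [denom, tri]
  rw [hden, abs_of_nonneg (by positivity)]
  simp only [_root_.one_zpow, mul_one, ContinuousAlgEquiv.refl_apply, smul_eq_mul]
  rw [mul_comm, Complex.ofReal_natCast]

/-! ### The trace and the relation for `U_l ^ 2` -/

lemma bezout_lN {N l : ℕ} (hl : l.Prime) (hlN : ¬ l ∣ N) :
    ∃ x y : ℤ, l * x + N * y = 1 := by
  have h := Nat.isCoprime_iff_coprime.2 ((Nat.Prime.coprime_iff_not_dvd hl).2 hlN)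
  obtain ⟨a, b, hab⟩ := h
  exact ⟨a, b, by linear_combination hab⟩

/-- the trace from level `N l` to level `N` -/
def trN {N l : ℕ} [NeZero N] (k : ℕ) (hl : l.Prime) {x y : ℤ} (h : l * x + N * y = 1) :
    Cusp (N * l) k →ₗ[ℂ] Cusp N k := trLin (k : ℤ) (reps_tr hl h)

/-- the Atkin-Lehner operator -/
def opW {N l : ℕ} [NeZero N] (k : ℕ) (hl : l.Prime) {x y : ℤ} (h : l * x + N * y = 1) :
    Cusp (N * l) k →ₗ[ℂ] Cusp (N * l) k := trLin (k : ℤ) (reps_W hl h)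

/-- the inclusion of level `N` into level `N l` -/
def incN (N l k : ℕ) [NeZero N] [NeZero l] : Cusp N k →ₗ[ℂ] Cusp (N * l) k :=
  trLin (k : ℤ) reps_inc

/-- `f ↦ f | (l 0; 0 1)` from level `N` to level `N l` -/
def levN (N l k : ℕ) [NeZero N] (hl : l.Prime) : Cusp N k →ₗ[ℂ] Cusp (N * l) k :=
  trLin (k : ℤ) (reps_lev hl)

@[simp] lemma incN_coe (N l k : ℕ) [NeZero N] [NeZero l] (f : Cusp N k) :
    (incN N l k f : ℍ → ℂ) = f := by
  rw [incN, coe_trLin]
  simp only [univ_unique, sum_singleton]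
  have : glR (1 : Matrix (Fin 2) (Fin 2) ℤ) (by simp) = 1 := by
    apply Units.ext
    change (1 : Matrix (Fin 2) (Fin 2) ℤ).map (Int.cast : ℤ → ℝ) = 1
    simp
  rw [this, SlashAction.slash_one]

lemma levN_coe (N l k : ℕ) [NeZero N] (hl : l.Prime) (f : Cusp N k) :
    (levN N l k hl f : ℍ → ℂ) = (f : ℍ → ℂ) ∣[(k : ℤ)] glR (mV l) (det_mV_ne hl) := by
  rw [levN, coe_trLin]
  simp only [univ_unique, sum_singleton]

lemma opW_coe {N l : ℕ} [NeZero N] (k : ℕ) (hl : l.Prime) {x y : ℤ} (h : l * x + N * y = 1)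
    (f : Cusp (N * l) k) :
    (opW k hl h f : ℍ → ℂ) = (f : ℍ → ℂ) ∣[(k : ℤ)] glR (mW N l x y) (det_mW_ne hl h) := by
  rw [opW, coe_trLin]
  simp only [univ_unique, sum_singleton]

/-- `Tr f = f | W + U_l f` -/
lemma trN_coe {N l : ℕ} [NeZero N] [NeZero l] (k : ℕ) (hl : l.Prime) {x y : ℤ}
    (h : l * x + N * y = 1) (f : Cusp (N * l) k) :
    (trN k hl h f : ℍ → ℂ) = opW k hl h f + Ul k l f := by
  rw [trN, coe_trLin, Fintype.sum_option, opW_coe, Ul_eq_sum_fin hl]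
  rfl

/-- on forms of level `N` the operator `W` is `(l 0; 0 1)` -/
lemma opW_inc {N l : ℕ} [NeZero N] [NeZero l] (k : ℕ) (hl : l.Prime) {x y : ℤ}
    (h : l * x + N * y = 1) (f : Cusp N k) :
    (opW k hl h (incN N l k f) : ℍ → ℂ) = levN N l k hl f := by
  rw [opW_coe, incN_coe, levN_coe]
  have hd : (!![x, -y; (N : ℤ), l] : Matrix (Fin 2) (Fin 2) ℤ).det = 1 := by
    rw [Matrix.det_fin_two_of]
    linear_combination h
  let δ : SL(2, ℤ) := ⟨_, hd⟩
  have hδ : δ ∈ Gamma0 N := gamma0_of_dvd ⟨1, by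
    change (N : ℤ) = N * 1
    ring⟩
  have hm : mapGL ℝ δ * glR (mV l) (det_mV_ne hl) =
      glR (mW N l x y) (det_mW_ne hl h) := by
    apply mapGL_mul_glR
    change !![x, -y; (N : ℤ), l] * mV l = mW N l x y
    rw [mV, mW, Matrix.mul_fin_two]
    ext a b
    fin_cases a <;> fin_cases b
    · change x * l + -y * 0 = l * x
      ring
    · change x * 0 + -y * 1 = -y
      ring
    · change (N : ℤ) * l + l * 0 = N * l
      ring
    · change (N : ℤ) * 0 + l * 1 = l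
      ring
  rw [← hm, SlashAction.slash_mul, slash_gamma0 f δ hδ]

/-- `W ^ 2` is the scalar `l ^ (k - 2)` -/
lemma opW_opW {N l : ℕ} [NeZero N] [NeZero l] (k : ℕ) (hl : l.Prime) {x y : ℤ}
    (h : l * x + N * y = 1) (f : Cusp (N * l) k) :
    (opW k hl h (opW k hl h f) : ℍ → ℂ) = (l : ℂ) ^ ((k : ℤ) - 2) • (f : ℍ → ℂ) := by
  rw [opW_coe, opW_coe, ← SlashAction.slash_mul]
  have hd : (!![l * x ^ 2 - y * N, -y * (x + 1); N * l * (x + 1), l - N * y] :
      Matrix (Fin 2) (Fin 2) ℤ).det = 1 := by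
    rw [Matrix.det_fin_two_of]
    have e1 : (l * x ^ 2 - y * N) * (l - N * y) - -y * (x + 1) * (N * l * (x + 1)) =
        (l * x + N * y) ^ 2 := by ring
    rw [e1, h, one_pow]
  have hC : ((l : ℤ) • !![l * x ^ 2 - y * N, -y * (x + 1); N * l * (x + 1), l - N * y] :
      Matrix (Fin 2) (Fin 2) ℤ).det ≠ 0 := by
    rw [Matrix.det_smul, hd, mul_one]
    exact pow_ne_zero _ (by exact_mod_cast hl.ne_zero)
  rw [glR_mul_eq (det_mW_ne hl h) (det_mW_ne hl h) hC]
  · exact slash_scalar_mul f hl.ne_zero ⟨_, hd⟩ (gamma0_of_dvd ⟨x + 1, by push_cast; rfl⟩) hC rfl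
  · rw [mW, Matrix.mul_fin_two]
    ext a b
    fin_cases a <;> fin_cases b
    · change l * x * (l * x) + -y * (N * l) = l * (l * x ^ 2 - y * N)
      ring
    · change l * x * -y + -y * l = l * (-y * (x + 1))
      ring
    · change N * l * (l * x) + l * (N * l) = l * (N * l * (x + 1))
      ring
    · change N * l * -y + (l : ℤ) * l = l * (l - N * y)
      ring

/-- the trace of a form of level `N` is `T_l` -/
lemma trN_inc {N l : ℕ} [NeZero N] [NeZero l] (k : ℕ) (hl : l.Prime) {x y : ℤ}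
    (h : l * x + N * y = 1) (f : Cusp N k) :
    (trN k hl h (incN N l k f) : ℍ → ℂ) = Tl k l f := by
  rw [trN_coe, opW_inc, levN_coe, glR_mV_tri hl, incN_coe]
  rfl

/-- **the relation `U_l ^ 2 = l ^ (k - 2)` modulo old forms** -/
theorem Ul_Ul {N l : ℕ} [NeZero N] [NeZero l] (k : ℕ) (hl : l.Prime) (hlN : ¬ l ∣ N)
    (f : Cusp (N * l) k) : ∃ g h : Cusp N k,
      Ul k l (Ul k l f) = (l : ℂ) ^ ((k : ℤ) - 2) • (f : ℍ → ℂ) + g + levN N l k hl h := by
  obtain ⟨x, y, h⟩ := bezout_lN hl hlN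
  have h1 := trN_coe k hl h f
  set g₀ := trN k hl h f with hg₀
  have hU : Ul k l f = (incN N l k g₀ - opW k hl h f : Cusp (N * l) k) := by
    rw [FunLike.coe_sub, incN_coe, h1]
    abel
  have h2 := trN_coe k hl h (incN N l k g₀ - opW k hl h f)
  rw [← hU] at h2
  have h3 : (opW k hl h (incN N l k g₀ - opW k hl h f) : ℍ → ℂ) =
      levN N l k hl g₀ - (l : ℂ) ^ ((k : ℤ) - 2) • (f : ℍ → ℂ) := by
    rw [map_sub, FunLike.coe_sub, opW_inc, opW_opW]
  rw [h3] at h2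
  refine ⟨trN k hl h (incN N l k g₀ - opW k hl h f), -g₀, ?_⟩
  rw [h2, map_neg, FunLike.coe_neg]
  abel

/-! ### `U_l` of the two degeneracies -/

/-- `U_l f = T_l f - f | (l 0; 0 1)` -/
lemma Ul_eq_Tl_sub {k l : ℕ} [NeZero l] (hl : l.Prime) (f : ℍ → ℂ) :
    Ul k l f = Tl k l f - f ∣[(k : ℤ)] glR (mV l) (det_mV_ne hl) := by
  rw [glR_mV_tri hl, Tl, Ul]
  abel

/-- `U_l (f | (l 0; 0 1)) = l ^ (k - 1) f` -/
lemma Ul_lev {N k l : ℕ} [NeZero N] [NeZero l] (hl : l.Prime) (f : Cusp N k) :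
    Ul k l ((f : ℍ → ℂ) ∣[(k : ℤ)] glR (mV l) (det_mV_ne hl)) =
      (l : ℂ) ^ ((k : ℤ) - 1) • (f : ℍ → ℂ) := by
  rw [Ul_eq_sum_fin hl]
  have hlc : (l : ℂ) ≠ 0 := by exact_mod_cast hl.ne_zero
  have key : ∀ j : Fin l, ((f : ℍ → ℂ) ∣[(k : ℤ)] glR (mV l) (det_mV_ne hl)) ∣[(k : ℤ)]
      glR (mU l (j : ℕ)) (det_mU_ne hl _) = (l : ℂ) ^ ((k : ℤ) - 2) • (f : ℍ → ℂ) := by
    intro j
    rw [← SlashAction.slash_mul]
    have hd : (!![1, ((j : ℕ) : ℤ); 0, 1] : Matrix (Fin 2) (Fin 2) ℤ).det = 1 := by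
      rw [Matrix.det_fin_two_of]
      ring
    have hC : ((l : ℤ) • !![1, ((j : ℕ) : ℤ); 0, 1] : Matrix (Fin 2) (Fin 2) ℤ).det ≠ 0 := by
      rw [Matrix.det_smul, hd, mul_one]
      exact pow_ne_zero _ (by exact_mod_cast hl.ne_zero)
    rw [glR_mul_eq (det_mV_ne hl) (det_mU_ne hl _) hC]
    · exact slash_scalar_mul f hl.ne_zero ⟨_, hd⟩ (gamma0_of_dvd ⟨0, by
        change (0 : ℤ) = N * 0
        ring⟩) hC rfl
    · rw [mV, mU, Matrix.mul_fin_two]
      ext a b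
      fin_cases a <;> fin_cases b
      · change (l : ℤ) * 1 + 0 * 0 = l * 1
        ring
      · change (l : ℤ) * (j : ℕ) + 0 * l = l * (j : ℕ)
        ring
      · change (0 : ℤ) * 1 + 1 * 0 = l * 0
        ring
      · change (0 : ℤ) * (j : ℕ) + 1 * l = l * 1
        ring
  rw [sum_congr rfl fun j _ => key j, sum_const, card_univ, Fintype.card_fin, ← Nat.cast_smul_eq_nsmul ℂ,
    smul_smul]
  congr 1
  rw [← zpow_one_add₀ hlc]
  congr 1
  ring

/-! ### Injectivity -/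

/-- explicit formula for the slash action of an upper triangular integral matrix -/
lemma slash_upper (k : ℤ) (f : ℍ → ℂ) {a b d : ℤ} (ha : 0 < a) (hd : 0 < d)
    (hA : (!![a, b; 0, d] : Matrix (Fin 2) (Fin 2) ℤ).det ≠ 0) (z w : ℍ)
    (hw : (w : ℂ) = (a * z + b) / d) :
    (f ∣[k] glR !![a, b; 0, d] hA) z = ((a : ℂ) * d) ^ (k - 1) * (d : ℂ) ^ (-k) * f w := by
  have haR : (0 : ℝ) < a := by exact_mod_cast ha
  have hdR : (0 : ℝ) < d := by exact_mod_cast hd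
  have hdet : (glR !![a, b; 0, d] hA).det.val = (a : ℝ) * d := by
    rw [glR_det, Matrix.det_fin_two_of]
    push_cast
    ring
  have hpos : 0 < (glR !![a, b; 0, d] hA).det.val := by
    rw [hdet]; positivity
  have hden : denom (glR !![a, b; 0, d] hA) z = d := by
    simp [denom, coe_glR]
  have hnum : num (glR !![a, b; 0, d] hA) z = a * z + b := by
    simp [num, coe_glR]
  have hact : glR !![a, b; 0, d] hA • z = w := by
    apply UpperHalfPlane.ext
    rw [UpperHalfPlane.coe_smul_of_det_pos hpos, hnum, hden, hw]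
  have hσ : UpperHalfPlane.σ (glR !![a, b; 0, d] hA) =
      ContinuousAlgEquiv.refl ℝ ℂ := if_pos hpos
  rw [ModularForm.slash_apply, hact, hσ, hden, hdet, abs_of_pos (by positivity)]
  simp only [ContinuousAlgEquiv.refl_apply]
  push_cast
  ring

/-- cusp forms of level `N` are invariant under integral translations -/
lemma apply_add_int {N : ℕ} {k : ℤ} (f : CuspForm (G0 N) k) (n : ℤ) (z w : ℍ)
    (hw : (w : ℂ) = z + n) : f w = f z := by
  have hd : (!![1, n; 0, 1] : Matrix (Fin 2) (Fin 2) ℤ).det = 1 := by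
    rw [Matrix.det_fin_two_of]
    ring
  let δ : SL(2, ℤ) := ⟨_, hd⟩
  have hδ : δ ∈ Gamma0 N := gamma0_of_dvd ⟨0, by
    change (0 : ℤ) = N * 0
    ring⟩
  have h1 := congrFun (slash_gamma0 f δ hδ) z
  have h2 := slash_upper k f (a := 1) (b := n) (d := 1) one_pos one_pos (by rw [hd]; simp) z w
    (by rw [hw]; simp)
  have h3 : glR !![1, n; 0, 1] (by rw [hd]; simp) = mapGL ℝ δ := by
    apply Units.ext
    rfl
  rw [h3, h1] at h2
  rw [h2]
  simp

/-- A cusp form `f` of level `N` with `f(z) = l ^ k f(l ^ 2 z)` vanishes. -/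
lemma eq_zero_of_scaling {N k l : ℕ} [NeZero N] (hl : l.Prime) (f : Cusp N k)
    (h : ∀ z w : ℍ, (w : ℂ) = (l : ℂ) ^ 2 * z → f z = (l : ℂ) ^ k * f w) : f = 0 := by
  have hl1 : (1 : ℝ) < l := by exact_mod_cast hl.one_lt
  have hl0 : (0 : ℝ) < l := by linarith
  obtain ⟨C, hC0, hC⟩ : ∃ C : ℝ, 0 < C ∧ ∀ᶠ z in atImInfty,
      ‖f z‖ ≤ C * Real.exp (-2 * Real.pi * z.im) := by
    have h1 := CuspFormClass.exp_decay_atImInfty (h := 1) f one_pos (by simp)
    obtain ⟨C, hC0, hC⟩ := h1.exists_pos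
    refine ⟨C, hC0, hC.bound.mono fun z hz => ?_⟩
    simpa [Real.norm_of_nonneg (Real.exp_pos _).le] using hz
  obtain ⟨A, hA⟩ := (atImInfty_mem _).1 hC
  ext z
  have hy := z.im_pos
  -- the points `l ^ (2 m) z`
  have hwpos : ∀ m : ℕ, 0 < (((l : ℝ) ^ (2 * m) : ℝ) * (z : ℂ)).im := by
    intro m
    rw [Complex.im_ofReal_mul]
    exact mul_pos (pow_pos hl0 _) hy
  let w : ℕ → ℍ := fun m => ⟨((l : ℝ) ^ (2 * m) : ℝ) * (z : ℂ), hwpos m⟩
  have hwc : ∀ m, ((w m : ℍ) : ℂ) = (l : ℂ) ^ (2 * m) * z := by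
    intro m
    change (((l : ℝ) ^ (2 * m) : ℝ) : ℂ) * z = _
    push_cast
    rfl
  have hwim : ∀ m, (w m).im = (l : ℝ) ^ (2 * m) * z.im := by
    intro m
    change ((((l : ℝ) ^ (2 * m) : ℝ) : ℂ) * z).im = _
    rw [Complex.im_ofReal_mul]
    rfl
  have hrec : ∀ m, f z = ((l : ℂ) ^ k) ^ m * f (w m) := by
    intro m
    induction m with
    | zero =>
      have : w 0 = z := by
        apply UpperHalfPlane.ext
        rw [hwc]
        simp
      rw [this]
      simp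
    | succ m ih =>
      rw [ih, h (w m) (w (m + 1)) (by rw [hwc, hwc]; ring)]
      ring
  have htend : Tendsto (fun m : ℕ => (l : ℝ) ^ (2 * m) * z.im) atTop atTop := by
    apply Tendsto.atTop_mul_const hy
    have := tendsto_pow_atTop_atTop_of_one_lt (one_lt_pow₀ hl1 (two_ne_zero))
    simpa [pow_mul] using this
  have hlim := (Real.tendsto_pow_mul_exp_neg_atTop_nhds_zero k).comp htend
  have hlim2 : Tendsto (fun m : ℕ => C * (z.im ^ k)⁻¹ * (((l : ℝ) ^ (2 * m) * z.im) ^ k *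
      Real.exp (-((l : ℝ) ^ (2 * m) * z.im)))) atTop (𝓝 0) := by
    simpa using hlim.const_mul (C * (z.im ^ k)⁻¹)
  have hbound : ∀ᶠ m : ℕ in atTop, ‖f z‖ ≤ C * (z.im ^ k)⁻¹ * (((l : ℝ) ^ (2 * m) * z.im) ^ k *
      Real.exp (-((l : ℝ) ^ (2 * m) * z.im))) := by
    filter_upwards [htend.eventually_ge_atTop A] with m hm
    have h1 : ‖f (w m)‖ ≤ C * Real.exp (-2 * Real.pi * (w m).im) :=
      hA (w m) (by rw [hwim]; exact hm)
    rw [hwim] at h1
    rw [hrec m, norm_mul, norm_pow, norm_pow, Complex.norm_natCast]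
    have h2 : ((l : ℝ) ^ k) ^ m ≤ (z.im ^ k)⁻¹ * ((l : ℝ) ^ (2 * m) * z.im) ^ k := by
      rw [mul_pow, mul_comm, mul_assoc, mul_inv_cancel₀ (pow_ne_zero _ hy.ne'), mul_one,
        ← pow_mul, ← pow_mul]
      exact pow_le_pow_right₀ hl1.le (by nlinarith)
    have h3 : Real.exp (-2 * Real.pi * ((l : ℝ) ^ (2 * m) * z.im)) ≤
        Real.exp (-((l : ℝ) ^ (2 * m) * z.im)) := by
      apply Real.exp_le_exp.2
      have hp := Real.pi_gt_three
      have h4 : 0 < (l : ℝ) ^ (2 * m) * z.im := by positivity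
      nlinarith
    calc ((l : ℝ) ^ k) ^ m * ‖f (w m)‖
        ≤ ((z.im ^ k)⁻¹ * ((l : ℝ) ^ (2 * m) * z.im) ^ k) *
          (C * Real.exp (-((l : ℝ) ^ (2 * m) * z.im))) := by
          apply mul_le_mul h2 (h1.trans (mul_le_mul_of_nonneg_left h3 hC0.le)) (norm_nonneg _)
          positivity
      _ = _ := by ring
  have := ge_of_tendsto hlim2 hbound
  exact norm_le_zero_iff.1 this

/-- **The two degeneracies are independent**: `l` prime, `l ∤ N`, `f, g` of level `N` and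
`f(z) + g(l z) = 0` imply `f = g = 0`. -/
theorem desc_inj {N k l : ℕ} [NeZero N] [NeZero l] (hl : l.Prime) (hlN : ¬ l ∣ N)
    (f g : Cusp N k) (h : (f : ℍ → ℂ) + Vl l g = 0) : f = 0 ∧ g = 0 := by
  obtain ⟨x, y, hxy⟩ := bezout_lN hl hlN
  have hlc : (l : ℂ) ≠ 0 := by exact_mod_cast hl.ne_zero
  have hlR : (0 : ℝ) < l := by exact_mod_cast hl.pos
  -- `f = - l ^ (1 - k) g | (l 0; 0 1)`
  have h1 : (g : ℍ → ℂ) ∣[(k : ℤ)] glR (mV l) (det_mV_ne hl) =
      -((l : ℂ) ^ ((k : ℤ) - 1)) • (f : ℍ → ℂ) := by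
    rw [slash_mV hl]
    have : Vl l g = -(f : ℍ → ℂ) := by
      rw [eq_neg_iff_add_eq_zero, add_comm]
      exact h
    rw [this]
    funext z
    simp only [Pi.smul_apply, Pi.neg_apply, smul_eq_mul]
    ring
  -- `g | (1 y; 0 l) = g | (l 0; 0 1)`
  have hd1 : (!![x, y; -(N : ℤ), l] : Matrix (Fin 2) (Fin 2) ℤ).det = 1 := by
    rw [Matrix.det_fin_two_of]
    linear_combination hxy
  have hd0 : (!![1, 0; (N : ℤ), 1] : Matrix (Fin 2) (Fin 2) ℤ).det = 1 := by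
    rw [Matrix.det_fin_two_of]
    ring
  let δ₁ : SL(2, ℤ) := ⟨_, hd1⟩
  let δ₀ : SL(2, ℤ) := ⟨_, hd0⟩
  have hδ₁ : δ₁ ∈ Gamma0 N := gamma0_of_dvd ⟨-1, by
    change -(N : ℤ) = N * -1
    ring⟩
  have hδ₀ : δ₀ ∈ Gamma0 N := gamma0_of_dvd ⟨1, by
    change (N : ℤ) = N * 1
    ring⟩
  have hmat : mapGL ℝ δ₁ * glR (mV l) (det_mV_ne hl) * mapGL ℝ δ₀ =
      glR (mU l y) (det_mU_ne hl y) := by
    apply Units.ext
    change !![x, y; -(N : ℤ), l].map (Int.cast : ℤ → ℝ) * (mV l).map (Int.cast : ℤ → ℝ) *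
      !![1, 0; (N : ℤ), 1].map (Int.cast : ℤ → ℝ) = (mU l y).map (Int.cast : ℤ → ℝ)
    have hxyR : (l : ℝ) * x + N * y = 1 := by exact_mod_cast hxy
    ext a b
    fin_cases a <;> fin_cases b <;>
      simp [mV, mU, Matrix.mul_apply, Fin.sum_univ_two]
    · linear_combination hxyR
    · ring
  have h2 : (g : ℍ → ℂ) ∣[(k : ℤ)] glR (mU l y) (det_mU_ne hl y) =
      (g : ℍ → ℂ) ∣[(k : ℤ)] glR (mV l) (det_mV_ne hl) := by
    rw [← hmat, SlashAction.slash_mul, SlashAction.slash_mul, slash_gamma0 g δ₁ hδ₁, h1,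
      smul_slash_pos (by simp), slash_gamma0 f δ₀ hδ₀]
  have hg : g = 0 := by
    apply eq_zero_of_scaling hl g
    intro z w hw
    have hzim : 0 < ((l : ℝ) * (z : ℂ) - (y : ℝ)).im := by
      simp only [Complex.sub_im, Complex.im_ofReal_mul, Complex.ofReal_im, sub_zero]
      exact mul_pos hlR z.im_pos
    let u : ℍ := ⟨(l : ℝ) * (z : ℂ) - (y : ℝ), hzim⟩
    have huc : (u : ℂ) = l * z - y := by
      change (((l : ℝ) : ℂ)) * z - ((y : ℝ) : ℂ) = _
      push_cast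
      rfl
    have hvim : 0 < ((l : ℝ) * (u : ℂ)).im := by
      rw [Complex.im_ofReal_mul]
      exact mul_pos hlR u.im_pos
    let v : ℍ := ⟨(l : ℝ) * (u : ℂ), hvim⟩
    have hvc : (v : ℂ) = l * u := by
      change (((l : ℝ) : ℂ)) * u = _
      push_cast
      rfl
    have h3 := congrFun h2 u
    have e1 := slash_upper (k : ℤ) g (a := 1) (b := y) (d := l) one_pos
      (by exact_mod_cast hl.pos) (det_mU_ne hl y) u z (by rw [huc]; push_cast; field_simp; ring)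
    have e2 := slash_upper (k : ℤ) g (a := l) (b := 0) (d := 1)
      (by exact_mod_cast hl.pos) one_pos (det_mV_ne hl) u v (by rw [hvc]; push_cast; ring)
    have e3 : g v = g w := by
      apply apply_add_int g (-(l * y)) w v
      rw [hvc, huc, hw]
      push_cast
      ring
    change ((g : ℍ → ℂ) ∣[(k : ℤ)] glR (mU l y) (det_mU_ne hl y)) u = _ at e1
    change ((g : ℍ → ℂ) ∣[(k : ℤ)] glR (mV l) (det_mV_ne hl)) u = _ at e2
    rw [e1, e2, e3] at h3
    push_cast at h3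
    simp only [one_mul, mul_one, _root_.one_zpow] at h3
    have hz : (l : ℂ) ^ ((k : ℤ) - 1) ≠ 0 := zpow_ne_zero _ hlc
    have h4 : (l : ℂ) ^ (-(k : ℤ)) * g z = g w := by
      apply mul_left_cancel₀ hz
      linear_combination h3
    rw [← h4, _root_.zpow_neg, zpow_natCast]
    field_simp
  refine ⟨?_, hg⟩
  have h5 : (f : ℍ → ℂ) = 0 := by
    rw [hg] at h
    have : Vl l (0 : Cusp N k) = 0 := rfl
    rw [this, add_zero] at h
    exact h
  exact DFunLike.coe_injective h5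

/-- `U_l ^ 2 = l ^ (k - 2)` modulo the old forms, in terms of `Vl`. -/
theorem desc_U2 {N k l : ℕ} [NeZero N] [NeZero l] (hl : l.Prime) (hlN : ¬ l ∣ N) (hk : 2 ≤ k)
    (f : Cusp (N * l) k) : ∃ a b : Cusp N k,
      Ul k l (Ul k l f) - (l : ℂ) ^ (k - 2) • (f : ℍ → ℂ) = (a : ℍ → ℂ) + Vl l b := by
  obtain ⟨g, h, hgh⟩ := Ul_Ul k hl hlN f
  refine ⟨g, (l : ℂ) ^ ((k : ℤ) - 1) • h, ?_⟩
  rw [hgh, levN_coe, slash_mV hl]
  have e : (l : ℂ) ^ ((k : ℤ) - 2) = (l : ℂ) ^ (k - 2) := by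
    rw [← zpow_natCast, Nat.cast_sub hk]
    rfl
  rw [e]
  have e2 : Vl l (((l : ℂ) ^ ((k : ℤ) - 1) • h : Cusp N k) : ℍ → ℂ) =
      (l : ℂ) ^ ((k : ℤ) - 1) • Vl l h := rfl
  rw [e2]
  abel

end Gouvea.ES
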