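import Pool.Agent.Work.MP_d3517d_nt.ES.DescSys

/-!
# Counting systems of eigenvalues: the descent formula (MP_d3517d_nt, cell ES)

Levels `M`, `M l`, `M l²` with `l ∤ M`.  The systems of level `M` are counted by the systems of
level `M l²` with conditions on the residue class of the eigenvalue of `U_l`.
-/

set_option autoImplicit false
set_option linter.unusedSectionVars false

noncomputable section

namespace Gouvea.Desc

open Gouvea.Sys

open scoped Classical in
/-- the sum of `F` over the elements of the multiset with the property `P` -/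
def msum {T : Type*} (S : Multiset T) (P : T → Prop) (F : T → ℝ) : ℝ :=
  ((S.filter P).map F).sum

theorem msum_add {T : Type*} (S S' : Multiset T) (P : T → Prop) (F : T → ℝ) :
    msum (S + S') P F = msum S P F + msum S' P F := by
  classical
  rw [msum, Multiset.filter_add, Multiset.map_add, Multiset.sum_add]
  rfl

open scoped Classical in
theorem msum_eq_ite {T : Type*} (S : Multiset T) (P : T → Prop) (F : T → ℝ) :
    msum S P F = (S.map (fun x => if P x then F x else 0)).sum := by
  rw [msum]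
  induction S using Multiset.induction_on with
  | empty => simp
  | cons a s ih =>
    by_cases h : P a
    · rw [Multiset.filter_cons_of_pos _ h, Multiset.map_cons, Multiset.sum_cons, ih,
        Multiset.map_cons, Multiset.sum_cons, if_pos h]
    · rw [Multiset.filter_cons_of_neg _ h, ih, Multiset.map_cons, Multiset.sum_cons, if_neg h,
        zero_add]

theorem msum_congr {T : Type*} (S : Multiset T) (P Q : T → Prop) (F : T → ℝ)
    (h : ∀ x ∈ S, P x ↔ Q x) : msum S P F = msum S Q F := by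
  classical
  rw [msum_eq_ite, msum_eq_ite]
  congr 1
  apply Multiset.map_congr rfl
  intro x hx
  by_cases hP : P x
  · rw [if_pos hP, if_pos ((h x hx).1 hP)]
  · rw [if_neg hP, if_neg (fun hQ => hP ((h x hx).2 hQ))]

theorem msum_one {T : Type*} (S : Multiset T) (P : T → Prop) [DecidablePred P] :
    msum S P (fun _ => 1) = (Multiset.card (S.filter P) : ℝ) := by
  rw [msum, Multiset.map_const', Multiset.sum_replicate, nsmul_eq_mul, mul_one]
  congr

variable {K : Type*} [Field K] [IsAlgClosed K] {kap : Type*} [Field kap] (O : Subring K) (red : O →+* kap)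

open scoped Classical in
/-- the residue class of an element of `O` -/
def rd (x : K) : kap := if h : x ∈ O then red ⟨x, h⟩ else 0

theorem rd_mul {x y : K} (hx : x ∈ O) (hy : y ∈ O) : rd O red (x * y) = rd O red x * rd O red y := by
  rw [rd, rd, rd, dif_pos hx, dif_pos hy, dif_pos (O.mul_mem hx hy), ← map_mul]
  rfl

theorem rd_int (n : ℤ) : rd O red (n : K) = (n : kap) := by
  have h : (n : K) ∈ O := intCast_mem O n
  rw [rd, dif_pos h]
  have h1 : (⟨(n : K), h⟩ : O) = ((n : ℤ) : O) := Subtype.ext (by simp)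
  rw [h1, map_intCast]

theorem rd_zero : rd O red (0 : K) = 0 := by
  have := rd_int O red 0
  simpa using this

variable {iota : Type*} [DecidableEq iota] (i0 : iota)

/-- the four conditions -/
def cond0 (chi : MvPolynomial iota ℤ →+* K) : Prop := rd O red (chi (MvPolynomial.X i0)) = 0

def condA (d : ℤ) (chi : MvPolynomial iota ℤ →+* K) : Prop :=
  rd O red (chi (MvPolynomial.X i0)) ^ 2 = (d : kap)

/-- the weight -/
def wt (d l : ℤ) (chi : MvPolynomial iota ℤ →+* K) : ℝ :=
  open scoped Classical in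
  1 - (if cond0 O red i0 chi then 1 else 0) - (if condA O red i0 d chi then 1 else 0) +
    (if condA O red i0 (l ^ 2 * d) chi then 1 else 0)

open scoped Classical in
/-- `msum` of the weighted function -/
theorem msum_wt (d l : ℤ) (S : Multiset (MvPolynomial iota ℤ →+* K))
    (P : (MvPolynomial iota ℤ →+* K) → Prop) (F : (MvPolynomial iota ℤ →+* K) → ℝ) :
    msum S P (fun chi => wt O red i0 d l chi * F chi) =
      msum S P F - msum S (fun chi => P chi ∧ cond0 O red i0 chi) F -
        msum S (fun chi => P chi ∧ condA O red i0 d chi) F +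
        msum S (fun chi => P chi ∧ condA O red i0 (l ^ 2 * d) chi) F := by
  simp only [msum_eq_ite]
  rw [← Multiset.sum_map_sub, ← Multiset.sum_map_sub, ← Multiset.sum_map_add]
  congr 1
  apply Multiset.map_congr rfl
  intro chi _
  rw [wt]
  by_cases hP : P chi <;> by_cases h0 : cond0 O red i0 chi <;>
    by_cases h1 : condA O red i0 d chi <;> by_cases h2 : condA O red i0 (l ^ 2 * d) chi <;>
    simp [hP, h0, h1, h2] <;> ring

/-- the two systems over `chi` have total weight `2` -/
theorem wt_two (d l : ℤ) (hd : (d : kap) ≠ 0) (hl : (l : kap) ≠ 0) (a b : K) (ha : a ∈ O)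
    (hb : b ∈ O) (hab : a * b = ((l * d : ℤ) : K)) (chi : MvPolynomial iota ℤ →+* K) :
    wt O red i0 d l (repl i0 chi a) + wt O red i0 d l (repl i0 chi b) = 2 := by
  classical
  have h1 : rd O red a * rd O red b = (l : kap) * d := by
    rw [← rd_mul O red ha hb, hab, rd_int]
    push_cast
    rfl
  have hne : (l : kap) * d ≠ 0 := mul_ne_zero hl hd
  have ha0 : rd O red a ≠ 0 := fun h => hne (by rw [← h1, h, zero_mul])
  have hb0 : rd O red b ≠ 0 := fun h => hne (by rw [← h1, h, mul_zero])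
  have hab1 : condA O red i0 d (repl i0 chi a) ↔ condA O red i0 (l ^ 2 * d) (repl i0 chi b) := by
    rw [condA, condA, repl_same, repl_same]
    push_cast
    have h2 : rd O red a ^ 2 * rd O red b ^ 2 = (l : kap) ^ 2 * d * d := by
      rw [← mul_pow, h1]
      ring
    constructor
    · intro h
      rw [h] at h2
      apply mul_left_cancel₀ hd
      rw [h2]
      ring
    · intro h
      rw [h] at h2
      have h3 : (l : kap) ^ 2 * d ≠ 0 := mul_ne_zero (pow_ne_zero _ hl) hd
      apply mul_right_cancel₀ h3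
      rw [h2]
      ring
  have hab2 : condA O red i0 d (repl i0 chi b) ↔ condA O red i0 (l ^ 2 * d) (repl i0 chi a) := by
    rw [condA, condA, repl_same, repl_same]
    push_cast
    have h2 : rd O red a ^ 2 * rd O red b ^ 2 = (l : kap) ^ 2 * d * d := by
      rw [← mul_pow, h1]
      ring
    constructor
    · intro h
      rw [h] at h2
      apply mul_right_cancel₀ hd
      rw [h2]
    · intro h
      rw [h] at h2
      have h3 : (l : kap) ^ 2 * d ≠ 0 := mul_ne_zero (pow_ne_zero _ hl) hd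
      apply mul_left_cancel₀ h3
      rw [h2]
  have hc1 : ¬ cond0 O red i0 (repl i0 chi a) := by
    rw [cond0, repl_same]
    exact ha0
  have hc2 : ¬ cond0 O red i0 (repl i0 chi b) := by
    rw [cond0, repl_same]
    exact hb0
  rw [wt, wt, if_neg hc1, if_neg hc2]
  simp only [hab1, hab2]
  ring

/-- a system with `chi (X i0)^2 = d` has weight `0` -/
theorem wt_rest2 (d l : ℤ) (hd : (d : kap) ≠ 0) (hl1 : ((l : kap)) ^ 2 ≠ 1)
    (chi : MvPolynomial iota ℤ →+* K) (hO : chi (MvPolynomial.X i0) ∈ O)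
    (h : chi (MvPolynomial.X i0) ^ 2 = (d : K)) : wt O red i0 d l chi = 0 := by
  classical
  have h1 : rd O red (chi (MvPolynomial.X i0)) ^ 2 = (d : kap) := by
    rw [pow_two, ← rd_mul O red hO hO, ← pow_two, h, rd_int]
  have h0 : ¬ cond0 O red i0 chi := by
    intro h2
    rw [cond0] at h2
    rw [h2, zero_pow two_ne_zero] at h1
    exact hd h1.symm
  have h2 : condA O red i0 d chi := h1
  have h3 : ¬ condA O red i0 (l ^ 2 * d) chi := by
    intro h4
    rw [condA, h1] at h4
    push_cast at h4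
    apply hl1
    apply mul_right_cancel₀ hd
    rw [one_mul, ← h4]
  rw [wt, if_neg h0, if_pos h2, if_neg h3]
  ring

/-- a system with `chi (X i0) = 0` has weight `0` -/
theorem wt_rest1 (d l : ℤ) (hd : (d : kap) ≠ 0) (hl : (l : kap) ≠ 0)
    (chi : MvPolynomial iota ℤ →+* K) (h : chi (MvPolynomial.X i0) = 0) :
    wt O red i0 d l chi = 0 := by
  classical
  have h1 : rd O red (chi (MvPolynomial.X i0)) = 0 := by rw [h, rd_zero]
  have h2 : ¬ condA O red i0 d chi := by
    rw [condA, h1, zero_pow two_ne_zero]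
    exact fun h => hd h.symm
  have h3 : ¬ condA O red i0 (l ^ 2 * d) chi := by
    rw [condA, h1, zero_pow two_ne_zero]
    push_cast
    exact fun h => (mul_ne_zero (pow_ne_zero _ hl) hd) h.symm
  have h0 : cond0 O red i0 chi := h1
  rw [wt, if_pos h0, if_neg h2, if_neg h3]
  ring

theorem msum_zero_of {T : Type*} (S : Multiset T) (P : T → Prop) (F : T → ℝ)
    (h : ∀ x ∈ S, F x = 0) : msum S P F = 0 := by
  classical
  rw [msum_eq_ite]
  apply Multiset.sum_eq_zero
  intro y hy
  obtain ⟨x, hx, rfl⟩ := Multiset.mem_map.1 hy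
  rw [h x hx, ite_self]

theorem msum_bind {T : Type*} (S : Multiset T) (f : T → Multiset T) (P : T → Prop) (F : T → ℝ) :
    msum (S.bind f) P F = (S.map (fun x => msum (f x) P F)).sum := by
  induction S using Multiset.induction_on with
  | empty => simp [msum]
  | cons a s ih =>
    rw [Multiset.cons_bind, msum_add, ih, Multiset.map_cons, Multiset.sum_cons]

/-- **the descent formula** -/
theorem msum_desc (d l : ℤ) (hd : (d : kap) ≠ 0) (hl : (l : kap) ≠ 0)
    (hl1 : ((l : kap)) ^ 2 ≠ 1) (S1 rest1 rest2 : Multiset (MvPolynomial iota ℤ →+* K))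
    (h1 : ∀ chi ∈ rest1, chi (MvPolynomial.X i0) = 0)
    (h2 : ∀ chi ∈ rest2, chi (MvPolynomial.X i0) ^ 2 = (d : K))
    (hO : ∀ chi ∈ S1.bind (two i0 ((l * d : ℤ) : K)) + rest2, chi (MvPolynomial.X i0) ∈ O)
    (P : (MvPolynomial iota ℤ →+* K) → Prop) (hP : ∀ chi a, P (repl i0 chi a) ↔ P chi)
    (F : (MvPolynomial iota ℤ →+* K) → ℝ) (hF : ∀ chi a, F (repl i0 chi a) = F chi) :
    2 * msum S1 P F = msum (S1.bind (two i0 ((l * d : ℤ) : K)) + rest2 + rest1) P
      (fun chi => wt O red i0 d l chi * F chi) := by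
  classical
  rw [msum_add, msum_add, msum_zero_of rest1 P _ (fun chi hchi => by
      rw [wt_rest1 O red i0 d l hd hl chi (h1 chi hchi), zero_mul]),
    msum_zero_of rest2 P _ (fun chi hchi => by
      rw [wt_rest2 O red i0 d l hd hl1 chi (hO chi (Multiset.mem_add.2 (Or.inr hchi)))
        (h2 chi hchi), zero_mul]), add_zero, add_zero, msum_bind, msum_eq_ite,
    ← Multiset.sum_map_mul_left]
  congr 1
  apply Multiset.map_congr rfl
  intro chi hchi
  obtain ⟨a, b, hab, hc⟩ := exists_ab (chi (MvPolynomial.X i0)) ((l * d : ℤ) : K)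
  have htwo := two_eq i0 ((l * d : ℤ) : K) chi a b hab hc
  have haO : a ∈ O := by
    have h3 := hO (repl i0 chi a) (Multiset.mem_add.2 (Or.inl (Multiset.mem_bind.2 ⟨chi, hchi, by
      rw [htwo]; simp⟩)))
    rwa [repl_same] at h3
  have hbO : b ∈ O := by
    have h3 := hO (repl i0 chi b) (Multiset.mem_add.2 (Or.inl (Multiset.mem_bind.2 ⟨chi, hchi, by
      rw [htwo]; simp⟩)))
    rwa [repl_same] at h3
  rw [htwo, msum_eq_ite]
  simp only [Multiset.insert_eq_cons, Multiset.map_cons, Multiset.map_singleton,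
    Multiset.sum_cons, Multiset.sum_singleton, hP, hF]
  have h4 := wt_two O red i0 d l hd hl a b haO hbO hc chi
  by_cases hPc : P chi
  · simp only [if_pos hPc]
    rw [← add_mul, h4]
  · simp only [if_neg hPc, mul_zero, add_zero]


/-- the descent formula in terms of the four conditions -/
theorem msum_desc4 (d l : ℤ) (hd : (d : kap) ≠ 0) (hl : (l : kap) ≠ 0)
    (hl1 : ((l : kap)) ^ 2 ≠ 1) (S1 S2 S4 rest1 rest2 : Multiset (MvPolynomial iota ℤ →+* K))
    (hS4 : S4 = S2 + rest1) (hS2 : S2 = S1.bind (two i0 ((l * d : ℤ) : K)) + rest2)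
    (h1 : ∀ chi ∈ rest1, chi (MvPolynomial.X i0) = 0)
    (h2 : ∀ chi ∈ rest2, chi (MvPolynomial.X i0) ^ 2 = (d : K))
    (hO : ∀ chi ∈ S4, chi (MvPolynomial.X i0) ∈ O)
    (P : (MvPolynomial iota ℤ →+* K) → Prop) (hP : ∀ chi a, P (repl i0 chi a) ↔ P chi)
    (F : (MvPolynomial iota ℤ →+* K) → ℝ) (hF : ∀ chi a, F (repl i0 chi a) = F chi) :
    2 * msum S1 P F = msum S4 P F - msum S4 (fun chi => P chi ∧ cond0 O red i0 chi) F -
        msum S4 (fun chi => P chi ∧ condA O red i0 d chi) F +
        msum S4 (fun chi => P chi ∧ condA O red i0 (l ^ 2 * d) chi) F := by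
  rw [← msum_wt, hS4, hS2]
  apply msum_desc O red i0 d l hd hl hl1 S1 rest1 rest2 h1 h2 _ P hP F hF
  intro chi hchi
  apply hO
  rw [hS4, hS2]
  exact Multiset.mem_add.2 (Or.inl hchi)

/-- the systems of level `M l` (`l ∤ M`) are those of level `M l²` with nonzero residue at `l` -/
theorem msum_desc2 (d l : ℤ) (hd : (d : kap) ≠ 0) (hl : (l : kap) ≠ 0)
    (S1 S2 S4 rest1 rest2 : Multiset (MvPolynomial iota ℤ →+* K))
    (hS4 : S4 = S2 + rest1) (hS2 : S2 = S1.bind (two i0 ((l * d : ℤ) : K)) + rest2)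
    (h1 : ∀ chi ∈ rest1, chi (MvPolynomial.X i0) = 0)
    (h2 : ∀ chi ∈ rest2, chi (MvPolynomial.X i0) ^ 2 = (d : K))
    (hO : ∀ chi ∈ S4, chi (MvPolynomial.X i0) ∈ O)
    (P : (MvPolynomial iota ℤ →+* K) → Prop) (F : (MvPolynomial iota ℤ →+* K) → ℝ) :
    msum S2 P F = msum S4 P F - msum S4 (fun chi => P chi ∧ cond0 O red i0 chi) F := by
  classical
  have hne : ∀ chi ∈ S2, ¬ cond0 O red i0 chi := by
    intro chi hchi h0
    have hchiO : chi (MvPolynomial.X i0) ∈ O := hO chi (by
      rw [hS4]; exact Multiset.mem_add.2 (Or.inl hchi))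
    rw [hS2, Multiset.mem_add] at hchi
    rcases hchi with hchi | hchi
    · obtain ⟨chi', hchi', hmem⟩ := Multiset.mem_bind.1 hchi
      obtain ⟨a, b, hab, hc⟩ := exists_ab (chi' (MvPolynomial.X i0)) ((l * d : ℤ) : K)
      have htwo := two_eq i0 ((l * d : ℤ) : K) chi' a b hab hc
      have hO2 : ∀ x : K, repl i0 chi' x ∈ two i0 ((l * d : ℤ) : K) chi' → x ∈ O := by
        intro x hx
        have h3 := hO (repl i0 chi' x) (by
          rw [hS4, hS2]
          exact Multiset.mem_add.2 (Or.inl (Multiset.mem_add.2 (Or.inl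
            (Multiset.mem_bind.2 ⟨chi', hchi', hx⟩)))))
        rwa [repl_same] at h3
      have haO : a ∈ O := hO2 a (by rw [htwo]; simp)
      have hbO : b ∈ O := hO2 b (by rw [htwo]; simp)
      have h3 : rd O red a * rd O red b = (l : kap) * d := by
        rw [← rd_mul O red haO hbO, hc, rd_int]
        push_cast
        rfl
      have hne : (l : kap) * d ≠ 0 := mul_ne_zero hl hd
      rw [htwo] at hmem
      simp only [Multiset.insert_eq_cons, Multiset.mem_cons, Multiset.mem_singleton] at hmem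
      rw [cond0] at h0
      rcases hmem with rfl | rfl
      · rw [repl_same] at h0
        rw [h0, zero_mul] at h3
        exact hne h3.symm
      · rw [repl_same] at h0
        rw [h0, mul_zero] at h3
        exact hne h3.symm
    · have h3 := h2 chi hchi
      have h4 : rd O red (chi (MvPolynomial.X i0)) ^ 2 = (d : kap) := by
        rw [pow_two, ← rd_mul O red hchiO hchiO, ← pow_two, h3, rd_int]
      rw [cond0] at h0
      rw [h0, zero_pow two_ne_zero] at h4
      exact hd h4.symm
  have hz : ∀ chi ∈ rest1, cond0 O red i0 chi := by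
    intro chi hchi
    rw [cond0, h1 chi hchi, rd_zero]
  rw [hS4, msum_add, msum_add]
  have e1 : msum S2 (fun chi => P chi ∧ cond0 O red i0 chi) F = 0 := by
    rw [msum_eq_ite]
    apply Multiset.sum_eq_zero
    intro y hy
    obtain ⟨chi, hchi, rfl⟩ := Multiset.mem_map.1 hy
    rw [if_neg]
    rintro ⟨-, h0⟩
    exact hne chi hchi h0
  have e2 : msum rest1 (fun chi => P chi ∧ cond0 O red i0 chi) F = msum rest1 P F :=
    msum_congr _ _ _ _ fun chi hchi => and_iff_left (hz chi hchi)
  rw [e1, e2]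
  ring

/-- a property which depends only on the values at the variables different from `i0` -/
theorem repl_indep {A : Sort*} (G : (MvPolynomial iota ℤ →+* K) → A)
    (h : ∀ chi chi' : MvPolynomial iota ℤ →+* K,
      (∀ j, j ≠ i0 → chi (MvPolynomial.X j) = chi' (MvPolynomial.X j)) → G chi = G chi')
    (chi : MvPolynomial iota ℤ →+* K) (a : K) : G (repl i0 chi a) = G chi :=
  h _ _ fun j hj => repl_ne i0 j hj chi a

end Gouvea.Desc

namespace Gouvea.ES

open Gouvea.Sys Gouvea.Desc

variable {kap : Type*} [Field kap] (O : Subring ℂ) (red : O →+* kap)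

/-- **counting the systems of level `M` by the systems of level `M l²`, `l ∤ M`** -/
theorem count_unram (M k : ℕ) [NeZero M] (l : Nat.Primes) (hlM : ¬ (l : ℕ) ∣ M) (hk : 2 ≤ k)
    (hl : ((l : ℕ) : kap) ≠ 0) (hl1 : ((l : ℕ) : kap) ^ 2 ≠ 1)
    (hO : ∀ chi ∈ Sys (rhoC (M * l * l) k), chi (MvPolynomial.X l) ∈ O)
    (P : (MvPolynomial Nat.Primes ℤ →+* ℂ) → Prop) (hP : ∀ chi a, P (repl l chi a) ↔ P chi)
    (F : (MvPolynomial Nat.Primes ℤ →+* ℂ) → ℝ) (hF : ∀ chi a, F (repl l chi a) = F chi) :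
    2 * msum (Sys (rhoC M k)) P F = msum (Sys (rhoC (M * l * l) k)) P F -
      msum (Sys (rhoC (M * l * l) k)) (fun chi => P chi ∧ cond0 O red l chi) F -
      msum (Sys (rhoC (M * l * l) k))
        (fun chi => P chi ∧ condA O red l (((l : ℕ) : ℤ) ^ (k - 2)) chi) F +
      msum (Sys (rhoC (M * l * l) k))
        (fun chi => P chi ∧ condA O red l (((l : ℕ) : ℤ) ^ k) chi) F := by
  obtain ⟨rest1, h1, h1'⟩ := Sys_cusp_ram (M * l) k l (Dvd.intro_left M rfl)
  obtain ⟨rest2, h2, h2'⟩ := Sys_cusp_unram M k l hlM hk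
  have e1 : (((l : ℕ) : ℤ) ^ (k - 1) : ℤ) = ((l : ℕ) : ℤ) * ((l : ℕ) : ℤ) ^ (k - 2) := by
    rw [← pow_succ']
    congr 1
    omega
  have e2 : (((l : ℕ) : ℤ) ^ k : ℤ) = ((l : ℕ) : ℤ) ^ 2 * ((l : ℕ) : ℤ) ^ (k - 2) := by
    rw [← pow_add]
    congr 1
    omega
  rw [e1] at h2
  rw [e2]
  apply msum_desc4 O red l (((l : ℕ) : ℤ) ^ (k - 2)) ((l : ℕ) : ℤ) _ _ _ _ _ _ rest1 rest2 h1 h2
    h1' h2' hO P hP F hF
  · push_cast
    exact pow_ne_zero _ hl
  · push_cast
    exact hl
  · push_cast
    exact hl1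

/-- **counting the systems of level `M l` by the systems of level `M l²`, `l ∤ M`** -/
theorem count_semi (M k : ℕ) [NeZero M] (l : Nat.Primes) (hlM : ¬ (l : ℕ) ∣ M) (hk : 2 ≤ k)
    (hl : ((l : ℕ) : kap) ≠ 0)
    (hO : ∀ chi ∈ Sys (rhoC (M * l * l) k), chi (MvPolynomial.X l) ∈ O)
    (P : (MvPolynomial Nat.Primes ℤ →+* ℂ) → Prop) (F : (MvPolynomial Nat.Primes ℤ →+* ℂ) → ℝ) :
    msum (Sys (rhoC (M * l) k)) P F = msum (Sys (rhoC (M * l * l) k)) P F -
      msum (Sys (rhoC (M * l * l) k)) (fun chi => P chi ∧ cond0 O red l chi) F := by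
  obtain ⟨rest1, h1, h1'⟩ := Sys_cusp_ram (M * l) k l (Dvd.intro_left M rfl)
  obtain ⟨rest2, h2, h2'⟩ := Sys_cusp_unram M k l hlM hk
  have e1 : (((l : ℕ) : ℤ) ^ (k - 1) : ℤ) = ((l : ℕ) : ℤ) * ((l : ℕ) : ℤ) ^ (k - 2) := by
    rw [← pow_succ']
    congr 1
    omega
  rw [e1] at h2
  apply msum_desc2 O red l (((l : ℕ) : ℤ) ^ (k - 2)) ((l : ℕ) : ℤ) _ _ _ _ _ rest1 rest2 h1 h2
    h1' h2' hO P F
  · push_cast
    exact pow_ne_zero _ hl
  · push_cast
    exact hl

end Gouvea.ES
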