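import Pool.Agent.Work.MP_d3517d_nt.ES.Defs

/-!
# Fourier coefficients of `T_l f`, `U_l f` and `f(l z)` (MP_d3517d_nt, cell ES)
-/

set_option autoImplicit false

open Filter Topology UpperHalfPlane CongruenceSubgroup Function
open scoped MatrixGroups ModularForm Manifold

noncomputable section

namespace Gouvea.ES

/-- periodic holomorphic functions, bounded at `i∞` -/
structure QE (f : ℍ → ℂ) : Prop where
  per : Function.Periodic (f ∘ ofComplex) ((1 : ℝ) : ℂ)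
  holo : MDiff f
  bdd : IsBoundedAtImInfty f

lemma QE.hasSum {f : ℍ → ℂ} (h : QE f) (τ : ℍ) :
    HasSum (fun m : ℕ => coef f m * Periodic.qParam 1 τ ^ m) (f τ) := by
  have := hasSum_qExpansion (h := 1) one_pos h.per h.holo h.bdd τ
  simp only [smul_eq_mul] at this
  exact this

lemma qParam_add_one (z : ℂ) : Periodic.qParam 1 (z + ((1 : ℝ) : ℂ)) = Periodic.qParam 1 z := by
  unfold Periodic.qParam
  have : 2 * (Real.pi : ℂ) * Complex.I * (z + ((1 : ℝ) : ℂ)) / ((1 : ℝ) : ℂ) =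
      2 * Real.pi * Complex.I * z / ((1 : ℝ) : ℂ) + 2 * Real.pi * Complex.I := by
    push_cast
    ring
  rw [this, Complex.exp_add, Complex.exp_two_pi_mul_I, mul_one]

lemma QE_of_hasSum {f : ℍ → ℂ} {c : ℕ → ℂ} (hf : MDiff f)
    (h : ∀ τ : ℍ, HasSum (fun m : ℕ => c m * Periodic.qParam 1 τ ^ m) (f τ)) : QE f := by
  refine ⟨?_, hf, isBoundedAtImInfty_of_hasSum_qExpansion (h := 1) (c := c) one_pos
    (by simpa only [smul_eq_mul] using h)⟩
  intro z
  simp only [Function.comp_apply]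
  rcases lt_or_ge 0 z.im with hz | hz
  · have hz' : 0 < (z + ((1 : ℝ) : ℂ)).im := by simpa using hz
    rw [ofComplex_apply_of_im_pos hz, ofComplex_apply_of_im_pos hz']
    refine (h ⟨_, hz'⟩).unique ?_
    have h1 := h ⟨z, hz⟩
    simpa only [UpperHalfPlane.coe_mk, qParam_add_one] using h1
  · have hz' : (z + ((1 : ℝ) : ℂ)).im ≤ 0 := by simpa using hz
    rw [ofComplex_apply_of_im_nonpos hz, ofComplex_apply_of_im_nonpos hz']

lemma coef_eq {f : ℍ → ℂ} {c : ℕ → ℂ} (hf : MDiff f)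
    (h : ∀ τ : ℍ, HasSum (fun m : ℕ => c m * Periodic.qParam 1 τ ^ m) (f τ)) (m : ℕ) :
    coef f m = c m := by
  have h0 := QE_of_hasSum hf h
  have h1 := analyticAt_cuspFunction_zero (h := 1) one_pos h0.per h0.holo h0.bdd
  let _ : FunLike (ℍ → ℂ) ℍ ℂ := ⟨fun f => f, fun _ _ h => h⟩
  have h2 : ∀ τ : ℍ, HasSum (fun m : ℕ => c m • Periodic.qParam 1 τ ^ m) (f τ) := by
    simpa only [smul_eq_mul] using h
  exact (qExpansion_coeff_unique (F := ℍ → ℂ) (h := 1) f one_pos h1 h2 m).symm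

/-- the coefficients determine the function -/
theorem coef_inj {f g : ℍ → ℂ} (hf : QE f) (hg : QE g) (h : ∀ m, coef f m = coef g m) :
    f = g := by
  funext τ
  refine (hf.hasSum τ).unique ?_
  simpa only [h] using hg.hasSum τ

lemma strictPeriods_Gam0 (N : ℕ) : (1 : ℝ) ∈ (Gam0 N).strictPeriods := by
  rw [Subgroup.strictPeriods_eq_zmultiples_one_of_T_mem]
  · exact AddSubgroup.mem_zmultiples 1
  · rw [Gamma0_mem]
    simp [ModularGroup.T]

/-- cusp forms are such functions -/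
lemma qe_cusp {N k : ℕ} [NeZero N] (f : Cusp N k) : QE f where
  per := by
    have := SlashInvariantFormClass.periodic_comp_ofComplex (f := f) (strictPeriods_Gam0 N)
    exact this
  holo := CuspFormClass.holo f
  bdd := ModularFormClass.bdd_at_infty f

lemma coef_zero_cusp {N k : ℕ} [NeZero N] (f : Cusp N k) : coef f 0 = 0 :=
  CuspFormClass.qExpansion_coeff_zero f one_pos (strictPeriods_Gam0 N)

/-! ### The action of triangular matrices -/

lemma tri_det (a b d : ℝ) (h : a * d ≠ 0) : (tri a b d h).det.val = a * d := by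
  show (!![a, b; 0, d] : Matrix (Fin 2) (Fin 2) ℝ).det = _
  rw [Matrix.det_fin_two_of]; ring

lemma coe_tri_smul {a b d : ℝ} (h : a * d ≠ 0) (hp : 0 < a * d) (τ : ℍ) :
    ((tri a b d h • τ : ℍ) : ℂ) = (a * τ + b) / d := by
  rw [coe_smul_of_det_pos (by rw [tri_det]; exact hp)]
  simp [num, denom, tri]

lemma slash_tri {a b d : ℝ} (h : a * d ≠ 0) (hp : 0 < a * d) (k : ℤ) (f : ℍ → ℂ) (τ : ℍ) :
    (f ∣[k] tri a b d h) τ = f (tri a b d h • τ) * ((a * d : ℝ) : ℂ) ^ (k - 1) * (d : ℂ) ^ (-k) := by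
  rw [ModularForm.slash_apply, tri_det, abs_of_pos hp]
  have h1 : denom (tri a b d h) τ = d := by simp [denom, tri]
  have h2 : 0 < (tri a b d h).det.val := by rw [tri_det]; exact hp
  rw [h1]
  simp only [σ, if_pos h2]
  rfl

/-- `f | (1 b; 0 l)` -/
lemma slash_U {l : ℕ} [NeZero l] (b : ℕ) (k : ℤ) (f : ℍ → ℂ) (τ : ℍ) :
    (f ∣[k] tri 1 b l (by simp [NeZero.ne l])) τ =
      f (tri 1 b l (by simp [NeZero.ne l]) • τ) * (l : ℂ)⁻¹ := by
  have hl : (l : ℂ) ≠ 0 := by exact_mod_cast NeZero.ne l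
  have hl' : 0 < (1 : ℝ) * l := by
    rw [one_mul]; exact_mod_cast Nat.pos_of_ne_zero (NeZero.ne l)
  rw [slash_tri _ hl', mul_assoc]
  congr 1
  rw [one_mul, zpow_sub_one₀ (by exact_mod_cast NeZero.ne l), zpow_neg]
  push_cast
  field_simp

/-- `f | (l 0; 0 1)` -/
lemma slash_V {l : ℕ} [NeZero l] (k : ℤ) (f : ℍ → ℂ) (τ : ℍ) :
    (f ∣[k] tri l 0 1 (by simp [NeZero.ne l])) τ =
      f (tri l 0 1 (by simp [NeZero.ne l]) • τ) * (l : ℂ) ^ (k - 1) := by
  have hl' : 0 < (l : ℝ) * 1 := by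
    rw [mul_one]; exact_mod_cast Nat.pos_of_ne_zero (NeZero.ne l)
  rw [slash_tri _ hl']
  simp

lemma qParam_U {l : ℕ} [NeZero l] (b : ℕ) (τ : ℍ) (m : ℕ) :
    Periodic.qParam 1 (tri 1 b l (by simp [NeZero.ne l]) • τ : ℍ) ^ m =
      Complex.exp (2 * Real.pi * Complex.I * τ / l) ^ m *
        (Complex.exp (2 * Real.pi * Complex.I * m / l)) ^ b := by
  have hl' : 0 < (1 : ℝ) * l := by
    rw [one_mul]; exact_mod_cast Nat.pos_of_ne_zero (NeZero.ne l)
  rw [coe_tri_smul _ hl', Periodic.qParam, ← Complex.exp_nat_mul, ← Complex.exp_nat_mul,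
    ← Complex.exp_nat_mul, ← Complex.exp_add]
  congr 1
  push_cast
  ring

/-- the sum over the roots of unity -/
lemma sum_root {l : ℕ} [NeZero l] (m : ℕ) :
    ∑ b ∈ Finset.range l, (Complex.exp (2 * Real.pi * Complex.I * m / l)) ^ b =
      if l ∣ m then (l : ℂ) else 0 := by
  have hl : (l : ℂ) ≠ 0 := by exact_mod_cast NeZero.ne l
  have h2pi : (2 * (Real.pi : ℂ) * Complex.I) ≠ 0 := Complex.two_pi_I_ne_zero
  split_ifs with h
  · obtain ⟨c, rfl⟩ := h
    have : Complex.exp (2 * Real.pi * Complex.I * ((l * c : ℕ) : ℂ) / l) = 1 := by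
      rw [Complex.exp_eq_one_iff]
      refine ⟨c, ?_⟩
      push_cast
      field_simp
    rw [this]
    simp
  · set ζ := Complex.exp (2 * Real.pi * Complex.I * m / l) with hζ
    have h1 : ζ ≠ 1 := by
      intro h1
      rw [hζ, Complex.exp_eq_one_iff] at h1
      obtain ⟨n, hn⟩ := h1
      refine h ?_
      have h2 : (m : ℂ) = l * n := by
        have h3 : 2 * (Real.pi : ℂ) * Complex.I * m = 2 * Real.pi * Complex.I * (l * n) := by
          field_simp at hn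
          linear_combination (2 * (Real.pi : ℂ) * Complex.I) * hn
        exact mul_left_cancel₀ h2pi h3
      have h3 : (m : ℤ) = l * n := by exact_mod_cast h2
      exact Int.natCast_dvd_natCast.1 ⟨n, h3⟩
    have h2 : ζ ^ l = 1 := by
      rw [hζ, ← Complex.exp_nat_mul, Complex.exp_eq_one_iff]
      refine ⟨m, ?_⟩
      push_cast
      field_simp
    have h3 := mul_geom_sum ζ l
    rw [h2, sub_self] at h3
    exact (mul_eq_zero.1 h3).resolve_left (sub_ne_zero.2 h1)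

/-! ### The coefficients of `U_l f` -/

lemma Ul_apply {k l : ℕ} [NeZero l] (f : ℍ → ℂ) (τ : ℍ) :
    Ul k l f τ = ∑ b ∈ Finset.range l, f (tri 1 b l (by simp [NeZero.ne l]) • τ) * (l : ℂ)⁻¹ := by
  unfold Ul
  rw [Finset.sum_apply]
  exact Finset.sum_congr rfl fun b _ => slash_U b k f τ

lemma mdiff_Ul {k l : ℕ} [NeZero l] {f : ℍ → ℂ} (hf : MDiff f) : MDiff (Ul k l f) := by
  unfold Ul
  exact MDifferentiable.sum fun b _ => hf.slash k _

lemma hasSum_Ul {f : ℍ → ℂ} (hf : QE f) (k l : ℕ) [NeZero l] (τ : ℍ) :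
    HasSum (fun m : ℕ => coef f (l * m) * Periodic.qParam 1 τ ^ m) (Ul k l f τ) := by
  have hl : (l : ℂ) ≠ 0 := by exact_mod_cast NeZero.ne l
  have hl0 : 0 < l := Nat.pos_of_ne_zero (NeZero.ne l)
  set w := Complex.exp (2 * Real.pi * Complex.I * τ / l) with hw
  have h1 : HasSum (fun m : ℕ => ∑ b ∈ Finset.range l, coef f m *
      (w ^ m * (Complex.exp (2 * Real.pi * Complex.I * m / l)) ^ b) * (l : ℂ)⁻¹)
      (Ul k l f τ) := by
    rw [Ul_apply]
    refine hasSum_sum fun b _ => ?_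
    have := (hf.hasSum (tri 1 b l (by simp [NeZero.ne l]) • τ)).mul_right (l : ℂ)⁻¹
    simpa only [qParam_U] using this
  have h2 : (fun m : ℕ => ∑ b ∈ Finset.range l, coef f m *
      (w ^ m * (Complex.exp (2 * Real.pi * Complex.I * m / l)) ^ b) * (l : ℂ)⁻¹) =
      fun m => if l ∣ m then coef f m * w ^ m else 0 := by
    funext m
    have e : ∀ b ∈ Finset.range l, coef f m *
        (w ^ m * (Complex.exp (2 * Real.pi * Complex.I * m / l)) ^ b) * (l : ℂ)⁻¹ =
        coef f m * w ^ m * (l : ℂ)⁻¹ * (Complex.exp (2 * Real.pi * Complex.I * m / l)) ^ b :=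
      fun b _ => by ring
    rw [Finset.sum_congr rfl e, ← Finset.mul_sum, sum_root]
    split_ifs
    · field_simp
    · rw [mul_zero]
  rw [h2] at h1
  have hinj : Function.Injective (fun m : ℕ => l * m) := fun a b h =>
    Nat.eq_of_mul_eq_mul_left hl0 h
  have h3 := (hinj.hasSum_iff (f := fun m => if l ∣ m then coef f m * w ^ m else 0)
    (a := Ul k l f τ) (fun x hx => by
      rw [if_neg]
      rintro ⟨c, rfl⟩
      exact hx ⟨c, rfl⟩)).2 h1
  convert! h3 using 2 with m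
  simp only [Function.comp_apply, dvd_mul_right, if_true]
  congr 1
  rw [hw, Periodic.qParam, ← Complex.exp_nat_mul, ← Complex.exp_nat_mul]
  congr 1
  push_cast
  field_simp

/-- `a_m(U_l f) = a_{lm}(f)` -/
theorem coef_Ul {f : ℍ → ℂ} (hf : QE f) (k l : ℕ) [NeZero l] (m : ℕ) :
    coef (Ul k l f) m = coef f (l * m) :=
  coef_eq (mdiff_Ul hf.holo) (hasSum_Ul hf k l) m

lemma qe_Ul {f : ℍ → ℂ} (hf : QE f) (k l : ℕ) [NeZero l] : QE (Ul k l f) :=
  QE_of_hasSum (mdiff_Ul hf.holo) (hasSum_Ul hf k l)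

/-! ### The coefficients of `f(l z)` -/

lemma toR_repV (l : ℕ) [NeZero l] : toR (repV l) = tri l 0 1 (by simp [NeZero.ne l]) := by
  ext i j
  fin_cases i <;> fin_cases j <;> simp [toR, repV, triQ, tri, Matrix.GeneralLinearGroup.map]

lemma Vl_apply {l : ℕ} [NeZero l] (f : ℍ → ℂ) (τ : ℍ) :
    Vl l f τ = f (tri l 0 1 (by simp [NeZero.ne l]) • τ) := by
  unfold Vl
  rw [toR_repV]

lemma Vl_eq_slash {l : ℕ} [NeZero l] (f : ℍ → ℂ) :
    Vl l f = f ∣[(1 : ℤ)] tri l 0 1 (by simp [NeZero.ne l]) := by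
  funext τ
  rw [Vl_apply, slash_V]
  simp

lemma mdiff_Vl {l : ℕ} [NeZero l] {f : ℍ → ℂ} (hf : MDiff f) : MDiff (Vl l f) := by
  rw [Vl_eq_slash]
  exact hf.slash 1 _

lemma qParam_V {l : ℕ} [NeZero l] (τ : ℍ) (m : ℕ) :
    Periodic.qParam 1 (tri l 0 1 (by simp [NeZero.ne l]) • τ : ℍ) ^ m =
      Periodic.qParam 1 τ ^ (l * m) := by
  have hl' : 0 < (l : ℝ) * 1 := by
    rw [mul_one]; exact_mod_cast Nat.pos_of_ne_zero (NeZero.ne l)
  rw [coe_tri_smul _ hl', Periodic.qParam, Periodic.qParam, ← Complex.exp_nat_mul,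
    ← Complex.exp_nat_mul]
  congr 1
  push_cast
  ring

lemma hasSum_Vl {f : ℍ → ℂ} (hf : QE f) (l : ℕ) [NeZero l] (τ : ℍ) :
    HasSum (fun m : ℕ => (if l ∣ m then coef f (m / l) else 0) * Periodic.qParam 1 τ ^ m)
      (Vl l f τ) := by
  have hl0 : 0 < l := Nat.pos_of_ne_zero (NeZero.ne l)
  have hinj : Function.Injective (fun m : ℕ => l * m) := fun a b h =>
    Nat.eq_of_mul_eq_mul_left hl0 h
  have h1 := hf.hasSum (tri l 0 1 (by simp [NeZero.ne l]) • τ)
  rw [← Vl_apply f τ] at h1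
  refine (hinj.hasSum_iff (fun x hx => ?_)).1 ?_
  · rw [if_neg, zero_mul]
    rintro ⟨c, rfl⟩
    exact hx ⟨c, rfl⟩
  · convert! h1 using 2 with m
    rw [qParam_V]
    simp only [Function.comp_apply, dvd_mul_right, if_true, Nat.mul_div_cancel_left _ hl0]

/-- `a_m(f(l z)) = a_{m/l}(f)` -/
theorem coef_Vl {f : ℍ → ℂ} (hf : QE f) (l : ℕ) [NeZero l] (m : ℕ) :
    coef (Vl l f) m = if l ∣ m then coef f (m / l) else 0 :=
  coef_eq (mdiff_Vl hf.holo) (hasSum_Vl hf l) m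

lemma qe_Vl {f : ℍ → ℂ} (hf : QE f) (l : ℕ) [NeZero l] : QE (Vl l f) :=
  QE_of_hasSum (mdiff_Vl hf.holo) (hasSum_Vl hf l)

/-! ### Linearity -/

lemma coef_add {f g : ℍ → ℂ} (hf : QE f) (hg : QE g) (m : ℕ) :
    coef (f + g) m = coef f m + coef g m :=
  coef_eq (c := fun m => coef f m + coef g m) (hf.holo.add hg.holo) (fun τ => by
    have := (hf.hasSum τ).add (hg.hasSum τ)
    simp only [← add_mul] at this
    exact this) m

lemma coef_smul {f : ℍ → ℂ} (hf : QE f) (c : ℂ) (m : ℕ) :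
    coef (c • f) m = c * coef f m :=
  coef_eq (c := fun m => c * coef f m) (hf.holo.const_smul c) (fun τ => by
    have := (hf.hasSum τ).mul_left c
    simp only [← mul_assoc] at this
    exact this) m

lemma QE.add {f g : ℍ → ℂ} (hf : QE f) (hg : QE g) : QE (f + g) :=
  QE_of_hasSum (c := fun m => coef f m + coef g m) (hf.holo.add hg.holo) (fun τ => by
    have := (hf.hasSum τ).add (hg.hasSum τ)
    simp only [← add_mul] at this
    exact this)

lemma QE.smul {f : ℍ → ℂ} (hf : QE f) (c : ℂ) : QE (c • f) :=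
  QE_of_hasSum (c := fun m => c * coef f m) (hf.holo.const_smul c) (fun τ => by
    have := (hf.hasSum τ).mul_left c
    simp only [← mul_assoc] at this
    exact this)

/-! ### The coefficients of `T_l f` -/

lemma Tl_eq {k l : ℕ} [NeZero l] (f : ℍ → ℂ) :
    Tl k l f = (l : ℂ) ^ ((k : ℤ) - 1) • Vl l f + Ul k l f := by
  unfold Tl Ul
  congr 1
  funext τ
  rw [slash_V, Pi.smul_apply, Vl_apply, smul_eq_mul, mul_comm]

lemma qe_Tl {f : ℍ → ℂ} (hf : QE f) (k l : ℕ) [NeZero l] : QE (Tl k l f) := by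
  rw [Tl_eq]
  exact ((qe_Vl hf l).smul _).add (qe_Ul hf k l)

/-- `a_m(T_l f) = a_{lm}(f) + l^(k-1) a_{m/l}(f)` -/
theorem coef_Tl {f : ℍ → ℂ} (hf : QE f) (k l : ℕ) [NeZero l] (m : ℕ) :
    coef (Tl k l f) m = coef f (l * m) +
      (l : ℂ) ^ ((k : ℤ) - 1) * (if l ∣ m then coef f (m / l) else 0) := by
  rw [Tl_eq, coef_add ((qe_Vl hf l).smul _) (qe_Ul hf k l), coef_smul (qe_Vl hf l),
    coef_Ul hf, coef_Vl hf, add_comm]

/-- `a_1(T_l f) = a_l(f)` -/
theorem coef_Tl_one {f : ℍ → ℂ} (hf : QE f) (k l : ℕ) [NeZero l] (hl : 1 < l) :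
    coef (Tl k l f) 1 = coef f l := by
  rw [coef_Tl hf, mul_one, if_neg, mul_zero, add_zero]
  intro h
  have := Nat.le_of_dvd one_pos h
  omega

/-- `a_1(U_l f) = a_l(f)` -/
theorem coef_Ul_one {f : ℍ → ℂ} (hf : QE f) (k l : ℕ) [NeZero l] :
    coef (Ul k l f) 1 = coef f l := by
  rw [coef_Ul hf, mul_one]

/-! ### Commutation -/

theorem Tl_comm {f : ℍ → ℂ} (hf : QE f) (k : ℕ) {l q : ℕ} [NeZero l] [NeZero q]
    (h : Nat.Coprime l q) : Tl k l (Tl k q f) = Tl k q (Tl k l f) := by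
  refine coef_inj (qe_Tl (qe_Tl hf k q) k l) (qe_Tl (qe_Tl hf k l) k q) fun m => ?_
  rw [coef_Tl (qe_Tl hf k q), coef_Tl (qe_Tl hf k l), coef_Tl hf, coef_Tl hf, coef_Tl hf,
    coef_Tl hf]
  have hl : 0 < l := Nat.pos_of_ne_zero (NeZero.ne l)
  have hq : 0 < q := Nat.pos_of_ne_zero (NeZero.ne q)
  have e1 : q * (l * m) = l * (q * m) := by ring
  have e2 : q ∣ l * m ↔ q ∣ m := h.symm.dvd_mul_left
  have e3 : l ∣ q * m ↔ l ∣ m := h.dvd_mul_left
  rw [e1]
  simp only [e2, e3]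
  by_cases h1 : l ∣ m <;> by_cases h2 : q ∣ m
  · obtain ⟨c, rfl⟩ := h.mul_dvd_of_dvd_of_dvd h1 h2
    have a1 : l * q * c / l = q * c := by
      rw [mul_assoc]; exact Nat.mul_div_cancel_left _ hl
    have a2 : l * q * c / q = l * c := by
      rw [mul_comm l q, mul_assoc]; exact Nat.mul_div_cancel_left _ hq
    have a3 : l * (l * q * c) / q = l * (l * c) := by
      rw [show l * (l * q * c) = q * (l * (l * c)) by ring]; exact Nat.mul_div_cancel_left _ hq
    have a4 : q * (l * q * c) / l = q * (q * c) := by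
      rw [show q * (l * q * c) = l * (q * (q * c)) by ring]; exact Nat.mul_div_cancel_left _ hl
    have a5 : l * c / l = c := Nat.mul_div_cancel_left _ hl
    have a6 : q * c / q = c := Nat.mul_div_cancel_left _ hq
    have a7 : q ∣ q * c := Dvd.intro c rfl
    have a8 : l ∣ l * c := Dvd.intro c rfl
    simp only [a1, a2, a3, a4, a5, a6, a7, a8, h1, h2, if_true]
    have a9 : q ∣ l * (q * c) := (a7).mul_left _
    ring
  · obtain ⟨c, rfl⟩ := h1
    have a1 : l * c / l = c := Nat.mul_div_cancel_left _ hl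
    have a2 : ¬ q ∣ c := fun h3 => h2 (h3.mul_left _)
    have a3 : q * (l * c) / l = q * c := by
      rw [show q * (l * c) = l * (q * c) by ring]; exact Nat.mul_div_cancel_left _ hl
    simp only [a1, a2, a3, h2, dvd_mul_right, if_true, if_false, mul_zero, add_zero]
  · obtain ⟨c, rfl⟩ := h2
    have a1 : q * c / q = c := Nat.mul_div_cancel_left _ hq
    have a2 : ¬ l ∣ c := fun h3 => h1 (h3.mul_left _)
    have a3 : l * (q * c) / q = l * c := by
      rw [show l * (q * c) = q * (l * c) by ring]; exact Nat.mul_div_cancel_left _ hq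
    simp only [a1, a2, a3, h1, dvd_mul_right, if_true, if_false, mul_zero, add_zero]
  · simp only [h1, h2, if_false, mul_zero, add_zero]

theorem Ul_comm {f : ℍ → ℂ} (hf : QE f) (k l q : ℕ) [NeZero l] [NeZero q] :
    Ul k l (Ul k q f) = Ul k q (Ul k l f) := by
  refine coef_inj (qe_Ul (qe_Ul hf k q) k l) (qe_Ul (qe_Ul hf k l) k q) fun m => ?_
  rw [coef_Ul (qe_Ul hf k q), coef_Ul (qe_Ul hf k l), coef_Ul hf, coef_Ul hf]
  congr 1
  ring

theorem Tl_Ul_comm {f : ℍ → ℂ} (hf : QE f) (k : ℕ) {l q : ℕ} [NeZero l] [NeZero q]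
    (h : Nat.Coprime l q) : Tl k l (Ul k q f) = Ul k q (Tl k l f) := by
  refine coef_inj (qe_Tl (qe_Ul hf k q) k l) (qe_Ul (qe_Tl hf k l) k q) fun m => ?_
  rw [coef_Tl (qe_Ul hf k q), coef_Ul (qe_Tl hf k l), coef_Ul hf, coef_Ul hf, coef_Tl hf]
  have hl : 0 < l := Nat.pos_of_ne_zero (NeZero.ne l)
  have e1 : q * (l * m) = l * (q * m) := by ring
  have e3 : l ∣ q * m ↔ l ∣ m := h.dvd_mul_left
  rw [e1]
  simp only [e3]
  by_cases h1 : l ∣ m
  · obtain ⟨c, rfl⟩ := h1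
    rw [Nat.mul_div_cancel_left _ hl, show q * (l * c) = l * (q * c) by ring,
      Nat.mul_div_cancel_left _ hl]
  · simp only [h1, if_false]

/-- `U_l (f(l z)) = f` -/
theorem Ul_Vl {f : ℍ → ℂ} (hf : QE f) (k l : ℕ) [NeZero l] : Ul k l (Vl l f) = f := by
  refine coef_inj (qe_Ul (qe_Vl hf l) k l) hf fun m => ?_
  have hl : 0 < l := Nat.pos_of_ne_zero (NeZero.ne l)
  rw [coef_Ul (qe_Vl hf l), coef_Vl hf, if_pos (dvd_mul_right l m), Nat.mul_div_cancel_left _ hl]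

/-- `V_l` commutes with `T_q`, `q` prime to `l` -/
theorem Tl_Vl_comm {f : ℍ → ℂ} (hf : QE f) (k : ℕ) {l q : ℕ} [NeZero l] [NeZero q]
    (h : Nat.Coprime l q) : Tl k q (Vl l f) = Vl l (Tl k q f) := by
  refine coef_inj (qe_Tl (qe_Vl hf l) k q) (qe_Vl (qe_Tl hf k q) l) fun m => ?_
  rw [coef_Tl (qe_Vl hf l), coef_Vl (qe_Tl hf k q), coef_Vl hf, coef_Vl hf, coef_Tl hf]
  have hl : 0 < l := Nat.pos_of_ne_zero (NeZero.ne l)
  have hq : 0 < q := Nat.pos_of_ne_zero (NeZero.ne q)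
  have e3 : l ∣ q * m ↔ l ∣ m := h.dvd_mul_left
  by_cases h1 : l ∣ m
  · obtain ⟨c, rfl⟩ := h1
    have a2 : q ∣ l * c ↔ q ∣ c := h.symm.dvd_mul_left
    rw [if_pos (e3.2 (dvd_mul_right l c)), if_pos (dvd_mul_right l c),
      show q * (l * c) = l * (q * c) by ring, Nat.mul_div_cancel_left _ hl,
      Nat.mul_div_cancel_left _ hl]
    by_cases h2 : q ∣ c
    · obtain ⟨d, rfl⟩ := h2
      have a3 : l * (q * d) / q = l * d := by
        rw [show l * (q * d) = q * (l * d) by ring]; exact Nat.mul_div_cancel_left _ hq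
      rw [if_pos (a2.2 (dvd_mul_right q d)), if_pos (dvd_mul_right q d), a3,
        if_pos (dvd_mul_right l d), Nat.mul_div_cancel_left _ hl, Nat.mul_div_cancel_left _ hq]
    · rw [if_neg (fun h3 => h2 (a2.1 h3)), if_neg h2]
  · rw [if_neg (fun h3 => h1 (e3.1 h3)), if_neg h1]
    by_cases h2 : q ∣ m
    · obtain ⟨d, rfl⟩ := h2
      rw [if_pos (dvd_mul_right q d), Nat.mul_div_cancel_left _ hq,
        if_neg (fun h3 => h1 (h3.mul_left _))]
      simp
    · rw [if_neg h2]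
      simp

/-- `V_l` commutes with `U_q`, `q` prime to `l` -/
theorem Ul_Vl_comm {f : ℍ → ℂ} (hf : QE f) (k : ℕ) {l q : ℕ} [NeZero l] [NeZero q]
    (h : Nat.Coprime l q) : Ul k q (Vl l f) = Vl l (Ul k q f) := by
  refine coef_inj (qe_Ul (qe_Vl hf l) k q) (qe_Vl (qe_Ul hf k q) l) fun m => ?_
  rw [coef_Ul (qe_Vl hf l), coef_Vl (qe_Ul hf k q), coef_Vl hf, coef_Ul hf]
  have hl : 0 < l := Nat.pos_of_ne_zero (NeZero.ne l)
  have e3 : l ∣ q * m ↔ l ∣ m := h.dvd_mul_left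
  by_cases h1 : l ∣ m
  · obtain ⟨c, rfl⟩ := h1
    rw [if_pos (e3.2 (dvd_mul_right l c)), if_pos (dvd_mul_right l c),
      show q * (l * c) = l * (q * c) by ring, Nat.mul_div_cancel_left _ hl,
      Nat.mul_div_cancel_left _ hl]
  · rw [if_neg (fun h3 => h1 (e3.1 h3)), if_neg h1]

end Gouvea.ES
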