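import Pool.Agent.Work.MP_d3517d_nt.ES.HeckeCusp
import Pool.Agent.Work.MP_d3517d_nt.ES.HeckeQ

/-!
# The operators `T_l` and `U_l` on `Cusp N k` commute (MP_d3517d_nt, cell ES)
-/

set_option autoImplicit false

open UpperHalfPlane CongruenceSubgroup Finset
open scoped MatrixGroups ModularForm

noncomputable section

namespace Gouvea.ES

variable {N k : ℕ} [NeZero N]

theorem TlC_comm {l q : ℕ} (hl : l.Prime) (hlN : ¬ l ∣ N) (hq : q.Prime) (hqN : ¬ q ∣ N) :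
    Commute (TlC (N := N) k hl hlN) (TlC k hq hqN) := by
  have : NeZero l := ⟨hl.ne_zero⟩
  have : NeZero q := ⟨hq.ne_zero⟩
  rcases eq_or_ne l q with rfl | hne
  · exact Commute.refl _
  · refine LinearMap.ext fun f => ?_
    apply DFunLike.coe_injective
    show (TlC k hl hlN (TlC k hq hqN f) : ℍ → ℂ) = (TlC k hq hqN (TlC k hl hlN f) : ℍ → ℂ)
    rw [coe_TlC, coe_TlC, coe_TlC, coe_TlC]
    exact Tl_comm (qe_cusp f) k ((Nat.coprime_primes hl hq).2 hne)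

theorem TlC_UlC_comm {l q : ℕ} (hl : l.Prime) (hlN : ¬ l ∣ N) (hq : q.Prime) (hqN : q ∣ N) :
    Commute (TlC (N := N) k hl hlN) (UlC k hq hqN) := by
  have : NeZero l := ⟨hl.ne_zero⟩
  have : NeZero q := ⟨hq.ne_zero⟩
  have hne : l ≠ q := fun h => hlN (h ▸ hqN)
  refine LinearMap.ext fun f => ?_
  apply DFunLike.coe_injective
  show (TlC k hl hlN (UlC k hq hqN f) : ℍ → ℂ) = (UlC k hq hqN (TlC k hl hlN f) : ℍ → ℂ)
  rw [coe_TlC, coe_UlC, coe_UlC, coe_TlC]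
  exact Tl_Ul_comm (qe_cusp f) k ((Nat.coprime_primes hl hq).2 hne)

theorem UlC_comm {l q : ℕ} (hl : l.Prime) (hlN : l ∣ N) (hq : q.Prime) (hqN : q ∣ N) :
    Commute (UlC (N := N) k hl hlN) (UlC k hq hqN) := by
  have : NeZero l := ⟨hl.ne_zero⟩
  have : NeZero q := ⟨hq.ne_zero⟩
  refine LinearMap.ext fun f => ?_
  apply DFunLike.coe_injective
  show (UlC k hl hlN (UlC k hq hqN f) : ℍ → ℂ) = (UlC k hq hqN (UlC k hl hlN f) : ℍ → ℂ)
  rw [coe_UlC, coe_UlC, coe_UlC, coe_UlC]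
  exact Ul_comm (qe_cusp f) k l q

end Gouvea.ES
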