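import Pool.Agent.Work.MP_d3517d_nt.ES.Desc1
import Pool.Agent.Work.MP_d3517d_nt.ES.HeckeComm

/-!
# The two maps `f(z) ↦ f(z)` and `f(z) ↦ f(l z)` from level `N` to level `N l`
(MP_d3517d_nt, cell ES)
-/

set_option autoImplicit false

open UpperHalfPlane CongruenceSubgroup Finset
open Matrix.SpecialLinearGroup (mapGL)
open scoped MatrixGroups ModularForm Pointwise

noncomputable section

namespace Gouvea.ES

instance up_neZero (N l : ℕ) [NeZero N] [NeZero l] : NeZero (N * l) :=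
  ⟨Nat.mul_ne_zero (NeZero.ne N) (NeZero.ne l)⟩

theorem Gam0_mul_le (N l : ℕ) : Gam0 (N * l) ≤ Gam0 N := by
  rintro _ ⟨γ, hγ, rfl⟩
  refine ⟨γ, ?_, rfl⟩
  have h1 := Gamma0_mem.1 hγ
  rw [ZMod.intCast_zmod_eq_zero_iff_dvd] at h1
  refine Gamma0_mem.2 ?_
  rw [ZMod.intCast_zmod_eq_zero_iff_dvd]
  exact (Dvd.intro _ (by push_cast; rfl)).trans h1

/-- a form of level `N` as a form of level `N l` -/
def upC (N l k : ℕ) : Cusp N k →ₗ[ℂ] Cusp (N * l) k where
  toFun f :=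
    { toFun := f
      slash_action_eq' γ hγ := f.slash_action_eq' γ (Gam0_mul_le N l hγ)
      holo' := f.holo'
      zero_at_cusps' hc := f.zero_at_cusps' (hc.mono (Gam0_mul_le N l)) }
  map_add' _ _ := rfl
  map_smul' _ _ := rfl

theorem upC_coe (N l k : ℕ) (f : Cusp N k) : (upC N l k f : ℍ → ℂ) = f := rfl

theorem upC_inj (N l k : ℕ) : Function.Injective (upC N l k) := by
  intro f g h
  apply DFunLike.coe_injective
  exact congrArg (fun u : Cusp (N * l) k => (u : ℍ → ℂ)) h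

/-- `(l 0; 0 1)` conjugates `Γ₀(N l)` into `Γ₀(N)` -/
theorem Gam0_conj (N l : ℕ) [NeZero l] :
    Gam0 (N * l) ≤ ConjAct.toConjAct (tri l 0 1 (by simp [NeZero.ne l]))⁻¹ • Gam0 N := by
  rintro _ ⟨γ, hγ, rfl⟩
  rw [Subgroup.mem_pointwise_smul_iff_inv_smul_mem]
  have hN := Gamma0_mem.1 hγ
  obtain ⟨c, hc⟩ := (ZMod.intCast_zmod_eq_zero_iff_dvd _ _).1 hN
  have hdet : γ 0 0 * γ 1 1 - γ 0 1 * γ 1 0 = 1 := by
    have := γ.det_coe
    rw [Matrix.det_fin_two] at this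
    exact this
  let γ' : SL(2, ℤ) := ⟨!![γ 0 0, l * γ 0 1; N * c, γ 1 1], by
    rw [Matrix.det_fin_two_of]
    rw [hc] at hdet
    push_cast at hdet
    linear_combination hdet⟩
  have g10 : γ' 1 0 = N * c := rfl
  have h1 : mapGL ℝ γ' * tri l 0 1 (by simp [NeZero.ne l]) =
      tri l 0 1 (by simp [NeZero.ne l]) * mapGL ℝ γ := by
    have hcR : ((γ 1 0 : ℤ) : ℝ) = N * l * c := by rw [hc]; push_cast; ring
    have g00 : γ' 0 0 = γ 0 0 := rfl
    have g01 : γ' 0 1 = l * γ 0 1 := rfl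
    have g10 : γ' 1 0 = N * c := rfl
    have g11 : γ' 1 1 = γ 1 1 := rfl
    clear_value γ'
    apply Matrix.GeneralLinearGroup.ext
    intro i j
    fin_cases i <;> fin_cases j
    · simp [tri, Matrix.mul_apply, Fin.sum_univ_two, g00, mul_comm]
    · simp [tri, Matrix.mul_apply, Fin.sum_univ_two, g01, mul_comm]
    · simp [tri, Matrix.mul_apply, Fin.sum_univ_two, g10]
      rw [hcR]
      ring
    · simp [tri, Matrix.mul_apply, Fin.sum_univ_two, g11]
  refine ⟨γ', ?_, ?_⟩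
  · refine Gamma0_mem.2 ?_
    show ((γ' 1 0 : ℤ) : ZMod N) = 0
    rw [g10]
    simp
  · rw [ConjAct.smul_def]
    simp only [ConjAct.ofConjAct_inv, ConjAct.ofConjAct_toConjAct, inv_inv]
    rw [← h1, mul_inv_cancel_right]

/-- a form `f(z)` of level `N` gives the form `f(l z)` of level `N l`, up to a factor -/
def vpC0 (N l k : ℕ) [NeZero l] (f : Cusp N k) : Cusp (N * l) k where
  toFun := f ∣[(k : ℤ)] tri l 0 1 (by simp [NeZero.ne l])
  slash_action_eq' γ hγ := by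
    have h1 := (CuspForm.translate f (tri l 0 1 (by simp [NeZero.ne l]))).slash_action_eq' γ
      (Gam0_conj N l hγ)
    exact h1
  holo' := (CuspForm.translate f (tri l 0 1 (by simp [NeZero.ne l]))).holo'
  zero_at_cusps' hc := (CuspForm.translate f (tri l 0 1 (by simp [NeZero.ne l]))).zero_at_cusps'
    (hc.mono (Gam0_conj N l))

/-- `f(z) ↦ f(l z)`, from level `N` to level `N l` -/
def vpC (N l k : ℕ) [NeZero l] : Cusp N k →ₗ[ℂ] Cusp (N * l) k where
  toFun f := ((l : ℂ) ^ ((k : ℤ) - 1))⁻¹ • vpC0 N l k f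
  map_add' f g := by
    rw [← smul_add]
    congr 1
    apply DFunLike.coe_injective
    funext τ
    show ((⇑f + ⇑g) ∣[(k : ℤ)] tri l 0 1 (by simp [NeZero.ne l])) τ = _
    rw [SlashAction.add_slash]
    rfl
  map_smul' c f := by
    apply DFunLike.coe_injective
    funext τ
    show ((l : ℂ) ^ ((k : ℤ) - 1))⁻¹ * ((c • ⇑f) ∣[(k : ℤ)] tri l 0 1 (by simp [NeZero.ne l])) τ =
      c * (((l : ℂ) ^ ((k : ℤ) - 1))⁻¹ * ((⇑f) ∣[(k : ℤ)] tri l 0 1 (by simp [NeZero.ne l])) τ)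
    rw [slash_V, slash_V, Pi.smul_apply, smul_eq_mul]
    ring

theorem vpC_coe (N l k : ℕ) [NeZero l] (f : Cusp N k) : (vpC N l k f : ℍ → ℂ) = Vl l f := by
  funext τ
  show ((l : ℂ) ^ ((k : ℤ) - 1))⁻¹ * ((⇑f) ∣[(k : ℤ)] tri l 0 1 (by simp [NeZero.ne l])) τ = _
  rw [slash_V, Vl_apply]
  have : (l : ℂ) ^ ((k : ℤ) - 1) ≠ 0 := zpow_ne_zero _ (by exact_mod_cast NeZero.ne l)
  field_simp

end Gouvea.ES
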