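import Pool.Agent.Work.MP_d3517d_nt.ES.RhoC
import Pool.Agent.Work.MP_d3517d_nt.ES.DescUp
import Pool.Agent.Work.MP_d3517d_nt.ES.Desc2

/-!
# Descent for the systems of eigenvalues of cusp forms (MP_d3517d_nt, cell ES)

* `Sys_cusp_ram`: from level `N l` to level `N`, `l ∣ N`: the other systems have `U_l = 0`;
* `Sys_cusp_unram`: from level `N l` to level `N`, `l ∤ N`: every system of level `N` gives the two
  systems with `U_l` equal to the roots of `X² - a_l X + l^(k-1)`, and the other systems have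
  `U_l² = l^(k-2)`.
-/

set_option autoImplicit false

open UpperHalfPlane CongruenceSubgroup Finset
open scoped MatrixGroups ModularForm

noncomputable section

namespace Gouvea.ES

/-- `U_l` of a form of level `N`, `l ∤ N` -/
theorem opC_up_self (N k : ℕ) [NeZero N] (l : Nat.Primes) (hl : ¬ (l : ℕ) ∣ N) (hk : 1 ≤ k)
    (f : Cusp N k) : opC (N * l) k l (upC N l k f) =
      upC N l k (opC N k l f) - (((l : ℤ) ^ (k - 1) : ℤ) : ℂ) • vpC N l k f := by
  apply DFunLike.coe_injective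
  funext τ
  show (opC (N * l) k l (upC N l k f) : ℍ → ℂ) τ = (upC N l k (opC N k l f) : ℍ → ℂ) τ -
    (((l : ℤ) ^ (k - 1) : ℤ) : ℂ) * (vpC N l k f : ℍ → ℂ) τ
  rw [opC_coe_dvd _ _ _ (Dvd.intro_left N rfl), upC_coe, upC_coe, opC_coe_not_dvd _ _ _ hl,
    vpC_coe, Tl_eq, Pi.add_apply, Pi.smul_apply, smul_eq_mul]
  have h1 : (((l : ℤ) ^ (k - 1) : ℤ) : ℂ) = (l : ℂ) ^ ((k : ℤ) - 1) := by
    have h2 : (k : ℤ) - 1 = ((k - 1 : ℕ) : ℤ) := by omega
    rw [h2, zpow_natCast]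
    push_cast
    rfl
  rw [h1]
  ring

/-- `U_l` of `f(l z)` -/
theorem opC_vp_self (N k : ℕ) [NeZero N] (l : Nat.Primes)
    (f : Cusp N k) : opC (N * l) k l (vpC N l k f) = upC N l k f := by
  apply DFunLike.coe_injective
  rw [opC_coe_dvd _ _ _ (Dvd.intro_left N rfl), vpC_coe, upC_coe]
  exact Ul_Vl (qe_cusp f) k l

theorem opC_up (N k : ℕ) [NeZero N] (l q : Nat.Primes) (h : q ≠ l ∨ (l : ℕ) ∣ N) (f : Cusp N k) :
    opC (N * l) k q (upC N l k f) = upC N l k (opC N k q f) := by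
  apply DFunLike.coe_injective
  have hq : (q : ℕ) ∣ N * l ↔ (q : ℕ) ∣ N := by
    constructor
    · intro h1
      rcases (Nat.Prime.dvd_mul q.2).1 h1 with h2 | h2
      · exact h2
      · have h3 : (q : ℕ) = l := (Nat.prime_dvd_prime_iff_eq q.2 l.2).1 h2
        rcases h with h | h
        · exact absurd (Subtype.ext h3) h
        · rw [h3]
          exact h
    · intro h1
      exact h1.mul_right _
  by_cases h1 : (q : ℕ) ∣ N
  · rw [opC_coe_dvd _ _ _ (hq.2 h1), upC_coe, upC_coe, opC_coe_dvd _ _ _ h1]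
  · rw [opC_coe_not_dvd _ _ _ (fun h2 => h1 (hq.1 h2)), upC_coe, upC_coe,
      opC_coe_not_dvd _ _ _ h1]

theorem opC_vp (N k : ℕ) [NeZero N] (l q : Nat.Primes) (h : q ≠ l) (f : Cusp N k) :
    opC (N * l) k q (vpC N l k f) = vpC N l k (opC N k q f) := by
  apply DFunLike.coe_injective
  have hne : (q : ℕ) ≠ l := fun h1 => h (Subtype.ext h1)
  have hq : (q : ℕ) ∣ N * l ↔ (q : ℕ) ∣ N := by
    constructor
    · intro h1
      rcases (Nat.Prime.dvd_mul q.2).1 h1 with h2 | h2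
      · exact h2
      · exact absurd ((Nat.prime_dvd_prime_iff_eq q.2 l.2).1 h2) hne
    · intro h1
      exact h1.mul_right _
  have hc : Nat.Coprime (l : ℕ) (q : ℕ) := (Nat.coprime_primes l.2 q.2).2 hne.symm
  by_cases h1 : (q : ℕ) ∣ N
  · rw [opC_coe_dvd _ _ _ (hq.2 h1), vpC_coe, vpC_coe, opC_coe_dvd _ _ _ h1]
    exact Ul_Vl_comm (qe_cusp f) k hc
  · rw [opC_coe_not_dvd _ _ _ (fun h2 => h1 (hq.1 h2)), vpC_coe, vpC_coe,
      opC_coe_not_dvd _ _ _ h1]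
    exact Tl_Vl_comm (qe_cusp f) k hc


open Gouvea.Sys Gouvea.Desc

/-- **descent from level `N l` to level `N`, `l ∣ N`** -/
theorem Sys_cusp_ram (N k : ℕ) [NeZero N] (l : Nat.Primes) (hl : (l : ℕ) ∣ N) :
    ∃ rest, Sys (rhoC (N * l) k) = Sys (rhoC N k) + rest ∧
      ∀ chi ∈ rest, chi (MvPolynomial.X l) = 0 := by
  refine Sys_ram l (rhoC N k) (rhoC (N * l) k) (upC N l k) (upC_inj N l k) ?_ ?_
  · intro q f
    rw [rhoC_X, rhoC_X]
    exact opC_up N k l q (Or.inr hl) f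
  · intro f
    refine ⟨UlDown N k l hl f, ?_⟩
    rw [rhoC_X]
    apply DFunLike.coe_injective
    rw [upC_coe, UlDown_coe, opC_coe_dvd _ _ _ (Dvd.intro_left N rfl)]

/-- **descent from level `N l` to level `N`, `l ∤ N`** -/
theorem Sys_cusp_unram (N k : ℕ) [NeZero N] (l : Nat.Primes) (hl : ¬ (l : ℕ) ∣ N) (hk : 2 ≤ k) :
    ∃ rest, Sys (rhoC (N * l) k) =
        (Sys (rhoC N k)).bind (two l ((((l : ℕ) : ℤ) ^ (k - 1) : ℤ) : ℂ)) + rest ∧
      ∀ chi ∈ rest, chi (MvPolynomial.X l) ^ 2 = ((((l : ℕ) : ℤ) ^ (k - 2) : ℤ) : ℂ) := by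
  refine Sys_unram l _ _ (rhoC N k) (rhoC (N * l) k) (upC N l k) (vpC N l k) ?_ ?_ ?_ ?_ ?_ ?_
  · rw [injective_iff_map_eq_zero]
    rintro ⟨f, g⟩ h
    have h1 : (f : ℍ → ℂ) + Vl l g = 0 := by
      have h2 := congrArg (fun u : Cusp (N * l) k => (u : ℍ → ℂ)) h
      rw [← vpC_coe]
      exact h2
    obtain ⟨h3, h4⟩ := desc_inj l.2 hl f g h1
    rw [h3, h4]
    rfl
  · intro q hq f
    rw [rhoC_X, rhoC_X]
    exact opC_up N k l q (Or.inl hq) f
  · intro q hq f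
    rw [rhoC_X, rhoC_X]
    exact opC_vp N k l q hq f
  · intro f
    rw [rhoC_X, rhoC_X]
    exact opC_up_self N k l hl (by omega) f
  · intro f
    rw [rhoC_X]
    exact opC_vp_self N k l f
  · intro f
    obtain ⟨a, b, hab⟩ := desc_U2 l.2 hl hk f
    refine ⟨a, b, ?_⟩
    rw [rhoC_X]
    apply DFunLike.coe_injective
    have h1 : (((opC (N * l) k l) ((opC (N * l) k l) f) : Cusp (N * l) k) : ℍ → ℂ) =
        Ul k l (Ul k l f) := by
      rw [opC_coe_dvd _ _ _ (Dvd.intro_left N rfl), opC_coe_dvd _ _ _ (Dvd.intro_left N rfl)]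
    have h2 : ((((l : ℕ) : ℤ) ^ (k - 2) : ℤ) : ℂ) = ((l : ℕ) : ℂ) ^ (k - 2) := by push_cast; rfl
    funext τ
    have h3 := congrFun hab τ
    show (((opC (N * l) k l) ((opC (N * l) k l) f) : Cusp (N * l) k) : ℍ → ℂ) τ -
      ((((l : ℕ) : ℤ) ^ (k - 2) : ℤ) : ℂ) * f τ = (upC N l k a : ℍ → ℂ) τ + (vpC N l k b : ℍ → ℂ) τ
    rw [h1, h2, upC_coe, vpC_coe]
    exact h3

end Gouvea.ES
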