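import Mathlib

/-!
# Lower bound for the dimension of `S_k(Γ₀(N))`

`dim S_k(Γ) ≥ [SL₂(ℤ) : Γ] · k / 12 - O(1)` for `Γ = Γ₀(N)` and `k` even, elementary:
with `d` the index and `F = Δ(N z)` the `d` functions `Δ · F ^ i · Δ ^ (d - 1 - i)` are linearly
independent over the forms of level one, because the `d` translates of `F` are different.
-/

open UpperHalfPlane ModularForm CongruenceSubgroup Matrix Matrix.SpecialLinearGroup
open scoped MatrixGroups ModularForm Manifold Topology Pointwise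

noncomputable section

namespace Pool.Agent.Gouv.ESDim

/-- a form for a group is a form for every smaller group -/
def restrict {Γ Γ' : Subgroup (GL (Fin 2) ℝ)} (h : Γ' ≤ Γ) {k : ℤ} (f : ModularForm Γ k) :
    ModularForm Γ' k where
  toFun := f
  slash_action_eq' A hA := f.slash_action_eq' A (h hA)
  holo' := f.holo'
  bdd_at_cusps' hc := f.bdd_at_cusps' (hc.mono h)

@[simp] lemma coe_restrict {Γ Γ' : Subgroup (GL (Fin 2) ℝ)} (h : Γ' ≤ Γ) {k : ℤ}
    (f : ModularForm Γ k) : (restrict h f : ℍ → ℂ) = f := rfl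

/-- a cusp form for a group is a cusp form for every smaller group -/
def crestrict {Γ Γ' : Subgroup (GL (Fin 2) ℝ)} (h : Γ' ≤ Γ) {k : ℤ} (f : CuspForm Γ k) :
    CuspForm Γ' k where
  toFun := f
  slash_action_eq' A hA := f.slash_action_eq' A (h hA)
  holo' := f.holo'
  zero_at_cusps' hc := f.zero_at_cusps' (hc.mono h)

@[simp] lemma coe_crestrict {Γ Γ' : Subgroup (GL (Fin 2) ℝ)} (h : Γ' ≤ Γ) {k : ℤ}
    (f : CuspForm Γ k) : (crestrict h f : ℍ → ℂ) = f := rfl

lemma coe_le_SL (Γ : Subgroup SL(2, ℤ)) : (Γ : Subgroup (GL (Fin 2) ℝ)) ≤ 𝒮ℒ := by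
  rintro _ ⟨g, _, rfl⟩
  exact ⟨g, rfl⟩

/-! ## The linear independence argument -/

/-- `d` functions, polynomials of degree `< d`, roots at `d` different functions -/
lemma coeff_zero_of_roots {d : ℕ} (f : Fin d → ℍ → ℂ) (hf : ∀ i, MDiff (f i))
    (r : Fin d → ℍ → ℂ) (hr : ∀ j, MDiff (r j)) (hinj : Function.Injective r)
    (h : ∀ j, ∑ i : Fin d, f i * (r j) ^ (i : ℕ) = 0) (i : Fin d) : f i = 0 := by
  classical
  -- the Vandermonde determinant
  set V : ℍ → ℂ := fun z => (Matrix.vandermonde fun j => r j z).det with hV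
  have hVprod : V = ∏ i : Fin d, ∏ j ∈ Finset.Ioi i, (r j - r i) := by
    ext z
    simp [hV, Matrix.det_vandermonde]
  have hVd : MDiff V := by
    rw [hVprod]
    refine MDifferentiable.prod fun a _ => MDifferentiable.prod fun b _ => (hr b).sub (hr a)
  have hV0 : V ≠ 0 := by
    rw [hVprod]
    intro h0
    rw [UpperHalfPlane.prod_eq_zero_iff] at h0
    · obtain ⟨a, _, ha⟩ := h0
      rw [UpperHalfPlane.prod_eq_zero_iff] at ha
      · obtain ⟨b, hb, hab⟩ := ha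
        rw [sub_eq_zero] at hab
        have := hinj hab
        simp [this] at hb
      · exact fun b _ => (hr b).sub (hr a)
    · exact fun a _ => MDifferentiable.prod fun b _ => (hr b).sub (hr a)
  have hmul : f i * V = 0 := by
    ext z
    by_cases hz : V z = 0
    · simp [hz]
    · have hunit : IsUnit (Matrix.vandermonde fun j => r j z).det := isUnit_iff_ne_zero.2 hz
      have hvec : (Matrix.vandermonde fun j => r j z).mulVec (fun i => f i z) = 0 := by
        ext j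
        have := congrFun (h j) z
        simp only [Finset.sum_apply, Pi.mul_apply, Pi.pow_apply, Pi.zero_apply] at this
        simp only [Matrix.mulVec, dotProduct, Matrix.vandermonde_apply, Pi.zero_apply]
        rw [← this]
        exact Finset.sum_congr rfl fun i _ => mul_comm _ _
      have := Matrix.eq_zero_of_mulVec_eq_zero (isUnit_iff_ne_zero.1 hunit) hvec
      have hz' := congrFun this i
      simp only [Pi.zero_apply] at hz'
      simp [hz']
  rcases (UpperHalfPlane.mul_eq_zero_iff (hf i) hVd).1 hmul with h1 | h1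
  · exact h1
  · exact absurd h1 hV0

/-! ## The family of cusp forms -/

section family

variable {Γ : Subgroup SL(2, ℤ)} (F : ModularForm (Γ : Subgroup (GL (Fin 2) ℝ)) 12)

/-- `Δ · F ^ i · Δ ^ (d - 1 - i)` -/
def cfam (d : ℕ) (i : Fin d) :
    CuspForm (Γ : Subgroup (GL (Fin 2) ℝ)) (12 * d) :=
  CuspForm.mcast (by have := i.2; push_cast [Nat.sub_sub, Nat.cast_sub (by omega : 1 + (i : ℕ) ≤ d)]; ring)
    ((crestrict (coe_le_SL Γ) CuspForm.discriminant).mulModularForm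
      ((F.pow i).mul ((restrict (coe_le_SL Γ)
        (CuspForm.discriminant : ModularForm 𝒮ℒ 12)).pow (d - 1 - i))))

lemma cfam_apply (d : ℕ) (i : Fin d) (z : ℍ) :
    cfam F d i z = ModularForm.discriminant z *
      (F z ^ (i : ℕ) * ModularForm.discriminant z ^ (d - 1 - (i : ℕ))) := by
  change ModularForm.discriminant z * ((F.pow i) z * ((restrict (coe_le_SL Γ)
        (CuspForm.discriminant : ModularForm 𝒮ℒ 12)).pow (d - 1 - i)) z) = _
  simp only [ModularForm.coe_pow, Pi.pow_apply, coe_restrict]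
  rfl

/-- multiplication of a form of level one by a fixed cusp form -/
def mulL {a k' k : ℤ} (h : a + k' = k) (C : CuspForm (Γ : Subgroup (GL (Fin 2) ℝ)) a) :
    ModularForm 𝒮ℒ k' →ₗ[ℂ] CuspForm (Γ : Subgroup (GL (Fin 2) ℝ)) k where
  toFun g := CuspForm.mcast h (C.mulModularForm (restrict (coe_le_SL Γ) g))
  map_add' x y := by
    ext z
    exact mul_add _ _ _
  map_smul' c x := by
    ext z
    exact mul_left_comm _ _ _

lemma mulL_apply {a k' k : ℤ} (h : a + k' = k) (C : CuspForm (Γ : Subgroup (GL (Fin 2) ℝ)) a)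
    (g : ModularForm 𝒮ℒ k') (z : ℍ) : mulL h C g z = C z * g z := rfl

/-- the whole family -/
def total {d : ℕ} {k' k : ℤ} (h : 12 * (d : ℤ) + k' = k) :
    (Fin d → ModularForm 𝒮ℒ k') →ₗ[ℂ] CuspForm (Γ : Subgroup (GL (Fin 2) ℝ)) k :=
  ∑ i : Fin d, (mulL h (cfam F d i)).comp (LinearMap.proj i)

lemma total_apply {d : ℕ} {k' k : ℤ} (h : 12 * (d : ℤ) + k' = k)
    (g : Fin d → ModularForm 𝒮ℒ k') (z : ℍ) :
    total F h g z = ∑ i : Fin d, cfam F d i z * g i z := by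
  have : ∀ s : Finset (Fin d), (∑ i ∈ s, (mulL h (cfam F d i)).comp
      (LinearMap.proj (R := ℂ) (φ := fun _ : Fin d => ModularForm 𝒮ℒ k') i)) g z =
      ∑ i ∈ s, cfam F d i z * g i z := by
    classical
    intro s
    induction s using Finset.induction_on with
    | empty => simp
    | insert a s ha ih =>
      rw [Finset.sum_insert ha, Finset.sum_insert ha, ← ih]
      rfl
  exact this _

lemma discr_smul (γ : SL(2, ℤ)) (z : ℍ) : ModularForm.discriminant (γ • z) =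
    denom γ z ^ (12 : ℤ) * ModularForm.discriminant z :=
  SlashInvariantForm.slash_action_eqn'' (Γ := 𝒮ℒ) CuspForm.discriminant ⟨γ, rfl⟩ z

lemma one_smul' {k' : ℤ} (g : ModularForm 𝒮ℒ k') (γ : SL(2, ℤ)) (z : ℍ) : g (γ • z) =
    denom γ z ^ k' * g z :=
  SlashInvariantForm.slash_action_eqn'' (Γ := 𝒮ℒ) g ⟨γ, rfl⟩ z

lemma F_smul (γ : SL(2, ℤ)) (z : ℍ) : F (γ • z) =
    denom γ z ^ (12 : ℤ) * ((F : ℍ → ℂ) ∣[(12 : ℤ)] γ) z := by
  rw [SL_slash_apply, mul_comm, mul_assoc, ← zpow_add₀ (denom_ne_zero _ _)]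
  simp

/-- translates of the relation -/
lemma relation {d : ℕ} {k' k : ℤ} (h : 12 * (d : ℤ) + k' = k)
    (g : Fin d → ModularForm 𝒮ℒ k') (hg : total F h g = 0) (γ : SL(2, ℤ)) :
    ∑ i : Fin d, (fun z => g i z * (ModularForm.discriminant z *
      ModularForm.discriminant z ^ (d - 1 - (i : ℕ)))) *
      ((F : ℍ → ℂ) ∣[(12 : ℤ)] γ) ^ (i : ℕ) = 0 := by
  ext z
  have h1 := congrArg (fun f : CuspForm _ _ => f (γ • z)) hg
  simp only [total_apply, cfam_apply] at h1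
  have h2 : ∀ i : Fin d, ModularForm.discriminant (γ • z) *
      (F (γ • z) ^ (i : ℕ) * ModularForm.discriminant (γ • z) ^ (d - 1 - (i : ℕ))) * g i (γ • z) =
      (denom γ z ^ (12 : ℤ)) ^ d * denom γ z ^ k' * (g i z * (ModularForm.discriminant z *
      ModularForm.discriminant z ^ (d - 1 - (i : ℕ))) *
      (((F : ℍ → ℂ) ∣[(12 : ℤ)] γ) z) ^ (i : ℕ)) := by
    intro i
    rw [discr_smul, F_smul, one_smul']
    have hd : d = 1 + ((i : ℕ) + (d - 1 - (i : ℕ))) := by have := i.2; omega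
    have : (denom γ z ^ (12 : ℤ)) ^ d = (denom γ z ^ (12 : ℤ)) ^ (1 + ((i : ℕ) + (d - 1 - (i : ℕ)))) := by
      rw [← hd]
    rw [this, pow_add, pow_add, pow_one, mul_pow, mul_pow]
    ring
  simp only [Finset.sum_apply, Pi.mul_apply, Pi.pow_apply, Pi.zero_apply]
  rw [Finset.sum_congr rfl fun i _ => h2 i, ← Finset.mul_sum] at h1
  have h3 : (denom γ z ^ (12 : ℤ)) ^ d * denom γ z ^ k' ≠ 0 :=
    mul_ne_zero (pow_ne_zero _ (zpow_ne_zero _ (denom_ne_zero _ _)))
      (zpow_ne_zero _ (denom_ne_zero _ _))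
  exact (mul_eq_zero.1 h1).resolve_left h3

/-- **Injectivity**: if only elements of `Γ` fix `F`, the family of all
`∑ g i · Δ · F ^ i · Δ ^ (d - 1 - i)` with `d = [SL₂(ℤ) : Γ]` is free over level one. -/
theorem total_injective [Γ.FiniteIndex]
    (hF : ∀ γ : SL(2, ℤ), ((F : ℍ → ℂ) ∣[(12 : ℤ)] γ) = F → γ ∈ Γ)
    {k' k : ℤ} (h : 12 * (Γ.index : ℤ) + k' = k) :
    Function.Injective (total F h) := by
  classical
  rw [injective_iff_map_eq_zero]
  intro g hg
  have e : Fin Γ.index ≃ SL(2, ℤ) ⧸ Γ := (Finite.equivFinOfCardEq rfl).symm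
  set r : Fin Γ.index → ℍ → ℂ := fun j => (F : ℍ → ℂ) ∣[(12 : ℤ)] ((e j).out)⁻¹ with hr
  have hinj : Function.Injective r := by
    intro a b hab
    have h1 : ((F : ℍ → ℂ) ∣[(12 : ℤ)] (((e a).out)⁻¹ * (e b).out)) = F := by
      rw [SlashAction.slash_mul]
      change (r a) ∣[(12 : ℤ)] (e b).out = F
      rw [hab, hr]
      change ((F : ℍ → ℂ) ∣[(12 : ℤ)] ((e b).out)⁻¹) ∣[(12 : ℤ)] (e b).out = F
      rw [← SlashAction.slash_mul, inv_mul_cancel, SlashAction.slash_one]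
    have h2 := hF _ h1
    have h3 : (QuotientGroup.mk (e a).out : SL(2, ℤ) ⧸ Γ) = QuotientGroup.mk (e b).out :=
      QuotientGroup.eq.2 h2
    rw [QuotientGroup.out_eq', QuotientGroup.out_eq'] at h3
    exact e.injective h3
  have hDm : MDiff (ModularForm.discriminant : ℍ → ℂ) := CuspForm.discriminant.holo'
  have key := fun i => coeff_zero_of_roots
    (fun i : Fin Γ.index => fun z => g i z * (ModularForm.discriminant z *
      ModularForm.discriminant z ^ (Γ.index - 1 - (i : ℕ))))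
    (fun i => (g i).holo'.mul (hDm.mul (hDm.pow _)))
    r (fun j => (F.holo').slash _ _) hinj (fun j => relation F h g hg _) i
  funext i
  ext z
  have := congrFun (key i) z
  simp only [Pi.zero_apply, mul_eq_zero, pow_eq_zero_iff', ModularForm.discriminant_ne_zero z,
    false_and, or_false] at this
  simpa using this

end family

/-! ## `Δ(N z)` and its stabiliser -/

section stab

open Filter Asymptotics

lemma discr_isBigO_exp :
    (ModularForm.discriminant : ℍ → ℂ) =O[atImInfty] fun τ => Real.exp (-2 * Real.pi * τ.im) := by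
  have := CuspFormClass.exp_decay_atImInfty (h := 1) CuspForm.discriminant one_pos
    one_mem_strictPeriods_SL
  simpa using this

/-- an upper triangular matrix of determinant one that fixes `Δ` does not contract -/
lemma one_le_of_fix (u : GL (Fin 2) ℝ) (h10 : u 1 0 = 0) (hdet : u.det = 1) (hpos : 0 < u 0 0)
    (hu : (ModularForm.discriminant : ℍ → ℂ) ∣[(12 : ℤ)] u = ModularForm.discriminant) :
    1 ≤ u 0 0 := by
  by_contra hlt
  push Not at hlt
  set x := u 0 0 with hx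
  have hd : x * u 1 1 = 1 := by
    have h1 : (u : Matrix (Fin 2) (Fin 2) ℝ).det = 1 := by
      have := congrArg Units.val hdet
      simpa using this
    rw [Matrix.det_fin_two, h10] at h1
    simpa using h1
  have h11 : u 1 1 = x⁻¹ := eq_inv_of_mul_eq_one_right hd
  have hden : ∀ τ : ℍ, denom u τ = ((x⁻¹ : ℝ) : ℂ) := by
    intro τ
    simp [denom, h10, h11]
  have him : ∀ τ : ℍ, (u • τ).im = x ^ 2 * τ.im := by
    intro τ
    rw [im_smul_eq_div_normSq, hden, hdet]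
    simp only [Units.val_one, abs_one, one_mul, Complex.normSq_ofReal]
    field_simp
  have hΔ : ∀ τ : ℍ, ModularForm.discriminant (u • τ) =
      ((x⁻¹ : ℝ) : ℂ) ^ (12 : ℤ) * ModularForm.discriminant τ := by
    intro τ
    have h1 := congrFun hu τ
    rw [slash_apply, hden, hdet] at h1
    have hσ : σ u = ContinuousAlgEquiv.refl ℝ ℂ := by
      rw [σ, if_pos]
      simp [hdet]
    rw [hσ] at h1
    rw [← h1]
    have hx0 : ((x⁻¹ : ℝ) : ℂ) ≠ 0 := by
      exact_mod_cast (inv_ne_zero hpos.ne')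
    simp only [Units.val_one, abs_one, Complex.ofReal_one, _root_.one_zpow, mul_one, _root_.zpow_neg]
    rw [mul_comm, mul_assoc, inv_mul_cancel₀ (zpow_ne_zero _ hx0), mul_one]
    rfl
  have hO : (fun τ : ℍ => Real.exp (-2 * Real.pi * (x ^ 2 * τ.im))) =O[atImInfty]
      fun τ : ℍ => Real.exp (-2 * Real.pi * τ.im) := by
    have h1 : (fun τ : ℍ => Real.exp (-2 * Real.pi * (u • τ).im)) =O[atImInfty]
        fun τ => ModularForm.discriminant (u • τ) :=
      exp_isBigO_discriminant.comp_tendsto (tendsto_smul_atImInfty h10)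
    have h2 : (fun τ : ℍ => ModularForm.discriminant (u • τ)) =O[atImInfty]
        (ModularForm.discriminant : ℍ → ℂ) := by
      simp only [hΔ]
      exact (isBigO_refl _ _).const_mul_left _
    simpa only [him] using (h1.trans h2).trans discr_isBigO_exp
  obtain ⟨C, hC⟩ := hO.bound
  rw [atImInfty, Filter.eventually_comap] at hC
  obtain ⟨A, hA⟩ := Filter.eventually_atTop.1 hC
  have hc : 0 < 2 * Real.pi * (1 - x ^ 2) := by
    have : x ^ 2 < 1 := by nlinarith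
    have := Real.pi_pos
    nlinarith
  have hlim : Tendsto (fun y : ℝ => Real.exp (2 * Real.pi * (1 - x ^ 2) * y)) atTop atTop :=
    Real.tendsto_exp_atTop.comp (tendsto_id.const_mul_atTop hc)
  obtain ⟨y, hy1, hy2⟩ := ((hlim.eventually_gt_atTop C).and
    ((eventually_ge_atTop A).and (eventually_gt_atTop 0))).exists
  have h3 := hA y hy2.1 ⟨⟨0, y⟩, hy2.2⟩ rfl
  have h4 : (UpperHalfPlane.mk ⟨0, y⟩ hy2.2).im = y := rfl
  rw [h4, Real.norm_of_nonneg (Real.exp_pos _).le, Real.norm_of_nonneg (Real.exp_pos _).le] at h3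
  have h5 : Real.exp (-2 * Real.pi * (x ^ 2 * y)) =
      Real.exp (2 * Real.pi * (1 - x ^ 2) * y) * Real.exp (-2 * Real.pi * y) := by
    rw [← Real.exp_add]
    congr 1
    ring
  rw [h5] at h3
  exact absurd (le_of_mul_le_mul_right h3 (Real.exp_pos _)) (not_le.2 hy1)

variable (N : ℕ) [NeZero N]

/-- `diag(N, 1)` -/
def dmat : GL (Fin 2) ℝ :=
  Matrix.GeneralLinearGroup.mkOfDetNeZero !![(N : ℝ), 0; 0, 1] (by simp [NeZero.ne N])

lemma dmat_val : (dmat N : Matrix (Fin 2) (Fin 2) ℝ) = !![(N : ℝ), 0; 0, 1] := rfl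

/-- `diag(N,1) γ diag(N,1)⁻¹` -/
lemma dmat_conj (γ : SL(2, ℤ)) (v : GL (Fin 2) ℝ)
    (hv : (v : Matrix (Fin 2) (Fin 2) ℝ) = !![(γ 0 0 : ℝ), N * γ 0 1; (γ 1 0 : ℝ) / N, γ 1 1]) :
    dmat N * mapGL ℝ γ = v * dmat N := by
  ext i j
  have hN : (N : ℝ) ≠ 0 := by exact_mod_cast NeZero.ne N
  simp only [Units.val_mul, dmat_val, hv, mapGL_coe_matrix, map_apply_coe]
  fin_cases i <;> fin_cases j <;>
    (simp [Matrix.mul_apply, Fin.sum_univ_two, mul_comm]; try field_simp)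

/-- the conjugate of an element of `Γ₀(N)` -/
lemma conj_mem (γ : SL(2, ℤ)) (hγ : γ ∈ Gamma0 N) :
    ∃ γ' : SL(2, ℤ), dmat N * mapGL ℝ γ = mapGL ℝ γ' * dmat N := by
  have hN : (N : ℝ) ≠ 0 := by exact_mod_cast NeZero.ne N
  rw [Gamma0_mem, ZMod.intCast_zmod_eq_zero_iff_dvd] at hγ
  obtain ⟨c, hc⟩ := hγ
  have hdet : Matrix.det !![γ 0 0, N * γ 0 1; c, γ 1 1] = 1 := by
    have := γ.det_coe
    rw [Matrix.det_fin_two, hc] at this
    rw [Matrix.det_fin_two_of]
    linarith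
  let γ' : SL(2, ℤ) := ⟨!![γ 0 0, N * γ 0 1; c, γ 1 1], hdet⟩
  have h0 : γ' 0 0 = γ 0 0 := rfl
  have h1 : γ' 0 1 = N * γ 0 1 := rfl
  have h2 : γ' 1 0 = c := rfl
  have h3 : γ' 1 1 = γ 1 1 := rfl
  refine ⟨γ', dmat_conj N γ _ ?_⟩
  ext i j
  simp only [mapGL_coe_matrix, map_apply_coe]
  fin_cases i <;> fin_cases j <;> simp [h0, h1, h2, h3, hc, hN]

lemma gamma0_le : ((Gamma0 N : Subgroup SL(2, ℤ)) : Subgroup (GL (Fin 2) ℝ)) ≤
    ConjAct.toConjAct (dmat N)⁻¹ • 𝒮ℒ := by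
  rintro _ ⟨γ, hγ, rfl⟩
  rw [Subgroup.mem_pointwise_smul_iff_inv_smul_mem, ← ConjAct.toConjAct_inv, inv_inv,
    ConjAct.toConjAct_smul]
  obtain ⟨γ', h⟩ := conj_mem N γ hγ
  rw [h, mul_inv_cancel_right]
  exact ⟨γ', rfl⟩

/-- `N ^ 11 Δ(N z)`, a form on `Γ₀(N)` -/
def formN : ModularForm ((Gamma0 N : Subgroup SL(2, ℤ)) : Subgroup (GL (Fin 2) ℝ)) 12 :=
  restrict (gamma0_le N) (ModularForm.translate CuspForm.discriminant (dmat N))

lemma coe_formN : (formN N : ℍ → ℂ) = (ModularForm.discriminant : ℍ → ℂ) ∣[(12 : ℤ)] dmat N := rfl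

lemma discr_slash (γ : SL(2, ℤ)) :
    (ModularForm.discriminant : ℍ → ℂ) ∣[(12 : ℤ)] (mapGL ℝ γ : GL (Fin 2) ℝ) =
      ModularForm.discriminant :=
  CuspForm.discriminant.slash_action_eq' _ ⟨γ, rfl⟩

/-- **The stabiliser of `Δ(N z)` in `SL₂(ℤ)` is `Γ₀(N)`.** -/
theorem mem_of_fix (γ : SL(2, ℤ)) (h : ((formN N : ℍ → ℂ) ∣[(12 : ℤ)] γ) = formN N) :
    γ ∈ Gamma0 N := by
  have hN : (N : ℝ) ≠ 0 := by exact_mod_cast NeZero.ne N
  have hN0 : 0 < N := Nat.pos_of_ne_zero (NeZero.ne N)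
  have hdetγ : (γ 0 0 : ℤ) * γ 1 1 - γ 0 1 * γ 1 0 = 1 := by
    rw [← Matrix.det_fin_two]
    exact γ.det_coe
  have hdetγ' : (γ 0 0 : ℝ) * γ 1 1 - γ 0 1 * γ 1 0 = 1 := by exact_mod_cast hdetγ
  -- the matrix `v = δ γ δ⁻¹` fixes `Δ`
  have hdv : Matrix.det !![(γ 0 0 : ℝ), N * γ 0 1; (γ 1 0 : ℝ) / N, γ 1 1] = 1 := by
    rw [Matrix.det_fin_two_of, ← hdetγ']
    field_simp
  let v : GL (Fin 2) ℝ := Matrix.GeneralLinearGroup.mkOfDetNeZero
    !![(γ 0 0 : ℝ), N * γ 0 1; (γ 1 0 : ℝ) / N, γ 1 1] (by rw [hdv]; exact one_ne_zero)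
  have hvval : (v : Matrix (Fin 2) (Fin 2) ℝ) =
    !![(γ 0 0 : ℝ), N * γ 0 1; (γ 1 0 : ℝ) / N, γ 1 1] := rfl
  have hvconj : v = dmat N * mapGL ℝ γ * (dmat N)⁻¹ :=
    eq_mul_inv_of_mul_eq (dmat_conj N γ v hvval).symm
  have hvfix : (ModularForm.discriminant : ℍ → ℂ) ∣[(12 : ℤ)] v = ModularForm.discriminant := by
    have h' : ((ModularForm.discriminant : ℍ → ℂ) ∣[(12 : ℤ)] dmat N) ∣[(12 : ℤ)]
      (mapGL ℝ γ : GL (Fin 2) ℝ) = (ModularForm.discriminant : ℍ → ℂ) ∣[(12 : ℤ)] dmat N := h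
    rw [hvconj, SlashAction.slash_mul, SlashAction.slash_mul, h', ← SlashAction.slash_mul,
      mul_inv_cancel, SlashAction.slash_one]
  -- the gcd
  obtain ⟨g, hg⟩ : ∃ g : ℤ, g = Int.gcd N (γ 1 0) := ⟨_, rfl⟩
  have hg0 : 0 < g := by
    have : 0 < Int.gcd N (γ 1 0) := Int.gcd_pos_of_ne_zero_left _ (by exact_mod_cast hN0.ne')
    rw [hg]
    exact_mod_cast this
  obtain ⟨n', hn'⟩ : g ∣ (N : ℤ) := hg ▸ Int.gcd_dvd_left _ _
  obtain ⟨c', hc'⟩ : g ∣ γ 1 0 := hg ▸ Int.gcd_dvd_right _ _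
  have hcop : IsCoprime (γ 0 0 * n') c' := by
    have h1 : IsCoprime (γ 0 0) (γ 1 0) := ⟨γ 1 1, -γ 0 1, by linarith⟩
    have h2 : IsCoprime n' c' := by
      have h3 : g = N * Int.gcdA N (γ 1 0) + (γ 1 0) * Int.gcdB N (γ 1 0) :=
        hg.trans (Int.gcd_eq_gcd_ab _ _)
      refine ⟨Int.gcdA N (γ 1 0), Int.gcdB N (γ 1 0), ?_⟩
      have h4 : g * (Int.gcdA N (γ 1 0) * n' + Int.gcdB N (γ 1 0) * c') = g * 1 := by
        linear_combination (-Int.gcdA N (γ 1 0)) * hn' - (Int.gcdB N (γ 1 0)) * hc' - h3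
      exact mul_left_cancel₀ hg0.ne' h4
    have h5 : IsCoprime (γ 0 0) c' := by
      rw [hc'] at h1
      exact h1.of_mul_right_right
    exact h5.mul_left h2
  obtain ⟨γ₁, h00, h10⟩ := hcop.exists_SL2_col 0
  set u : GL (Fin 2) ℝ := mapGL ℝ γ₁⁻¹ * v with hu
  have hufix : (ModularForm.discriminant : ℍ → ℂ) ∣[(12 : ℤ)] u = ModularForm.discriminant := by
    rw [hu, SlashAction.slash_mul, discr_slash, hvfix]
  have hn'R : (N : ℝ) = g * n' := by exact_mod_cast hn'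
  have hc'R : (γ 1 0 : ℝ) = g * c' := by exact_mod_cast hc'
  have h00R : (γ₁ 0 0 : ℝ) = γ 0 0 * n' := by exact_mod_cast h00
  have h10R : (γ₁ 1 0 : ℝ) = c' := by exact_mod_cast h10
  have hdet1 : (γ₁ 0 0 : ℝ) * γ₁ 1 1 - γ₁ 0 1 * γ₁ 1 0 = 1 := by
    have h1 : (γ₁ 0 0 : ℤ) * γ₁ 1 1 - γ₁ 0 1 * γ₁ 1 0 = 1 := by
      rw [← Matrix.det_fin_two]
      exact γ₁.det_coe
    exact_mod_cast h1
  have hi00 : ((γ₁⁻¹ : SL(2, ℤ)) 0 0) = γ₁ 1 1 := by simp [Matrix.SpecialLinearGroup.SL2_inv_expl]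
  have hi01 : ((γ₁⁻¹ : SL(2, ℤ)) 0 1) = -γ₁ 0 1 := by simp [Matrix.SpecialLinearGroup.SL2_inv_expl]
  have hi10 : ((γ₁⁻¹ : SL(2, ℤ)) 1 0) = -γ₁ 1 0 := by simp [Matrix.SpecialLinearGroup.SL2_inv_expl]
  have hi11 : ((γ₁⁻¹ : SL(2, ℤ)) 1 1) = γ₁ 0 0 := by simp [Matrix.SpecialLinearGroup.SL2_inv_expl]
  have hgn : (g : ℝ) ≠ 0 := by exact_mod_cast hg0.ne'
  have hn'0 : (n' : ℝ) ≠ 0 := by
    intro h0
    rw [h0, mul_zero] at hn'R
    exact hN hn'R
  have hu00 : u 0 0 = (g : ℝ) / N := by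
    simp only [hu, Units.val_mul, Matrix.mul_apply, Fin.sum_univ_two, hvval, mapGL_coe_matrix,
      map_apply_coe]
    simp only [RingHom.mapMatrix_apply, Matrix.map_apply, algebraMap_int_eq, eq_intCast, hi00,
      hi01, Matrix.of_apply, Matrix.cons_val', Matrix.cons_val_zero, Matrix.cons_val_one,
      Matrix.cons_val_fin_one]
    rw [hn'R, hc'R, ← h10R]
    push_cast
    have : (γ 0 0 : ℝ) = γ₁ 0 0 / n' := by rw [h00R]; field_simp
    rw [this]
    field_simp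
    linarith
  have hu10 : u 1 0 = 0 := by
    simp only [hu, Units.val_mul, Matrix.mul_apply, Fin.sum_univ_two, hvval, mapGL_coe_matrix,
      map_apply_coe]
    simp only [RingHom.mapMatrix_apply, Matrix.map_apply, algebraMap_int_eq, eq_intCast, hi10,
      hi11, Matrix.of_apply, Matrix.cons_val', Matrix.cons_val_zero, Matrix.cons_val_one,
      Matrix.cons_val_fin_one]
    rw [hn'R, hc'R, ← h10R]
    push_cast
    have : (γ 0 0 : ℝ) = γ₁ 0 0 / n' := by rw [h00R]; field_simp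
    rw [this]
    field_simp
    ring
  have hudet : u.det = 1 := by
    rw [hu, map_mul]
    have h1 : (mapGL ℝ γ₁⁻¹ : GL (Fin 2) ℝ).det = 1 := by simp
    rw [h1, one_mul]
    ext
    exact hdv
  have hpos : 0 < u 0 0 := by
    rw [hu00]
    have : (0 : ℝ) < g := by exact_mod_cast hg0
    have : (0 : ℝ) < N := by exact_mod_cast hN0
    positivity
  have h1 := one_le_of_fix u hu10 hudet hpos hufix
  rw [hu00, le_div_iff₀ (by exact_mod_cast hN0), one_mul] at h1
  have h2 : (N : ℤ) ≤ g := by exact_mod_cast h1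
  have h3 : g ≤ N := Int.le_of_dvd (by exact_mod_cast hN0) ⟨n', hn'⟩
  have h4 : g = N := le_antisymm h3 h2
  rw [Gamma0_mem, ZMod.intCast_zmod_eq_zero_iff_dvd]
  exact ⟨c', by rw [← h4]; exact hc'⟩

end stab

/-! ## The lower bound -/

section bounds

variable (N : ℕ) [NeZero N]

lemma rank_level_one_ge (k : ℕ) (hk : Even k) :
    ((k / 12 : ℕ) : Cardinal) ≤ Module.rank ℂ (ModularForm 𝒮ℒ k) := by
  rw [ModularForm.dimension_level_one k hk]
  split_ifs
  · exact le_rfl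
  · norm_cast
    omega

/-- **Lower bound** (cardinal form). -/
theorem rank_cuspForm_ge (k : ℕ) (hk : Even k) (h : 12 * (Gamma0 N).index ≤ k) :
    (((Gamma0 N).index * ((k - 12 * (Gamma0 N).index) / 12) : ℕ) : Cardinal) ≤
      Module.rank ℂ (CuspForm ((Gamma0 N : Subgroup SL(2, ℤ)) : Subgroup (GL (Fin 2) ℝ)) k) := by
  set d := (Gamma0 N).index with hd
  have hev : Even (k - 12 * d) := by
    rw [Nat.even_sub h]
    simp [hk, show Even 12 by decide]
  have hkk : 12 * (d : ℤ) + ((k - 12 * d : ℕ) : ℤ) = (k : ℤ) := by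
    push_cast [Nat.cast_sub h]
    ring
  have h1 := LinearMap.rank_le_of_injective _ (total_injective (formN N) (mem_of_fix N) hkk)
  refine le_trans ?_ h1
  rw [rank_fun, Fintype.card_fin]
  push_cast
  exact mul_le_mul_right (rank_level_one_ge _ hev) _

end bounds

end Pool.Agent.Gouv.ESDim
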