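import Mathlib

/-!
# The edge functions are bounded, Hölder continuous and extend to the reals

Abstract form: a finite family `E i : ℚ → ℂ` with `E i (x + 1) = E (T i) x` and
`E i x = P i (x) + c i * x ^ n * E (S i) (- 1 / x)` for `x ≠ 0`, `E i 0 = P i (0)`, `n ≥ 2`,
`‖c i‖ ≤ 1`.
-/

set_option autoImplicit false

open Filter Topology Polynomial

noncomputable section

namespace Gouvea.ES

/-- Edge systems. -/
structure EdgeSys (ι : Type*) (n : ℕ) where
  E : ι → ℚ → ℂ
  T : Equiv.Perm ι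
  S : ι → ι
  P : ι → ℂ[X]
  c : ι → ℂ
  hc : ∀ i, ‖c i‖ ≤ 1
  hT : ∀ i x, E i (x + 1) = E (T i) x
  hS : ∀ i x, x ≠ 0 → E i x = (P i).eval (x : ℂ) + c i * (x : ℂ) ^ n * E (S i) (-1 / x)
  h0 : ∀ i, E i 0 = (P i).eval 0

namespace EdgeSys

variable {ι : Type*} {n : ℕ} (D : EdgeSys ι n)

lemma shift_nat (i : ι) (x : ℚ) (m : ℕ) : D.E i (x + m) = D.E ((D.T ^ m) i) x := by
  induction m generalizing x with
  | zero => simp
  | succ m ih =>
    have h : x + ((m + 1 : ℕ) : ℚ) = (x + 1) + m := by push_cast; ring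
    rw [h, ih, D.hT, pow_succ']
    rfl

lemma shift (i : ι) (m : ℤ) : ∃ j, ∀ y : ℚ, D.E i (y + m) = D.E j y := by
  obtain ⟨k, rfl | rfl⟩ := m.eq_nat_or_neg
  · exact ⟨(D.T ^ k) i, fun y => by simpa using D.shift_nat i y k⟩
  · refine ⟨((D.T ^ k)⁻¹) i, fun y => ?_⟩
    have h := D.shift_nat (((D.T ^ k)⁻¹) i) (y - k) k
    have e : (D.T ^ k) (((D.T ^ k)⁻¹) i) = i := Equiv.apply_symm_apply (D.T ^ k) i
    rw [sub_add_cancel, e] at h
    rw [h]
    congr 1
    push_cast
    ring

/-- Every rational number with denominator `b` is, up to an integer, `a / b` with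
`|a| ≤ b / 2`. -/
lemma exists_round (a : ℤ) {b : ℕ} (hb : 0 < b) : ∃ m a' : ℤ, a = a' + m * b ∧ 2 * |a'| ≤ b := by
  refine ⟨round ((a : ℚ) / b), a - round ((a : ℚ) / b) * b, by ring, ?_⟩
  have h := abs_sub_round ((a : ℚ) / b)
  have hb' : (0 : ℚ) < b := by exact_mod_cast hb
  have h2 : |(a : ℚ) - round ((a : ℚ) / b) * b| ≤ b / 2 := by
    have h3 : (a : ℚ) - round ((a : ℚ) / b) * b = ((a : ℚ) / b - round ((a : ℚ) / b)) * b := by
      field_simp
    rw [h3, abs_mul, abs_of_pos hb']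
    nlinarith
  have h4 : ((2 * |a - round ((a : ℚ) / b) * b| : ℤ) : ℚ) ≤ ((b : ℤ) : ℚ) := by
    push_cast
    linarith
  exact_mod_cast h4

lemma neg_inv_frac {a : ℤ} (h0 : a ≠ 0) (b : ℕ) :
    (-1 : ℚ) / ((a : ℚ) / b) = ((-(a.sign * b) : ℤ) : ℚ) / (a.natAbs : ℕ) := by
  have h1 : ((a.natAbs : ℕ) : ℚ) = (a.sign : ℚ) * a := by
    have h2 : ((a.natAbs : ℕ) : ℤ) = a.sign * a := (Int.sign_mul_self_eq_natAbs a).symm
    calc ((a.natAbs : ℕ) : ℚ) = (((a.natAbs : ℕ) : ℤ) : ℚ) := (Int.cast_natCast _).symm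
      _ = ((a.sign * a : ℤ) : ℚ) := by rw [h2]
      _ = (a.sign : ℚ) * a := by push_cast; ring
  have h2 : (a.sign : ℚ) * a.sign = 1 := by
    have : a.sign * a.sign = 1 := by
      rcases lt_or_gt_of_ne h0 with h | h
      · rw [Int.sign_eq_neg_one_of_neg h]; norm_num
      · rw [Int.sign_eq_one_of_pos h]; norm_num
    exact_mod_cast this
  have h3 : (a.sign : ℚ) ≠ 0 := fun h => by rw [h] at h2; norm_num at h2
  have h4 : (a : ℚ) ≠ 0 := by exact_mod_cast h0
  rw [h1]
  push_cast
  field_simp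

lemma norm_ratCast' (x : ℚ) : ‖(x : ℂ)‖ = |(x : ℝ)| := Complex.norm_ratCast x

/-- **Boundedness.** -/
theorem bounded (hn : 1 ≤ n) {B : ℝ} (hB : ∀ i, ∀ x : ℚ, |x| ≤ 1 → ‖(D.P i).eval (x : ℂ)‖ ≤ B) :
    ∀ i x, ‖D.E i x‖ ≤ 2 * B := by
  have key : ∀ N : ℕ, ∀ (b : ℕ), 0 < b → b ≤ N → ∀ (a : ℤ) (i : ι),
      ‖D.E i ((a : ℚ) / b)‖ ≤ 2 * B := by
    intro N
    induction N with
    | zero => intro b hb hb'; omega
    | succ N ih =>
      intro b hb hbN a i
      have hBi : 0 ≤ B := (norm_nonneg _).trans (hB i 0 (by simp))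
      obtain ⟨m, a', ha, ha'⟩ := exists_round a hb
      obtain ⟨j, hj⟩ := D.shift i m
      have hb' : (0 : ℚ) < b := by exact_mod_cast hb
      have hx : (a : ℚ) / b = (a' : ℚ) / b + m := by
        rw [ha]; push_cast; field_simp
      rw [hx, hj]
      have hle : |(a' : ℚ) / b| ≤ 1 / 2 := by
        rw [abs_div, abs_of_pos hb', div_le_iff₀ hb']
        have : ((2 * |a'| : ℤ) : ℚ) ≤ ((b : ℤ) : ℚ) := by exact_mod_cast ha'
        push_cast at this
        linarith
      by_cases h0 : a' = 0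
      · subst h0
        simp only [Int.cast_zero, zero_div]
        rw [D.h0]
        have := hB j 0 (by simp)
        simp only [Rat.cast_zero] at this
        linarith
      · have hx0 : (a' : ℚ) / b ≠ 0 := div_ne_zero (by exact_mod_cast h0) hb'.ne'
        rw [D.hS j _ hx0]
        -- the new fraction
        have hpos : 0 < a'.natAbs := Int.natAbs_pos.2 h0
        have hlt : a'.natAbs ≤ N := by
          have : (a'.natAbs : ℤ) = |a'| := Int.natCast_natAbs a'
          omega
        have hnew := neg_inv_frac h0 b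
        have hih := ih a'.natAbs hpos hlt (-(a'.sign * b)) (D.S j)
        rw [← hnew] at hih
        have hpow : ‖((((a' : ℚ) / b : ℚ)) : ℂ) ^ n‖ ≤ 1 / 2 := by
          rw [norm_pow]
          have h1 : ‖((((a' : ℚ) / b : ℚ)) : ℂ)‖ ≤ 1 / 2 := by
            have : ‖((((a' : ℚ) / b : ℚ)) : ℂ)‖ = ((|(a' : ℚ) / b| : ℚ) : ℝ) := by
              rw [Complex.norm_ratCast]
              push_cast
              rfl
            rw [this]
            calc ((|(a' : ℚ) / b| : ℚ) : ℝ) ≤ ((1 / 2 : ℚ) : ℝ) := by exact_mod_cast hle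
              _ = 1 / 2 := by norm_num
          calc ‖((((a' : ℚ) / b : ℚ)) : ℂ)‖ ^ n ≤ (1 / 2 : ℝ) ^ n := by gcongr
            _ ≤ (1 / 2 : ℝ) ^ 1 := pow_le_pow_of_le_one (by norm_num) (by norm_num) hn
            _ = 1 / 2 := by norm_num
        calc ‖(D.P j).eval ((((a' : ℚ) / b : ℚ)) : ℂ) + D.c j * ((((a' : ℚ) / b : ℚ)) : ℂ) ^ n *
              D.E (D.S j) (-1 / ((a' : ℚ) / b))‖
            ≤ ‖(D.P j).eval ((((a' : ℚ) / b : ℚ)) : ℂ)‖ + ‖D.c j * ((((a' : ℚ) / b : ℚ)) : ℂ) ^ n *
              D.E (D.S j) (-1 / ((a' : ℚ) / b))‖ := norm_add_le _ _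
          _ ≤ B + 1 * (1 / 2) * (2 * B) := by
            gcongr
            · exact hB j _ (hle.trans (by norm_num))
            · rw [norm_mul, norm_mul]
              gcongr
              exact D.hc j
          _ = 2 * B := by ring
  intro i x
  have h := key x.den x.den x.den_pos le_rfl x.num i
  rwa [Rat.num_div_den] at h

lemma pow_sub_pow_le (n : ℕ) {u v : ℂ} (hu : ‖u‖ ≤ 1) (hv : ‖v‖ ≤ 1) :
    ‖u ^ n - v ^ n‖ ≤ n * ‖u - v‖ := by
  induction n with
  | zero => simp
  | succ n ih =>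
    have h : u ^ (n + 1) - v ^ (n + 1) = u * (u ^ n - v ^ n) + (u - v) * v ^ n := by ring
    rw [h]
    calc ‖u * (u ^ n - v ^ n) + (u - v) * v ^ n‖
        ≤ ‖u‖ * ‖u ^ n - v ^ n‖ + ‖u - v‖ * ‖v‖ ^ n := by
          refine (norm_add_le _ _).trans ?_
          rw [norm_mul, norm_mul, norm_pow]
      _ ≤ 1 * (n * ‖u - v‖) + ‖u - v‖ * 1 := by
          gcongr
          exact pow_le_one₀ (norm_nonneg _) hv
      _ = ((n + 1 : ℕ) : ℝ) * ‖u - v‖ := by push_cast; ring

/-- The contraction. -/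
lemma contract {n : ℕ} (hn : 2 ≤ n) {H u v : ℝ} (hH : 0 ≤ H) (hu0 : u ≠ 0) (hv0 : v ≠ 0)
    (hu : |u| ≤ 1 / 2) (huv : |u| ≤ |v|) :
    |u| ^ n * (H * √|(-1 / u) - (-1 / v)|) ≤ 1 / 2 * (H * √|u - v|) := by
  have hup : 0 < |u| := abs_pos.2 hu0
  have h1 : |(-1 / u) - (-1 / v)| ≤ |u - v| / |u| ^ 2 := by
    have h2 : (-1 / u) - (-1 / v) = (u - v) / (u * v) := by
      field_simp
      ring
    rw [h2, abs_div, abs_mul]
    refine div_le_div_of_nonneg_left (abs_nonneg _) (by positivity) ?_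
    rw [sq]
    exact mul_le_mul_of_nonneg_left huv hup.le
  have h3 : √|(-1 / u) - (-1 / v)| ≤ √|u - v| / |u| := by
    calc √|(-1 / u) - (-1 / v)| ≤ √(|u - v| / |u| ^ 2) := Real.sqrt_le_sqrt h1
      _ = √|u - v| / |u| := by
        rw [Real.sqrt_div' _ (by positivity), Real.sqrt_sq hup.le]
  obtain ⟨m, rfl⟩ : ∃ m, n = m + 2 := ⟨n - 2, by omega⟩
  calc |u| ^ (m + 2) * (H * √|(-1 / u) - (-1 / v)|)
      ≤ |u| ^ (m + 2) * (H * (√|u - v| / |u|)) := by gcongr
    _ = |u| ^ (m + 1) * (H * √|u - v|) := by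
        rw [pow_succ]
        field_simp
    _ ≤ 1 / 2 * (H * √|u - v|) := by
        have h4 : |u| ^ (m + 1) ≤ 1 / 2 := by
          calc |u| ^ (m + 1) ≤ (1 / 2 : ℝ) ^ (m + 1) := by gcongr
            _ ≤ (1 / 2 : ℝ) ^ 1 := pow_le_pow_of_le_one (by norm_num) (by norm_num) (by omega)
            _ = 1 / 2 := by norm_num
        gcongr

lemma le_sqrt_self {t : ℝ} (h0 : 0 ≤ t) (h1 : t ≤ 1) : t ≤ √t := by
  rw [Real.le_sqrt h0 h0]
  nlinarith

/-- **Hölder continuity** (exponent one half). -/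
theorem holder (hn : 2 ≤ n) {B B' : ℝ}
    (hB : ∀ i, ∀ x : ℚ, |x| ≤ 1 → ‖(D.P i).eval (x : ℂ)‖ ≤ B)
    (hB' : ∀ i, ∀ x y : ℚ, |x| ≤ 1 → |y| ≤ 1 →
      ‖(D.P i).eval (x : ℂ) - (D.P i).eval (y : ℂ)‖ ≤ B' * |((x - y : ℚ) : ℝ)|) :
    ∀ i x y, ‖D.E i x - D.E i y‖ ≤
      (8 * B + 2 * (B' + (n + 1) * (2 * B))) * √|((x - y : ℚ) : ℝ)| := by
  set H : ℝ := 8 * B + 2 * (B' + (n + 1) * (2 * B)) with hH
  have hbd := D.bounded (by omega) hB
  have key : ∀ N : ℕ, ∀ (b d : ℕ), 0 < b → 0 < d → b + d ≤ N → ∀ (a c : ℤ) (i : ι),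
      ‖D.E i ((a : ℚ) / b) - D.E i ((c : ℚ) / d)‖ ≤
        H * √|(((a : ℚ) / b - (c : ℚ) / d : ℚ) : ℝ)| := by
    intro N
    induction N with
    | zero => intro b d hb hd hN; omega
    | succ N ih =>
      intro b d hb hd hN a c i
      have hBi : 0 ≤ B := (norm_nonneg _).trans (hB i 0 (by simp))
      have hBi' : 0 ≤ B' := by
        have := (norm_nonneg _).trans (hB' i 1 0 (by simp) (by simp))
        simpa using this
      have hH0 : 0 ≤ H := by rw [hH]; positivity
      by_cases hfar : 1 / 4 ≤ |(((a : ℚ) / b - (c : ℚ) / d : ℚ) : ℝ)|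
      · have h1 : (1 / 2 : ℝ) ≤ √|(((a : ℚ) / b - (c : ℚ) / d : ℚ) : ℝ)| := by
          rw [Real.le_sqrt (by norm_num) (abs_nonneg _)]
          linarith
        calc ‖D.E i ((a : ℚ) / b) - D.E i ((c : ℚ) / d)‖ ≤ 2 * B + 2 * B :=
              (norm_sub_le _ _).trans (add_le_add (hbd _ _) (hbd _ _))
          _ ≤ H * (1 / 2) := by
              rw [hH]
              have : 0 ≤ B' + (n + 1) * (2 * B) := by positivity
              linarith
          _ ≤ _ := by gcongr
      push Not at hfar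
      obtain ⟨m, a', ha, ha'⟩ := exists_round a hb
      obtain ⟨j, hj⟩ := D.shift i m
      have hb' : (0 : ℚ) < b := by exact_mod_cast hb
      have hd' : (0 : ℚ) < d := by exact_mod_cast hd
      set c' : ℤ := c - m * d with hc'
      have hx : (a : ℚ) / b = (a' : ℚ) / b + m := by
        rw [ha]; push_cast; field_simp
      have hy : (c : ℚ) / d = (c' : ℚ) / d + m := by
        rw [hc']; push_cast; field_simp; ring
      have hxy : (a : ℚ) / b - (c : ℚ) / d = (a' : ℚ) / b - (c' : ℚ) / d := by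
        rw [hx, hy]; ring
      rw [hxy, hx, hy, hj, hj]
      rw [hxy] at hfar
      set x : ℚ := (a' : ℚ) / b with hxd
      set y : ℚ := (c' : ℚ) / d with hyd
      have hxle : |x| ≤ 1 / 2 := by
        rw [hxd, abs_div, abs_of_pos hb', div_le_iff₀ hb']
        have : ((2 * |a'| : ℤ) : ℚ) ≤ ((b : ℤ) : ℚ) := by exact_mod_cast ha'
        push_cast at this
        linarith
      have hfar' : |x - y| < 1 / 4 := by
        have h2 : ((|x - y| : ℚ) : ℝ) < ((1 / 4 : ℚ) : ℝ) := by
          push_cast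
          push_cast at hfar
          exact hfar
        exact_mod_cast h2
      have hyle : |y| < 3 / 4 := by
        have h3 : |y| ≤ |x| + |x - y| := by
          have := abs_sub_abs_le_abs_sub y x
          rw [abs_sub_comm] at this
          linarith
        linarith
      set ρ : ℝ := |((x - y : ℚ) : ℝ)| with hρ
      have hρ0 : 0 ≤ ρ := abs_nonneg _
      have hρ1 : ρ ≤ √ρ := le_sqrt_self hρ0 (by linarith)
      have hP := hB' j x y (hxle.trans (by norm_num)) (by linarith)
      have hxn : ‖(x : ℂ)‖ ≤ 1 / 2 := by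
        rw [norm_ratCast']
        have : ((|x| : ℚ) : ℝ) ≤ ((1 / 2 : ℚ) : ℝ) := by exact_mod_cast hxle
        push_cast at this
        exact this
      have hyn : ‖(y : ℂ)‖ ≤ 3 / 4 := by
        rw [norm_ratCast']
        have : ((|y| : ℚ) : ℝ) ≤ ((3 / 4 : ℚ) : ℝ) := by exact_mod_cast hyle.le
        push_cast at this
        exact this
      have hxyn : ‖(x : ℂ) - y‖ = ρ := by
        rw [hρ, ← norm_ratCast']
        push_cast
        rfl
      by_cases h0 : a' = 0
      · have hx0 : x = 0 := by rw [hxd, h0]; simp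
        by_cases h0' : y = 0
        · rw [hx0, h0', sub_self, norm_zero]
          positivity
        · rw [D.hS j y h0', hx0, D.h0]
          have h5 : ‖(D.P j).eval 0 - (D.P j).eval (y : ℂ)‖ ≤ B' * ρ := by
            have := hP
            rw [hx0] at this
            simp only [Rat.cast_zero] at this
            rw [hρ, hx0]
            exact this
          have h6 : ‖(y : ℂ)‖ = ρ := by
            rw [← hxyn, hx0]
            simp
          have h7 : ‖(y : ℂ) ^ n‖ ≤ ρ := by
            rw [norm_pow, h6]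
            calc ρ ^ n ≤ ρ ^ 1 := pow_le_pow_of_le_one hρ0 (by linarith) (by omega)
              _ = ρ := pow_one _
          calc ‖(D.P j).eval 0 - ((D.P j).eval (y : ℂ) + D.c j * (y : ℂ) ^ n *
                D.E (D.S j) (-1 / y))‖
              = ‖((D.P j).eval 0 - (D.P j).eval (y : ℂ)) - D.c j * (y : ℂ) ^ n *
                D.E (D.S j) (-1 / y)‖ := by congr 1; ring
            _ ≤ B' * ρ + 1 * ρ * (2 * B) := by
                refine (norm_sub_le _ _).trans (add_le_add h5 ?_)
                rw [norm_mul, norm_mul]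
                gcongr
                · exact D.hc j
                · exact hbd _ _
            _ = (B' + 2 * B) * ρ := by ring
            _ ≤ H * √ρ := by
                gcongr
                rw [hH]
                have : 0 ≤ (n : ℝ) * (2 * B) := by positivity
                linarith
      by_cases h0' : c' = 0
      · have hy0 : y = 0 := by rw [hyd, h0']; simp
        have hx0 : x ≠ 0 := div_ne_zero (by exact_mod_cast h0) hb'.ne'
        rw [D.hS j x hx0, hy0, D.h0]
        have h5 : ‖(D.P j).eval (x : ℂ) - (D.P j).eval 0‖ ≤ B' * ρ := by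
          have := hP
          rw [hy0] at this
          simp only [Rat.cast_zero] at this
          rw [hρ, hy0]
          exact this
        have h6 : ‖(x : ℂ)‖ = ρ := by
          rw [← hxyn, hy0]
          simp
        have h7 : ‖(x : ℂ) ^ n‖ ≤ ρ := by
          rw [norm_pow, h6]
          calc ρ ^ n ≤ ρ ^ 1 := pow_le_pow_of_le_one hρ0 (by linarith) (by omega)
            _ = ρ := pow_one _
        calc ‖(D.P j).eval (x : ℂ) + D.c j * (x : ℂ) ^ n *
              D.E (D.S j) (-1 / x) - (D.P j).eval 0‖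
            = ‖((D.P j).eval (x : ℂ) - (D.P j).eval 0) + D.c j * (x : ℂ) ^ n *
              D.E (D.S j) (-1 / x)‖ := by congr 1; ring
          _ ≤ B' * ρ + 1 * ρ * (2 * B) := by
              refine (norm_add_le _ _).trans (add_le_add h5 ?_)
              rw [norm_mul, norm_mul]
              gcongr
              · exact D.hc j
              · exact hbd _ _
          _ = (B' + 2 * B) * ρ := by ring
          _ ≤ H * √ρ := by
              gcongr
              rw [hH]
              have : 0 ≤ (n : ℝ) * (2 * B) := by positivity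
              linarith
      -- both nonzero
      have hx0 : x ≠ 0 := div_ne_zero (by exact_mod_cast h0) hb'.ne'
      have hy0 : y ≠ 0 := div_ne_zero (by exact_mod_cast h0') hd'.ne'
      have hap : 0 < a'.natAbs := Int.natAbs_pos.2 h0
      have hcp : 0 < c'.natAbs := Int.natAbs_pos.2 h0'
      have hc2 : c'.natAbs ≤ d := by
        have h3 : |(c' : ℚ)| ≤ d := by
          have h4 : |y| * d = |(c' : ℚ)| := by
            rw [hyd, abs_div, abs_of_pos hd']
            field_simp
          rw [← h4]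
          nlinarith
        have h4 : ((c'.natAbs : ℕ) : ℚ) ≤ ((d : ℕ) : ℚ) := by
          have h5 : ((c'.natAbs : ℕ) : ℚ) = |(c' : ℚ)| := by
            rw [Nat.cast_natAbs]; push_cast; rfl
          rw [h5]; exact h3
        exact_mod_cast h4
      have ha2 : a'.natAbs < b := by
        have : (a'.natAbs : ℤ) = |a'| := Int.natCast_natAbs a'
        omega
      have hih := ih a'.natAbs c'.natAbs hap hcp (by omega) (-(a'.sign * b)) (-(c'.sign * d))
        (D.S j)
      rw [← neg_inv_frac h0 b, ← neg_inv_frac h0' d, ← hxd, ← hyd] at hih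
      have hxr : (x : ℝ) ≠ 0 := by exact_mod_cast hx0
      have hyr : (y : ℝ) ≠ 0 := by exact_mod_cast hy0
      have hcast : (((-1 / x) - (-1 / y) : ℚ) : ℝ) = (-1 / (x : ℝ)) - (-1 / (y : ℝ)) := by
        push_cast; ring
      rw [hcast] at hih
      have hρ' : |(x : ℝ) - y| = ρ := by rw [hρ]; push_cast; rfl
      have hpw := pow_sub_pow_le n (hxn.trans (by norm_num)) (hyn.trans (by norm_num))
      rw [hxyn] at hpw
      have hmain : ‖(x : ℂ) ^ n * D.E (D.S j) (-1 / x) - (y : ℂ) ^ n * D.E (D.S j) (-1 / y)‖ ≤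
          1 / 2 * (H * √ρ) + n * ρ * (2 * B) := by
        rcases le_total |(x : ℝ)| |(y : ℝ)| with hle | hle
        · have h8 := contract hn hH0 hxr hyr (by rw [← norm_ratCast']; exact hxn) hle
          rw [hρ'] at h8
          calc ‖(x : ℂ) ^ n * D.E (D.S j) (-1 / x) - (y : ℂ) ^ n * D.E (D.S j) (-1 / y)‖
              = ‖(x : ℂ) ^ n * (D.E (D.S j) (-1 / x) - D.E (D.S j) (-1 / y)) +
                ((x : ℂ) ^ n - (y : ℂ) ^ n) * D.E (D.S j) (-1 / y)‖ := by congr 1; ring
            _ ≤ |(x : ℝ)| ^ n * (H * √|(-1 / (x : ℝ)) - (-1 / (y : ℝ))|) +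
                n * ρ * (2 * B) := by
                refine (norm_add_le _ _).trans (add_le_add ?_ ?_)
                · rw [norm_mul, norm_pow, norm_ratCast']
                  gcongr
                · rw [norm_mul]
                  gcongr
                  exact hbd _ _
            _ ≤ _ := by gcongr
        · have h8 := contract hn hH0 hyr hxr (by
            rw [← norm_ratCast'] at hle ⊢
            rw [← norm_ratCast'] at hle
            exact hle.trans hxn) hle
          rw [abs_sub_comm, abs_sub_comm (y : ℝ) x, hρ'] at h8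
          calc ‖(x : ℂ) ^ n * D.E (D.S j) (-1 / x) - (y : ℂ) ^ n * D.E (D.S j) (-1 / y)‖
              = ‖(y : ℂ) ^ n * (D.E (D.S j) (-1 / x) - D.E (D.S j) (-1 / y)) +
                ((x : ℂ) ^ n - (y : ℂ) ^ n) * D.E (D.S j) (-1 / x)‖ := by congr 1; ring
            _ ≤ |(y : ℝ)| ^ n * (H * √|(-1 / (x : ℝ)) - (-1 / (y : ℝ))|) +
                n * ρ * (2 * B) := by
                refine (norm_add_le _ _).trans (add_le_add ?_ ?_)
                · rw [norm_mul, norm_pow, norm_ratCast']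
                  gcongr
                · rw [norm_mul]
                  gcongr
                  exact hbd _ _
            _ ≤ _ := by gcongr
      rw [D.hS j x hx0, D.hS j y hy0]
      calc ‖(D.P j).eval (x : ℂ) + D.c j * (x : ℂ) ^ n * D.E (D.S j) (-1 / x) -
            ((D.P j).eval (y : ℂ) + D.c j * (y : ℂ) ^ n * D.E (D.S j) (-1 / y))‖
          = ‖((D.P j).eval (x : ℂ) - (D.P j).eval (y : ℂ)) + D.c j *
            ((x : ℂ) ^ n * D.E (D.S j) (-1 / x) - (y : ℂ) ^ n * D.E (D.S j) (-1 / y))‖ := by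
            congr 1; ring
        _ ≤ B' * ρ + 1 * (1 / 2 * (H * √ρ) + n * ρ * (2 * B)) := by
            refine (norm_add_le _ _).trans (add_le_add hP ?_)
            rw [norm_mul]
            gcongr
            exact D.hc j
        _ ≤ B' * √ρ + 1 * (1 / 2 * (H * √ρ) + n * √ρ * (2 * B)) := by gcongr
        _ = (B' + n * (2 * B) + 1 / 2 * H) * √ρ := by ring
        _ ≤ H * √ρ := by
            gcongr
            rw [hH]
            linarith
  intro i x y
  have h := key (x.den + y.den) x.den y.den x.den_pos y.den_pos le_rfl x.num y.num i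
  rwa [Rat.num_div_den, Rat.num_div_den] at h

/-- two functions on the reals, continuous off zero, that agree at the nonzero rational numbers,
agree off zero -/
lemma eq_of_rat {f g : ℝ → ℂ} (hf : ContinuousOn f {0}ᶜ) (hg : ContinuousOn g {0}ᶜ)
    (h : ∀ x : ℚ, x ≠ 0 → f x = g x) : ∀ t : ℝ, t ≠ 0 → f t = g t := by
  intro t ht
  by_contra hne
  have ho : IsOpen ({0}ᶜ ∩ {s : ℝ | f s - g s ∈ ({0}ᶜ : Set ℂ)}) :=
    (hf.sub hg).isOpen_inter_preimage isOpen_compl_singleton isOpen_compl_singleton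
  obtain ⟨x, hx⟩ := Rat.denseRange_cast.exists_mem_open ho ⟨t, ht, sub_ne_zero.2 hne⟩
  have hx0 : x ≠ 0 := by
    rintro rfl
    exact hx.1 (by simp)
  exact hx.2 (by simp [h x hx0])

/-- **Extension to the reals.** -/
theorem exists_extension (hn : 2 ≤ n) {B B' : ℝ}
    (hB : ∀ i, ∀ x : ℚ, |x| ≤ 1 → ‖(D.P i).eval (x : ℂ)‖ ≤ B)
    (hB' : ∀ i, ∀ x y : ℚ, |x| ≤ 1 → |y| ≤ 1 →
      ‖(D.P i).eval (x : ℂ) - (D.P i).eval (y : ℂ)‖ ≤ B' * |((x - y : ℚ) : ℝ)|) :
    ∃ F : ι → ℝ → ℂ, (∀ i, Continuous (F i)) ∧ (∀ i (x : ℚ), F i x = D.E i x) ∧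
      (∀ i t, ‖F i t‖ ≤ 2 * B) ∧ (∀ i t, F i (t + 1) = F (D.T i) t) ∧
      (∀ i t, t ≠ 0 → F i t = (D.P i).eval (t : ℂ) + D.c i * (t : ℂ) ^ n *
        F (D.S i) (-1 / t)) := by
  have hho := D.holder hn hB hB'
  set H : ℝ := 8 * B + 2 * (B' + (n + 1) * (2 * B)) with hH
  have huc : ∀ i, UniformContinuous (D.E i) := by
    intro i
    rw [Metric.uniformContinuous_iff]
    intro ε hε
    have hBi : 0 ≤ B := (norm_nonneg _).trans (hB i 0 (by simp))
    have hBi' : 0 ≤ B' := by
      have := (norm_nonneg _).trans (hB' i 1 0 (by simp) (by simp))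
      simpa using this
    have hH0 : 0 ≤ H := by rw [hH]; positivity
    refine ⟨(ε / (H + 1)) ^ 2, by positivity, fun {x y} hxy => ?_⟩
    rw [dist_eq_norm]
    have h1 : |((x - y : ℚ) : ℝ)| < (ε / (H + 1)) ^ 2 := by
      rw [Rat.dist_eq] at hxy
      push_cast
      exact hxy
    have h2 : √|((x - y : ℚ) : ℝ)| < ε / (H + 1) := by
      rw [Real.sqrt_lt' (by positivity)]
      exact h1
    calc ‖D.E i x - D.E i y‖ ≤ H * √|((x - y : ℚ) : ℝ)| := hho i x y
      _ ≤ (H + 1) * √|((x - y : ℚ) : ℝ)| := by gcongr; linarith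
      _ < (H + 1) * (ε / (H + 1)) := by gcongr
      _ = ε := by field_simp
  have hd : DenseRange ((↑) : ℚ → ℝ) := Rat.denseRange_cast
  have hu := Rat.isUniformEmbedding_coe_real.isUniformInducing
  set F : ι → ℝ → ℂ := fun i => (hu.isDenseInducing hd).extend (D.E i) with hF
  have hcont : ∀ i, Continuous (F i) := fun i =>
    (uniformContinuous_uniformly_extend hu hd (huc i)).continuous
  have hval : ∀ i (x : ℚ), F i x = D.E i x := fun i x => uniformly_extend_of_ind hu hd (huc i) x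
  have hbd := D.bounded (by omega) hB
  refine ⟨F, hcont, hval, fun i t => ?_, fun i t => ?_, fun i => ?_⟩
  · have hcl : IsClosed {t : ℝ | ‖F i t‖ ≤ 2 * B} := isClosed_le (hcont i).norm continuous_const
    exact hd.induction_on (p := fun t => ‖F i t‖ ≤ 2 * B) t hcl fun x => by
      rw [hval]; exact hbd i x
  · have hcl : IsClosed {t : ℝ | F i (t + 1) = F (D.T i) t} :=
      isClosed_eq ((hcont i).comp (continuous_id.add continuous_const)) (hcont _)
    refine hd.induction_on (p := fun t => F i (t + 1) = F (D.T i) t) t hcl fun x => ?_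
    have h1 : ((x : ℝ) + 1) = ((x + 1 : ℚ) : ℝ) := by push_cast; rfl
    rw [h1, hval, hval, D.hT]
  · refine eq_of_rat (hcont i).continuousOn ?_ fun x hx => ?_
    · have h1 : ContinuousOn (fun t : ℝ => -1 / t) {0}ᶜ :=
        continuousOn_const.div continuousOn_id fun t ht => ht
      have h2 : ContinuousOn (fun t : ℝ => F (D.S i) (-1 / t)) {0}ᶜ :=
        (hcont _).comp_continuousOn h1
      have h3 : Continuous fun t : ℝ => (D.P i).eval (t : ℂ) :=
        (D.P i).continuous.comp Complex.continuous_ofReal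
      have h4 : Continuous fun t : ℝ => D.c i * (t : ℂ) ^ n :=
        continuous_const.mul (Complex.continuous_ofReal.pow n)
      exact h3.continuousOn.add (h4.continuousOn.mul h2)
    · have h1 : (-1 / (x : ℝ)) = ((-1 / x : ℚ) : ℝ) := by push_cast; rfl
      rw [h1, hval, hval, D.hS i x hx]
      push_cast
      rfl

end EdgeSys

end Gouvea.ES
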