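import Mathlib

/-!
Injectivity of the vertical moments of cusp forms (helper23's (B1)).
-/

namespace Pool.Agent.Gouv.ES

open UpperHalfPlane hiding I
open Complex Filter Topology MeasureTheory Set
open scoped Real

noncomputable section

/-- Integral of an exponential over a period. -/
lemma integral_expi {h : ℝ} (hh : 0 < h) (c : ℤ) :
    ∫ x in (0:ℝ)..h, cexp (2 * π * I * c * x / h) = if c = 0 then (h : ℂ) else 0 := by
  have hh' : (h : ℂ) ≠ 0 := by exact_mod_cast hh.ne'
  split_ifs with hc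
  · subst hc
    simp
  · have hc' : (2 * π * I * c / h : ℂ) ≠ 0 := by
      have : (c : ℂ) ≠ 0 := by exact_mod_cast hc
      have : (π : ℂ) ≠ 0 := by exact_mod_cast Real.pi_ne_zero
      simp_all [I_ne_zero]
    have e : ∀ x : ℝ, (2 * π * I * c * x / h : ℂ) = (2 * π * I * c / h) * x := by
      intro x; ring
    simp_rw [e]
    rw [integral_exp_mul_complex hc']
    have e1 : (2 * π * I * c / h : ℂ) * (h : ℝ) = c * (2 * π * I) := by
      field_simp
    rw [e1, Complex.exp_int_mul_two_pi_mul_I]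
    simp

/-- The summand, as a function of the real variable. -/
def fterm (b : ℕ → ℂ) (h : ℝ) (s : ℂ) (m : ℕ) (x : ℝ) : ℂ :=
  b m * (cexp (2 * π * I * (m : ℤ) * x / h) + s * cexp (2 * π * I * (-(m : ℤ) : ℤ) * x / h))

lemma continuous_fterm (b : ℕ → ℂ) (h : ℝ) (s : ℂ) (m : ℕ) :
    Continuous (fterm b h s m) := by
  unfold fterm
  fun_prop

lemma norm_expi (h : ℝ) (c : ℤ) (x : ℝ) : ‖cexp (2 * π * I * c * x / h)‖ = 1 := by
  have : (2 * π * I * c * x / h : ℂ) = ((2 * π * c * x / h : ℝ) : ℂ) * I := by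
    push_cast; ring
  rw [this, Complex.norm_exp_ofReal_mul_I]

lemma norm_fterm_le (b : ℕ → ℂ) (h : ℝ) (s : ℂ) (m : ℕ) (x : ℝ) :
    ‖fterm b h s m x‖ ≤ ‖b m‖ * (1 + ‖s‖) := by
  unfold fterm
  rw [norm_mul]
  gcongr
  refine (norm_add_le _ _).trans ?_
  rw [norm_mul, norm_expi, norm_expi, mul_one]

lemma fourier_unique {b : ℕ → ℂ} (hb : Summable fun m => ‖b m‖) (hb0 : b 0 = 0)
    {h : ℝ} (hh : 0 < h) {s : ℂ} {D : Set ℝ} (hD : Dense D)
    (H : ∀ x ∈ D, ∑' m, fterm b h s m x = 0) (j : ℕ) : b j = 0 := by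
  rcases Nat.eq_zero_or_pos j with rfl | hj
  · exact hb0
  have hsum : Summable fun m => ‖b m‖ * (1 + ‖s‖) := hb.mul_right _
  have hcont : Continuous fun x => ∑' m, fterm b h s m x :=
    continuous_tsum (continuous_fterm b h s) hsum (fun m x => norm_fterm_le b h s m x)
  have hz : ∀ x, ∑' m, fterm b h s m x = 0 := by
    have := Continuous.ext_on hD hcont (continuous_const (y := (0:ℂ))) (fun x hx => H x hx)
    intro x
    exact congrFun this x
  -- multiply by the conjugate character and integrate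
  have key : HasSum (fun m => ∫ x in (0:ℝ)..h, fterm b h s m x *
      cexp (2 * π * I * (-(j : ℤ) : ℤ) * x / h)) (∫ _x in (0:ℝ)..h, (0 : ℂ)) := by
    refine intervalIntegral.hasSum_integral_of_dominated_convergence
      (fun m _ => ‖b m‖ * (1 + ‖s‖)) ?_ ?_ ?_ ?_ ?_
    · intro m
      apply Continuous.aestronglyMeasurable
      exact (continuous_fterm b h s m).mul (by fun_prop)
    · intro m
      refine Eventually.of_forall fun x _ => ?_
      rw [norm_mul, norm_expi, mul_one]
      exact norm_fterm_le b h s m x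
    · exact Eventually.of_forall fun x _ => hsum
    · exact intervalIntegrable_const
    · refine Eventually.of_forall fun x _ => ?_
      have hs : Summable fun m => fterm b h s m x :=
        Summable.of_norm_bounded hsum (fun m => norm_fterm_le b h s m x)
      have h1 := hs.hasSum.mul_right (cexp (2 * π * I * (-(j : ℤ) : ℤ) * x / h))
      rw [hz x, zero_mul] at h1
      exact h1
  have hint : ∀ m, ∫ x in (0:ℝ)..h, fterm b h s m x *
      cexp (2 * π * I * (-(j : ℤ) : ℤ) * x / h) = if m = j then b j * h else 0 := by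
    intro m
    have e : ∀ x : ℝ, fterm b h s m x * cexp (2 * π * I * (-(j : ℤ) : ℤ) * x / h) =
        b m * cexp (2 * π * I * ((m : ℤ) - (j : ℤ) : ℤ) * x / h) +
          b m * s * cexp (2 * π * I * (-(m : ℤ) - (j : ℤ) : ℤ) * x / h) := by
      intro x
      have e1 : cexp (2 * π * I * ((m : ℤ) - (j : ℤ) : ℤ) * x / h) =
          cexp (2 * π * I * (m : ℤ) * x / h) * cexp (2 * π * I * (-(j : ℤ) : ℤ) * x / h) := by
        rw [← Complex.exp_add]
        congr 1
        push_cast
        ring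
      have e2 : cexp (2 * π * I * (-(m : ℤ) - (j : ℤ) : ℤ) * x / h) =
          cexp (2 * π * I * (-(m : ℤ) : ℤ) * x / h) *
            cexp (2 * π * I * (-(j : ℤ) : ℤ) * x / h) := by
        rw [← Complex.exp_add]
        congr 1
        push_cast
        ring
      rw [e1, e2, fterm]
      ring
    simp_rw [e]
    rw [intervalIntegral.integral_add (by apply Continuous.intervalIntegrable; fun_prop)
      (by apply Continuous.intervalIntegrable; fun_prop),
      intervalIntegral.integral_const_mul, intervalIntegral.integral_const_mul,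
      integral_expi hh, integral_expi hh]
    have h2 : ¬ (-(m : ℤ) - (j : ℤ) = 0) := by omega
    rw [if_neg h2, mul_zero, add_zero]
    by_cases hm : m = j
    · subst hm
      simp
    · rw [if_neg hm, if_neg (by omega), mul_zero]
  simp_rw [hint] at key
  rw [intervalIntegral.integral_zero] at key
  have h3 := hasSum_ite_eq j (b j * (h : ℂ))
  have h4 := key.unique h3
  have hh' : (h : ℂ) ≠ 0 := by exact_mod_cast hh.ne'
  have h5 : b j * (h : ℂ) = 0 := h4.symm
  exact (mul_eq_zero.mp h5).resolve_right hh'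

/-- Vertical moment of a function on the upper half plane. -/
def vmom (f : ℍ → ℂ) (n : ℕ) (x : ℝ) : ℂ :=
  ∫ t in Ioi (0:ℝ), f (ofComplex (x + t * I)) * (t : ℂ) ^ n


/-- The coefficients of the Fourier series of the moments. -/
def momc (Γ : Subgroup (GL (Fin 2) ℝ)) (f : ℍ → ℂ) (n : ℕ) (m : ℕ) : ℂ :=
  (n.factorial : ℂ) * (qExpansion Γ.strictWidthInfty f).coeff m /
    (2 * π * m / Γ.strictWidthInfty : ℝ) ^ (n + 1)

lemma coeff_zero_eq (Γ : Subgroup (GL (Fin 2) ℝ)) [Γ.IsArithmetic] (k : ℤ)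
    {F : Type*} [FunLike F ℍ ℂ] [CuspFormClass F Γ k] (f : F) :
    (qExpansion Γ.strictWidthInfty f).coeff 0 = 0 := by
  have hh := Γ.strictWidthInfty_pos
  have hΓ := Γ.strictWidthInfty_mem_strictPeriods
  have : Fact (IsCusp OnePoint.infty Γ) := ⟨Γ.isCusp_of_mem_strictPeriods hh hΓ⟩
  exact CuspFormClass.qExpansion_coeff_zero f hh hΓ

lemma summable_momc (Γ : Subgroup (GL (Fin 2) ℝ)) [Γ.IsArithmetic] {k : ℤ}
    {F : Type*} [FunLike F ℍ ℂ] [CuspFormClass F Γ k] (f : F)
    {n : ℕ} (hn : (n : ℤ) + 2 = k) (hk : 5 ≤ k) :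
    Summable fun m => ‖(qExpansion Γ.strictWidthInfty f).coeff m‖ /
      (2 * π * m / Γ.strictWidthInfty : ℝ) ^ (n + 1) := by
  have hh := Γ.strictWidthInfty_pos
  have h1 : ∀ m : ℕ, ‖(qExpansion Γ.strictWidthInfty f).coeff m‖ /
      (2 * π * m / Γ.strictWidthInfty : ℝ) ^ (n + 1) =
      (‖(qExpansion Γ.strictWidthInfty f).coeff m‖ * ((m : ℝ) ^ (n + 1))⁻¹) *
        ((2 * π / Γ.strictWidthInfty) ^ (n + 1))⁻¹ := by
    intro m
    rw [show (2 * π * m / Γ.strictWidthInfty : ℝ) = (m : ℝ) * (2 * π / Γ.strictWidthInfty) by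
      ring, mul_pow, div_eq_mul_inv, mul_inv, mul_assoc]
  simp_rw [h1]
  apply Summable.mul_right
  have hO := CuspFormClass.qExpansion_isBigO (Γ := Γ) f
  have hkr : (k : ℝ) = n + 2 := by
    rw [← hn]; push_cast; ring
  have hn3 : (3 : ℝ) ≤ n := by
    have : (3 : ℤ) ≤ n := by omega
    exact_mod_cast this
  refine summable_of_isBigO_nat (g := fun m : ℕ => (m : ℝ) ^ ((k : ℝ) / 2 - (n + 1)))
    (Real.summable_nat_rpow.mpr (by rw [hkr]; linarith)) ?_
  have h2 : (fun m : ℕ => (m : ℝ) ^ ((k : ℝ) / 2 - (n + 1))) =ᶠ[atTop]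
      fun m : ℕ => (m : ℝ) ^ ((k : ℝ) / 2) * ((m : ℝ) ^ (n + 1))⁻¹ := by
    filter_upwards [eventually_gt_atTop 0] with m hm
    have hm' : (0:ℝ) < m := by exact_mod_cast hm
    rw [Real.rpow_sub hm', div_eq_mul_inv]
    congr 2
    rw [← Real.rpow_natCast]
    push_cast
    rfl
  refine Asymptotics.IsBigO.trans_eventuallyEq ?_ h2.symm
  exact (hO.norm_left).mul (Asymptotics.isBigO_refl _ _)

lemma hasSum_vmom (Γ : Subgroup (GL (Fin 2) ℝ)) [Γ.IsArithmetic] {k : ℤ}
    {F : Type*} [FunLike F ℍ ℂ] [CuspFormClass F Γ k] (f : F)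
    {n : ℕ} (hn : (n : ℤ) + 2 = k) (hk : 5 ≤ k) (x : ℝ) :
    HasSum (fun m : ℕ => momc Γ f n m * cexp (2 * π * I * (m : ℤ) * x / Γ.strictWidthInfty))
      (vmom f n x) := by
  have hh := Γ.strictWidthInfty_pos
  have hh' : (Γ.strictWidthInfty : ℂ) ≠ 0 := by exact_mod_cast hh.ne'
  have hΓ := Γ.strictWidthInfty_mem_strictPeriods
  have : Fact (IsCusp OnePoint.infty Γ) := ⟨Γ.isCusp_of_mem_strictPeriods hh hΓ⟩
  set A : ℕ → ℂ := fun m => (qExpansion Γ.strictWidthInfty f).coeff m *
    cexp (2 * π * I * (m : ℤ) * x / Γ.strictWidthInfty) with hA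
  have hAn : ∀ m, ‖A m‖ = ‖(qExpansion Γ.strictWidthInfty f).coeff m‖ := by
    intro m
    rw [hA]
    simp only
    rw [norm_mul, norm_expi, mul_one]
  have hM := hasSum_mellin (a := A) (p := fun m : ℕ => 2 * π * m / Γ.strictWidthInfty)
    (F := fun t => f (ofComplex (x + t * I))) (s := (n : ℂ) + 1) ?_ ?_ ?_ ?_
  · have e0 : mellin (fun t : ℝ => f (ofComplex (x + t * I))) ((n : ℂ) + 1) = vmom f n x := by
      rw [mellin, vmom]
      refine setIntegral_congr_fun measurableSet_Ioi fun t ht => ?_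
      simp only [add_sub_cancel_right, smul_eq_mul, cpow_natCast]
      ring
    rw [e0] at hM
    refine hM.congr_fun ?_
    intro m
    rw [momc, hA]
    simp only
    have e1 : ((2 * π * (m : ℝ) / Γ.strictWidthInfty : ℝ) : ℂ) ^ ((n : ℂ) + 1) =
        ((2 * π * (m : ℝ) / Γ.strictWidthInfty : ℝ) : ℂ) ^ (n + 1) := by
      rw [← cpow_natCast]
      push_cast
      rfl
    rw [e1, Complex.Gamma_nat_eq_factorial]
    ring
  · intro m
    rcases Nat.eq_zero_or_pos m with rfl | hm
    · left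
      rw [hA]
      simp only
      rw [coeff_zero_eq Γ k f, zero_mul]
    · right
      have : (0:ℝ) < m := by exact_mod_cast hm
      positivity
  · simp only [add_re, natCast_re, one_re]
    positivity
  · intro t ht
    have ht' : (0:ℝ) < t := ht
    have h1 := ModularForm.hasSum_qExpansion f hh hΓ (ofComplex (x + t * I))
    refine h1.congr_fun ?_
    intro m
    rw [hA]
    simp only
    rw [mul_assoc]
    congr 1
    have him : 0 < ((x : ℂ) + t * I).im := by simpa using ht'
    rw [Function.Periodic.qParam, ofComplex_apply_of_im_pos him, ← Complex.exp_nat_mul,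
      ofReal_exp, ← Complex.exp_add]
    congr 1
    push_cast
    field_simp
    ring_nf
    rw [I_sq]
    ring
  · have h1 := summable_momc Γ f hn hk
    refine h1.congr ?_
    intro m
    rw [hAn]
    congr 1
    rw [← Real.rpow_natCast]
    congr 1
    simp

/-- **Injectivity of the even and odd moments** (dense sets of base points). -/
theorem vmom_inj (Γ : Subgroup (GL (Fin 2) ℝ)) [Γ.IsArithmetic] {k : ℤ}
    {F : Type*} [FunLike F ℍ ℂ] [CuspFormClass F Γ k] (f : F)
    {n : ℕ} (hn : (n : ℤ) + 2 = k) (hk : 5 ≤ k) (s : ℂ)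
    {D : Set ℝ} (hD : Dense D) (H : ∀ x ∈ D, vmom f n x + s * vmom f n (-x) = 0) (τ : ℍ) :
    f τ = 0 := by
  have hh := Γ.strictWidthInfty_pos
  have hΓ := Γ.strictWidthInfty_mem_strictPeriods
  have : Fact (IsCusp OnePoint.infty Γ) := ⟨Γ.isCusp_of_mem_strictPeriods hh hΓ⟩
  have hb : Summable fun m => ‖momc Γ f n m‖ := by
    have h1 := (summable_momc Γ f hn hk).mul_left (n.factorial : ℝ)
    refine h1.congr ?_
    intro m
    rw [momc, norm_div, norm_mul, norm_pow, Complex.norm_natCast, Complex.norm_real,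
      Real.norm_of_nonneg (by positivity), ← mul_div_assoc]
  have hb0 : momc Γ f n 0 = 0 := by
    rw [momc, coeff_zero_eq Γ k f]
    simp
  have hall : ∀ m, momc Γ f n m = 0 := by
    intro m
    refine fourier_unique (s := s) hb hb0 hh hD ?_ m
    intro x hx
    have h1 := hasSum_vmom Γ f hn hk x
    have h2 := (hasSum_vmom Γ f hn hk (-x)).mul_left s
    have h3 := h1.add h2
    rw [H x hx] at h3
    have h4 : HasSum (fun m => fterm (momc Γ f n) Γ.strictWidthInfty s m x) 0 := by
      refine h3.congr_fun ?_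
      intro m
      rw [fterm]
      have e : (2 * π * I * (m : ℤ) * ((-x : ℝ) : ℂ) / Γ.strictWidthInfty : ℂ) =
          2 * π * I * (-(m : ℤ) : ℤ) * x / Γ.strictWidthInfty := by
        push_cast
        ring
      rw [e]
      ring
    exact h4.tsum_eq
  have hcoef : ∀ m, (qExpansion Γ.strictWidthInfty f).coeff m = 0 := by
    intro m
    rcases Nat.eq_zero_or_pos m with rfl | hm
    · exact coeff_zero_eq Γ k f
    · have h1 := hall m
      rw [momc, div_eq_zero_iff] at h1
      have hm' : (0:ℝ) < m := by exact_mod_cast hm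
      rcases h1 with h1 | h1
      · have h2 : (n.factorial : ℂ) ≠ 0 := by exact_mod_cast n.factorial_ne_zero
        exact (mul_eq_zero.mp h1).resolve_left h2
      · exfalso
        have h2 : (0:ℝ) < 2 * π * m / Γ.strictWidthInfty := by positivity
        have h3 : ((2 * π * m / Γ.strictWidthInfty : ℝ) : ℂ) ≠ 0 := by exact_mod_cast h2.ne'
        exact h3 (pow_eq_zero_iff (by omega) |>.mp h1)
  have h1 := ModularForm.hasSum_qExpansion f hh hΓ τ
  simp_rw [hcoef, zero_mul] at h1
  exact h1.unique hasSum_zero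

end

end Pool.Agent.Gouv.ES
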