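import Mathlib

/-!
# MP_d3517d_nt, cell ES: injectivity of the period map by Fourier series (core)

Independent of every convention of the cell.
`hasSum_line`: the integral of `t ^ n * F (x + i t)` over a vertical half line as a Dirichlet
type series.  `fourier_unique`: uniqueness of one sided Fourier coefficients when the even or odd
part vanishes on a dense set.  `cuspForm_eq_zero`: a cusp form of weight at least five whose
twisted vertical integrals vanish on a dense set of abscissas is zero.
-/

open MeasureTheory Set Filter Topology Complex Asymptotics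
open scoped Real

namespace Pool.Agent.Gouv.ESF

/-- Vertical half line integral of a Fourier series, as a series. -/
theorem hasSum_line {a : ℕ → ℂ} {h : ℝ} (hh : 0 < h) (ha0 : a 0 = 0) {F : ℝ → ℂ} {n : ℕ}
    (hF : ∀ t : ℝ, 0 < t →
      HasSum (fun m : ℕ => a m * (Real.exp (-(2 * π * m / h) * t) : ℂ)) (F t))
    (hs : Summable fun m : ℕ => ‖a m‖ / (m : ℝ) ^ (n + 1)) :
    HasSum (fun m : ℕ => a m * ((n.factorial : ℂ) / (2 * π * m / h) ^ (n + 1)))
      (∫ t in Ioi (0 : ℝ), (t : ℂ) ^ n * F t) := by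
  have key := hasSum_mellin (a := a) (p := fun m : ℕ => 2 * π * m / h) (F := F)
    (s := (n : ℂ) + 1) ?_ ?_ ?_ ?_
  · have e1 : mellin F ((n : ℂ) + 1) = ∫ t in Ioi (0 : ℝ), (t : ℂ) ^ n * F t := by
      rw [mellin]
      refine setIntegral_congr_fun measurableSet_Ioi fun t _ => ?_
      simp only [add_sub_cancel_right, smul_eq_mul]
      rw [cpow_natCast]
    rw [e1] at key
    refine key.congr_fun fun m => ?_
    rw [Complex.Gamma_nat_eq_factorial]
    have : ((2 * π * m / h : ℝ) : ℂ) ^ ((n : ℂ) + 1) = (2 * π * m / h : ℂ) ^ (n + 1) := by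
      have : ((n : ℂ) + 1) = ((n + 1 : ℕ) : ℂ) := by push_cast; ring
      rw [this, cpow_natCast]
      push_cast
      ring
    rw [this]
    ring
  · intro m
    rcases Nat.eq_zero_or_pos m with rfl | hm
    · exact Or.inl ha0
    · right
      positivity
  · simp only [add_re, natCast_re, one_re]
    positivity
  · intro t ht
    exact hF t ht
  · have hc : ∀ m : ℕ, ‖a m‖ / (2 * π * m / h : ℝ) ^ ((n : ℂ) + 1).re
        = (‖a m‖ / (m : ℝ) ^ (n + 1)) * (h / (2 * π)) ^ (n + 1) := by
      intro m
      have e : (((n : ℂ) + 1).re) = ((n + 1 : ℕ) : ℝ) := by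
        simp
      rw [e, Real.rpow_natCast]
      rcases Nat.eq_zero_or_pos m with rfl | hm
      · simp [ha0]
      · have : (2 * π * m / h : ℝ) ≠ 0 := by positivity
        have hπ : (2 * π : ℝ) ≠ 0 := by positivity
        have hm' : (m : ℝ) ≠ 0 := by positivity
        rw [div_pow, div_pow, mul_pow]
        field_simp
    simp_rw [hc]
    exact hs.mul_right _

/-- The character of frequency `k` and period `h`. -/
noncomputable def ee (h : ℝ) (k : ℤ) (x : ℝ) : ℂ := cexp (2 * π * I * k * x / h)

theorem ee_add (h : ℝ) (k l : ℤ) (x : ℝ) : ee h (k + l) x = ee h k x * ee h l x := by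
  rw [ee, ee, ee, ← Complex.exp_add]
  congr 1
  push_cast
  ring

theorem ee_zero (h : ℝ) (x : ℝ) : ee h 0 x = 1 := by
  simp [ee]

theorem norm_ee (h : ℝ) (k : ℤ) (x : ℝ) : ‖ee h k x‖ = 1 := by
  have : (2 * π * I * k * x / h : ℂ) = ((2 * π * k * x / h : ℝ) : ℂ) * I := by
    push_cast
    ring
  rw [ee, this, Complex.norm_exp_ofReal_mul_I]

theorem continuous_ee (h : ℝ) (k : ℤ) : Continuous (ee h k) := by
  unfold ee
  fun_prop

theorem integral_ee {h : ℝ} (hh : 0 < h) {k : ℤ} (hk : k ≠ 0) :
    ∫ x in (0 : ℝ)..h, ee h k x = 0 := by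
  have hh' : (h : ℂ) ≠ 0 := by exact_mod_cast hh.ne'
  have hk' : (k : ℂ) ≠ 0 := by exact_mod_cast hk
  have hπ : (π : ℂ) ≠ 0 := by exact_mod_cast Real.pi_ne_zero
  have hc : (2 * π * I * k / h : ℂ) ≠ 0 :=
    div_ne_zero (mul_ne_zero (mul_ne_zero (mul_ne_zero two_ne_zero hπ) Complex.I_ne_zero) hk') hh'
  have e : ∀ x : ℝ, ee h k x = cexp ((2 * π * I * k / h : ℂ) * x) := by
    intro x
    rw [ee]
    congr 1
    ring
  simp_rw [e]
  rw [integral_exp_mul_complex hc]
  have e2 : (2 * π * I * k / h : ℂ) * (h : ℂ) = k * (2 * π * I) := by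
    field_simp
  rw [e2, Complex.exp_int_mul_two_pi_mul_I]
  simp

/-- Uniqueness of the positive Fourier coefficients of an absolutely convergent series of the
form `∑ b m * (e (m x) + ε * e (- m x))` vanishing on a dense set. -/
theorem fourier_unique {b : ℕ → ℂ} {h : ℝ} (hh : 0 < h) (hb : Summable fun m => ‖b m‖) (ε : ℂ)
    {D : Set ℝ} (hD : Dense D)
    (H : ∀ x ∈ D, ∑' m : ℕ, b m * (ee h m x + ε * ee h (-m) x) = 0) :
    ∀ m, 1 ≤ m → b m = 0 := by
  have hbound : ∀ (m : ℕ) (x : ℝ), ‖b m * (ee h m x + ε * ee h (-m) x)‖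
      ≤ ‖b m‖ * (1 + ‖ε‖) := by
    intro m x
    rw [norm_mul]
    refine mul_le_mul_of_nonneg_left ?_ (norm_nonneg _)
    refine (norm_add_le _ _).trans ?_
    rw [norm_ee, norm_mul, norm_ee, mul_one]
  have hsum : Summable fun m => ‖b m‖ * (1 + ‖ε‖) := hb.mul_right _
  have hcont : Continuous fun x : ℝ => ∑' m : ℕ, b m * (ee h m x + ε * ee h (-m) x) := by
    refine continuous_tsum (fun m => ?_) hsum hbound
    exact continuous_const.mul ((continuous_ee h m).add (continuous_const.mul (continuous_ee h _)))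
  have hzero : ∀ x : ℝ, ∑' m : ℕ, b m * (ee h m x + ε * ee h (-m) x) = 0 := by
    have : (fun x : ℝ => ∑' m : ℕ, b m * (ee h m x + ε * ee h (-m) x)) = fun _ => 0 :=
      Continuous.ext_on hD hcont continuous_const H
    exact fun x => congrFun this x
  intro j hj
  have hI : HasSum (fun m : ℕ => ∫ x in (0 : ℝ)..h,
      (b m * (ee h m x + ε * ee h (-m) x)) * ee h (-j) x)
      (∫ x in (0 : ℝ)..h, (0 : ℂ)) := by
    refine intervalIntegral.hasSum_integral_of_dominated_convergence
      (fun m _ => ‖b m‖ * (1 + ‖ε‖)) ?_ ?_ ?_ ?_ ?_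
    · intro m
      refine Continuous.aestronglyMeasurable ?_
      exact (continuous_const.mul ((continuous_ee h m).add
        (continuous_const.mul (continuous_ee h _)))).mul (continuous_ee h _)
    · intro m
      refine ae_of_all _ fun x _ => ?_
      rw [norm_mul, norm_ee, mul_one]
      exact hbound m x
    · exact ae_of_all _ fun x _ => hsum
    · exact intervalIntegrable_const
    · refine ae_of_all _ fun x _ => ?_
      have h1 : Summable fun m : ℕ => b m * (ee h m x + ε * ee h (-m) x) :=
        Summable.of_norm_bounded hsum fun m => hbound m x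
      have h2 := (h1.hasSum).mul_right (ee h (-j) x)
      rw [hzero x, zero_mul] at h2
      exact h2
  have hval : ∀ m : ℕ, ∫ x in (0 : ℝ)..h,
      (b m * (ee h m x + ε * ee h (-m) x)) * ee h (-j) x = if m = j then b j * h else 0 := by
    intro m
    have e : ∀ x : ℝ, (b m * (ee h m x + ε * ee h (-m) x)) * ee h (-j) x
        = b m * ee h ((m : ℤ) - j) x + (b m * ε) * ee h (-(m : ℤ) - j) x := by
      intro x
      rw [sub_eq_add_neg, ee_add, sub_eq_add_neg, ee_add]
      ring
    simp_rw [e]
    rw [intervalIntegral.integral_add, intervalIntegral.integral_const_mul,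
      intervalIntegral.integral_const_mul]
    · have h2 : (-(m : ℤ) - j) ≠ 0 := by omega
      rw [integral_ee hh h2, mul_zero, add_zero]
      by_cases hm : m = j
      · subst hm
        simp [ee_zero]
      · rw [if_neg hm]
        have h1 : ((m : ℤ) - j) ≠ 0 := by
          intro h0
          apply hm
          omega
        rw [integral_ee hh h1, mul_zero]
    · exact (continuous_const.mul (continuous_ee h _)).intervalIntegrable _ _
    · exact (continuous_const.mul (continuous_ee h _)).intervalIntegrable _ _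
  simp_rw [hval] at hI
  have h3 := hI.unique (hasSum_ite_eq j (b j * (h : ℂ)))
  rw [intervalIntegral.integral_zero] at h3
  have hh' : (h : ℂ) ≠ 0 := by exact_mod_cast hh.ne'
  exact (mul_eq_zero.mp h3.symm).resolve_right hh'

/-- The twisted vertical integral of `f` above `x`. -/
noncomputable def lineInt (f : UpperHalfPlane → ℂ) (n : ℕ) (x : ℝ) : ℂ :=
  ∫ t in Ioi (0 : ℝ), (t : ℂ) ^ n * f (UpperHalfPlane.ofComplex ((x : ℂ) + t * I))

open UpperHalfPlane in
theorem hasSum_lineInt {Γ : Subgroup (GL (Fin 2) ℝ)} [Γ.IsArithmetic] {k : ℤ}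
    (f : CuspForm Γ k) {n : ℕ} (hn : (k : ℝ) / 2 < n) (x : ℝ) :
    HasSum (fun m : ℕ => ((qExpansion Γ.strictWidthInfty f).coeff m
        * ((n.factorial : ℂ) / (2 * π * m / Γ.strictWidthInfty) ^ (n + 1)))
        * ee Γ.strictWidthInfty m x)
      (lineInt f n x) := by
  set h := Γ.strictWidthInfty with hdef
  have hh : 0 < h := Γ.strictWidthInfty_pos_iff.mpr Fact.out
  have hΓ : h ∈ Γ.strictPeriods := Γ.strictWidthInfty_mem_strictPeriods
  have ha0 : (qExpansion h f).coeff 0 = 0 := CuspFormClass.qExpansion_coeff_zero f hh hΓ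
  have key := hasSum_line (a := fun m => (qExpansion h f).coeff m * ee h m x) (h := h) hh
    (by rw [ha0, zero_mul]) (F := fun t => f (ofComplex ((x : ℂ) + t * Complex.I))) (n := n) ?_ ?_
  · refine (key.congr_fun fun m => ?_)
    ring
  · intro t ht
    have him : 0 < ((x : ℂ) + t * Complex.I).im := by simpa using ht
    have h1 := ModularForm.hasSum_qExpansion f hh hΓ (ofComplex ((x : ℂ) + t * Complex.I))
    refine h1.congr_fun fun m => ?_
    rw [ofComplex_apply_of_im_pos him, mul_assoc]
    congr 1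
    rw [Function.Periodic.qParam, ee, ← Complex.exp_nat_mul, Complex.ofReal_exp,
      ← Complex.exp_add]
    congr 1
    have hI : Complex.I * Complex.I = -1 := Complex.I_mul_I
    push_cast
    have hh' : (h : ℂ) ≠ 0 := by exact_mod_cast hh.ne'
    field_simp
    linear_combination (-(m * t : ℂ)) * hI
  · have hO := CuspFormClass.qExpansion_isBigO f
    refine summable_of_isBigO_nat
      (Real.summable_nat_rpow.mpr (show (k : ℝ) / 2 - ((n + 1 : ℕ) : ℝ) < -1 by
        push_cast; linarith)) ?_
    have hne : (k : ℝ) / 2 - ((n + 1 : ℕ) : ℝ) ≠ 0 := by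
      push_cast
      intro h0
      linarith
    have hr : (fun m : ℕ => (m : ℝ) ^ ((k : ℝ) / 2 - ((n + 1 : ℕ) : ℝ)))
        = fun m : ℕ => (m : ℝ) ^ ((k : ℝ) / 2) * ((m : ℝ) ^ (n + 1))⁻¹ := by
      funext m
      rw [Real.rpow_sub' (Nat.cast_nonneg _) hne, Real.rpow_natCast, div_eq_mul_inv]
    rw [hr]
    simp only [div_eq_mul_inv]
    refine IsBigO.mul ?_ (isBigO_refl _ _)
    have : (fun m : ℕ => ‖(qExpansion h f).coeff m * ee h m x‖)
        = fun m : ℕ => ‖(qExpansion h f).coeff m‖ := by
      funext m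
      rw [norm_mul, norm_ee, mul_one]
    rw [this]
    exact hO.norm_left

open UpperHalfPlane in
/-- A cusp form of weight at least five whose vertical integrals (even or odd part) vanish for a
dense set of abscissas is zero. -/
theorem cuspForm_eq_zero {Γ : Subgroup (GL (Fin 2) ℝ)} [Γ.IsArithmetic] {k : ℤ}
    (f : CuspForm Γ k) {n : ℕ} (hn : (k : ℝ) / 2 < n) (ε : ℂ) {D : Set ℝ} (hD : Dense D)
    (H : ∀ x ∈ D, lineInt f n x + ε * lineInt f n (-x) = 0) : f = 0 := by
  set h := Γ.strictWidthInfty with hdef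
  have hh : 0 < h := Γ.strictWidthInfty_pos_iff.mpr Fact.out
  have hΓ : h ∈ Γ.strictPeriods := Γ.strictWidthInfty_mem_strictPeriods
  have ha0 : (qExpansion h f).coeff 0 = 0 := CuspFormClass.qExpansion_coeff_zero f hh hΓ
  set b : ℕ → ℂ := fun m => (qExpansion h f).coeff m
        * ((n.factorial : ℂ) / (2 * π * m / h) ^ (n + 1)) with hbdef
  have hneg : ∀ (m : ℕ) (x : ℝ), ee h m (-x) = ee h (-m) x := by
    intro m x
    rw [ee, ee]
    congr 1
    push_cast
    ring
  have hb : Summable fun m => ‖b m‖ := by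
    have h0 := (hasSum_lineInt f hn 0).summable
    have h1 : (fun m : ℕ => ((qExpansion h f).coeff m
        * ((n.factorial : ℂ) / (2 * π * m / h) ^ (n + 1))) * ee h m 0) = b := by
      funext m
      rw [hbdef, ee]
      simp
    rw [← hdef, h1] at h0
    exact summable_norm_iff.mpr h0
  have hall : ∀ m, 1 ≤ m → b m = 0 := by
    refine fourier_unique hh hb ε hD fun x hx => ?_
    have e1 := hasSum_lineInt f hn x
    have e2 := (hasSum_lineInt f hn (-x)).mul_left ε
    have e3 := e1.add e2
    rw [H x hx] at e3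
    rw [← e3.tsum_eq]
    refine tsum_congr fun m => ?_
    rw [← hdef, hneg, hbdef]
    ring
  have hcoef : ∀ m, (qExpansion h f).coeff m = 0 := by
    intro m
    rcases Nat.eq_zero_or_pos m with rfl | hm
    · exact ha0
    · refine (mul_eq_zero.mp (hall m hm)).resolve_right ?_
      have hh' : (h : ℂ) ≠ 0 := by exact_mod_cast hh.ne'
      have hπ : (π : ℂ) ≠ 0 := by exact_mod_cast Real.pi_ne_zero
      have hm' : (m : ℂ) ≠ 0 := by exact_mod_cast hm.ne'
      refine div_ne_zero (by exact_mod_cast n.factorial_ne_zero) (pow_ne_zero _ ?_)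
      exact div_ne_zero (mul_ne_zero (mul_ne_zero two_ne_zero hπ) hm') hh'
  refine DFunLike.ext _ _ fun τ => ?_
  have h1 := ModularForm.hasSum_qExpansion f hh hΓ τ
  simp only [hcoef, zero_mul] at h1
  exact h1.unique hasSum_zero

end Pool.Agent.Gouv.ESF
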