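import Pool.Agent.Work.MP_d3517d_nt.ES.Main

/-!
# Injectivity of the Eichler–Shimura map in weight 4 (MP_d3517d_nt, ES)

`FourierInj`/`VertPer`/`Main` prove the injectivity of `ESmap M n` for `n ≥ 3` with the pointwise
bound `|a_m| ≤ C m^(k/2)`.  Here the mean square of the coefficients (Parseval on horizontal
lines) gives it for `n ≥ 2`, in particular for weight `4`.

* `parseval_le`: Parseval's inequality for absolutely convergent one sided Fourier series;
* `summable_sq_coeff`: `∑ |a_m|^2 m^(-s) < ∞` for `s > k`;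
* `summable_momc'`, `hasSum_vmom'`, `vmom_inj'`, `sym_inj'`, `eps_inj'`: the statements of
  `Fourier`, `VertPer` and `Main` for `k ≥ 4`, `n ≥ 2`;
* `ESmap_injective'`: `ESmap M n` is injective for `n ≥ 2`.
-/

open Filter Topology UpperHalfPlane Polynomial MeasureTheory
open scoped MatrixGroups ModularForm Real ComplexConjugate

noncomputable section

namespace Gouvea.ES

open Pool.Agent.Gouv.ES

/-- **Parseval's inequality** for an absolutely convergent one sided Fourier series. -/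
theorem parseval_le {c : ℕ → ℂ} (hc : Summable fun m => ‖c m‖) {h : ℝ} (hh : 0 < h)
    {F : ℝ → ℂ} (hF : ∀ x : ℝ, HasSum (fun m : ℕ =>
      c m * Complex.exp (2 * π * Complex.I * ((m : ℤ) : ℂ) * x / h)) (F x))
    {B : ℝ} (hB : ∀ x, ‖F x‖ ≤ B) (N : ℕ) : ∑ m ∈ Finset.range N, ‖c m‖ ^ 2 ≤ B ^ 2 := by
  have hB0 : 0 ≤ B := (norm_nonneg _).trans (hB 0)
  have hh' : (h : ℂ) ≠ 0 := by exact_mod_cast hh.ne'
  have hFc : Continuous F := by
    have h1 : F = fun x : ℝ => ∑' m : ℕ,
        c m * Complex.exp (2 * π * Complex.I * ((m : ℤ) : ℂ) * x / h) :=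
      funext fun x => (hF x).tsum_eq.symm
    rw [h1]
    refine continuous_tsum (fun m => by fun_prop) hc fun m x => ?_
    rw [norm_mul, norm_expi, mul_one]
  -- the Fourier coefficients
  have hcoef : ∀ j : ℕ, ∫ x in (0 : ℝ)..h,
      F x * Complex.exp (2 * π * Complex.I * (-(j : ℤ) : ℤ) * x / h) = h * c j := by
    intro j
    have key : HasSum (fun m : ℕ => ∫ x in (0 : ℝ)..h,
        (c m * Complex.exp (2 * π * Complex.I * ((m : ℤ) : ℂ) * x / h)) *
        Complex.exp (2 * π * Complex.I * (-(j : ℤ) : ℤ) * x / h))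
        (∫ x in (0 : ℝ)..h, F x * Complex.exp (2 * π * Complex.I * (-(j : ℤ) : ℤ) * x / h)) := by
      refine intervalIntegral.hasSum_integral_of_dominated_convergence
        (fun m _ => ‖c m‖) ?_ ?_ ?_ ?_ ?_
      · intro m
        apply Continuous.aestronglyMeasurable
        fun_prop
      · intro m
        refine Eventually.of_forall fun x _ => ?_
        rw [norm_mul, norm_mul, norm_expi, norm_expi, mul_one, mul_one]
      · exact Eventually.of_forall fun x _ => hc
      · exact intervalIntegrable_const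
      · exact Eventually.of_forall fun x _ => (hF x).mul_right _
    have hint : ∀ m : ℕ, ∫ x in (0 : ℝ)..h,
        (c m * Complex.exp (2 * π * Complex.I * ((m : ℤ) : ℂ) * x / h)) *
        Complex.exp (2 * π * Complex.I * (-(j : ℤ) : ℤ) * x / h) =
        if m = j then h * c j else 0 := by
      intro m
      have e : ∀ x : ℝ, (c m * Complex.exp (2 * π * Complex.I * ((m : ℤ) : ℂ) * x / h)) *
          Complex.exp (2 * π * Complex.I * (-(j : ℤ) : ℤ) * x / h) =
          c m * Complex.exp (2 * π * Complex.I * (((m : ℤ) - (j : ℤ) : ℤ) : ℂ) * x / h) := by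
        intro x
        rw [mul_assoc, ← Complex.exp_add]
        congr 2
        push_cast
        ring
      simp_rw [e]
      rw [intervalIntegral.integral_const_mul, integral_expi hh]
      by_cases hm : m = j
      · subst hm
        simp [mul_comm]
      · rw [if_neg hm, if_neg (by omega), mul_zero]
    simp_rw [hint] at key
    exact key.unique (hasSum_ite_eq j (h * c j))
  have key2 : HasSum (fun m : ℕ => ∫ x in (0 : ℝ)..h,
      (c m * Complex.exp (2 * π * Complex.I * ((m : ℤ) : ℂ) * x / h)) * conj (F x))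
      (∫ x in (0 : ℝ)..h, F x * conj (F x)) := by
    refine intervalIntegral.hasSum_integral_of_dominated_convergence
      (fun m _ => ‖c m‖ * B) ?_ ?_ ?_ ?_ ?_
    · intro m
      apply Continuous.aestronglyMeasurable
      have : Continuous fun x => conj (F x) := Complex.continuous_conj.comp hFc
      fun_prop
    · intro m
      refine Eventually.of_forall fun x _ => ?_
      rw [norm_mul, norm_mul, norm_expi, mul_one, Complex.norm_conj]
      exact mul_le_mul_of_nonneg_left (hB x) (norm_nonneg _)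
    · exact Eventually.of_forall fun x _ => hc.mul_right _
    · exact intervalIntegrable_const
    · exact Eventually.of_forall fun x _ => (hF x).mul_right _
  have hint2 : ∀ m : ℕ, ∫ x in (0 : ℝ)..h,
      (c m * Complex.exp (2 * π * Complex.I * ((m : ℤ) : ℂ) * x / h)) * conj (F x) =
      ((h * ‖c m‖ ^ 2 : ℝ) : ℂ) := by
    intro m
    have e : ∀ x : ℝ, (c m * Complex.exp (2 * π * Complex.I * ((m : ℤ) : ℂ) * x / h)) *
        conj (F x) = c m * conj (F x *
          Complex.exp (2 * π * Complex.I * (-(m : ℤ) : ℤ) * x / h)) := by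
      intro x
      rw [map_mul, ← Complex.exp_conj, mul_assoc]
      congr 1
      rw [mul_comm]
      congr 2
      simp only [map_div₀, map_mul, Complex.conj_ofReal, Complex.conj_I, Int.cast_neg,
        Int.cast_natCast, map_neg, map_natCast, Complex.conj_ofNat]
      ring
    simp_rw [e]
    have e2 := hcoef m
    rw [intervalIntegral.integral_of_le hh.le] at e2
    rw [intervalIntegral.integral_const_mul, intervalIntegral.integral_of_le hh.le,
      integral_conj, e2, map_mul, Complex.conj_ofReal]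
    have := Complex.mul_conj (c m)
    rw [Complex.normSq_eq_norm_sq] at this
    push_cast
    push_cast at this
    rw [← this]
    ring
  simp_rw [hint2] at key2
  have key3 : HasSum (fun m : ℕ => h * ‖c m‖ ^ 2) (∫ x in (0 : ℝ)..h, F x * conj (F x)).re :=
    (Complex.hasSum_re key2).congr_fun fun m => by simp only [Complex.ofReal_re]
  have h5 : ∑ m ∈ Finset.range N, h * ‖c m‖ ^ 2 ≤ (∫ x in (0 : ℝ)..h, F x * conj (F x)).re :=
    sum_le_hasSum _ (fun m _ => by positivity) key3
  have h6 : ‖∫ x in (0 : ℝ)..h, F x * conj (F x)‖ ≤ B ^ 2 * |h - 0| := by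
    refine intervalIntegral.norm_integral_le_of_norm_le_const fun x _ => ?_
    rw [norm_mul, Complex.norm_conj, sq]
    exact mul_le_mul (hB x) (hB x) (norm_nonneg _) hB0
  have h7 : h * ∑ m ∈ Finset.range N, ‖c m‖ ^ 2 ≤ h * B ^ 2 := by
    rw [Finset.mul_sum]
    refine h5.trans ((Complex.re_le_norm _).trans (h6.trans ?_))
    rw [sub_zero, abs_of_pos hh, mul_comm]
  exact le_of_mul_le_mul_left h7 hh

/-- The mean square of a cusp form on a horizontal line. -/
theorem sum_sq_exp_le (Γ : Subgroup (GL (Fin 2) ℝ)) [Γ.IsArithmetic] {k : ℤ}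
    {F : Type*} [FunLike F ℍ ℂ] [CuspFormClass F Γ k] (f : F) :
    ∃ C : ℝ, 0 ≤ C ∧ ∀ y : ℝ, 0 < y → ∀ N : ℕ,
      ∑ m ∈ Finset.range N, ‖(qExpansion Γ.strictWidthInfty f).coeff m‖ ^ 2 *
        Real.exp (-(4 * π * m * y / Γ.strictWidthInfty)) ≤ C * y ^ (-(k : ℝ)) := by
  have hh := Γ.strictWidthInfty_pos
  have hΓ := Γ.strictWidthInfty_mem_strictPeriods
  have : Fact (IsCusp OnePoint.infty Γ) := ⟨Γ.isCusp_of_mem_strictPeriods hh hΓ⟩
  obtain ⟨C, hC⟩ := CuspFormClass.exists_bound f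
  refine ⟨C ^ 2, sq_nonneg C, fun y hy N => ?_⟩
  set h := Γ.strictWidthInfty with hdef
  set c : ℕ → ℂ := fun m => (qExpansion h f).coeff m *
    ((Real.exp (-(2 * π * m * y / h)) : ℝ) : ℂ) with hc
  have him : ∀ x : ℝ, 0 < ((x : ℂ) + y * Complex.I).im := fun x => by simpa using hy
  have hF : ∀ x : ℝ, HasSum (fun m : ℕ =>
      c m * Complex.exp (2 * π * Complex.I * ((m : ℤ) : ℂ) * x / h))
      (f (ofComplex ((x : ℂ) + y * Complex.I))) := by
    intro x
    have h1 := ModularForm.hasSum_qExpansion f hh hΓ (ofComplex ((x : ℂ) + y * Complex.I))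
    refine h1.congr_fun fun m => ?_
    rw [hc]
    simp only
    rw [mul_assoc]
    congr 1
    rw [Function.Periodic.qParam, ofComplex_apply_of_im_pos (him x), ← Complex.exp_nat_mul,
      Complex.ofReal_exp, ← Complex.exp_add]
    congr 1
    push_cast
    have hh' : (h : ℂ) ≠ 0 := by exact_mod_cast hh.ne'
    field_simp
    ring_nf
    rw [Complex.I_sq]
    ring
  have hcs : Summable fun m => ‖c m‖ := by
    have h1 := (hF 0).summable.norm
    refine h1.congr fun m => ?_
    rw [norm_mul, norm_expi, mul_one]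
  have hB : ∀ x : ℝ, ‖f (ofComplex ((x : ℂ) + y * Complex.I))‖ ≤ C / y ^ (k / 2 : ℝ) := by
    intro x
    have h1 := hC (ofComplex ((x : ℂ) + y * Complex.I))
    have h2 : (ofComplex ((x : ℂ) + y * Complex.I)).im = y := by
      rw [ofComplex_apply_of_im_pos (him x)]
      change ((x : ℂ) + y * Complex.I).im = y
      simp
    rwa [h2] at h1
  have h3 := parseval_le hcs hh hF hB N
  have h4 : (C / y ^ (k / 2 : ℝ)) ^ 2 = C ^ 2 * y ^ (-(k : ℝ)) := by
    rw [div_pow, ← Real.rpow_mul_natCast hy.le, Real.rpow_neg hy.le, div_eq_mul_inv]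
    congr 3
    push_cast
    ring
  rw [h4] at h3
  refine le_trans (le_of_eq (Finset.sum_congr rfl fun m _ => ?_)) h3
  rw [hc]
  simp only
  rw [norm_mul, mul_pow, Complex.norm_real, Real.norm_of_nonneg (Real.exp_pos _).le,
    ← Real.exp_nat_mul]
  congr 2
  push_cast
  ring

/-- **The mean square of the coefficients.** -/
theorem summable_sq_coeff (Γ : Subgroup (GL (Fin 2) ℝ)) [Γ.IsArithmetic] {k : ℤ}
    {F : Type*} [FunLike F ℍ ℂ] [CuspFormClass F Γ k] (f : F) {s : ℝ} (hs0 : 0 < s)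
    (hs : (k : ℝ) < s) : Summable fun m : ℕ =>
      ‖(qExpansion Γ.strictWidthInfty f).coeff m‖ ^ 2 * (m : ℝ) ^ (-s) := by
  have hh := Γ.strictWidthInfty_pos
  obtain ⟨C, hC0, hC⟩ := sum_sq_exp_le Γ f
  set h := Γ.strictWidthInfty with hdef
  set a : ℕ → ℝ := fun m => ‖(qExpansion h f).coeff m‖ ^ 2 with ha
  have ha0 : ∀ m, 0 ≤ a m := fun m => by positivity
  set r : ℝ := 2 ^ ((k : ℝ) - s) with hr
  have hr0 : 0 ≤ r := by positivity
  have hr1 : r < 1 := Real.rpow_lt_one_of_one_lt_of_neg (by norm_num) (by linarith)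
  have hgeo := summable_geometric_of_lt_one hr0 hr1
  set K : ℝ := Real.exp (8 * π) * (C * h ^ (-(k : ℝ))) with hK
  have hK0 : 0 ≤ K := by positivity
  refine summable_of_sum_range_le (c := K * ∑' j : ℕ, r ^ j) (fun m => by positivity) fun N => ?_
  have hpt : ∀ m ∈ Finset.range N, a m * (m : ℝ) ^ (-s) ≤
      ∑ j ∈ Finset.range N, (Real.exp (8 * π) * ((2 : ℝ) ^ j) ^ (-s)) *
        (a m * Real.exp (-(4 * π * m * (h / 2 ^ j) / h))) := by
    intro m hm
    rw [Finset.mem_range] at hm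
    have hnn : ∀ j ∈ Finset.range N, 0 ≤ (Real.exp (8 * π) * ((2 : ℝ) ^ j) ^ (-s)) *
        (a m * Real.exp (-(4 * π * m * (h / 2 ^ j) / h))) := fun j _ => by
      have := ha0 m
      positivity
    rcases Nat.eq_zero_or_pos m with rfl | hm0
    · refine le_trans (le_of_eq ?_) (Finset.sum_nonneg hnn)
      rw [Nat.cast_zero, Real.zero_rpow (by linarith), mul_zero]
    · have hj : Nat.log 2 m ∈ Finset.range N :=
        Finset.mem_range.mpr ((Nat.log_lt_self 2 hm0.ne').trans hm)
      refine le_trans ?_ (Finset.single_le_sum hnn hj)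
      have h1 : (2 : ℝ) ^ Nat.log 2 m ≤ m := by
        exact_mod_cast Nat.pow_log_le_self 2 hm0.ne'
      have h2 : (m : ℝ) < 2 ^ (Nat.log 2 m + 1) := by
        exact_mod_cast Nat.lt_pow_succ_log_self (by norm_num) m
      have hpos : (0 : ℝ) < 2 ^ Nat.log 2 m := by positivity
      have h3 : (m : ℝ) ^ (-s) ≤ ((2 : ℝ) ^ Nat.log 2 m) ^ (-s) :=
        Real.rpow_le_rpow_of_nonpos hpos h1 (by linarith)
      have h4 : 1 ≤ Real.exp (8 * π) *
          Real.exp (-(4 * π * m * (h / 2 ^ Nat.log 2 m) / h)) := by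
        rw [← Real.exp_add]
        refine Real.one_le_exp ?_
        have e : 4 * π * m * (h / 2 ^ Nat.log 2 m) / h = 4 * π * (m / 2 ^ Nat.log 2 m) := by
          field_simp
        rw [e]
        have h5 : (m : ℝ) / 2 ^ Nat.log 2 m ≤ 2 := by
          rw [div_le_iff₀ hpos]
          rw [pow_succ] at h2
          linarith
        have := Real.pi_pos
        nlinarith
      calc a m * (m : ℝ) ^ (-s) ≤ a m * ((2 : ℝ) ^ Nat.log 2 m) ^ (-s) :=
            mul_le_mul_of_nonneg_left h3 (ha0 m)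
        _ = (a m * ((2 : ℝ) ^ Nat.log 2 m) ^ (-s)) * 1 := (mul_one _).symm
        _ ≤ (a m * ((2 : ℝ) ^ Nat.log 2 m) ^ (-s)) * (Real.exp (8 * π) *
          Real.exp (-(4 * π * m * (h / 2 ^ Nat.log 2 m) / h))) := by
            refine mul_le_mul_of_nonneg_left h4 ?_
            have := ha0 m
            positivity
        _ = _ := by ring
  refine (Finset.sum_le_sum hpt).trans ?_
  rw [Finset.sum_comm]
  have hblock : ∀ j ∈ Finset.range N, ∑ m ∈ Finset.range N,
      (Real.exp (8 * π) * ((2 : ℝ) ^ j) ^ (-s)) *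
        (a m * Real.exp (-(4 * π * m * (h / 2 ^ j) / h))) ≤ K * r ^ j := by
    intro j _
    rw [← Finset.mul_sum]
    have hpos : (0 : ℝ) < 2 ^ j := by positivity
    refine (mul_le_mul_of_nonneg_left (hC (h / 2 ^ j) (by positivity) N) (by positivity)).trans
      (le_of_eq ?_)
    rw [Real.div_rpow hh.le hpos.le, hK, hr, ← Real.rpow_mul_natCast (by norm_num : (0 : ℝ) ≤ 2)]
    have e1 : ((2 : ℝ) ^ j) ^ (-s) = 2 ^ (-(s * j)) := by
      rw [← Real.rpow_natCast, ← Real.rpow_mul (by norm_num)]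
      congr 1
      ring
    have e2 : ((2 : ℝ) ^ j) ^ (-(k : ℝ)) = (2 ^ ((k : ℝ) * j))⁻¹ := by
      rw [← Real.rpow_neg (by norm_num), ← Real.rpow_natCast, ← Real.rpow_mul (by norm_num)]
      congr 1
      ring
    have e3 : (2 : ℝ) ^ (((k : ℝ) - s) * j) = 2 ^ ((k : ℝ) * j) * 2 ^ (-(s * j)) := by
      rw [← Real.rpow_add (by norm_num)]
      congr 1
      ring
    rw [e1, e2, e3, div_inv_eq_mul]
    ring
  refine (Finset.sum_le_sum hblock).trans ?_
  rw [← Finset.mul_sum]
  exact mul_le_mul_of_nonneg_left (hgeo.sum_le_tsum _ fun j _ => by positivity) hK0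

theorem summable_momc' (Γ : Subgroup (GL (Fin 2) ℝ)) [Γ.IsArithmetic] {k : ℤ}
    {F : Type*} [FunLike F ℍ ℂ] [CuspFormClass F Γ k] (f : F)
    {n : ℕ} (hn : (n : ℤ) + 2 = k) (hk : 4 ≤ k) :
    Summable fun m => ‖(qExpansion Γ.strictWidthInfty f).coeff m‖ /
      (2 * π * m / Γ.strictWidthInfty : ℝ) ^ (n + 1) := by
  have hh := Γ.strictWidthInfty_pos
  have h1 : ∀ m : ℕ, ‖(qExpansion Γ.strictWidthInfty f).coeff m‖ /
      (2 * π * m / Γ.strictWidthInfty : ℝ) ^ (n + 1) =
      (‖(qExpansion Γ.strictWidthInfty f).coeff m‖ * ((m : ℝ) ^ (n + 1))⁻¹) *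
        ((2 * π / Γ.strictWidthInfty) ^ (n + 1))⁻¹ := by
    intro m
    rw [show (2 * π * m / Γ.strictWidthInfty : ℝ) = (m : ℝ) * (2 * π / Γ.strictWidthInfty) by
      ring, mul_pow, div_eq_mul_inv, mul_inv, mul_assoc]
  simp_rw [h1]
  apply Summable.mul_right
  have hkr : (k : ℝ) = n + 2 := by
    rw [← hn]; push_cast; ring
  have hn2 : (2 : ℝ) ≤ n := by
    have : (2 : ℤ) ≤ n := by omega
    exact_mod_cast this
  have hS := summable_sq_coeff Γ f (s := n + 5 / 2) (by linarith) (by rw [hkr]; linarith)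
  have hT : Summable fun m : ℕ => (m : ℝ) ^ (-((n : ℝ) - 1 / 2)) :=
    Real.summable_nat_rpow.mpr (by linarith)
  refine Summable.of_nonneg_of_le (fun m => by positivity) (fun m => ?_) (hS.add hT)
  rcases Nat.eq_zero_or_pos m with rfl | hm
  · have : (((0 : ℕ) : ℝ) ^ (n + 1))⁻¹ = 0 := by simp
    rw [this, mul_zero]
    positivity
  have hm' : (0 : ℝ) < m := by exact_mod_cast hm
  set u : ℝ := ‖(qExpansion Γ.strictWidthInfty f).coeff m‖ with hu
  have e1 : ((m : ℝ) ^ (n + 1))⁻¹ = (m : ℝ) ^ (-((n : ℝ) + 1)) := by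
    rw [Real.rpow_neg hm'.le]
    congr 1
    rw [← Real.rpow_natCast]
    push_cast
    rfl
  have e2 : (m : ℝ) ^ (-((n : ℝ) + 5 / 2)) * (m : ℝ) ^ (-((n : ℝ) - 1 / 2)) =
      ((m : ℝ) ^ (-((n : ℝ) + 1))) ^ 2 := by
    rw [← Real.rpow_add hm', ← Real.rpow_mul_natCast hm'.le]
    congr 1
    push_cast
    ring
  have hp : 0 < (m : ℝ) ^ (-((n : ℝ) + 5 / 2)) := by positivity
  have hq : 0 < (m : ℝ) ^ (-((n : ℝ) - 1 / 2)) := by positivity
  have ht : 0 < (m : ℝ) ^ (-((n : ℝ) + 1)) := by positivity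
  rw [e1]
  set P := (m : ℝ) ^ (-((n : ℝ) + 5 / 2)) with hP
  set Q := (m : ℝ) ^ (-((n : ℝ) - 1 / 2)) with hQ
  set T := (m : ℝ) ^ (-((n : ℝ) + 1)) with hT'
  have hu0 : 0 ≤ u := norm_nonneg _
  -- `u T ≤ u² P + Q` since `T² = P Q`
  have h3 : (u * T) ^ 2 ≤ (u ^ 2 * P + Q) ^ 2 := by
    have : (u * T) ^ 2 = u ^ 2 * (P * Q) := by rw [mul_pow, e2]
    rw [this]
    have h4 : 0 ≤ u ^ 2 * P := by positivity
    nlinarith [mul_nonneg h4 hq.le, sq_nonneg (u ^ 2 * P), sq_nonneg Q]
  exact le_of_sq_le_sq h3 (by positivity)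

theorem hasSum_vmom' (Γ : Subgroup (GL (Fin 2) ℝ)) [Γ.IsArithmetic] {k : ℤ}
    {F : Type*} [FunLike F ℍ ℂ] [CuspFormClass F Γ k] (f : F)
    {n : ℕ} (hn : (n : ℤ) + 2 = k) (hk : 4 ≤ k) (x : ℝ) :
    HasSum (fun m : ℕ => momc Γ f n m *
      Complex.exp (2 * π * Complex.I * (m : ℤ) * x / Γ.strictWidthInfty)) (vmom f n x) := by
  have hh := Γ.strictWidthInfty_pos
  have hh' : (Γ.strictWidthInfty : ℂ) ≠ 0 := by exact_mod_cast hh.ne'
  have hΓ := Γ.strictWidthInfty_mem_strictPeriods
  have : Fact (IsCusp OnePoint.infty Γ) := ⟨Γ.isCusp_of_mem_strictPeriods hh hΓ⟩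
  set A : ℕ → ℂ := fun m => (qExpansion Γ.strictWidthInfty f).coeff m *
    Complex.exp (2 * π * Complex.I * (m : ℤ) * x / Γ.strictWidthInfty) with hA
  have hAn : ∀ m, ‖A m‖ = ‖(qExpansion Γ.strictWidthInfty f).coeff m‖ := by
    intro m
    rw [hA]
    simp only
    rw [norm_mul, norm_expi, mul_one]
  have hM := hasSum_mellin (a := A) (p := fun m : ℕ => 2 * π * m / Γ.strictWidthInfty)
    (F := fun t => f (ofComplex (x + t * Complex.I))) (s := (n : ℂ) + 1) ?_ ?_ ?_ ?_
  · have e0 : mellin (fun t : ℝ => f (ofComplex (x + t * Complex.I))) ((n : ℂ) + 1) =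
        vmom f n x := by
      rw [mellin, vmom]
      refine setIntegral_congr_fun measurableSet_Ioi fun t ht => ?_
      simp only [add_sub_cancel_right, smul_eq_mul, Complex.cpow_natCast]
      ring
    rw [e0] at hM
    refine hM.congr_fun ?_
    intro m
    rw [momc, hA]
    simp only
    have e1 : ((2 * π * (m : ℝ) / Γ.strictWidthInfty : ℝ) : ℂ) ^ ((n : ℂ) + 1) =
        ((2 * π * (m : ℝ) / Γ.strictWidthInfty : ℝ) : ℂ) ^ (n + 1) := by
      rw [← Complex.cpow_natCast]
      push_cast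
      rfl
    rw [e1, Complex.Gamma_nat_eq_factorial]
    ring
  · intro m
    rcases Nat.eq_zero_or_pos m with rfl | hm
    · left
      rw [hA]
      simp only
      rw [coeff_zero_eq Γ k f, zero_mul]
    · right
      have : (0:ℝ) < m := by exact_mod_cast hm
      positivity
  · simp only [Complex.add_re, Complex.natCast_re, Complex.one_re]
    positivity
  · intro t ht
    have ht' : (0:ℝ) < t := ht
    have h1 := ModularForm.hasSum_qExpansion f hh hΓ (ofComplex (x + t * Complex.I))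
    refine h1.congr_fun ?_
    intro m
    rw [hA]
    simp only
    rw [mul_assoc]
    congr 1
    have him : 0 < ((x : ℂ) + t * Complex.I).im := by simpa using ht'
    rw [Function.Periodic.qParam, ofComplex_apply_of_im_pos him, ← Complex.exp_nat_mul,
      Complex.ofReal_exp, ← Complex.exp_add]
    congr 1
    push_cast
    field_simp
    ring_nf
    rw [Complex.I_sq]
    ring
  · have h1 := summable_momc' Γ f hn hk
    refine h1.congr ?_
    intro m
    rw [hAn]
    congr 1
    rw [← Real.rpow_natCast]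
    congr 1
    simp

/-- **Injectivity of the even and odd moments** (dense sets of base points), weight `≥ 4`. -/
theorem vmom_inj' (Γ : Subgroup (GL (Fin 2) ℝ)) [Γ.IsArithmetic] {k : ℤ}
    {F : Type*} [FunLike F ℍ ℂ] [CuspFormClass F Γ k] (f : F)
    {n : ℕ} (hn : (n : ℤ) + 2 = k) (hk : 4 ≤ k) (s : ℂ)
    {D : Set ℝ} (hD : Dense D) (H : ∀ x ∈ D, vmom f n x + s * vmom f n (-x) = 0) (τ : ℍ) :
    f τ = 0 := by
  have hh := Γ.strictWidthInfty_pos
  have hΓ := Γ.strictWidthInfty_mem_strictPeriods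
  have : Fact (IsCusp OnePoint.infty Γ) := ⟨Γ.isCusp_of_mem_strictPeriods hh hΓ⟩
  have hb : Summable fun m => ‖momc Γ f n m‖ := by
    have h1 := (summable_momc' Γ f hn hk).mul_left (n.factorial : ℝ)
    refine h1.congr ?_
    intro m
    rw [momc, norm_div, norm_mul, norm_pow, Complex.norm_natCast, Complex.norm_real,
      Real.norm_of_nonneg (by positivity), ← mul_div_assoc]
  have hb0 : momc Γ f n 0 = 0 := by
    rw [momc, coeff_zero_eq Γ k f]
    simp
  have hall : ∀ m, momc Γ f n m = 0 := by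
    intro m
    refine fourier_unique (s := s) hb hb0 hh hD ?_ m
    intro x hx
    have h1 := hasSum_vmom' Γ f hn hk x
    have h2 := (hasSum_vmom' Γ f hn hk (-x)).mul_left s
    have h3 := h1.add h2
    rw [H x hx] at h3
    have h4 : HasSum (fun m => fterm (momc Γ f n) Γ.strictWidthInfty s m x) 0 := by
      refine h3.congr_fun ?_
      intro m
      rw [fterm]
      have e : (2 * π * Complex.I * (m : ℤ) * ((-x : ℝ) : ℂ) / Γ.strictWidthInfty : ℂ) =
          2 * π * Complex.I * (-(m : ℤ) : ℤ) * x / Γ.strictWidthInfty := by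
        push_cast
        ring
      rw [e]
      ring
    exact h4.tsum_eq
  have hcoef : ∀ m, (qExpansion Γ.strictWidthInfty f).coeff m = 0 := by
    intro m
    rcases Nat.eq_zero_or_pos m with rfl | hm
    · exact coeff_zero_eq Γ k f
    · have h1 := hall m
      rw [momc, div_eq_zero_iff] at h1
      have hm' : (0:ℝ) < m := by exact_mod_cast hm
      rcases h1 with h1 | h1
      · have h2 : (n.factorial : ℂ) ≠ 0 := by exact_mod_cast n.factorial_ne_zero
        exact (mul_eq_zero.mp h1).resolve_left h2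
      · exfalso
        have h2 : (0:ℝ) < 2 * π * m / Γ.strictWidthInfty := by positivity
        have h3 : ((2 * π * m / Γ.strictWidthInfty : ℝ) : ℂ) ≠ 0 := by exact_mod_cast h2.ne'
        exact h3 (pow_eq_zero_iff (by omega) |>.mp h1)
  have h1 := ModularForm.hasSum_qExpansion f hh hΓ τ
  simp_rw [hcoef, zero_mul] at h1
  exact h1.unique hasSum_zero

/-- **Injectivity of the even and odd symbols**: `D` a dense set of rational base points,
weight `≥ 4`. -/
theorem sym_inj' {Γ : Subgroup (GL (Fin 2) ℝ)} [Γ.IsArithmetic] {n : ℕ} (hn : 2 ≤ n)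
    (f : CuspForm Γ ((n + 2 : ℕ) : ℤ)) (s : ℂ) {D : Set ℚ}
    (hD : Dense ((fun x : ℚ => (x : ℝ)) '' D))
    (H : ∀ x ∈ D, (sym n f ((x : ℚ) : OnePoint ℚ) OnePoint.infty).eval ((x : ℝ) : ℂ)
      + s * (sym n f ((-x : ℚ) : OnePoint ℚ) OnePoint.infty).eval (((-x : ℚ) : ℝ) : ℂ) = 0) :
    f = 0 := by
  refine DFunLike.ext _ _ fun τ => ?_
  refine vmom_inj' Γ f (n := n) (k := ((n + 2 : ℕ) : ℤ)) (by push_cast; ring)
    (by push_cast; omega) s hD ?_ τ
  rintro _ ⟨x, hx, rfl⟩
  have h1 := H x hx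
  rw [sym_eval (by omega) f x, sym_eval (by omega) f (-x)] at h1
  have hc : Complex.I * (-Complex.I) ^ n ≠ 0 :=
    mul_ne_zero Complex.I_ne_zero (pow_ne_zero _ (neg_ne_zero.mpr Complex.I_ne_zero))
  have h2 : (Complex.I * (-Complex.I) ^ n)
      * (vmom f n (x : ℝ) + s * vmom f n (-(x : ℝ))) = 0 := by
    rw [← h1]
    push_cast
    ring
  exact (mul_eq_zero.mp h2).resolve_left hc

variable {M : ℕ} [NeZero M] {n : ℕ}

/-- **Injectivity of the even and the odd part**, weight `≥ 4`. -/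
theorem eps_inj' (hn : 2 ≤ n) (s : ℂ) (f : Gouvea.Cusp M (n + 2))
    (h : symL' M n f + s • epsL M n (symL' M n f) = 0) : f = 0 := by
  refine sym_inj' (Γ := Gam0 M) hn f s (D := {q : ℚ | ∃ c, toP c = (q : OnePoint ℚ)}) ?_ ?_
  · refine dense_cusps.mono ?_
    rintro x ⟨c, q, hc, rfl⟩
    exact ⟨q, ⟨c, hc⟩, rfl⟩
  · rintro x ⟨c, hc⟩
    have h1 : ∀ i : Fin (n + 1),
        (sym n f ((x : ℚ) : OnePoint ℚ) OnePoint.infty).coeff i +
          s * ((-1) ^ (i : ℕ) *
            (sym n f ((-x : ℚ) : OnePoint ℚ) OnePoint.infty).coeff i) = 0 := by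
      intro i
      have h2 := congrFun (congrFun (congrFun (congrArg Subtype.val h) c) PS.inf) i
      have h3 : symC n (f : ℍ → ℂ) c PS.inf i + s * epsS ℂ n (symC n (f : ℍ → ℂ)) c PS.inf i
          = 0 := h2
      rw [epsS_coeff, negC_inf] at h3
      simp only [symC, toP_inf, toP_negC hc] at h3
      rw [hc] at h3
      exact h3
    rw [eval_eq_sum_fin (natDegree_sym_le n _ _ _), eval_eq_sum_fin (natDegree_sym_le n _ _ _),
      Finset.mul_sum, ← Finset.sum_add_distrib]
    refine Finset.sum_eq_zero fun i _ => ?_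
    have h4 := h1 i
    have h5 : (((-x : ℚ) : ℝ) : ℂ) ^ (i : ℕ) = (-1) ^ (i : ℕ) * (((x : ℝ)) : ℂ) ^ (i : ℕ) := by
      rw [← mul_pow]
      congr 1
      push_cast
      ring
    rw [h5]
    linear_combination (((x : ℝ)) : ℂ) ^ (i : ℕ) * h4

/-- splitting into the even and the odd part -/
theorem ESmap_inj_of (H : ∀ (s : ℂ) (f : Gouvea.Cusp M (n + 2)),
    s = 1 ∨ s = -1 → symL' M n f + s • epsL M n (symL' M n f) = 0 → f = 0) :
    Function.Injective (ESmap M n) := by
  rw [injective_iff_map_eq_zero]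
  rintro ⟨f, g⟩ h
  rw [ESmap_apply] at h
  have h1 := congrArg (epsL M n) h
  rw [map_zero, map_add, map_add, map_sub, epsL_epsL, epsL_epsL] at h1
  have h2 : (2 : ℂ) • (symL' M n f + epsL M n (symL' M n f)) = 0 := by
    have h3 := congrArg₂ (· + ·) h h1
    simp only [add_zero] at h3
    rw [← h3, two_smul]
    abel
  have h3 : (2 : ℂ) • (symL' M n g - epsL M n (symL' M n g)) = 0 := by
    have h3 := congrArg₂ (· - ·) h h1
    simp only [sub_zero] at h3
    rw [← h3, two_smul]
    abel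
  have h4 := (smul_eq_zero.mp h2).resolve_left two_ne_zero
  have h5 := (smul_eq_zero.mp h3).resolve_left two_ne_zero
  have hf : f = 0 := H 1 f (Or.inl rfl) (by rw [one_smul]; exact h4)
  have hg : g = 0 := by
    refine H (-1) g (Or.inr rfl) ?_
    have e := neg_one_smul ℂ (epsL M n (symL' M n g))
    exact (congrArg (symL' M n g + ·) e).trans ((sub_eq_add_neg _ _).symm.trans h5)
  rw [hf, hg]
  rfl

/-- **`ESmap` is injective in all weights `≥ 4`.** -/
theorem ESmap_injective' (hn : 2 ≤ n) : Function.Injective (ESmap M n) :=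
  ESmap_inj_of fun s f _ h => eps_inj' hn s f h

end Gouvea.ES
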