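import Pool.Agent.Work.MP_d3517d_nt.ES.VertPer

/-!
# Injectivity of the period map in all weights at least three (MP_d3517d_nt, ES)

`vmom_inj_all`: a cusp form of weight `k` with `k / 2 < n + 1` whose vertical moments of order `n`
vanish above a dense set of real points is zero.
-/

open Filter Topology UpperHalfPlane Polynomial MeasureTheory Set
open scoped MatrixGroups ModularForm Real

noncomputable section

namespace Gouvea.ES

open Pool.Agent.Gouv.ES

section Dom

variable {g : ℂ → ℂ} {κ C : ℝ} {n : ℕ}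

/-- an integrable bound, uniform for `|x| ≤ A` -/
theorem exists_dom (hg : Dec g) (hn : κ < n + 1)
    (hb : ∀ z : ℂ, 0 < z.im → ‖g z‖ ≤ C / z.im ^ κ) (A : ℝ) :
    ∃ B : ℝ → ℝ, IntegrableOn B (Ioi 0) ∧ ∀ x : ℝ, |x| ≤ A → ∀ t : ℝ, 0 < t →
      ‖g (x + t * Complex.I) * (t : ℂ) ^ n‖ ≤ B t := by
  obtain ⟨C', a, hC', ha, hdec⟩ := hg.dec' A 1 one_pos
  have hC : 0 ≤ C := by
    have h1 := hb Complex.I (by simp)
    simp only [Complex.I_im, Real.one_rpow, div_one] at h1
    exact (norm_nonneg _).trans h1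
  have hi1 : IntegrableOn (fun t : ℝ => (Ioc (0 : ℝ) 1).indicator
      (fun t : ℝ => C * t ^ ((n : ℝ) - κ)) t) (Ioi 0) := by
    have h0 : IntervalIntegrable (fun t : ℝ => t ^ ((n : ℝ) - κ)) volume 0 1 :=
      intervalIntegral.intervalIntegrable_rpow' (by linarith)
    have h1 : IntegrableOn (fun t : ℝ => C * t ^ ((n : ℝ) - κ)) (Ioc 0 1) :=
      ((intervalIntegrable_iff_integrableOn_Ioc_of_le zero_le_one).mp h0).const_mul C
    exact ((integrable_indicator_iff measurableSet_Ioc).2 h1).integrableOn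
  have hi2 : IntegrableOn (fun t : ℝ => C' * (t ^ n * Real.exp (-a * t))) (Ioi 0) := by
    have h0 : IntegrableOn (fun t : ℝ => t ^ ((n : ℕ) : ℝ) * Real.exp (-a * t ^ (1 : ℝ)))
        (Ioi 0) := integrableOn_rpow_mul_exp_neg_mul_rpow (by
          have : (0 : ℝ) ≤ n := Nat.cast_nonneg n
          linarith) one_pos ha
    have h1 : IntegrableOn (fun t : ℝ => t ^ n * Real.exp (-a * t)) (Ioi 0) := by
      refine h0.congr_fun (fun t _ => ?_) measurableSet_Ioi
      simp only [Real.rpow_natCast, Real.rpow_one]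
    exact h1.const_mul C'
  refine ⟨fun t => (Ioc (0 : ℝ) 1).indicator (fun t : ℝ => C * t ^ ((n : ℝ) - κ)) t +
    C' * (t ^ n * Real.exp (-a * t)), hi1.add hi2, fun x hx t ht => ?_⟩
  have hre : ((x : ℂ) + t * Complex.I).re = x := by simp
  have him : ((x : ℂ) + t * Complex.I).im = t := by simp
  rw [norm_mul, norm_pow, Complex.norm_real, Real.norm_of_nonneg ht.le]
  change _ ≤ (Ioc (0 : ℝ) 1).indicator (fun t : ℝ => C * t ^ ((n : ℝ) - κ)) t +
    C' * (t ^ n * Real.exp (-a * t))
  rcases le_or_gt t 1 with h1 | h1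
  · have h2 := hb (x + t * Complex.I) (by rw [him]; exact ht)
    rw [him] at h2
    have h3 : 0 ≤ C' * (t ^ n * Real.exp (-a * t)) := by positivity
    have h4 : t ∈ Ioc (0 : ℝ) 1 := ⟨ht, h1⟩
    rw [Set.indicator_of_mem h4]
    refine le_trans ?_ (le_add_of_nonneg_right h3)
    calc ‖g (x + t * Complex.I)‖ * t ^ n ≤ (C / t ^ κ) * t ^ n := by gcongr
      _ = C * t ^ ((n : ℝ) - κ) := by
        rw [Real.rpow_sub ht, Real.rpow_natCast]
        ring
  · have h2 := hdec (x + t * Complex.I) (by rw [hre]; exact hx) (by rw [him]; exact h1.le)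
    rw [him] at h2
    have h3 : t ∉ Ioc (0 : ℝ) 1 := fun h => absurd h.2 (not_le.2 h1)
    rw [Set.indicator_of_notMem h3, zero_add]
    calc ‖g (x + t * Complex.I)‖ * t ^ n ≤ (C' * Real.exp (-a * t)) * t ^ n := by gcongr
      _ = C' * (t ^ n * Real.exp (-a * t)) := by ring

end Dom

variable {Γ : Subgroup (GL (Fin 2) ℝ)} [Γ.IsArithmetic] {k : ℤ}

theorem exists_dom_cuspForm (f : CuspForm Γ k) {n : ℕ} (hn : (k : ℝ) / 2 < n + 1) (A : ℝ) :
    ∃ B : ℝ → ℝ, IntegrableOn B (Ioi 0) ∧ ∀ x : ℝ, |x| ≤ A → ∀ t : ℝ, 0 < t →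
      ‖f (ofComplex (x + t * Complex.I)) * (t : ℂ) ^ n‖ ≤ B t := by
  have hd : Dec fun z => f (ofComplex z) := (nice_of_cuspForm f).dec
  obtain ⟨C, hC⟩ := CuspFormClass.exists_bound f
  refine exists_dom hd hn (C := C) (fun z hz => ?_) A
  have h1 := hC (UpperHalfPlane.ofComplex z)
  rw [UpperHalfPlane.ofComplex_apply_of_im_pos hz] at h1 ⊢
  exact h1

theorem continuousAt_line (f : CuspForm Γ k) (x t : ℝ) (ht : 0 < t) :
    ContinuousAt (fun p : ℝ × ℝ => f (ofComplex (p.1 + p.2 * Complex.I))) (x, t) := by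
  have hd : Dec fun z => f (ofComplex z) := (nice_of_cuspForm f).dec
  have h1 : ContinuousAt (fun z : ℂ => f (ofComplex z)) ((x : ℂ) + t * Complex.I) :=
    (hd.differentiableAt (by simpa using ht)).continuousAt
  exact ContinuousAt.comp (x := (x, t)) (f := fun p : ℝ × ℝ => (p.1 : ℂ) + p.2 * Complex.I) h1
    (by fun_prop)

/-- the vertical moments are continuous -/
theorem continuous_vmom (f : CuspForm Γ k) {n : ℕ} (hn : (k : ℝ) / 2 < n + 1) :
    Continuous (vmom f n) := by
  rw [continuous_iff_continuousAt]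
  intro x₀
  obtain ⟨B, hB, hbd⟩ := exists_dom_cuspForm f hn (|x₀| + 1)
  refine continuousAt_of_dominated (bound := B) ?_ ?_ hB ?_
  · refine Eventually.of_forall fun x => ?_
    refine ContinuousOn.aestronglyMeasurable ?_ measurableSet_Ioi
    intro t ht
    have h1 := continuousAt_line f x t ht
    have h2 : ContinuousAt (fun t : ℝ => f (ofComplex (x + t * Complex.I))) t :=
      ContinuousAt.comp (x := t) (f := fun t : ℝ => (x, t)) h1 (by fun_prop)
    exact (h2.mul (by fun_prop)).continuousWithinAt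
  · have : ∀ᶠ x in 𝓝 x₀, |x| ≤ |x₀| + 1 := by
      have h1 : ∀ᶠ x in 𝓝 x₀, |x| < |x₀| + 1 :=
        continuous_abs.continuousAt.eventually_lt continuousAt_const (by simp)
      exact h1.mono fun x hx => hx.le
    filter_upwards [this] with x hx
    rw [ae_restrict_iff' measurableSet_Ioi]
    exact Eventually.of_forall fun t ht => hbd x hx t ht
  · rw [ae_restrict_iff' measurableSet_Ioi]
    refine Eventually.of_forall fun t ht => ?_
    have h1 := continuousAt_line f x₀ t ht
    have h2 : ContinuousAt (fun x : ℝ => f (ofComplex (x + t * Complex.I))) x₀ :=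
      ContinuousAt.comp (x := x₀) (f := fun x : ℝ => (x, t)) h1 (by fun_prop)
    exact h2.mul continuousAt_const

open Complex in
/-- the Fourier coefficients of the moments -/
theorem fourier_vmom (f : CuspForm Γ k) {n : ℕ} (hn : (k : ℝ) / 2 < n + 1) (m : ℕ) (hm : 0 < m) :
    ∫ x in Ioc (0 : ℝ) Γ.strictWidthInfty,
      vmom f n x * cexp (-(2 * π * Complex.I * m * x / Γ.strictWidthInfty)) =
      Γ.strictWidthInfty * (qExpansion Γ.strictWidthInfty f).coeff m *
        ((n.factorial : ℂ) / (2 * π * m / Γ.strictWidthInfty : ℝ) ^ (n + 1)) := by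
  set h := Γ.strictWidthInfty with hh0
  have hh : 0 < h := Γ.strictWidthInfty_pos
  have hΓ : h ∈ Γ.strictPeriods := Γ.strictWidthInfty_mem_strictPeriods
  have hfact : Fact (IsCusp OnePoint.infty Γ) := ⟨Γ.isCusp_of_mem_strictPeriods hh hΓ⟩
  obtain ⟨B, hB, hbd⟩ := exists_dom_cuspForm f hn h
  let G : ℝ → ℝ → ℂ := fun x t => f (ofComplex (x + t * Complex.I)) * (t : ℂ) ^ n *
    cexp (-(2 * π * Complex.I * m * x / h))
  have hnorm : ∀ x : ℝ, ‖cexp (-(2 * π * Complex.I * m * x / h))‖ = 1 := by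
    intro x
    have e : (-(2 * π * Complex.I * m * x / h) : ℂ) = ((-(2 * π * m * x / h) : ℝ) : ℂ) * Complex.I := by
      push_cast
      ring
    rw [e, Complex.norm_exp_ofReal_mul_I]
  have hG : Integrable (Function.uncurry G) ((volume.restrict (Ioc 0 h)).prod
      (volume.restrict (Ioi 0))) := by
    have : IsFiniteMeasure (volume.restrict (Ioc 0 h)) := ⟨by simp⟩
    refine Integrable.mono' (g := fun p : ℝ × ℝ => B p.2) (hB.integrable.comp_snd _) ?_ ?_
    · rw [Measure.prod_restrict]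
      refine ContinuousOn.aestronglyMeasurable ?_ (measurableSet_Ioc.prod measurableSet_Ioi)
      rintro ⟨x, t⟩ ⟨-, ht⟩
      have h1 := continuousAt_line f x t ht
      exact ((h1.mul (by fun_prop)).mul (by fun_prop)).continuousWithinAt
    · rw [Measure.prod_restrict, ae_restrict_iff' (measurableSet_Ioc.prod measurableSet_Ioi)]
      refine Eventually.of_forall ?_
      rintro ⟨x, t⟩ ⟨hx, ht⟩
      have hx' : 0 < x ∧ x ≤ h := hx
      have h2 := hbd x (by rw [abs_of_pos hx'.1]; exact hx'.2) t ht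
      calc ‖G x t‖ = ‖f (ofComplex (x + t * Complex.I)) * (t : ℂ) ^ n‖ := by
            simp only [G]
            rw [norm_mul, hnorm, mul_one]
        _ ≤ B t := h2
  have hswap := integral_integral_swap hG
  have hL : ∫ x in Ioc (0 : ℝ) h, vmom f n x * cexp (-(2 * π * Complex.I * m * x / h)) =
      ∫ x in Ioc (0 : ℝ) h, ∫ t in Ioi (0 : ℝ), G x t := by
    refine integral_congr_ae (Eventually.of_forall fun x => ?_)
    simp only [G, vmom]
    rw [integral_mul_const]
  rw [hL, hswap]
  have hin : ∀ t : ℝ, 0 < t → ∫ x in Ioc (0 : ℝ) h, G x t =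
      (t : ℂ) ^ n * (h * (qExpansion h f).coeff m * cexp (-((2 * π * m / h : ℝ) : ℂ) * t)) := by
    intro t ht
    have h1 := ModularFormClass.qExpansion_coeff_eq_intervalIntegral f hh hΓ m ht
    have hh' : (h : ℂ) ≠ 0 := by exact_mod_cast hh.ne'
    have h2 : (h : ℂ) * (qExpansion h f).coeff m = ∫ u in (0 : ℝ)..h,
        1 / Function.Periodic.qParam h (u + t * Complex.I) ^ m *
          f ⟨u + t * Complex.I, by simpa using ht⟩ := by
      rw [h1, ← mul_assoc, mul_one_div_cancel hh', one_mul]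
    rw [h2, ← intervalIntegral.integral_mul_const,
      ← intervalIntegral.integral_const_mul, intervalIntegral.integral_of_le hh.le]
    refine integral_congr_ae (Eventually.of_forall fun x => ?_)
    have him : 0 < ((x : ℂ) + t * Complex.I).im := by simpa using ht
    simp only [G]
    rw [ofComplex_apply_of_im_pos him, Function.Periodic.qParam, ← Complex.exp_nat_mul,
      one_div, ← Complex.exp_neg]
    have e : cexp (-(2 * π * Complex.I * m * x / h)) =
        cexp (-((m : ℂ) * (2 * π * Complex.I * (x + t * Complex.I) / h))) *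
          cexp (-((2 * π * m / h : ℝ) : ℂ) * t) := by
      rw [← Complex.exp_add]
      congr 1
      push_cast
      field_simp
      ring_nf
      rw [Complex.I_sq]
      ring
    rw [e]
    ring
  have hR : ∫ t in Ioi (0 : ℝ), ∫ x in Ioc (0 : ℝ) h, G x t =
      (h * (qExpansion h f).coeff m) * ∫ t in Ioi (0 : ℝ),
        (t : ℂ) ^ (((n : ℂ) + 1) - 1) * cexp (-((2 * π * m / h : ℝ) : ℂ) * t) := by
    rw [← integral_const_mul]
    refine setIntegral_congr_fun measurableSet_Ioi fun t ht => ?_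
    rw [hin t ht, add_sub_cancel_right, cpow_natCast]
    ring
  rw [hR]
  have hpos : (0 : ℝ) < 2 * π * m / h := by
    have : (0 : ℝ) < m := by exact_mod_cast hm
    positivity
  have hI := Complex.integral_cpow_mul_exp_neg_mul_Ioi (a := (n : ℂ) + 1)
    (r := (2 * π * m / h : ℝ)) (by simp; positivity) hpos
  have hI' : ∫ t in Ioi (0 : ℝ), (t : ℂ) ^ (((n : ℂ) + 1) - 1) *
      cexp (-((2 * π * m / h : ℝ) : ℂ) * t) =
      (1 / ((2 * π * m / h : ℝ) : ℂ)) ^ ((n : ℂ) + 1) * Complex.Gamma ((n : ℂ) + 1) := by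
    rw [← hI]
    simp only [neg_mul]
  rw [hI', Complex.Gamma_nat_eq_factorial]
  have e1 : (1 / ((2 * π * m / h : ℝ) : ℂ)) ^ ((n : ℂ) + 1) =
      (1 / ((2 * π * m / h : ℝ) : ℂ)) ^ (n + 1) := by
    rw [← cpow_natCast]
    push_cast
    rfl
  rw [e1]
  rw [one_div, inv_pow]
  field_simp

/-- **Injectivity in all weights at least three.** -/
theorem vmom_inj_all (f : CuspForm Γ k) {n : ℕ} (hn : (k : ℝ) / 2 < n + 1)
    {D : Set ℝ} (hD : Dense D) (H : ∀ x ∈ D, vmom f n x = 0) : f = 0 := by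
  have hall : ∀ x : ℝ, vmom f n x = 0 := by
    have h1 : vmom f n = fun _ => 0 :=
      Continuous.ext_on hD (continuous_vmom f hn) continuous_const H
    exact fun x => congrFun h1 x
  have hh := Γ.strictWidthInfty_pos
  have hΓ := Γ.strictWidthInfty_mem_strictPeriods
  have hfact : Fact (IsCusp OnePoint.infty Γ) := ⟨Γ.isCusp_of_mem_strictPeriods hh hΓ⟩
  have hcoef : ∀ m, (qExpansion Γ.strictWidthInfty f).coeff m = 0 := by
    intro m
    rcases Nat.eq_zero_or_pos m with rfl | hm
    · exact coeff_zero_eq Γ k f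
    · have h1 := fourier_vmom f hn m hm
      simp_rw [hall, zero_mul] at h1
      rw [integral_zero] at h1
      have hm' : (0 : ℝ) < m := by exact_mod_cast hm
      have h2 : ((n.factorial : ℂ) / (2 * π * m / Γ.strictWidthInfty : ℝ) ^ (n + 1)) ≠ 0 := by
        refine div_ne_zero (by exact_mod_cast n.factorial_ne_zero) (pow_ne_zero _ ?_)
        have : (0 : ℝ) < 2 * π * m / Γ.strictWidthInfty := by positivity
        exact_mod_cast this.ne'
      have h3 := (mul_eq_zero.mp h1.symm).resolve_right h2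
      exact (mul_eq_zero.mp h3).resolve_left (by exact_mod_cast hh.ne')
  refine DFunLike.ext _ _ fun τ => ?_
  have h1 := ModularForm.hasSum_qExpansion f hh hΓ τ
  simp only [hcoef, zero_mul] at h1
  exact h1.unique hasSum_zero

/-- **Injectivity of the symbol in all weights at least three.** -/
theorem sym_inj_all {n : ℕ} (hn : 0 < n) (f : CuspForm Γ ((n + 2 : ℕ) : ℤ)) {D : Set ℚ}
    (hD : Dense ((fun x : ℚ => (x : ℝ)) '' D))
    (H : ∀ x ∈ D, sym n f ((x : ℚ) : OnePoint ℚ) OnePoint.infty = 0) : f = 0 := by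
  refine vmom_inj_all f (n := n) ?_ hD ?_
  · have : (0 : ℝ) < n := by exact_mod_cast hn
    push_cast
    linarith
  · rintro _ ⟨x, hx, rfl⟩
    have h1 := sym_eval hn f x
    rw [H x hx, eval_zero] at h1
    have hc : Complex.I * (-Complex.I) ^ n ≠ 0 :=
      mul_ne_zero Complex.I_ne_zero (pow_ne_zero _ (neg_ne_zero.mpr Complex.I_ne_zero))
    exact (mul_eq_zero.mp h1.symm).resolve_left hc

end Gouvea.ES
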