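import Pool.Agent.Work.MP_d3517d_nt.ES.VertPer
import Pool.Agent.Work.MP_d3517d_nt.ES.Desc1

/-!
# Injectivity of the period map in weight two (MP_d3517d_nt, ES)

If the periods `∫_{γ∞}^∞ f(z) dz`, `γ ∈ Γ₀(M)`, of a cusp form of weight two vanish, the primitive
of `f` is a modular form of weight zero, hence constant, and `f = 0`.
-/

open Filter Topology UpperHalfPlane Polynomial MeasureTheory Set CongruenceSubgroup
open scoped MatrixGroups ModularForm Manifold

noncomputable section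

namespace Gouvea.ES

open Pool.Agent.Gouv.ES

/-- the primitive of a function with uniform exponential decay is bounded -/
theorem vint_bounded {g : ℂ → ℂ} {C c B : ℝ} (hc : 0 < c)
    (h : ∀ z : ℂ, B ≤ z.im → ‖g z‖ ≤ C * Real.exp (-c * z.im)) (hB : 0 ≤ B) (z : ℂ)
    (hz : B ≤ z.im) : ‖vint g z‖ ≤ C * (1 / c) := by
  have hC : 0 ≤ C := by
    have h1 := (norm_nonneg _).trans (h z hz)
    exact nonneg_of_mul_nonneg_left h1 (Real.exp_pos _)
  rw [vint, norm_mul, Complex.norm_I, one_mul]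
  have hint : IntegrableOn (fun t : ℝ => C * Real.exp (-c * t)) (Ioi 0) :=
    (exp_neg_integrableOn_Ioi 0 hc).const_mul _
  have h1 : ‖∫ t in Ioi (0 : ℝ), g (z + t * Complex.I)‖ ≤
      ∫ t in Ioi (0 : ℝ), C * Real.exp (-c * t) := by
    refine norm_integral_le_of_norm_le hint ?_
    rw [ae_restrict_iff' measurableSet_Ioi]
    refine Eventually.of_forall fun t ht => ?_
    have ht' : (0 : ℝ) < t := ht
    refine (h (z + t * Complex.I) (by rw [add_mul_I_im]; linarith)).trans ?_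
    rw [add_mul_I_im]
    refine mul_le_mul_of_nonneg_left (Real.exp_le_exp.2 ?_) hC
    nlinarith
  refine h1.trans (le_of_eq ?_)
  rw [integral_const_mul]
  have h2 : ∫ t in Ioi (0 : ℝ), Real.exp (-c * t) = 1 / c := by
    have := integral_exp_mul_Ioi (a := -c) (by linarith) 0
    rw [this]
    simp
  rw [h2]

/-- the uniform bound for a nice function -/
theorem nice_bound {f : ℍ → ℂ} {k : ℤ} (hf : Nice k f) :
    ∃ C c B : ℝ, 0 < c ∧ 0 ≤ B ∧ ∀ z : ℂ, B ≤ z.im →
      ‖f (ofComplex z)‖ ≤ C * Real.exp (-c * z.im) := by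
  have h1 := hf.decay 1 (by simp)
  rw [map_one, SlashAction.slash_one] at h1
  obtain ⟨c, hc, hO⟩ := h1
  obtain ⟨C, hC⟩ := hO.bound
  rw [Filter.Eventually, atImInfty_mem] at hC
  obtain ⟨B, hB⟩ := hC
  refine ⟨C, c, max B 1, hc, by positivity, fun z hz => ?_⟩
  have hz0 : 0 < z.im := one_pos.trans_le ((le_max_right _ _).trans hz)
  have h2 := hB (ofComplex z) (by
    rw [ofComplex_apply_of_im_pos hz0]
    exact (le_max_left _ _).trans hz)
  have h3 : ‖f (ofComplex z)‖ ≤ C * ‖Real.exp (-c * (ofComplex z).im)‖ := h2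
  rw [Real.norm_of_nonneg (Real.exp_pos _).le] at h3
  rw [ofComplex_apply_of_im_pos hz0] at h3 ⊢
  exact h3

variable {f : ℍ → ℂ}

theorem natDegree_zero_eq {P Q : ℂ[X]} (hP : P.natDegree ≤ 0) (hQ : Q.natDegree ≤ 0)
    (h : P.coeff 0 = Q.coeff 0) : P = Q := by
  rw [eq_C_of_natDegree_le_zero hP, eq_C_of_natDegree_le_zero hQ, h]

theorem coeff_act_zero (γ : GL (Fin 2) ℝ) (P : ℂ[X]) :
    (act 0 γ P).coeff 0 = P.coeff 0 := by
  rw [act_apply]
  simp

/-- `E` at `∞` in weight two -/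
theorem coeff_E_infty (hf : Nice ((0 + 2 : ℕ) : ℤ) f) {z : ℂ} (hz : 0 < z.im) :
    (E 0 f OnePoint.infty z).coeff 0 = vint (fun w => f (ofComplex w)) z := by
  rw [E_infty hf hz, coeff_prim]
  simp

/-- the primitive of `f` at `a z` -/
theorem vint_mob (hf : Nice ((0 + 2 : ℕ) : ℤ) f) {a : GQ} (ha : 0 < a.det.val) {z : ℂ}
    (hz : 0 < z.im) :
    vint (fun w => f (ofComplex w)) (mob (toR a) z) =
      vint (fun w => (f ∣[((0 + 2 : ℕ) : ℤ)] toR a) (ofComplex w)) z +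
        (sym 0 f (a • OnePoint.infty) OnePoint.infty).coeff 0 := by
  have hz' : 0 < (mob (toR a) z).im := mob_im_pos (toR_det_pos ha) hz
  have h1 := sym_eq hf (a • OnePoint.infty) OnePoint.infty hz'
  have h2 := E_slash hf ha OnePoint.infty hz
  have h3 := congrArg (fun P : ℂ[X] => P.coeff 0) h2
  simp only [coeff_act_zero] at h3
  rw [coeff_E_infty (hf.slash ha) hz] at h3
  rw [h1, coeff_sub, coeff_E_infty hf hz', h3]
  ring

variable {M : ℕ} [NeZero M]

/-- the primitive as a function on the upper half plane -/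
def Prim0 (f : ℍ → ℂ) : ℍ → ℂ := fun z => vint (fun w => f (ofComplex w)) z

theorem Prim0_smul (hf : Nice ((0 + 2 : ℕ) : ℤ) f) {a : GQ} (ha : 0 < a.det.val) (z : ℍ) :
    Prim0 f (toR a • z) = Prim0 (f ∣[((0 + 2 : ℕ) : ℤ)] toR a) z +
      (sym 0 f (a • OnePoint.infty) OnePoint.infty).coeff 0 := by
  have h1 := vint_mob hf ha z.im_pos
  have h2 : ((toR a • z : ℍ) : ℂ) = mob (toR a) z := by
    rw [coe_smul_of_det_pos (toR_det_pos ha)]
    rfl
  unfold Prim0
  rw [h2]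
  exact h1

theorem Prim0_slash (f : ℍ → ℂ) {g : GL (Fin 2) ℝ} (hg : g.det.val = 1) (z : ℍ) :
    (Prim0 f ∣[(0 : ℤ)] g) z = Prim0 f (g • z) := by
  rw [ModularForm.slash_apply, hg]
  have h2 : σ g = ContinuousAlgEquiv.refl ℝ ℂ := by
    have h0 : (g : Matrix (Fin 2) (Fin 2) ℝ).det = 1 := hg
    simp [σ, Matrix.GeneralLinearGroup.val_det_apply, h0]
  rw [h2]
  simp

theorem mdiff_Prim0 {k : ℤ} (hf : Nice k f) : MDiff (Prim0 f) := by
  rw [mdifferentiable_iff]
  refine (hf.dec.vint.diff).congr fun z hz => ?_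
  have hz' : 0 < z.im := hz
  simp only [Function.comp, Prim0]
  rw [ofComplex_apply_of_im_pos hz']

theorem det_toR_mapGL (γ : SL(2, ℤ)) :
    (toR (Matrix.SpecialLinearGroup.mapGL ℚ γ)).det.val = 1 := by
  rw [toR_mapGL]
  simp

/-- **Injectivity of the period map in weight two.** -/
theorem sym_inj_zero (f : Gouvea.Cusp M 2)
    (H : ∀ γ ∈ Gamma0 M, sym 0 (f : ℍ → ℂ)
      ((Matrix.SpecialLinearGroup.mapGL ℚ γ : GQ) • OnePoint.infty) OnePoint.infty = 0) :
    f = 0 := by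
  have hf : Nice ((0 + 2 : ℕ) : ℤ) (f : ℍ → ℂ) := nice_of_cuspForm f
  have hinv : ∀ g ∈ Gam0 M, (Prim0 f) ∣[(0 : ℤ)] g = Prim0 f := by
    rintro _ ⟨γ, hγ, rfl⟩
    funext z
    have h1 : Matrix.SpecialLinearGroup.mapGL ℝ γ =
        toR (Matrix.SpecialLinearGroup.mapGL ℚ γ) := (toR_mapGL γ).symm
    rw [h1, Prim0_slash _ (det_toR_mapGL γ), Prim0_smul hf (detQ_mapGL γ), H γ hγ, coeff_zero,
      add_zero, ← h1]
    congr 1
    exact SlashInvariantForm.slash_action_eqn f _ ⟨γ, hγ, rfl⟩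
  have hbdd : ∀ {c : OnePoint ℝ}, IsCusp c (Gam0 M) → c.IsBoundedAt (Prim0 f) 0 := by
    intro c hc
    rw [OnePoint.isBoundedAt_iff_forall_SL2Z (isCusp_of_Gam0 hc)]
    intro γ hγ
    obtain ⟨C, c', B, hc', hB, hbd⟩ := nice_bound (hf.slash (detQ_mapGL γ))
    rw [isBoundedAtImInfty_iff]
    refine ⟨C * (1 / c') + ‖(sym 0 (f : ℍ → ℂ) ((Matrix.SpecialLinearGroup.mapGL ℚ γ : GQ) •
      OnePoint.infty) OnePoint.infty).coeff 0‖, B, fun z hz => ?_⟩
    have h1 : ((Prim0 f) ∣[(0 : ℤ)] γ) z =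
        ((Prim0 f) ∣[(0 : ℤ)] toR (Matrix.SpecialLinearGroup.mapGL ℚ γ)) z := by
      rw [toR_mapGL]
      rfl
    rw [h1, Prim0_slash _ (det_toR_mapGL γ), Prim0_smul hf (detQ_mapGL γ)]
    refine (norm_add_le _ _).trans (add_le_add ?_ le_rfl)
    exact vint_bounded hc' hbd hB _ hz
  let F : ModularForm (Gam0 M) 0 :=
    { toFun := Prim0 f
      slash_action_eq' := hinv
      holo' := mdiff_Prim0 hf
      bdd_at_cusps' := hbdd }
  obtain ⟨c, hc⟩ := ModularForm.eq_const_of_weight_zero (𝒢 := Gam0 M) F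
  have hF : Prim0 (f : ℍ → ℂ) = Function.const ℍ c := hc
  -- the derivative of the primitive
  refine DFunLike.ext _ _ fun z => ?_
  have h1 := hf.dec.hasDerivAt_vint z.im_pos
  have h2 : HasDerivAt (vint fun w => f (ofComplex w)) 0 z := by
    refine (hasDerivAt_const (z : ℂ) c).congr_of_eventuallyEq ?_
    filter_upwards [isOpen_HP.mem_nhds (show (z : ℂ) ∈ HP from z.im_pos)] with w hw
    exact congrFun hF ⟨w, hw⟩
  have h3 := h1.unique h2
  rw [neg_eq_zero] at h3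
  rw [ofComplex_apply] at h3
  exact h3

end Gouvea.ES
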