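import Pool.Agent.Work.MP_d3517d_nt.ES.Mult

/-!
# Systems of eigenvalues and homomorphisms of fields
-/

noncomputable section

namespace Gouvea.Sys

open Module

variable {R : Type*} [CommRing R] {ι : Type*} [Fintype ι] [DecidableEq ι]

/-- a ring of matrices acts on the column vectors -/
def matRep {K : Type*} [Field K] (A : R →+* Matrix ι ι K) : R →+* Module.End K (ι → K) :=
  ((Matrix.toLinAlgEquiv' : Matrix ι ι K ≃ₐ[K] _) : Matrix ι ι K →+* ((ι → K) →ₗ[K] (ι → K))).comp A

theorem matRep_apply {K : Type*} [Field K] (A : R →+* Matrix ι ι K) (r : R) (v : ι → K) :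
    matRep A r v = (A r).mulVec v := rfl

theorem matRep_sub_pow {K : Type*} [Field K] (A : R →+* Matrix ι ι K) (r : R) (c : K) (n : ℕ)
    (v : ι → K) : ((matRep A r - c • (1 : Module.End K (ι → K))) ^ n) v =
      ((A r - Matrix.scalar ι c) ^ n).mulVec v := by
  induction n generalizing v with
  | zero => simp
  | succ n ih =>
    rw [pow_succ, pow_succ, Module.End.mul_apply, ih, ← Matrix.mulVec_mulVec]
    congr 1
    rw [Matrix.sub_mulVec, LinearMap.sub_apply, matRep_apply]
    congr 1
    funext i
    simp [Matrix.scalar_apply, Matrix.mulVec_diagonal]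

theorem mem_gs_matRep {K : Type*} [Field K] (A : R →+* Matrix ι ι K) (χ : R →+* K) (v : ι → K) :
    v ∈ gs (matRep A) χ ↔ ∀ r, ∃ n : ℕ, ((A r - Matrix.scalar ι (χ r)) ^ n).mulVec v = 0 := by
  unfold gs
  rw [Submodule.mem_iInf]
  refine forall_congr' fun r => ?_
  rw [Module.End.mem_maxGenEigenspace]
  refine exists_congr fun n => ?_
  rw [matRep_sub_pow]

section

variable {K₁ K₂ : Type*} [Field K₁] [Field K₂] (σ : K₁ →+* K₂)

/-- the matrices over the larger field -/
def matMap (A : R →+* Matrix ι ι K₁) : R →+* Matrix ι ι K₂ := σ.mapMatrix.comp A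

theorem matMap_apply (A : R →+* Matrix ι ι K₁) (r : R) : matMap σ A r = (A r).map σ := rfl

theorem map_mem_gs_matMap (A : R →+* Matrix ι ι K₁) (χ : R →+* K₁) {v : ι → K₁}
    (hv : v ∈ gs (matRep A) χ) : (fun i => σ (v i)) ∈ gs (matRep (matMap σ A)) (σ.comp χ) := by
  rw [mem_gs_matRep] at hv ⊢
  intro r
  obtain ⟨n, hn⟩ := hv r
  refine ⟨n, ?_⟩
  have h1 : (matMap σ A r - Matrix.scalar ι ((σ.comp χ) r)) =
      σ.mapMatrix (A r - Matrix.scalar ι (χ r)) := by
    rw [map_sub]
    congr 1
    ext i j
    simp [Matrix.scalar_apply, Matrix.diagonal_apply]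
    split_ifs <;> simp
  rw [h1, ← map_pow]
  funext i
  have h2 := congrFun hn i
  have h3 := RingHom.map_mulVec σ ((A r - Matrix.scalar ι (χ r)) ^ n) v i
  rw [h2] at h3
  rw [Pi.zero_apply, map_zero] at h3
  exact h3.symm

/-- linearly independent vectors stay so over a larger field -/
theorem linearIndependent_map {κ : Type*} [Fintype κ] [DecidableEq κ] {v : κ → ι → K₁}
    (hv : LinearIndependent K₁ v) : LinearIndependent K₂ fun k i => σ (v k i) := by
  set M : Matrix ι κ K₁ := fun i k => v k i with hM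
  have h1 : Function.Injective M.mulVec := Matrix.mulVec_injective_iff.2 hv
  have h2 : LinearMap.ker (Matrix.toLin' M) = ⊥ := by
    rw [LinearMap.ker_eq_bot]
    exact h1
  obtain ⟨g, hg⟩ := LinearMap.exists_leftInverse_of_injective (Matrix.toLin' M) h2
  have h3 : LinearMap.toMatrix' g * M = 1 := by
    have h4 := congrArg LinearMap.toMatrix' hg
    rw [LinearMap.toMatrix'_comp, LinearMap.toMatrix'_toLin', LinearMap.toMatrix'_id] at h4
    exact h4
  have h5 : (LinearMap.toMatrix' g).map σ * M.map σ = 1 := by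
    rw [← Matrix.map_mul, h3, Matrix.map_one σ (map_zero σ) (map_one σ)]
  have h6 : Function.Injective (M.map σ).mulVec := by
    intro x y hxy
    have h7 := congrArg ((LinearMap.toMatrix' g).map σ).mulVec hxy
    simp only [Matrix.mulVec_mulVec, h5, Matrix.one_mulVec] at h7
    exact h7
  exact Matrix.mulVec_injective_iff.1 h6

theorem mult_le (A : R →+* Matrix ι ι K₁) (χ : R →+* K₁) :
    mult (matRep A) χ ≤ mult (matRep (matMap σ A)) (σ.comp χ) := by
  unfold mult
  set b := Module.finBasis K₁ (gs (matRep A) χ)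
  have h1 : LinearIndependent K₁ (fun k => (b k : ι → K₁)) :=
    b.linearIndependent.map' (Submodule.subtype _) (Submodule.ker_subtype _)
  have h2 := linearIndependent_map σ h1
  have h3 : LinearIndependent K₂ (fun k => (⟨fun i => σ ((b k : ι → K₁) i),
      map_mem_gs_matMap σ A χ (b k).2⟩ : gs (matRep (matMap σ A)) (σ.comp χ))) := by
    refine LinearIndependent.of_comp (Submodule.subtype _) ?_
    exact h2
  have h4 := h3.fintype_card_le_finrank
  rwa [Fintype.card_fin] at h4

open Classical in
/-- **The systems of eigenvalues over a larger algebraically closed field** -/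
theorem Sys_map [IsAlgClosed K₁] [IsAlgClosed K₂] (A : R →+* Matrix ι ι K₁) :
    Sys (matRep (matMap σ A)) = (Sys (matRep A)).map (fun χ => σ.comp χ) := by
  have hinj : Function.Injective (fun χ : R →+* K₁ => σ.comp χ) := by
    intro χ χ' h
    ext r
    exact σ.injective (RingHom.congr_fun h r)
  symm
  refine Multiset.eq_of_le_of_card_le ?_ ?_
  · rw [Multiset.le_iff_count]
    intro ψ
    by_cases h : ∃ χ, σ.comp χ = ψ
    · obtain ⟨χ, rfl⟩ := h
      have h1 := Multiset.count_map_eq_count' (fun χ : R →+* K₁ => σ.comp χ) (Sys (matRep A)) hinj χ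
      refine (le_of_eq h1).trans ?_
      rw [count_Sys, count_Sys]
      exact mult_le σ A χ
    · rw [Multiset.count_eq_zero.2]
      · exact Nat.zero_le _
      · intro h1
        obtain ⟨χ, _, hχ⟩ := Multiset.mem_map.1 h1
        exact h ⟨χ, hχ⟩
  · rw [Multiset.card_map, card_Sys, card_Sys, Module.finrank_fintype_fun_eq_card,
      Module.finrank_fintype_fun_eq_card]

end

section Int

variable {K : Type*} [Field K]

/-- a representation by integral matrices, over a field -/
def intRep (K : Type*) [Field K] (A : R →+* Matrix ι ι ℤ) : R →+* Matrix ι ι K :=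
  (Int.castRingHom K).mapMatrix.comp A

theorem matMap_intRep {K₁ K₂ : Type*} [Field K₁] [Field K₂] (σ : K₁ →+* K₂)
    (A : R →+* Matrix ι ι ℤ) : matMap σ (intRep K₁ A) = intRep K₂ A := by
  ext r i j
  change σ ((A r i j : ℤ) : K₁) = ((A r i j : ℤ) : K₂)
  exact map_intCast σ _

/-- the eigenvalues of integral matrices are integral -/
theorem isIntegral_of_mem_Sys [IsAlgClosed K] (A : R →+* Matrix ι ι ℤ) {χ : R →+* K}
    (hχ : χ ∈ Sys (matRep (intRep K A))) (r : R) : IsIntegral ℤ (χ r) := by
  have h1 : χ r ∈ (matRep (intRep K A) r).charpoly.roots := by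
    rw [roots_charpoly]
    exact Multiset.mem_map.2 ⟨χ, hχ, rfl⟩
  have h2 : (matRep (intRep K A) r).charpoly = (A r).charpoly.map (algebraMap ℤ K) := by
    have h3 : matRep (intRep K A) r = Matrix.toLin' (intRep K A r) := rfl
    rw [h3, Matrix.charpoly_toLin', ← Matrix.charpoly_map]
    rfl
  rw [h2] at h1
  refine ⟨(A r).charpoly, Matrix.charpoly_monic _, ?_⟩
  have h4 := (Polynomial.mem_roots'.1 h1).2
  rw [Polynomial.IsRoot.def, Polynomial.eval_map] at h4
  exact h4

end Int

end Gouvea.Sys
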