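import Pool.Agent.Work.MP_d3517d_nt.ES.RhoS
import Pool.Agent.Work.MP_d3517d_nt.ES.CountSym
import Pool.Agent.Work.MP_d3517d_nt.ES.Transfer

/-!
# The integral structure of the symbols (MP_d3517d_nt, cell ES)

`AZ M n : ℤ[T_q] → Mat(ℤ)`, `T_q ↦ Tm M n q`; over every algebraically closed field `K` the systems
of eigenvalues of `ℤ[T_q]` on `Sym K M n` are those of `AZ M n`.
-/

open Gouvea.Desc Gouvea.PS Gouvea.Sys

noncomputable section

namespace Gouvea.ES

variable {M n : ℕ} [NeZero M]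

theorem Psi_opS (k : Type) [CommRing k] (hM : 4 ∣ M) (hn : Even n) (q : Nat.Primes)
    (φ : Sym k M n) : Psi k M n hn (opS k M n hM q φ) =
      ((Tm M n q).map (Int.cast : ℤ → k)).mulVec (Psi k M n hn φ) :=
  Psi_hecke hn φ (opS k M n hM q φ).2

theorem Tm_comm (hM : 4 ∣ M) (hn : Even n) (q r : Nat.Primes) :
    Commute (Tm M n q) (Tm M n r) := by
  have hid : ∀ A : Matrix (Vx M × Fin (n + 1)) (Vx M × Fin (n + 1)) ℤ,
      A.map (Int.cast : ℤ → ℤ) = A := fun A => by
    ext i j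
    simp
  have key : ∀ v, (Tm M n q * Tm M n r).mulVec v = (Tm M n r * Tm M n q).mulVec v := by
    intro v
    obtain ⟨φ, rfl⟩ := (Psi ℤ M n hn).surjective v
    have h1 := Psi_opS ℤ hM hn q (opS ℤ M n hM r φ)
    have h2 := Psi_opS ℤ hM hn r (opS ℤ M n hM q φ)
    rw [Psi_opS ℤ hM hn r φ, hid, hid] at h1
    rw [Psi_opS ℤ hM hn q φ, hid, hid] at h2
    rw [← Matrix.mulVec_mulVec, ← Matrix.mulVec_mulVec, ← h1, ← h2]
    congr 1
    exact LinearMap.congr_fun (opS_comm ℤ M n hM q r) φ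
  exact Matrix.mulVec_injective (funext key)

/-- the integral matrices of the Hecke operators -/
def AZ (M n : ℕ) [NeZero M] (hM : 4 ∣ M) (hn : Even n) :
    MvPolynomial Nat.Primes ℤ →+* Matrix (Vx M × Fin (n + 1)) (Vx M × Fin (n + 1)) ℤ :=
  comEval (fun q : Nat.Primes => Tm M n q) (Tm_comm hM hn)

theorem AZ_X (hM : 4 ∣ M) (hn : Even n) (q : Nat.Primes) :
    AZ M n hM hn (MvPolynomial.X q) = Tm M n q := comEval_X _ _ _

section

variable (K : Type) [Field K]

theorem Psi_equivariant (hM : 4 ∣ M) (hn : Even n) (r : MvPolynomial Nat.Primes ℤ)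
    (φ : Sym K M n) : Psi K M n hn (rhoS K M n hM r φ) =
      matRep (intRep K (AZ M n hM hn)) r (Psi K M n hn φ) := by
  refine equivariant_of_X (f := (Psi K M n hn).toLinearMap) (fun q φ => ?_) r φ
  rw [rhoS_X, matRep_apply]
  have e : intRep K (AZ M n hM hn) (MvPolynomial.X q) = (Tm M n q).map (Int.cast : ℤ → K) := by
    rw [intRep, RingHom.comp_apply, AZ_X]
    rfl
  rw [e]
  exact Psi_opS K hM hn q φ

/-- **The systems of eigenvalues on the symbols are those of the integral matrices.** -/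
theorem Sys_rhoS (hM : 4 ∣ M) (hn : Even n) :
    haveI := finiteDimensional_Sym K M n hn
    Sys (rhoS K M n hM) = Sys (matRep (intRep K (AZ M n hM hn))) := by
  have := finiteDimensional_Sym K M n hn
  exact Sys_congr (Psi K M n hn) (Psi_equivariant K hM hn)

end

/-- **Change of the field of coefficients.** -/
theorem Sys_rhoS_map {K₁ K₂ : Type} [Field K₁] [Field K₂] [IsAlgClosed K₁] [IsAlgClosed K₂]
    (σ : K₁ →+* K₂) (hM : 4 ∣ M) (hn : Even n) :
    haveI := finiteDimensional_Sym K₁ M n hn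
    haveI := finiteDimensional_Sym K₂ M n hn
    Sys (rhoS K₂ M n hM) = (Sys (rhoS K₁ M n hM)).map (fun χ => σ.comp χ) := by
  have := finiteDimensional_Sym K₁ M n hn
  have := finiteDimensional_Sym K₂ M n hn
  rw [Sys_rhoS K₂ hM hn, Sys_rhoS K₁ hM hn, ← matMap_intRep σ, Sys_map]

/-- the systems of eigenvalues on the symbols are integral. -/
theorem isIntegral_of_mem_rhoS {K : Type} [Field K] [IsAlgClosed K] (hM : 4 ∣ M) (hn : Even n) :
    haveI := finiteDimensional_Sym K M n hn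
    ∀ {χ : MvPolynomial Nat.Primes ℤ →+* K}, χ ∈ Sys (rhoS K M n hM) →
      ∀ r, IsIntegral ℤ (χ r) := by
  have := finiteDimensional_Sym K M n hn
  intro χ hχ r
  rw [Sys_rhoS K hM hn] at hχ
  exact isIntegral_of_mem_Sys _ hχ r

end Gouvea.ES
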