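import Pool.Agent.Work.MP_d3517d_nt.ES.SymInj
import Pool.Agent.Work.MP_d3517d_nt.ES.Lattice
import Pool.Agent.Work.MP_d3517d_nt.ES.DescSys

/-!
# The Hecke eigenvalues are algebraic integers (MP_d3517d_nt, cell ES)

`isIntegral_of_mem_rhoC`: for every level `M ≥ 1` and every weight `k`, the values of all systems
of eigenvalues of `ℤ[T_q (q ∤ M), U_q (q ∣ M)]` on `Cusp M k` are algebraic integers.
-/

open UpperHalfPlane CongruenceSubgroup Gouvea.Desc Gouvea.PS Gouvea.Sys
open scoped MatrixGroups ModularForm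

noncomputable section

namespace Gouvea.ES

/-! ### Weight zero and odd weights -/

/-- a cusp form as a modular form -/
def toMF {N k : ℕ} (f : Gouvea.Cusp N k) : ModularForm (Gam0 N) k where
  toFun := f
  slash_action_eq' := f.slash_action_eq'
  holo' := f.holo'
  bdd_at_cusps' := fun hc g hg => (f.zero_at_cusps' hc g hg).boundedAtFilter

theorem toMF_apply {N k : ℕ} (f : Gouvea.Cusp N k) (τ : ℍ) : toMF f τ = f τ := rfl

theorem cusp_weight_zero {N : ℕ} [NeZero N] (f : Gouvea.Cusp N 0) : f = 0 := by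
  obtain ⟨c, hc⟩ := ModularForm.eq_const_of_weight_zero (𝒢 := Gam0 N) (toMF f)
  have hc' : (f : ℍ → ℂ) = Function.const ℍ c := hc
  have h0 : IsZeroAtImInfty (f : ℍ → ℂ) := CuspFormClass.zero_at_infty f
  refine DFunLike.coe_injective ?_
  change (f : ℍ → ℂ) = 0
  rw [hc'] at h0 ⊢
  have h1 : c = 0 := tendsto_nhds_unique tendsto_const_nhds h0
  rw [h1]
  rfl

theorem neg_one_mem_Gam0 (N : ℕ) : (-1 : GL (Fin 2) ℝ) ∈ Gam0 N := by
  refine ⟨-1, ?_, ?_⟩
  · rw [SetLike.mem_coe, Gamma0_mem]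
    simp
  · ext i j
    fin_cases i <;> fin_cases j <;> simp

theorem cusp_weight_odd {N k : ℕ} [NeZero N] (hk : Odd k) (f : Gouvea.Cusp N k) : f = 0 := by
  have h1 : toMF f = 0 := ModularForm.eq_zero_of_neg_one_mem (neg_one_mem_Gam0 N)
    (by exact_mod_cast hk) (toMF f)
  refine DFunLike.ext _ _ fun τ => ?_
  rw [← toMF_apply, h1]
  rfl

theorem Sys_eq_zero_of_trivial {N k : ℕ} [NeZero N] (h : ∀ f : Gouvea.Cusp N k, f = 0) :
    Sys (rhoC N k) = 0 := by
  refine Sys_zero _ ?_
  have : Subsingleton (Gouvea.Cusp N k) := ⟨fun f g => by rw [h f, h g]⟩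
  exact Module.finrank_zero_of_subsingleton

/-! ### The levels divisible by four -/

/-- the systems on the cusp forms are systems on the symbols -/
theorem Sys_rhoC_le {M n : ℕ} [NeZero M] (hM : 4 ∣ M) (hn : Even n) :
    haveI := finiteDimensional_Sym ℂ M n hn
    Sys (rhoC M (n + 2)) ≤ Sys (rhoS ℂ M n hM) := by
  have := finiteDimensional_Sym ℂ M n hn
  obtain ⟨r, hr, -⟩ := Sys_range (rhoC M (n + 2)) (rhoS ℂ M n hM) (symL' M n)
    (symL'_injective hM) (equivariant_of_X fun q f => by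
      rw [rhoC_X, rhoS_X]
      exact (opS_symL' hM q f).symm)
  rw [hr]
  exact Multiset.le_add_right _ _

theorem isIntegral_four {M k : ℕ} [NeZero M] (hM : 4 ∣ M) {χ : MvPolynomial Nat.Primes ℤ →+* ℂ}
    (hχ : χ ∈ Sys (rhoC M k)) (r : MvPolynomial Nat.Primes ℤ) : IsIntegral ℤ (χ r) := by
  rcases Nat.even_or_odd k with hk | hk
  · rcases Nat.eq_zero_or_pos k with rfl | h0
    · rw [Sys_eq_zero_of_trivial cusp_weight_zero] at hχ
      exact absurd hχ (Multiset.notMem_zero _)
    · obtain ⟨n, rfl⟩ : ∃ n, k = n + 2 := by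
        obtain ⟨m, hm⟩ := hk
        exact ⟨k - 2, by omega⟩
      have hn : Even n := (Nat.even_add.1 hk).2 even_two
      exact isIntegral_of_mem_rhoS hM hn (Multiset.mem_of_le (Sys_rhoC_le hM hn) hχ) r
  · rw [Sys_eq_zero_of_trivial fun f => cusp_weight_odd hk f] at hχ
    exact absurd hχ (Multiset.notMem_zero _)

/-! ### All levels -/

/-- a system with integral values at the variables has integral values. -/
theorem isIntegral_of_X {ι K : Type*} [Field K] {χ : MvPolynomial ι ℤ →+* K}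
    (h : ∀ i, IsIntegral ℤ (χ (MvPolynomial.X i))) (r : MvPolynomial ι ℤ) :
    IsIntegral ℤ (χ r) := by
  induction r using MvPolynomial.induction_on with
  | C a =>
    have e : (MvPolynomial.C a : MvPolynomial ι ℤ) = ((a : ℤ) : MvPolynomial ι ℤ) := by simp
    rw [e, map_intCast]
    exact isIntegral_algebraMap (R := ℤ) (A := K) (x := a)
  | add p q hp hq =>
    rw [map_add]
    exact hp.add hq
  | mul_X p i hp =>
    rw [map_mul]
    exact hp.mul (h i)

/-- **The Hecke eigenvalues are algebraic integers.** -/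
theorem isIntegral_of_mem_rhoC {M k : ℕ} [NeZero M] {χ : MvPolynomial Nat.Primes ℤ →+* ℂ}
    (hχ : χ ∈ Sys (rhoC M k)) (r : MvPolynomial Nat.Primes ℤ) : IsIntegral ℤ (χ r) := by
  set l : Nat.Primes := ⟨2, Nat.prime_two⟩ with hl
  have hl2 : (l : ℕ) = 2 := rfl
  -- level `M`, `2 ∣ M`
  have key2 : ∀ (M : ℕ) [NeZero M], 2 ∣ M → ∀ χ ∈ Sys (rhoC M k),
      ∀ r : MvPolynomial Nat.Primes ℤ, IsIntegral ℤ (χ r) := by
    intro M _ h2 χ hχ r
    obtain ⟨rest, hr, -⟩ := Sys_cusp_ram M k l (by rw [hl2]; exact h2)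
    refine isIntegral_four (M := M * l) (k := k) ?_ (χ := χ) ?_ r
    · rw [hl2]
      obtain ⟨m, rfl⟩ := h2
      exact ⟨m, by ring⟩
    · rw [hr]
      exact Multiset.mem_add.2 (Or.inl hχ)
  by_cases h2 : 2 ∣ M
  · exact key2 M h2 χ hχ r
  · rcases Nat.even_or_odd k with hk | hk
    · rcases Nat.eq_zero_or_pos k with hk0 | h0
      · subst hk0
        rw [Sys_eq_zero_of_trivial cusp_weight_zero] at hχ
        exact absurd hχ (Multiset.notMem_zero _)
      · have hk2 : 2 ≤ k := by
          obtain ⟨m, hm⟩ := hk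
          omega
        obtain ⟨rest, hr, -⟩ := Sys_cusp_unram M k l (by rw [hl2]; exact h2) hk2
        obtain ⟨a, b, hab, hc⟩ := exists_ab (χ (MvPolynomial.X l))
          ((((l : ℕ) : ℤ) ^ (k - 1) : ℤ) : ℂ)
        have hmem : ∀ x ∈ two l ((((l : ℕ) : ℤ) ^ (k - 1) : ℤ) : ℂ) χ,
            ∀ r : MvPolynomial Nat.Primes ℤ, IsIntegral ℤ (x r) := by
          intro x hx r
          refine key2 (M * l) (by rw [hl2]; exact dvd_mul_left 2 M) x ?_ r
          rw [hr]
          exact Multiset.mem_add.2 (Or.inl (Multiset.mem_bind.2 ⟨χ, hχ, hx⟩))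
        rw [two_eq l _ χ a b hab hc] at hmem
        have ha := hmem (repl l χ a) (by simp)
        have hb := hmem (repl l χ b) (by simp)
        refine isIntegral_of_X (fun q => ?_) r
        by_cases hq : q = l
        · rw [hq, ← hab]
          have h3 := (ha (MvPolynomial.X l)).add (hb (MvPolynomial.X l))
          rwa [repl_same, repl_same] at h3
        · have h3 := ha (MvPolynomial.X q)
          rwa [repl_ne l q hq] at h3
    · rw [Sys_eq_zero_of_trivial fun f => cusp_weight_odd hk f] at hχ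
      exact absurd hχ (Multiset.notMem_zero _)

end Gouvea.ES
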