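import Mathlib

/-!
# Systems of eigenvalues of a commutative ring of operators

`ρ : R →+* Module.End K V`, `R` a commutative ring, `V` a finite dimensional space.

* `gs ρ χ` : the joint generalised eigenspace of the ring homomorphism `χ : R →+* K`;
* `mult ρ χ` : its dimension;
* `Sys ρ` : the multiset of the systems of eigenvalues which occur in `V`.

`jge f χ` is the version of `gs` for a family of operators `f : ι → Module.End K V`.
-/

open Module Module.End

namespace Gouvea.Sys

section Lattice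

/-- A decomposition which refines another one. -/
theorem eq_iSup_of_refine {L α β : Type*} [CompleteLattice L] [IsModularLattice L]
    {N : α → L} {M : β → L} {π : α → β} (hNM : ∀ a, N a ≤ M (π a)) (hM : iSupIndep M)
    (hN : ⨆ a, N a = ⊤) (b : β) : M b = ⨆ a, ⨆ _ : π a = b, N a := by
  refine le_antisymm ?_ (iSup₂_le fun a ha => ha ▸ hNM a)
  have h1 : (⨆ a, ⨆ _ : π a = b, N a) ≤ M b := iSup₂_le fun a ha => ha ▸ hNM a
  have h2 : (⨆ a, ⨆ _ : π a = b, N a) ⊔ (⨆ a, ⨆ _ : π a ≠ b, N a) = ⊤ := by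
    rw [eq_top_iff, ← hN]
    refine iSup_le fun a => ?_
    by_cases ha : π a = b
    · exact le_sup_of_le_left (le_iSup₂_of_le a ha le_rfl)
    · exact le_sup_of_le_right (le_iSup₂_of_le a ha le_rfl)
  have h3 : Disjoint (⨆ a, ⨆ _ : π a ≠ b, N a) (M b) := by
    refine ((hM b).mono_right ?_).symm
    refine iSup₂_le fun a ha => ?_
    exact (hNM a).trans (le_iSup₂_of_le (π a) ha le_rfl)
  calc M b = ((⨆ a, ⨆ _ : π a = b, N a) ⊔ (⨆ a, ⨆ _ : π a ≠ b, N a)) ⊓ M b := by
        rw [h2, top_inf_eq]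
    _ = (⨆ a, ⨆ _ : π a = b, N a) ⊔ (⨆ a, ⨆ _ : π a ≠ b, N a) ⊓ M b := by
        rw [sup_inf_assoc_of_le _ h1]
    _ ≤ ⨆ a, ⨆ _ : π a = b, N a := by rw [h3.eq_bot, sup_bot_eq]

end Lattice

section Finrank

variable {K : Type*} [Field K] {V : Type*} [AddCommGroup V] [Module K V] [FiniteDimensional K V]

omit [FiniteDimensional K V] in
theorem finrank_map_inj {U : Type*} [AddCommGroup U] [Module K U] {f : U →ₗ[K] V}
    (hf : Function.Injective f) (S : Submodule K U) : finrank K (S.map f) = finrank K S :=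
  (Submodule.equivMapOfInjective f hf S).symm.finrank_eq

theorem finrank_iSup_finset {α : Type*} {N : α → Submodule K V} (hN : iSupIndep N)
    (s : Finset α) : finrank K (⨆ a ∈ s, N a : Submodule K V) = ∑ a ∈ s, finrank K (N a) := by
  classical
  induction s using Finset.induction_on with
  | empty => simp
  | insert a s ha ih =>
    rw [Finset.sum_insert ha, Finset.iSup_insert, ← ih]
    have h1 := Submodule.finrank_sup_add_finrank_inf_eq (N a) (⨆ a ∈ s, N a)
    have h2 : Disjoint (N a) (⨆ a ∈ s, N a) := by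
      refine (hN a).mono_right (iSup₂_le fun b hb => ?_)
      exact le_iSup₂_of_le b (fun h => ha (h ▸ hb)) le_rfl
    rw [h2.eq_bot, finrank_bot, add_zero] at h1
    exact h1

/-- the dimension of the sum of independent subspaces -/
theorem finrank_iSup_subset {α : Type*} {N : α → Submodule K V} (hN : iSupIndep N)
    (S : Set α) : finrank K (⨆ a ∈ S, N a : Submodule K V) = ∑ᶠ a ∈ S, finrank K (N a) := by
  classical
  have hfin : {a | N a ≠ ⊥}.Finite := WellFoundedGT.finite_ne_bot_of_iSupIndep hN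
  have h1 : (⨆ a ∈ S, N a) = ⨆ a ∈ hfin.toFinset.filter (· ∈ S), N a := by
    refine le_antisymm (iSup₂_le fun a ha => ?_) (iSup₂_le fun a ha => ?_)
    · by_cases h : N a = ⊥
      · rw [h]
        exact bot_le
      · exact le_iSup₂_of_le (f := fun a (_ : a ∈ hfin.toFinset.filter (· ∈ S)) => N a) a
          (by simp [h, ha]) le_rfl
    · exact le_iSup₂_of_le (f := fun a (_ : a ∈ S) => N a) a (Finset.mem_filter.1 ha).2 le_rfl
  rw [h1, finrank_iSup_finset hN]
  symm
  rw [finsum_mem_eq_sum_of_inter_support_eq]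
  ext a
  simp only [Set.mem_inter_iff, Function.mem_support, Finset.coe_filter,
    Set.Finite.mem_toFinset]
  constructor
  · rintro ⟨ha, h0⟩
    refine ⟨⟨?_, ha⟩, h0⟩
    rintro h
    exact h0 (by rw [h, finrank_bot])
  · rintro ⟨⟨-, ha⟩, h0⟩
    exact ⟨ha, h0⟩

theorem finrank_iSup_top {α : Type*} {N : α → Submodule K V} (hN : iSupIndep N)
    (htop : ⨆ a, N a = ⊤) : ∑ᶠ a, finrank K (N a) = finrank K V := by
  have h := finrank_iSup_subset hN Set.univ
  have h1 : (⨆ a ∈ (Set.univ : Set α), N a) = ⊤ := by simpa using htop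
  rw [h1, finrank_top] at h
  rw [h]
  simp

end Finrank

section Basic

variable {K : Type*} [Field K] {V : Type*} [AddCommGroup V] [Module K V] {ι : Type*}

/-- the joint generalised eigenspace of the system of eigenvalues `χ` -/
def jge (f : ι → Module.End K V) (χ : ι → K) : Submodule K V :=
  ⨅ i, (f i).maxGenEigenspace (χ i)

theorem mem_jge {f : ι → Module.End K V} {χ : ι → K} {v : V} :
    v ∈ jge f χ ↔ ∀ i, ∃ k : ℕ, ((f i - χ i • (1 : Module.End K V)) ^ k) v = 0 :=
  mem_iInf_maxGenEigenspace_iff f χ v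

theorem mem_jge_finrank [FiniteDimensional K V] {f : ι → Module.End K V} {χ : ι → K} {v : V} :
    v ∈ jge f χ ↔ ∀ i, ((f i - χ i • (1 : Module.End K V)) ^ finrank K V) v = 0 := by
  unfold jge
  rw [Submodule.mem_iInf]
  refine forall_congr' fun i => ?_
  rw [maxGenEigenspace_eq_genEigenspace_finrank, mem_genEigenspace_nat]
  rfl

theorem mapsTo_jge {f : ι → Module.End K V} {g : Module.End K V} (hg : ∀ i, Commute (f i) g)
    (χ : ι → K) : ∀ v ∈ jge f χ, g v ∈ jge f χ := by
  intro v hv
  unfold jge at *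
  rw [Submodule.mem_iInf] at *
  exact fun i => mapsTo_maxGenEigenspace_of_comm (hg i) (χ i) (hv i)

theorem iSupIndep_jge {f : ι → Module.End K V} (hf : ∀ i j, Commute (f i) (f j)) :
    iSupIndep (jge f) :=
  independent_iInf_maxGenEigenspace_of_forall_mapsTo f fun i j φ =>
    mapsTo_maxGenEigenspace_of_comm (hf j i) φ

theorem iSup_jge [IsAlgClosed K] [FiniteDimensional K V] {f : ι → Module.End K V}
    (hf : ∀ i j, Commute (f i) (f j)) : ⨆ χ, jge f χ = ⊤ :=
  iSup_iInf_maxGenEigenspace_eq_top_of_forall_mapsTo f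
    (fun i j φ => mapsTo_maxGenEigenspace_of_comm (hf j i) φ)
    fun i => iSup_maxGenEigenspace_eq_top (f i)

/-- only finitely many systems of eigenvalues occur -/
theorem finite_jge [FiniteDimensional K V] {f : ι → Module.End K V}
    (hf : ∀ i j, Commute (f i) (f j)) : {χ | jge f χ ≠ ⊥}.Finite :=
  WellFoundedGT.finite_ne_bot_of_iSupIndep (iSupIndep_jge hf)

/-- a system of eigenvalues which occurs has an eigenvector -/
theorem exists_eigenvector [FiniteDimensional K V] {f : ι → Module.End K V}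
    (hf : ∀ i j, Commute (f i) (f j)) {χ : ι → K} (h : jge f χ ≠ ⊥) :
    ∃ v : V, v ≠ 0 ∧ ∀ i, f i v = χ i • v := by
  classical
  -- a minimal stable subspace
  set P : ℕ → Prop := fun d => ∃ W : Submodule K V, W ≠ ⊥ ∧ W ≤ jge f χ ∧
    (∀ i, ∀ v ∈ W, f i v ∈ W) ∧ finrank K W = d with hP
  have hex : ∃ d, P d := ⟨_, jge f χ, h, le_rfl,
    fun i => mapsTo_jge (fun j => hf j i) χ, rfl⟩
  obtain ⟨W, hW0, hWle, hWs, hWd⟩ := Nat.find_spec hex
  have hmin : ∀ W' : Submodule K V, W' ≠ ⊥ → W' ≤ W → (∀ i, ∀ v ∈ W', f i v ∈ W') → W' = W := by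
    intro W' h1 h2 h3
    have h4 : Nat.find hex ≤ finrank K W' := Nat.find_min' hex ⟨W', h1, h2.trans hWle, h3, rfl⟩
    rw [← hWd] at h4
    exact Submodule.eq_of_le_of_finrank_le h2 h4
  have key : ∀ i, ∀ v ∈ W, f i v = χ i • v := by
    intro i
    set g : Module.End K V := f i - χ i • (1 : Module.End K V) with hg
    have hgW : ∀ v ∈ W, g v ∈ W := fun v hv =>
      W.sub_mem (hWs i v hv) (W.smul_mem _ hv)
    have hgc : ∀ j v, g (f j v) = f j (g v) := by
      intro j v
      have h1 : f i (f j v) = f j (f i v) := LinearMap.congr_fun (hf i j) v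
      simp only [hg, LinearMap.sub_apply, LinearMap.smul_apply, Module.End.one_apply, map_sub,
        map_smul, h1]
    have h5 : W ⊓ LinearMap.ker g = W := by
      refine hmin _ ?_ inf_le_left ?_
      · obtain ⟨w, hw, hw0⟩ := (Submodule.ne_bot_iff W).1 hW0
        obtain ⟨k, hk⟩ := mem_jge.1 (hWle hw) i
        have hex2 : ∃ k : ℕ, (g ^ k) w = 0 := ⟨k, hk⟩
        set k₀ := Nat.find hex2 with hk₀
        have h6 : (g ^ k₀) w = 0 := Nat.find_spec hex2
        have h7 : k₀ ≠ 0 := by
          intro h0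
          rw [h0, pow_zero] at h6
          exact hw0 h6
        obtain ⟨m, hm⟩ := Nat.exists_eq_succ_of_ne_zero h7
        have h8 : (g ^ m) w ≠ 0 := Nat.find_min hex2 (by omega)
        have h9 : ∀ m, (g ^ m) w ∈ W := by
          intro m
          induction m with
          | zero => simpa using hw
          | succ m ih =>
            rw [pow_succ']
            exact hgW _ ih
        rw [Submodule.ne_bot_iff]
        refine ⟨(g ^ m) w, ⟨h9 m, ?_⟩, h8⟩
        change g ((g ^ m) w) = 0
        rw [hm, Nat.succ_eq_add_one, pow_succ'] at h6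
        exact h6
      · rintro j v ⟨hv1, hv2⟩
        refine ⟨hWs j v hv1, ?_⟩
        change g (f j v) = 0
        rw [hgc, show g v = 0 from hv2, map_zero]
    intro v hv
    have h6 : v ∈ W ⊓ LinearMap.ker g := by rw [h5]; exact hv
    have h7 : g v = 0 := h6.2
    simpa [hg, sub_eq_zero] using h7
  obtain ⟨w, hw, hw0⟩ := (Submodule.ne_bot_iff W).1 hW0
  exact ⟨w, hw0, fun i => key i w hw⟩

theorem mem_jge_of_eigenvector {f : ι → Module.End K V} {χ : ι → K} {v : V}
    (h : ∀ i, f i v = χ i • v) : v ∈ jge f χ :=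
  mem_jge.2 fun i => ⟨1, by simp [h i]⟩

theorem jge_ne_bot_iff_exists [FiniteDimensional K V] {f : ι → Module.End K V}
    (hf : ∀ i j, Commute (f i) (f j)) {χ : ι → K} :
    jge f χ ≠ ⊥ ↔ ∃ v : V, v ≠ 0 ∧ ∀ i, f i v = χ i • v := by
  refine ⟨exists_eigenvector hf, fun ⟨v, hv, h⟩ => ?_⟩
  rw [Submodule.ne_bot_iff]
  exact ⟨v, mem_jge_of_eigenvector h, hv⟩

/-- for a coarser family of operators -/
theorem jge_comp [IsAlgClosed K] [FiniteDimensional K V] {f : ι → Module.End K V}
    (hf : ∀ i j, Commute (f i) (f j)) {ι' : Type*} (g : ι' → ι) (χ' : ι' → K) :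
    jge (fun i => f (g i)) χ' = ⨆ χ : ι → K, ⨆ _ : (fun i => χ (g i)) = χ', jge f χ := by
  have h1 : ∀ χ : ι → K, jge f χ ≤ jge (fun i => f (g i)) (fun i => χ (g i)) := by
    intro χ v hv
    rw [mem_jge] at *
    exact fun i => hv (g i)
  exact eq_iSup_of_refine (N := jge f) (M := jge fun i => f (g i))
    (π := fun (χ : ι → K) (i : ι') => χ (g i)) h1 (iSupIndep_jge fun i j => hf _ _)
    (iSup_jge hf) χ'

end Basic

section Ring

variable {R : Type*} [CommRing R] {K : Type*} [Field K] {V : Type*} [AddCommGroup V] [Module K V]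

theorem commute (ρ : R →+* Module.End K V) (r s : R) : Commute (ρ r) (ρ s) := by
  change ρ r * ρ s = ρ s * ρ r
  rw [← map_mul, ← map_mul, mul_comm]

/-- the joint generalised eigenspace of the system of eigenvalues `χ` -/
def gs (ρ : R →+* Module.End K V) (χ : R →+* K) : Submodule K V :=
  ⨅ r, (ρ r).maxGenEigenspace (χ r)

/-- the multiplicity of the system of eigenvalues `χ` -/
noncomputable def mult (ρ : R →+* Module.End K V) (χ : R →+* K) : ℕ := finrank K (gs ρ χ)

theorem gs_eq_jge (ρ : R →+* Module.End K V) (χ : R →+* K) : gs ρ χ = jge ρ χ := rfl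

theorem mem_gs {ρ : R →+* Module.End K V} {χ : R →+* K} {v : V} :
    v ∈ gs ρ χ ↔ ∀ r, ∃ k : ℕ, ((ρ r - χ r • (1 : Module.End K V)) ^ k) v = 0 := mem_jge

theorem mem_gs_of_eigenvector {ρ : R →+* Module.End K V} {χ : R →+* K} {v : V}
    (h : ∀ r, ρ r v = χ r • v) : v ∈ gs ρ χ := mem_jge_of_eigenvector h

theorem map_mem_gs {ρ : R →+* Module.End K V} {χ : R →+* K} {g : Module.End K V}
    (hg : ∀ r, Commute (ρ r) g) {v : V} (hv : v ∈ gs ρ χ) : g v ∈ gs ρ χ :=
  mapsTo_jge hg χ v hv

theorem smul_mem_gs {ρ : R →+* Module.End K V} {χ : R →+* K} (r : R) {v : V}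
    (hv : v ∈ gs ρ χ) : ρ r v ∈ gs ρ χ := map_mem_gs (fun s => commute ρ s r) hv

/-- the systems of eigenvalues which occur are ring homomorphisms -/
theorem exists_ringHom [FiniteDimensional K V] {ρ : R →+* Module.End K V} {χ : R → K}
    (h : jge ρ χ ≠ ⊥) : ∃ χ' : R →+* K, (χ' : R → K) = χ := by
  obtain ⟨v, hv, he⟩ := exists_eigenvector (commute ρ) h
  have hinj : ∀ a b : K, a • v = b • v → a = b := fun a b hab => smul_left_injective K hv hab
  refine ⟨{ toFun := χ, map_one' := ?_, map_mul' := ?_, map_zero' := ?_, map_add' := ?_ }, rfl⟩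
  · apply hinj
    rw [← he, map_one, one_smul]
    rfl
  · intro r s
    apply hinj
    rw [← he, map_mul, Module.End.mul_apply, he, map_smul, he, smul_smul, mul_comm]
  · apply hinj
    rw [← he, map_zero, zero_smul]
    rfl
  · intro r s
    apply hinj
    rw [← he, map_add, LinearMap.add_apply, he, he, add_smul]

theorem iSupIndep_gs (ρ : R →+* Module.End K V) : iSupIndep (gs ρ) :=
  (iSupIndep_jge (commute ρ)).comp (f := fun χ : R →+* K => (χ : R → K))
    DFunLike.coe_injective

theorem iSup_gs [IsAlgClosed K] [FiniteDimensional K V] (ρ : R →+* Module.End K V) :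
    ⨆ χ, gs ρ χ = ⊤ := by
  rw [eq_top_iff, ← iSup_jge (commute ρ)]
  refine iSup_le fun χ => ?_
  by_cases h : jge ρ χ = ⊥
  · rw [h]
    exact bot_le
  · obtain ⟨χ', rfl⟩ := exists_ringHom h
    exact le_iSup (gs ρ) χ'

theorem mult_ne_zero_iff [FiniteDimensional K V] {ρ : R →+* Module.End K V} {χ : R →+* K} :
    mult ρ χ ≠ 0 ↔ gs ρ χ ≠ ⊥ := by
  rw [mult, Ne, Submodule.finrank_eq_zero]

theorem mult_ne_zero_iff_exists [FiniteDimensional K V] {ρ : R →+* Module.End K V}
    {χ : R →+* K} : mult ρ χ ≠ 0 ↔ ∃ v : V, v ≠ 0 ∧ ∀ r, ρ r v = χ r • v := by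
  rw [mult_ne_zero_iff, gs_eq_jge, jge_ne_bot_iff_exists (commute ρ)]

theorem finite_mult [FiniteDimensional K V] (ρ : R →+* Module.End K V) :
    {χ | mult ρ χ ≠ 0}.Finite := by
  have h := WellFoundedGT.finite_ne_bot_of_iSupIndep (iSupIndep_gs ρ)
  exact h.subset fun χ hχ => mult_ne_zero_iff.1 hχ

set_option linter.dupNamespace false in
/-- the multiset of the systems of eigenvalues -/
noncomputable def Sys [FiniteDimensional K V] (ρ : R →+* Module.End K V) : Multiset (R →+* K) :=
  ∑ χ ∈ (finite_mult ρ).toFinset, Multiset.replicate (mult ρ χ) χ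

section Count

variable [FiniteDimensional K V] (ρ : R →+* Module.End K V)

open Classical in
theorem count_Sys (χ : R →+* K) : (Sys ρ).count χ = mult ρ χ := by
  rw [Sys, Multiset.count_sum']
  simp only [Multiset.count_replicate]
  by_cases h : χ ∈ (finite_mult ρ).toFinset
  · rw [Finset.sum_eq_single_of_mem χ h]
    · simp
    · intro b _ hb
      simp [hb]
  · rw [Finset.sum_eq_zero]
    · simp only [Set.Finite.mem_toFinset, Set.mem_ofPred_eq, not_not] at h
      exact h.symm
    · intro b hb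
      rw [if_neg]
      rintro rfl
      exact h hb

theorem mem_Sys {χ : R →+* K} : χ ∈ Sys ρ ↔ mult ρ χ ≠ 0 := by
  classical
  rw [← Multiset.count_ne_zero]
  convert Iff.rfl using 2
  rw [← count_Sys]

theorem mem_Sys_iff_exists {χ : R →+* K} : χ ∈ Sys ρ ↔ ∃ v : V, v ≠ 0 ∧ ∀ r, ρ r v = χ r • v := by
  rw [mem_Sys, mult_ne_zero_iff_exists]

/-- two multisets of systems with the same multiplicities -/
theorem Sys_eq_iff {V' : Type*} [AddCommGroup V'] [Module K V'] [FiniteDimensional K V']
    (ρ' : R →+* Module.End K V') : Sys ρ = Sys ρ' ↔ ∀ χ, mult ρ χ = mult ρ' χ := by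
  classical
  rw [Multiset.ext]
  refine forall_congr' fun χ => ?_
  rw [← count_Sys, ← count_Sys]

theorem sum_mult : ∑ χ ∈ (finite_mult ρ).toFinset, mult ρ χ = (Sys ρ).card := by
  rw [Sys, Multiset.card_sum]
  simp

theorem card_Sys [IsAlgClosed K] : (Sys ρ).card = finrank K V := by
  rw [← sum_mult, ← finrank_iSup_top (iSupIndep_gs ρ) (iSup_gs ρ)]
  symm
  rw [finsum_eq_sum_of_support_subset]
  · rfl
  · intro χ hχ
    rw [Set.Finite.coe_toFinset]
    exact hχ

theorem sum_mult_of_subset [IsAlgClosed K] {s : Finset (R →+* K)}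
    (hs : ∀ χ : R →+* K, mult ρ χ ≠ 0 → χ ∈ s) : ∑ χ ∈ s, mult ρ χ = finrank K V := by
  rw [← card_Sys ρ, ← sum_mult ρ]
  symm
  refine Finset.sum_subset (fun χ hχ => hs χ (by simpa using hχ)) fun χ _ h => ?_
  simpa using h

end Count

/-! ### Equivariant maps -/

section Maps

variable {U W : Type*} [AddCommGroup U] [Module K U] [AddCommGroup W] [Module K W]
  {ρU : R →+* Module.End K U} {ρV : R →+* Module.End K V} {ρW : R →+* Module.End K W}

theorem equivariant_pow {f : U →ₗ[K] V} (hf : ∀ r u, f (ρU r u) = ρV r (f u)) (r : R) (a : K)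
    (k : ℕ) (u : U) : f (((ρU r - a • (1 : Module.End K U)) ^ k) u) =
      ((ρV r - a • (1 : Module.End K V)) ^ k) (f u) := by
  induction k generalizing u with
  | zero => simp
  | succ k ih =>
    rw [pow_succ, pow_succ, Module.End.mul_apply, Module.End.mul_apply, ih]
    congr 1
    simp [hf]

theorem map_mem_gs_of_equivariant {f : U →ₗ[K] V} (hf : ∀ r u, f (ρU r u) = ρV r (f u))
    {χ : R →+* K} {u : U} (hu : u ∈ gs ρU χ) : f u ∈ gs ρV χ := by
  rw [mem_gs] at *
  intro r
  obtain ⟨k, hk⟩ := hu r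
  exact ⟨k, by rw [← equivariant_pow hf, hk, map_zero]⟩

theorem mem_gs_iff_of_injective {f : U →ₗ[K] V} (hf : ∀ r u, f (ρU r u) = ρV r (f u))
    (hinj : Function.Injective f) {χ : R →+* K} {u : U} : f u ∈ gs ρV χ ↔ u ∈ gs ρU χ := by
  refine ⟨fun h => ?_, map_mem_gs_of_equivariant hf⟩
  rw [mem_gs] at *
  intro r
  obtain ⟨k, hk⟩ := h r
  refine ⟨k, hinj ?_⟩
  rw [equivariant_pow hf, hk, map_zero]

/-- the image of the generalised eigenspace -/
theorem map_gs_of_injective {f : U →ₗ[K] V} (hf : ∀ r u, f (ρU r u) = ρV r (f u))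
    (hinj : Function.Injective f) (χ : R →+* K) :
    (gs ρU χ).map f = LinearMap.range f ⊓ gs ρV χ := by
  ext v
  constructor
  · rintro ⟨u, hu, rfl⟩
    exact ⟨⟨u, rfl⟩, map_mem_gs_of_equivariant hf hu⟩
  · rintro ⟨⟨u, rfl⟩, hu⟩
    exact ⟨u, (mem_gs_iff_of_injective hf hinj).1 hu, rfl⟩

variable [FiniteDimensional K V]

theorem mult_le_of_injective {f : U →ₗ[K] V} (hf : ∀ r u, f (ρU r u) = ρV r (f u))
    (hinj : Function.Injective f) (χ : R →+* K) : mult ρU χ ≤ mult ρV χ := by
  unfold mult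
  rw [← finrank_map_inj hinj (gs ρU χ), map_gs_of_injective hf hinj]
  exact Submodule.finrank_mono inf_le_right

theorem Sys_le_of_injective [FiniteDimensional K U] {f : U →ₗ[K] V}
    (hf : ∀ r u, f (ρU r u) = ρV r (f u)) (hinj : Function.Injective f) : Sys ρU ≤ Sys ρV := by
  classical
  rw [Multiset.le_iff_count]
  intro χ
  have h := mult_le_of_injective hf hinj χ
  rw [← count_Sys, ← count_Sys] at h
  convert h

theorem Sys_congr [FiniteDimensional K U] (e : U ≃ₗ[K] V) (he : ∀ r u, e (ρU r u) = ρV r (e u)) :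
    Sys ρU = Sys ρV := by
  refine le_antisymm (Sys_le_of_injective (f := e.toLinearMap) he e.injective)
    (Sys_le_of_injective (f := e.symm.toLinearMap) (fun r v => ?_) e.symm.injective)
  apply e.injective
  simp [he]

variable [FiniteDimensional K U] [FiniteDimensional K W]

omit [FiniteDimensional K U] in
theorem mult_le_of_exact {f : U →ₗ[K] V} {g : V →ₗ[K] W} (hf : ∀ r u, f (ρU r u) = ρV r (f u))
    (hg : ∀ r v, g (ρV r v) = ρW r (g v)) (hinj : Function.Injective f)
    (hker : LinearMap.ker g ≤ LinearMap.range f) (χ : R →+* K) :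
    mult ρV χ ≤ mult ρU χ + mult ρW χ := by
  set g' : gs ρV χ →ₗ[K] W := g.domRestrict (gs ρV χ) with hg'
  have h1 := LinearMap.finrank_range_add_finrank_ker g'
  have h2 : finrank K (LinearMap.range g') ≤ mult ρW χ := by
    refine Submodule.finrank_mono ?_
    rintro _ ⟨v, rfl⟩
    exact map_mem_gs_of_equivariant hg v.2
  have h3 : finrank K (LinearMap.ker g') ≤ mult ρU χ := by
    unfold mult
    rw [← finrank_map_inj hinj (gs ρU χ), map_gs_of_injective hf hinj,
      ← finrank_map_inj (gs ρV χ).injective_subtype (LinearMap.ker g')]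
    refine Submodule.finrank_mono ?_
    rintro _ ⟨v, hv, rfl⟩
    exact ⟨hker hv, v.2⟩
  unfold mult at *
  omega

variable [IsAlgClosed K]

/-- multiplicities in exact sequences -/
theorem mult_add_of_exact {f : U →ₗ[K] V} {g : V →ₗ[K] W} (hf : ∀ r u, f (ρU r u) = ρV r (f u))
    (hg : ∀ r v, g (ρV r v) = ρW r (g v)) (hinj : Function.Injective f)
    (hsurj : Function.Surjective g) (hker : LinearMap.range f = LinearMap.ker g) (χ : R →+* K) :
    mult ρV χ = mult ρU χ + mult ρW χ := by
  classical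
  set s := (finite_mult ρU).toFinset ∪ (finite_mult ρV).toFinset ∪ (finite_mult ρW).toFinset ∪ {χ}
    with hs
  have hsU := sum_mult_of_subset ρU (s := s) fun χ' h => by simp [hs, h]
  have hsV := sum_mult_of_subset ρV (s := s) fun χ' h => by simp [hs, h]
  have hsW := sum_mult_of_subset ρW (s := s) fun χ' h => by simp [hs, h]
  have hdim : finrank K V = finrank K U + finrank K W := by
    have h1 := LinearMap.finrank_range_add_finrank_ker g
    rw [← hker, LinearMap.finrank_range_of_inj hinj, LinearMap.range_eq_top.2 hsurj,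
      finrank_top] at h1
    omega
  have hle : ∀ χ' ∈ s, mult ρV χ' ≤ mult ρU χ' + mult ρW χ' := fun χ' _ =>
    mult_le_of_exact hf hg hinj hker.ge χ'
  have hsum : ∑ χ' ∈ s, mult ρV χ' = ∑ χ' ∈ s, (mult ρU χ' + mult ρW χ') := by
    rw [Finset.sum_add_distrib, hsU, hsV, hsW, hdim]
  exact (Finset.sum_eq_sum_iff_of_le hle).1 hsum χ (by simp [hs])

/-- **Systems of eigenvalues in exact sequences.** -/
theorem Sys_exact {f : U →ₗ[K] V} {g : V →ₗ[K] W} (hf : ∀ r u, f (ρU r u) = ρV r (f u))
    (hg : ∀ r v, g (ρV r v) = ρW r (g v)) (hinj : Function.Injective f)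
    (hsurj : Function.Surjective g) (hker : LinearMap.range f = LinearMap.ker g) :
    Sys ρV = Sys ρU + Sys ρW := by
  classical
  rw [Multiset.ext]
  intro χ
  have h := mult_add_of_exact hf hg hinj hsurj hker χ
  rw [← count_Sys, ← count_Sys, ← count_Sys] at h
  rw [Multiset.count_add]
  convert h

end Maps

/-! ### Stable subspaces -/

section Stable

/-- the action on a stable subspace -/
def subRep (ρ : R →+* Module.End K V) (W : Submodule K V) (hW : ∀ r, ∀ v ∈ W, ρ r v ∈ W) :
    R →+* Module.End K W where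
  toFun r := (ρ r).restrict (hW r)
  map_one' := by
    ext v
    simp
  map_mul' r s := by
    ext v
    simp
  map_zero' := by
    ext v
    simp
  map_add' r s := by
    ext v
    simp

theorem subRep_apply (ρ : R →+* Module.End K V) (W : Submodule K V)
    (hW : ∀ r, ∀ v ∈ W, ρ r v ∈ W) (r : R) (v : W) : (subRep ρ W hW r v : V) = ρ r v := rfl

/-- the action on the quotient by a stable subspace -/
def quotRep (ρ : R →+* Module.End K V) (W : Submodule K V) (hW : ∀ r, ∀ v ∈ W, ρ r v ∈ W) :
    R →+* Module.End K (V ⧸ W) where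
  toFun r := W.mapQ W (ρ r) (hW r)
  map_one' := by
    ext v
    simp
  map_mul' r s := by
    ext v
    simp
  map_zero' := by
    ext v
    simp
  map_add' r s := by
    ext v
    simp

theorem quotRep_mk (ρ : R →+* Module.End K V) (W : Submodule K V)
    (hW : ∀ r, ∀ v ∈ W, ρ r v ∈ W) (r : R) (v : V) :
    quotRep ρ W hW r (Submodule.Quotient.mk v) = Submodule.Quotient.mk (ρ r v) := rfl

theorem Sys_sub_add_quot [IsAlgClosed K] [FiniteDimensional K V] (ρ : R →+* Module.End K V)
    (W : Submodule K V) (hW : ∀ r, ∀ v ∈ W, ρ r v ∈ W) :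
    Sys ρ = Sys (subRep ρ W hW) + Sys (quotRep ρ W hW) :=
  Sys_exact (f := W.subtype) (g := W.mkQ) (fun _ _ => rfl) (fun _ _ => rfl)
    W.injective_subtype W.mkQ_surjective (by rw [Submodule.range_subtype, Submodule.ker_mkQ])

theorem mult_subRep [FiniteDimensional K V] (ρ : R →+* Module.End K V) (W : Submodule K V)
    (hW : ∀ r, ∀ v ∈ W, ρ r v ∈ W) (χ : R →+* K) :
    mult (subRep ρ W hW) χ = finrank K (W ⊓ gs ρ χ : Submodule K V) := by
  unfold mult
  rw [← finrank_map_inj W.injective_subtype (gs (subRep ρ W hW) χ),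
    map_gs_of_injective (ρU := subRep ρ W hW) (ρV := ρ) (f := W.subtype) (fun _ _ => rfl)
      W.injective_subtype, Submodule.range_subtype]

/-- the sum of the generalised eigenspaces of the systems in `S` -/
def part (ρ : R →+* Module.End K V) (S : Set (R →+* K)) : Submodule K V :=
  ⨆ χ ∈ S, gs ρ χ

theorem map_mem_part {ρ : R →+* Module.End K V} {S : Set (R →+* K)} {g : Module.End K V}
    (hg : ∀ r, Commute (ρ r) g) {v : V} (hv : v ∈ part ρ S) : g v ∈ part ρ S := by
  have h : part ρ S ≤ (part ρ S).comap g := by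
    refine iSup₂_le fun χ hχ v hv => ?_
    have h1 : gs ρ χ ≤ part ρ S := le_iSup₂_of_le (f := fun χ (_ : χ ∈ S) => gs ρ χ) χ hχ le_rfl
    exact h1 (map_mem_gs hg hv)
  exact h hv

theorem smul_mem_part (ρ : R →+* Module.End K V) (S : Set (R →+* K)) (r : R) :
    ∀ v ∈ part ρ S, ρ r v ∈ part ρ S := fun _ hv =>
  map_mem_part (fun s => commute ρ s r) hv

theorem part_inf_gs_of_mem {ρ : R →+* Module.End K V} {S : Set (R →+* K)} {χ : R →+* K}
    (hχ : χ ∈ S) : part ρ S ⊓ gs ρ χ = gs ρ χ :=
  inf_eq_right.2 (le_iSup₂_of_le (f := fun χ (_ : χ ∈ S) => gs ρ χ) χ hχ le_rfl)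

theorem part_inf_gs_of_notMem {ρ : R →+* Module.End K V} {S : Set (R →+* K)} {χ : R →+* K}
    (hχ : χ ∉ S) : part ρ S ⊓ gs ρ χ = ⊥ := by
  rw [inf_comm]
  refine ((iSupIndep_gs ρ χ).mono_right (iSup₂_le fun χ' hχ' => ?_)).eq_bot
  exact le_iSup₂_of_le (f := fun χ' (_ : χ' ≠ χ) => gs ρ χ') χ' (fun h => hχ (h ▸ hχ')) le_rfl

open Classical in
theorem Sys_part [FiniteDimensional K V] (ρ : R →+* Module.End K V) (S : Set (R →+* K)) :
    Sys (subRep ρ (part ρ S) (smul_mem_part ρ S)) = (Sys ρ).filter (· ∈ S) := by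
  rw [Multiset.ext]
  intro χ
  rw [count_Sys, mult_subRep, Multiset.count_filter, count_Sys]
  by_cases hχ : χ ∈ S
  · rw [part_inf_gs_of_mem hχ, if_pos hχ]
    rfl
  · rw [part_inf_gs_of_notMem hχ, if_neg hχ, finrank_bot]

theorem card_filter_sum {α : Type*} (s : Finset α) (n : α → ℕ) (p : α → Prop)
    [DecidablePred p] : ((∑ a ∈ s, Multiset.replicate (n a) a).filter p).card =
      ∑ a ∈ s.filter p, n a := by
  classical
  induction s using Finset.induction_on with
  | empty => simp
  | insert a s ha ih =>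
    rw [Finset.sum_insert ha, Multiset.filter_add, Multiset.card_add, ih, Finset.filter_insert]
    by_cases h : p a
    · rw [if_pos h, Finset.sum_insert (by simp [ha]), Multiset.filter_eq_self.2,
        Multiset.card_replicate]
      intro b hb
      rw [Multiset.eq_of_mem_replicate hb]
      exact h
    · rw [if_neg h, Multiset.filter_eq_nil.2, Multiset.card_zero, zero_add]
      intro b hb
      rw [Multiset.eq_of_mem_replicate hb]
      exact h

open Classical in
theorem card_filter_Sys [FiniteDimensional K V] (ρ : R →+* Module.End K V) (S : Set (R →+* K)) :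
    ((Sys ρ).filter (· ∈ S)).card = finrank K (part ρ S) := by
  rw [part, finrank_iSup_subset (iSupIndep_gs ρ), Sys, card_filter_sum,
    finsum_mem_eq_sum_of_inter_support_eq
      (t := (finite_mult ρ).toFinset.filter (· ∈ S))]
  · rfl
  · ext χ
    simp only [Set.mem_inter_iff, Function.mem_support, Finset.coe_filter,
      Set.Finite.mem_toFinset, Set.mem_ofPred_eq]
    constructor
    · rintro ⟨h1, h2⟩
      exact ⟨⟨h2, h1⟩, h2⟩
    · rintro ⟨⟨h1, h2⟩, h3⟩
      exact ⟨h2, h3⟩

end Stable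

section Closed

variable [IsAlgClosed K] [FiniteDimensional K V] (ρ : R →+* Module.End K V)

/-- a coarser decomposition -/
theorem eq_part_of_refine {β : Type*} {M : β → Submodule K V} (hM : iSupIndep M)
    {π : (R →+* K) → β} (h : ∀ χ, gs ρ χ ≤ M (π χ)) (b : β) : M b = part ρ {χ | π χ = b} :=
  eq_iSup_of_refine (N := gs ρ) (M := M) (π := π) h hM (iSup_gs ρ) b

/-- the eigenvalues of one operator -/
theorem roots_charpoly (r : R) : (ρ r).charpoly.roots = (Sys ρ).map (fun χ => χ r) := by
  classical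
  rw [Multiset.ext]
  intro a
  rw [Polynomial.count_roots, ← LinearMap.finrank_maxGenEigenspace_eq,
    eq_part_of_refine ρ (M := fun a => (ρ r).maxGenEigenspace a)
      (ρ r).independent_maxGenEigenspace (π := fun χ => χ r) (fun χ => iInf_le _ r) a,
    ← card_filter_Sys, Multiset.count_map]
  congr 1
  refine Multiset.filter_congr fun χ _ => ?_
  simp [eq_comm]

/-- the systems of eigenvalues for a ring of operators which is mapped to `R` -/
theorem Sys_comp {R₀ : Type*} [CommRing R₀] (φ : R₀ →+* R) :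
    Sys (ρ.comp φ) = (Sys ρ).map (fun χ => χ.comp φ) := by
  classical
  rw [Multiset.ext]
  intro χ₀
  rw [count_Sys, mult, eq_part_of_refine ρ (M := gs (ρ.comp φ)) (iSupIndep_gs (ρ.comp φ))
    (π := fun χ => χ.comp φ) (fun χ v hv => ?_) χ₀, ← card_filter_Sys, Multiset.count_map]
  · congr 1
    refine Multiset.filter_congr fun χ _ => ?_
    simp [eq_comm]
  · rw [mem_gs] at *
    exact fun r => hv (φ r)

end Closed

section Special

variable [FiniteDimensional K V] (ρ : R →+* Module.End K V)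

/-- scalar operators -/
theorem Sys_scalar {χ : R →+* K} (h : ∀ r, ρ r = χ r • (1 : Module.End K V)) :
    Sys ρ = Multiset.replicate (finrank K V) χ := by
  classical
  have h1 : gs ρ χ = ⊤ := by
    rw [eq_top_iff]
    intro v _
    exact mem_gs_of_eigenvector fun r => by rw [h r]; rfl
  rw [Multiset.ext]
  intro χ'
  rw [count_Sys, Multiset.count_replicate]
  by_cases hχ : χ = χ'
  · subst hχ
    rw [if_pos rfl, mult, h1, finrank_top]
  · rw [if_neg hχ]
    have h2 := (iSupIndep_gs ρ).pairwiseDisjoint hχ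
    rw [Function.onFun, h1] at h2
    rw [mult, top_disjoint.1 h2, finrank_bot]

theorem Sys_of_finrank_one {χ : R →+* K} (hV : finrank K V = 1)
    (h : ∀ r, ρ r = χ r • (1 : Module.End K V)) : Sys ρ = {χ} := by
  rw [Sys_scalar ρ h, hV, Multiset.replicate_one]

end Special

end Ring

end Gouvea.Sys
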