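import Pool.Agent.Work.MP_d3517d_nt.ES.CuspDec

/-!
# Periods of nice functions (MP_d3517d_nt, ES)

`E n f x z = ∫_z^x f(w) (X - w)^n dw` for a cusp `x` and a nice function `f` of weight `n + 2`, and
`sym n f x y = ∫_x^y f(w) (X - w)^n dw`, the modular symbol of `f`.
-/

open Filter Topology UpperHalfPlane Polynomial
open scoped MatrixGroups ModularForm

noncomputable section

namespace Gouvea.ES

open Pool.Agent.Gouv.ES

/-- a rational matrix of determinant `1` which moves `∞` to `x`. -/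
def cuspMat (x : OnePoint ℚ) : GQ :=
  Matrix.SpecialLinearGroup.mapGL ℚ (Classical.choose (OnePoint.exists_mem_SL2 ℤ x))

lemma cuspMat_smul (x : OnePoint ℚ) : cuspMat x • (OnePoint.infty : OnePoint ℚ) = x :=
  Classical.choose_spec (OnePoint.exists_mem_SL2 ℤ x)

lemma det_cuspMat (x : OnePoint ℚ) : 0 < (cuspMat x).det.val := detQ_mapGL _

/-- the primitive attached to the matrix `g`. -/
def Eat (n : ℕ) (f : ℍ → ℂ) (g : GQ) (z : ℂ) : ℂ[X] :=
  act n (toR g)⁻¹ (prim n (fun w => (f ∣[((n + 2 : ℕ) : ℤ)] toR g) (ofComplex w))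
    (mob (toR g)⁻¹ z))

/-- `∫_z^x f(w) (X - w)^n dw` -/
def E (n : ℕ) (f : ℍ → ℂ) (x : OnePoint ℚ) (z : ℂ) : ℂ[X] := Eat n f (cuspMat x) z

/-- **the modular symbol of `f`**: `∫_x^y f(w) (X - w)^n dw` -/
def sym (n : ℕ) (f : ℍ → ℂ) (x y : OnePoint ℚ) : ℂ[X] := E n f y Complex.I - E n f x Complex.I

variable {n : ℕ} {f g : ℍ → ℂ}

lemma natDegree_Eat_le (n : ℕ) (f : ℍ → ℂ) (g : GQ) (z : ℂ) : (Eat n f g z).natDegree ≤ n :=
  natDegree_act_le n _ _

lemma natDegree_E_le (n : ℕ) (f : ℍ → ℂ) (x : OnePoint ℚ) (z : ℂ) : (E n f x z).natDegree ≤ n :=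
  natDegree_act_le n _ _

theorem natDegree_sym_le (n : ℕ) (f : ℍ → ℂ) (x y : OnePoint ℚ) : (sym n f x y).natDegree ≤ n :=
  (natDegree_sub_le _ _).trans (max_le (natDegree_E_le _ _ _ _) (natDegree_E_le _ _ _ _))

/-- `Eat` is a primitive. -/
theorem isPrim_Eat (hf : Nice ((n + 2 : ℕ) : ℤ) f) {a : GQ} (ha : 0 < a.det.val) :
    IsPrim n (fun z => f (ofComplex z)) (Eat n f a) := by
  have hR := toR_det_pos ha
  refine ((hf.dec_slash ha).isPrim n).slash (toR a)⁻¹ (det_inv_pos hR) fun z hz => ?_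
  rw [← slash_ofComplex n _ (det_inv_pos hR) hz, ← SlashAction.slash_mul, mul_inv_cancel,
    SlashAction.slash_one]

theorem isPrim_E (hf : Nice ((n + 2 : ℕ) : ℤ) f) (x : OnePoint ℚ) :
    IsPrim n (fun z => f (ofComplex z)) (E n f x) := isPrim_Eat hf (det_cuspMat x)

/-- changing the matrix by an upper triangular matrix. -/
theorem Eat_mul (hf : Nice ((n + 2 : ℕ) : ℤ) f) {a u : GQ} (ha : 0 < a.det.val)
    (hu : 0 < u.det.val) (h10 : u 1 0 = 0) {z : ℂ} (hz : 0 < z.im) :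
    Eat n f (a * u) z = Eat n f a z := by
  have haR := toR_det_pos ha
  have huR := toR_det_pos hu
  have h10' : (toR u) 1 0 = 0 := by rw [toR_apply, h10]; simp
  have hz' : 0 < (mob (toR (a * u))⁻¹ z).im := mob_im_pos (det_inv_pos (toR_det_pos
    (detQ_mul_pos ha hu))) hz
  have key := prim_slash (n := n) (hf.dec_slash ha) (hf.dec_slash (detQ_mul_pos ha hu)) (toR u) huR
    h10' (fun z hz => by
      rw [map_mul, SlashAction.slash_mul, slash_ofComplex n _ huR hz]) hz'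
  rw [Eat, key, map_mul, mul_inv_rev]
  rw [act_mul, act_inv_act n (toR u) (natDegree_prim_le _ _ _)]
  rw [mob_mul _ _ hz, mob_mob_inv (toR u) (mob_im_pos (det_inv_pos haR) hz)]
  rfl

/-- **`E` may be computed with every matrix.** -/
theorem E_eq (hf : Nice ((n + 2 : ℕ) : ℤ) f) {a : GQ} (ha : 0 < a.det.val) {x : OnePoint ℚ}
    (hx : a • (OnePoint.infty : OnePoint ℚ) = x) {z : ℂ} (hz : 0 < z.im) :
    E n f x z = Eat n f a z := by
  have h1 : cuspMat x = a * (a⁻¹ * cuspMat x) := by group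
  have h2 : (a⁻¹ * cuspMat x) • (OnePoint.infty : OnePoint ℚ) = OnePoint.infty := by
    rw [mul_smul, cuspMat_smul, ← hx, inv_smul_smul]
  rw [E, h1]
  exact Eat_mul hf ha (detQ_mul_pos (detQ_inv_pos ha) (det_cuspMat x))
    (OnePoint.smul_infty_eq_self_iff.1 h2) hz

/-- `E` at the cusp `∞`. -/
theorem E_infty (hf : Nice ((n + 2 : ℕ) : ℤ) f) {z : ℂ} (hz : 0 < z.im) :
    E n f OnePoint.infty z = prim n (fun w => f (ofComplex w)) z := by
  rw [E_eq hf (a := 1) (by simp) (one_smul _ _) hz, Eat, map_one, inv_one, mob_one,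
    SlashAction.slash_one, act_one n (natDegree_prim_le _ _ _)]

/-- `E` moved to the cusp `∞`. -/
theorem act_E (hf : Nice ((n + 2 : ℕ) : ℤ) f) {a : GQ} (ha : 0 < a.det.val) {z : ℂ}
    (hz : 0 < z.im) : act n (toR a) (E n f (a • OnePoint.infty) (mob (toR a) z)) =
      prim n (fun w => (f ∣[((n + 2 : ℕ) : ℤ)] toR a) (ofComplex w)) z := by
  have hR := toR_det_pos ha
  rw [E_eq hf ha rfl (mob_im_pos hR hz), Eat, act_act_inv n _ (natDegree_prim_le _ _ _),
    mob_inv_mob _ hz]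

/-- `E` vanishes at the cusp. -/
theorem tendsto_act_E (hf : Nice ((n + 2 : ℕ) : ℤ) f) {a : GQ} (ha : 0 < a.det.val) (z : ℂ)
    (j : ℕ) : Tendsto (fun t : ℝ => (act n (toR a) (E n f (a • OnePoint.infty)
      (mob (toR a) (z + t * Complex.I)))).coeff j) atTop (𝓝 0) := by
  refine ((hf.dec_slash ha).tendsto_prim n j z).congr' ?_
  filter_upwards [eventually_gt_atTop (-z.im)] with t ht
  rw [act_E hf ha (by rw [add_mul_I_im]; linarith)]

/-- **equivariance of `E`.** -/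
theorem E_slash (hf : Nice ((n + 2 : ℕ) : ℤ) f) {a : GQ} (ha : 0 < a.det.val) (x : OnePoint ℚ)
    {z : ℂ} (hz : 0 < z.im) :
    E n (f ∣[((n + 2 : ℕ) : ℤ)] toR a) x z = act n (toR a) (E n f (a • x) (mob (toR a) z)) := by
  have hR := toR_det_pos ha
  have hx : (a * cuspMat x) • (OnePoint.infty : OnePoint ℚ) = a • x := by
    rw [mul_smul, cuspMat_smul]
  rw [E_eq hf (detQ_mul_pos ha (det_cuspMat x)) hx (mob_im_pos hR hz), E, Eat, Eat]
  rw [← SlashAction.slash_mul, ← map_mul, ← act_mul, ← mob_mul _ _ hz]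
  congr 2
  · rw [map_mul]; group
  · rw [map_mul]; group

/-! ### The symbol -/

/-- the symbol does not depend on the base point. -/
theorem sym_eq (hf : Nice ((n + 2 : ℕ) : ℤ) f) (x y : OnePoint ℚ) {z : ℂ} (hz : 0 < z.im) :
    sym n f x y = E n f y z - E n f x z :=
  (isPrim_E hf y).sub_const (isPrim_E hf x) (by simp) hz

@[simp] lemma sym_self (n : ℕ) (f : ℍ → ℂ) (x : OnePoint ℚ) : sym n f x x = 0 := by
  simp [sym]

lemma sym_add_sym (n : ℕ) (f : ℍ → ℂ) (x y z : OnePoint ℚ) :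
    sym n f x y + sym n f y z = sym n f x z := by
  simp [sym]

lemma sym_symm (n : ℕ) (f : ℍ → ℂ) (x y : OnePoint ℚ) : sym n f x y = -sym n f y x := by
  simp [sym]

lemma Eat_add (hf : Nice ((n + 2 : ℕ) : ℤ) f) (hg : Nice ((n + 2 : ℕ) : ℤ) g) {a : GQ}
    (ha : 0 < a.det.val) {z : ℂ} (hz : 0 < z.im) :
    Eat n (f + g) a z = Eat n f a z + Eat n g a z := by
  rw [Eat, Eat, Eat, ← map_add, SlashAction.add_slash]
  congr 1
  exact prim_add n (hf.dec_slash ha) (hg.dec_slash ha) (mob_im_pos (det_inv_pos (toR_det_pos ha)) hz)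

lemma Eat_smul (n : ℕ) (f : ℍ → ℂ) {a : GQ} (ha : 0 < a.det.val) (c z : ℂ) :
    Eat n (c • f) a z = C c * Eat n f a z := by
  rw [Eat, Eat, Nice.smul_slash_pos (toR_det_pos ha)]
  have := prim_const_mul n (fun w => (f ∣[((n + 2 : ℕ) : ℤ)] toR a) (ofComplex w)) c
    (mob (toR a)⁻¹ z)
  rw [← smul_eq_C_mul, ← map_smul, smul_eq_C_mul, ← this]
  rfl

theorem sym_add (hf : Nice ((n + 2 : ℕ) : ℤ) f) (hg : Nice ((n + 2 : ℕ) : ℤ) g)
    (x y : OnePoint ℚ) : sym n (f + g) x y = sym n f x y + sym n g x y := by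
  rw [sym, sym, sym, E, E, E, E, E, E, Eat_add hf hg (det_cuspMat x) (by simp),
    Eat_add hf hg (det_cuspMat y) (by simp)]
  ring

theorem sym_smul (n : ℕ) (f : ℍ → ℂ) (c : ℂ) (x y : OnePoint ℚ) :
    sym n (c • f) x y = c • sym n f x y := by
  rw [sym, sym, E, E, E, E, Eat_smul n f (det_cuspMat x), Eat_smul n f (det_cuspMat y),
    smul_eq_C_mul]
  ring

lemma sym_zero (n : ℕ) (x y : OnePoint ℚ) : sym n 0 x y = 0 := by
  have := sym_smul n 0 0 x y
  rwa [zero_smul, zero_smul] at this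

lemma sym_neg (n : ℕ) (f : ℍ → ℂ) (x y : OnePoint ℚ) : sym n (-f) x y = -sym n f x y := by
  have h : -f = (-1 : ℂ) • f := by
    ext z
    simp
  rw [h, sym_smul]
  ext j
  simp

lemma sym_sub (hf : Nice ((n + 2 : ℕ) : ℤ) f) (hg : Nice ((n + 2 : ℕ) : ℤ) g)
    (x y : OnePoint ℚ) : sym n (f - g) x y = sym n f x y - sym n g x y := by
  rw [sub_eq_add_neg, sym_add hf hg.neg, sym_neg, sub_eq_add_neg]

theorem sym_sum {ι : Type*} (s : Finset ι) {F : ι → ℍ → ℂ}
    (hF : ∀ i ∈ s, Nice ((n + 2 : ℕ) : ℤ) (F i)) (x y : OnePoint ℚ) :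
    sym n (∑ i ∈ s, F i) x y = ∑ i ∈ s, sym n (F i) x y := by
  classical
  induction s using Finset.induction_on with
  | empty => simp [sym_zero]
  | insert i s hi ih =>
    rw [Finset.sum_insert hi, Finset.sum_insert hi, sym_add (hF i (Finset.mem_insert_self _ _))
      (Nice.sum s fun j hj => hF j (Finset.mem_insert_of_mem hj)),
      ih fun j hj => hF j (Finset.mem_insert_of_mem hj)]

/-- **equivariance of the symbol under `GL₂⁺(ℚ)`.** -/
theorem sym_slash (hf : Nice ((n + 2 : ℕ) : ℤ) f) {a : GQ} (ha : 0 < a.det.val)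
    (x y : OnePoint ℚ) : sym n (f ∣[((n + 2 : ℕ) : ℤ)] toR a) x y =
      slashM n (matOf ℂ a) (sym n f (a • x) (a • y)) := by
  have hI : 0 < Complex.I.im := by simp
  rw [sym_eq (hf.slash ha) x y hI, sym_eq hf (a • x) (a • y)
    (mob_im_pos (toR_det_pos ha) hI), ← act_toR, map_sub, E_slash hf ha x hI, E_slash hf ha y hI]

/-- the symbol of an invariant function. -/
theorem sym_invariant (hf : Nice ((n + 2 : ℕ) : ℤ) f) {a : GQ} (ha : 0 < a.det.val)
    (hfa : f ∣[((n + 2 : ℕ) : ℤ)] toR a = f) (x y : OnePoint ℚ) :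
    slashM n (matOf ℂ a) (sym n f (a • x) (a • y)) = sym n f x y := by
  rw [← sym_slash hf ha, hfa]

lemma act_toR_inv (n : ℕ) (a : GQ) (P : ℂ[X]) :
    act n (toR a)⁻¹ P = slashM n (matOf ℂ a⁻¹) P := by
  rw [← map_inv, act_toR]

theorem sym_invariant' (hf : Nice ((n + 2 : ℕ) : ℤ) f) {a : GQ} (ha : 0 < a.det.val)
    (hfa : f ∣[((n + 2 : ℕ) : ℤ)] toR a = f) (x y : OnePoint ℚ) :
    sym n f (a • x) (a • y) = slashM n (matOf ℂ a⁻¹) (sym n f x y) := by
  rw [← sym_invariant hf ha hfa x y, ← act_toR, ← act_toR, map_inv,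
    act_inv_act n _ (natDegree_sym_le _ _ _ _)]

/-- the value of the symbol from a finite cusp to `∞`, as a limit of vertical integrals. -/
theorem sym_to_infty (hf : Nice ((n + 2 : ℕ) : ℤ) f) (x : OnePoint ℚ) {z : ℂ} (hz : 0 < z.im) :
    sym n f x OnePoint.infty = prim n (fun w => f (ofComplex w)) z - E n f x z := by
  rw [sym_eq hf x _ hz, E_infty hf hz]

/-- the symbol as a linear map on the cusp forms. -/
def symL (n : ℕ) {Γ : Subgroup (GL (Fin 2) ℝ)} [Γ.IsArithmetic] [Γ.HasDetOne] (x y : OnePoint ℚ) :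
    CuspForm Γ ((n + 2 : ℕ) : ℤ) →ₗ[ℂ] ℂ[X] where
  toFun f := sym n f x y
  map_add' f g := sym_add (nice_of_cuspForm f) (nice_of_cuspForm g) x y
  map_smul' c f := sym_smul n f c x y

end Gouvea.ES
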