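import Mathlib

/-!
# Stokes on the standard domain of SL2(Z) for functions of weight (0,2)

`stokes_strip`: if `Φ` is `C^1` on the upper half plane, `Φ (z+1) = Φ z` and
`Φ (-1/z) = (conj z)^2 Φ z`, the integral of `2 dΦ/dz` over the truncated standard domain
is `- i` times the integral of `Φ` over the top side.
`zero_of_stokes`: if moreover `Φ` tends to `0` at `i oo` and `2 dΦ/dz = c h` with `h >= 0`,
then `h = 0` on the standard domain.
-/

open MeasureTheory intervalIntegral Complex Set Filter Topology Interval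

namespace H6ES

/-- the lower arc of the standard domain -/
noncomputable def arc (x : ℝ) : ℝ := Real.sqrt (1 - x ^ 2)

/-- its derivative -/
noncomputable def arc' (x : ℝ) : ℝ := -x / arc x

theorem arc_pos {x : ℝ} (hx : |x| < 1) : 0 < arc x := by
  unfold arc
  apply Real.sqrt_pos.mpr
  have : x ^ 2 < 1 := by
    rw [← sq_abs]
    have := abs_nonneg x
    nlinarith
  linarith

theorem arc_sq {x : ℝ} (hx : |x| ≤ 1) : arc x ^ 2 = 1 - x ^ 2 := by
  unfold arc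
  apply Real.sq_sqrt
  have : x ^ 2 ≤ 1 := by
    rw [← sq_abs]
    have := abs_nonneg x
    nlinarith
  linarith

theorem arc_le_one (x : ℝ) : arc x ≤ 1 := by
  unfold arc
  rw [Real.sqrt_le_one]
  nlinarith [sq_nonneg x]

theorem arc_neg (x : ℝ) : arc (-x) = arc x := by
  unfold arc
  simp

theorem hasDerivAt_arc {x : ℝ} (hx : |x| < 1) : HasDerivAt arc (arc' x) x := by
  have h0 := arc_pos hx
  have h1 : HasDerivAt (fun y : ℝ => 1 - y ^ 2) (-(2 * x)) x := by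
    have := (hasDerivAt_pow 2 x).const_sub 1
    simpa using this
  have hne : (1 - x ^ 2) ≠ 0 := by
    have := Real.sqrt_pos.mp h0
    exact this.ne'
  have h2 := h1.sqrt hne
  have h3 : arc' x = -(2 * x) / (2 * Real.sqrt (1 - x ^ 2)) := by
    unfold arc'
    change -x / Real.sqrt (1 - x ^ 2) = _
    have : Real.sqrt (1 - x ^ 2) ≠ 0 := h0.ne'
    field_simp
  rw [h3]
  exact h2

theorem differentiableAt_arc' {x : ℝ} (hx : |x| < 1) : DifferentiableAt ℝ arc' x := by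
  unfold arc'
  apply DifferentiableAt.div
  · exact differentiableAt_id.neg
  · exact (hasDerivAt_arc hx).differentiableAt
  · exact (arc_pos hx).ne'

/-- the parametrisation of the truncated domain by a rectangle -/
noncomputable def par (Y : ℝ) (q : ℝ × ℝ) : ℂ :=
  (q.1 : ℂ) + ((arc q.1 + q.2 * (Y - arc q.1) : ℝ) : ℂ) * I

theorem par_im (Y : ℝ) (q : ℝ × ℝ) : (par Y q).im = arc q.1 + q.2 * (Y - arc q.1) := by
  simp [par]

theorem par_re (Y : ℝ) (q : ℝ × ℝ) : (par Y q).re = q.1 := by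
  simp [par]

theorem par_im_pos {Y : ℝ} (hY : 1 < Y) {q : ℝ × ℝ} (h1 : |q.1| < 1) (h2 : 0 ≤ q.2) :
    0 < (par Y q).im := by
  rw [par_im]
  have := arc_pos h1
  have := arc_le_one q.1
  nlinarith [mul_nonneg h2 (by linarith : (0:ℝ) ≤ Y - arc q.1)]

theorem hasDerivAt_par_x (Y : ℝ) {x s : ℝ} (hx : |x| < 1) :
    HasDerivAt (fun t => par Y (t, s)) (1 + ((arc' x * (1 - s) : ℝ) : ℂ) * I) x := by
  unfold par
  have h1 : HasDerivAt (fun t : ℝ => (t : ℂ)) 1 x := Complex.ofRealCLM.hasDerivAt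
  have h2 : HasDerivAt (fun t : ℝ => arc t + s * (Y - arc t)) (arc' x * (1 - s)) x := by
    have ha := hasDerivAt_arc hx
    have := ha.add ((ha.const_sub Y).const_mul s)
    have e : arc' x * (1 - s) = arc' x + s * -arc' x := by ring
    rw [e]
    exact this
  have h3 := (h2.ofReal_comp).mul_const I
  exact h1.add h3

theorem hasDerivAt_par_s (Y : ℝ) (x s : ℝ) :
    HasDerivAt (fun t => par Y (x, t)) (((Y - arc x : ℝ) : ℂ) * I) s := by
  unfold par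
  have h2 : HasDerivAt (fun t : ℝ => arc x + t * (Y - arc x)) (Y - arc x) s := by
    have := ((hasDerivAt_id s).mul_const (Y - arc x)).const_add (arc x)
    simpa using this
  have h3 := (h2.ofReal_comp).mul_const I
  simpa using h3.const_add (x : ℂ)

theorem differentiableAt_par (Y : ℝ) {q : ℝ × ℝ} (hx : |q.1| < 1) :
    DifferentiableAt ℝ (par Y) q := by
  unfold par
  have ha : DifferentiableAt ℝ (fun q : ℝ × ℝ => arc q.1) q :=
    (hasDerivAt_arc hx).differentiableAt.comp q differentiableAt_fst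
  have hr : DifferentiableAt ℝ (fun q : ℝ × ℝ => arc q.1 + q.2 * (Y - arc q.1)) q :=
    ha.add (differentiableAt_snd.mul (ha.const_sub Y))
  have h1 : DifferentiableAt ℝ (fun q : ℝ × ℝ => (q.1 : ℂ)) q :=
    Complex.ofRealCLM.differentiableAt.comp q differentiableAt_fst
  have h2 : DifferentiableAt ℝ
      (fun q : ℝ × ℝ => ((arc q.1 + q.2 * (Y - arc q.1) : ℝ) : ℂ)) q :=
    Complex.ofRealCLM.differentiableAt.comp q hr
  exact h1.add (h2.mul_const I)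

section main

variable (Φ : ℂ → ℂ) (Φ' : ℂ → ℂ →L[ℝ] ℂ) (Y : ℝ)

/-- first component of the vector field -/
noncomputable def fld1 (q : ℝ × ℝ) : ℂ := Φ (par Y q) * ((Y - arc q.1 : ℝ) : ℂ)

/-- second component of the vector field -/
noncomputable def fld2 (q : ℝ × ℝ) : ℂ :=
  -(Φ (par Y q) * ((arc' q.1 * (1 - q.2) : ℝ) : ℂ)) - I * Φ (par Y q)

variable {Φ Φ' Y}

theorem diff_comp (hd : ∀ z : ℂ, 0 < z.im → HasFDerivAt Φ (Φ' z) z) (hY : 1 < Y)
    {q : ℝ × ℝ} (h1 : |q.1| < 1) (h2 : 0 ≤ q.2) :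
    DifferentiableAt ℝ (fun q => Φ (par Y q)) q :=
  (hd _ (par_im_pos hY h1 h2)).differentiableAt.comp q (differentiableAt_par Y h1)

theorem diff_fld1 (hd : ∀ z : ℂ, 0 < z.im → HasFDerivAt Φ (Φ' z) z) (hY : 1 < Y)
    {q : ℝ × ℝ} (h1 : |q.1| < 1) (h2 : 0 ≤ q.2) :
    DifferentiableAt ℝ (fld1 Φ Y) q := by
  unfold fld1
  have ha : DifferentiableAt ℝ (fun q : ℝ × ℝ => Y - arc q.1) q :=
    ((hasDerivAt_arc h1).differentiableAt.comp q differentiableAt_fst).const_sub Y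
  exact (diff_comp hd hY h1 h2).mul (Complex.ofRealCLM.differentiableAt.comp q ha)

theorem diff_fld2 (hd : ∀ z : ℂ, 0 < z.im → HasFDerivAt Φ (Φ' z) z) (hY : 1 < Y)
    {q : ℝ × ℝ} (h1 : |q.1| < 1) (h2 : 0 ≤ q.2) :
    DifferentiableAt ℝ (fld2 Φ Y) q := by
  unfold fld2
  have ha : DifferentiableAt ℝ (fun q : ℝ × ℝ => arc' q.1 * (1 - q.2)) q :=
    ((differentiableAt_arc' h1).comp q differentiableAt_fst).mul
      (differentiableAt_snd.const_sub 1)
  exact (((diff_comp hd hY h1 h2).mul (Complex.ofRealCLM.differentiableAt.comp q ha)).neg).sub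
    ((diff_comp hd hY h1 h2).const_mul I)

theorem fderiv_fld1 (hd : ∀ z : ℂ, 0 < z.im → HasFDerivAt Φ (Φ' z) z) (hY : 1 < Y)
    {q : ℝ × ℝ} (h1 : |q.1| < 1) (h2 : 0 ≤ q.2) :
    fderiv ℝ (fld1 Φ Y) q (1, 0) =
      Φ' (par Y q) (1 + ((arc' q.1 * (1 - q.2) : ℝ) : ℂ) * I) * ((Y - arc q.1 : ℝ) : ℂ)
        - Φ (par Y q) * ((arc' q.1 : ℝ) : ℂ) := by
  have hF := (diff_fld1 hd hY h1 h2).hasFDerivAt
  have hl : HasDerivAt (fun t : ℝ => ((t, q.2) : ℝ × ℝ)) ((1 : ℝ), (0 : ℝ)) q.1 :=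
    (hasDerivAt_id q.1).prodMk (hasDerivAt_const q.1 q.2)
  have hF' : HasFDerivAt (fld1 Φ Y) (fderiv ℝ (fld1 Φ Y) q)
      ((fun t : ℝ => ((t, q.2) : ℝ × ℝ)) q.1) := hF
  have hA : HasDerivAt (fun t : ℝ => fld1 Φ Y (t, q.2)) (fderiv ℝ (fld1 Φ Y) q (1, 0)) q.1 := by
    have := hF'.comp_hasDerivAt q.1 hl
    exact this
  have hP : HasDerivAt (fun t : ℝ => Φ (par Y (t, q.2)))
      (Φ' (par Y q) (1 + ((arc' q.1 * (1 - q.2) : ℝ) : ℂ) * I)) q.1 :=
    (hd _ (par_im_pos hY h1 h2)).comp_hasDerivAt q.1 (hasDerivAt_par_x Y (s := q.2) h1)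
  have hB : HasDerivAt (fun t : ℝ => ((Y - arc t : ℝ) : ℂ)) (((-arc' q.1 : ℝ)) : ℂ) q.1 :=
    ((hasDerivAt_arc h1).const_sub Y).ofReal_comp
  have hC := hP.mul hB
  have := hA.unique hC
  rw [this]
  push_cast
  ring

theorem fderiv_fld2 (hd : ∀ z : ℂ, 0 < z.im → HasFDerivAt Φ (Φ' z) z) (hY : 1 < Y)
    {q : ℝ × ℝ} (h1 : |q.1| < 1) (h2 : 0 ≤ q.2) :
    fderiv ℝ (fld2 Φ Y) q (0, 1) =
      -(Φ' (par Y q) (((Y - arc q.1 : ℝ) : ℂ) * I) * ((arc' q.1 * (1 - q.2) : ℝ) : ℂ))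
        + Φ (par Y q) * ((arc' q.1 : ℝ) : ℂ)
        - I * Φ' (par Y q) (((Y - arc q.1 : ℝ) : ℂ) * I) := by
  have hF := (diff_fld2 hd hY h1 h2).hasFDerivAt
  have hl : HasDerivAt (fun t : ℝ => ((q.1, t) : ℝ × ℝ)) ((0 : ℝ), (1 : ℝ)) q.2 :=
    (hasDerivAt_const q.2 q.1).prodMk (hasDerivAt_id q.2)
  have hF' : HasFDerivAt (fld2 Φ Y) (fderiv ℝ (fld2 Φ Y) q)
      ((fun t : ℝ => ((q.1, t) : ℝ × ℝ)) q.2) := hF
  have hA : HasDerivAt (fun t : ℝ => fld2 Φ Y (q.1, t)) (fderiv ℝ (fld2 Φ Y) q (0, 1)) q.2 := by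
    have := hF'.comp_hasDerivAt q.2 hl
    exact this
  have hP : HasDerivAt (fun t : ℝ => Φ (par Y (q.1, t)))
      (Φ' (par Y q) (((Y - arc q.1 : ℝ) : ℂ) * I)) q.2 :=
    (hd _ (par_im_pos hY h1 h2)).comp_hasDerivAt q.2 (hasDerivAt_par_s Y q.1 q.2)
  have hB : HasDerivAt (fun t : ℝ => ((arc' q.1 * (1 - t) : ℝ) : ℂ)) (((-arc' q.1 : ℝ)) : ℂ)
      q.2 := by
    have : HasDerivAt (fun t : ℝ => arc' q.1 * (1 - t)) (-arc' q.1) q.2 := by
      have := ((hasDerivAt_id q.2).const_sub 1).const_mul (arc' q.1)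
      simpa using this
    exact this.ofReal_comp
  have hC := ((hP.mul hB).neg).sub (hP.const_mul I)
  have := hA.unique hC
  rw [this]
  push_cast
  ring

theorem div_fld (hd : ∀ z : ℂ, 0 < z.im → HasFDerivAt Φ (Φ' z) z) (hY : 1 < Y)
    {q : ℝ × ℝ} (h1 : |q.1| < 1) (h2 : 0 ≤ q.2) :
    fderiv ℝ (fld1 Φ Y) q (1, 0) + fderiv ℝ (fld2 Φ Y) q (0, 1) =
      ((Y - arc q.1 : ℝ) : ℂ) * (Φ' (par Y q) 1 - I * Φ' (par Y q) I) := by
  rw [fderiv_fld1 hd hY h1 h2, fderiv_fld2 hd hY h1 h2]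
  have e1 : Φ' (par Y q) (1 + ((arc' q.1 * (1 - q.2) : ℝ) : ℂ) * I) =
      Φ' (par Y q) 1 + ((arc' q.1 * (1 - q.2) : ℝ) : ℂ) * Φ' (par Y q) I := by
    rw [map_add]
    congr 1
    rw [← Complex.real_smul, map_smul, Complex.real_smul]
  have e2 : Φ' (par Y q) (((Y - arc q.1 : ℝ) : ℂ) * I) =
      ((Y - arc q.1 : ℝ) : ℂ) * Φ' (par Y q) I := by
    rw [← Complex.real_smul, map_smul, Complex.real_smul]
  rw [e1, e2]
  ring

theorem continuous_arc : Continuous arc := by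
  unfold arc
  exact Real.continuous_sqrt.comp (by fun_prop)

theorem continuous_par (Y : ℝ) : Continuous (par Y) := by
  unfold par
  have := continuous_arc
  fun_prop

theorem rect_mem {q : ℝ × ℝ} (hq : q ∈ [[-(1/2 : ℝ), 1/2]] ×ˢ [[(0 : ℝ), 1]]) :
    |q.1| < 1 ∧ 0 ≤ q.2 := by
  obtain ⟨h1, h2⟩ := hq
  rw [uIcc_of_le (by norm_num)] at h1 h2
  refine ⟨?_, h2.1⟩
  rw [abs_lt]
  constructor
  · linarith [h1.1]
  · linarith [h1.2]

theorem cont_div (hc : ContinuousOn Φ' {z : ℂ | 0 < z.im}) (hY : 1 < Y) :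
    ContinuousOn (fun q : ℝ × ℝ => ((Y - arc q.1 : ℝ) : ℂ) *
      (Φ' (par Y q) 1 - I * Φ' (par Y q) I)) ([[-(1/2 : ℝ), 1/2]] ×ˢ [[(0 : ℝ), 1]]) := by
  have h1 : ContinuousOn (fun q : ℝ × ℝ => Φ' (par Y q))
      ([[-(1/2 : ℝ), 1/2]] ×ˢ [[(0 : ℝ), 1]]) := by
    apply hc.comp (continuous_par Y).continuousOn
    intro q hq
    obtain ⟨a, b⟩ := rect_mem hq
    exact par_im_pos hY a b
  have h2 : Continuous (fun q : ℝ × ℝ => ((Y - arc q.1 : ℝ) : ℂ)) := by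
    have := continuous_arc
    fun_prop
  exact h2.continuousOn.mul ((h1.clm_apply continuousOn_const).sub
    (continuousOn_const.mul (h1.clm_apply continuousOn_const)))

theorem arc_rel {x : ℝ} (hx : |x| < 1) :
    (starRingEnd ℂ ((x : ℂ) + (arc x : ℂ) * I)) ^ 2 * (-(arc' x : ℂ) + I) =
      -((arc' x : ℂ) + I) := by
  have ha : (arc x : ℂ) ≠ 0 := by exact_mod_cast (arc_pos hx).ne'
  have hs : (arc x : ℂ) ^ 2 = 1 - (x : ℂ) ^ 2 := by exact_mod_cast arc_sq hx.le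
  have hI : I ^ 2 = -1 := I_sq
  have e : (arc' x : ℂ) = -(x : ℂ) / (arc x : ℂ) := by
    unfold arc'
    push_cast
    rfl
  rw [e]
  simp only [map_add, map_mul, conj_ofReal, conj_I]
  field_simp
  linear_combination ((x : ℂ) - (arc x : ℂ) * I) * hs +
    (-(x : ℂ) * (arc x : ℂ) ^ 2 + (arc x : ℂ) ^ 3 * I) * hI

theorem neg_inv_arc {x : ℝ} (hx : |x| < 1) :
    -1 / ((x : ℂ) + (arc x : ℂ) * I) = ((-x : ℝ) : ℂ) + (arc (-x) : ℂ) * I := by
  have hs : (arc x : ℂ) ^ 2 = 1 - (x : ℂ) ^ 2 := by exact_mod_cast arc_sq hx.le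
  have hI : I ^ 2 = -1 := I_sq
  have hne : (x : ℂ) + (arc x : ℂ) * I ≠ 0 := by
    intro h
    have := congrArg Complex.im h
    simp at this
    exact (arc_pos hx).ne' this
  rw [arc_neg, div_eq_iff hne]
  push_cast
  linear_combination hs - (arc x : ℂ) ^ 2 * hI

/-- the arc contributes nothing -/
theorem arc_int (hS : ∀ z : ℂ, 0 < z.im → Φ (-1 / z) = (starRingEnd ℂ z) ^ 2 * Φ z) :
    ∫ x in (-(1/2) : ℝ)..(1/2), Φ ((x : ℂ) + (arc x : ℂ) * I) * ((arc' x : ℂ) + I) = 0 := by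
  set h : ℝ → ℂ := fun x => Φ ((x : ℂ) + (arc x : ℂ) * I) * ((arc' x : ℂ) + I) with hh
  have hneg : ∀ x ∈ uIcc (-(1/2) : ℝ) (1/2), h (-x) = -h x := by
    intro x hx
    rw [uIcc_of_le (by norm_num)] at hx
    have hx1 : |x| < 1 := by
      rw [abs_lt]
      constructor
      · linarith [hx.1]
      · linarith [hx.2]
    have him : 0 < ((x : ℂ) + (arc x : ℂ) * I).im := by
      simp [arc_pos hx1]
    have h1 := hS _ him
    rw [neg_inv_arc hx1] at h1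
    have h2 := arc_rel hx1
    have h3 : (arc' (-x) : ℂ) = -(arc' x : ℂ) := by
      unfold arc'
      rw [arc_neg]
      push_cast
      ring
    simp only [hh]
    rw [h1, h3]
    linear_combination Φ ((x : ℂ) + (arc x : ℂ) * I) * h2
  have h1 : ∫ x in (-(1/2) : ℝ)..(1/2), h (-x) = ∫ x in (-(1/2) : ℝ)..(1/2), h x := by
    rw [intervalIntegral.integral_comp_neg]
    simp
  have h2 : ∫ x in (-(1/2) : ℝ)..(1/2), h (-x) = -∫ x in (-(1/2) : ℝ)..(1/2), h x := by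
    rw [← intervalIntegral.integral_neg]
    exact intervalIntegral.integral_congr hneg
  have h3 : (∫ x in (-(1/2) : ℝ)..(1/2), h x) = -∫ x in (-(1/2) : ℝ)..(1/2), h x := by
    rw [← h2, h1]
  have h4 : (2 : ℂ) * ∫ x in (-(1/2) : ℝ)..(1/2), h x = 0 := by
    linear_combination h3
  simpa using h4

/-- Stokes on the truncated standard domain -/
theorem stokes_strip (hd : ∀ z : ℂ, 0 < z.im → HasFDerivAt Φ (Φ' z) z)
    (hc : ContinuousOn Φ' {z : ℂ | 0 < z.im})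
    (hT : ∀ z : ℂ, 0 < z.im → Φ (z + 1) = Φ z)
    (hS : ∀ z : ℂ, 0 < z.im → Φ (-1 / z) = (starRingEnd ℂ z) ^ 2 * Φ z) (hY : 1 < Y) :
    ∫ x in (-(1/2) : ℝ)..(1/2), ∫ y in (arc x)..Y,
      (Φ' ((x : ℂ) + (y : ℂ) * I) 1 - I * Φ' ((x : ℂ) + (y : ℂ) * I) I) =
    -I * ∫ x in (-(1/2) : ℝ)..(1/2), Φ ((x : ℂ) + (Y : ℂ) * I) := by
  have hin : ∀ x : ℝ, ∫ y in (arc x)..Y,
      (Φ' ((x : ℂ) + (y : ℂ) * I) 1 - I * Φ' ((x : ℂ) + (y : ℂ) * I) I) =
      ∫ s in (0 : ℝ)..1, ((Y - arc x : ℝ) : ℂ) *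
        (Φ' (par Y (x, s)) 1 - I * Φ' (par Y (x, s)) I) := by
    intro x
    have h := intervalIntegral.smul_integral_comp_add_mul (a := 0) (b := 1)
      (fun y : ℝ => (Φ' ((x : ℂ) + (y : ℂ) * I) 1 - I * Φ' ((x : ℂ) + (y : ℂ) * I) I))
      (Y - arc x) (arc x)
    have e1 : arc x + (Y - arc x) * 0 = arc x := by ring
    have e2 : arc x + (Y - arc x) * 1 = Y := by ring
    rw [e1, e2] at h
    rw [← h, ← intervalIntegral.integral_smul]
    apply intervalIntegral.integral_congr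
    intro s _
    simp only [par]
    rw [Complex.real_smul]
    have e3 : arc x + (Y - arc x) * s = arc x + s * (Y - arc x) := by ring
    rw [e3]
  have hstep : ∫ x in (-(1/2) : ℝ)..(1/2), ∫ s in (0 : ℝ)..1,
      (fderiv ℝ (fld1 Φ Y) (x, s) (1, 0) + fderiv ℝ (fld2 Φ Y) (x, s) (0, 1)) =
      (((∫ x in (-(1/2) : ℝ)..(1/2), fld2 Φ Y (x, 1)) -
        ∫ x in (-(1/2) : ℝ)..(1/2), fld2 Φ Y (x, 0)) +
        ∫ y in (0 : ℝ)..1, fld1 Φ Y (1/2, y)) - ∫ y in (0 : ℝ)..1, fld1 Φ Y (-(1/2), y) := by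
    apply integral2_divergence_prod_of_hasFDerivAt_off_countable _ _ _ _ _ _ _ _ ∅
      Set.countable_empty
    · intro q hq
      obtain ⟨a, b⟩ := rect_mem hq
      exact (diff_fld1 hd hY a b).continuousAt.continuousWithinAt
    · intro q hq
      obtain ⟨a, b⟩ := rect_mem hq
      exact (diff_fld2 hd hY a b).continuousAt.continuousWithinAt
    · intro q hq
      have hq' : q ∈ [[-(1/2 : ℝ), 1/2]] ×ˢ [[(0 : ℝ), 1]] :=
        ⟨Ioo_subset_Icc_self hq.1.1, Ioo_subset_Icc_self hq.1.2⟩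
      obtain ⟨a, b⟩ := rect_mem hq'
      exact (diff_fld1 hd hY a b).hasFDerivAt
    · intro q hq
      have hq' : q ∈ [[-(1/2 : ℝ), 1/2]] ×ˢ [[(0 : ℝ), 1]] :=
        ⟨Ioo_subset_Icc_self hq.1.1, Ioo_subset_Icc_self hq.1.2⟩
      obtain ⟨a, b⟩ := rect_mem hq'
      exact (diff_fld2 hd hY a b).hasFDerivAt
    · have hcomp : IsCompact ([[-(1/2 : ℝ), 1/2]] ×ˢ [[(0 : ℝ), 1]]) :=
        isCompact_uIcc.prod isCompact_uIcc
      have := (cont_div hc hY).integrableOn_compact (μ := volume) hcomp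
      refine this.congr_fun ?_ hcomp.measurableSet
      intro q hq
      obtain ⟨a, b⟩ := rect_mem hq
      exact (div_fld hd hY a b).symm
  have hL : (∫ x in (-(1/2) : ℝ)..(1/2), ∫ y in (arc x)..Y,
      (Φ' ((x : ℂ) + (y : ℂ) * I) 1 - I * Φ' ((x : ℂ) + (y : ℂ) * I) I)) =
      ∫ x in (-(1/2) : ℝ)..(1/2), ∫ s in (0 : ℝ)..1,
      (fderiv ℝ (fld1 Φ Y) (x, s) (1, 0) + fderiv ℝ (fld2 Φ Y) (x, s) (0, 1)) := by
    apply intervalIntegral.integral_congr
    intro x hx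
    simp only
    rw [hin x]
    apply intervalIntegral.integral_congr
    intro s hs
    obtain ⟨a, b⟩ := rect_mem (q := (x, s)) ⟨hx, hs⟩
    exact (div_fld hd hY a b).symm
  rw [hL, hstep]
  have hcancel : ∫ y in (0 : ℝ)..1, fld1 Φ Y (1/2, y) =
      ∫ y in (0 : ℝ)..1, fld1 Φ Y (-(1/2), y) := by
    apply intervalIntegral.integral_congr
    intro s hs
    obtain ⟨a, b⟩ := rect_mem (q := (-(1/2), s)) ⟨left_mem_uIcc, hs⟩
    have h1 := hT _ (par_im_pos hY a b)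
    have h2 : par Y (-(1/2), s) + 1 = par Y (1/2, s) := by
      unfold par
      rw [arc_neg]
      push_cast
      ring
    rw [h2] at h1
    simp only [fld1]
    rw [h1, arc_neg]
  have htop : ∫ x in (-(1/2) : ℝ)..(1/2), fld2 Φ Y (x, 1) =
      -I * ∫ x in (-(1/2) : ℝ)..(1/2), Φ ((x : ℂ) + (Y : ℂ) * I) := by
    rw [← intervalIntegral.integral_const_mul]
    apply intervalIntegral.integral_congr
    intro x _
    have h2 : par Y (x, 1) = (x : ℂ) + (Y : ℂ) * I := by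
      unfold par
      push_cast
      ring
    simp only [fld2]
    rw [h2]
    push_cast
    ring
  have hbot : ∫ x in (-(1/2) : ℝ)..(1/2), fld2 Φ Y (x, 0) = 0 := by
    have h := arc_int (Φ := Φ) hS
    have : ∫ x in (-(1/2) : ℝ)..(1/2), fld2 Φ Y (x, 0) =
        -∫ x in (-(1/2) : ℝ)..(1/2), Φ ((x : ℂ) + (arc x : ℂ) * I) * ((arc' x : ℂ) + I) := by
      rw [← intervalIntegral.integral_neg]
      apply intervalIntegral.integral_congr
      intro x _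
      have h2 : par Y (x, 0) = (x : ℂ) + (arc x : ℂ) * I := by
        unfold par
        push_cast
        ring
      simp only [fld2]
      rw [h2]
      push_cast
      ring
    rw [this, h, neg_zero]
  rw [hcancel, htop, hbot]
  ring

end main

end H6ES
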