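import Pool.Agent.Work.MP_d3517d_nt.ES.Main

/-!
# A cusp form whose symbol vanishes is zero (MP_d3517d_nt, cell ES)

For a primitive `F` of `g`, the function `z ↦ F(z)(z)` is a modular form of weight `-n` for
`Γ₀(M)` if the symbol of `f` vanishes at the pairs `(γ ∞, ∞)`, `γ ∈ Γ₀(M)`; so it is constant, and
then `f = 0`.  This holds in every weight `n + 2`.

* `eq_zero_of_sym`, `symL'_injective`.
-/

open Filter Topology UpperHalfPlane Polynomial CongruenceSubgroup
open scoped MatrixGroups ModularForm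

noncomputable section

namespace Gouvea.ES

open Pool.Agent.Gouv.ES
open Matrix.SpecialLinearGroup (mapGL)

/-! ### The function `z ↦ F(z)(z)` -/

theorem hasDerivAt_diag {n : ℕ} {g : ℂ → ℂ} {F : ℂ → ℂ[X]} (hF : IsPrim n g F) {z : ℂ}
    (hz : 0 < z.im) : HasDerivAt (fun w => (F w).eval w)
      (-g z * 0 ^ n + (derivative (F z)).eval z) z := by
  have h1 : ∀ j ∈ Finset.range (n + 1), HasDerivAt (fun w => (F w).coeff j * w ^ j)
      ((-g z * ((X - C z) ^ n : ℂ[X]).coeff j) * z ^ j +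
        (F z).coeff j * ((j : ℂ) * z ^ (j - 1))) z :=
    fun j _ => (hF.der z hz j).mul (hasDerivAt_pow j z)
  have h2 := HasDerivAt.fun_sum h1
  have h3 : (fun w => (F w).eval w) =ᶠ[𝓝 z]
      fun w => ∑ j ∈ Finset.range (n + 1), (F w).coeff j * w ^ j := by
    filter_upwards [isOpen_HP.mem_nhds hz] with w hw
    exact eval_eq_sum_range' (Nat.lt_succ_of_le (hF.deg w hw)) w
  refine (h2.congr_of_eventuallyEq h3).congr_deriv ?_
  rw [Finset.sum_add_distrib]
  congr 1
  · have h5 : ((X - C z) ^ n : ℂ[X]).eval z = 0 ^ n := by simp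
    have h6 : ((X - C z) ^ n : ℂ[X]).natDegree < n + 1 := by
      refine Nat.lt_succ_of_le (natDegree_pow_le.trans ?_)
      rw [natDegree_X_sub_C, mul_one]
    rw [← h5, eval_eq_sum_range' h6, Finset.mul_sum]
    exact Finset.sum_congr rfl fun j _ => by ring
  · rw [derivative_eval, sum_over_range' _ _ (n + 1) (Nat.lt_succ_of_le (hF.deg z hz))]
    · exact Finset.sum_congr rfl fun j _ => by ring
    · intro j
      simp

theorem derivative_prim (m : ℕ) (g : ℂ → ℂ) (z : ℂ) :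
    derivative (prim (m + 1) g z) = C ((m : ℂ) + 1) * prim m g z := by
  ext j
  rw [coeff_derivative, coeff_C_mul, coeff_prim, coeff_prim, Nat.add_sub_add_right]
  have h : ((m + 1 : ℕ) : ℂ) * (m.choose j : ℂ) =
      ((m + 1).choose (j + 1) : ℂ) * ((j + 1 : ℕ) : ℂ) := by
    exact_mod_cast Nat.add_one_mul_choose_eq m j
  push_cast at h
  linear_combination (-(-1) ^ (m - j) * vint (fun w => w ^ (m - j) * g w) z) * h

/-- if `z ↦ F(z)(z)` is constant, `g = 0`. -/
theorem eq_zero_of_diag {g : ℂ → ℂ} (hg : Dec g) (m : ℕ) :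
    ∀ c : ℂ, (∀ z : ℂ, 0 < z.im → (prim m g z).eval z = c) → ∀ z : ℂ, 0 < z.im → g z = 0 := by
  have key : ∀ (m : ℕ) (c : ℂ), (∀ z : ℂ, 0 < z.im → (prim m g z).eval z = c) →
      ∀ z : ℂ, 0 < z.im → -g z * 0 ^ m + (derivative (prim m g z)).eval z = 0 := by
    intro m c h z hz
    have h2 : HasDerivAt (fun w => (prim m g w).eval w) 0 z := by
      refine (hasDerivAt_const z c).congr_of_eventuallyEq ?_
      filter_upwards [isOpen_HP.mem_nhds hz] with w hw
      exact h w hw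
    exact (hasDerivAt_diag (hg.isPrim m) hz).unique h2
  induction m with
  | zero =>
    intro c h z hz
    have h3 := key 0 c h z hz
    have h4 : derivative (prim 0 g z) = 0 :=
      derivative_of_natDegree_zero (Nat.le_zero.1 (natDegree_prim_le 0 g z))
    rw [h4] at h3
    simpa using h3
  | succ m ih =>
    intro c h
    refine ih 0 fun z hz => ?_
    have h3 := key (m + 1) c h z hz
    rw [derivative_prim, pow_succ, mul_zero, mul_zero, zero_add, eval_mul, eval_C] at h3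
    have h4 : ((m : ℂ) + 1) ≠ 0 := by exact_mod_cast Nat.succ_ne_zero m
    exact (mul_eq_zero.mp h3).resolve_left h4

/-- the function `z ↦ F(z)(z)` on the upper half plane -/
def diag (n : ℕ) (f : ℍ → ℂ) (τ : ℍ) : ℂ :=
  (prim n (fun w => f (ofComplex w)) (τ : ℂ)).eval (τ : ℂ)

variable {n : ℕ} {f : ℍ → ℂ}

theorem diag_eq (hf : Nice ((n + 2 : ℕ) : ℤ) f) (τ : ℍ) :
    diag n f τ = (E n f OnePoint.infty (τ : ℂ)).eval (τ : ℂ) := by
  rw [E_infty hf τ.im_pos, diag]

/-- the slash action in weight `-n`. -/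
theorem diag_slash (hf : Nice ((n + 2 : ℕ) : ℤ) f) {a : GQ} (ha : a.det.val = 1) (τ : ℍ) :
    (diag n f ∣[(-(n : ℤ))] toR a) τ =
      (E n (f ∣[((n + 2 : ℕ) : ℤ)] toR a) (a⁻¹ • OnePoint.infty) (τ : ℂ)).eval (τ : ℂ) := by
  have ha' : 0 < a.det.val := by rw [ha]; exact one_pos
  have hR := toR_det_pos ha'
  have hR1 : (toR a).det.val = 1 := by rw [toR_det, ha]; simp
  have hd := denom_ne_zero_of_im (toR a) τ.im_pos.ne'
  rw [E_slash hf ha' _ τ.im_pos, smul_inv_smul, E_infty hf (mob_im_pos hR τ.im_pos),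
    eval_act' n _ (natDegree_prim_le _ _ _) hd, ModularForm.slash_apply]
  have h1 : toR a • τ = ofComplex (mob (toR a) τ) := by
    apply UpperHalfPlane.ext
    rw [coe_smul_of_det_pos hR, ofComplex_apply_of_im_pos (mob_im_pos hR τ.im_pos)]
    rfl
  have h1' : ((toR a • τ : ℍ) : ℂ) = mob (toR a) τ := by
    rw [coe_smul_of_det_pos hR]
    rfl
  have h2 : σ (toR a) = ContinuousAlgEquiv.refl ℝ ℂ := by
    simp only [Matrix.GeneralLinearGroup.val_det_apply] at hR
    simp [σ, hR]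
  rw [h2, hR1, diag, h1', neg_neg, zpow_natCast]
  simp only [ContinuousAlgEquiv.refl_apply]
  rw [abs_one, Complex.ofReal_one, one_zpow, mul_one, mul_comm]
  rfl

theorem diag_invariant (hf : Nice ((n + 2 : ℕ) : ℤ) f) {a : GQ} (ha : a.det.val = 1)
    (hfa : f ∣[((n + 2 : ℕ) : ℤ)] toR a = f)
    (H : sym n f (a⁻¹ • OnePoint.infty) OnePoint.infty = 0) :
    diag n f ∣[(-(n : ℤ))] toR a = diag n f := by
  funext τ
  rw [diag_slash hf ha, hfa, diag_eq hf]
  have h := sym_eq hf (a⁻¹ • OnePoint.infty) OnePoint.infty τ.im_pos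
  rw [H] at h
  rw [sub_eq_zero.mp h.symm]

/-! ### The behaviour at the cusps -/

/-- `(1 M; 0 1)` -/
def shift (M : ℕ) : SL(2, ℤ) := ModularGroup.T ^ (M : ℤ)

theorem shift_coe (M : ℕ) : (shift M).1 = !![1, (M : ℤ); 0, 1] := ModularGroup.coe_T_zpow _

theorem shift_inf (M : ℕ) :
    (mapGL ℚ (shift M) : GQ) • (OnePoint.infty : OnePoint ℚ) = OnePoint.infty := by
  refine OnePoint.smul_infty_eq_self_iff.2 ?_
  change (((shift M).1 1 0 : ℤ) : ℚ) = 0
  rw [shift_coe]
  simp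

theorem toR_shift (M : ℕ) (i j : Fin 2) :
    (toR (mapGL ℚ (shift M)) : GL (Fin 2) ℝ) i j = (((shift M).1 i j : ℤ) : ℝ) := by
  rw [toR_mapGL]
  rfl

theorem mob_shift (M : ℕ) (z : ℂ) : mob (toR (mapGL ℚ (shift M))) z = z + M := by
  rw [mob, num, denom, toR_shift, toR_shift, toR_shift, toR_shift, shift_coe]
  simp

theorem eval_act_shift (M n : ℕ) {P : ℂ[X]} (hP : P.natDegree ≤ n) (x : ℂ) :
    (act n (toR (mapGL ℚ (shift M))) P).eval x = P.eval (x + M) := by
  have h : (((toR (mapGL ℚ (shift M)) : GL (Fin 2) ℝ) 1 0 : ℝ) * x +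
      ((toR (mapGL ℚ (shift M)) : GL (Fin 2) ℝ) 1 1 : ℝ) : ℂ) ≠ 0 := by
    rw [toR_shift, toR_shift, shift_coe]
    simp
  rw [eval_act' n _ hP h, toR_shift, toR_shift, toR_shift, toR_shift, shift_coe]
  simp

/-- a periodic polynomial is constant. -/
theorem eq_C_of_periodic {M : ℕ} [NeZero M] {P : ℂ[X]}
    (h : ∀ x : ℂ, P.eval (x + M) = P.eval x) :
    P = C (P.eval 0) := by
  have h1 : ∀ k : ℕ, P.eval ((k : ℂ) * M) = P.eval 0 := by
    intro k
    induction k with
    | zero => simp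
    | succ k ih =>
      have e : ((k + 1 : ℕ) : ℂ) * M = (k : ℂ) * M + M := by
        push_cast
        ring
      rw [e, h, ih]
  refine eq_of_infinite_eval_eq _ _ ?_
  refine (Set.infinite_range_of_injective (f := fun k : ℕ => (k : ℂ) * M) ?_).mono ?_
  · intro i j hij
    have hM : (M : ℂ) ≠ 0 := by exact_mod_cast NeZero.ne M
    exact_mod_cast mul_right_cancel₀ hM hij
  · rintro _ ⟨k, rfl⟩
    simp only [Set.mem_ofPred_eq, eval_C]
    exact h1 k

/-- the function `z ↦ F(z)(z)` decays. -/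
theorem dec_diag {g : ℂ → ℂ} (hg : Dec g) (n : ℕ) : Dec (fun z => (prim n g z).eval z) := by
  have h : Dec (fun z => ∑ j ∈ Finset.range (n + 1), z ^ j * (prim n g z).coeff j) :=
    Dec.sum _ fun j _ => (hg.coeff_prim n j).pow_mul j
  refine h.congr fun z _ => ?_
  rw [eval_eq_sum_range' (Nat.lt_succ_of_le (natDegree_prim_le n g z))]
  exact Finset.sum_congr rfl fun j _ => mul_comm _ _

theorem diag_shift (hf : Nice ((n + 2 : ℕ) : ℤ) f) {M : ℕ}
    (hfu : f ∣[((n + 2 : ℕ) : ℤ)] toR (mapGL ℚ (shift M)) = f) {z : ℂ} (hz : 0 < z.im) :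
    (prim n (fun w => f (ofComplex w)) (z + M)).eval (z + M) =
      (prim n (fun w => f (ofComplex w)) z).eval z := by
  have hdet : 0 < (toR (mapGL ℚ (shift M))).det.val := toR_det_pos (detQ_mapGL _)
  have h10 : (toR (mapGL ℚ (shift M)) : GL (Fin 2) ℝ) 1 0 = 0 := by
    rw [toR_shift, shift_coe]
    simp
  have h := prim_slash (n := n) hf.dec hf.dec (toR (mapGL ℚ (shift M))) hdet h10
    (fun z hz => by
      rw [← slash_ofComplex n f hdet hz, hfu]) hz
  rw [mob_shift] at h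
  conv_rhs => rw [h]
  rw [eval_act_shift M n (natDegree_prim_le _ _ _)]

theorem diag_bdd {M : ℕ} [NeZero M] (hf : Nice ((n + 2 : ℕ) : ℤ) f) {a : GQ} (ha : a.det.val = 1)
    (hfa : f ∣[((n + 2 : ℕ) : ℤ)] toR (a * mapGL ℚ (shift M) * a⁻¹) = f)
    (H : sym n f ((a * mapGL ℚ (shift M) * a⁻¹) • OnePoint.infty) OnePoint.infty = 0) :
    IsBoundedAtImInfty (diag n f ∣[(-(n : ℤ))] toR a) := by
  have ha' : 0 < a.det.val := by rw [ha]; exact one_pos
  set u : GQ := mapGL ℚ (shift M) with hu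
  set h : ℍ → ℂ := f ∣[((n + 2 : ℕ) : ℤ)] toR a with hh
  have hnice : Nice ((n + 2 : ℕ) : ℤ) h := hf.slash ha'
  have hhu : h ∣[((n + 2 : ℕ) : ℤ)] toR u = h := by
    conv_rhs => rw [hh, ← hfa]
    rw [hh, ← SlashAction.slash_mul, ← SlashAction.slash_mul, ← map_mul, ← map_mul]
    congr 2
    group
  set P : ℂ[X] := sym n h (a⁻¹ • OnePoint.infty) OnePoint.infty with hP
  have hdegP : P.natDegree ≤ n := natDegree_sym_le _ _ _ _
  have hPu : act n (toR u) P = P := by
    have h1 := sym_slash hnice (detQ_mapGL (shift M)) (a⁻¹ • OnePoint.infty) OnePoint.infty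
    rw [← hu, hhu, ← act_toR, hu, shift_inf, ← hu] at h1
    have h2 : sym n h (u • a⁻¹ • OnePoint.infty) (a⁻¹ • OnePoint.infty) = 0 := by
      rw [hh, sym_slash hf ha', smul_inv_smul, smul_smul, smul_smul, H, map_zero]
    rw [← sym_add_sym n h (u • a⁻¹ • OnePoint.infty) (a⁻¹ • OnePoint.infty) OnePoint.infty, h2,
      zero_add] at h1
    exact h1.symm
  have hPC : P = C (P.eval 0) := by
    refine eq_C_of_periodic (M := M) fun x => ?_
    rw [← eval_act_shift M n hdegP, ← hu, hPu]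
  have hval : ∀ τ : ℍ, (diag n f ∣[(-(n : ℤ))] toR a) τ = diag n h τ - P.eval 0 := by
    intro τ
    have h3 := sym_to_infty hnice (a⁻¹ • OnePoint.infty) τ.im_pos
    rw [← hP] at h3
    rw [diag_slash hf ha, ← hh, diag, ← eval_C (a := P.eval 0) (x := (τ : ℂ)), ← hPC, ← eval_sub,
      h3, sub_sub_cancel]
  obtain ⟨C₀, c, hc, hC⟩ := (dec_diag hnice.dec n).dec M
  rw [isBoundedAtImInfty_iff]
  refine ⟨max C₀ 0 + ‖P.eval 0‖, 1, fun τ hτ => ?_⟩
  rw [hval]
  refine (norm_sub_le _ _).trans (add_le_add ?_ le_rfl)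
  have hM : (0 : ℝ) < M := by exact_mod_cast Nat.pos_of_ne_zero (NeZero.ne M)
  have hper : Function.Periodic (fun x : ℝ => (prim n (fun w => h (ofComplex w))
      ((x : ℂ) + (τ.im : ℂ) * Complex.I)).eval ((x : ℂ) + (τ.im : ℂ) * Complex.I)) (M : ℝ) := by
    intro x
    have e : ((x + (M : ℝ) : ℝ) : ℂ) + (τ.im : ℂ) * Complex.I =
        (x : ℂ) + (τ.im : ℂ) * Complex.I + M := by
      push_cast
      ring
    simp only [e]
    refine diag_shift hnice (by rw [← hu, hhu]) ?_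
    simpa using τ.im_pos
  obtain ⟨y, hy, hxy⟩ := hper.exists_mem_Ico₀ hM τ.re
  have hτ' : ((τ.re : ℝ) : ℂ) + (τ.im : ℂ) * Complex.I = (τ : ℂ) := by
    have := Complex.re_add_im (τ : ℂ)
    simpa using this
  simp only [hτ'] at hxy
  rw [diag, hxy]
  have h4 := hC ((y : ℂ) + (τ.im : ℂ) * Complex.I)
    (by
      have e : ((y : ℂ) + (τ.im : ℂ) * Complex.I).re = y := by simp
      rw [e, abs_of_nonneg hy.1]
      exact hy.2.le)
    (by simpa using hτ)
  refine h4.trans ?_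
  have e : ((y : ℂ) + (τ.im : ℂ) * Complex.I).im = τ.im := by simp
  rw [e]
  have h5 : Real.exp (-c * τ.im) ≤ 1 := by
    rw [Real.exp_le_one_iff]
    have := τ.im_pos
    nlinarith
  calc C₀ * Real.exp (-c * τ.im) ≤ max C₀ 0 * Real.exp (-c * τ.im) :=
        mul_le_mul_of_nonneg_right (le_max_left _ _) (Real.exp_pos _).le
    _ ≤ max C₀ 0 * 1 := mul_le_mul_of_nonneg_left h5 (le_max_right _ _)
    _ = max C₀ 0 := mul_one _

/-! ### The modular form -/

theorem shift_mem_Gamma (M : ℕ) : shift M ∈ Gamma M :=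
  ModularGroup_T_pow_mem_Gamma (M : ℤ) (M : ℤ) (dvd_refl _)

theorem Gamma_le_Gamma0 (M : ℕ) : Gamma M ≤ Gamma0 M := fun _ hg =>
  Gamma0_mem.2 (Gamma_mem.1 hg).2.2.1

variable {M : ℕ} [NeZero M]

/-- the modular form `z ↦ F(z)(z)` of weight `-n` -/
def diagMF (f : Gouvea.Cusp M (n + 2))
    (H : ∀ g ∈ Gamma0 M, sym n f ((mapGL ℚ g : GQ) • OnePoint.infty) OnePoint.infty = 0) :
    ModularForm (Gam0 M) (-(n : ℤ)) where
  toFun := diag n f
  slash_action_eq' γ hγ := by
    obtain ⟨g, hg, rfl⟩ := Subgroup.mem_map.1 hγ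
    have h1 := SlashInvariantForm.slash_action_eqn f _ hγ
    rw [← toR_mapGL] at h1 ⊢
    refine diag_invariant (nice_of_cuspForm f) ?_ h1 ?_
    · rw [Matrix.SpecialLinearGroup.det_mapGL]
      rfl
    · rw [← map_inv]
      exact H _ (inv_mem hg)
  holo' := by
    refine UpperHalfPlane.mdifferentiable_iff.2 ?_
    refine (dec_diag (nice_of_cuspForm f).dec n).diff.congr fun z hz => ?_
    change diag n f (ofComplex z) = _
    rw [diag, ofComplex_apply_of_im_pos hz]
  bdd_at_cusps' {c} hc := by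
    have hc' : IsCusp c 𝒮ℒ := (Subgroup.IsArithmetic.isCusp_iff_isCusp_SL2Z (𝒢 := Gam0 M)).1 hc
    refine (OnePoint.isBoundedAt_iff_forall_SL2Z hc').2 fun γ _ => ?_
    have h1 : γ * shift M * γ⁻¹ ∈ Gamma0 M :=
      Gamma_le_Gamma0 M ((Gamma_normal M).conj_mem _ (shift_mem_Gamma M) γ)
    have e : (mapGL ℚ γ : GQ) * mapGL ℚ (shift M) * (mapGL ℚ γ : GQ)⁻¹ =
        mapGL ℚ (γ * shift M * γ⁻¹) := by
      rw [map_mul, map_mul, map_inv]
    have h2 : IsBoundedAtImInfty (diag n f ∣[(-(n : ℤ))] toR (mapGL ℚ γ)) := by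
      refine diag_bdd (M := M) (nice_of_cuspForm f) ?_ ?_ ?_
      · rw [Matrix.SpecialLinearGroup.det_mapGL]
        rfl
      · rw [e, toR_mapGL]
        exact SlashInvariantForm.slash_action_eqn f _ (Subgroup.mem_map_of_mem _ h1)
      · rw [e]
        exact H _ h1
    rw [toR_mapGL] at h2
    exact h2

/-- **A cusp form with vanishing symbol is zero.** -/
theorem eq_zero_of_sym (f : Gouvea.Cusp M (n + 2))
    (H : ∀ g ∈ Gamma0 M, sym n f ((mapGL ℚ g : GQ) • OnePoint.infty) OnePoint.infty = 0) :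
    f = 0 := by
  have hconst : ∃ c : ℂ, ∀ τ : ℍ, diag n f τ = c := by
    rcases Nat.eq_zero_or_pos n with h0 | h0
    · subst h0
      obtain ⟨c, hc⟩ := ModularForm.eq_const_of_weight_zero (diagMF f H)
      exact ⟨c, fun τ => congrFun hc τ⟩
    · have h1 := ModularForm.isZero_of_neg_weight (by omega) (diagMF f H)
      exact ⟨0, fun τ => DFunLike.congr_fun h1 τ⟩
  obtain ⟨c, hc⟩ := hconst
  have h2 := eq_zero_of_diag (nice_of_cuspForm f).dec n c fun z hz => by
    have := hc ⟨z, hz⟩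
    exact this
  refine DFunLike.ext _ _ fun τ => ?_
  have h3 := h2 τ τ.im_pos
  rwa [ofComplex_apply] at h3

/-- **The map from the cusp forms to the symbols is injective**, in every weight. -/
theorem symL'_injective (hM : 4 ∣ M) : Function.Injective (symL' M n) := by
  rw [injective_iff_map_eq_zero]
  intro f hf
  refine eq_zero_of_sym f fun g hg => ?_
  have h4 : (4 : ℤ) ∣ g.1 1 0 := by
    refine dvd_trans ?_ ((ZMod.intCast_zmod_eq_zero_iff_dvd _ _).1 (Gamma0_mem.1 hg))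
    exact_mod_cast hM
  have hodd : Odd (g.1 0 0) := by
    have hdet := g.2
    rw [Matrix.det_fin_two] at hdet
    by_contra h
    rw [Int.not_odd_iff_even] at h
    have h2 : (2 : ℤ) ∣ 1 := by
      rw [← hdet]
      exact dvd_sub (Dvd.dvd.mul_right h.two_dvd _)
        (Dvd.dvd.mul_left (dvd_trans (by norm_num) h4) _)
    norm_num at h2
  have e : toP (PS.Cusp.mk (g.1 0 0) (g.1 1 0) hodd h4) =
      (mapGL ℚ g : GQ) • (OnePoint.infty : OnePoint ℚ) := by
    rw [toP_mk, OnePoint.smul_infty_eq_ite]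
    have h00 : (mapGL ℚ g : GQ) 0 0 = ((g.1 0 0 : ℤ) : ℚ) := rfl
    have h10 : (mapGL ℚ g : GQ) 1 0 = ((g.1 1 0 : ℤ) : ℚ) := rfl
    rw [h00, h10]
    by_cases h : g.1 1 0 = 0
    · rw [if_pos h, if_pos (by rw [h]; simp)]
    · rw [if_neg h, if_neg (by exact_mod_cast h)]
  ext i
  rw [← e]
  have h5 := congrFun (congrFun (congrArg Subtype.val hf) (PS.Cusp.mk (g.1 0 0) (g.1 1 0) hodd h4))
    PS.inf
  rcases lt_or_ge i (n + 1) with hi | hi
  · have h6 := congrFun h5 ⟨i, hi⟩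
    rw [symL'_coe] at h6
    simp only [symC, toP_inf] at h6
    simpa using h6
  · rw [coeff_zero]
    exact coeff_eq_zero_of_natDegree_lt (lt_of_le_of_lt (natDegree_sym_le n _ _ _) hi)

end Gouvea.ES
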