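import Pool.Agent.Work.MP_d3517d_nt.ES.ThetaDefs

/-!
# The Cauchy type integral `cau k L z = ∫ L(t) (t - z)^{-k} dt` (cell THETA, MP_d3517d_nt)

Integrability, the bound `|cau k L z| ≤ π B |Im z|^{1-k}`, holomorphy on both half planes, the
translation and inversion rules, and the vanishing on polynomials of degree `≤ k - 2`.
-/

open Filter Topology MeasureTheory Polynomial

noncomputable section

namespace Gouvea.Theta

/-! ### the kernel -/

theorem kn_ne (t : ℝ) {z : ℂ} (hz : z.im ≠ 0) : (t : ℂ) - z ≠ 0 := by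
  intro h
  have := congrArg Complex.im h
  simp at this
  exact hz this

theorem kn_norm_sq (t : ℝ) (z : ℂ) : ‖(t : ℂ) - z‖ ^ 2 = (t - z.re) ^ 2 + z.im ^ 2 := by
  rw [Complex.sq_norm, Complex.normSq_apply]
  simp
  ring

theorem kn_im_le (t : ℝ) (z : ℂ) : |z.im| ≤ ‖(t : ℂ) - z‖ := by
  have := Complex.abs_im_le_norm ((t : ℂ) - z)
  simpa using this

theorem kn_ge {k : ℕ} (hk : 2 ≤ k) (t : ℝ) {z : ℂ} (hz : z.im ≠ 0) :
    |z.im| ^ k * (1 + ((t - z.re) / z.im) ^ 2) ≤ ‖(t : ℂ) - z‖ ^ k := by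
  obtain ⟨j, rfl⟩ : ∃ j, k = j + 2 := ⟨k - 2, by omega⟩
  rw [pow_add, pow_add, kn_norm_sq, mul_assoc]
  refine mul_le_mul (pow_le_pow_left₀ (abs_nonneg _) (kn_im_le t z) j) ?_ (by positivity)
    (by positivity)
  rw [sq_abs]
  have : z.im ^ 2 * (1 + ((t - z.re) / z.im) ^ 2) = (t - z.re) ^ 2 + z.im ^ 2 := by
    field_simp
    ring
  rw [this]

theorem kn_norm_le {k : ℕ} (hk : 2 ≤ k) (t : ℝ) {z : ℂ} (hz : z.im ≠ 0) :
    ‖((t : ℂ) - z) ^ (-(k : ℤ))‖ ≤ (|z.im| ^ k)⁻¹ * (1 + ((t - z.re) / z.im) ^ 2)⁻¹ := by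
  rw [zpow_neg, zpow_natCast, norm_inv, norm_pow, ← mul_inv]
  refine inv_anti₀ ?_ (kn_ge hk t hz)
  have : 0 < |z.im| := abs_pos.2 hz
  positivity

theorem bd_integrable (z : ℂ) (hz : z.im ≠ 0) (C : ℝ) :
    Integrable (fun t : ℝ => C * (1 + ((t - z.re) / z.im) ^ 2)⁻¹) :=
  ((integrable_inv_one_add_sq.comp_div hz).comp_sub_right z.re).const_mul C

theorem bd_integral (z : ℂ) (C : ℝ) :
    ∫ t : ℝ, C * (1 + ((t - z.re) / z.im) ^ 2)⁻¹ = C * (|z.im| * Real.pi) := by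
  rw [integral_const_mul]
  rw [integral_sub_right_eq_self (fun t : ℝ => (1 + (t / z.im) ^ 2)⁻¹) z.re]
  rw [Measure.integral_comp_div (fun t : ℝ => (1 + t ^ 2)⁻¹) z.im]
  rw [integral_univ_inv_one_add_sq, smul_eq_mul]

theorem kn_continuous (k : ℕ) {z : ℂ} (hz : z.im ≠ 0) :
    Continuous (fun t : ℝ => ((t : ℂ) - z) ^ (-(k : ℤ))) := by
  refine Continuous.zpow₀ (by fun_prop) _ fun t => Or.inl (kn_ne t hz)

theorem kn_integrable {k : ℕ} (hk : 2 ≤ k) {z : ℂ} (hz : z.im ≠ 0) :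
    Integrable (fun t : ℝ => ((t : ℂ) - z) ^ (-(k : ℤ))) :=
  (bd_integrable z hz _).mono' (kn_continuous k hz).aestronglyMeasurable
    (Eventually.of_forall fun t => kn_norm_le hk t hz)

/-! ### the integral -/

theorem cau_integrable {k : ℕ} (hk : 2 ≤ k) {L : ℝ → ℂ} (hc : Continuous L) {B : ℝ}
    (hB : ∀ t, ‖L t‖ ≤ B) {z : ℂ} (hz : z.im ≠ 0) :
    Integrable (fun t : ℝ => L t * ((t : ℂ) - z) ^ (-(k : ℤ))) :=
  (kn_integrable hk hz).bdd_mul hc.aestronglyMeasurable (Eventually.of_forall hB)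

theorem norm_cau_le {k : ℕ} (hk : 2 ≤ k) {L : ℝ → ℂ} {B : ℝ}
    (hB : ∀ t, ‖L t‖ ≤ B) {z : ℂ} (hz : z.im ≠ 0) :
    ‖cau k L z‖ ≤ B * Real.pi / |z.im| ^ (k - 1) := by
  have hB0 : 0 ≤ B := (norm_nonneg _).trans (hB 0)
  have h1 : ‖cau k L z‖ ≤ ∫ t : ℝ, (B * (|z.im| ^ k)⁻¹) * (1 + ((t - z.re) / z.im) ^ 2)⁻¹ := by
    refine norm_integral_le_of_norm_le (bd_integrable z hz _) (Eventually.of_forall fun t => ?_)
    rw [norm_mul, mul_assoc]
    exact mul_le_mul (hB t) (kn_norm_le hk t hz) (norm_nonneg _) hB0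
  refine h1.trans (le_of_eq ?_)
  rw [bd_integral]
  have h2 : 0 < |z.im| := abs_pos.2 hz
  obtain ⟨j, rfl⟩ : ∃ j, k = j + 1 := ⟨k - 1, by omega⟩
  rw [Nat.add_sub_cancel, pow_succ]
  field_simp

theorem cau_add {k : ℕ} (hk : 2 ≤ k) {L L' : ℝ → ℂ} (hc : Continuous L) (hc' : Continuous L')
    {B B' : ℝ} (hB : ∀ t, ‖L t‖ ≤ B) (hB' : ∀ t, ‖L' t‖ ≤ B') {z : ℂ} (hz : z.im ≠ 0) :
    cau k (fun t => L t + L' t) z = cau k L z + cau k L' z := by
  unfold cau
  rw [← integral_add (cau_integrable hk hc hB hz) (cau_integrable hk hc' hB' hz)]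
  exact integral_congr_ae (Eventually.of_forall fun t => by ring)

theorem cau_const_mul (k : ℕ) (L : ℝ → ℂ) (c z : ℂ) :
    cau k (fun t => c * L t) z = c * cau k L z := by
  unfold cau
  rw [← integral_const_mul]
  exact integral_congr_ae (Eventually.of_forall fun t => by ring)

theorem cau_neg_fun (k : ℕ) (L : ℝ → ℂ) (z : ℂ) :
    cau k (fun t => - L t) z = - cau k L z := by
  have := cau_const_mul k L (-1) z
  simpa using this

theorem cau_zero_fun (k : ℕ) (z : ℂ) : cau k (fun _ => 0) z = 0 := by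
  simp [cau]

/-- translation. -/
theorem cau_shift (k : ℕ) (L : ℝ → ℂ) (b : ℝ) (z : ℂ) :
    cau k (fun t => L (t + b)) z = cau k L (z + b) := by
  unfold cau
  rw [← integral_add_right_eq_self (fun t : ℝ => L t * ((t : ℂ) - (z + b)) ^ (-(k : ℤ))) b]
  refine integral_congr_ae (Eventually.of_forall fun t => ?_)
  simp only
  push_cast
  ring_nf

/-- reflection `t ↦ -t`. -/
theorem cau_refl (k : ℕ) (L : ℝ → ℂ) (z : ℂ) :
    cau k (fun t => L (-t)) z = (-1) ^ k * cau k L (-z) := by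
  unfold cau
  rw [← integral_neg_eq_self, ← integral_const_mul]
  refine integral_congr_ae (Eventually.of_forall fun t => ?_)
  simp only [neg_neg]
  have h1 : ((-t : ℝ) : ℂ) - z = (-1) * ((t : ℂ) - (-z)) := by push_cast; ring
  rw [h1, mul_zpow]
  have h2 : ((-1 : ℂ)) ^ (-(k : ℤ)) = (-1) ^ k := by
    rw [zpow_neg, zpow_natCast, ← inv_pow]
    norm_num
  rw [h2]
  ring

/-- complex conjugation. -/
theorem cau_conj (k : ℕ) (L : ℝ → ℂ) (z : ℂ) :
    cau k (fun t => starRingEnd ℂ (L t)) (starRingEnd ℂ z) = starRingEnd ℂ (cau k L z) := by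
  unfold cau
  rw [← integral_conj]
  refine integral_congr_ae (Eventually.of_forall fun t => ?_)
  simp only [map_mul, map_zpow₀, map_sub, Complex.conj_ofReal]

/-! ### inversion -/

/-- change of variables `t ↦ -1/t` on the line. -/
theorem integral_neg_inv (g : ℝ → ℂ) :
    ∫ t : ℝ, g t = ∫ t : ℝ, ((t ^ 2)⁻¹ : ℝ) • g (-t⁻¹) := by
  have hs : MeasurableSet ({0}ᶜ : Set ℝ) := (measurableSet_singleton 0).compl
  have himg : (fun t : ℝ => -t⁻¹) '' ({0}ᶜ : Set ℝ) = {0}ᶜ := by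
    ext x
    simp only [Set.mem_image, Set.mem_compl_iff, Set.mem_singleton_iff]
    constructor
    · rintro ⟨t, ht, rfl⟩
      simpa using ht
    · intro hx
      exact ⟨-x⁻¹, by simpa using hx, by simp⟩
  have hd : ∀ t ∈ ({0}ᶜ : Set ℝ),
      HasDerivWithinAt (fun t : ℝ => -t⁻¹) ((t ^ 2)⁻¹) ({0}ᶜ : Set ℝ) t := by
    intro t ht
    have h := ((hasDerivAt_inv (x := t) (by simpa using ht)).neg).hasDerivWithinAt
      (s := ({0}ᶜ : Set ℝ))
    rw [neg_neg] at h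
    exact h
  have hinj : Set.InjOn (fun t : ℝ => -t⁻¹) ({0}ᶜ : Set ℝ) := by
    intro x _ y _ h
    have h' : x⁻¹ = y⁻¹ := neg_injective h
    exact inv_injective h'
  have key := integral_image_eq_integral_abs_deriv_smul hs hd hinj g
  rw [himg, restrict_compl_singleton] at key
  rw [key]
  refine integral_congr_ae (Eventually.of_forall fun t => ?_)
  simp only
  rw [abs_of_nonneg (by positivity)]

theorem cau_inv {k : ℕ} (hk : 2 ≤ k) (L : ℝ → ℂ) {z : ℂ} (hz : z.im ≠ 0) :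
    z ^ (-(k : ℤ)) * cau k L (-1 / z) =
      ∫ t : ℝ, (t : ℂ) ^ (k - 2) * L (-1 / t) * ((t : ℂ) - z) ^ (-(k : ℤ)) := by
  have hz0 : z ≠ 0 := by
    rintro rfl
    simp at hz
  unfold cau
  rw [integral_neg_inv, ← integral_const_mul]
  have h0 : ∀ᵐ t : ℝ, t ≠ 0 := by
    have : ({0}ᶜ : Set ℝ) ∈ ae (volume : Measure ℝ) := by
      rw [mem_ae_iff, compl_compl]
      exact measure_singleton 0
    exact this
  refine integral_congr_ae (h0.mono fun t ht => ?_)
  have htc : (t : ℂ) ≠ 0 := by exact_mod_cast ht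
  have hne := kn_ne t hz
  obtain ⟨j, rfl⟩ : ∃ j, k = j + 2 := ⟨k - 2, by omega⟩
  simp only [Nat.add_sub_cancel]
  have h1 : (((-t⁻¹ : ℝ)) : ℂ) - (-1 / z) = ((t : ℂ) - z) / (t * z) := by
    push_cast
    field_simp
    ring
  rw [h1, show (-1 : ℝ) / t = -t⁻¹ by rw [neg_div, one_div], Complex.real_smul,
    zpow_neg, zpow_neg, zpow_neg, zpow_natCast, zpow_natCast, zpow_natCast]
  push_cast
  rw [div_pow, mul_pow]
  have hne' := pow_ne_zero (j + 2) hne
  field_simp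
  ring

theorem ae_ne (x : ℝ) : ∀ᵐ t : ℝ, t ≠ x := by
  have : ({x}ᶜ : Set ℝ) ∈ ae (volume : Measure ℝ) := by
    rw [mem_ae_iff, compl_compl]
    exact measure_singleton x
  exact this

/-- change of variables `t ↦ (at+b)/(ct+d)` on the line. -/
theorem integral_mobius {a b c d : ℝ} (hdet : a * d - b * c = 1) (hc : c ≠ 0) (g : ℝ → ℂ) :
    ∫ t : ℝ, g t = ∫ t : ℝ, (((c * t + d) ^ 2)⁻¹ : ℝ) • g ((a * t + b) / (c * t + d)) := by
  have hs : MeasurableSet ({-d / c}ᶜ : Set ℝ) := (measurableSet_singleton _).compl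
  have hne : ∀ t ∈ ({-d / c}ᶜ : Set ℝ), c * t + d ≠ 0 := by
    intro t ht h
    apply ht
    rw [Set.mem_singleton_iff, eq_div_iff hc]
    linarith
  have himg : (fun t : ℝ => (a * t + b) / (c * t + d)) '' ({-d / c}ᶜ : Set ℝ) = {a / c}ᶜ := by
    ext x
    constructor
    · rintro ⟨t, ht, rfl⟩ h
      have h0 := hne t ht
      have h' : (a * t + b) / (c * t + d) = a / c := h
      rw [div_eq_div_iff h0 hc] at h'
      nlinarith
    · intro hx
      have hx' : a - c * x ≠ 0 := by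
        intro h
        apply hx
        rw [Set.mem_singleton_iff, eq_div_iff hc]
        linarith
      have h1 : c * ((d * x - b) / (a - c * x)) + d = 1 / (a - c * x) := by
        rw [mul_div_assoc', div_add' _ _ _ hx', div_left_inj' hx']
        linear_combination hdet
      have h2 : a * ((d * x - b) / (a - c * x)) + b = x / (a - c * x) := by
        rw [mul_div_assoc', div_add' _ _ _ hx', div_left_inj' hx']
        linear_combination x * hdet
      refine ⟨(d * x - b) / (a - c * x), ?_, ?_⟩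
      · intro h
        rw [Set.mem_singleton_iff, eq_div_iff hc] at h
        have h3 : (1 : ℝ) / (a - c * x) = 0 := by
          rw [← h1]
          linarith
        exact one_div_ne_zero hx' h3
      · simp only
        rw [h1, h2, div_div_div_cancel_right₀ hx', div_one]
  have hd : ∀ t ∈ ({-d / c}ᶜ : Set ℝ),
      HasDerivWithinAt (fun t : ℝ => (a * t + b) / (c * t + d)) (((c * t + d) ^ 2)⁻¹)
        ({-d / c}ᶜ : Set ℝ) t := by
    intro t ht
    have h0 := hne t ht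
    have h1 : HasDerivAt (fun t : ℝ => a * t + b) a t := by
      simpa using ((hasDerivAt_id t).const_mul a).add_const b
    have h2 : HasDerivAt (fun t : ℝ => c * t + d) c t := by
      simpa using ((hasDerivAt_id t).const_mul c).add_const d
    have h3 := (h1.div h2 h0).hasDerivWithinAt (s := ({-d / c}ᶜ : Set ℝ))
    have h4 : (a * (c * t + d) - (a * t + b) * c) / (c * t + d) ^ 2 = ((c * t + d) ^ 2)⁻¹ := by
      rw [← one_div]
      congr 1
      linear_combination hdet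
    rw [h4] at h3
    exact h3
  have hinj : Set.InjOn (fun t : ℝ => (a * t + b) / (c * t + d)) ({-d / c}ᶜ : Set ℝ) := by
    intro x hx y hy h
    have h' : (a * x + b) / (c * x + d) = (a * y + b) / (c * y + d) := h
    rw [div_eq_div_iff (hne x hx) (hne y hy)] at h'
    linear_combination h' - (x - y) * hdet
  have key := integral_image_eq_integral_abs_deriv_smul hs hd hinj g
  rw [himg, restrict_compl_singleton, restrict_compl_singleton] at key
  rw [key]
  refine integral_congr_ae (Eventually.of_forall fun t => ?_)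
  simp only
  rw [abs_of_nonneg (by positivity)]

/-- the transformation rule under a real Möbius map. -/
theorem cau_mobius {k : ℕ} (hk : 2 ≤ k) {a b c d : ℝ} (hdet : a * d - b * c = 1) (hc : c ≠ 0)
    (L : ℝ → ℂ) {z : ℂ} (hz : z.im ≠ 0) :
    ((c : ℂ) * z + d) ^ (-(k : ℤ)) * cau k L (((a : ℂ) * z + b) / ((c : ℂ) * z + d)) =
      ∫ t : ℝ, ((c : ℂ) * t + d) ^ (k - 2) * L ((a * t + b) / (c * t + d)) *
        ((t : ℂ) - z) ^ (-(k : ℤ)) := by
  have hz0 : (c : ℂ) * z + d ≠ 0 := by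
    intro h
    have := congrArg Complex.im h
    simp at this
    exact this.elim hc hz
  unfold cau
  rw [integral_mobius hdet hc, ← integral_const_mul]
  refine integral_congr_ae ((ae_ne (-d / c)).mono fun t ht => ?_)
  have ht0 : c * t + d ≠ 0 := by
    intro h
    apply ht
    rw [eq_div_iff hc]
    linarith
  have htc : (c : ℂ) * t + d ≠ 0 := by exact_mod_cast ht0
  have hne := kn_ne t hz
  have hdc : (a : ℂ) * d - b * c = 1 := by exact_mod_cast hdet
  obtain ⟨j, rfl⟩ : ∃ j, k = j + 2 := ⟨k - 2, by omega⟩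
  simp only [Nat.add_sub_cancel]
  have h1 : ((((a * t + b) / (c * t + d) : ℝ)) : ℂ) - (((a : ℂ) * z + b) / ((c : ℂ) * z + d)) =
      ((t : ℂ) - z) / (((c : ℂ) * t + d) * ((c : ℂ) * z + d)) := by
    push_cast
    rw [div_sub_div _ _ htc hz0, div_left_inj' (mul_ne_zero htc hz0)]
    linear_combination ((t : ℂ) - z) * hdc
  rw [h1, Complex.real_smul, zpow_neg, zpow_neg, zpow_neg, zpow_natCast, zpow_natCast,
    zpow_natCast]
  push_cast
  rw [div_pow, mul_pow]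
  have hne' := pow_ne_zero (j + 2) hne
  field_simp
  ring

/-! ### polynomials -/

theorem integral_kn {k : ℕ} (hk : 2 ≤ k) {z : ℂ} (hz : z.im ≠ 0) :
    ∫ t : ℝ, ((t : ℂ) - z) ^ (-(k : ℤ)) = 0 := by
  obtain ⟨j, rfl⟩ : ∃ j, k = j + 2 := ⟨k - 2, by omega⟩
  have hd : ∀ t : ℝ, HasDerivAt (fun t : ℝ => -((j : ℂ) + 1)⁻¹ * ((t : ℂ) - z) ^ (-((j : ℤ) + 1)))
      (((t : ℂ) - z) ^ (-((j + 2 : ℕ) : ℤ))) t := by
    intro t
    have h1 : HasDerivAt (fun t : ℝ => (t : ℂ) - z) 1 t :=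
      (Complex.ofRealCLM.hasDerivAt).sub_const z
    have h2 := (hasDerivAt_zpow (-((j : ℤ) + 1)) ((t : ℂ) - z) (Or.inl (kn_ne t hz))).comp t h1
    have h3 := h2.const_mul (-((j : ℂ) + 1)⁻¹)
    have hj : ((j : ℂ) + 1) ≠ 0 := by exact_mod_cast Nat.succ_ne_zero j
    have h4 : (-((j : ℂ) + 1)⁻¹ * (((-((j : ℤ) + 1) : ℤ) : ℂ) *
        ((t : ℂ) - z) ^ (-((j : ℤ) + 1) - 1) * 1)) = ((t : ℂ) - z) ^ (-((j + 2 : ℕ) : ℤ)) := by
      rw [show (-((j : ℤ) + 1) - 1) = -((j + 2 : ℕ) : ℤ) by push_cast; ring]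
      push_cast
      field_simp
    rw [h4] at h3
    exact h3
  have hlim : Tendsto (fun t : ℝ => -((j : ℂ) + 1)⁻¹ * ((t : ℂ) - z) ^ (-((j : ℤ) + 1)))
      (cocompact ℝ) (𝓝 0) := by
    have h1 : Tendsto (fun t : ℝ => ‖(t : ℂ) - z‖) (cocompact ℝ) atTop := by
      refine tendsto_atTop_mono (f := fun t : ℝ => ‖t‖ - ‖z‖) (fun t => ?_) ?_
      · have := norm_sub_norm_le (t : ℂ) z
        simpa using this
      · exact tendsto_atTop_add_const_right _ _ tendsto_norm_cocompact_atTop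
    have h2 : Tendsto (fun t : ℝ => ((t : ℂ) - z) ^ (-((j : ℤ) + 1))) (cocompact ℝ) (𝓝 0) := by
      rw [tendsto_zero_iff_norm_tendsto_zero]
      have h3 : (fun t : ℝ => ‖((t : ℂ) - z) ^ (-((j : ℤ) + 1))‖) =
          fun t : ℝ => (‖(t : ℂ) - z‖ ^ (j + 1))⁻¹ := by
        funext t
        rw [zpow_neg, show ((j : ℤ) + 1) = ((j + 1 : ℕ) : ℤ) by push_cast; ring, zpow_natCast,
          norm_inv, norm_pow]
      rw [h3]
      exact tendsto_inv_atTop_zero.comp ((tendsto_pow_atTop (Nat.succ_ne_zero j)).comp h1)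
    simpa using h2.const_mul (-((j : ℂ) + 1)⁻¹)
  have hbot := hlim.mono_left (atBot_le_cocompact (α := ℝ))
  have htop := hlim.mono_left (atTop_le_cocompact (α := ℝ))
  have := integral_of_hasDerivAt_of_tendsto hd (kn_integrable hk hz) hbot htop
  simpa using this

theorem poly_kn_eq {k : ℕ} (hk : 2 ≤ k) {P : ℂ[X]} (hP : P.natDegree ≤ k - 2) {z : ℂ}
    (hz : z.im ≠ 0) (t : ℝ) :
    P.eval (t : ℂ) * ((t : ℂ) - z) ^ (-(k : ℤ)) =
      ∑ i ∈ Finset.range (k - 1), (taylor z P).coeff i * ((t : ℂ) - z) ^ (-((k - i : ℕ) : ℤ)) := by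
  have hne := kn_ne t hz
  have h1 : P.eval (t : ℂ) = (taylor z P).eval ((t : ℂ) - z) := by
    rw [taylor_eval, sub_add_cancel]
  have hd : (taylor z P).natDegree < k - 1 := by
    rw [natDegree_taylor]
    omega
  rw [h1, eval_eq_sum_range' hd, Finset.sum_mul]
  refine Finset.sum_congr rfl fun i hi => ?_
  have hi' : i < k - 1 := Finset.mem_range.1 hi
  rw [mul_assoc]
  congr 1
  rw [← zpow_natCast, ← zpow_add₀ hne]
  congr 1
  omega

theorem poly_kn_integrable {k : ℕ} (hk : 2 ≤ k) {P : ℂ[X]} (hP : P.natDegree ≤ k - 2) {z : ℂ}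
    (hz : z.im ≠ 0) :
    Integrable (fun t : ℝ => P.eval (t : ℂ) * ((t : ℂ) - z) ^ (-(k : ℤ))) := by
  simp_rw [poly_kn_eq hk hP hz]
  refine integrable_finsetSum _ fun i hi => ?_
  have hi' : i < k - 1 := Finset.mem_range.1 hi
  exact (kn_integrable (by omega) hz).const_mul _

theorem integral_poly_kn {k : ℕ} (hk : 2 ≤ k) {P : ℂ[X]} (hP : P.natDegree ≤ k - 2) {z : ℂ}
    (hz : z.im ≠ 0) :
    ∫ t : ℝ, P.eval (t : ℂ) * ((t : ℂ) - z) ^ (-(k : ℤ)) = 0 := by
  simp_rw [poly_kn_eq hk hP hz]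
  rw [integral_finsetSum]
  · refine Finset.sum_eq_zero fun i hi => ?_
    have hi' : i < k - 1 := Finset.mem_range.1 hi
    rw [integral_const_mul, integral_kn (by omega) hz, mul_zero]
  · intro i hi
    have hi' : i < k - 1 := Finset.mem_range.1 hi
    exact (kn_integrable (by omega) hz).const_mul _

/-- equality up to a polynomial of degree `≤ k - 2`, almost everywhere. -/
theorem cau_congr_poly {k : ℕ} (hk : 2 ≤ k) {L : ℝ → ℂ} {G : ℝ → ℂ} (hc : Continuous L) {B : ℝ}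
    (hB : ∀ t, ‖L t‖ ≤ B) {P : ℂ[X]} (hP : P.natDegree ≤ k - 2) {z : ℂ} (hz : z.im ≠ 0)
    (hG : ∀ᵐ t : ℝ, G t = L t + P.eval (t : ℂ)) :
    ∫ t : ℝ, G t * ((t : ℂ) - z) ^ (-(k : ℤ)) = cau k L z := by
  have h1 : ∫ t : ℝ, G t * ((t : ℂ) - z) ^ (-(k : ℤ)) =
      ∫ t : ℝ, (L t * ((t : ℂ) - z) ^ (-(k : ℤ)) + P.eval (t : ℂ) * ((t : ℂ) - z) ^ (-(k : ℤ))) := by
    refine integral_congr_ae (hG.mono fun t ht => ?_)
    simp only
    rw [ht]
    ring
  rw [h1, integral_add (cau_integrable hk hc hB hz) (poly_kn_integrable hk hP hz),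
    integral_poly_kn hk hP hz, add_zero]
  rfl

/-- the rule for `S`. -/
theorem cau_S {n : ℕ} {L L' : ℝ → ℂ} (hc : Continuous L') {B : ℝ} (hB : ∀ t, ‖L' t‖ ≤ B)
    {P : ℂ[X]} (hP : P.natDegree ≤ n) {z : ℂ} (hz : z.im ≠ 0)
    (h : ∀ t : ℝ, t ≠ 0 → (t : ℂ) ^ n * L (-1 / t) = L' t + P.eval (t : ℂ)) :
    z ^ (-((n + 2 : ℕ) : ℤ)) * cau (n + 2) L (-1 / z) = cau (n + 2) L' z := by
  rw [cau_inv (by omega) L hz]
  exact cau_congr_poly (by omega) hc hB (by simpa using hP) hz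
    ((ae_ne 0).mono fun t ht => by simpa using h t ht)

/-- the rule for a real Möbius map. -/
theorem cau_slash {n : ℕ} {a b c d : ℝ} (hdet : a * d - b * c = 1) {L L' : ℝ → ℂ}
    (hc : Continuous L') {B : ℝ} (hB : ∀ t, ‖L' t‖ ≤ B)
    {P : ℂ[X]} (hP : P.natDegree ≤ n) {z : ℂ} (hz : z.im ≠ 0)
    (h : ∀ t : ℝ, c * t + d ≠ 0 →
      ((c : ℂ) * t + d) ^ n * L ((a * t + b) / (c * t + d)) = L' t + P.eval (t : ℂ)) :
    ((c : ℂ) * z + d) ^ (-((n + 2 : ℕ) : ℤ)) *
      cau (n + 2) L (((a : ℂ) * z + b) / ((c : ℂ) * z + d)) = cau (n + 2) L' z := by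
  by_cases hc0 : c = 0
  · subst hc0
    have had : a * d = 1 := by linarith
    have hd0 : d ≠ 0 := right_ne_zero_of_mul_eq_one had
    have ha : a = d⁻¹ := eq_inv_of_mul_eq_one_left had
    have hdc : (d : ℂ) ≠ 0 := by exact_mod_cast hd0
    have h1 : ∀ t : ℝ, (d : ℂ) ^ n * L ((a * t + b) / d) = L' t + P.eval (t : ℂ) := by
      intro t
      have := h t (by simpa using hd0)
      simpa using this
    simp only [Complex.ofReal_zero, zero_mul, zero_add]
    rw [← cau_congr_poly (by omega) hc hB (by simpa using hP) hz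
      (Eventually.of_forall h1)]
    have hL : ∀ t : ℝ, L ((a * t + b) / d) = L (t / d ^ 2 + b / d) := by
      intro t
      congr 1
      rw [ha]
      field_simp
    unfold cau
    rw [← integral_add_right_eq_self (fun t : ℝ => L t *
      ((t : ℂ) - ((a : ℂ) * z + b) / d) ^ (-((n + 2 : ℕ) : ℤ))) (b / d)]
    have hm := Measure.integral_comp_div (fun t : ℝ => L (t + b / d) *
      (((t + b / d : ℝ) : ℂ) - ((a : ℂ) * z + b) / d) ^ (-((n + 2 : ℕ) : ℤ))) (d ^ 2)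
    rw [abs_of_nonneg (by positivity)] at hm
    have hm' : (∫ t : ℝ, L (t + b / d) *
        (((t + b / d : ℝ) : ℂ) - ((a : ℂ) * z + b) / d) ^ (-((n + 2 : ℕ) : ℤ))) =
        ((d ^ 2)⁻¹ : ℝ) • ∫ t : ℝ, L (t / d ^ 2 + b / d) *
          (((t / d ^ 2 + b / d : ℝ) : ℂ) - ((a : ℂ) * z + b) / d) ^ (-((n + 2 : ℕ) : ℤ)) := by
      rw [hm, smul_smul, inv_mul_cancel₀ (by positivity), one_smul]
    rw [hm', Complex.real_smul, ← integral_const_mul, ← integral_const_mul]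
    refine integral_congr_ae (Eventually.of_forall fun t => ?_)
    simp only
    rw [hL t]
    have hac : (a : ℂ) = (d : ℂ)⁻¹ := by rw [ha]; push_cast; rfl
    have h3 : (((t / d ^ 2 + b / d : ℝ) : ℂ) - ((a : ℂ) * z + b) / d) =
        ((t : ℂ) - z) / (d : ℂ) ^ 2 := by
      push_cast
      rw [hac]
      field_simp
      ring
    rw [h3, zpow_neg, zpow_neg, zpow_neg, zpow_natCast, zpow_natCast, zpow_natCast, div_pow]
    push_cast
    have hne' := pow_ne_zero (n + 2) (kn_ne t hz)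
    field_simp
    ring
  · rw [cau_mobius (by omega) hdet hc0 L hz]
    refine cau_congr_poly (by omega) hc hB (by simpa using hP) hz
      ((ae_ne (-d / c)).mono fun t ht => ?_)
    have ht0 : c * t + d ≠ 0 := by
      intro h'
      apply ht
      rw [eq_div_iff hc0]
      linarith
    simpa using h t ht0

/-! ### holomorphy -/

theorem kn_bound_ball {k : ℕ} {z w : ℂ} (hz : z.im ≠ 0) (hw : ‖w - z‖ ≤ |z.im| / 2) (t : ℝ) :
    ‖((t : ℂ) - w) ^ (-(k : ℤ))‖ ≤ 2 ^ k * ‖((t : ℂ) - z) ^ (-(k : ℤ))‖ := by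
  have h0 : 0 < ‖(t : ℂ) - z‖ := norm_pos_iff.2 (kn_ne t hz)
  have h1 : ‖(t : ℂ) - z‖ / 2 ≤ ‖(t : ℂ) - w‖ := by
    have h2 : ‖(t : ℂ) - z‖ ≤ ‖(t : ℂ) - w‖ + ‖w - z‖ := by
      have := norm_add_le ((t : ℂ) - w) (w - z)
      simpa using this
    have h3 := kn_im_le t z
    linarith
  rw [zpow_neg, zpow_neg, zpow_natCast, zpow_natCast, norm_inv, norm_inv, norm_pow, norm_pow]
  have h4 : (‖(t : ℂ) - z‖ / 2) ^ k ≤ ‖(t : ℂ) - w‖ ^ k := pow_le_pow_left₀ (by positivity) h1 k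
  have h5 : (‖(t : ℂ) - w‖ ^ k)⁻¹ ≤ ((‖(t : ℂ) - z‖ / 2) ^ k)⁻¹ := inv_anti₀ (by positivity) h4
  refine h5.trans (le_of_eq ?_)
  rw [div_pow]
  field_simp

theorem cau_hasDerivAt {k : ℕ} (hk : 2 ≤ k) {L : ℝ → ℂ} (hc : Continuous L) {B : ℝ}
    (hB : ∀ t, ‖L t‖ ≤ B) {z : ℂ} (hz : z.im ≠ 0) :
    HasDerivAt (cau k L) (k * cau (k + 1) L z) z := by
  have hB0 : 0 ≤ B := (norm_nonneg _).trans (hB 0)
  have hpos : 0 < |z.im| / 2 := half_pos (abs_pos.2 hz)
  have him : ∀ w ∈ Metric.ball z (|z.im| / 2), w.im ≠ 0 := by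
    intro w hw h
    have h1 : ‖w - z‖ < |z.im| / 2 := by simpa [dist_eq_norm] using hw
    have h2 := Complex.abs_im_le_norm (w - z)
    rw [Complex.sub_im, h, zero_sub, abs_neg] at h2
    linarith
  have key := hasDerivAt_integral_of_dominated_loc_of_deriv_le
    (F := fun (w : ℂ) (t : ℝ) => L t * ((t : ℂ) - w) ^ (-(k : ℤ)))
    (F' := fun (w : ℂ) (t : ℝ) => L t * (k * ((t : ℂ) - w) ^ (-((k + 1 : ℕ) : ℤ))))
    (bound := fun t : ℝ => B * (k * (2 ^ (k + 1) * ‖((t : ℂ) - z) ^ (-((k + 1 : ℕ) : ℤ))‖)))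
    (μ := (volume : Measure ℝ)) (Metric.ball_mem_nhds z hpos)
    (by
      filter_upwards [Metric.ball_mem_nhds z hpos] with w hw
      exact (hc.mul (kn_continuous k (him w hw))).aestronglyMeasurable)
    (cau_integrable hk hc hB hz)
    (by
      exact (hc.mul (continuous_const.mul (kn_continuous (k + 1) hz))).aestronglyMeasurable)
    (Eventually.of_forall fun t w hw => by
      have h1 : ‖w - z‖ ≤ |z.im| / 2 := by
        have : ‖w - z‖ < |z.im| / 2 := by simpa [dist_eq_norm] using hw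
        exact this.le
      have h2 := kn_bound_ball (k := k + 1) hz h1 t
      rw [norm_mul, norm_mul, Complex.norm_natCast]
      exact mul_le_mul (hB t) (mul_le_mul_of_nonneg_left h2 (Nat.cast_nonneg k)) (by positivity) hB0)
    ((((kn_integrable (k := k + 1) (by omega) hz).norm.const_mul _).const_mul _).const_mul _)
    (Eventually.of_forall fun t w hw => by
      have h0 := kn_ne t (him w hw)
      have h1 : HasDerivAt (fun w : ℂ => (t : ℂ) - w) (-1) w := by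
        simpa using (hasDerivAt_id w).const_sub (t : ℂ)
      have h2 := (hasDerivAt_zpow (-(k : ℤ)) ((t : ℂ) - w) (Or.inl h0)).comp w h1
      have h3 := h2.const_mul (L t)
      have h4 : (L t * (((-(k : ℤ) : ℤ) : ℂ) * ((t : ℂ) - w) ^ (-(k : ℤ) - 1) * (-1))) =
          L t * (k * ((t : ℂ) - w) ^ (-((k + 1 : ℕ) : ℤ))) := by
        rw [show (-(k : ℤ) - 1) = -((k + 1 : ℕ) : ℤ) by push_cast; ring]
        push_cast
        ring
      rw [h4] at h3
      exact h3)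
  have h5 := key.2
  have h6 : (∫ t : ℝ, L t * (k * ((t : ℂ) - z) ^ (-((k + 1 : ℕ) : ℤ)))) =
      k * cau (k + 1) L z := by
    unfold cau
    rw [← integral_const_mul]
    refine integral_congr_ae (Eventually.of_forall fun t => ?_)
    simp only
    ring
  rw [h6] at h5
  exact h5

theorem cau_differentiableOn {k : ℕ} (hk : 2 ≤ k) {L : ℝ → ℂ} (hc : Continuous L) {B : ℝ}
    (hB : ∀ t, ‖L t‖ ≤ B) : DifferentiableOn ℂ (cau k L) {z | z.im ≠ 0} :=
  fun _ hz => (cau_hasDerivAt hk hc hB hz).differentiableAt.differentiableWithinAt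

open UpperHalfPlane Manifold in
theorem cau_mdiff {k : ℕ} (hk : 2 ≤ k) {L : ℝ → ℂ} (hc : Continuous L) {B : ℝ}
    (hB : ∀ t, ‖L t‖ ≤ B) :
    MDifferentiable 𝓘(ℂ) 𝓘(ℂ) (fun z : ℍ => cau k L (z : ℂ)) := by
  rw [UpperHalfPlane.mdifferentiable_iff]
  have h : DifferentiableOn ℂ (cau k L) {z | 0 < z.im} :=
    (cau_differentiableOn hk hc hB).mono fun z hz => ne_of_gt hz
  refine h.congr fun z hz => ?_
  simp only [Function.comp]
  rw [ofComplex_apply_of_im_pos hz]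

open UpperHalfPlane in
theorem cau_isZeroAtImInfty {k : ℕ} (hk : 2 ≤ k) {L : ℝ → ℂ} {B : ℝ}
    (hB : ∀ t, ‖L t‖ ≤ B) : IsZeroAtImInfty (fun z : ℍ => cau k L (z : ℂ)) := by
  have hB0 : 0 ≤ B := (norm_nonneg _).trans (hB 0)
  rw [isZeroAtImInfty_iff]
  intro ε hε
  refine ⟨max 1 (B * Real.pi / ε), fun z hz => ?_⟩
  have h1 : 1 ≤ z.im := (le_max_left _ _).trans hz
  have h2 : B * Real.pi / ε ≤ z.im := (le_max_right _ _).trans hz
  have hz0 : (z : ℂ).im ≠ 0 := z.im_ne_zero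
  refine (norm_cau_le hk hB hz0).trans ?_
  have h3 : |(z : ℂ).im| = z.im := abs_of_pos z.im_pos
  rw [h3]
  have h4 : z.im ≤ z.im ^ (k - 1) := by
    calc z.im = z.im ^ 1 := (pow_one _).symm
      _ ≤ z.im ^ (k - 1) := pow_le_pow_right₀ h1 (by omega)
  rw [div_le_iff₀ (by positivity)]
  rw [div_le_iff₀ hε] at h2
  calc B * Real.pi ≤ z.im * ε := h2
    _ ≤ ε * z.im ^ (k - 1) := by nlinarith

end Gouvea.Theta
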