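import Pool.Agent.Work.MP_d3517d_nt.ES.Period

/-!
# The theta map: definitions (cell THETA, MP_d3517d_nt)

A full modular symbol `φ` (function of two cusps, polynomials of degree `≤ n`, additive, with a
finite orbit under `SL₂(ℤ)`) has an edge function `edge φ r = φ(∞, r)(r)` on the rational numbers;
for `n ≥ 2` even it extends to a bounded continuous function `edgeR φ` on `ℝ`, and
`thF n φ z = ∫ edgeR φ t (t - z)^{-(n+2)} dt` is a cusp form of weight `n + 2`.
-/

open Filter Topology UpperHalfPlane CongruenceSubgroup Polynomial MeasureTheory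
open scoped MatrixGroups ModularForm ComplexConjugate Manifold

noncomputable section

namespace Gouvea.Theta

open Gouvea.ES

/-- functions of two cusps with values in the polynomials. -/
abbrev Symb := OnePoint ℚ → OnePoint ℚ → ℂ[X]

/-- the right action of `GL₂(ℚ)` -/
def fact (n : ℕ) (g : GQ) (φ : Symb) : Symb :=
  fun x y => slashM n (matOf ℂ g) (φ (g • x) (g • y))

/-- full modular symbols with a finite orbit. -/
structure FS (n : ℕ) (φ : Symb) : Prop where
  deg : ∀ x y, (φ x y).natDegree ≤ n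
  add : ∀ x y z, φ x y + φ y z = φ x z
  fin : (Set.range fun g : SL(2, ℤ) =>
    fact n (Matrix.SpecialLinearGroup.mapGL ℚ g) φ).Finite

/-- the edge function on the rational numbers. -/
def edge (φ : Symb) (r : ℚ) : ℂ :=
  (φ OnePoint.infty ((r : ℚ) : OnePoint ℚ)).eval ((r : ℝ) : ℂ)

open Classical in
/-- the continuous extension of the edge function. -/
def edgeR (φ : Symb) : ℝ → ℂ :=
  if h : ∃ L : ℝ → ℂ, Continuous L ∧ ∀ r : ℚ, L (r : ℝ) = edge φ r then h.choose else 0

/-- the Cauchy type integral of a function on the line. -/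
def cau (k : ℕ) (L : ℝ → ℂ) (z : ℂ) : ℂ := ∫ t : ℝ, L t * ((t : ℂ) - z) ^ (-(k : ℤ))

/-- the function on the upper half plane attached to a full symbol. -/
def thF (n : ℕ) (φ : Symb) : ℍ → ℂ := fun z => cau (n + 2) (edgeR φ) (z : ℂ)

/-- boundary symbols invariant under `Γ₀(M)`. -/
structure IsBdry (n M : ℕ) (φ : Symb) : Prop where
  ex : ∃ w : OnePoint ℚ → ℂ[X], (∀ x, (w x).natDegree ≤ n) ∧
    (∀ g ∈ Gamma0 M, ∀ x, slashM n (matOf ℂ (Matrix.SpecialLinearGroup.mapGL ℚ g))
      (w ((Matrix.SpecialLinearGroup.mapGL ℚ g : GQ) • x)) = w x) ∧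
    ∀ x y, φ x y = w x - w y

/-- full symbols invariant under `Γ₀(M)`. -/
structure FSM (n M : ℕ) (φ : Symb) : Prop where
  deg : ∀ x y, (φ x y).natDegree ≤ n
  add : ∀ x y z, φ x y + φ y z = φ x z
  inv : ∀ g ∈ Gamma0 M, fact n (Matrix.SpecialLinearGroup.mapGL ℚ g) φ = φ

end Gouvea.Theta
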