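import Pool.Agent.Work.MP_d3517d_nt.ES.ThetaKer
import Pool.Agent.Work.MP_d3517d_nt.ES.FourierInj
import Pool.Agent.Work.MP_d3517d_nt.ES.Fourier

/-!
# The Cauchy integral of the moments of a cusp form (MP_d3517d_nt, ES, Theta)

`theta_vmom`: for a cusp form `f` of weight `n + 2`, the integral over the real line of
`vmom f n t * (t - z)^(-(n+2))` is a non zero constant times `f z`; with `vmom f n (-t)` it is zero.
-/

open MeasureTheory Set Filter Topology Complex Asymptotics
open scoped Real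

noncomputable section

namespace Gouvea.ES.Th

open Pool.Agent.Gouv.ES

variable {Γ : Subgroup (GL (Fin 2) ℝ)} [Γ.IsArithmetic] {k : ℤ}

/-- the majorant of a cusp form on horizontal lines. -/
def maj (κ A C1 C2 c : ℝ) (s : ℝ) : ℝ := if s ≤ A then C1 / s ^ κ else C2 * Real.exp (-c * s)

lemma maj_bound (f : CuspForm Γ k) : ∃ A C1 C2 c : ℝ, 0 < A ∧ 0 ≤ C1 ∧ 0 ≤ C2 ∧ 0 < c ∧
    ∀ τ : UpperHalfPlane, ‖f τ‖ ≤ maj ((k : ℝ) / 2) A C1 C2 c τ.im := by
  have hh : 0 < Γ.strictWidthInfty := Γ.strictWidthInfty_pos_iff.mpr Fact.out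
  have hΓ : Γ.strictWidthInfty ∈ Γ.strictPeriods := Γ.strictWidthInfty_mem_strictPeriods
  obtain ⟨C1, hC1⟩ := CuspFormClass.exists_bound f
  have hO := CuspFormClass.exp_decay_atImInfty f hh hΓ
  obtain ⟨C2, hC2⟩ := hO.bound
  obtain ⟨A, hA⟩ := (UpperHalfPlane.atImInfty_mem _).mp hC2
  refine ⟨max A 1, |C1|, |C2|, 2 * π / Γ.strictWidthInfty, by positivity, abs_nonneg _,
    abs_nonneg _, by positivity, fun τ => ?_⟩
  unfold maj
  split_ifs with h
  · refine (hC1 τ).trans ?_
    have : 0 < τ.im ^ ((k : ℝ) / 2) := Real.rpow_pos_of_pos τ.im_pos _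
    gcongr
    exact le_abs_self _
  · have h1 : A ≤ τ.im := (le_max_left _ _).trans (not_le.mp h).le
    have h2 := hA τ h1
    refine (show ‖f τ‖ ≤ _ from h2).trans ?_
    rw [Real.norm_of_nonneg (Real.exp_pos _).le]
    have e : (-2 * π * τ.im / Γ.strictWidthInfty) = -(2 * π / Γ.strictWidthInfty) * τ.im := by
      ring
    rw [e]
    gcongr
    exact le_abs_self _

lemma maj_nonneg {κ A C1 C2 c : ℝ} (h1 : 0 ≤ C1) (h2 : 0 ≤ C2) {s : ℝ} (hs : 0 < s) :
    0 ≤ maj κ A C1 C2 c s := by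
  unfold maj
  split_ifs
  · positivity
  · positivity

lemma maj_integrable {κ A C1 C2 c : ℝ} (hA : 0 < A) (hc : 0 < c) {n : ℕ} (hn : κ < n + 1) :
    IntegrableOn (fun s : ℝ => maj κ A C1 C2 c s * s ^ n) (Ioi 0) := by
  rw [← Ioc_union_Ioi_eq_Ioi hA.le]
  refine IntegrableOn.union ?_ ?_
  · have h0 : IntervalIntegrable (fun s : ℝ => s ^ ((n : ℝ) - κ)) volume 0 A :=
      intervalIntegral.intervalIntegrable_rpow' (by linarith)
    have h1 : IntegrableOn (fun s : ℝ => C1 * s ^ ((n : ℝ) - κ)) (Ioc 0 A) :=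
      ((intervalIntegrable_iff_integrableOn_Ioc_of_le hA.le).mp h0).const_mul C1
    refine h1.congr_fun (fun s hs => ?_) measurableSet_Ioc
    have hs0 : 0 < s := hs.1
    simp only [maj]
    rw [if_pos hs.2, Real.rpow_sub hs0, Real.rpow_natCast]
    ring
  · have h0 : IntegrableOn (fun s : ℝ => s ^ (n : ℝ) * Real.exp (-c * s ^ (1 : ℝ))) (Ioi 0) :=
      integrableOn_rpow_mul_exp_neg_mul_rpow
        (by have : (0 : ℝ) ≤ n := Nat.cast_nonneg n
            linarith) one_pos hc
    have h1 : IntegrableOn (fun s : ℝ => C2 * (s ^ (n : ℝ) * Real.exp (-c * s ^ (1 : ℝ))))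
        (Ioi A) := (h0.mono_set (Ioi_subset_Ioi hA.le)).const_mul C2
    refine h1.congr_fun (fun s hs => ?_) measurableSet_Ioi
    have hs0 : A < s := hs
    simp only [maj]
    rw [if_neg (not_le.mpr hs0), Real.rpow_natCast, Real.rpow_one]
    ring

lemma measurable_maj (κ A C1 C2 c : ℝ) : Measurable (maj κ A C1 C2 c) := by
  unfold maj
  refine Measurable.ite measurableSet_Iic ?_ ?_
  · exact measurable_const.div (measurable_id.pow_const κ)
  · fun_prop

omit [Γ.IsArithmetic] in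
lemma bound_point (f : CuspForm Γ k) {A C1 C2 c : ℝ}
    (hb : ∀ τ : UpperHalfPlane, ‖f τ‖ ≤ maj ((k : ℝ) / 2) A C1 C2 c τ.im) (x : ℝ) {s : ℝ}
    (hs : 0 < s) : ‖f (UpperHalfPlane.ofComplex ((x : ℂ) + s * I))‖
      ≤ maj ((k : ℝ) / 2) A C1 C2 c s := by
  have him : 0 < ((x : ℂ) + s * I).im := by simpa using hs
  have h1 := hb (UpperHalfPlane.ofComplex ((x : ℂ) + s * I))
  rw [UpperHalfPlane.ofComplex_apply_of_im_pos him] at h1 ⊢
  have e : ((⟨(x : ℂ) + s * I, him⟩ : UpperHalfPlane)).im = s := by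
    change ((x : ℂ) + s * I).im = s
    simp
  rw [e] at h1
  exact h1

omit [Γ.IsArithmetic] in
lemma continuousOn_joint (f : CuspForm Γ k) (ε : ℝ) :
    ContinuousOn (fun p : ℝ × ℝ => f (UpperHalfPlane.ofComplex (((ε * p.1 : ℝ) : ℂ) + p.2 * I)))
      (univ ×ˢ Ioi 0) := by
  intro p hp
  have hp2 : (0 : ℝ) < p.2 := hp.2
  have him : 0 < (((ε * p.1 : ℝ) : ℂ) + p.2 * I).im := by simpa using hp2
  have h1 : ContinuousAt (fun z : ℂ => f (UpperHalfPlane.ofComplex z))
      (((ε * p.1 : ℝ) : ℂ) + p.2 * I) := by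
    have hd : DifferentiableOn ℂ (f ∘ UpperHalfPlane.ofComplex) {z : ℂ | 0 < z.im} :=
      UpperHalfPlane.mdifferentiable_iff.mp (ModularFormClass.holo f)
    exact ((hd _ him).differentiableAt
      ((isOpen_lt continuous_const Complex.continuous_im).mem_nhds him)).continuousAt
  have h2 : ContinuousAt (fun p : ℝ × ℝ => (((ε * p.1 : ℝ) : ℂ) + p.2 * I)) p := by fun_prop
  exact (ContinuousAt.comp (f := fun p : ℝ × ℝ => (((ε * p.1 : ℝ) : ℂ) + p.2 * I))
    (g := fun z : ℂ => f (UpperHalfPlane.ofComplex z)) h1 h2).continuousWithinAt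

/-- the moments are continuous. -/
theorem continuous_vmom (f : CuspForm Γ k) {n : ℕ} (hn : (k : ℝ) / 2 < n + 1) :
    Continuous (fun x : ℝ => vmom f n x) := by
  obtain ⟨A, C1, C2, c, hA, h1, h2, hc, hb⟩ := maj_bound f
  unfold vmom
  refine continuous_of_dominated (bound := fun s => maj ((k : ℝ) / 2) A C1 C2 c s * s ^ n)
    (fun x => ?_) (fun x => ?_) (maj_integrable hA hc hn) ?_
  · refine ContinuousOn.aestronglyMeasurable ?_ measurableSet_Ioi
    refine ContinuousOn.mul ?_ (by fun_prop)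
    have h3 := (continuousOn_joint f 1).comp (f := fun s : ℝ => (x, s)) (t := univ ×ˢ Ioi (0 : ℝ))
      (s := Ioi 0) (by fun_prop) (fun s hs => ⟨mem_univ _, hs⟩)
    refine h3.congr fun s _ => ?_
    simp
  · rw [ae_restrict_iff' measurableSet_Ioi]
    refine Eventually.of_forall fun s hs => ?_
    have hs' : (0 : ℝ) < s := hs
    rw [norm_mul, norm_pow, Complex.norm_real, Real.norm_of_nonneg hs'.le]
    exact mul_le_mul_of_nonneg_right (bound_point f hb x hs') (by positivity)
  · rw [ae_restrict_iff' measurableSet_Ioi]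
    refine Eventually.of_forall fun s hs => ?_
    have hs' : (0 : ℝ) < s := hs
    refine Continuous.mul ?_ continuous_const
    rw [← continuousOn_univ]
    have h3 := (continuousOn_joint f 1).comp (f := fun x : ℝ => (x, s)) (t := univ ×ˢ Ioi (0 : ℝ))
      (s := univ) (by fun_prop) (fun x _ => ⟨mem_univ _, hs⟩)
    refine h3.congr fun x _ => ?_
    simp

/-- the moments are bounded. -/
theorem bounded_vmom (f : CuspForm Γ k) {n : ℕ} (hn : (k : ℝ) / 2 < n + 1) :
    ∃ C : ℝ, ∀ x : ℝ, ‖vmom f n x‖ ≤ C := by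
  obtain ⟨A, C1, C2, c, hA, h1, h2, hc, hb⟩ := maj_bound f
  refine ⟨∫ s in Ioi (0 : ℝ), maj ((k : ℝ) / 2) A C1 C2 c s * s ^ n, fun x => ?_⟩
  rw [vmom]
  refine norm_integral_le_of_norm_le (maj_integrable hA hc hn) ?_
  rw [ae_restrict_iff' measurableSet_Ioi]
  refine Eventually.of_forall fun s hs => ?_
  have hs' : (0 : ℝ) < s := hs
  rw [norm_mul, norm_pow, Complex.norm_real, Real.norm_of_nonneg hs'.le]
  exact mul_le_mul_of_nonneg_right (bound_point f hb x hs') (by positivity)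

/-- the inner integral, over a horizontal line. -/
theorem hasSum_inner {n : ℕ} (f : CuspForm Γ k) {z : ℂ} (hz : 0 < z.im) (ε : ℝ) {s : ℝ}
    (hs : 0 < s) :
    HasSum (fun m : ℕ => ((UpperHalfPlane.qExpansion Γ.strictWidthInfty f).coeff m
        * ((2 * π * I) ^ (n + 2) / ((n + 1).factorial : ℂ)
          * hexp (n + 1) z (ε * (m / Γ.strictWidthInfty))))
        * (Real.exp (-(2 * π * m / Γ.strictWidthInfty) * s) : ℂ))
      (∫ t : ℝ, f (UpperHalfPlane.ofComplex (((ε * t : ℝ) : ℂ) + s * I))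
        * (((t : ℂ) - z) ^ (n + 2))⁻¹) := by
  have hh : 0 < Γ.strictWidthInfty := Γ.strictWidthInfty_pos_iff.mpr Fact.out
  have hΓ : Γ.strictWidthInfty ∈ Γ.strictPeriods := Γ.strictWidthInfty_mem_strictPeriods
  have hker : Integrable (fun t : ℝ => (((t : ℂ) - z) ^ (n + 2))⁻¹) :=
    integrable_kernel (by omega) hz
  set F : ℕ → ℝ → ℂ := fun m t => ((UpperHalfPlane.qExpansion Γ.strictWidthInfty f).coeff m
    * (Real.exp (-(2 * π * m / Γ.strictWidthInfty) * s) : ℂ))
    * (cexp (2 * π * I * ((ε * (m / Γ.strictWidthInfty) : ℝ) : ℂ) * t)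
      * (((t : ℂ) - z) ^ (n + 2))⁻¹) with hFdef
  have hexp1 : ∀ (m : ℕ) (t : ℝ),
      ‖cexp (2 * π * I * ((ε * (m / Γ.strictWidthInfty) : ℝ) : ℂ) * t)‖ = 1 := by
    intro m t
    have : (2 * π * I * ((ε * (m / Γ.strictWidthInfty) : ℝ) : ℂ) * t : ℂ)
        = ((2 * π * (ε * (m / Γ.strictWidthInfty)) * t : ℝ) : ℂ) * I := by
      push_cast
      ring
    rw [this, Complex.norm_exp_ofReal_mul_I]
  have hFint : ∀ m, Integrable (F m) := by
    intro m
    refine (Integrable.const_mul ?_ _)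
    refine hker.bdd_mul (c := 1) (by fun_prop) (Eventually.of_forall fun t => ?_)
    exact (hexp1 m t).le
  -- expansion of `f`
  have hf : ∀ t : ℝ, HasSum (fun m : ℕ => (UpperHalfPlane.qExpansion Γ.strictWidthInfty f).coeff m
      * (Real.exp (-(2 * π * m / Γ.strictWidthInfty) * s) : ℂ)
      * cexp (2 * π * I * ((ε * (m / Γ.strictWidthInfty) : ℝ) : ℂ) * t))
      (f (UpperHalfPlane.ofComplex (((ε * t : ℝ) : ℂ) + s * I))) := by
    intro t
    have him : 0 < (((ε * t : ℝ) : ℂ) + s * I).im := by simpa using hs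
    have h1 := ModularForm.hasSum_qExpansion f hh hΓ
      (UpperHalfPlane.ofComplex (((ε * t : ℝ) : ℂ) + s * I))
    refine h1.congr_fun fun m => ?_
    rw [UpperHalfPlane.ofComplex_apply_of_im_pos him, mul_assoc]
    congr 1
    rw [Function.Periodic.qParam, ← Complex.exp_nat_mul, Complex.ofReal_exp, ← Complex.exp_add]
    congr 1
    have hI : Complex.I * Complex.I = -1 := Complex.I_mul_I
    have hh' : (Γ.strictWidthInfty : ℂ) ≠ 0 := by exact_mod_cast hh.ne'
    push_cast
    field_simp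
    linear_combination (-(m * s : ℂ)) * hI
  have hsumn : Summable fun m : ℕ => ‖(UpperHalfPlane.qExpansion Γ.strictWidthInfty f).coeff m
      * (Real.exp (-(2 * π * m / Γ.strictWidthInfty) * s) : ℂ)‖ := by
    have h1 := (hf 0).summable.norm
    refine h1.congr fun m => ?_
    rw [norm_mul _ (cexp _), hexp1, mul_one]
  have key := hasSum_integral_of_summable_integral_norm (F := F) hFint ?_
  · have e1 : ∀ m, ∫ t : ℝ, F m t = ((UpperHalfPlane.qExpansion Γ.strictWidthInfty f).coeff m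
        * ((2 * π * I) ^ (n + 2) / ((n + 1).factorial : ℂ)
          * hexp (n + 1) z (ε * (m / Γ.strictWidthInfty))))
        * (Real.exp (-(2 * π * m / Γ.strictWidthInfty) * s) : ℂ) := by
      intro m
      have hk := kernel_fourier (m := n + 1) (Nat.succ_ne_zero n) hz
        (ε * (m / Γ.strictWidthInfty))
      have hk' : ∫ t : ℝ, cexp (2 * π * I * ((ε * (m / Γ.strictWidthInfty) : ℝ) : ℂ) * t)
          * (((t : ℂ) - z) ^ (n + 2))⁻¹ = (2 * π * I) ^ (n + 2) / ((n + 1).factorial : ℂ)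
          * hexp (n + 1) z (ε * (m / Γ.strictWidthInfty)) := hk
      rw [hFdef]
      simp only
      rw [integral_const_mul, hk']
      ring
    have e2 : (∫ t : ℝ, ∑' m, F m t) = ∫ t : ℝ,
        f (UpperHalfPlane.ofComplex (((ε * t : ℝ) : ℂ) + s * I))
        * (((t : ℂ) - z) ^ (n + 2))⁻¹ := by
      refine integral_congr_ae (Eventually.of_forall fun t => ?_)
      simp only
      have h2 := (hf t).mul_right ((((t : ℂ) - z) ^ (n + 2))⁻¹)
      rw [← h2.tsum_eq]
      refine tsum_congr fun m => ?_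
      rw [hFdef]
      ring
    rw [e2] at key
    exact key.congr_fun fun m => (e1 m).symm
  · have e3 : ∀ m, (∫ t : ℝ, ‖F m t‖) = ‖(UpperHalfPlane.qExpansion Γ.strictWidthInfty f).coeff m
      * (Real.exp (-(2 * π * m / Γ.strictWidthInfty) * s) : ℂ)‖
      * ∫ t : ℝ, ‖(((t : ℂ) - z) ^ (n + 2))⁻¹‖ := by
      intro m
      rw [← integral_const_mul]
      refine integral_congr_ae (Eventually.of_forall fun t => ?_)
      simp only [hFdef]
      rw [norm_mul, norm_mul (cexp _), hexp1, one_mul]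
    simp_rw [e3]
    exact hsumn.mul_right _

/-- Fubini. -/
theorem theta_swap {n : ℕ} (f : CuspForm Γ k) (hn : (k : ℝ) / 2 < n + 1) {z : ℂ}
    (hz : 0 < z.im) (ε : ℝ) :
    ∫ t : ℝ, vmom f n (ε * t) * (((t : ℂ) - z) ^ (n + 2))⁻¹
      = ∫ s in Ioi (0 : ℝ), (s : ℂ) ^ n
        * ∫ t : ℝ, f (UpperHalfPlane.ofComplex (((ε * t : ℝ) : ℂ) + s * I))
          * (((t : ℂ) - z) ^ (n + 2))⁻¹ := by
  obtain ⟨A, C1, C2, c, hA, h1, h2, hc, hb⟩ := maj_bound f
  have hker : Integrable (fun t : ℝ => (((t : ℂ) - z) ^ (n + 2))⁻¹) :=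
    integrable_kernel (by omega) hz
  have hprod : Integrable (Function.uncurry fun (t s : ℝ) =>
      f (UpperHalfPlane.ofComplex (((ε * t : ℝ) : ℂ) + s * I)) * (s : ℂ) ^ n
        * (((t : ℂ) - z) ^ (n + 2))⁻¹) (volume.prod (volume.restrict (Ioi 0))) := by
    have hdom := hker.norm.mul_prod (maj_integrable (κ := (k : ℝ) / 2) (C1 := C1) (C2 := C2)
      (n := n) hA hc hn)
    refine Integrable.mono' hdom ?_ ?_
    · have e : (volume : Measure ℝ).prod (volume.restrict (Ioi (0 : ℝ)))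
          = ((volume : Measure ℝ).prod volume).restrict (univ ×ˢ Ioi 0) := by
        rw [← Measure.prod_restrict, Measure.restrict_univ]
      rw [e]
      refine ContinuousOn.aestronglyMeasurable ?_ (MeasurableSet.univ.prod measurableSet_Ioi)
      refine ContinuousOn.mul (ContinuousOn.mul (continuousOn_joint f ε) (by fun_prop)) ?_
      refine Continuous.continuousOn ?_
      refine Continuous.inv₀ (by fun_prop) fun p => pow_ne_zero _ fun h => ?_
      have h3 := congrArg Complex.im h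
      simp at h3
      exact hz.ne' h3
    · have e : (volume : Measure ℝ).prod (volume.restrict (Ioi (0 : ℝ)))
          = ((volume : Measure ℝ).prod volume).restrict (univ ×ˢ Ioi 0) := by
        rw [← Measure.prod_restrict, Measure.restrict_univ]
      rw [e, ae_restrict_iff' (MeasurableSet.univ.prod measurableSet_Ioi)]
      refine Eventually.of_forall fun p hp => ?_
      have hs : (0 : ℝ) < p.2 := hp.2
      simp only [Function.uncurry]
      rw [norm_mul, norm_mul, norm_pow, Complex.norm_real, Real.norm_of_nonneg hs.le, mul_comm]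
      refine mul_le_mul_of_nonneg_left ?_ (norm_nonneg _)
      exact mul_le_mul_of_nonneg_right (bound_point f hb _ hs) (by positivity)
  have hswap := integral_integral_swap hprod
  have e1 : ∀ t : ℝ, vmom f n (ε * t) * (((t : ℂ) - z) ^ (n + 2))⁻¹
      = ∫ s in Ioi (0 : ℝ), f (UpperHalfPlane.ofComplex (((ε * t : ℝ) : ℂ) + s * I)) * (s : ℂ) ^ n
        * (((t : ℂ) - z) ^ (n + 2))⁻¹ := by
    intro t
    rw [vmom, integral_mul_const]
  simp_rw [e1]
  rw [hswap]
  refine integral_congr_ae (Eventually.of_forall fun s => ?_)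
  simp only
  rw [← integral_const_mul]
  refine integral_congr_ae (Eventually.of_forall fun t => ?_)
  simp only
  ring

/-- **The Cauchy integral of the moments of `f` is a multiple of `f`.** -/
theorem theta_vmom {n : ℕ} (hn : 0 < n) (f : CuspForm Γ ((n + 2 : ℕ) : ℤ))
    (τ : UpperHalfPlane) :
    ∫ t : ℝ, vmom f n t * (((t : ℂ) - τ) ^ (n + 2))⁻¹
      = (2 * π * I ^ (n + 2) / (n + 1)) * f τ := by
  have hz : 0 < (τ : ℂ).im := τ.im_pos
  have hk : (((n + 2 : ℕ) : ℤ) : ℝ) / 2 < n + 1 := by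
    have : (0 : ℝ) < n := by exact_mod_cast hn
    push_cast
    linarith
  have hh : 0 < Γ.strictWidthInfty := Γ.strictWidthInfty_pos_iff.mpr Fact.out
  have hΓ : Γ.strictWidthInfty ∈ Γ.strictPeriods := Γ.strictWidthInfty_mem_strictPeriods
  have ha0 : (UpperHalfPlane.qExpansion Γ.strictWidthInfty f).coeff 0 = 0 :=
    CuspFormClass.qExpansion_coeff_zero f hh hΓ
  have hsw := theta_swap f hk hz 1
  simp only [one_mul] at hsw
  rw [hsw]
  -- the value of the coefficient
  have hval : ∀ m : ℕ, ((UpperHalfPlane.qExpansion Γ.strictWidthInfty f).coeff m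
        * ((2 * π * I) ^ (n + 2) / ((n + 1).factorial : ℂ)
          * hexp (n + 1) τ (1 * (m / Γ.strictWidthInfty))))
        * ((n.factorial : ℂ) / (2 * π * m / Γ.strictWidthInfty) ^ (n + 1))
      = (2 * π * I ^ (n + 2) / (n + 1)) * ((UpperHalfPlane.qExpansion Γ.strictWidthInfty f).coeff m
        * Function.Periodic.qParam Γ.strictWidthInfty τ ^ m) := by
    intro m
    rcases Nat.eq_zero_or_pos m with rfl | hm
    · rw [ha0]
      ring
    · have hm' : (0 : ℝ) < m := by exact_mod_cast hm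
      have hmh : 0 < 1 * ((m : ℝ) / Γ.strictWidthInfty) := by positivity
      rw [hexp_of_pos _ _ hmh, Function.Periodic.qParam, ← Complex.exp_nat_mul, Nat.factorial_succ]
      have e1 : cexp (2 * π * I * ((1 * ((m : ℝ) / Γ.strictWidthInfty) : ℝ) : ℂ) * (τ : ℂ))
          = cexp (m * (2 * π * I * τ / Γ.strictWidthInfty)) := by
        congr 1
        push_cast
        ring
      rw [e1]
      have h1 : ((n.factorial : ℕ) : ℂ) ≠ 0 := by exact_mod_cast n.factorial_ne_zero
      have h2 : ((n : ℂ) + 1) ≠ 0 := by exact_mod_cast Nat.succ_ne_zero n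
      have h3 : (m : ℂ) ≠ 0 := by exact_mod_cast hm.ne'
      have h4 : (Γ.strictWidthInfty : ℂ) ≠ 0 := by exact_mod_cast hh.ne'
      have h5 : (π : ℂ) ≠ 0 := by exact_mod_cast Real.pi_ne_zero
      push_cast
      rw [one_mul]
      have e2 : (2 * π * m / Γ.strictWidthInfty : ℂ) ^ (n + 1)
          = (2 * π) ^ (n + 1) * (m / Γ.strictWidthInfty : ℂ) ^ (n + 1) := by
        rw [← mul_pow]
        ring
      have e3 : (2 * π * I : ℂ) ^ (n + 2) = (2 * π) ^ (n + 1) * (2 * π * I ^ (n + 2)) := by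
        rw [mul_pow]
        ring
      have h6 : (2 * π : ℂ) ^ (n + 1) ≠ 0 := pow_ne_zero _ (by
        simp [h5])
      have h7 : (m / Γ.strictWidthInfty : ℂ) ^ (n + 1) ≠ 0 := pow_ne_zero _ (div_ne_zero h3 h4)
      rw [e2, e3]
      field_simp
  have hF : ∀ s : ℝ, 0 < s → HasSum (fun m : ℕ =>
      ((UpperHalfPlane.qExpansion Γ.strictWidthInfty f).coeff m
        * ((2 * π * I) ^ (n + 2) / ((n + 1).factorial : ℂ)
          * hexp (n + 1) τ (1 * (m / Γ.strictWidthInfty))))
        * (Real.exp (-(2 * π * m / Γ.strictWidthInfty) * s) : ℂ))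
      (∫ t : ℝ, f (UpperHalfPlane.ofComplex ((t : ℂ) + s * I))
        * (((t : ℂ) - τ) ^ (n + 2))⁻¹) := by
    intro s hs
    have := hasSum_inner (n := n) f hz 1 hs
    simpa only [one_mul] using this
  have hfs := ModularForm.hasSum_qExpansion f hh hΓ τ
  have hsum : Summable fun m : ℕ => ‖(UpperHalfPlane.qExpansion Γ.strictWidthInfty f).coeff m
        * ((2 * π * I) ^ (n + 2) / ((n + 1).factorial : ℂ)
          * hexp (n + 1) τ (1 * (m / Γ.strictWidthInfty)))‖ / (m : ℝ) ^ (n + 1) := by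
    have h1 := (hfs.summable.norm).mul_left
      (‖(2 * π * I ^ (n + 2) / (n + 1) : ℂ)‖ * (2 * π / Γ.strictWidthInfty) ^ (n + 1)
        / (n.factorial : ℝ))
    refine h1.congr fun m => ?_
    rcases Nat.eq_zero_or_pos m with rfl | hm
    · rw [ha0]
      simp
    · have hm' : (0 : ℝ) < m := by exact_mod_cast hm
      have h2 := congrArg norm (hval m)
      rw [norm_mul, norm_mul (2 * π * I ^ (n + 2) / (n + 1) : ℂ)] at h2
      have h3 : ‖((n.factorial : ℂ) / (2 * π * m / Γ.strictWidthInfty) ^ (n + 1))‖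
          = (n.factorial : ℝ) / (2 * π * m / Γ.strictWidthInfty) ^ (n + 1) := by
        rw [norm_div, norm_pow, norm_div, norm_mul, norm_mul, Complex.norm_natCast,
          Complex.norm_natCast, Complex.norm_real, Complex.norm_real, Real.norm_of_nonneg hh.le,
          Real.norm_of_nonneg Real.pi_pos.le, Complex.norm_ofNat]
      rw [h3] at h2
      have h4 : (0 : ℝ) < (n.factorial : ℝ) := by exact_mod_cast n.factorial_pos
      have h5 : (0 : ℝ) < 2 * π / Γ.strictWidthInfty := by positivity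
      have h6 : (2 * π * m / Γ.strictWidthInfty) ^ (n + 1)
          = (2 * π / Γ.strictWidthInfty) ^ (n + 1) * (m : ℝ) ^ (n + 1) := by
        rw [← mul_pow]
        ring
      rw [h6] at h2
      have h7 : (0 : ℝ) < (2 * π / Γ.strictWidthInfty) ^ (n + 1) := by positivity
      have h8 : (0 : ℝ) < (m : ℝ) ^ (n + 1) := by positivity
      rw [eq_div_iff h8.ne']
      field_simp at h2 ⊢
      linarith
  have key := Pool.Agent.Gouv.ESF.hasSum_line hh (by rw [ha0, zero_mul]) (n := n) hF hsum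
  refine key.unique ?_
  have h9 := hfs.mul_left (2 * π * I ^ (n + 2) / (n + 1))
  exact h9.congr_fun fun m => hval m

/-- **The Cauchy integral of the reflected moments of `f` vanishes.** -/
theorem theta_vmom_neg {n : ℕ} (hn : 0 < n) (f : CuspForm Γ ((n + 2 : ℕ) : ℤ)) {z : ℂ}
    (hz : 0 < z.im) :
    ∫ t : ℝ, vmom f n (-t) * (((t : ℂ) - z) ^ (n + 2))⁻¹ = 0 := by
  have hk : (((n + 2 : ℕ) : ℤ) : ℝ) / 2 < n + 1 := by
    have : (0 : ℝ) < n := by exact_mod_cast hn
    push_cast
    linarith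
  have hh : 0 < Γ.strictWidthInfty := Γ.strictWidthInfty_pos_iff.mpr Fact.out
  have hsw := theta_swap f hk hz (-1)
  simp only [neg_mul, one_mul] at hsw
  rw [hsw]
  have h0 : ∀ s ∈ Ioi (0 : ℝ), (s : ℂ) ^ n
        * (∫ t : ℝ, f (UpperHalfPlane.ofComplex (((-t : ℝ) : ℂ) + s * I))
          * (((t : ℂ) - z) ^ (n + 2))⁻¹) = 0 := by
    intro s hs
    have h1 := hasSum_inner (n := n) f hz (-1) (s := s) hs
    simp only [neg_mul, one_mul] at h1
    have h2 : ∀ m : ℕ, hexp (n + 1) z (-((m : ℝ) / Γ.strictWidthInfty)) = 0 := by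
      intro m
      refine hexp_of_nonpos (Nat.succ_ne_zero n) z ?_
      have : 0 ≤ (m : ℝ) / Γ.strictWidthInfty := by positivity
      linarith
    simp only [h2, mul_zero, zero_mul] at h1
    rw [h1.unique hasSum_zero, mul_zero]
  rw [setIntegral_congr_fun measurableSet_Ioi h0, integral_zero]

end Gouvea.ES.Th
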