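import Pool.Agent.Work.MP_d3517d_nt.ES.Vint
import Pool.Agent.Work.MP_d3517d_nt.ES.Fourier

/-!
# The value at a real point of the vertical integral (MP_d3517d_nt, ES)

The moments `vint (z ^ j * g)`, combined with the binomial coefficients, give the vertical
integral of `(x - z) ^ n * g`; its limit at the real point `x` is a constant times the integral of
`t ^ n * g (x + i t)` over the whole half line (`vmom`).
-/

open MeasureTheory Set Filter Topology Complex

noncomputable section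

namespace Pool.Agent.Gouv.ES.Vt

lemma vint_sum {ι : Type*} (s : Finset ι) {G : ι → ℂ → ℂ} (hG : ∀ i ∈ s, Dec (G i)) {z : ℂ}
    (hz : 0 < z.im) : vint (fun z => ∑ i ∈ s, G i z) z = ∑ i ∈ s, vint (G i) z := by
  simp only [vint]
  rw [integral_finsetSum _ fun i hi => (hG i hi).integrableOn hz, Finset.mul_sum]

/-- binomial expansion of the vertical integral. -/
theorem vint_binom {g : ℂ → ℂ} (hg : Dec g) (x : ℂ) (n : ℕ) {w : ℂ} (hw : 0 < w.im) :
    vint (fun z => (x - z) ^ n * g z) w = ∑ j ∈ Finset.range (n + 1),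
      (n.choose j : ℂ) * x ^ (n - j) * (-1) ^ j * vint (fun z => z ^ j * g z) w := by
  have e : (fun z => (x - z) ^ n * g z) = fun z => ∑ j ∈ Finset.range (n + 1),
      ((n.choose j : ℂ) * x ^ (n - j) * (-1) ^ j) * (z ^ j * g z) := by
    funext z
    have : x - z = -z + x := by ring
    rw [this, add_pow, Finset.sum_mul]
    refine Finset.sum_congr rfl fun j _ => ?_
    rw [neg_pow]
    ring
  rw [e, vint_sum _ (fun j _ => (hg.pow_mul j).const_mul _) hw]
  refine Finset.sum_congr rfl fun j _ => ?_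
  rw [vint_const_mul]

/-- the vertical integral of `(x - z) ^ n * g` above `x`. -/
theorem vint_vert (g : ℂ → ℂ) (x : ℝ) (n : ℕ) (s : ℝ) :
    vint (fun z => ((x : ℂ) - z) ^ n * g z) (x + s * I)
      = (I * (-I) ^ n) * ∫ t in Ioi s, (t : ℂ) ^ n * g (x + t * I) := by
  have h1 := (measurePreserving_add_right volume s).setIntegral_preimage_emb
    (measurableEmbedding_addRight s) (fun t : ℝ => (t : ℂ) ^ n * g (x + t * I)) (Ioi s)
  have h2 : (fun t : ℝ => t + s) ⁻¹' Ioi s = Ioi 0 := by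
    ext t
    simp
  rw [h2] at h1
  have h3 : (I * (-I) ^ n) * ∫ t in Ioi (0 : ℝ), (((t + s : ℝ) : ℂ)) ^ n
      * g (x + ((t + s : ℝ) : ℂ) * I) = I * ∫ t in Ioi (0 : ℝ), (-I) ^ n *
      ((((t + s : ℝ) : ℂ)) ^ n * g (x + ((t + s : ℝ) : ℂ) * I)) := by
    rw [integral_const_mul]
    ring
  rw [← h1, h3, vint]
  congr 1
  refine integral_congr_ae (Eventually.of_forall fun t => ?_)
  have e1 : (x : ℂ) + s * I + t * I = x + ((t + s : ℝ) : ℂ) * I := by
    push_cast
    ring
  have e2 : (x : ℂ) - (x + ((t + s : ℝ) : ℂ) * I) = (-I) * ((t + s : ℝ) : ℂ) := by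
    ring
  simp only
  rw [e1, e2, mul_pow, mul_assoc]

lemma tendsto_setIntegral_Ioi {G : ℝ → ℂ} (hG : IntegrableOn G (Ioi 0)) :
    Tendsto (fun s : ℝ => ∫ t in Ioi s, G t) (𝓝[>] 0) (𝓝 (∫ t in Ioi (0 : ℝ), G t)) := by
  set H : ℝ → ℂ := (Ioi (0 : ℝ)).indicator G with hH
  have hHi : Integrable H := (integrable_indicator_iff measurableSet_Ioi).mpr hG
  have hc : Continuous fun b : ℝ => ∫ t in (0 : ℝ)..b, H t :=
    intervalIntegral.continuous_primitive (fun a b => hHi.intervalIntegrable) 0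
  have h1 : Tendsto (fun s : ℝ => (∫ t in Ioi (0 : ℝ), G t) - ∫ t in (0 : ℝ)..s, H t) (𝓝[>] 0)
      (𝓝 ((∫ t in Ioi (0 : ℝ), G t) - ∫ t in (0 : ℝ)..0, H t)) :=
    (tendsto_const_nhds.sub (hc.tendsto 0)).mono_left nhdsWithin_le_nhds
  rw [intervalIntegral.integral_same, sub_zero] at h1
  refine h1.congr' ?_
  filter_upwards [self_mem_nhdsWithin] with s hs
  have hs' : (0 : ℝ) < s := hs
  have e1 : ∫ t in (0 : ℝ)..s, H t = ∫ t in (0 : ℝ)..s, G t := by
    rw [intervalIntegral.integral_of_le hs'.le, intervalIntegral.integral_of_le hs'.le]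
    refine setIntegral_congr_fun measurableSet_Ioc fun t ht => ?_
    exact indicator_of_mem (show t ∈ Ioi (0 : ℝ) from ht.1) G
  rw [e1, ← intervalIntegral.integral_interval_add_Ioi hG
    (hG.mono_set (Ioi_subset_Ioi hs'.le))]
  ring

/-- **the value at the real point `x`.** -/
theorem tendsto_vint_vert {g : ℂ → ℂ} {x : ℝ} {n : ℕ}
    (hint : IntegrableOn (fun t : ℝ => (t : ℂ) ^ n * g (x + t * I)) (Ioi 0)) :
    Tendsto (fun s : ℝ => vint (fun z => ((x : ℂ) - z) ^ n * g z) (x + s * I)) (𝓝[>] 0)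
      (𝓝 ((I * (-I) ^ n) * ∫ t in Ioi (0 : ℝ), (t : ℂ) ^ n * g (x + t * I))) := by
  simp_rw [vint_vert]
  exact (tendsto_setIntegral_Ioi hint).const_mul _

/-- integrability on the whole half line from a power bound near the real axis. -/
theorem integrableOn_vert {g : ℂ → ℂ} (hg : Dec g) {κ C : ℝ} {n : ℕ} (hn : κ < n + 1)
    (hb : ∀ z : ℂ, 0 < z.im → ‖g z‖ ≤ C / z.im ^ κ) (x : ℝ) :
    IntegrableOn (fun t : ℝ => (t : ℂ) ^ n * g (x + t * I)) (Ioi 0) := by
  have hcont : ContinuousOn (fun t : ℝ => (t : ℂ) ^ n * g (x + t * I)) (Ioi 0) := by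
    refine ContinuousOn.mul (by fun_prop) ?_
    refine hg.continuousOn.comp (by fun_prop) fun t ht => ?_
    have ht' : (0 : ℝ) < t := ht
    simpa [mem_HP] using ht'
  have hsplit : Ioi (0 : ℝ) = Ioc 0 1 ∪ Ioi 1 := (Ioc_union_Ioi_eq_Ioi zero_le_one).symm
  rw [hsplit]
  refine IntegrableOn.union ?_ ?_
  · have hC : IntegrableOn (fun t : ℝ => C * t ^ ((n : ℝ) - κ)) (Ioc 0 1) := by
      have h0 : IntervalIntegrable (fun t : ℝ => t ^ ((n : ℝ) - κ)) volume 0 1 :=
        intervalIntegral.intervalIntegrable_rpow' (by linarith)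
      exact ((intervalIntegrable_iff_integrableOn_Ioc_of_le zero_le_one).mp h0).const_mul C
    refine Integrable.mono' hC ((hcont.mono Ioc_subset_Ioi_self).aestronglyMeasurable
      measurableSet_Ioc) ?_
    rw [ae_restrict_iff' measurableSet_Ioc]
    refine Eventually.of_forall fun t ht => ?_
    have ht0 : 0 < t := ht.1
    have h1 := hb (x + t * I) (by simpa using ht0)
    have him : ((x : ℂ) + t * I).im = t := by simp
    rw [him] at h1
    rw [norm_mul, norm_pow, Complex.norm_real, Real.norm_of_nonneg ht0.le]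
    calc t ^ n * ‖g (x + t * I)‖ ≤ t ^ n * (C / t ^ κ) := by gcongr
      _ = C * t ^ ((n : ℝ) - κ) := by
        rw [Real.rpow_sub ht0, Real.rpow_natCast]
        ring
  · have h1 : Dec fun z => ((x : ℂ) - z) ^ n * g z := by
      have : (fun z => ((x : ℂ) - z) ^ n * g z) = fun z => ∑ j ∈ Finset.range (n + 1),
          ((n.choose j : ℂ) * (x : ℂ) ^ (n - j) * (-1) ^ j) * (z ^ j * g z) := by
        funext z
        have : (x : ℂ) - z = -z + x := by ring
        rw [this, add_pow, Finset.sum_mul]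
        refine Finset.sum_congr rfl fun j _ => ?_
        rw [neg_pow]
        ring
      rw [this]
      exact Dec.sum _ fun j _ => (hg.pow_mul j).const_mul _
    have h2 := h1.integrableOn (z := (x : ℂ) + (1 : ℝ) * I) (by simp)
    have h3 : IntegrableOn (fun t : ℝ => ((x : ℂ) - (x + t * I)) ^ n * g (x + t * I)) (Ioi 1) := by
      have hpre : (fun t : ℝ => t + 1) ⁻¹' Ioi 1 = Ioi 0 := by
        ext t
        simp
      have h4 := ((measurePreserving_add_right volume (1 : ℝ)).integrableOn_comp_preimage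
        (measurableEmbedding_addRight (1 : ℝ))
        (f := fun t : ℝ => ((x : ℂ) - (x + t * I)) ^ n * g (x + t * I)) (s := Ioi 1)).mp
      rw [hpre] at h4
      refine h4 (h2.congr (Eventually.of_forall fun t => ?_))
      simp only [Function.comp]
      have e1 : (x : ℂ) + (1 : ℝ) * I + t * I = x + ((t + 1 : ℝ) : ℂ) * I := by
        push_cast
        ring
      rw [e1]
    have h5 := h3.const_mul (I ^ n)
    refine h5.congr (Eventually.of_forall fun t => ?_)
    simp only
    have e2 : (x : ℂ) - (x + (t : ℂ) * I) = (-I) * t := by ring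
    have e3 : (I : ℂ) ^ n * (-I) ^ n = 1 := by
      rw [← mul_pow]
      simp
    rw [e2, mul_pow, ← mul_assoc, ← mul_assoc, e3, one_mul]

/-- The cusp form version: integrability. -/
theorem integrableOn_cuspForm {Γ : Subgroup (GL (Fin 2) ℝ)} [Γ.IsArithmetic] {k : ℤ}
    (f : CuspForm Γ k) (hd : Dec fun z => f (UpperHalfPlane.ofComplex z)) {n : ℕ}
    (hn : (k : ℝ) / 2 < n + 1) (x : ℝ) :
    IntegrableOn (fun t : ℝ => (t : ℂ) ^ n * f (UpperHalfPlane.ofComplex (x + t * I)))
      (Ioi 0) := by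
  obtain ⟨C, hC⟩ := CuspFormClass.exists_bound f
  refine integrableOn_vert hd hn (C := C) (fun z hz => ?_) x
  have h1 := hC (UpperHalfPlane.ofComplex z)
  rw [UpperHalfPlane.ofComplex_apply_of_im_pos hz] at h1 ⊢
  exact h1

/-- **Value at a real point, for cusp forms**: the combination of the moments which computes the
polynomial at `X = x` tends, on the vertical line above `x`, to a constant times `lineInt`. -/
theorem tendsto_moments {Γ : Subgroup (GL (Fin 2) ℝ)} [Γ.IsArithmetic] {k : ℤ}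
    (f : CuspForm Γ k) (hd : Dec fun z => f (UpperHalfPlane.ofComplex z)) {n : ℕ}
    (hn : (k : ℝ) / 2 < n + 1) (x : ℝ) :
    Tendsto (fun s : ℝ => ∑ j ∈ Finset.range (n + 1), (n.choose j : ℂ) * (x : ℂ) ^ (n - j)
        * (-1) ^ j * vint (fun z => z ^ j * f (UpperHalfPlane.ofComplex z)) (x + s * I)) (𝓝[>] 0)
      (𝓝 ((I * (-I) ^ n) * vmom f n x)) := by
  have h1 := tendsto_vint_vert (g := fun z => f (UpperHalfPlane.ofComplex z))
    (integrableOn_cuspForm f hd hn x)
  have h2 : (∫ t in Ioi (0 : ℝ), (t : ℂ) ^ n * f (UpperHalfPlane.ofComplex (x + t * I)))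
      = vmom f n x := by
    rw [vmom]
    refine integral_congr_ae (Eventually.of_forall fun t => ?_)
    exact mul_comm _ _
  rw [h2] at h1
  refine h1.congr' ?_
  filter_upwards [self_mem_nhdsWithin] with s hs
  have hs' : (0 : ℝ) < s := hs
  have hw : 0 < ((x : ℂ) + s * I).im := by simpa using hs'
  exact vint_binom hd (x : ℂ) n hw

/-- The vertical line above `a / c` is the image under `(a b; c d)` of the vertical line above
`- d / c`. -/
lemma moebius_vert {a b c d : ℝ} (hc : c ≠ 0) {y : ℝ} (hy : y ≠ 0) :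
    ((a : ℂ) * (((-d / c : ℝ) : ℂ) + y * I) + b) / ((c : ℂ) * (((-d / c : ℝ) : ℂ) + y * I) + d)
      = ((a / c : ℝ) : ℂ) + (((a * d - b * c) / (c ^ 2 * y) : ℝ) : ℂ) * I := by
  have hc' : (c : ℂ) ≠ 0 := by exact_mod_cast hc
  have hy' : (y : ℂ) ≠ 0 := by exact_mod_cast hy
  have hden : (c : ℂ) * (((-d / c : ℝ) : ℂ) + y * I) + d = (c : ℂ) * y * I := by
    push_cast
    field_simp
    ring
  rw [hden]
  have hne : (c : ℂ) * y * I ≠ 0 := mul_ne_zero (mul_ne_zero hc' hy') I_ne_zero
  rw [div_eq_iff hne]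
  push_cast
  field_simp
  have hI : (I : ℂ) ^ 2 = -1 := I_sq
  linear_combination ((a : ℂ) * d - b * c) * (-1 : ℂ) * hI

/-- If `V` has the limit `L` along the images of the vertical lines, it has the same limit at
`a / c` along the vertical line. -/
theorem tendsto_vert_of_cusp {V : ℂ → ℂ} {L : ℂ} {a b c d : ℝ} (hc : c ≠ 0)
    (hD : 0 < a * d - b * c)
    (hV : Tendsto (fun y : ℝ => V (((a : ℂ) * (((-d / c : ℝ) : ℂ) + y * I) + b)
      / ((c : ℂ) * (((-d / c : ℝ) : ℂ) + y * I) + d))) atTop (𝓝 L)) :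
    Tendsto (fun s : ℝ => V (((a / c : ℝ) : ℂ) + s * I)) (𝓝[>] 0) (𝓝 L) := by
  have hc2 : 0 < c ^ 2 := by positivity
  have hlim : Tendsto (fun s : ℝ => (a * d - b * c) / (c ^ 2 * s)) (𝓝[>] 0) atTop := by
    have h1 : Tendsto (fun s : ℝ => s⁻¹) (𝓝[>] 0) atTop := tendsto_inv_nhdsGT_zero
    have h2 := h1.const_mul_atTop (show 0 < (a * d - b * c) / c ^ 2 by positivity)
    refine h2.congr fun s => ?_
    rw [div_mul_eq_div_div, ← div_eq_mul_inv]
  have h3 := hV.comp hlim
  refine h3.congr' ?_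
  filter_upwards [self_mem_nhdsWithin] with s hs
  have hs' : (0 : ℝ) < s := hs
  have hne : (a * d - b * c) / (c ^ 2 * s) ≠ 0 := by positivity
  simp only [Function.comp]
  rw [moebius_vert hc hne]
  congr 3
  congr 1
  field_simp

end Pool.Agent.Gouv.ES.Vt
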