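import Pool.Agent.Work.MP_d3517d_nt.ES.Period
import Pool.Agent.Work.MP_d3517d_nt.ES.Vert

/-!
# The value of the modular symbol of a cusp form at `X = x` (MP_d3517d_nt, ES)

`sym_eval`: for a rational `x`, the polynomial `sym n f x ∞` takes at `X = x` the value
`i (-i)^n ∫_0^∞ f(x + it) t^n dt`.  `sym_inj`: hence a cusp form of weight at least five whose
symbols (even or odd part) vanish at these points, for a dense set of `x`, is zero.
-/

open Filter Topology UpperHalfPlane Polynomial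
open scoped MatrixGroups ModularForm

noncomputable section

namespace Gouvea.ES

open Pool.Agent.Gouv.ES

/-- `(x -1; 1 0)` moves `∞` to `x`. -/
def toX (x : ℚ) : GQ :=
  Matrix.GeneralLinearGroup.mkOfDetNeZero !![x, -1; 1, 0] (by simp [Matrix.det_fin_two])

lemma toX_det (x : ℚ) : (toX x).det.val = 1 := by
  rw [Matrix.GeneralLinearGroup.val_det_apply]
  simp [toX, Matrix.GeneralLinearGroup.mkOfDetNeZero, Matrix.det_fin_two]

lemma toX_00 (x : ℚ) : (toX x) 0 0 = x := rfl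
lemma toX_01 (x : ℚ) : (toX x) 0 1 = -1 := rfl
lemma toX_10 (x : ℚ) : (toX x) 1 0 = 1 := rfl
lemma toX_11 (x : ℚ) : (toX x) 1 1 = 0 := rfl

lemma toX_smul (x : ℚ) : toX x • (OnePoint.infty : OnePoint ℚ) = ((x : ℚ) : OnePoint ℚ) := by
  rw [OnePoint.smul_infty_eq_ite, toX_10, toX_00, if_neg one_ne_zero, div_one]

lemma mob_toX (x : ℚ) {y : ℝ} (hy : y ≠ 0) :
    mob (toR (toX x)) ((y : ℂ) * Complex.I) = ((x : ℝ) : ℂ) + ((1 / y : ℝ) : ℂ) * Complex.I := by
  have hy' : (y : ℂ) ≠ 0 := by exact_mod_cast hy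
  have h00 : (toR (toX x)) 0 0 = (x : ℝ) := by rw [toR_apply, toX_00]
  have h01 : (toR (toX x)) 0 1 = -1 := by rw [toR_apply, toX_01]; simp
  have h10 : (toR (toX x)) 1 0 = 1 := by rw [toR_apply, toX_10]; simp
  have h11 : (toR (toX x)) 1 1 = 0 := by rw [toR_apply, toX_11]; simp
  rw [mob, num, denom, h00, h01, h10, h11]
  have hne : ((1 : ℝ) : ℂ) * ((y : ℂ) * Complex.I) + ((0 : ℝ) : ℂ) ≠ 0 := by
    push_cast
    rw [one_mul, add_zero]
    exact mul_ne_zero hy' Complex.I_ne_zero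
  rw [div_eq_iff hne]
  have hI : Complex.I * Complex.I = -1 := Complex.I_mul_I
  push_cast
  have e : 1 / (y : ℂ) * Complex.I * (1 * (y * Complex.I) + 0) = Complex.I * Complex.I := by
    field_simp
    ring
  rw [add_mul, e, hI]
  ring

/-- `E n f x` vanishes at `x` along the vertical line. -/
theorem tendsto_E_vert {n : ℕ} {f : ℍ → ℂ} (hf : Nice ((n + 2 : ℕ) : ℤ) f) (x : ℚ) :
    Tendsto (fun s : ℝ => (E n f ((x : ℚ) : OnePoint ℚ) (((x : ℝ) : ℂ) + s * Complex.I)).eval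
      ((x : ℝ) : ℂ)) (𝓝[>] 0) (𝓝 0) := by
  have hdet : 0 < (toX x).det.val := by rw [toX_det]; norm_num
  have hR := toR_det_pos hdet
  -- the polynomials `P y` tend to zero
  set P : ℝ → ℂ[X] := fun y => act n (toR (toX x)) (E n f (toX x • OnePoint.infty)
      (mob (toR (toX x)) (0 + y * Complex.I))) with hP
  have hlim : ∀ j, Tendsto (fun y : ℝ => (P y).coeff j) atTop (𝓝 0) := fun j =>
    tendsto_act_E hf hdet 0 j
  have hE : ∀ y : ℝ, E n f (toX x • OnePoint.infty)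
      (mob (toR (toX x)) (0 + y * Complex.I)) = act n (toR (toX x))⁻¹ (P y) := by
    intro y
    rw [hP]
    simp only
    rw [act_inv_act n _ (natDegree_E_le _ _ _ _)]
  have hev : Tendsto (fun y : ℝ => (act n (toR (toX x))⁻¹ (P y)).eval ((x : ℝ) : ℂ)) atTop
      (𝓝 0) := by
    have h1 : ∀ y : ℝ, (act n (toR (toX x))⁻¹ (P y)).eval ((x : ℝ) : ℂ)
        = ∑ j ∈ Finset.range (n + 1), (P y).coeff j *
          ((((toR (toX x))⁻¹ 0 0 : ℝ) * ((x : ℝ) : ℂ) + ((toR (toX x))⁻¹ 0 1 : ℝ)) ^ j *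
          (((toR (toX x))⁻¹ 1 0 : ℝ) * ((x : ℝ) : ℂ) + ((toR (toX x))⁻¹ 1 1 : ℝ)) ^ (n - j)) :=
      fun y => eval_act n _ _ _
    simp_rw [h1]
    have h2 : Tendsto (fun y : ℝ => ∑ j ∈ Finset.range (n + 1), (P y).coeff j *
          ((((toR (toX x))⁻¹ 0 0 : ℝ) * ((x : ℝ) : ℂ) + ((toR (toX x))⁻¹ 0 1 : ℝ)) ^ j *
          (((toR (toX x))⁻¹ 1 0 : ℝ) * ((x : ℝ) : ℂ) + ((toR (toX x))⁻¹ 1 1 : ℝ)) ^ (n - j)))
          atTop (𝓝 (∑ j ∈ Finset.range (n + 1), 0 *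
          ((((toR (toX x))⁻¹ 0 0 : ℝ) * ((x : ℝ) : ℂ) + ((toR (toX x))⁻¹ 0 1 : ℝ)) ^ j *
          (((toR (toX x))⁻¹ 1 0 : ℝ) * ((x : ℝ) : ℂ) + ((toR (toX x))⁻¹ 1 1 : ℝ)) ^ (n - j)))) :=
      tendsto_finsetSum _ fun j _ => (hlim j).mul_const _
    simpa using h2
  have hinv : Tendsto (fun s : ℝ => 1 / s) (𝓝[>] 0) atTop := by
    simp only [one_div]
    exact tendsto_inv_nhdsGT_zero
  have h3 := hev.comp hinv
  refine h3.congr' ?_
  filter_upwards [self_mem_nhdsWithin] with s hs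
  have hs' : (0 : ℝ) < s := hs
  have hne : (1 / s : ℝ) ≠ 0 := by positivity
  simp only [Function.comp]
  rw [← hE, zero_add, mob_toX x hne, toX_smul]
  congr 3
  rw [one_div_one_div]

/-- **the value of the symbol at `X = x`.** -/
theorem sym_eval {Γ : Subgroup (GL (Fin 2) ℝ)} [Γ.IsArithmetic] {n : ℕ} (hn : 0 < n)
    (f : CuspForm Γ ((n + 2 : ℕ) : ℤ)) (x : ℚ) :
    (sym n f ((x : ℚ) : OnePoint ℚ) OnePoint.infty).eval ((x : ℝ) : ℂ)
      = (Complex.I * (-Complex.I) ^ n) * vmom f n x := by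
  have hf : Nice ((n + 2 : ℕ) : ℤ) (f : ℍ → ℂ) := nice_of_cuspForm f
  have hd : Dec fun z => f (ofComplex z) := hf.dec
  have hk : (((n + 2 : ℕ) : ℤ) : ℝ) / 2 < n + 1 := by
    have : (0 : ℝ) < n := by exact_mod_cast hn
    push_cast
    linarith
  have h1 := Vt.tendsto_vint_vert (g := fun z => f (ofComplex z))
    (Vt.integrableOn_cuspForm f hd hk (x : ℝ))
  have h2 : (∫ t in Set.Ioi (0 : ℝ), (t : ℂ) ^ n * f (ofComplex (((x : ℝ) : ℂ) + t * Complex.I)))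
      = vmom f n x := by
    rw [vmom]
    refine MeasureTheory.integral_congr_ae (Eventually.of_forall fun t => ?_)
    exact mul_comm _ _
  rw [h2] at h1
  have h3 := h1.sub (tendsto_E_vert hf x)
  rw [sub_zero] at h3
  have h4 : (fun s : ℝ => vint (fun z => (((x : ℝ) : ℂ) - z) ^ n * f (ofComplex z))
      (((x : ℝ) : ℂ) + s * Complex.I) - (E n f ((x : ℚ) : OnePoint ℚ)
      (((x : ℝ) : ℂ) + s * Complex.I)).eval ((x : ℝ) : ℂ)) =ᶠ[𝓝[>] 0]
      fun _ => (sym n f ((x : ℚ) : OnePoint ℚ) OnePoint.infty).eval ((x : ℝ) : ℂ) := by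
    filter_upwards [self_mem_nhdsWithin] with s hs
    have hs' : (0 : ℝ) < s := hs
    have hw : 0 < (((x : ℝ) : ℂ) + s * Complex.I).im := by simpa using hs'
    rw [sym_to_infty hf _ hw, eval_sub, eval_prim hd n _ hw]
  exact (tendsto_nhds_unique (h3.congr' h4) tendsto_const_nhds).symm

/-- **Injectivity of the even and odd symbols**: `D` a dense set of rational base points. -/
theorem sym_inj {Γ : Subgroup (GL (Fin 2) ℝ)} [Γ.IsArithmetic] {n : ℕ} (hn : 3 ≤ n)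
    (f : CuspForm Γ ((n + 2 : ℕ) : ℤ)) (s : ℂ) {D : Set ℚ}
    (hD : Dense ((fun x : ℚ => (x : ℝ)) '' D))
    (H : ∀ x ∈ D, (sym n f ((x : ℚ) : OnePoint ℚ) OnePoint.infty).eval ((x : ℝ) : ℂ)
      + s * (sym n f ((-x : ℚ) : OnePoint ℚ) OnePoint.infty).eval (((-x : ℚ) : ℝ) : ℂ) = 0) :
    f = 0 := by
  refine DFunLike.ext _ _ fun τ => ?_
  refine vmom_inj Γ f (n := n) (k := ((n + 2 : ℕ) : ℤ)) (by push_cast; ring)
    (by push_cast; omega) s hD ?_ τ
  rintro _ ⟨x, hx, rfl⟩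
  have h1 := H x hx
  rw [sym_eval (by omega) f x, sym_eval (by omega) f (-x)] at h1
  have hc : Complex.I * (-Complex.I) ^ n ≠ 0 :=
    mul_ne_zero Complex.I_ne_zero (pow_ne_zero _ (neg_ne_zero.mpr Complex.I_ne_zero))
  have h2 : (Complex.I * (-Complex.I) ^ n)
      * (vmom f n (x : ℝ) + s * vmom f n (-(x : ℝ))) = 0 := by
    rw [← h1]
    push_cast
    ring
  exact (mul_eq_zero.mp h2).resolve_left hc

end Gouvea.ES
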