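import Pool.Agent.Work.MP_d3517d_nt.ES.ThetaDefs
import Pool.Agent.Work.MP_d3517d_nt.ES.ThetaPer
import Pool.Agent.Work.MP_d3517d_nt.ES.VertPer

/-!
# The theta map on the period symbols of cusp forms (MP_d3517d_nt, cell THETA, P3a)

`thF_sym`: the theta function of the period symbol of `f` is `(2 π i / (n + 1)) f`;
`thF_eps_sym`: the theta function of its reflection is zero.
-/

open Filter Topology UpperHalfPlane CongruenceSubgroup Polynomial MeasureTheory
open scoped MatrixGroups ModularForm ComplexConjugate Manifold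

noncomputable section

namespace Gouvea.Theta

open Gouvea.ES Pool.Agent.Gouv.ES

/-- the continuous extension is unique. -/
lemma edgeR_of {φ : Symb} {L : ℝ → ℂ} (hL : Continuous L)
    (h : ∀ r : ℚ, L (r : ℝ) = edge φ r) : edgeR φ = L := by
  have hex : ∃ L : ℝ → ℂ, Continuous L ∧ ∀ r : ℚ, L (r : ℝ) = edge φ r := ⟨L, hL, h⟩
  have hs := hex.choose_spec
  unfold edgeR
  rw [dif_pos hex]
  refine Continuous.ext_on Rat.denseRange_cast hs.1 hL ?_
  rintro _ ⟨r, rfl⟩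
  rw [hs.2, h]

lemma cau_eq (k : ℕ) (L : ℝ → ℂ) (z : ℂ) :
    cau k L z = ∫ t : ℝ, L t * (((t : ℂ) - z) ^ k)⁻¹ := by
  unfold cau
  simp only [zpow_neg, zpow_natCast]

lemma eps_smul_infty : eps • (OnePoint.infty : OnePoint ℚ) = OnePoint.infty := by
  rw [OnePoint.smul_infty_eq_ite, if_pos]
  rfl

lemma eps_smul_coe (r : ℚ) : eps • ((r : ℚ) : OnePoint ℚ) = ((-r : ℚ) : OnePoint ℚ) := by
  have h00 : eps 0 0 = -1 := rfl
  have h01 : eps 0 1 = 0 := rfl
  have h10 : eps 1 0 = 0 := rfl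
  have h11 : eps 1 1 = 1 := rfl
  rw [OnePoint.smul_some_eq_ite, h00, h01, h10, h11]
  simp

lemma eval_slashM_eps {n : ℕ} {P : ℂ[X]} (hP : P.natDegree ≤ n) (x : ℂ) :
    (slashM n (matOf ℂ eps) P).eval x = P.eval (-x) := by
  have h00 : matOf ℂ eps 0 0 = -1 := by
    change (algebraMap ℚ ℂ) (-1) = -1
    simp
  have h01 : matOf ℂ eps 0 1 = 0 := by
    change (algebraMap ℚ ℂ) 0 = 0
    simp
  have h10 : matOf ℂ eps 1 0 = 0 := by
    change (algebraMap ℚ ℂ) 0 = 0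
    simp
  have h11 : matOf ℂ eps 1 1 = 1 := by
    change (algebraMap ℚ ℂ) 1 = 1
    simp
  rw [slashM_apply, h00, h01, h10, h11, eval_finsetSum,
    eval_eq_sum_range' (Nat.lt_succ_of_le hP)]
  refine Finset.sum_congr rfl fun j _ => ?_
  simp

theorem edge_fact_eps {n : ℕ} {φ : Symb} (hφ : ∀ x y, (φ x y).natDegree ≤ n) (r : ℚ) :
    edge (fact n eps φ) r = edge φ (-r) := by
  unfold edge fact
  rw [eps_smul_infty, eps_smul_coe, eval_slashM_eps (hφ _ _)]
  push_cast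
  rfl

variable {M n : ℕ}

theorem edge_sym (hn : 0 < n) {Γ : Subgroup (GL (Fin 2) ℝ)} [Γ.IsArithmetic]
    (f : CuspForm Γ ((n + 2 : ℕ) : ℤ)) (r : ℚ) :
    edge (sym n f) r = -((Complex.I * (-Complex.I) ^ n) * vmom f n r) := by
  rw [← sym_eval hn f r, edge, ← eval_neg]
  congr 1
  rw [sym, sym, neg_sub]

theorem edgeR_sym (hn : 0 < n) {Γ : Subgroup (GL (Fin 2) ℝ)} [Γ.IsArithmetic]
    (f : CuspForm Γ ((n + 2 : ℕ) : ℤ)) :
    edgeR (sym n f) = fun t => -((Complex.I * (-Complex.I) ^ n) * vmom f n t) := by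
  have hk : (((n + 2 : ℕ) : ℤ) : ℝ) / 2 < n + 1 := by
    have : (0 : ℝ) < n := by exact_mod_cast hn
    push_cast
    linarith
  exact edgeR_of ((continuous_const.mul (ES.Th.continuous_vmom f hk)).neg)
    fun r => (edge_sym hn f r).symm

theorem edgeR_eps_sym (hn : 0 < n) {Γ : Subgroup (GL (Fin 2) ℝ)} [Γ.IsArithmetic]
    (f : CuspForm Γ ((n + 2 : ℕ) : ℤ)) :
    edgeR (fact n eps (sym n f)) = fun t => -((Complex.I * (-Complex.I) ^ n) * vmom f n (-t)) := by
  have hk : (((n + 2 : ℕ) : ℤ) : ℝ) / 2 < n + 1 := by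
    have : (0 : ℝ) < n := by exact_mod_cast hn
    push_cast
    linarith
  refine edgeR_of ((continuous_const.mul
    ((ES.Th.continuous_vmom f hk).comp continuous_neg)).neg) fun r => ?_
  rw [edge_fact_eps (natDegree_sym_le n f), edge_sym hn f (-r)]
  push_cast
  rfl

/-- **the theta function of the period symbol.** -/
theorem thF_sym (hn : 0 < n) {Γ : Subgroup (GL (Fin 2) ℝ)} [Γ.IsArithmetic]
    (f : CuspForm Γ ((n + 2 : ℕ) : ℤ)) (z : ℍ) :
    thF n (sym n f) z = (2 * Real.pi * Complex.I / (n + 1)) * f z := by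
  have h1 := ES.Th.theta_vmom hn f z
  rw [thF, cau_eq, edgeR_sym hn f]
  have e1 : ∀ t : ℝ, -((Complex.I * (-Complex.I) ^ n) * vmom f n t)
      * (((t : ℂ) - (z : ℂ)) ^ (n + 2))⁻¹
      = -(Complex.I * (-Complex.I) ^ n) * (vmom f n t * (((t : ℂ) - (z : ℂ)) ^ (n + 2))⁻¹) := by
    intro t
    ring
  simp_rw [e1]
  rw [integral_const_mul, h1]
  have h2 : (-Complex.I) ^ n * Complex.I ^ n = 1 := by
    rw [← mul_pow, neg_mul, Complex.I_mul_I, neg_neg, one_pow]
  have h3 : Complex.I ^ (n + 2) = -Complex.I ^ n := by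
    rw [pow_add, Complex.I_sq]
    ring
  rw [h3]
  linear_combination (2 * Real.pi * Complex.I / (n + 1) * f z) * h2

/-- **the theta function of the reflected period symbol.** -/
theorem thF_eps_sym (hn : 0 < n) {Γ : Subgroup (GL (Fin 2) ℝ)} [Γ.IsArithmetic]
    (f : CuspForm Γ ((n + 2 : ℕ) : ℤ)) (z : ℍ) :
    thF n (fact n eps (sym n f)) z = 0 := by
  have h1 := ES.Th.theta_vmom_neg hn f (z := (z : ℂ)) z.im_pos
  rw [thF, cau_eq, edgeR_eps_sym hn f]
  have e1 : ∀ t : ℝ, -((Complex.I * (-Complex.I) ^ n) * vmom f n (-t))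
      * (((t : ℂ) - (z : ℂ)) ^ (n + 2))⁻¹
      = -(Complex.I * (-Complex.I) ^ n) * (vmom f n (-t) * (((t : ℂ) - (z : ℂ)) ^ (n + 2))⁻¹) := by
    intro t
    ring
  simp_rw [e1]
  rw [integral_const_mul, h1, mul_zero]

end Gouvea.Theta
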