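import Pool.Agent.Work.MP_d3517d_nt.ES.ThetaEdge
import Pool.Agent.Work.MP_d3517d_nt.ES.ThetaSym

/-!
# Full symbols of level `M` (cell THETA, MP_d3517d_nt)

Closure properties of the full symbols invariant under `Γ₀(M)`; the period symbols are full
symbols; the edge function has period one.
-/

open Filter Topology UpperHalfPlane CongruenceSubgroup Polynomial MeasureTheory
open scoped MatrixGroups ModularForm ComplexConjugate Manifold

noncomputable section

namespace Gouvea.Theta

open Gouvea.ES Matrix.SpecialLinearGroup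

variable {n M : ℕ} {φ ψ : Symb}

theorem FSM.plus (h : FSM n M φ) (h' : FSM n M ψ) : FSM n M (φ + ψ) where
  deg x y := (natDegree_add_le _ _).trans (max_le (h.deg x y) (h'.deg x y))
  add x y z := by
    simp only [Pi.add_apply]
    rw [← h.add x y z, ← h'.add x y z]
    ring
  inv g hg := by rw [fact_add, h.inv g hg, h'.inv g hg]

theorem FSM.smul (h : FSM n M φ) (c : ℂ) : FSM n M (c • φ) where
  deg x y := (natDegree_smul_le _ _).trans (h.deg x y)
  add x y z := by
    simp only [Pi.smul_apply]
    rw [← smul_add, h.add x y z]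
  inv g hg := by rw [fact_smul, h.inv g hg]

theorem FSM.sub (h : FSM n M φ) (h' : FSM n M ψ) : FSM n M (φ - ψ) := by
  have := h.plus (h'.smul (-1))
  rwa [neg_one_smul, ← sub_eq_add_neg] at this

lemma cj_mem {γ : SL(2, ℤ)} (h : γ ∈ Gamma0 M) : cj γ ∈ Gamma0 M := by
  rw [Gamma0_mem] at h ⊢
  have : (cj γ) 1 0 = -γ 1 0 := rfl
  rw [this, Int.cast_neg, h, neg_zero]

theorem FSM.eps (h : FSM n M φ) : FSM n M (fact n ES.eps φ) where
  deg := fact_natDegree_le n _ φ
  add := fact_additive n _ h.add
  inv g hg := by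
    rw [← fact_mul, eps_mul_mapGL, fact_mul, h.inv _ (cj_mem hg)]

lemma eps_mul_eps : (ES.eps * ES.eps : GQ) = 1 := by
  ext i j
  rw [Units.val_mul, Matrix.mul_apply, Fin.sum_univ_two]
  fin_cases i <;> fin_cases j <;>
    simp [ES.eps, triQ, Matrix.GeneralLinearGroup.mkOfDetNeZero]

lemma fact_eps_eps (hφ : ∀ x y, (φ x y).natDegree ≤ n) :
    fact n ES.eps (fact n ES.eps φ) = φ := by
  rw [← fact_mul, eps_mul_eps, fact_one hφ]

/-- the period symbols are full symbols. -/
theorem FSM_sym [NeZero M] (f : Cusp M (n + 2)) : FSM n M (sym n f) where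
  deg := natDegree_sym_le n f
  add := sym_add_sym n f
  inv g hg := by
    funext x y
    rw [fact_apply]
    refine sym_invariant (nice_of_cuspForm f) (detQ_mapGL g) ?_ x y
    rw [toR_mapGL]
    exact f.slash_action_eq' _ (Subgroup.mem_map_of_mem _ hg)

/-- the edge function of a full symbol of level `M` has period one. -/
theorem edgeR_period [NeZero M] (hn : 2 ≤ n) (hev : Even n) (h : FSM n M φ) (t : ℝ) :
    edgeR φ (t + 1) = edgeR φ t := by
  have hc := edgeR_cont hn hev h.fs
  have h1 : Continuous fun t : ℝ => edgeR φ (t + 1) := hc.comp (continuous_id.add continuous_const)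
  have h2 : (fun t : ℝ => edgeR φ (t + 1)) = edgeR φ := by
    refine Continuous.ext_on Rat.denseRange_cast h1 hc ?_
    rintro _ ⟨r, rfl⟩
    have h3 : Tm 1 ∈ Gamma0 M := by
      rw [Gamma0_mem]
      simp [Tm]
    have h4 := edge_T h.fs 1 r
    rw [h.inv _ h3] at h4
    have h5 := edgeR_rat hn hev h.fs (r + 1)
    have h6 := edgeR_rat hn hev h.fs r
    push_cast at h4 h5
    simp only
    rw [h5, h6, h4]
  exact congrFun h2 t

/-- the edge function of the reflected symbol. -/
theorem edgeR_eps (hn : 2 ≤ n) (hev : Even n) (h : FS n φ) :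
    edgeR (fact n ES.eps φ) = fun t => edgeR φ (-t) := by
  refine edgeR_unique ((edgeR_cont hn hev h).comp continuous_neg) fun r => ?_
  rw [edge_fact_eps h.deg, ← edgeR_rat hn hev h]
  push_cast
  rfl

end Gouvea.Theta
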