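import Mathlib

set_option autoImplicit false

/-! # Vandermonde arguments with holomorphic functions on the upper half plane -/

namespace Gouvea.ES

open UpperHalfPlane Matrix
open scoped Manifold

/-- the product of the differences of pairwise different holomorphic functions, times a
holomorphic function, is zero only if the last one is -/
theorem vand_cancel {m : ℕ} (H : Fin m → ℍ → ℂ) (hH : ∀ i, MDiff (H i))
    (hinj : Function.Injective H) (g : ℍ → ℂ) (hg : MDiff g)
    (h : ∀ z, (vandermonde fun i => H i z).det * g z = 0) : g = 0 := by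
  have hdiff : ∀ i j : Fin m, MDiff (H j - H i) := fun i j => (hH j).sub (hH i)
  have hprod : MDiff (∏ i : Fin m, ∏ j ∈ Finset.Ioi i, (H j - H i)) :=
    MDifferentiable.prod fun i _ => MDifferentiable.prod fun j _ => hdiff i j
  have h1 : (∏ i : Fin m, ∏ j ∈ Finset.Ioi i, (H j - H i)) * g = 0 := by
    funext z
    have := h z
    rw [det_vandermonde] at this
    simpa [Finset.prod_apply] using this
  rcases (mul_eq_zero_iff hprod hg).1 h1 with h2 | h2
  · exfalso
    rw [prod_eq_zero_iff (fun i _ => MDifferentiable.prod fun j _ => hdiff i j)] at h2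
    obtain ⟨i, -, h3⟩ := h2
    rw [prod_eq_zero_iff (fun j _ => hdiff i j)] at h3
    obtain ⟨j, hj, h4⟩ := h3
    have h5 : H j = H i := sub_eq_zero.1 h4
    exact (Finset.mem_Ioi.1 hj).ne' (hinj h5)
  · exact h2

/-- `∑ G_j H_i ^ j = 0` for all `i` -/
theorem vand_rows {m : ℕ} (H : Fin m → ℍ → ℂ) (hH : ∀ i, MDiff (H i))
    (hinj : Function.Injective H) (G : Fin m → ℍ → ℂ) (hG : ∀ j, MDiff (G j))
    (h : ∀ i z, ∑ j : Fin m, G j z * H i z ^ (j : ℕ) = 0) (j : Fin m) : G j = 0 := by
  refine vand_cancel H hH hinj (G j) (hG j) fun z => ?_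
  have h1 : (vandermonde fun i => H i z) *ᵥ (fun j => G j z) = 0 := by
    funext i
    simp only [mulVec, dotProduct, vandermonde_apply, Pi.zero_apply]
    rw [← h i z]
    exact Finset.sum_congr rfl fun j _ => mul_comm _ _
  have h2 := congrArg (fun v => (adjugate (vandermonde fun i => H i z)) *ᵥ v) h1
  simp only [mulVec_mulVec, adjugate_mul, mulVec_zero, smul_mulVec, one_mulVec] at h2
  have h3 := congrFun h2 j
  simpa using h3

/-- `∑ F_i H_i ^ j = 0` for all `j` -/
theorem vand_cols {m : ℕ} (H : Fin m → ℍ → ℂ) (hH : ∀ i, MDiff (H i))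
    (hinj : Function.Injective H) (F : Fin m → ℍ → ℂ) (hF : ∀ j, MDiff (F j))
    (h : ∀ (j : Fin m) z, ∑ i : Fin m, F i z * H i z ^ (j : ℕ) = 0) (i : Fin m) : F i = 0 := by
  refine vand_cancel H hH hinj (F i) (hF i) fun z => ?_
  have h1 : (fun i => F i z) ᵥ* (vandermonde fun i => H i z) = 0 := by
    funext j
    simp only [vecMul, dotProduct, vandermonde_apply, Pi.zero_apply]
    exact h j z
  have h2 := congrArg (fun v => v ᵥ* (adjugate (vandermonde fun i => H i z))) h1
  simp only [vecMul_vecMul, mul_adjugate, zero_vecMul, vecMul_smul, vecMul_one] at h2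
  have h3 := congrFun h2 i
  simpa using h3

end Gouvea.ES
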