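import Mathlib

/-!
# Vertical integrals of decaying holomorphic functions (MP_d3517d_nt, ES)

`Dec g`: `g` is holomorphic on the upper half plane and decays exponentially towards `i∞`, locally
uniformly in the real part.  `vint g z = i ∫_0^∞ g(z + it) dt` is the primitive of `-g` which
vanishes at `i∞`.
-/

open MeasureTheory Set Filter Topology Complex

noncomputable section

namespace Pool.Agent.Gouv.ES

/-- the upper half plane as a subset of `ℂ` -/
def HP : Set ℂ := {z | 0 < z.im}

lemma isOpen_HP : IsOpen HP := isOpen_lt continuous_const Complex.continuous_im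

lemma mem_HP {z : ℂ} : z ∈ HP ↔ 0 < z.im := Iff.rfl

lemma convex_HP : Convex ℝ HP := convex_halfSpace_im_gt 0

/-- holomorphic on the upper half plane, exponentially decaying towards `i∞`, locally uniformly
in the real part. -/
structure Dec (g : ℂ → ℂ) : Prop where
  diff : DifferentiableOn ℂ g HP
  dec : ∀ A : ℝ, ∃ C a : ℝ, 0 < a ∧ ∀ z : ℂ, |z.re| ≤ A → 1 ≤ z.im →
    ‖g z‖ ≤ C * Real.exp (-a * z.im)

namespace Dec

variable {g h : ℂ → ℂ}

lemma differentiableAt (hg : Dec g) {z : ℂ} (hz : 0 < z.im) : DifferentiableAt ℂ g z :=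
  (hg.diff z hz).differentiableAt (isOpen_HP.mem_nhds hz)

lemma continuousOn (hg : Dec g) : ContinuousOn g HP := hg.diff.continuousOn

/-- decay above every height. -/
lemma dec' (hg : Dec g) (A y : ℝ) (hy : 0 < y) : ∃ C a : ℝ, 0 ≤ C ∧ 0 < a ∧ ∀ z : ℂ, |z.re| ≤ A →
    y ≤ z.im → ‖g z‖ ≤ C * Real.exp (-a * z.im) := by
  obtain ⟨C, a, ha, hC⟩ := hg.dec A
  have hK : IsCompact (uIcc (-|A|) |A| ×ℂ uIcc y (max y 1)) :=
    isCompact_uIcc.reProdIm isCompact_uIcc
  have hsub : (uIcc (-|A|) |A| ×ℂ uIcc y (max y 1)) ⊆ HP := by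
    rintro z ⟨-, hz⟩
    have : z.im ∈ uIcc y (max y 1) := hz
    rw [uIcc_of_le (le_max_left _ _)] at this
    exact hy.trans_le this.1
  obtain ⟨B, hB⟩ := hK.exists_bound_of_continuousOn (hg.continuousOn.mono hsub)
  refine ⟨max (max C 0) (max B 0 * Real.exp (a * max y 1)), a,
    le_max_of_le_left (le_max_right _ _), ha, fun z hz hz' => ?_⟩
  have hexp := Real.exp_pos (-a * z.im)
  rcases le_total 1 z.im with h1 | h1
  · refine (hC z hz h1).trans (mul_le_mul_of_nonneg_right ?_ hexp.le)
    exact (le_max_left _ _).trans (le_max_left _ _)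
  · have hzK : z ∈ (uIcc (-|A|) |A| ×ℂ uIcc y (max y 1)) := by
      refine ⟨?_, ?_⟩
      · change z.re ∈ uIcc (-|A|) |A|
        rw [uIcc_of_le (by linarith [abs_nonneg A] : -|A| ≤ |A|)]
        have := abs_le.1 (hz.trans (le_abs_self A))
        exact ⟨this.1, this.2⟩
      · change z.im ∈ uIcc y (max y 1)
        rw [uIcc_of_le (le_max_left _ _)]
        exact ⟨hz', h1.trans (le_max_right _ _)⟩
    calc ‖g z‖ ≤ max B 0 := (hB z hzK).trans (le_max_left _ _)
      _ = max B 0 * Real.exp (a * z.im) * Real.exp (-a * z.im) := by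
          rw [mul_assoc, ← Real.exp_add]; simp
      _ ≤ max B 0 * Real.exp (a * max y 1) * Real.exp (-a * z.im) := by
          gcongr
          exact h1.trans (le_max_right _ _)
      _ ≤ _ := by
          gcongr
          exact le_max_right _ _

/-- decay of the derivative. -/
lemma deriv_dec (hg : Dec g) (A y : ℝ) (hy : 0 < y) : ∃ C a : ℝ, 0 ≤ C ∧ 0 < a ∧ ∀ z : ℂ,
    |z.re| ≤ A → y ≤ z.im → ‖deriv g z‖ ≤ C * Real.exp (-a * z.im) := by
  obtain ⟨C, a, hC0, ha, hC⟩ := hg.dec' (A + y / 2) (y / 2) (by positivity)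
  refine ⟨C * Real.exp (a * (y / 2)) / (y / 2), a, by positivity, ha, fun z hz hz' => ?_⟩
  have hy2 : 0 < y / 2 := by positivity
  have hmem : ∀ w ∈ Metric.closedBall z (y / 2), |w.re| ≤ A + y / 2 ∧ z.im - y / 2 ≤ w.im := by
    intro w hw
    rw [Metric.mem_closedBall, dist_eq_norm] at hw
    have h1 := (Complex.abs_re_le_norm (w - z)).trans hw
    have h2 := (Complex.abs_im_le_norm (w - z)).trans hw
    rw [Complex.sub_re] at h1
    rw [Complex.sub_im] at h2
    constructor
    · calc |w.re| = |z.re + (w.re - z.re)| := by ring_nf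
        _ ≤ |z.re| + |w.re - z.re| := abs_add_le _ _
        _ ≤ A + y / 2 := add_le_add hz h1
    · have := (abs_le.1 h2).1
      linarith
  have hdc : DiffContOnCl ℂ g (Metric.ball z (y / 2)) := by
    apply DifferentiableOn.diffContOnCl
    intro w hw
    have hw' := hmem w (Metric.closure_ball_subset_closedBall hw)
    exact (hg.differentiableAt (by linarith [hw'.2])).differentiableWithinAt
  have hb : ∀ w ∈ Metric.sphere z (y / 2),
      ‖g w‖ ≤ C * Real.exp (a * (y / 2)) * Real.exp (-a * z.im) := by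
    intro w hw
    have hw' := hmem w (Metric.sphere_subset_closedBall hw)
    refine (hC w hw'.1 (by linarith [hw'.2])).trans ?_
    rw [mul_assoc, ← Real.exp_add]
    gcongr
    nlinarith [hw'.2]
  have := Complex.norm_deriv_le_of_forall_mem_sphere_norm_le hy2 hdc hb
  refine this.trans (le_of_eq ?_)
  ring

end Dec

/-- the vertical integral -/
def vint (g : ℂ → ℂ) (z : ℂ) : ℂ := I * ∫ t in Ioi (0 : ℝ), g (z + t * I)

lemma add_mul_I_re (z : ℂ) (t : ℝ) : (z + t * I).re = z.re := by simp
lemma add_mul_I_im (z : ℂ) (t : ℝ) : (z + t * I).im = z.im + t := by simp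

namespace Dec

variable {g h : ℂ → ℂ}

lemma continuousOn_vert (hg : Dec g) {z : ℂ} (hz : 0 < z.im) :
    ContinuousOn (fun t : ℝ => g (z + t * I)) (Ici 0) := by
  apply hg.continuousOn.comp (by fun_prop)
  intro t ht
  rw [mem_HP, add_mul_I_im]
  exact add_pos_of_pos_of_nonneg hz ht

lemma integrableOn (hg : Dec g) {z : ℂ} (hz : 0 < z.im) :
    IntegrableOn (fun t : ℝ => g (z + t * I)) (Ioi 0) := by
  obtain ⟨C, a, hC0, ha, hC⟩ := hg.dec' |z.re| z.im hz
  have hmeas : AEStronglyMeasurable (fun t : ℝ => g (z + t * I)) (volume.restrict (Ioi 0)) :=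
    ((hg.continuousOn_vert hz).mono Ioi_subset_Ici_self).aestronglyMeasurable measurableSet_Ioi
  have hint : IntegrableOn (fun t : ℝ => C * Real.exp (-a * z.im) * Real.exp (-a * t)) (Ioi 0) :=
    (exp_neg_integrableOn_Ioi 0 ha).const_mul _
  refine Integrable.mono' hint hmeas ?_
  rw [ae_restrict_iff' measurableSet_Ioi]
  refine Eventually.of_forall fun t ht => ?_
  have ht' : (0 : ℝ) < t := ht
  have := hC (z + t * I) (by rw [add_mul_I_re]) (by rw [add_mul_I_im]; linarith)
  refine this.trans (le_of_eq ?_)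
  rw [add_mul_I_im, mul_assoc, ← Real.exp_add]
  ring_nf

/-- **The vertical integral is a primitive of `-g`.** -/
theorem hasDerivAt_vint (hg : Dec g) {z : ℂ} (hz : 0 < z.im) : HasDerivAt (vint g) (-g z) z := by
  obtain ⟨C, a, hC0, ha, hC⟩ := hg.deriv_dec (|z.re| + z.im / 2) (z.im / 2) (by positivity)
  have hzb : Metric.ball z (z.im / 2) ∈ 𝓝 z := Metric.ball_mem_nhds z (by positivity)
  have hball : ∀ w ∈ Metric.ball z (z.im / 2), |w.re| ≤ |z.re| + z.im / 2 ∧ z.im / 2 ≤ w.im := by
    intro w hw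
    rw [Metric.mem_ball, dist_eq_norm] at hw
    have h1 := (Complex.abs_re_le_norm (w - z)).trans hw.le
    have h2 := (Complex.abs_im_le_norm (w - z)).trans hw.le
    rw [Complex.sub_re] at h1
    rw [Complex.sub_im] at h2
    constructor
    · calc |w.re| = |z.re + (w.re - z.re)| := by ring_nf
        _ ≤ |z.re| + |w.re - z.re| := abs_add_le _ _
        _ ≤ |z.re| + z.im / 2 := by linarith
    · have := (abs_le.1 h2).1
      linarith
  have hcd : ContinuousOn (deriv g) HP := by
    have := (hg.diff.analyticOnNhd isOpen_HP).deriv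
    exact this.continuousOn
  have hmeas' : ∀ w : ℂ, 0 < w.im → AEStronglyMeasurable (fun t : ℝ => deriv g (w + t * I))
      (volume.restrict (Ioi 0)) := by
    intro w hw
    refine ContinuousOn.aestronglyMeasurable ?_ measurableSet_Ioi
    apply hcd.comp (by fun_prop)
    intro t ht
    rw [mem_HP, add_mul_I_im]
    exact add_pos hw ht
  have hbint : IntegrableOn (fun t : ℝ => C * Real.exp (-a * t)) (Ioi 0) :=
    (exp_neg_integrableOn_Ioi 0 ha).const_mul _
  have hbd : ∀ᵐ (t : ℝ) ∂(volume.restrict (Ioi (0 : ℝ))), ∀ w ∈ Metric.ball z (z.im / 2),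
      ‖deriv g (w + t * I)‖ ≤ C * Real.exp (-a * t) := by
    rw [ae_restrict_iff' measurableSet_Ioi]
    refine Eventually.of_forall fun t ht w hw => ?_
    have ht' : (0 : ℝ) < t := ht
    have hw' := hball w hw
    refine (hC (w + t * I) (by rw [add_mul_I_re]; exact hw'.1)
      (by rw [add_mul_I_im]; linarith [hw'.2])).trans ?_
    rw [add_mul_I_im]
    refine mul_le_mul_of_nonneg_left (Real.exp_le_exp.2 ?_) hC0
    nlinarith [hw'.2]
  have key := hasDerivAt_integral_of_dominated_loc_of_deriv_le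
    (μ := volume.restrict (Ioi (0 : ℝ))) (F := fun (w : ℂ) (t : ℝ) => g (w + t * I))
    (F' := fun (w : ℂ) (t : ℝ) => deriv g (w + t * I)) (x₀ := z) hzb
    (Filter.eventually_of_mem hzb fun w hw => (hg.integrableOn
      (by linarith [(hball w hw).2])).aestronglyMeasurable)
    (hg.integrableOn hz) (hmeas' z hz) hbd hbint (by
      rw [ae_restrict_iff' measurableSet_Ioi]
      refine Eventually.of_forall fun t ht w hw => ?_
      have ht' : (0 : ℝ) < t := ht
      have hw' := hball w hw
      have h1 : HasDerivAt g (deriv g (w + t * I)) (w + t * I) :=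
        (hg.differentiableAt (by rw [add_mul_I_im]; linarith [hw'.2])).hasDerivAt
      exact h1.comp_add_const w (t * I))
  have hftc : ∫ t in Ioi (0 : ℝ), I * deriv g (z + t * I) = -g z := by
    have h1 : ∀ t ∈ Ici (0 : ℝ), HasDerivAt (fun t : ℝ => g (z + t * I))
        (I * deriv g (z + t * I)) t := by
      intro t ht
      have h2 : HasDerivAt g (deriv g (z + t * I)) (z + t * I) :=
        (hg.differentiableAt (by
          rw [add_mul_I_im]; exact add_pos_of_pos_of_nonneg hz ht)).hasDerivAt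
      have h3 : HasDerivAt (fun w : ℂ => z + w * I) I (t : ℂ) := by
        simpa using ((hasDerivAt_id (t : ℂ)).mul_const I).const_add z
      have h5 : HasDerivAt (fun w : ℂ => g (z + w * I)) (deriv g (z + t * I) * I) (t : ℂ) :=
        HasDerivAt.comp (t : ℂ) h2 h3
      rw [mul_comm] at h5
      exact h5.comp_ofReal
    have h4 : Tendsto (fun t : ℝ => g (z + t * I)) atTop (𝓝 0) := by
      obtain ⟨C', a', -, ha', hC'⟩ := hg.dec' |z.re| z.im hz
      have h5 : Tendsto (fun t : ℝ => C' * Real.exp (-a' * (z.im + t))) atTop (𝓝 0) := by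
        have h6 : Tendsto (fun t : ℝ => -a' * (z.im + t)) atTop atBot := by
          apply Tendsto.const_mul_atTop_of_neg (by linarith)
          exact tendsto_atTop_add_const_left _ _ tendsto_id
        simpa using (Real.tendsto_exp_atBot.comp h6).const_mul C'
      apply squeeze_zero_norm' _ h5
      filter_upwards [eventually_ge_atTop 0] with t ht
      have := hC' (z + t * I) (by rw [add_mul_I_re]) (by rw [add_mul_I_im]; linarith)
      rwa [add_mul_I_im] at this
    have h7 : IntegrableOn (fun t : ℝ => I * deriv g (z + t * I)) (Ioi 0) := key.1.const_mul I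
    have := integral_Ioi_of_hasDerivAt_of_tendsto' h1 h7 h4
    rw [this]
    simp
  have h8 := key.2.const_mul I
  have h9 : I * ∫ t in Ioi (0 : ℝ), deriv g (z + t * I) = -g z := by
    rw [← hftc, integral_const_mul]
  rw [h9] at h8
  exact h8

/-- bound for the vertical integral. -/
lemma norm_vint_le (hg : Dec g) (A y : ℝ) (hy : 0 < y) : ∃ C a : ℝ, 0 ≤ C ∧ 0 < a ∧ ∀ z : ℂ,
    |z.re| ≤ A → y ≤ z.im → ‖vint g z‖ ≤ C * Real.exp (-a * z.im) := by
  obtain ⟨C, a, hC0, ha, hC⟩ := hg.dec' A y hy
  refine ⟨C * (1 / a), a, by positivity, ha, fun z hz hz' => ?_⟩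
  rw [vint, norm_mul, norm_I, one_mul]
  have hint : IntegrableOn (fun t : ℝ => C * Real.exp (-a * z.im) * Real.exp (-a * t)) (Ioi 0) :=
    (exp_neg_integrableOn_Ioi 0 ha).const_mul _
  have h1 : ‖∫ t in Ioi (0 : ℝ), g (z + t * I)‖ ≤
      ∫ t in Ioi (0 : ℝ), C * Real.exp (-a * z.im) * Real.exp (-a * t) := by
    refine norm_integral_le_of_norm_le hint ?_
    rw [ae_restrict_iff' measurableSet_Ioi]
    refine Eventually.of_forall fun t ht => ?_
    have ht' : (0 : ℝ) < t := ht
    refine (hC (z + t * I) (by rw [add_mul_I_re]; exact hz)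
      (by rw [add_mul_I_im]; linarith)).trans (le_of_eq ?_)
    rw [add_mul_I_im, mul_assoc, ← Real.exp_add]
    ring_nf
  refine h1.trans (le_of_eq ?_)
  rw [integral_const_mul]
  have h2 : ∫ t in Ioi (0 : ℝ), Real.exp (-a * t) = 1 / a := by
    have := integral_exp_mul_Ioi (a := -a) (by linarith) 0
    rw [this]
    simp
  rw [h2]
  ring

/-- the vertical integral is of the same kind. -/
theorem vint (hg : Dec g) : Dec (ES.vint g) where
  diff := fun _ hz => (hg.hasDerivAt_vint hz).differentiableAt.differentiableWithinAt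
  dec := fun A => by
    obtain ⟨C, a, -, ha, h⟩ := hg.norm_vint_le A 1 one_pos
    exact ⟨C, a, ha, h⟩

theorem tendsto_vert (hg : Dec g) (z : ℂ) : Tendsto (fun t : ℝ => g (z + t * I)) atTop (𝓝 0) := by
  obtain ⟨C', a', ha', hC'⟩ := hg.dec |z.re|
  have h5 : Tendsto (fun t : ℝ => C' * Real.exp (-a' * (z.im + t))) atTop (𝓝 0) := by
    have h6 : Tendsto (fun t : ℝ => -a' * (z.im + t)) atTop atBot := by
      apply Tendsto.const_mul_atTop_of_neg (by linarith)
      exact tendsto_atTop_add_const_left _ _ tendsto_id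
    simpa using (Real.tendsto_exp_atBot.comp h6).const_mul C'
  apply squeeze_zero_norm' _ h5
  filter_upwards [eventually_ge_atTop (1 - z.im)] with t ht
  have := hC' (z + t * I) (by rw [add_mul_I_re]) (by rw [add_mul_I_im]; linarith)
  rwa [add_mul_I_im] at this

lemma zero : Dec (fun _ => 0) where
  diff := differentiableOn_const 0
  dec := fun A => ⟨0, 1, one_pos, by simp⟩

lemma add (hg : Dec g) (hh : Dec h) : Dec (fun z => g z + h z) where
  diff := hg.diff.add hh.diff
  dec := fun A => by
    obtain ⟨C, a, hC0, ha, hC⟩ := hg.dec' A 1 one_pos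
    obtain ⟨D, b, hD0, hb, hD⟩ := hh.dec' A 1 one_pos
    refine ⟨C + D, min a b, lt_min ha hb, fun z hz hz' => ?_⟩
    refine (norm_add_le _ _).trans ?_
    rw [add_mul]
    refine add_le_add ((hC z hz hz').trans ?_) ((hD z hz hz').trans ?_)
    · refine mul_le_mul_of_nonneg_left (Real.exp_le_exp.2 ?_) hC0
      nlinarith [min_le_left a b]
    · refine mul_le_mul_of_nonneg_left (Real.exp_le_exp.2 ?_) hD0
      nlinarith [min_le_right a b]

lemma const_mul (hg : Dec g) (c : ℂ) : Dec (fun z => c * g z) where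
  diff := hg.diff.const_mul c
  dec := fun A => by
    obtain ⟨C, a, ha, hC⟩ := hg.dec A
    refine ⟨‖c‖ * C, a, ha, fun z hz hz' => ?_⟩
    rw [norm_mul, mul_assoc]
    exact mul_le_mul_of_nonneg_left (hC z hz hz') (norm_nonneg _)

lemma sum {ι : Type*} (s : Finset ι) {G : ι → ℂ → ℂ} (hG : ∀ i ∈ s, Dec (G i)) :
    Dec (fun z => ∑ i ∈ s, G i z) := by
  classical
  induction s using Finset.induction_on with
  | empty => simpa using zero
  | insert i s hi ih =>
    simp only [Finset.sum_insert hi]
    exact (hG i (Finset.mem_insert_self _ _)).add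
      (ih fun j hj => hG j (Finset.mem_insert_of_mem hj))

/-- multiplication by `z` preserves the class. -/
lemma mul_id (hg : Dec g) : Dec (fun z => z * g z) where
  diff := differentiableOn_id.mul hg.diff
  dec := fun A => by
    obtain ⟨C, a, hC0, ha, hC⟩ := hg.dec' A 1 one_pos
    refine ⟨(|A| + 2 / a) * C, a / 2, by positivity, fun z hz hz' => ?_⟩
    rw [norm_mul]
    have hzn : ‖z‖ ≤ |A| + z.im := by
      refine (Complex.norm_le_abs_re_add_abs_im z).trans ?_
      rw [abs_of_pos (by linarith : 0 < z.im)]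
      exact add_le_add (hz.trans (le_abs_self A)) le_rfl
    have h1 : z.im ≤ 2 / a * Real.exp (a / 2 * z.im) := by
      have := Real.add_one_le_exp (a / 2 * z.im)
      rw [div_mul_eq_mul_div, le_div_iff₀ ha]
      nlinarith
    have h2 : |A| ≤ |A| * Real.exp (a / 2 * z.im) := by
      have : 1 ≤ Real.exp (a / 2 * z.im) := Real.one_le_exp (by nlinarith)
      nlinarith [abs_nonneg A]
    calc ‖z‖ * ‖g z‖ ≤ ((|A| + 2 / a) * Real.exp (a / 2 * z.im)) *
          (C * Real.exp (-a * z.im)) := by
          apply mul_le_mul _ (hC z hz hz') (norm_nonneg _)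
          · positivity
          · rw [add_mul]; linarith
      _ = (|A| + 2 / a) * C * (Real.exp (a / 2 * z.im) * Real.exp (-a * z.im)) := by ring
      _ = _ := by rw [← Real.exp_add]; ring_nf

lemma pow_mul (hg : Dec g) (m : ℕ) : Dec (fun z => z ^ m * g z) := by
  induction m with
  | zero => simpa using hg
  | succ m ih =>
    have := ih.mul_id
    refine (funext fun z => ?_ : (fun z => z ^ (m + 1) * g z) = fun z => z * (z ^ m * g z)) ▸ this
    ring

lemma congr (hg : Dec g) (hgh : ∀ z : ℂ, 0 < z.im → h z = g z) : Dec h where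
  diff := hg.diff.congr fun z hz => hgh z hz
  dec := fun A => by
    obtain ⟨C, a, ha, hC⟩ := hg.dec A
    exact ⟨C, a, ha, fun z hz hz' => by rw [hgh z (by linarith)]; exact hC z hz hz'⟩

/-- translations. -/
lemma comp_add (hg : Dec g) (b : ℝ) : Dec (fun z => g (z + b)) where
  diff := by
    apply hg.diff.comp (by fun_prop)
    intro z hz
    simpa [mem_HP] using hz
  dec := fun A => by
    obtain ⟨C, a, ha, hC⟩ := hg.dec (A + |b|)
    refine ⟨C, a, ha, fun z hz hz' => ?_⟩
    have := hC (z + b) (by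
      simp only [add_re, ofReal_re]
      exact (abs_add_le _ _).trans (add_le_add hz le_rfl)) (by simpa using hz')
    simpa using this

end Dec

lemma vint_add {g h : ℂ → ℂ} (hg : Dec g) (hh : Dec h) {z : ℂ} (hz : 0 < z.im) :
    vint (fun z => g z + h z) z = vint g z + vint h z := by
  rw [vint, vint, vint, integral_add (hg.integrableOn hz) (hh.integrableOn hz), mul_add]

lemma vint_const_mul (g : ℂ → ℂ) (c z : ℂ) : vint (fun z => c * g z) z = c * vint g z := by
  rw [vint, vint, integral_const_mul]; ring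

lemma vint_congr {g h : ℂ → ℂ} (hgh : ∀ z : ℂ, 0 < z.im → h z = g z) {z : ℂ} (hz : 0 < z.im) :
    vint h z = vint g z := by
  rw [vint, vint]
  congr 1
  refine setIntegral_congr_fun measurableSet_Ioi fun t ht => ?_
  have ht' : (0 : ℝ) < t := ht
  exact hgh _ (by rw [add_mul_I_im]; linarith)

/-- a function with derivative zero on the half plane is constant. -/
lemma eq_of_deriv_zero {D : ℂ → ℂ} (hD : ∀ z : ℂ, 0 < z.im → HasDerivAt D 0 z) {z w : ℂ}
    (hz : 0 < z.im) (hw : 0 < w.im) : D z = D w := by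
  have h1 : DifferentiableOn ℂ D HP := fun z hz => (hD z hz).differentiableAt.differentiableWithinAt
  exact convex_HP.is_const_of_fderivWithin_eq_zero (𝕜 := ℂ) h1 (fun x hx => by
    rw [fderivWithin_of_isOpen isOpen_HP hx]
    have := (hD x hx).hasFDerivAt.fderiv
    rw [this]; simp) hz hw

/-- two functions with the same derivative on the half plane differ by a constant. -/
lemma sub_const_of_deriv {F G f : ℂ → ℂ} (hF : ∀ z : ℂ, 0 < z.im → HasDerivAt F (f z) z)
    (hG : ∀ z : ℂ, 0 < z.im → HasDerivAt G (f z) z) {z w : ℂ} (hz : 0 < z.im) (hw : 0 < w.im) :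
    F z - G z = F w - G w := by
  apply eq_of_deriv_zero (D := fun z => F z - G z) _ hz hw
  intro u hu
  have := (hF u hu).sub (hG u hu)
  rw [sub_self] at this
  exact this

/-- **uniqueness of the primitive vanishing at `i∞`.** -/
theorem eq_vint {F g : ℂ → ℂ} (hg : Dec g) (hF : ∀ z : ℂ, 0 < z.im → HasDerivAt F (-g z) z)
    (h0 : ∃ z0 : ℂ, Tendsto (fun t : ℝ => F (z0 + t * I)) atTop (𝓝 0)) {z : ℂ} (hz : 0 < z.im) :
    F z = vint g z := by
  obtain ⟨z0, hz0⟩ := h0
  have h1 : Tendsto (fun t : ℝ => F (z0 + t * I) - vint g (z0 + t * I)) atTop (𝓝 (0 - 0)) :=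
    hz0.sub (hg.vint.tendsto_vert z0)
  have h2 : (fun t : ℝ => F (z0 + t * I) - vint g (z0 + t * I)) =ᶠ[atTop]
      fun _ => F z - vint g z := by
    filter_upwards [eventually_gt_atTop (-z0.im)] with t ht
    exact sub_const_of_deriv hF (fun z hz => hg.hasDerivAt_vint hz)
      (by rw [add_mul_I_im]; linarith) hz
  have h3 := tendsto_nhds_unique (h1.congr' h2) tendsto_const_nhds
  rw [sub_zero] at h3
  exact sub_eq_zero.1 h3.symm

end Pool.Agent.Gouv.ES
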